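import Pool.Agent.QU.Level3

set_option linter.unusedVariables false
set_option linter.unusedSectionVars false
set_option linter.style.longLine false

/-! Every 3-connected QU chain group has an icosian gauge. -/

open Quaternion

namespace Pool.Agent.QU

variable {E : Type*} [Fintype E] [DecidableEq E]

theorem nnaxF : NNax (fun _ _ => False : Finset E → (Finset E → ℤ) → Prop) where
  congr := fun _ _ _ _ h => h
  perm := fun _ _ _ h => h
  conn3 := fun _ _ h => h.elim
  card := fun _ _ h => h.elim
  dual := fun _ _ _ h => h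

theorem level3 (U : Finset E) (V : CG E) (hU : SuppIn V U) (hV : IsQU V) (h3 : Conn3 U (rk V))
    (hF : F NN3 U (rk V)) : ∃ g, Gauged RI V g := by
  refine level RI_st nnax3 nnaxF rig3 base3 ?_ ?_ U.card U V rfl hU hV h3 hF
    (fun ⟨S, K, _, _, _, h⟩ => h)
  · intro U V hU hV h3 hF' ⟨x, hx, hN⟩
    have hr := rk_RK V
    have hc := Finset.card_erase_add_one hx
    have hc4 := hN.1
    rcases hN.2 with h2 | h2 | h2
    · exfalso
      have h5 := unif_card h2 (by rw [hc4]; norm_num)
      rw [(h3.conn.single hr (by omega) hx).2] at h5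
      exact no_U27 hU hV (unif2_of_conn3 hr h3 (by omega) h5) (by omega)
    · -- `U₄₆`: dualise
      have hrp : ∀ A, A ⊆ U → dl U (rk V) A = rk (perp U V) A := fun A hA => (rk_perp hU hA).symm
      refine gauge_of_dual RI_st hU hV (B2_gauge (perp_suppIn U V) (hV.dual hU)
        ((h3.dl hr).congr hrp) (by omega) hx ?_)
      have h6 := h2.dual (by norm_num) (by rw [hc4]; norm_num)
      rw [hc4] at h6
      refine Unif.congr ?_ h6
      intro A hA
      rw [← dl_erase U (rk V) hx hA]
      have hA' : A ∪ {x} ⊆ U := by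
        intro z hz
        simp only [Finset.mem_union, Finset.mem_singleton] at hz
        rcases hz with hz | rfl
        · exact Finset.mem_of_mem_erase (hA hz)
        · exact hx
      rw [con, con, hrp _ hA', hrp {x} (by simpa using hx)]
    · exact B1_gauge hU hV h3 (by omega) hx h2
  · intro U V hU hV h3 hF' ⟨x, hx, y, hy, hxy, hN, h3x, h3y⟩
    have hr := rk_RK V
    have hrc := hr.con {y}
    have hxy' : x ∈ U.erase y := Finset.mem_erase.2 ⟨hxy, hx⟩
    have hyx' : y ∈ U.erase x := Finset.mem_erase.2 ⟨hxy.symm, hy⟩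
    have hc := Finset.card_erase_add_one hyx'
    have hc2 := Finset.card_erase_add_one hx
    have hc3 := Finset.card_erase_add_one hy
    have hc4 := hN.1
    rcases hN.2 with h2 | h2 | h2
    · exfalso
      have h5 := unif_card h2 (by rw [hc4]; norm_num)
      rw [Finset.erase_right_comm, (h3y.conn.single hrc (by omega) hxy').2] at h5
      refine no_U27 (hU.ctr y) (hV.minor _ _) ?_ (by omega)
      exact Unif.congr (fun A hA => (rk_ctr V y A).symm)
        (unif2_of_conn3 hrc h3y (by omega) h5)
    · exfalso
      have h5 := unif_card h2 (by rw [hc4]; norm_num)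
      have h6 : rk V (U.erase x) = 5 := by
        have e1 : (U.erase x).erase y ∪ {y} = U.erase x := by
          rw [Finset.union_comm]; exact Finset.insert_erase hyx'
        rw [con, e1, (h3x.conn.single hr (by omega) hyx').1] at h5
        omega
      have h7 := (h3x.dl hr).congr (r' := rk (perp (U.erase x) (mino V {x} ∅))) (by
        intro A hA
        rw [rk_perp (hU.del x) hA, dl, dl, rk_del, rk_del]
        · simp
        · intro h; simpa using Finset.sdiff_subset h)
      have h8 : rk (perp (U.erase x) (mino V {x} ∅)) (U.erase x) = 2 := by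
        rw [rk_perp (hU.del x) (Finset.Subset.refl _), dl, Finset.sdiff_self,
          (rk_RK _).empty, rk_del (by simp), h6]
        omega
      exact no_U27 (perp_suppIn _ _) ((hV.minor _ _).dual (hU.del x))
        (unif2_of_conn3 (rk_RK _) h7 (by omega) h8) (by omega)
    · exact B3_gauge hU hV h3 (by omega) hx hy hxy h3x h3y h2

theorem Gauged.mono {R R' : Subring ℍ[ℝ]} (h : R ≤ R') {V : CG E} {g : E → ℍ[ℝ]}
    (hg : Gauged R V g) : Gauged R' V g :=
  ⟨hg.1, fun c hc a ha b => h (hg.2 c hc a ha b)⟩

/-- every 3-connected QU chain group has an icosian gauge -/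
theorem all_gauged (U : Finset E) (V : CG E) (hU : SuppIn V U) (hV : IsQU V)
    (h3 : Conn3 U (rk V)) : ∃ g, Gauged RI V g := by
  by_cases h : F NN3 U (rk V)
  · exact level3 U V hU hV h3 h
  by_cases h' : F NN2 U (rk V)
  · obtain ⟨g, hg⟩ := level2 U V hU hV h3 h' h
    exact ⟨g, hg.mono RT_le_RI⟩
  by_cases h'' : F NN1 U (rk V)
  · obtain ⟨g, hg⟩ := level1 U V hU hV h3 h'' h'
    exact ⟨g, hg.mono (RC_le_RT.trans RT_le_RI)⟩
  · obtain ⟨g, hg⟩ := level0 U.card U V rfl hU hV h3.conn h''
    exact ⟨g, hg.mono (R0_le _)⟩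

end Pool.Agent.QU
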