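import Pool.Agent.QU.Defs

set_option linter.unusedVariables false
set_option linter.unusedSectionVars false
set_option linter.style.longLine false

/-! 1-sums and 2-sums of quaternionic chain groups. -/

open Quaternion

namespace Pool.Agent.QU

variable {E : Type*} [Fintype E] [DecidableEq E]

namespace Dec

/-- every chain contains an elementary one through a given point of its support -/
theorem exists_elem {V : CG E} {c : E → ℍ[ℝ]} (hc : c ∈ V) {a : E} (ha : c a ≠ 0) :
    ∃ d, Elem V d ∧ (∀ e, c e = 0 → d e = 0) ∧ d a ≠ 0 := by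
  classical
  induction hn : (Finset.univ.filter (fun e => c e ≠ 0)).card using Nat.strong_induction_on
    generalizing c with
  | _ n ih =>
    by_cases hel : Elem V c
    · exact ⟨c, hel, fun e h => h, ha⟩
    · have hc0 : c ≠ 0 := fun h => ha (by rw [h]; rfl)
      have : ∃ d ∈ V, d ≠ 0 ∧ (∀ e, c e = 0 → d e = 0) ∧ ∃ e, d e = 0 ∧ c e ≠ 0 := by
        by_contra hcon
        push Not at hcon
        exact hel ⟨hc, hc0, fun d hd hd0 hs e he => hcon d hd hd0 hs e he⟩
      obtain ⟨d, hd, hd0, hs, e, hde, hce⟩ := this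
      by_cases hda : d a = 0
      · obtain ⟨f, hf⟩ : ∃ f, d f ≠ 0 := by
          by_contra h
          push Not at h
          exact hd0 (funext h)
        set c' : E → ℍ[ℝ] := c - (c f * (d f)⁻¹) • d with hc'
        have hc'V : c' ∈ V := V.sub_mem hc (V.smul_mem _ hd)
        have hc's : ∀ e, c e = 0 → c' e = 0 := by
          intro e he
          simp [hc', he, hs e he]
        have hc'f : c' f = 0 := by
          simp [hc', mul_assoc, inv_mul_cancel₀ hf]
        have hcf : c f ≠ 0 := fun h => hf (hs f h)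
        have hc'a : c' a ≠ 0 := by
          simp [hc', hda, ha]
        have hlt : (Finset.univ.filter (fun e => c' e ≠ 0)).card < n := by
          rw [← hn]
          apply Finset.card_lt_card
          refine ⟨fun e he => ?_, fun h => ?_⟩
          · simp only [Finset.mem_filter, Finset.mem_univ, true_and] at he ⊢
            exact fun h => he (hc's e h)
          · have := h (x := f) (by simpa using hcf)
            simp [hc'f] at this
        obtain ⟨d', h1, h2, h3⟩ := ih _ hlt hc'V hc'a rfl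
        exact ⟨d', h1, fun e he => h2 e (hc's e he), h3⟩
      · have hlt : (Finset.univ.filter (fun e => d e ≠ 0)).card < n := by
          rw [← hn]
          apply Finset.card_lt_card
          refine ⟨fun e he => ?_, fun h => ?_⟩
          · simp only [Finset.mem_filter, Finset.mem_univ, true_and] at he ⊢
            exact fun h => he (hs e h)
          · have := h (x := e) (by simpa using hce)
            simp [hde] at this
        obtain ⟨d', h1, h2, h3⟩ := ih _ hlt hd hda rfl
        exact ⟨d', h1, fun e he => h2 e (hs e he), h3⟩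

theorem Elem.smul' {V : CG E} {c : E → ℍ[ℝ]} (h : Elem V c) {x : ℍ[ℝ]} (hx : x ≠ 0) :
    Elem V (x • c) := by
  refine ⟨V.smul_mem _ h.1, smul_ne_zero hx h.2.1, fun d hd hd0 hs e he => ?_⟩
  have := h.2.2 d hd hd0 (fun e he => hs e (by simp [he])) e he
  simp [this]

/-- supports of elementary chains -/
def CS (V : CG E) (S : Set E) : Prop := ∃ c, Elem V c ∧ Function.support c = S

theorem mem_supp {c : E → ℍ[ℝ]} {e : E} : e ∈ Function.support c ↔ c e ≠ 0 := Iff.rfl

/-! ### direct sums -/

theorem elem_sup {V₁ V₂ : CG E} {A B : Finset E} (hA : SuppIn V₁ A) (hB : SuppIn V₂ B)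
    (hAB : Disjoint A B) (c : E → ℍ[ℝ]) : Elem (V₁ ⊔ V₂) c ↔ Elem V₁ c ∨ Elem V₂ c := by
  have hdis : ∀ e, e ∈ A → e ∉ B := fun e h1 h2 => (Finset.disjoint_left.1 hAB) h1 h2
  constructor
  · rintro ⟨hc, hc0, hmin⟩
    obtain ⟨c₁, hc₁, c₂, hc₂, rfl⟩ := Submodule.mem_sup.1 hc
    by_cases h1 : c₁ = 0
    · right
      subst h1
      rw [zero_add] at *
      exact ⟨hc₂, hc0, fun d hd => hmin d (Submodule.mem_sup_right hd)⟩
    · left
      have hs : ∀ e, (c₁ + c₂) e = 0 → c₁ e = 0 := by
        intro e he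
        by_cases heA : e ∈ A
        · have := hB c₂ hc₂ e (hdis e heA)
          simpa [this] using he
        · exact hA c₁ hc₁ e heA
      have h2 : c₂ = 0 := by
        funext e
        by_cases heA : e ∈ A
        · exact hB c₂ hc₂ e (hdis e heA)
        · have h3 := hmin c₁ (Submodule.mem_sup_left hc₁) h1 hs e (hA c₁ hc₁ e heA)
          simpa [hA c₁ hc₁ e heA] using h3
      subst h2
      rw [add_zero] at *
      exact ⟨hc₁, hc0, fun d hd => hmin d (Submodule.mem_sup_left hd)⟩
  · rintro (⟨hc, hc0, hmin⟩ | ⟨hc, hc0, hmin⟩)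
    · refine ⟨Submodule.mem_sup_left hc, hc0, fun d hd hd0 hs => ?_⟩
      obtain ⟨d₁, hd₁, d₂, hd₂, rfl⟩ := Submodule.mem_sup.1 hd
      have h2 : d₂ = 0 := by
        funext e
        by_cases heA : e ∈ A
        · exact hB d₂ hd₂ e (hdis e heA)
        · have := hs e (hA c hc e heA)
          simpa [hA d₁ hd₁ e heA] using this
      subst h2
      rw [add_zero] at *
      exact hmin d₁ hd₁ hd0 hs
    · refine ⟨Submodule.mem_sup_right hc, hc0, fun d hd hd0 hs => ?_⟩
      obtain ⟨d₁, hd₁, d₂, hd₂, rfl⟩ := Submodule.mem_sup.1 hd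
      have h2 : d₁ = 0 := by
        funext e
        by_cases heA : e ∈ A
        · have := hs e (hB c hc e (hdis e heA))
          simpa [hB d₂ hd₂ e (hdis e heA)] using this
        · exact hA d₁ hd₁ e heA
      subst h2
      rw [zero_add] at *
      exact hmin d₂ hd₂ hd0 hs

/-! ### the two-sum construction -/

/-- restrict `c` to `A` and put `t` at `b`. -/
noncomputable def ext (A : Finset E) (b : E) (c : E → ℍ[ℝ]) (t : ℍ[ℝ]) : E → ℍ[ℝ] :=
  fun e => if e ∈ A then c e else if e = b then t else 0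

theorem ext_of_mem {A : Finset E} {b : E} {c : E → ℍ[ℝ]} {t : ℍ[ℝ]} {e : E} (h : e ∈ A) :
    ext A b c t e = c e := by simp [ext, h]

theorem ext_b {A : Finset E} {b : E} (hb : b ∉ A) {c : E → ℍ[ℝ]} {t : ℍ[ℝ]} :
    ext A b c t b = t := by simp [ext, hb]

theorem ext_out {A : Finset E} {b : E} {c : E → ℍ[ℝ]} {t : ℍ[ℝ]} {e : E} (h : e ∉ A)
    (h' : e ≠ b) : ext A b c t e = 0 := by simp [ext, h, h']

theorem ext_add (A : Finset E) (b : E) (c d : E → ℍ[ℝ]) (s t : ℍ[ℝ]) :
    ext A b (c + d) (s + t) = ext A b c s + ext A b d t := by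
  funext e
  by_cases h : e ∈ A
  · simp [ext, h]
  · by_cases h' : e = b
    · subst h'; simp [ext, h]
    · simp [ext, h, h']

theorem ext_smul (A : Finset E) (b : E) (c : E → ℍ[ℝ]) (x t : ℍ[ℝ]) :
    ext A b (x • c) (x * t) = x • ext A b c t := by
  funext e
  by_cases h : e ∈ A
  · simp [ext, h]
  · by_cases h' : e = b
    · subst h'; simp [ext, h]
    · simp [ext, h, h']

theorem ext_zero (A : Finset E) (b : E) : ext A b (0 : E → ℍ[ℝ]) 0 = 0 := by
  funext e
  simp [ext]

/-- the two-sum -/
noncomputable def TS (A B : Finset E) (a b : E) (V₁ V₂ : CG E) : CG E where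
  carrier := {c | (∀ e, e ∉ A → e ∉ B → c e = 0) ∧ ∃ t, ext A b c t ∈ V₁ ∧ ext B a c t ∈ V₂}
  add_mem' := by
    rintro c d ⟨h1, s, h2, h3⟩ ⟨h4, t, h5, h6⟩
    refine ⟨fun e hA hB => by simp [h1 e hA hB, h4 e hA hB], s + t, ?_, ?_⟩
    · rw [ext_add]; exact V₁.add_mem h2 h5
    · rw [ext_add]; exact V₂.add_mem h3 h6
  zero_mem' := by
    refine ⟨fun e _ _ => rfl, 0, ?_, ?_⟩
    · rw [ext_zero]; exact V₁.zero_mem
    · rw [ext_zero]; exact V₂.zero_mem
  smul_mem' := by
    rintro x c ⟨h1, s, h2, h3⟩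
    refine ⟨fun e hA hB => by simp [h1 e hA hB], x * s, ?_, ?_⟩
    · rw [ext_smul]; exact V₁.smul_mem _ h2
    · rw [ext_smul]; exact V₂.smul_mem _ h3

/-- common hypotheses: `V` lives on `A ∪ {b}` and has no chain supported in `{b}` -/
structure Good (A : Finset E) (b : E) (V : CG E) : Prop where
  supp : SuppIn V (insert b A)
  nb : b ∉ A
  free : ∀ c ∈ V, (∀ e ∈ A, c e = 0) → c = 0

theorem Good.ext_self {A : Finset E} {b : E} {V : CG E} (h : Good A b V) {c : E → ℍ[ℝ]}
    (hc : c ∈ V) : ext A b c (c b) = c := by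
  funext e
  by_cases h1 : e ∈ A
  · exact ext_of_mem h1
  · by_cases h2 : e = b
    · subst h2; exact ext_b h1
    · rw [ext_out h1 h2, h.supp c hc e (by simp [h1, h2])]

theorem Good.t_eq_zero {A : Finset E} {b : E} {V : CG E} (h : Good A b V) {c : E → ℍ[ℝ]}
    {t : ℍ[ℝ]} (hc : ext A b c t ∈ V) (h0 : ∀ e ∈ A, c e = 0) : t = 0 := by
  have := h.free _ hc (fun e he => by rw [ext_of_mem he]; exact h0 e he)
  have h2 := congrFun this b
  rwa [ext_b h.nb] at h2

/-- glue -/
noncomputable def glue (A B : Finset E) (c d : E → ℍ[ℝ]) : E → ℍ[ℝ] :=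
  fun e => if e ∈ A then c e else if e ∈ B then d e else 0

theorem elem_TS_left {A B : Finset E} {a b : E} {V₁ V₂ : CG E} (h₁ : Good A b V₁)
    (h₂ : Good B a V₂) (hAB : Disjoint A B) {c : E → ℍ[ℝ]} :
    (Elem (TS A B a b V₁ V₂) c ∧ ∀ e ∈ B, c e = 0) ↔ (Elem V₁ c ∧ c b = 0) := by
  have hdis : ∀ e, e ∈ A → e ∉ B := fun e h1 h2 => (Finset.disjoint_left.1 hAB) h1 h2
  -- membership
  have key : ∀ d : E → ℍ[ℝ], (d ∈ TS A B a b V₁ V₂ ∧ ∀ e ∈ B, d e = 0) ↔ (d ∈ V₁ ∧ d b = 0) := by
    intro d
    constructor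
    · rintro ⟨⟨h1, t, h2, h3⟩, h4⟩
      have ht := h₂.t_eq_zero h3 h4
      subst ht
      have h5 : ext A b d 0 = d := by
        funext e
        by_cases hA : e ∈ A
        · exact ext_of_mem hA
        · have : d e = 0 := by
            by_cases hB : e ∈ B
            · exact h4 e hB
            · exact h1 e hA hB
          rw [this]
          by_cases hb : e = b
          · subst hb; exact ext_b hA
          · exact ext_out hA hb
      rw [h5] at h2
      refine ⟨h2, ?_⟩
      have := ext_b h₁.nb (c := d) (t := 0)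
      rwa [h5] at this
    · rintro ⟨h1, h2⟩
      have h3 : ∀ e, e ∉ A → d e = 0 := by
        intro e he
        by_cases hb : e = b
        · subst hb; exact h2
        · exact h₁.supp d h1 e (by simp [he, hb])
      refine ⟨⟨fun e hA hB => h3 e hA, 0, ?_, ?_⟩, fun e he => h3 e (fun h => hdis e h he)⟩
      · have := h₁.ext_self h1
        rw [h2] at this
        rwa [this]
      · have : ext B a d 0 = 0 := by
          funext e
          by_cases hB : e ∈ B
          · rw [ext_of_mem hB]; exact h3 e (fun h => hdis e h hB)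
          · by_cases ha : e = a
            · subst ha; exact ext_b hB
            · exact ext_out hB ha
        rw [this]; exact V₂.zero_mem
  constructor
  · rintro ⟨⟨hc, hc0, hmin⟩, hB⟩
    obtain ⟨k1, k2⟩ := (key c).1 ⟨hc, hB⟩
    refine ⟨⟨k1, hc0, fun d hd hd0 hs => ?_⟩, k2⟩
    exact hmin d ((key d).2 ⟨hd, hs b k2⟩).1 hd0 hs
  · rintro ⟨⟨hc, hc0, hmin⟩, hb⟩
    obtain ⟨k1, k2⟩ := (key c).2 ⟨hc, hb⟩
    refine ⟨⟨k1, hc0, fun d hd hd0 hs => ?_⟩, k2⟩
    exact hmin d ((key d).1 ⟨hd, fun e he => hs e (k2 e he)⟩).1 hd0 hs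

theorem TS_comm (A B : Finset E) (a b : E) (V₁ V₂ : CG E) :
    TS A B a b V₁ V₂ = TS B A b a V₂ V₁ := by
  ext c
  constructor
  · rintro ⟨h1, t, h2, h3⟩
    exact ⟨fun e hB hA => h1 e hA hB, t, h3, h2⟩
  · rintro ⟨h1, t, h2, h3⟩
    exact ⟨fun e hA hB => h1 e hB hA, t, h3, h2⟩

/-- crossing elementary chains of the two-sum -/
theorem elem_TS_cross {A B : Finset E} {a b : E} {V₁ V₂ : CG E} (h₁ : Good A b V₁)
    (h₂ : Good B a V₂) (hAB : Disjoint A B) {c : E → ℍ[ℝ]} :
    (Elem (TS A B a b V₁ V₂) c ∧ (∃ e ∈ A, c e ≠ 0) ∧ (∃ e ∈ B, c e ≠ 0)) ↔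
    ((∀ e, e ∉ A → e ∉ B → c e = 0) ∧
      ∃ t, t ≠ 0 ∧ Elem V₁ (ext A b c t) ∧ Elem V₂ (ext B a c t)) := by
  have hdis : ∀ e, e ∈ A → e ∉ B := fun e h1 h2 => (Finset.disjoint_left.1 hAB) h1 h2
  have hdis' : ∀ e, e ∈ B → e ∉ A := fun e h1 h2 => (Finset.disjoint_left.1 hAB) h2 h1
  constructor
  · rintro ⟨⟨⟨h1, t, h2, h3⟩, hc0, hmin⟩, ⟨e₁, he₁, hce₁⟩, ⟨e₂, he₂, hce₂⟩⟩
    refine ⟨h1, t, ?_, ?_, ?_⟩
    · rintro rfl
      -- glue c on A with 0 on B
      have hm : glue A B c 0 ∈ TS A B a b V₁ V₂ := by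
        refine ⟨fun e hA hB => by simp [glue, hA, hB], 0, ?_, ?_⟩
        · have : ext A b (glue A B c 0) 0 = ext A b c 0 := by
            funext e
            by_cases hA : e ∈ A
            · simp [ext, glue, hA]
            · simp [ext, hA]
          rw [this]; exact h2
        · have : ext B a (glue A B c 0) 0 = 0 := by
            funext e
            by_cases hB : e ∈ B
            · simp [ext, glue, hB, hdis' e hB]
            · simp [ext, hB]
          rw [this]; exact V₂.zero_mem
      have h5 := hmin _ hm (fun h => hce₁ (by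
        have := congrFun h e₁
        simpa [glue, he₁] using this)) (fun e he => by
          by_cases hA : e ∈ A
          · simp [glue, hA, he]
          · simp [glue, hA]) e₂ (by simp [glue, hdis' e₂ he₂])
      exact hce₂ h5
    · refine ⟨h2, fun h => hce₁ ?_, fun d hd hd0 hs => ?_⟩
      · have := congrFun h e₁
        rwa [ext_of_mem he₁] at this
      · -- d ∈ V₁, support inside that of (c|A, t)
        by_cases hdb : d b = 0
        · exfalso
          have hm : d ∈ TS A B a b V₁ V₂ ∧ ∀ e ∈ B, d e = 0 := by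
            have h3 : ∀ e, e ∉ A → d e = 0 := by
              intro e he
              by_cases hb : e = b
              · subst hb; exact hdb
              · exact h₁.supp d hd e (by simp [he, hb])
            refine ⟨⟨fun e hA hB => h3 e hA, 0, ?_, ?_⟩, fun e he => h3 e (hdis' e he)⟩
            · have := h₁.ext_self hd
              rw [hdb] at this
              rwa [this]
            · have : ext B a d 0 = 0 := by
                funext e
                by_cases hB : e ∈ B
                · rw [ext_of_mem hB]; exact h3 e (hdis' e hB)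
                · simp [ext, hB]
              rw [this]; exact V₂.zero_mem
          have h5 := hmin d hm.1 hd0 (fun e he => by
            by_cases hA : e ∈ A
            · exact hs e (by rw [ext_of_mem hA]; exact he)
            · by_cases hb : e = b
              · subst hb; exact hdb
              · exact h₁.supp d hd e (by simp [hA, hb])) e₂ (hm.2 e₂ he₂)
          exact hce₂ h5
        · -- scale
          have ht : t ≠ 0 := by
            rintro rfl
            exact hdb (hs b (ext_b h₁.nb))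
          set x : ℍ[ℝ] := t * (d b)⁻¹ with hx
          have hx0 : x ≠ 0 := mul_ne_zero ht (inv_ne_zero hdb)
          have hxd : (x • d) ∈ V₁ := V₁.smul_mem _ hd
          have hxdb : (x • d) b = t := by simp [hx, mul_assoc, inv_mul_cancel₀ hdb]
          have hm : glue A B (x • d) c ∈ TS A B a b V₁ V₂ := by
            refine ⟨fun e hA hB => by simp [glue, hA, hB], t, ?_, ?_⟩
            · have : ext A b (glue A B (x • d) c) t = x • d := by
                rw [← h₁.ext_self hxd]
                funext e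
                by_cases hA : e ∈ A
                · simp [ext, glue, hA]
                · simp only [ext, hA, if_false, hxdb]
              rw [this]; exact hxd
            · have : ext B a (glue A B (x • d) c) t = ext B a c t := by
                funext e
                by_cases hB : e ∈ B
                · simp [ext, glue, hB, hdis' e hB]
                · simp [ext, hB]
              rw [this]; exact h3
          have h5 := hmin _ hm (fun h => hce₂ (by
            have := congrFun h e₂
            simpa [glue, he₂, hdis' e₂ he₂] using this)) (fun e he => by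
              by_cases hA : e ∈ A
              · have : d e = 0 := hs e (by rw [ext_of_mem hA]; exact he)
                simp [glue, hA, this]
              · by_cases hB : e ∈ B
                · simp [glue, hA, hB, he]
                · simp [glue, hA, hB])
          intro e he
          by_cases hA : e ∈ A
          · rw [ext_of_mem hA]
            exact h5 e (by simp [glue, hA, he])
          · by_cases hb : e = b
            · subst hb; exact absurd he hdb
            · exact ext_out hA hb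
    · refine ⟨h3, fun h => hce₂ ?_, fun d hd hd0 hs => ?_⟩
      · have := congrFun h e₂
        rwa [ext_of_mem he₂] at this
      · by_cases hdb : d a = 0
        · exfalso
          have hm : d ∈ TS A B a b V₁ V₂ ∧ ∀ e ∈ A, d e = 0 := by
            have h3 : ∀ e, e ∉ B → d e = 0 := by
              intro e he
              by_cases hb : e = a
              · subst hb; exact hdb
              · exact h₂.supp d hd e (by simp [he, hb])
            refine ⟨⟨fun e hA hB => h3 e hB, 0, ?_, ?_⟩, fun e he => h3 e (hdis e he)⟩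
            · have : ext A b d 0 = 0 := by
                funext e
                by_cases hB : e ∈ A
                · rw [ext_of_mem hB]; exact h3 e (hdis e hB)
                · simp [ext, hB]
              rw [this]; exact V₁.zero_mem
            · have := h₂.ext_self hd
              rw [hdb] at this
              rwa [this]
          have h5 := hmin d hm.1 hd0 (fun e he => by
            by_cases hA : e ∈ B
            · exact hs e (by rw [ext_of_mem hA]; exact he)
            · by_cases hb : e = a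
              · subst hb; exact hdb
              · exact h₂.supp d hd e (by simp [hA, hb])) e₁ (hm.2 e₁ he₁)
          exact hce₁ h5
        · have ht : t ≠ 0 := by
            rintro rfl
            exact hdb (hs a (ext_b h₂.nb))
          set x : ℍ[ℝ] := t * (d a)⁻¹ with hx
          have hx0 : x ≠ 0 := mul_ne_zero ht (inv_ne_zero hdb)
          have hxd : (x • d) ∈ V₂ := V₂.smul_mem _ hd
          have hxdb : (x • d) a = t := by simp [hx, mul_assoc, inv_mul_cancel₀ hdb]
          have hm : glue A B c (x • d) ∈ TS A B a b V₁ V₂ := by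
            refine ⟨fun e hA hB => by simp [glue, hA, hB], t, ?_, ?_⟩
            · have : ext A b (glue A B c (x • d)) t = ext A b c t := by
                funext e
                by_cases hB : e ∈ A
                · simp [ext, glue, hB]
                · simp [ext, hB]
              rw [this]; exact h2
            · have : ext B a (glue A B c (x • d)) t = x • d := by
                rw [← h₂.ext_self hxd]
                funext e
                by_cases hA : e ∈ B
                · simp [ext, glue, hA, hdis' e hA]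
                · simp only [ext, hA, if_false, hxdb]
              rw [this]; exact hxd
          have h5 := hmin _ hm (fun h => hce₁ (by
            have := congrFun h e₁
            simpa [glue, he₁] using this)) (fun e he => by
              by_cases hA : e ∈ A
              · simp [glue, hA, he]
              · by_cases hB : e ∈ B
                · have : d e = 0 := hs e (by rw [ext_of_mem hB]; exact he)
                  simp [glue, hA, hB, this]
                · simp [glue, hA, hB])
          intro e he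
          by_cases hB : e ∈ B
          · rw [ext_of_mem hB]
            exact h5 e (by simp [glue, hB, hdis' e hB, he])
          · by_cases hb : e = a
            · subst hb; exact absurd he hdb
            · exact ext_out hB hb
  · rintro ⟨h0, t, ht, e1, e2⟩
    have hA' : ∃ e ∈ A, c e ≠ 0 := by
      by_contra h
      push Not at h
      exact ht (h₁.t_eq_zero e1.1 h)
    have hB' : ∃ e ∈ B, c e ≠ 0 := by
      by_contra h
      push Not at h
      exact ht (h₂.t_eq_zero e2.1 h)
    refine ⟨⟨⟨h0, t, e1.1, e2.1⟩, ?_, ?_⟩, hA', hB'⟩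
    · rintro rfl
      obtain ⟨e, _, he⟩ := hA'
      exact he rfl
    · rintro d ⟨k1, s, k2, k3⟩ hd0 hs
      by_cases hs0 : s = 0
      · exfalso
        subst hs0
        have hA0 : ext A b d 0 = 0 := by
          by_contra hne
          have := e1.2.2 _ k2 hne (fun e he => by
            by_cases hA : e ∈ A
            · rw [ext_of_mem hA] at he ⊢
              exact hs e he
            · simp [ext, hA]) b (ext_b h₁.nb)
          rw [ext_b h₁.nb] at this
          exact ht this
        have hB0 : ext B a d 0 = 0 := by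
          by_contra hne
          have := e2.2.2 _ k3 hne (fun e he => by
            by_cases hA : e ∈ B
            · rw [ext_of_mem hA] at he ⊢
              exact hs e he
            · simp [ext, hA]) a (ext_b h₂.nb)
          rw [ext_b h₂.nb] at this
          exact ht this
        apply hd0
        funext e
        by_cases hA : e ∈ A
        · have := congrFun hA0 e
          rwa [ext_of_mem hA] at this
        · by_cases hB : e ∈ B
          · have := congrFun hB0 e
            rwa [ext_of_mem hB] at this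
          · exact k1 e hA hB
      · have m1 := e1.2.2 _ k2 (fun h => hs0 (by
          have := congrFun h b
          rwa [ext_b h₁.nb] at this)) (fun e he => by
            by_cases hA : e ∈ A
            · rw [ext_of_mem hA] at he ⊢
              exact hs e he
            · by_cases hb : e = b
              · subst hb
                rw [ext_b hA] at he
                exact absurd he ht
              · exact ext_out hA hb)
        have m2 := e2.2.2 _ k3 (fun h => hs0 (by
          have := congrFun h a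
          rwa [ext_b h₂.nb] at this)) (fun e he => by
            by_cases hA : e ∈ B
            · rw [ext_of_mem hA] at he ⊢
              exact hs e he
            · by_cases hb : e = a
              · subst hb
                rw [ext_b hA] at he
                exact absurd he ht
              · exact ext_out hA hb)
        intro e he
        by_cases hA : e ∈ A
        · have := m1 e (by rw [ext_of_mem hA]; exact he)
          rwa [ext_of_mem hA] at this
        · by_cases hB : e ∈ B
          · have := m2 e (by rw [ext_of_mem hB]; exact he)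
            rwa [ext_of_mem hB] at this
          · exact h0 e hA hB

/-- supports of the elementary chains of a two-sum -/
theorem CS_TS {A B : Finset E} {a b : E} {V₁ V₂ : CG E} (h₁ : Good A b V₁)
    (h₂ : Good B a V₂) (hAB : Disjoint A B) (S : Set E) :
    CS (TS A B a b V₁ V₂) S ↔ (CS V₁ S ∧ b ∉ S) ∨ (CS V₂ S ∧ a ∉ S) ∨
      ∃ S₁ S₂, CS V₁ S₁ ∧ b ∈ S₁ ∧ CS V₂ S₂ ∧ a ∈ S₂ ∧ S = (S₁ \ {b}) ∪ (S₂ \ {a}) := by
  have hdis : ∀ e, e ∈ A → e ∉ B := fun e h1 h2 => (Finset.disjoint_left.1 hAB) h1 h2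
  have hdis' : ∀ e, e ∈ B → e ∉ A := fun e h1 h2 => (Finset.disjoint_left.1 hAB) h2 h1
  constructor
  · rintro ⟨c, hc, rfl⟩
    by_cases hB : ∀ e ∈ B, c e = 0
    · obtain ⟨k1, k2⟩ := (elem_TS_left h₁ h₂ hAB).1 ⟨hc, hB⟩
      exact Or.inl ⟨⟨c, k1, rfl⟩, fun h => h k2⟩
    · by_cases hA : ∀ e ∈ A, c e = 0
      · rw [TS_comm] at hc
        obtain ⟨k1, k2⟩ := (elem_TS_left h₂ h₁ hAB.symm).1 ⟨hc, hA⟩
        exact Or.inr (Or.inl ⟨⟨c, k1, rfl⟩, fun h => h k2⟩)
      · push Not at hA hB
        obtain ⟨h0, t, ht, e1, e2⟩ := (elem_TS_cross h₁ h₂ hAB).1 ⟨hc, hA, hB⟩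
        refine Or.inr (Or.inr ⟨_, _, ⟨_, e1, rfl⟩, ?_, ⟨_, e2, rfl⟩, ?_, ?_⟩)
        · rw [mem_supp, ext_b h₁.nb]; exact ht
        · rw [mem_supp, ext_b h₂.nb]; exact ht
        · ext e
          simp only [Set.mem_union, Set.mem_sdiff, mem_supp, Set.mem_singleton_iff]
          constructor
          · intro he
            by_cases hA : e ∈ A
            · left
              refine ⟨by rwa [ext_of_mem hA], fun h => h₁.nb (h ▸ hA)⟩
            · by_cases hB : e ∈ B
              · right
                refine ⟨by rwa [ext_of_mem hB], fun h => h₂.nb (h ▸ hB)⟩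
              · exact absurd (h0 e hA hB) he
          · rintro (⟨k1, k2⟩ | ⟨k1, k2⟩)
            · by_cases hA : e ∈ A
              · rwa [ext_of_mem hA] at k1
              · exact absurd (ext_out hA k2) k1
            · by_cases hA : e ∈ B
              · rwa [ext_of_mem hA] at k1
              · exact absurd (ext_out hA k2) k1
  · rintro (⟨⟨c, hc, rfl⟩, hb⟩ | ⟨⟨c, hc, rfl⟩, ha⟩ | ⟨S₁, S₂, ⟨c₁, hc₁, rfl⟩, hb, ⟨c₂, hc₂, rfl⟩, ha, rfl⟩)
    · have hb' : c b = 0 := by
        by_contra h; exact hb h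
      exact ⟨c, ((elem_TS_left h₁ h₂ hAB).2 ⟨hc, hb'⟩).1, rfl⟩
    · have ha' : c a = 0 := by
        by_contra h; exact ha h
      refine ⟨c, ?_, rfl⟩
      rw [TS_comm]
      exact ((elem_TS_left h₂ h₁ hAB.symm).2 ⟨hc, ha'⟩).1
    · have hb' : c₁ b ≠ 0 := hb
      have ha' : c₂ a ≠ 0 := ha
      set t := c₁ b with ht
      set x : ℍ[ℝ] := t * (c₂ a)⁻¹ with hx
      have hx0 : x ≠ 0 := mul_ne_zero hb' (inv_ne_zero ha')
      have hx2 : Elem V₂ (x • c₂) := Elem.smul' hc₂ hx0
      have hxa : (x • c₂) a = t := by simp [hx, mul_assoc, inv_mul_cancel₀ ha']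
      have g1 : ext A b (glue A B c₁ (x • c₂)) t = c₁ := by
        conv_rhs => rw [← h₁.ext_self hc₁.1]
        funext e
        by_cases hA : e ∈ A
        · simp [ext, glue, hA]
        · simp only [ext, hA, if_false, ← ht]
      have g2 : ext B a (glue A B c₁ (x • c₂)) t = x • c₂ := by
        conv_rhs => rw [← h₂.ext_self hx2.1]
        funext e
        by_cases hA : e ∈ B
        · simp [ext, glue, hA, hdis' e hA]
        · simp only [ext, hA, if_false, hxa]
      refine ⟨glue A B c₁ (x • c₂), ((elem_TS_cross h₁ h₂ hAB).2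
        ⟨fun e hA hB => by simp [glue, hA, hB], t, hb', ?_, ?_⟩).1, ?_⟩
      · rw [g1]; exact hc₁
      · rw [g2]; exact hx2
      · ext e
        simp only [Set.mem_union, Set.mem_sdiff, mem_supp, Set.mem_singleton_iff]
        constructor
        · intro he
          by_cases hA : e ∈ A
          · left
            refine ⟨by simpa [glue, hA] using he, fun h => h₁.nb (h ▸ hA)⟩
          · by_cases hB : e ∈ B
            · right
              refine ⟨?_, fun h => h₂.nb (h ▸ hB)⟩
              intro h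
              apply he
              simp [glue, hA, hB, h]
            · exact absurd (by simp [glue, hA, hB]) he
        · rintro (⟨k1, k2⟩ | ⟨k1, k2⟩)
          · have hA : e ∈ A := by
              by_contra hA
              exact k1 (h₁.supp c₁ hc₁.1 e (by simp [hA, k2]))
            simpa [glue, hA] using k1
          · have hB : e ∈ B := by
              by_contra hB
              exact k1 (h₂.supp c₂ hc₂.1 e (by simp [hB, k2]))
            simp only [glue, hdis' e hB, hB, if_true, if_false]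
            simp only [Pi.smul_apply, smul_eq_mul]
            exact mul_ne_zero hx0 k1

/-- elementary chains of a two-sum, `PrimGen` -/
theorem primGen_TS {G : Subgroup (ℍ[ℝ])ˣ} {A B : Finset E} {a b : E} {V₁ V₂ : CG E}
    (h₁ : Good A b V₁) (h₂ : Good B a V₂) (hAB : Disjoint A B) (g₁ : PrimGen G V₁)
    (g₂ : PrimGen G V₂) : PrimGen G (TS A B a b V₁ V₂) := by
  have hdis : ∀ e, e ∈ A → e ∉ B := fun e h1 h2 => (Finset.disjoint_left.1 hAB) h1 h2
  have hdis' : ∀ e, e ∈ B → e ∉ A := fun e h1 h2 => (Finset.disjoint_left.1 hAB) h2 h1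
  have aux : ∀ (c c' : E → ℍ[ℝ]) (x : ℍ[ℝ]), c ≠ 0 → c = x • c' → x ≠ 0 ∧ c' = x⁻¹ • c := by
    intro c c' x hc h
    have hx : x ≠ 0 := by
      rintro rfl
      exact hc (by rw [h, zero_smul])
    refine ⟨hx, ?_⟩
    rw [h, smul_smul, inv_mul_cancel₀ hx, one_smul]
  intro c hc
  by_cases hB : ∀ e ∈ B, c e = 0
  · obtain ⟨k1, k2⟩ := (elem_TS_left h₁ h₂ hAB).1 ⟨hc, hB⟩
    obtain ⟨x, c', hc', h, hG⟩ := g₁ c k1
    obtain ⟨hx, h'⟩ := aux c c' x hc.2.1 h
    exact ⟨x, c', by rw [h']; exact Submodule.smul_mem _ _ hc.1, h, hG⟩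
  · by_cases hA : ∀ e ∈ A, c e = 0
    · have hc2 := hc
      rw [TS_comm] at hc2
      obtain ⟨k1, k2⟩ := (elem_TS_left h₂ h₁ hAB.symm).1 ⟨hc2, hA⟩
      obtain ⟨x, c', hc', h, hG⟩ := g₂ c k1
      obtain ⟨hx, h'⟩ := aux c c' x hc.2.1 h
      exact ⟨x, c', by rw [h']; exact Submodule.smul_mem _ _ hc.1, h, hG⟩
    · push Not at hA hB
      obtain ⟨h0, t, ht, e1, e2⟩ := (elem_TS_cross h₁ h₂ hAB).1 ⟨hc, hA, hB⟩
      obtain ⟨x, c₁, hc₁, hx, hG1⟩ := g₁ _ e1
      obtain ⟨y, c₂, hc₂, hy, hG2⟩ := g₂ _ e2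
      obtain ⟨hx0, hx'⟩ := aux _ _ _ e1.2.1 hx
      obtain ⟨hy0, hy'⟩ := aux _ _ _ e2.2.1 hy
      refine ⟨t, t⁻¹ • c, Submodule.smul_mem _ _ hc.1, by
        rw [smul_smul, mul_inv_cancel₀ ht, one_smul], ?_⟩
      intro e
      -- values at b, a
      have hb1 : c₁ b = x⁻¹ * t := by rw [hx']; simp [ext_b h₁.nb]
      have hb2 : c₂ a = y⁻¹ * t := by rw [hy']; simp [ext_b h₂.nb]
      by_cases hA : e ∈ A
      · rcases hG1 b with h | ⟨u, hu, huc⟩
        · exact absurd h (by rw [hb1]; exact mul_ne_zero (inv_ne_zero hx0) ht)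
        · have h3 : (t⁻¹ • c) e = (c₁ b)⁻¹ * c₁ e := by
            rw [hb1, hx']
            simp [ext_of_mem hA, mul_assoc, mul_inv_cancel_left₀ hx0]
          rcases hG1 e with h | ⟨v, hv, hvc⟩
          · left; rw [h3, h, mul_zero]
          · right
            refine ⟨u⁻¹ * v, G.mul_mem (G.inv_mem hu) hv, ?_⟩
            rw [h3, huc, hvc]
            simp
      · by_cases hB : e ∈ B
        · rcases hG2 a with h | ⟨u, hu, huc⟩
          · exact absurd h (by rw [hb2]; exact mul_ne_zero (inv_ne_zero hy0) ht)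
          · have h3 : (t⁻¹ • c) e = (c₂ a)⁻¹ * c₂ e := by
              rw [hb2, hy']
              simp [ext_of_mem hB, mul_assoc, mul_inv_cancel_left₀ hy0]
            rcases hG2 e with h | ⟨v, hv, hvc⟩
            · left; rw [h3, h, mul_zero]
            · right
              refine ⟨u⁻¹ * v, G.mul_mem (G.inv_mem hu) hv, ?_⟩
              rw [h3, huc, hvc]
              simp
        · left
          simp [h0 e hA hB]

theorem Good.of_sameSupp {A : Finset E} {b : E} {V V' : CG E} (h : Good A b V)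
    (hs : SameSupp V V') (hV' : SuppIn V' (insert b A)) : Good A b V' := by
  refine ⟨hV', h.nb, fun c hc h0 => ?_⟩
  by_contra hne
  have hb : c b ≠ 0 := by
    intro hb
    apply hne
    funext e
    by_cases hA : e ∈ A
    · exact h0 e hA
    · by_cases hb' : e = b
      · subst hb'; exact hb
      · exact hV' c hc e (by simp [hA, hb'])
  obtain ⟨d, hd, hd1, hd2⟩ := exists_elem hc hb
  obtain ⟨d', hd', hs'⟩ := (hs (Function.support d)).2 ⟨d, hd, rfl⟩
  apply hd'.2.1
  apply h.free d' hd'.1
  intro e he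
  by_contra hne'
  have : e ∈ Function.support d' := hne'
  rw [hs'] at this
  exact this (hd1 e (h0 e he))

theorem sameSupp_TS {A B : Finset E} {a b : E} {V₁ V₂ V₁' V₂' : CG E} (h₁ : Good A b V₁)
    (h₂ : Good B a V₂) (h₁' : Good A b V₁') (h₂' : Good B a V₂') (hAB : Disjoint A B)
    (s₁ : SameSupp V₁ V₁') (s₂ : SameSupp V₂ V₂') :
    SameSupp (TS A B a b V₁ V₂) (TS A B a b V₁' V₂') := by
  have c₁ : ∀ S, CS V₁ S ↔ CS V₁' S := s₁
  have c₂ : ∀ S, CS V₂ S ↔ CS V₂' S := s₂
  intro S
  have e1 := CS_TS h₁ h₂ hAB S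
  have e2 := CS_TS h₁' h₂' hAB S
  refine e1.trans (Iff.trans ?_ e2.symm)
  simp only [c₁, c₂]

/-! ### splitting a chain group -/

/-- the linear map `c ↦ (c|A, f c)` -/
noncomputable def extL (A : Finset E) (b : E) (f : (E → ℍ[ℝ]) →ₗ[ℍ[ℝ]] ℍ[ℝ]) :
    (E → ℍ[ℝ]) →ₗ[ℍ[ℝ]] (E → ℍ[ℝ]) where
  toFun c := ext A b c (f c)
  map_add' := by intro c d; rw [map_add, ext_add]
  map_smul' := by intro x c; rw [map_smul, smul_eq_mul, ext_smul]; rfl

/-- `f` measures the crossing of the separation `(A, B)` of `V`. -/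
structure Sep (V : CG E) (A B : Finset E) (f : (E → ℍ[ℝ]) →ₗ[ℍ[ℝ]] ℍ[ℝ]) : Prop where
  disj : Disjoint A B
  supp : SuppIn V (A ∪ B)
  left : ∀ c ∈ V, (∀ e ∈ B, c e = 0) → f c = 0
  right : ∀ c ∈ V, (∀ e ∈ A, c e = 0) → f c = 0
  ker : ∀ c ∈ V, f c = 0 → ∃ x ∈ V, ∃ y ∈ V, c = x + y ∧ (∀ e ∈ B, x e = 0) ∧ (∀ e ∈ A, y e = 0)

theorem Sep.symm {V : CG E} {A B : Finset E} {f : (E → ℍ[ℝ]) →ₗ[ℍ[ℝ]] ℍ[ℝ]} (h : Sep V A B f) :
    Sep V B A f := by
  refine ⟨h.disj.symm, by rw [Finset.union_comm]; exact h.supp, h.right, h.left, ?_⟩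
  intro c hc h0
  obtain ⟨x, hx, y, hy, e, h1, h2⟩ := h.ker c hc h0
  exact ⟨y, hy, x, hx, by rw [e, add_comm], h2, h1⟩

theorem Sep.good {V : CG E} {A B : Finset E} {f : (E → ℍ[ℝ]) →ₗ[ℍ[ℝ]] ℍ[ℝ]} (h : Sep V A B f)
    {b : E} (hb : b ∉ A) : Good A b (V.map (extL A b f)) := by
  refine ⟨?_, hb, ?_⟩
  · rintro _ ⟨c, hc, rfl⟩ e he
    simp only [Finset.mem_insert, not_or] at he
    exact ext_out he.2 he.1
  · rintro _ ⟨c, hc, rfl⟩ h0
    have h1 : ∀ e ∈ A, c e = 0 := by
      intro e he
      have := h0 e he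
      rwa [show (extL A b f) c e = c e from ext_of_mem he] at this
    have h2 := h.right c hc h1
    show ext A b c (f c) = 0
    rw [h2]
    funext e
    by_cases hA : e ∈ A
    · rw [ext_of_mem hA]; exact h1 e hA
    · simp [ext, hA]

theorem Sep.t_eq {V : CG E} {A B : Finset E} {f : (E → ℍ[ℝ]) →ₗ[ℍ[ℝ]] ℍ[ℝ]} (h : Sep V A B f)
    {b : E} (hb : b ∉ A) {c : E → ℍ[ℝ]} (hc : c ∈ V) {t : ℍ[ℝ]}
    (ht : ext A b c t ∈ V.map (extL A b f)) : f c = t := by
  obtain ⟨d, hd, hdc⟩ := ht
  have h1 : ∀ e ∈ A, (d - c) e = 0 := by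
    intro e he
    have := congrFun hdc e
    rw [show (extL A b f) d e = d e from ext_of_mem he, ext_of_mem he] at this
    simp [this]
  have h2 := h.right _ (V.sub_mem hd hc) h1
  have h3 := congrFun hdc b
  rw [show (extL A b f) d b = f d from ext_b hb, ext_b hb] at h3
  rw [map_sub, h3, sub_eq_zero] at h2
  exact h2.symm

theorem Sep.TS_eq {V : CG E} {A B : Finset E} {f : (E → ℍ[ℝ]) →ₗ[ℍ[ℝ]] ℍ[ℝ]} (h : Sep V A B f)
    {a b : E} (hb : b ∉ A) (ha : a ∉ B) :
    TS A B a b (V.map (extL A b f)) (V.map (extL B a f)) = V := by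
  have hdis : ∀ e, e ∈ A → e ∉ B := fun e h1 h2 => (Finset.disjoint_left.1 h.disj) h1 h2
  have hdis' : ∀ e, e ∈ B → e ∉ A := fun e h1 h2 => (Finset.disjoint_left.1 h.disj) h2 h1
  ext c
  constructor
  · rintro ⟨h0, t, ⟨d, hd, hdc⟩, ⟨d', hd', hdc'⟩⟩
    have h1 : ∀ e ∈ A, d e = c e := by
      intro e he
      have := congrFun hdc e
      rwa [show (extL A b f) d e = d e from ext_of_mem he, ext_of_mem he] at this
    have h1' : ∀ e ∈ B, d' e = c e := by
      intro e he
      have := congrFun hdc' e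
      rwa [show (extL B a f) d' e = d' e from ext_of_mem he, ext_of_mem he] at this
    have h2 := congrFun hdc b
    rw [show (extL A b f) d b = f d from ext_b hb, ext_b hb] at h2
    have h2' := congrFun hdc' a
    rw [show (extL B a f) d' a = f d' from ext_b ha, ext_b ha] at h2'
    obtain ⟨x, hx, y, hy, hxy, hx0, hy0⟩ := h.ker (d - d') (V.sub_mem hd hd') (by
      rw [map_sub, h2, h2', sub_self])
    have : c = d' + x := by
      funext e
      by_cases hA : e ∈ A
      · have k := congrFun hxy e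
        simp only [Pi.sub_apply, Pi.add_apply, hy0 e hA, add_zero] at k
        rw [Pi.add_apply, ← k, ← h1 e hA]
        abel
      · by_cases hB : e ∈ B
        · rw [Pi.add_apply, hx0 e hB, h1' e hB, add_zero]
        · rw [h0 e hA hB, Pi.add_apply, h.supp d' hd' e (by simp [hA, hB]),
            h.supp x hx e (by simp [hA, hB]), add_zero]
    rw [this]
    exact V.add_mem hd' hx
  · intro hc
    exact ⟨fun e hA hB => h.supp c hc e (by simp [hA, hB]), f c, ⟨c, hc, rfl⟩, ⟨c, hc, rfl⟩⟩

/-- scaling the functional -/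
theorem Sep.scale {V : CG E} {A B : Finset E} {f : (E → ℍ[ℝ]) →ₗ[ℍ[ℝ]] ℍ[ℝ]} (h : Sep V A B f)
    {s : ℍ[ℝ]} (hs : s ≠ 0) :
    Sep V A B ((LinearMap.toSpanSingleton ℍ[ℝ] ℍ[ℝ] s).comp f) := by
  refine ⟨h.disj, h.supp, fun c hc h0 => ?_, fun c hc h0 => ?_, fun c hc h0 => ?_⟩
  · simp [h.left c hc h0]
  · simp [h.right c hc h0]
  · refine h.ker c hc ?_
    simpa [hs] using h0

/-- existence of a crossing elementary chain -/
theorem Sep.exists_cross {V : CG E} {A B : Finset E} {f : (E → ℍ[ℝ]) →ₗ[ℍ[ℝ]] ℍ[ℝ]}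
    (h : Sep V A B f) {a b : E} (hb : b ∉ A) (ha : a ∉ B) {v : E → ℍ[ℝ]} (hv : v ∈ V)
    (hfv : f v ≠ 0) : ∃ c, Elem V c ∧ (∃ e ∈ A, c e ≠ 0) ∧ (∃ e ∈ B, c e ≠ 0) := by
  have g₁ := h.good hb
  have g₂ := h.symm.good ha
  obtain ⟨c₁, hc₁, -, hb₁⟩ := exists_elem (V := V.map (extL A b f)) (c := extL A b f v) ⟨v, hv, rfl⟩
    (a := b) (by rw [show (extL A b f) v b = f v from ext_b hb]; exact hfv)
  obtain ⟨c₂, hc₂, -, hb₂⟩ := exists_elem (V := V.map (extL B a f)) (c := extL B a f v) ⟨v, hv, rfl⟩
    (a := a) (by rw [show (extL B a f) v a = f v from ext_b ha]; exact hfv)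
  have hcs : CS (TS A B a b (V.map (extL A b f)) (V.map (extL B a f)))
      ((Function.support c₁ \ {b}) ∪ (Function.support c₂ \ {a})) :=
    (CS_TS g₁ g₂ h.disj _).2 (Or.inr (Or.inr ⟨_, _, ⟨c₁, hc₁, rfl⟩, hb₁, ⟨c₂, hc₂, rfl⟩, hb₂, rfl⟩))
  rw [h.TS_eq hb ha] at hcs
  obtain ⟨c, hc, hs⟩ := hcs
  refine ⟨c, hc, ?_, ?_⟩
  · by_contra hcon
    push Not at hcon
    apply hc₁.2.1
    apply g₁.free _ hc₁.1
    intro e he
    by_contra hne
    have : e ∈ Function.support c := by
      rw [hs]
      exact Or.inl ⟨hne, fun h => hb (h ▸ he)⟩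
    exact this (hcon e he)
  · by_contra hcon
    push Not at hcon
    apply hc₂.2.1
    apply g₂.free _ hc₂.1
    intro e he
    by_contra hne
    have : e ∈ Function.support c := by
      rw [hs]
      exact Or.inr ⟨hne, fun h => ha (h ▸ he)⟩
    exact this (hcon e he)

/-- QU passes to the parts of a two-sum, when the parts are normalized -/
theorem qu_part {V : CG E} {A B : Finset E} {a b : E} {V₁ V₂ : CG E} (h₁ : Good A b V₁)
    (h₂ : Good B a V₂) (hAB : Disjoint A B) (hV : TS A B a b V₁ V₂ = V) (hqu : IsQU V)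
    {c : E → ℍ[ℝ]} {t : ℍ[ℝ]} (ht : t ≠ 0) (hc : Elem V₂ (ext B a c t))
    (hn : ∀ e ∈ B, c e ≠ 0 → ‖c e‖ = ‖t‖) : IsQU V₁ := by
  have hdis : ∀ e, e ∈ A → e ∉ B := fun e h1 h2 => (Finset.disjoint_left.1 hAB) h1 h2
  have hdis' : ∀ e, e ∈ B → e ∉ A := fun e h1 h2 => (Finset.disjoint_left.1 hAB) h2 h1
  intro d hd
  by_cases hdb : d b = 0
  · have := ((elem_TS_left h₁ h₂ hAB).2 ⟨hd, hdb⟩).1
    rw [hV] at this
    exact hqu d this
  · set x : ℍ[ℝ] := t * (d b)⁻¹ with hx
    have hx0 : x ≠ 0 := mul_ne_zero ht (inv_ne_zero hdb)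
    have hxd : Elem V₁ (x • d) := Elem.smul' hd hx0
    have hxdb : (x • d) b = t := by simp [hx, mul_assoc, inv_mul_cancel₀ hdb]
    have g1 : ext A b (glue A B (x • d) c) t = x • d := by
      conv_rhs => rw [← h₁.ext_self hxd.1]
      funext e
      by_cases hA : e ∈ A
      · simp [ext, glue, hA]
      · simp only [ext, hA, if_false, hxdb]
    have g2 : ext B a (glue A B (x • d) c) t = ext B a c t := by
      funext e
      by_cases hA : e ∈ B
      · simp [ext, glue, hA, hdis' e hA]
      · simp only [ext, hA, if_false]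
    obtain ⟨hel, -, e₂, he₂, hce₂⟩ := (elem_TS_cross h₁ h₂ hAB (c := glue A B (x • d) c)).2
      ⟨fun e hA hB => by simp [glue, hA, hB], t, ht, by rw [g1]; exact hxd, by rw [g2]; exact hc⟩
    rw [hV] at hel
    have hnorm : ∀ e, glue A B (x • d) c e ≠ 0 → ‖glue A B (x • d) c e‖ = ‖t‖ := by
      intro e he
      rw [hqu _ hel e e₂ he hce₂]
      have : glue A B (x • d) c e₂ = c e₂ := by simp [glue, he₂, hdis' e₂ he₂]
      rw [this] at hce₂ ⊢
      exact hn e₂ he₂ hce₂
    have hall : ∀ e, d e ≠ 0 → ‖x • d e‖ = ‖t‖ := by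
      intro e he
      by_cases hA : e ∈ A
      · have : glue A B (x • d) c e = x • d e := by simp [glue, hA]
        rw [← this]
        apply hnorm
        rw [this]
        exact smul_ne_zero hx0 he
      · by_cases hb : e = b
        · subst hb
          rw [show x • d e = t from hxdb]
        · exact absurd (h₁.supp d hd.1 e (by simp [hA, hb])) he
    intro e e' he he'
    have k1 := hall e he
    have k2 := hall e' he'
    rw [smul_eq_mul, norm_mul] at k1 k2
    have hxn : ‖x‖ ≠ 0 := norm_ne_zero_iff.2 hx0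
    exact mul_left_cancel₀ hxn (k1.trans k2.symm)

theorem finrank_split {V : CG E} {U A : Finset E} (hU : SuppIn V U) (hA : A ⊆ U) :
    Module.finrank ℍ[ℝ] ((V ⊓ vanish (U \ A)) ⊔ (V ⊓ vanish A) : CG E) =
      Module.finrank ℍ[ℝ] (V ⊓ vanish (U \ A) : CG E) + Module.finrank ℍ[ℝ] (V ⊓ vanish A : CG E) := by
  have h := Submodule.finrank_sup_add_finrank_inf_eq (V ⊓ vanish (U \ A)) (V ⊓ vanish A)
  have h2 : ((V ⊓ vanish (U \ A)) ⊓ (V ⊓ vanish A) : CG E) = ⊥ := by
    rw [eq_bot_iff]
    rintro c ⟨⟨h1, h2⟩, ⟨h3, h4⟩⟩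
    rw [Submodule.mem_bot]
    funext e
    by_cases heU : e ∈ U
    · by_cases heA : e ∈ A
      · exact h4 e heA
      · exact h2 e (by simp [heU, heA])
    · exact hU c h1 e heU
  rw [h2, finrank_bot, add_zero] at h
  exact h

theorem lam_fr {V : CG E} {U A : Finset E} (hU : SuppIn V U) (hA : A ⊆ U) :
    lam U (rk V) A = (Module.finrank ℍ[ℝ] V : ℤ) -
      (Module.finrank ℍ[ℝ] ((V ⊓ vanish (U \ A)) ⊔ (V ⊓ vanish A) : CG E) : ℤ) := by
  rw [finrank_split hU hA]
  have h2 : (V ⊓ vanish U : CG E) = ⊥ := by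
    rw [eq_bot_iff]
    rintro c ⟨h1, h2⟩
    rw [Submodule.mem_bot]
    funext e
    by_cases heU : e ∈ U
    · exact h2 e heU
    · exact hU c h1 e heU
  unfold lam rk
  rw [h2, finrank_bot]
  push_cast
  ring

end Dec

open Dec in
theorem decomp (G : Subgroup (ℍ[ℝ])ˣ)
    (hbase : ∀ (U : Finset E) (V : CG E), SuppIn V U → IsQU V → Conn3 U (rk V) →
      ∃ V' : CG E, SuppIn V' U ∧ PrimGen G V' ∧ SameSupp V V') :
    ∀ (U : Finset E) (V : CG E), SuppIn V U → IsQU V →
      ∃ V' : CG E, SuppIn V' U ∧ PrimGen G V' ∧ SameSupp V V' := by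
  intro U
  induction hn : U.card using Nat.strong_induction_on generalizing U with
  | _ n ih =>
  intro V hU hqu
  by_cases h3 : Conn3 U (rk V)
  · exact hbase U V hU hqu h3
  by_cases hconn : Conn U (rk V)
  · -- two-sum
    have : ∃ A, A ⊆ U ∧ lam U (rk V) A ≤ 1 ∧ 1 < A.card ∧ 1 < (U \ A).card := by
      by_contra hcon
      push Not at hcon
      refine h3 ⟨hconn, fun A hA hl => ?_⟩
      by_contra hcc
      push Not at hcc
      have := hcon A hA hl hcc.1
      omega
    obtain ⟨A, hA, hl, hA2, hB2⟩ := this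
    have hl1 : lam U (rk V) A = 1 := by
      by_contra hne
      have : lam U (rk V) A ≤ 0 := by omega
      rcases hconn A hA this with h | h
      · rw [h] at hA2; simp at hA2
      · rw [h] at hB2; simp at hB2
    rw [lam_fr hU hA] at hl1
    set B := U \ A with hB
    set W : CG E := (V ⊓ vanish B) ⊔ (V ⊓ vanish A) with hW
    have hWV : W ≤ V := sup_le inf_le_left inf_le_left
    have hfr : Module.finrank ℍ[ℝ] V = Module.finrank ℍ[ℝ] W + 1 := by omega
    have hlt : W < V := by
      refine lt_of_le_of_ne hWV ?_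
      intro h
      rw [h] at hfr
      omega
    obtain ⟨v, hv, hvW⟩ := SetLike.exists_of_lt hlt
    obtain ⟨f, hfv, hfW⟩ := Submodule.exists_le_ker_of_notMem hvW
    have hAB : Disjoint A B := by rw [hB]; exact Finset.disjoint_sdiff
    have hUAB : A ∪ B = U := by rw [hB]; exact Finset.union_sdiff_of_subset hA
    have hsep : Sep V A B f := by
      refine ⟨hAB, by rw [hUAB]; exact hU, fun c hc h0 => ?_, fun c hc h0 => ?_, fun c hc h0 => ?_⟩
      · exact hfW (Submodule.mem_sup_left ⟨hc, h0⟩)
      · exact hfW (Submodule.mem_sup_right ⟨hc, h0⟩)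
      · have hle : W ≤ V ⊓ LinearMap.ker f := le_inf hWV hfW
        have hlt2 : V ⊓ LinearMap.ker f < V := by
          refine lt_of_le_of_ne inf_le_left ?_
          intro h
          rw [← h] at hv
          exact hfv hv.2
        have hlt3 := Submodule.finrank_lt_finrank_of_lt hlt2
        have heq : W = V ⊓ LinearMap.ker f := by
          apply Submodule.eq_of_le_of_finrank_le hle
          omega
        have hcW : c ∈ W := by rw [heq]; exact ⟨hc, h0⟩
        obtain ⟨x, hx, y, hy, rfl⟩ := Submodule.mem_sup.1 hcW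
        exact ⟨x, hx.1, y, hy.1, rfl, hx.2, hy.2⟩
    obtain ⟨a, ha⟩ : A.Nonempty := Finset.card_pos.1 (by omega)
    obtain ⟨b, hb⟩ : B.Nonempty := Finset.card_pos.1 (by omega)
    have haB : a ∉ B := fun h => (Finset.disjoint_left.1 hAB) ha h
    have hbA : b ∉ A := fun h => (Finset.disjoint_left.1 hAB) h hb
    obtain ⟨c, hc, ⟨e₁, he₁, hce₁⟩, ⟨e₂, he₂, hce₂⟩⟩ := hsep.exists_cross hbA haB hv hfv
    have hfc : f c ≠ 0 := by
      intro h0
      have h1 := hc
      rw [← hsep.TS_eq hbA haB] at h1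
      obtain ⟨-, t, ht, k1, -⟩ := (elem_TS_cross (hsep.good hbA) (hsep.symm.good haB) hAB).1
        ⟨h1, ⟨e₁, he₁, hce₁⟩, ⟨e₂, he₂, hce₂⟩⟩
      exact ht ((hsep.t_eq hbA hc.1 k1.1).symm.trans h0)
    set s : ℍ[ℝ] := (f c)⁻¹ * c e₁ with hs
    have hs0 : s ≠ 0 := mul_ne_zero (inv_ne_zero hfc) hce₁
    have hsep' := hsep.scale hs0
    set g := (LinearMap.toSpanSingleton ℍ[ℝ] ℍ[ℝ] s).comp f with hg
    have hgc : g c = c e₁ := by
      simp [hg, hs, mul_inv_cancel_left₀ hfc]
    have g₁ := hsep'.good hbA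
    have g₂ := hsep'.symm.good haB
    have hTS := hsep'.TS_eq hbA haB
    have h1 := hc
    rw [← hTS] at h1
    obtain ⟨-, t, ht, k1, k2⟩ := (elem_TS_cross g₁ g₂ hAB).1
        ⟨h1, ⟨e₁, he₁, hce₁⟩, ⟨e₂, he₂, hce₂⟩⟩
    have htc : t = c e₁ := (hsep'.t_eq hbA hc.1 k1.1).symm.trans hgc
    have hnorm : ∀ e, c e ≠ 0 → ‖c e‖ = ‖t‖ := by
      intro e he
      rw [htc]
      exact hqu c hc e e₁ he hce₁
    have q₁ : IsQU (V.map (extL A b g)) :=
      qu_part g₁ g₂ hAB hTS hqu ht k2 (fun e _ he => hnorm e he)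
    have q₂ : IsQU (V.map (extL B a g)) :=
      qu_part g₂ g₁ hAB.symm (by rw [TS_comm]; exact hTS) hqu ht k1 (fun e _ he => hnorm e he)
    have hcard : A.card + B.card = n := by
      rw [← hn, ← hUAB, Finset.card_union_of_disjoint hAB]
    obtain ⟨V₁, s₁, p₁, m₁⟩ := ih _ (by rw [Finset.card_insert_of_notMem hbA]; omega)
      (insert b A) rfl _ g₁.supp q₁
    obtain ⟨V₂, s₂, p₂, m₂⟩ := ih _ (by rw [Finset.card_insert_of_notMem haB]; omega)
      (insert a B) rfl _ g₂.supp q₂
    have g₁' := g₁.of_sameSupp m₁ s₁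
    have g₂' := g₂.of_sameSupp m₂ s₂
    refine ⟨TS A B a b V₁ V₂, ?_, primGen_TS g₁' g₂' hAB p₁ p₂, ?_⟩
    · intro c hc e he
      rw [← hUAB] at he
      simp only [Finset.mem_union, not_or] at he
      exact hc.1 e he.1 he.2
    · have := sameSupp_TS g₁ g₂ g₁' g₂' hAB m₁ m₂
      rwa [hTS] at this
  · -- direct sum
    have : ∃ A, A ⊆ U ∧ lam U (rk V) A ≤ 0 ∧ A ≠ ∅ ∧ A ≠ U := by
      by_contra hcon
      push Not at hcon
      refine hconn fun A hA hl => ?_
      by_contra hcc
      push Not at hcc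
      exact hcc.2 (hcon A hA hl hcc.1)
    obtain ⟨A, hA, hl, hA0, hAU⟩ := this
    rw [lam_fr hU hA] at hl
    set B := U \ A with hB
    have hAB : Disjoint A B := by rw [hB]; exact Finset.disjoint_sdiff
    have hUAB : A ∪ B = U := by rw [hB]; exact Finset.union_sdiff_of_subset hA
    have hWV : (V ⊓ vanish B) ⊔ (V ⊓ vanish A) = V := by
      apply Submodule.eq_of_le_of_finrank_le (sup_le inf_le_left inf_le_left)
      omega
    have hsA : SuppIn (V ⊓ vanish B) A := by
      rintro c ⟨h1, h2⟩ e he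
      by_cases heB : e ∈ B
      · exact h2 e heB
      · exact hU c h1 e (by rw [← hUAB]; simp [he, heB])
    have hsB : SuppIn (V ⊓ vanish A) B := by
      rintro c ⟨h1, h2⟩ e he
      by_cases heA : e ∈ A
      · exact h2 e heA
      · exact hU c h1 e (by rw [← hUAB]; simp [he, heA])
    have hel := elem_sup hsA hsB hAB
    rw [hWV] at hel
    have q₁ : IsQU (V ⊓ vanish B) := fun c hc => hqu c ((hel c).2 (Or.inl hc))
    have q₂ : IsQU (V ⊓ vanish A) := fun c hc => hqu c ((hel c).2 (Or.inr hc))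
    have hcard : A.card + B.card = n := by
      rw [← hn, ← hUAB, Finset.card_union_of_disjoint hAB]
    have hA1 : 0 < A.card := Finset.card_pos.2 (Finset.nonempty_iff_ne_empty.2 hA0)
    have hB1 : 0 < B.card := by
      apply Finset.card_pos.2
      rw [Finset.nonempty_iff_ne_empty]
      intro h
      rw [h, Finset.union_empty] at hUAB
      exact hAU hUAB
    obtain ⟨V₁, s₁, p₁, m₁⟩ := ih _ (by omega) A rfl _ hsA q₁
    obtain ⟨V₂, s₂, p₂, m₂⟩ := ih _ (by omega) B rfl _ hsB q₂
    have hel' := elem_sup s₁ s₂ hAB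
    refine ⟨V₁ ⊔ V₂, ?_, ?_, ?_⟩
    · intro c hc e he
      obtain ⟨c₁, h₁, c₂, h₂, rfl⟩ := Submodule.mem_sup.1 hc
      rw [← hUAB] at he
      simp only [Finset.mem_union, not_or] at he
      rw [Pi.add_apply, s₁ c₁ h₁ e he.1, s₂ c₂ h₂ e he.2, add_zero]
    · intro c hc
      rcases (hel' c).1 hc with h | h
      · obtain ⟨x, c', k1, k2⟩ := p₁ c h
        exact ⟨x, c', Submodule.mem_sup_left k1, k2⟩
      · obtain ⟨x, c', k1, k2⟩ := p₂ c h
        exact ⟨x, c', Submodule.mem_sup_right k1, k2⟩
    · intro S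
      have m₁' := m₁ S
      have m₂' := m₂ S
      simp only [hel, hel', or_and_right, exists_or]
      rw [m₁', m₂']

end Pool.Agent.QU
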