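import Pool.Agent.QU.AllGauged
import Pool.Agent.QU.Decomp

set_option linter.unusedVariables false
set_option linter.unusedSectionVars false
set_option linter.style.longLine false

/-! From gauges to chain groups over the icosians. -/

open Quaternion

namespace Pool.Agent.QU

variable {E : Type*} [Fintype E] [DecidableEq E]

/-- right multiplication of the coordinates -/
noncomputable def rmul (h : E → ℍ[ℝ]) : (E → ℍ[ℝ]) →ₗ[ℍ[ℝ]] (E → ℍ[ℝ]) where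
  toFun c e := c e * h e
  map_add' := by intro a b; funext e; simp [add_mul]
  map_smul' := by intro x c; funext e; simp [mul_assoc]

theorem rmul_apply (h : E → ℍ[ℝ]) (c : E → ℍ[ℝ]) (e : E) : rmul h c e = c e * h e := rfl

theorem rmul_zero_iff {h : E → ℍ[ℝ]} (hh : ∀ e, h e ≠ 0) {c : E → ℍ[ℝ]} {e : E} :
    rmul h c e = 0 ↔ c e = 0 := by
  rw [rmul_apply, mul_eq_zero]
  exact ⟨fun h' => h'.resolve_right (hh e), Or.inl⟩

theorem rmul_eq_zero {h : E → ℍ[ℝ]} (hh : ∀ e, h e ≠ 0) {c : E → ℍ[ℝ]} :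
    rmul h c = 0 ↔ c = 0 := by
  constructor
  · intro h0; funext e; exact (rmul_zero_iff hh).1 (congrFun h0 e)
  · rintro rfl; exact map_zero _

theorem elem_rmul {h : E → ℍ[ℝ]} (hh : ∀ e, h e ≠ 0) {V : CG E} {c : E → ℍ[ℝ]} (hc : Elem V c) :
    Elem (V.map (rmul h)) (rmul h c) := by
  refine ⟨⟨c, hc.1, rfl⟩, fun h0 => hc.2.1 ((rmul_eq_zero hh).1 h0), ?_⟩
  rintro _ ⟨d, hd, rfl⟩ hd0 hsub e he
  rw [rmul_zero_iff hh]
  refine hc.2.2 d hd (fun h0 => hd0 (by rw [h0, map_zero])) (fun e he => ?_) e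
    ((rmul_zero_iff hh).1 he)
  exact (rmul_zero_iff hh).1 (hsub e ((rmul_zero_iff hh).2 he))

theorem elem_of_rmul {h : E → ℍ[ℝ]} (hh : ∀ e, h e ≠ 0) {V : CG E} {c : E → ℍ[ℝ]}
    (hc : Elem (V.map (rmul h)) c) : ∃ d, Elem V d ∧ c = rmul h d := by
  obtain ⟨⟨d, hd, rfl⟩, h0, hmin⟩ := hc
  refine ⟨d, ⟨hd, fun h1 => h0 (by rw [h1, map_zero]), ?_⟩, rfl⟩
  intro d' hd' hd'0 hsub e he
  exact (rmul_zero_iff hh).1 (hmin (rmul h d') ⟨d', hd', rfl⟩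
    (fun h1 => hd'0 ((rmul_eq_zero hh).1 h1))
    (fun e he => (rmul_zero_iff hh).2 (hsub e ((rmul_zero_iff hh).1 he))) e
    ((rmul_zero_iff hh).2 he))

theorem support_rmul {h : E → ℍ[ℝ]} (hh : ∀ e, h e ≠ 0) (c : E → ℍ[ℝ]) :
    Function.support (rmul h c) = Function.support c := by
  ext e
  simp only [Function.mem_support, ne_eq, rmul_zero_iff hh]

theorem gauge_rep {G : Subgroup (ℍ[ℝ])ˣ} {U : Finset E} {V : CG E} (hU : SuppIn V U)
    (hV : IsQU V) {g : E → ℍ[ℝ]} (hg : Gauged RI V g) {w : ℍ[ℝ]} (hw : ‖w‖ = 1)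
    (hG : ∀ x ∈ RI, ‖x‖ = 1 → ∃ u ∈ G, w * x * w⁻¹ = (u : ℍ[ℝ])) :
    ∃ V' : CG E, SuppIn V' U ∧ PrimGen G V' ∧ SameSupp V V' := by
  set h : E → ℍ[ℝ] := fun e => g e * w⁻¹ with hdef
  have hh : ∀ e, h e ≠ 0 := fun e =>
    ne_of_norm_one (norm_mul_one (hg.1 e) (norm_inv_one hw))
  refine ⟨V.map (rmul h), ?_, ?_, ?_⟩
  · rintro _ ⟨d, hd, rfl⟩ e he
    rw [rmul_zero_iff hh]; exact hU d hd e he
  · intro c hc
    obtain ⟨d, hd, rfl⟩ := elem_of_rmul hh hc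
    obtain ⟨a, ha⟩ : ∃ a, d a ≠ 0 := by
      by_contra hcon
      push Not at hcon
      exact hd.2.1 (funext hcon)
    have hga := ne_of_norm_one (hg.1 a)
    have hw0 := ne_of_norm_one hw
    have hx0 : w * (g a)⁻¹ * (d a)⁻¹ ≠ 0 :=
      mul_ne_zero (mul_ne_zero hw0 (inv_ne_zero hga)) (inv_ne_zero ha)
    refine ⟨(w * (g a)⁻¹ * (d a)⁻¹)⁻¹, (w * (g a)⁻¹ * (d a)⁻¹) • rmul h d,
      Submodule.smul_mem _ _ ⟨d, hd.1, rfl⟩, ?_, ?_⟩
    · rw [smul_smul, inv_mul_cancel₀ hx0, one_smul]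
    · intro e
      by_cases he : d e = 0
      · left
        simp only [Pi.smul_apply, rmul_apply, he, smul_eq_mul, zero_mul, mul_zero]
      · right
        have hn : ‖(g a)⁻¹ * (d a)⁻¹ * d e * g e‖ = 1 := by
          rw [norm_mul, norm_mul, norm_mul, norm_inv, norm_inv, hg.1, hg.1, hV d hd a e ha he]
          have : ‖d e‖ ≠ 0 := norm_ne_zero_iff.2 he
          field_simp
        obtain ⟨u, hu, hue⟩ := hG _ (hg.2 d hd a ha e) hn
        refine ⟨u, hu, ?_⟩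
        rw [← hue]
        simp only [Pi.smul_apply, rmul_apply, smul_eq_mul, hdef, mul_assoc]
  · intro S
    constructor
    · rintro ⟨c, hc, rfl⟩
      exact ⟨rmul h c, elem_rmul hh hc, support_rmul hh c⟩
    · rintro ⟨c, hc, rfl⟩
      obtain ⟨d, hd, rfl⟩ := elem_of_rmul hh hc
      exact ⟨d, hd, (support_rmul hh d).symm⟩

/-- every QU chain group has the same matroid as a chain group over `⟨-1, p, q, r⟩` -/
theorem qu_rep {p q r : ℍ[ℝ]} (h : Spx p q r) (V : CG E) (hV : IsQU V) :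
    ∃ V' : CG E, PrimGen (Subgroup.closure {u : (ℍ[ℝ])ˣ | (u : ℍ[ℝ]) = -1 ∨ (u : ℍ[ℝ]) = p ∨
      (u : ℍ[ℝ]) = q ∨ (u : ℍ[ℝ]) = r}) V' ∧ SameSupp V V' := by
  obtain ⟨w, hw, hG⟩ := RI_closure h
  obtain ⟨V', -, h1, h2⟩ := decomp (Subgroup.closure {u : (ℍ[ℝ])ˣ | (u : ℍ[ℝ]) = -1 ∨
    (u : ℍ[ℝ]) = p ∨ (u : ℍ[ℝ]) = q ∨ (u : ℍ[ℝ]) = r})
    (fun U V hU hV h3 => by
      obtain ⟨g, hg⟩ := all_gauged U V hU hV h3
      exact gauge_rep hU hV hg hw hG) Finset.univ V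
    (fun c _ e he => absurd (Finset.mem_univ e) he) hV
  exact ⟨V', h1, h2⟩

end Pool.Agent.QU
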