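import Pool.Agent.QU.Rank3

set_option linter.unusedVariables false
set_option linter.unusedSectionVars false
set_option linter.style.longLine false

/-! Gauges of the base matroids and their rigidity. -/

open Quaternion

namespace Pool.Agent.QU

variable {E : Type*} [Fintype E] [DecidableEq E]

theorem forall_fin3 {P : Fin 3 → Prop} (h0 : P 0) (h1 : P 1) (h2 : P 2) : ∀ i, P i := by
  intro i; fin_cases i
  · exact h0
  · exact h1
  · exact h2

/-! ### rank two -/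

theorem rank2_enum {V : CG E} {U : Finset E} (hU : SuppIn V U) (hV : IsQU V)
    (hu : Unif 2 U (rk V)) {n : ℕ} (hn : U.card = n + 3) :
    ∃ a ∈ U, ∃ κ : Fin n → ℍ[ℝ], (∀ i, Tri (κ i)) ∧ (∀ i j, i ≠ j → ‖κ i - κ j‖ = 1) ∧
      (∀ R : Subring ℍ[ℝ], (∀ x ∈ R, star x ∈ R) → ∀ w : ℍ[ℝ], ‖w‖ = 1 →
        (∀ i, w⁻¹ * κ i * w ∈ R) → ∃ g, Gauged R V g) ∧
      (∀ R : Subring ℍ[ℝ], (∀ x ∈ R, star x ∈ R) → ∀ g, Gauged R V g →
        ∀ i, (g a)⁻¹ * κ i * g a ∈ R) := by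
  obtain ⟨x, hx, hxU⟩ := enumF hn
  have i0 : (0 : ℕ) < n + 3 := by omega
  have i1 : (1 : ℕ) < n + 3 := by omega
  have i2 : (2 : ℕ) < n + 3 := by omega
  have hm : ∀ i, x i ∈ U := fun i => (hxU _).2 ⟨i, rfl⟩
  obtain ⟨κ, k1, k2, k3, k4, k5⟩ := rank2_data hU hV hu (a := x ⟨0, i0⟩) (b := x ⟨1, i1⟩)
    (c := x ⟨2, i2⟩) (hm _) (hm _) (hm _) (fun h => by have := hx h; simp at this)
    (fun h => by have := hx h; simp at this) (fun h => by have := hx h; simp at this)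
  have hmem : ∀ i (hi : i < n + 3), 2 ≤ i → x ⟨i, hi⟩ ∈ U \ {x ⟨0, i0⟩, x ⟨1, i1⟩} := by
    intro i hi h2
    simp only [Finset.mem_sdiff, Finset.mem_insert, Finset.mem_singleton, not_or]
    refine ⟨hm _, fun h => ?_, fun h => ?_⟩
    · have := hx h; simp at this; omega
    · have := hx h; simp at this; omega
  refine ⟨x ⟨0, i0⟩, hm _, fun i => κ (x ⟨i.1 + 3, by omega⟩), ?_, ?_, ?_, ?_⟩
  · intro i
    refine ⟨k2 _ (hmem _ _ (by omega)), ?_⟩
    have := k3 _ (hmem (i.1 + 3) (by omega) (by omega)) _ (hmem 2 (by omega) (by omega)) (fun h => by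
      have := hx h; simp at this)
    rwa [k1] at this
  · intro i j hij
    refine k3 _ (hmem _ _ (by omega)) _ (hmem _ _ (by omega)) (fun h => hij ?_)
    have := hx h
    simp at this
    exact Fin.ext this
  · intro R hR w hw h
    refine k4 R hR w hw ?_
    intro d hd
    simp only [Finset.mem_sdiff, Finset.mem_insert, Finset.mem_singleton, not_or] at hd
    obtain ⟨⟨i, hi⟩, rfl⟩ := (hxU d).1 hd.1
    have h0 : i ≠ 0 := by rintro rfl; exact hd.2.1 rfl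
    have h1 : i ≠ 1 := by rintro rfl; exact hd.2.2 rfl
    by_cases h2 : i = 2
    · subst h2
      rw [k1, mul_one, inv_mul_cancel₀ (ne_of_norm_one hw)]; exact R.one_mem
    · have h3 := h ⟨i - 3, by omega⟩
      have e : (⟨(⟨i - 3, by omega⟩ : Fin n).1 + 3, by simp; omega⟩ : Fin (n + 3)) = ⟨i, hi⟩ := by
        apply Fin.ext; simp; omega
      simp only [e] at h3
      exact h3
  · intro R hR g hg i
    exact k5 R hR g hg _ (hmem _ _ (by omega))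

theorem no_U27 {V : CG E} {U : Finset E} (hU : SuppIn V U) (hV : IsQU V)
    (hu : Unif 2 U (rk V)) (hn : U.card = 7) : False := by
  obtain ⟨a, ha, κ, k1, k2, -, -⟩ := rank2_enum (n := 4) hU hV hu hn
  exact no_six (a := κ 0) (b := κ 1) (c := κ 2) (d := κ 3)
    ⟨⟨k1 0, k1 1, k2 0 1 (by decide)⟩, k1 2, k2 0 2 (by decide), k2 1 2 (by decide)⟩ (k1 3)
    (k2 0 3 (by decide)) (k2 1 3 (by decide)) (k2 2 3 (by decide))

/-- a set of loops at one element -/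
def Loops (V : CG E) (a : E) (κ : ℍ[ℝ]) : Prop :=
  ∀ R : Subring ℍ[ℝ], (∀ x ∈ R, star x ∈ R) → ∀ g, Gauged R V g → (g a)⁻¹ * κ * g a ∈ R

theorem U26_loops {V : CG E} {U : Finset E} (hU : SuppIn V U) (hV : IsQU V)
    (hu : Unif 2 U (rk V)) (hn : U.card = 6) :
    ∃ a ∈ U, ∃ κ κ' κ'', Spx κ κ' κ'' ∧ Loops V a κ ∧ Loops V a κ' ∧ Loops V a κ'' := by
  obtain ⟨a, ha, κ, k1, k2, -, k4⟩ := rank2_enum (n := 3) hU hV hu hn
  exact ⟨a, ha, κ 0, κ 1, κ 2,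
    ⟨⟨k1 0, k1 1, k2 0 1 (by decide)⟩, k1 2, k2 0 2 (by decide), k2 1 2 (by decide)⟩,
    fun R hR g hg => k4 R hR g hg 0, fun R hR g hg => k4 R hR g hg 1,
    fun R hR g hg => k4 R hR g hg 2⟩

theorem U25_loops {V : CG E} {U : Finset E} (hU : SuppIn V U) (hV : IsQU V)
    (hu : Unif 2 U (rk V)) (hn : U.card = 5) :
    ∃ a ∈ U, ∃ κ κ', Tet κ κ' ∧ Loops V a κ ∧ Loops V a κ' := by
  obtain ⟨a, ha, κ, k1, k2, -, k4⟩ := rank2_enum (n := 2) hU hV hu hn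
  exact ⟨a, ha, κ 0, κ 1, ⟨k1 0, k1 1, k2 0 1 (by decide)⟩,
    fun R hR g hg => k4 R hR g hg 0, fun R hR g hg => k4 R hR g hg 1⟩

theorem U24_loops {V : CG E} {U : Finset E} (hU : SuppIn V U) (hV : IsQU V)
    (hu : Unif 2 U (rk V)) (hn : U.card = 4) :
    ∃ a ∈ U, ∃ κ, Tri κ ∧ Loops V a κ := by
  obtain ⟨a, ha, κ, k1, k2, -, k4⟩ := rank2_enum (n := 1) hU hV hu hn
  exact ⟨a, ha, κ 0, k1 0, fun R hR g hg => k4 R hR g hg 0⟩

theorem RC_st : ∀ x ∈ RC, star x ∈ RC := fun x hx => RC_star hx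
theorem RT_st : ∀ x ∈ RT, star x ∈ RT := fun x hx => RT_star hx
theorem RI_st : ∀ x ∈ RI, star x ∈ RI := fun x hx => RI_star hx

theorem p0_mem_RT : p0 ∈ RT := RC_le_RT p0_mem_RC
theorem p0_mem_RI : p0 ∈ RI := RT_le_RI p0_mem_RT
theorem q0_mem_RI : q0 ∈ RI := RT_le_RI q0_mem_RT

theorem U24_gauge {V : CG E} {U : Finset E} (hU : SuppIn V U) (hV : IsQU V)
    (hu : Unif 2 U (rk V)) (hn : U.card = 4) : ∃ g, Gauged RC V g := by
  obtain ⟨a, ha, κ, k1, k2, k3, -⟩ := rank2_enum (n := 1) hU hV hu hn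
  obtain ⟨w, hw, h⟩ := conj_Tri (k1 0)
  refine k3 RC RC_st w hw ?_
  intro i
  fin_cases i
  simp only [Fin.zero_eta]
  rw [h]; exact p0_mem_RC

theorem U25_gauge {V : CG E} {U : Finset E} (hU : SuppIn V U) (hV : IsQU V)
    (hu : Unif 2 U (rk V)) (hn : U.card = 5) : ∃ g, Gauged RT V g := by
  obtain ⟨a, ha, κ, k1, k2, k3, -⟩ := rank2_enum (n := 2) hU hV hu hn
  obtain ⟨w, hw, h, h'⟩ := conj_Tet ⟨k1 0, k1 1, k2 0 1 (by decide)⟩
  refine k3 RT RT_st w hw ?_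
  intro i
  fin_cases i
  · simp only [Fin.zero_eta]; rw [h]; exact p0_mem_RT
  · simp only [Fin.mk_one]; rw [h']; exact q0_mem_RT

theorem U26_gauge {V : CG E} {U : Finset E} (hU : SuppIn V U) (hV : IsQU V)
    (hu : Unif 2 U (rk V)) (hn : U.card = 6) : ∃ g, Gauged RI V g := by
  obtain ⟨a, ha, κ, k1, k2, k3, -⟩ := rank2_enum (n := 3) hU hV hu hn
  obtain ⟨w, hw, h2, h⟩ := conj_Spx
    ⟨⟨k1 0, k1 1, k2 0 1 (by decide)⟩, k1 2, k2 0 2 (by decide), k2 1 2 (by decide)⟩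
  refine k3 RI RI_st w hw ?_
  have hr0 := r0_mem_RI
  have hp0 := p0_mem_RI
  have hq0 := q0_mem_RI
  refine forall_fin3 ?_ ?_ (by rw [h2]; exact hr0)
  · rcases h with ⟨h, -⟩ | ⟨h, -⟩ <;> rw [h] <;> assumption
  · rcases h with ⟨-, h⟩ | ⟨-, h⟩ <;> rw [h] <;> assumption

/-! ### `P₆` -/

theorem P6_data {V : CG E} {U : Finset E} (hU : SuppIn V U) (hV : IsQU V) {T : Finset E}
    (hT : T ⊆ U) (hT3 : T.card = 3) (hU6 : U.card = 6)
    (h : ∀ A, A ⊆ U → rk V A = if A = T then 2 else min (A.card : ℤ) 3) {f}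
    (hf : Frame V (U \ T) f) :
    ∃ x y : Fin 3 → E, Function.Injective x ∧ Function.Injective y ∧
      (∀ e, e ∈ U \ T ↔ ∃ i, x i = e) ∧ (∀ e, e ∈ T ↔ ∃ j, y j = e) ∧
      (∀ i j, f (x i) (y j) ≠ 0) ∧
      (∃ s t : E → ℍ[ℝ], (∀ e, ‖s e‖ = 1) ∧ (∀ e, ‖t e‖ = 1) ∧
        ∀ i j, s (x i) * f (x i) (y j) * t (y j) = A1 i j) ∧
      ∃ κ κ' κ'', Spx κ κ' κ'' ∧ Loops V (x 0) κ ∧ Loops V (x 0) κ' ∧ Loops V (x 0) κ'' := by
  classical
  have hc := Finset.card_sdiff_add_card_eq_card hT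
  obtain ⟨x, hx, hxB⟩ := enumF (U := U \ T) (n := 3) (by omega)
  obtain ⟨y, hy, hyT⟩ := enumF (U := T) (n := 3) hT3
  have hxy : ∀ i j, x i ≠ y j := by
    intro i j hij
    have h1 := (hxB (x i)).2 ⟨i, rfl⟩
    have h2 := (hyT (y j)).2 ⟨j, rfl⟩
    rw [hij] at h1
    exact (Finset.mem_sdiff.1 h1).2 h2
  have hyU : ∀ j, y j ∈ U := fun j => hT ((hyT _).2 ⟨j, rfl⟩)
  have hxm : ∀ i, x i ∈ U \ T := fun i => (hxB _).2 ⟨i, rfl⟩
  obtain ⟨he, hN, hdet⟩ := frame3 hU hV hx hy hxy hxB hyU hf (by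
    rintro A hA hA3 ⟨i, hi⟩
    rw [h A hA, if_neg, hA3]
    · rfl
    · rintro rfl
      exact (Finset.mem_sdiff.1 (hxm i)).2 hi)
  have hTe : ({y 0, y 1, y 2} : Finset E) = T := by
    ext e
    rw [hyT, Fin.exists_fin_succ, Fin.exists_fin_two]
    simp only [Finset.mem_insert, Finset.mem_singleton]
    constructor
    · rintro (h | h | h)
      · exact Or.inl h.symm
      · exact Or.inr (Or.inl h.symm)
      · exact Or.inr (Or.inr h.symm)
    · rintro (h | h | h)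
      · exact Or.inl h.symm
      · exact Or.inr (Or.inl h.symm)
      · exact Or.inr (Or.inr h.symm)
  rw [hTe, h T hT, if_pos rfl] at hdet
  have hdet0 : (kap f (x 0) (y 0) (x 2) (y 2) - 1) - (kap f (x 0) (y 0) (x 2) (y 1) - 1) *
        (kap f (x 0) (y 0) (x 1) (y 1) - 1)⁻¹ * (kap f (x 0) (y 0) (x 1) (y 2) - 1) = 0 := by
    by_contra h0
    have := hdet.2 h0
    norm_num at this
  obtain ⟨hS, w, hw, hab⟩ := hN.P6 hdet0
  have hw0 := ne_of_norm_one hw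
  have hn : ∀ i j, ‖f (x i) (y j)‖ = 1 :=
    fun i j => (hf.qu hV (hxm i) (y j)).resolve_left (he i j)
  have hl : ∀ i j, Loops V (x 0) (kap f (x 0) (y 0) (x i) (y j)) := fun i j R hR g hg =>
    hg.loop hR hV hf (hxm 0) (hxm i) (he i 0) (he 0 j)
  have hla : Loops V (x 0) (kap f (x 0) (y 0) (x 1) (y 1) *
      (kap f (x 0) (y 0) (x 1) (y 2))⁻¹) := by
    intro R hR g hg
    have h1 := hl 1 1 R hR g hg
    have h2 := hl 1 2 R hR g hg
    have hg0 := ne_of_norm_one (hg.1 (x 0))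
    have h3 := inv_memR hR h2 (norm_mul_one (norm_mul_one (norm_inv_one (hg.1 _)) hN.ta'.1) (hg.1 _))
    have h4 := R.mul_mem h1 h3
    convert h4 using 1
    simp only [mul_inv_rev, inv_inv, mul_assoc, mul_inv_cancel_left₀ hg0]
  -- the scaling
  set s : E → ℍ[ℝ] := fun e => if e ∈ U \ T then w⁻¹ * f (x 0) (y 0) * (f e (y 0))⁻¹ else 1 with hs
  set t : E → ℍ[ℝ] := fun e => if e ∈ T then (f (x 0) e)⁻¹ * w else 1 with ht
  have hs1 : ∀ e, ‖s e‖ = 1 := by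
    intro e
    rw [hs]
    by_cases he' : e ∈ U \ T
    · simp only [he', if_true]
      obtain ⟨i, rfl⟩ := (hxB e).1 he'
      exact norm_mul_one (norm_mul_one (norm_inv_one hw) (hn 0 0)) (norm_inv_one (hn i 0))
    · simp only [he', if_false]; simp
  have ht1 : ∀ e, ‖t e‖ = 1 := by
    intro e
    rw [ht]
    by_cases he' : e ∈ T
    · simp only [he', if_true]
      obtain ⟨i, rfl⟩ := (hyT e).1 he'
      exact norm_mul_one (norm_inv_one (hn 0 i)) hw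
    · simp only [he', if_false]; simp
  have hst : ∀ i j, s (x i) * f (x i) (y j) * t (y j) =
      w⁻¹ * kap f (x 0) (y 0) (x i) (y j) * w := by
    intro i j
    rw [hs, ht]
    simp only [hxm i, (hyT _).2 ⟨j, rfl⟩, if_true, kap, mul_assoc]
  have k0 : ∀ j, kap f (x 0) (y 0) (x 0) (y j) = 1 := fun j => kap_one' (he 0 0) (he 0 j)
  have k0' : ∀ i, kap f (x 0) (y 0) (x i) (y 0) = 1 := fun i => kap_one (he 0 0) (he i 0)
  have w1 : w⁻¹ * 1 * w = 1 := by rw [mul_one, inv_mul_cancel₀ hw0]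
  rcases hab with ⟨a1, a2, a3, a4⟩ | ⟨a1, a2, a3, a4⟩
  · refine ⟨x, y, hx, hy, hxB, hyT, he, ⟨s, t, hs1, ht1, ?_⟩, _, _, _, hS, hl 1 1, hl 2 1, hla⟩
    refine forall_fin3 ?_ ?_ ?_ <;> refine forall_fin3 ?_ ?_ ?_ <;> rw [hst]
    · rw [k0, w1]; simp [A1]
    · rw [k0, w1]; simp [A1]
    · rw [k0, w1]; simp [A1]
    · rw [k0', w1]; simp [A1]
    · rw [a1]; simp [A1]
    · rw [a3]; simp [A1]
    · rw [k0', w1]; simp [A1]
    · rw [a2]; simp [A1]
    · rw [a4]; simp [A1]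
  · refine ⟨fun i => x (Equiv.swap 1 2 i), y, hx.comp (Equiv.swap 1 2).injective, hy, ?_, hyT,
      fun i j => he _ j, ⟨s, t, hs1, ht1, ?_⟩, _, _, _, hS, ?_, ?_, ?_⟩
    · intro e
      rw [hxB]
      constructor
      · rintro ⟨i, rfl⟩
        exact ⟨Equiv.swap 1 2 i, by simp⟩
      · rintro ⟨i, rfl⟩
        exact ⟨_, rfl⟩
    · have s0 : (Equiv.swap (1 : Fin 3) 2) 0 = 0 := by decide
      have s1 : (Equiv.swap (1 : Fin 3) 2) 1 = 2 := by decide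
      have s2 : (Equiv.swap (1 : Fin 3) 2) 2 = 1 := by decide
      refine forall_fin3 ?_ ?_ ?_ <;> refine forall_fin3 ?_ ?_ ?_ <;> rw [hst]
      · rw [s0, k0, w1]; simp [A1]
      · rw [s0, k0, w1]; simp [A1]
      · rw [s0, k0, w1]; simp [A1]
      · rw [s1, k0', w1]; simp [A1]
      · rw [s1, a1]; simp [A1]
      · rw [s1, a3]; simp [A1]
      · rw [s2, k0', w1]; simp [A1]
      · rw [s2, a2]; simp [A1]
      · rw [s2, a4]; simp [A1]
    · have s0 : (Equiv.swap (1 : Fin 3) 2) 0 = 0 := by decide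
      beta_reduce; rw [s0]; exact hl 1 1
    · have s0 : (Equiv.swap (1 : Fin 3) 2) 0 = 0 := by decide
      beta_reduce; rw [s0]; exact hl 2 1
    · have s0 : (Equiv.swap (1 : Fin 3) 2) 0 = 0 := by decide
      beta_reduce; rw [s0]; exact hla

theorem A1_mem : ∀ i j, A1 i j ∈ RI := by
  have h1 := RI.one_mem
  have hp := p0_mem_RI
  have hq := q0_mem_RI
  have hr : r0⁻¹ ∈ RI := by
    apply inv_memR RI_st r0_mem_RI
    have : ‖(r0 : ℍ[ℝ])‖ = 1 := by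
      have h5 : (√5 : ℝ) * √5 = 5 := Real.mul_self_sqrt (by norm_num)
      have h6 : Quaternion.normSq r0 = 1 := by
        rw [Quaternion.normSq_def']
        simp only [r0]
        nlinarith
      rw [Quaternion.normSq_eq_norm_mul_self] at h6
      nlinarith [norm_nonneg r0, sq_nonneg (‖r0‖ - 1)]
    exact this
  refine forall_fin3 ?_ ?_ ?_ <;> refine forall_fin3 ?_ ?_ ?_ <;> simp [A1] <;>
    first | exact h1 | exact hp | exact hq | exact RI.mul_mem hr hp | exact RI.mul_mem hr hq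

theorem exists_frame_P6 {V : CG E} {U : Finset E} (hU : SuppIn V U) {T : Finset E}
    (hT : T ⊆ U) (hT3 : T.card = 3) (hU6 : U.card = 6)
    (h : ∀ A, A ⊆ U → rk V A = if A = T then 2 else min (A.card : ℤ) 3) :
    ∃ f, Frame V (U \ T) f := by
  have hc := Finset.card_sdiff_add_card_eq_card hT
  have h1 : U \ T ≠ T := by
    intro h1
    have : Disjoint T (U \ T) := Finset.disjoint_sdiff
    rw [h1, disjoint_self] at this
    rw [this] at hT3; simp at hT3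
  have h2 : U ≠ T := by rintro rfl; omega
  have h3 : rk V (U \ T) = 3 := by
    rw [h _ Finset.sdiff_subset, if_neg h1]; omega
  have h4 : rk V U = 3 := by
    rw [h _ (Finset.Subset.refl _), if_neg h2]; omega
  exact exists_frame_of_basis hU (by rw [h3]; omega) (by rw [h3, h4])

theorem P6_gauge {V : CG E} {U : Finset E} (hU : SuppIn V U) (hV : IsQU V)
    (hP : IsP6 U (rk V)) : ∃ g, Gauged RI V g := by
  obtain ⟨hU6, T, hT, hT3, h⟩ := hP
  obtain ⟨f, hf⟩ := exists_frame_P6 hU hT hT3 hU6 h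
  obtain ⟨x, y, hx, hy, hxB, hyT, he, ⟨s, t, hs1, ht1, hst⟩, -⟩ := P6_data hU hV hT hT3 hU6 h hf
  obtain ⟨g, hg, -⟩ := Gauged.of_scale RI_st hU hV hf (s := s) (t := t) (fun b _ => hs1 b)
    (fun b _ => ht1 b) (by
      intro b hb z hz
      rw [Finset.sdiff_sdiff_eq_self hT] at hz
      obtain ⟨i, rfl⟩ := (hxB b).1 hb
      obtain ⟨j, rfl⟩ := (hyT z).1 hz
      rw [hst]; exact A1_mem i j)
  exact ⟨g, hg⟩

/-! ### the three families -/

theorem dual_data {V : CG E} {U : Finset E} {k n : ℕ} (hU : SuppIn V U) (hV : IsQU V)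
    (hn : U.card = n) (hk : k ≤ n) (hu : Unif k U (rk V)) :
    SuppIn (perp U V) U ∧ IsQU (perp U V) ∧ Unif ((n : ℤ) - k) U (rk (perp U V)) := by
  refine ⟨perp_suppIn U V, hV.dual hU, ?_⟩
  have h1 := hu.dual (by omega) (by rw [hn]; exact_mod_cast hk)
  rw [hn] at h1
  exact h1.congr (fun A hA => (rk_perp hU hA).symm)

theorem gauge_of_dual {R : Subring ℍ[ℝ]} (hR : ∀ x ∈ R, star x ∈ R) {V : CG E} {U : Finset E}
    (hU : SuppIn V U) (hV : IsQU V) (h : ∃ g, Gauged R (perp U V) g) : ∃ g, Gauged R V g := by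
  obtain ⟨g, hg⟩ := h
  have := hg.dual hR (perp_suppIn U V) (hV.dual hU)
  rw [perp_perp hU] at this
  exact ⟨g, this⟩

theorem base1 (U : Finset E) (V : CG E) (hU : SuppIn V U) (hV : IsQU V) (h : NN1 U (rk V)) :
    ∃ g, Gauged RC V g := U24_gauge hU hV h.2 h.1

theorem base2 (U : Finset E) (V : CG E) (hU : SuppIn V U) (hV : IsQU V) (h : NN2 U (rk V)) :
    ∃ g, Gauged RT V g := by
  rcases h.2 with h2 | h2
  · exact U25_gauge hU hV h2 h.1
  · obtain ⟨a1, a2, a3⟩ := dual_data (k := 3) (n := 5) hU hV h.1 (by norm_num) h2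
    exact gauge_of_dual RT_st hU hV (U25_gauge a1 a2 a3 h.1)

theorem base3 (U : Finset E) (V : CG E) (hU : SuppIn V U) (hV : IsQU V) (h : NN3 U (rk V)) :
    ∃ g, Gauged RI V g := by
  rcases h.2 with h2 | h2 | h2
  · exact U26_gauge hU hV h2 h.1
  · obtain ⟨a1, a2, a3⟩ := dual_data (k := 4) (n := 6) hU hV h.1 (by norm_num) h2
    exact gauge_of_dual RI_st hU hV (U26_gauge a1 a2 a3 h.1)
  · exact P6_gauge hU hV h2

theorem rig1 (S : Finset E) (W : CG E) (hU : SuppIn W S) (hV : IsQU W) (h : NN1 S (rk W)) :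
    ∀ g g', Gauged RC W g → Gauged RC W g' → ∃ e ∈ S, NormR RC ((g e)⁻¹ * g' e) := by
  intro g g' hg hg'
  obtain ⟨a, ha, κ, hκ, h1⟩ := U24_loops hU hV h.2 h.1
  exact ⟨a, ha, rig_RC (hg.1 a) (hg'.1 a) hκ (h1 _ RC_st g hg) (h1 _ RC_st g' hg')⟩

theorem rig2 (S : Finset E) (W : CG E) (hU : SuppIn W S) (hV : IsQU W) (h : NN2 S (rk W)) :
    ∀ g g', Gauged RT W g → Gauged RT W g' → ∃ e ∈ S, NormR RT ((g e)⁻¹ * g' e) := by
  have key : ∀ W : CG E, SuppIn W S → IsQU W → Unif 2 S (rk W) → ∀ g g', Gauged RT W g →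
      Gauged RT W g' → ∃ e ∈ S, NormR RT ((g e)⁻¹ * g' e) := by
    intro W hU hV h2 g g' hg hg'
    obtain ⟨a, ha, κ, κ', hκ, h1, h1'⟩ := U25_loops hU hV h2 h.1
    exact ⟨a, ha, rig_RT (hg.1 a) (hg'.1 a) hκ (h1 _ RT_st g hg) (h1 _ RT_st g' hg')
      (h1' _ RT_st g hg) (h1' _ RT_st g' hg')⟩
  intro g g' hg hg'
  rcases h.2 with h2 | h2
  · exact key W hU hV h2 g g' hg hg'
  · obtain ⟨a1, a2, a3⟩ := dual_data (k := 3) (n := 5) hU hV h.1 (by norm_num) h2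
    exact key _ a1 a2 a3 g g' (hg.dual RT_st hU hV) (hg'.dual RT_st hU hV)

theorem rig3 (S : Finset E) (W : CG E) (hU : SuppIn W S) (hV : IsQU W) (h : NN3 S (rk W)) :
    ∀ g g', Gauged RI W g → Gauged RI W g' → ∃ e ∈ S, NormR RI ((g e)⁻¹ * g' e) := by
  have key : ∀ W : CG E, (∃ a ∈ S, ∃ κ κ' κ'', Spx κ κ' κ'' ∧ Loops W a κ ∧ Loops W a κ' ∧
      Loops W a κ'') → ∀ g g', Gauged RI W g → Gauged RI W g' →
      ∃ e ∈ S, NormR RI ((g e)⁻¹ * g' e) := by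
    rintro W ⟨a, ha, κ, κ', κ'', hκ, h1, h2, h3⟩ g g' hg hg'
    exact ⟨a, ha, rig_RI (hg.1 a) (hg'.1 a) hκ (h1 _ RI_st g hg) (h1 _ RI_st g' hg')
      (h2 _ RI_st g hg) (h2 _ RI_st g' hg') (h3 _ RI_st g hg) (h3 _ RI_st g' hg')⟩
  intro g g' hg hg'
  rcases h.2 with h2 | h2 | h2
  · exact key W (U26_loops hU hV h2 h.1) g g' hg hg'
  · obtain ⟨a1, a2, a3⟩ := dual_data (k := 4) (n := 6) hU hV h.1 (by norm_num) h2
    exact key _ (U26_loops a1 a2 a3 h.1) g g' (hg.dual RI_st hU hV) (hg'.dual RI_st hU hV)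
  · obtain ⟨hU6, T, hT, hT3, h⟩ := h2
    obtain ⟨f, hf⟩ := exists_frame_P6 hU hT hT3 hU6 h
    obtain ⟨x, y, hx, hy, hxB, hyT, he, -, hκ⟩ := P6_data hU hV hT hT3 hU6 h hf
    exact key W ⟨x 0, (Finset.mem_sdiff.1 ((hxB _).2 ⟨0, rfl⟩)).1, hκ⟩ g g' hg hg'

end Pool.Agent.QU
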