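import Pool.Agent.QU.Defs

set_option linter.unusedVariables false
set_option linter.unusedSectionVars false
set_option linter.style.longLine false

/-! Linear algebra of quaternionic chain groups. -/

open Quaternion

namespace Pool.Agent.QU

variable {E : Type*} [Fintype E] [DecidableEq E]

/-! ### basic -/

theorem mem_vanish {A : Finset E} {c : E → ℍ[ℝ]} : c ∈ (vanish A : CG E) ↔ ∀ e ∈ A, c e = 0 :=
  Iff.rfl

theorem zeroOn_apply (D : Finset E) (c : E → ℍ[ℝ]) (e : E) :
    zeroOn D c e = if e ∈ D then 0 else c e := rfl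

theorem vanish_anti {A B : Finset E} (h : A ⊆ B) : (vanish B : CG E) ≤ vanish A :=
  fun c hc e he => hc e (h he)

theorem vanish_empty : (vanish ∅ : CG E) = ⊤ := by
  ext c; simp [mem_vanish]

theorem finrank_map_add (W : CG E) (g : (E → ℍ[ℝ]) →ₗ[ℍ[ℝ]] (E → ℍ[ℝ])) :
    Module.finrank ℍ[ℝ] (W.map g) + Module.finrank ℍ[ℝ] (W ⊓ LinearMap.ker g : CG E) =
      Module.finrank ℍ[ℝ] W := by
  have h := LinearMap.finrank_range_add_finrank_ker (g.domRestrict W)
  have h1 : LinearMap.range (g.domRestrict W) = W.map g := by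
    ext x
    simp only [LinearMap.mem_range, Submodule.mem_map, LinearMap.domRestrict_apply]
    constructor
    · rintro ⟨y, hy⟩; exact ⟨y, y.2, hy⟩
    · rintro ⟨y, hy, rfl⟩; exact ⟨⟨y, hy⟩, rfl⟩
  have h2 : Module.finrank ℍ[ℝ] (LinearMap.ker (g.domRestrict W)) =
      Module.finrank ℍ[ℝ] (W ⊓ LinearMap.ker g : CG E) := by
    rw [← Submodule.finrank_map_subtype_eq W (LinearMap.ker (g.domRestrict W))]
    have h3 : (LinearMap.ker (g.domRestrict W)).map W.subtype = W ⊓ LinearMap.ker g := by
      ext x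
      simp only [Submodule.mem_map, LinearMap.mem_ker, Submodule.mem_inf]
      constructor
      · rintro ⟨y, hy, rfl⟩; exact ⟨y.2, hy⟩
      · rintro ⟨hx, hy⟩; exact ⟨⟨x, hx⟩, hy, rfl⟩
    rw [h3]
  rw [h1, h2] at h
  exact h

theorem rk_RK (V : CG E) : RK (rk V) where
  empty := by
    have : (V ⊓ vanish ∅ : CG E) = V := by rw [vanish_empty, inf_top_eq]
    rw [rk, this, sub_self]
  mono := by
    intro A B h
    have : Module.finrank ℍ[ℝ] (V ⊓ vanish B : CG E) ≤ Module.finrank ℍ[ℝ] (V ⊓ vanish A : CG E) :=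
      Submodule.finrank_mono (inf_le_inf_left _ (vanish_anti h))
    simp only [rk]; omega
  step := by
    intro A e
    let W : CG E := V ⊓ vanish A
    have h := LinearMap.finrank_range_add_finrank_ker
      ((LinearMap.proj (R := ℍ[ℝ]) (φ := fun _ : E => ℍ[ℝ]) e).domRestrict W)
    have h1 : Module.finrank ℍ[ℝ] (LinearMap.range
      ((LinearMap.proj (R := ℍ[ℝ]) (φ := fun _ : E => ℍ[ℝ]) e).domRestrict W)) ≤ 1 := by
      refine (Submodule.finrank_le _).trans ?_
      simp
    have h2 : Module.finrank ℍ[ℝ] (LinearMap.ker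
      ((LinearMap.proj (R := ℍ[ℝ]) (φ := fun _ : E => ℍ[ℝ]) e).domRestrict W)) =
        Module.finrank ℍ[ℝ] (V ⊓ vanish (insert e A) : CG E) := by
      rw [← Submodule.finrank_map_subtype_eq W]
      have h3 : (LinearMap.ker ((LinearMap.proj (R := ℍ[ℝ]) (φ := fun _ : E => ℍ[ℝ]) e).domRestrict
          W)).map W.subtype = V ⊓ vanish (insert e A) := by
        ext x
        simp only [Submodule.mem_map, LinearMap.mem_ker, Submodule.mem_inf, mem_vanish,
          Finset.mem_insert, forall_eq_or_imp]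
        constructor
        · rintro ⟨y, hy, rfl⟩; exact ⟨y.2.1, hy, y.2.2⟩
        · rintro ⟨hx, hy, hz⟩; exact ⟨⟨x, hx, hz⟩, hy, rfl⟩
      rw [h3]
    have h3 : Module.finrank ℍ[ℝ] W = Module.finrank ℍ[ℝ] (V ⊓ vanish A : CG E) := rfl
    simp only [rk]; omega
  sub := by
    intro A B
    have h := Submodule.finrank_sup_add_finrank_inf_eq (V ⊓ vanish A : CG E) (V ⊓ vanish B : CG E)
    have h1 : Module.finrank ℍ[ℝ] ((V ⊓ vanish A) ⊔ (V ⊓ vanish B) : CG E) ≤
        Module.finrank ℍ[ℝ] (V ⊓ vanish (A ∩ B) : CG E) := by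
      refine Submodule.finrank_mono (sup_le (inf_le_inf_left _ (vanish_anti ?_))
        (inf_le_inf_left _ (vanish_anti ?_)))
      · exact Finset.inter_subset_left
      · exact Finset.inter_subset_right
    have h2 : ((V ⊓ vanish A) ⊓ (V ⊓ vanish B) : CG E) = V ⊓ vanish (A ∪ B) := by
      ext c
      simp only [Submodule.mem_inf, mem_vanish, Finset.mem_union]
      constructor
      · rintro ⟨⟨h1, h2⟩, -, h3⟩
        exact ⟨h1, fun e he => he.elim (h2 e) (h3 e)⟩
      · rintro ⟨h1, h2⟩
        exact ⟨⟨h1, fun e he => h2 e (Or.inl he)⟩, h1, fun e he => h2 e (Or.inr he)⟩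
    rw [h2] at h
    simp only [rk]; omega

theorem SuppIn.rk_inter {V : CG E} {U : Finset E} (h : SuppIn V U) (A : Finset E) :
    rk V (A ∩ U) = rk V A := by
  have : (V ⊓ vanish (A ∩ U) : CG E) = V ⊓ vanish A := by
    ext c
    simp only [Submodule.mem_inf, mem_vanish, Finset.mem_inter]
    constructor
    · rintro ⟨h1, h2⟩
      refine ⟨h1, fun e he => ?_⟩
      by_cases heU : e ∈ U
      · exact h2 e ⟨he, heU⟩
      · exact h c h1 e heU
    · rintro ⟨h1, h2⟩
      exact ⟨h1, fun e he => h2 e he.1⟩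
  rw [rk, rk, this]

theorem mem_mino {V : CG E} {D K : Finset E} {c : E → ℍ[ℝ]} :
    c ∈ mino V D K ↔ ∃ d ∈ V, (∀ e ∈ K, d e = 0) ∧ (∀ e, e ∉ D → c e = d e) ∧
      (∀ e ∈ D, c e = 0) := by
  constructor
  · rintro ⟨d, ⟨hd, hd'⟩, rfl⟩
    refine ⟨d, hd, hd', fun e he => ?_, fun e he => ?_⟩
    · rw [zeroOn_apply, if_neg he]
    · rw [zeroOn_apply, if_pos he]
  · rintro ⟨d, hd, hd', h1, h2⟩
    refine ⟨d, ⟨hd, hd'⟩, ?_⟩
    funext e
    rw [zeroOn_apply]
    split_ifs with h
    · exact (h2 e h).symm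
    · exact (h1 e h).symm

theorem SuppIn.minor {V : CG E} {U : Finset E} (h : SuppIn V U) (D K : Finset E) :
    SuppIn (mino V D K) (U \ (D ∪ K)) := by
  intro c hc e he
  obtain ⟨d, hd, h1, h2, h3⟩ := mem_mino.1 hc
  by_cases heD : e ∈ D
  · exact h3 e heD
  · rw [h2 e heD]
    by_cases heK : e ∈ K
    · exact h1 e heK
    · apply h d hd
      intro heU
      exact he (by simp [heU, heD, heK])

theorem mino_empty (V : CG E) : mino V ∅ ∅ = V := by
  ext c
  rw [mem_mino]
  constructor
  · rintro ⟨d, hd, -, h, -⟩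
    have : c = d := funext fun e => h e (by simp)
    rw [this]; exact hd
  · intro hc
    exact ⟨c, hc, by simp, by simp, by simp⟩

theorem mino_mino (V : CG E) {D K D' K' : Finset E} (h : Disjoint D K') :
    mino (mino V D K) D' K' = mino V (D ∪ D') (K ∪ K') := by
  ext c
  rw [mem_mino, mem_mino]
  constructor
  · rintro ⟨d, hd, h1, h2, h3⟩
    obtain ⟨d', hd', h1', h2', h3'⟩ := mem_mino.1 hd
    refine ⟨d', hd', fun e he => ?_, fun e he => ?_, fun e he => ?_⟩
    · rcases Finset.mem_union.1 he with he | he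
      · exact h1' e he
      · rw [← h2' e (fun h' => Finset.disjoint_left.1 h h' he)]; exact h1 e he
    · simp only [Finset.mem_union, not_or] at he
      rw [h2 e he.2, h2' e he.1]
    · by_cases heD : e ∈ D'
      · exact h3 e heD
      · rw [h2 e heD]
        exact h3' e ((Finset.mem_union.1 he).resolve_right heD)
  · rintro ⟨d, hd, h1, h2, h3⟩
    refine ⟨zeroOn D d, mem_mino.2 ⟨d, hd, fun e he => h1 e (Finset.mem_union_left _ he), ?_, ?_⟩,
      fun e he => ?_, fun e he => ?_, fun e he => h3 e (Finset.mem_union_right _ he)⟩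
    · intro e he; rw [zeroOn_apply, if_neg he]
    · intro e he; rw [zeroOn_apply, if_pos he]
    · rw [zeroOn_apply, h1 e (Finset.mem_union_right _ he), ite_self]
    · rw [zeroOn_apply]
      split_ifs with h'
      · exact h3 e (Finset.mem_union_left _ h')
      · exact h2 e (by simp [h', he])

theorem rk_mino (V : CG E) {D K : Finset E} {A : Finset E} (h : Disjoint A D)
    (h' : Disjoint K D) : rk (mino V D K) A = con (rk V) K A := by
  have h1 := finrank_map_add (V ⊓ vanish K) (zeroOn D)
  have h2 := finrank_map_add (V ⊓ vanish (A ∪ K)) (zeroOn D)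
  have h3 : ((V ⊓ vanish (A ∪ K)) ⊓ LinearMap.ker (zeroOn D) : CG E) =
      (V ⊓ vanish K) ⊓ LinearMap.ker (zeroOn D) := by
    ext c
    simp only [Submodule.mem_inf, mem_vanish, LinearMap.mem_ker]
    constructor
    · rintro ⟨⟨h1, h2⟩, h3⟩
      exact ⟨⟨h1, fun e he => h2 e (Finset.mem_union_right _ he)⟩, h3⟩
    · rintro ⟨⟨h1, h2⟩, h3⟩
      refine ⟨⟨h1, fun e he => ?_⟩, h3⟩
      rcases Finset.mem_union.1 he with he | he
      · have := congrFun h3 e
        rw [zeroOn_apply, if_neg (Finset.disjoint_left.1 h he)] at this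
        exact this
      · exact h2 e he
  have h4 : ((V ⊓ vanish (A ∪ K)).map (zeroOn D) : CG E) = mino V D K ⊓ vanish A := by
    ext c
    simp only [Submodule.mem_inf, mem_vanish, Submodule.mem_map, mem_mino]
    constructor
    · rintro ⟨d, ⟨hd, hd'⟩, rfl⟩
      refine ⟨⟨d, hd, fun e he => hd' e (Finset.mem_union_right _ he), ?_, ?_⟩, fun e he => ?_⟩
      · intro e he; rw [zeroOn_apply, if_neg he]
      · intro e he; rw [zeroOn_apply, if_pos he]
      · rw [zeroOn_apply, hd' e (Finset.mem_union_left _ he), ite_self]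
    · rintro ⟨⟨d, hd, h1, h2, h3⟩, h4⟩
      refine ⟨d, ⟨hd, fun e he => ?_⟩, ?_⟩
      · rcases Finset.mem_union.1 he with he | he
        · rw [← h2 e (Finset.disjoint_left.1 h he)]; exact h4 e he
        · exact h1 e he
      · funext e
        rw [zeroOn_apply]
        split_ifs with h'
        · exact (h3 e h').symm
        · exact (h2 e h').symm
  rw [h3] at h2
  rw [h4] at h2
  have h5 : Module.finrank ℍ[ℝ] (mino V D K) =
    Module.finrank ℍ[ℝ] ((V ⊓ vanish K).map (zeroOn D) : CG E) := rfl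
  simp only [rk, con]
  omega

/-! ### elementary chains -/

theorem Elem.prop {V : CG E} {c d : E → ℍ[ℝ]} (hc : Elem V c) (hd : d ∈ V)
    (h : ∀ e, c e = 0 → d e = 0) : ∃ x : ℍ[ℝ], d = x • c := by
  obtain ⟨a, ha⟩ : ∃ a, c a ≠ 0 := by
    by_contra hcon
    push Not at hcon
    exact hc.2.1 (funext hcon)
  refine ⟨d a * (c a)⁻¹, ?_⟩
  by_contra hne
  have h1 : d - (d a * (c a)⁻¹) • c ∈ V := V.sub_mem hd (V.smul_mem _ hc.1)
  have h2 := hc.2.2 _ h1 (sub_ne_zero.2 hne) (fun e he => by simp [he, h e he]) a (by simp [ha])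
  exact ha h2

theorem exists_elem_le {V : CG E} {c : E → ℍ[ℝ]} (hc : c ∈ V) {a : E} (ha : c a ≠ 0) :
    ∃ d, Elem V d ∧ (∀ e, c e = 0 → d e = 0) ∧ d a ≠ 0 := by
  classical
  let P : ℕ → Prop := fun n => ∃ d ∈ V, (∀ e, c e = 0 → d e = 0) ∧ d a ≠ 0 ∧
    (Finset.univ.filter (fun e => d e ≠ 0)).card = n
  have hP : ∃ n, P n := ⟨_, c, hc, fun e he => he, ha, rfl⟩
  obtain ⟨d, hd, hdc, hda, hn⟩ := Nat.find_spec hP
  refine ⟨d, ⟨hd, fun h => hda (by rw [h]; rfl), ?_⟩, hdc, hda⟩
  intro e he he0 hsub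
  by_contra hcon
  push Not at hcon
  obtain ⟨b, hb, hb'⟩ := hcon
  by_cases hea : e a = 0
  · obtain ⟨b', hb'e⟩ : ∃ b', e b' ≠ 0 := by
      by_contra hcon
      push Not at hcon
      exact he0 (funext hcon)
    have hmem : d - (d b' * (e b')⁻¹) • e ∈ V := V.sub_mem hd (V.smul_mem _ he)
    have hlt : (Finset.univ.filter (fun x => (d - (d b' * (e b')⁻¹) • e) x ≠ 0)).card <
        Nat.find hP := by
      rw [← hn]
      apply Finset.card_lt_card
      rw [Finset.ssubset_iff_of_subset]
      · refine ⟨b', ?_, ?_⟩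
        · simp only [Finset.mem_filter, Finset.mem_univ, true_and]
          exact fun h => hb'e (hsub _ h)
        · simp [hb'e]
      · intro x
        simp only [Finset.mem_filter, Finset.mem_univ, true_and]
        intro hx h0
        apply hx
        simp [h0, hsub x h0]
    refine Nat.find_min hP hlt ⟨_, hmem, fun x hx => ?_, ?_, rfl⟩
    · simp [hdc x hx, hsub x (hdc x hx)]
    · simpa [hea] using hda
  · have hlt : (Finset.univ.filter (fun x => e x ≠ 0)).card < Nat.find hP := by
      rw [← hn]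
      apply Finset.card_lt_card
      rw [Finset.ssubset_iff_of_subset]
      · refine ⟨b, ?_, ?_⟩
        · simp only [Finset.mem_filter, Finset.mem_univ, true_and]
          exact hb'
        · simp [hb]
      · intro x
        simp only [Finset.mem_filter, Finset.mem_univ, true_and]
        intro hx h0
        exact hx (hsub x h0)
    exact Nat.find_min hP hlt ⟨e, he, fun x hx => hsub x (hdc x hx), hea, rfl⟩

/-- lifting of elementary chains of minors -/
theorem Elem.lift_mino {V : CG E} {D K : Finset E} {c : E → ℍ[ℝ]} (hc : Elem (mino V D K) c) :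
    ∃ d, Elem V d ∧ (∀ e ∈ K, d e = 0) ∧ ∀ e, e ∉ D → c e = d e := by
  classical
  let P : ℕ → Prop := fun n => ∃ d ∈ V, (∀ e ∈ K, d e = 0) ∧ (∀ e, e ∉ D → c e = d e) ∧
    (Finset.univ.filter (fun e => d e ≠ 0)).card = n
  have hP : ∃ n, P n := by
    obtain ⟨d, hd, h1, h2, h3⟩ := mem_mino.1 hc.1
    exact ⟨_, d, hd, h1, h2, rfl⟩
  obtain ⟨d, hd, hdK, hdc, hn⟩ := Nat.find_spec hP
  have hcD : ∀ e ∈ D, c e = 0 := (mem_mino.1 hc.1).choose_spec.2.2.2
  have hd0 : d ≠ 0 := by
    rintro rfl
    apply hc.2.1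
    funext e
    by_cases he : e ∈ D
    · exact hcD e he
    · rw [hdc e he]
  refine ⟨d, ⟨hd, hd0, ?_⟩, hdK, hdc⟩
  intro e he he0 hsub
  by_contra hcon
  push Not at hcon
  obtain ⟨b, hb, hb'⟩ := hcon
  have hz : zeroOn D e ∈ mino V D K :=
    mem_mino.2 ⟨e, he, fun x hx => hsub x (hdK x hx), fun x hx => by rw [zeroOn_apply, if_neg hx],
      fun x hx => by rw [zeroOn_apply, if_pos hx]⟩
  obtain ⟨x, hx⟩ := hc.prop hz (fun y hy => by
    rw [zeroOn_apply]
    split_ifs with hyD
    · rfl
    · exact hsub y (by rw [← hdc y hyD]; exact hy))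
  have hx' : ∀ y, y ∉ D → e y = x * c y := by
    intro y hy
    have := congrFun hx y
    rw [zeroOn_apply, if_neg hy] at this
    simpa using this
  by_cases hx0 : x = 0
  · obtain ⟨b', hb'e⟩ : ∃ b', e b' ≠ 0 := by
      by_contra hcon
      push Not at hcon
      exact he0 (funext hcon)
    have hlt : (Finset.univ.filter (fun x => (d - (d b' * (e b')⁻¹) • e) x ≠ 0)).card <
        Nat.find hP := by
      rw [← hn]
      apply Finset.card_lt_card
      rw [Finset.ssubset_iff_of_subset]
      · refine ⟨b', ?_, ?_⟩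
        · simp only [Finset.mem_filter, Finset.mem_univ, true_and]
          exact fun h => hb'e (hsub _ h)
        · simp [hb'e]
      · intro x
        simp only [Finset.mem_filter, Finset.mem_univ, true_and]
        intro hx h0
        apply hx
        simp [h0, hsub x h0]
    refine Nat.find_min hP hlt ⟨_, V.sub_mem hd (V.smul_mem _ he), fun y hy => ?_, fun y hy => ?_,
      rfl⟩
    · simp [hdK y hy, hsub y (hdK y hy)]
    · rw [hdc y hy]
      simp [hx' y hy, hx0]
  · have hlt : (Finset.univ.filter (fun y => (x⁻¹ • e) y ≠ 0)).card < Nat.find hP := by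
      rw [← hn]
      apply Finset.card_lt_card
      rw [Finset.ssubset_iff_of_subset]
      · refine ⟨b, ?_, ?_⟩
        · simp only [Finset.mem_filter, Finset.mem_univ, true_and]
          exact hb'
        · simp [hb]
      · intro y
        simp only [Finset.mem_filter, Finset.mem_univ, true_and]
        intro hy h0
        apply hy
        simp [hsub y h0]
    refine Nat.find_min hP hlt ⟨_, V.smul_mem _ he, fun y hy => ?_, fun y hy => ?_, rfl⟩
    · simp [hsub y (hdK y hy)]
    · simp [hx' y hy, hx0]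

theorem IsQU.minor {V : CG E} (h : IsQU V) (D K : Finset E) : IsQU (mino V D K) := by
  intro c hc a b ha hb
  obtain ⟨d, hd, h1, h2⟩ := hc.lift_mino
  have hcD : ∀ e ∈ D, c e = 0 := (mem_mino.1 hc.1).choose_spec.2.2.2
  have haD : a ∉ D := fun h => ha (hcD a h)
  have hbD : b ∉ D := fun h => hb (hcD b h)
  rw [h2 a haD, h2 b hbD]
  exact h d hd a b (by rw [← h2 a haD]; exact ha) (by rw [← h2 b hbD]; exact hb)

/-! ### frames -/

theorem Frame.expand {V : CG E} {B : Finset E} {f} (h : Frame V B f) {c : E → ℍ[ℝ]} (hc : c ∈ V) :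
    c = ∑ x ∈ B, c x • f x := by
  have h1 : c - ∑ x ∈ B, c x • f x ∈ V :=
    V.sub_mem hc (V.sum_mem fun x hx => V.smul_mem _ (h.mem x hx))
  refine sub_eq_zero.1 (h.inj _ h1 fun y hy => ?_)
  rw [Pi.sub_apply, Finset.sum_apply, Finset.sum_eq_single y]
  · simp [h.one y hy]
  · intro x hx hxy
    simp [h.zero x hx y hy hxy]
  · intro hy'; exact absurd hy hy'

theorem Frame.expand_apply {V : CG E} {B : Finset E} {f} (h : Frame V B f) {c : E → ℍ[ℝ]}
    (hc : c ∈ V) (y : E) : c y = ∑ x ∈ B, c x * f x y := by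
  conv_lhs => rw [h.expand hc]
  rw [Finset.sum_apply]
  rfl

theorem Frame.elem {V : CG E} {B : Finset E} {f} (h : Frame V B f) {x : E} (hx : x ∈ B) :
    Elem V (f x) := by
  have h1 : f x ≠ 0 := fun h0 => by
    have := h.one x hx
    rw [h0] at this
    simp at this
  refine ⟨h.mem x hx, h1, fun d hd hd0 hsub e he => ?_⟩
  have h2 : d = d x • f x := by
    conv_lhs => rw [h.expand hd]
    rw [Finset.sum_eq_single x]
    · intro y hy hyx
      rw [hsub y (h.zero x hx y hy (Ne.symm hyx)), zero_smul]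
    · intro h'; exact absurd hx h'
  have h3 : d x ≠ 0 := fun h3 => hd0 (by rw [h2, h3, zero_smul])
  have h4 := congrFun h2 e
  rw [he] at h4
  simpa [h3] using h4.symm

theorem Frame.qu {V : CG E} {B : Finset E} {f} (h : Frame V B f) (hV : IsQU V) {x : E} (hx : x ∈ B)
    (y : E) : f x y = 0 ∨ ‖f x y‖ = 1 := by
  by_cases h0 : f x y = 0
  · exact Or.inl h0
  · right
    rw [hV _ (h.elem hx) y x h0 (by rw [h.one x hx]; exact one_ne_zero), h.one x hx, norm_one]

theorem Frame.pivot {V : CG E} {B : Finset E} {f} (h : Frame V B f) {x y : E} (hx : x ∈ B)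
    (hy : y ∉ B) (hxy : f x y ≠ 0) :
    Frame V (insert y (B.erase x)) (fun z w => if z = y then (f x y)⁻¹ * f x w
      else f z w - f z y * (f x y)⁻¹ * f x w) where
  mem := by
    intro z hz
    by_cases hzy : z = y
    · simp only [hzy, if_true]
      exact V.smul_mem _ (h.mem x hx)
    · have hzB : z ∈ B.erase x := (Finset.mem_insert.1 hz).resolve_left hzy
      simp only [hzy, if_false]
      exact V.sub_mem (h.mem z (Finset.mem_of_mem_erase hzB)) (V.smul_mem (f z y * (f x y)⁻¹) (h.mem x hx))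
  one := by
    intro z hz
    by_cases hzy : z = y
    · simp only [hzy, if_true]
      exact inv_mul_cancel₀ hxy
    · have hzB : z ∈ B.erase x := (Finset.mem_insert.1 hz).resolve_left hzy
      have hzB' := Finset.mem_erase.1 hzB
      simp only [hzy, if_false]
      rw [h.one z hzB'.2, h.zero x hx z hzB'.2 (Ne.symm hzB'.1), mul_zero, sub_zero]
  zero := by
    intro z hz w hw hzw
    by_cases hzy : z = y
    · have hwy : w ≠ y := fun h' => hzw (hzy.trans h'.symm)
      have hwB := Finset.mem_erase.1 ((Finset.mem_insert.1 hw).resolve_left hwy)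
      simp only [hzy, if_true]
      rw [h.zero x hx w hwB.2 (Ne.symm hwB.1), mul_zero]
    · have hzB := Finset.mem_erase.1 ((Finset.mem_insert.1 hz).resolve_left hzy)
      simp only [hzy, if_false]
      by_cases hwy : w = y
      · rw [hwy, mul_assoc, inv_mul_cancel₀ hxy, mul_one, sub_self]
      · have hwB := Finset.mem_erase.1 ((Finset.mem_insert.1 hw).resolve_left hwy)
        rw [h.zero z hzB.2 w hwB.2 hzw, h.zero x hx w hwB.2 (Ne.symm hwB.1), mul_zero, sub_zero]
  inj := by
    intro c hc h0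
    have h1 : c y = c x * f x y := by
      rw [h.expand_apply hc, Finset.sum_eq_single x]
      · intro z hz hzx
        rw [h0 z (Finset.mem_insert_of_mem (Finset.mem_erase.2 ⟨hzx, hz⟩)), zero_mul]
      · intro h'; exact absurd hx h'
    rw [h0 y (Finset.mem_insert_self _ _)] at h1
    have h2 : c x = 0 := by
      rcases mul_eq_zero.1 h1.symm with h2 | h2
      · exact h2
      · exact absurd h2 hxy
    refine h.inj c hc fun z hz => ?_
    by_cases hzx : z = x
    · rw [hzx, h2]
    · exact h0 z (Finset.mem_insert_of_mem (Finset.mem_erase.2 ⟨hzx, hz⟩))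

theorem Frame.subset {V : CG E} {U B : Finset E} {f} (h : Frame V B f) (hU : SuppIn V U) :
    B ⊆ U := by
  intro x hx
  by_contra hxU
  have h1 := hU _ (h.mem x hx) x hxU
  rw [h.one x hx] at h1
  exact one_ne_zero h1

theorem Frame.finrank {V : CG E} {B : Finset E} {f} (h : Frame V B f) :
    Module.finrank ℍ[ℝ] V = B.card := by
  let g : V →ₗ[ℍ[ℝ]] (B → ℍ[ℝ]) :=
    { toFun := fun c x => (c : E → ℍ[ℝ]) x
      map_add' := fun a b => rfl
      map_smul' := fun a b => rfl }
  have hg : Function.Bijective g := by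
    constructor
    · rw [← LinearMap.ker_eq_bot, LinearMap.ker_eq_bot']
      intro c hc
      apply Subtype.ext
      exact h.inj c c.2 fun x hx => congrFun hc ⟨x, hx⟩
    · intro v
      refine ⟨⟨∑ x : B, v x • f x, V.sum_mem fun x _ => V.smul_mem _ (h.mem x x.2)⟩, ?_⟩
      funext y
      change (∑ x : B, v x • f x) (y : E) = v y
      rw [Finset.sum_apply, Finset.sum_eq_single y]
      · simp [h.one y y.2]
      · intro x _ hxy
        have := h.zero x x.2 y y.2 (fun h' => hxy (Subtype.ext h'))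
        simp [this]
      · intro h'; exact absurd (Finset.mem_univ _) h'
  rw [LinearEquiv.finrank_eq (LinearEquiv.ofBijective g hg), Module.finrank_fintype_fun_eq_card,
    Fintype.card_coe]

theorem rk_le_finrank (V : CG E) (A : Finset E) : rk V A ≤ Module.finrank ℍ[ℝ] V := by
  simp only [rk]; omega

theorem rk_eq_finrank {V : CG E} {A : Finset E} (h : ∀ c ∈ V, (∀ e ∈ A, c e = 0) → c = 0) :
    rk V A = Module.finrank ℍ[ℝ] V := by
  have : (V ⊓ vanish A : CG E) = ⊥ := by
    rw [eq_bot_iff]
    intro c hc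
    exact (Submodule.mem_bot _).2 (h c hc.1 hc.2)
  rw [rk, this]
  simp

theorem inj_of_rk {V : CG E} {A : Finset E} (h : (Module.finrank ℍ[ℝ] V : ℤ) ≤ rk V A) :
    ∀ c ∈ V, (∀ e ∈ A, c e = 0) → c = 0 := by
  intro c hc hcA
  have h1 : Module.finrank ℍ[ℝ] (V ⊓ vanish A : CG E) = 0 := by
    simp only [rk] at h; omega
  have h2 : (V ⊓ vanish A : CG E) = ⊥ := Submodule.finrank_eq_zero.1 h1
  have h3 : c ∈ (V ⊓ vanish A : CG E) := ⟨hc, hcA⟩
  rw [h2] at h3
  exact (Submodule.mem_bot _).1 h3

theorem SuppIn.rk_eq {V : CG E} {U : Finset E} (h : SuppIn V U) :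
    rk V U = Module.finrank ℍ[ℝ] V :=
  rk_eq_finrank fun c hc hc' => funext fun e => by
    by_cases he : e ∈ U
    · exact hc' e he
    · exact h c hc e he

theorem RK.indep_subset {r : Finset E → ℤ} (h : RK r) {A B : Finset E} (hAB : A ⊆ B)
    (hB : r B = B.card) : r A = A.card := by
  have h1 := h.union_le_card A (B \ A)
  rw [Finset.union_sdiff_of_subset hAB] at h1
  have h2 := h.le_card A
  have h3 := Finset.card_sdiff_add_card_eq_card hAB
  omega

theorem Frame.rk_univ {V : CG E} {B : Finset E} {f} (h : Frame V B f) : rk V B = B.card := by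
  rw [rk_eq_finrank h.inj, h.finrank]

theorem Frame.rk_eq {V : CG E} {B : Finset E} {f} (h : Frame V B f) {X : Finset E} (hX : X ⊆ B) :
    rk V X = X.card := (rk_RK V).indep_subset hX h.rk_univ

/-- a basis (rank condition) has a frame -/
theorem exists_frame_of_basis {V : CG E} {U B : Finset E} (hU : SuppIn V U) (hB : rk V B = B.card)
    (hB' : rk V B = rk V U) : ∃ f, Frame V B f := by
  have hinj : ∀ c ∈ V, (∀ e ∈ B, c e = 0) → c = 0 := inj_of_rk (by rw [hB', hU.rk_eq])
  have hfr : Module.finrank ℍ[ℝ] V = B.card := by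
    have := hU.rk_eq
    omega
  let g : V →ₗ[ℍ[ℝ]] (B → ℍ[ℝ]) :=
    { toFun := fun c x => (c : E → ℍ[ℝ]) x
      map_add' := fun a b => rfl
      map_smul' := fun a b => rfl }
  have hg : Function.Injective g := by
    rw [← LinearMap.ker_eq_bot, LinearMap.ker_eq_bot']
    intro c hc
    apply Subtype.ext
    exact hinj c c.2 fun x hx => congrFun hc ⟨x, hx⟩
  have hg' : Function.Surjective g :=
    (LinearMap.injective_iff_surjective_of_finrank_eq_finrank (by
      rw [Module.finrank_fintype_fun_eq_card, Fintype.card_coe, hfr])).1 hg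
  choose F hF using hg'
  classical
  refine ⟨fun x => if hx : x ∈ B then (F (Pi.single ⟨x, hx⟩ 1) : E → ℍ[ℝ]) else 0,
    fun x hx => ?_, fun x hx => ?_, fun x hx y hy hxy => ?_, hinj⟩
  · simp only [hx, dif_pos]
    exact (F _).2
  · simp only [hx, dif_pos]
    have := congrFun (hF (Pi.single ⟨x, hx⟩ 1)) ⟨x, hx⟩
    rw [Pi.single_eq_same] at this
    exact this
  · simp only [hx, dif_pos]
    have := congrFun (hF (Pi.single ⟨x, hx⟩ 1)) ⟨y, hy⟩
    rw [Pi.single_apply, if_neg (fun h' => hxy (Subtype.ext_iff.1 h').symm)] at this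
    exact this

theorem RK.exists_basis {r : Finset E → ℤ} (h : RK r) {X S : Finset E} (hXS : X ⊆ S)
    (hX : r X = X.card) : ∃ B, X ⊆ B ∧ B ⊆ S ∧ r B = B.card ∧ r B = r S := by
  classical
  obtain ⟨B, hB, hmax⟩ := Finset.exists_max_image
    (S.powerset.filter (fun B => X ⊆ B ∧ r B = B.card)) Finset.card
    ⟨X, by simp [hXS, hX]⟩
  simp only [Finset.mem_filter, Finset.mem_powerset] at hB hmax
  refine ⟨B, hB.2.1, hB.1, hB.2.2, ?_⟩
  have h1 : ∀ e ∈ S, r (insert e B) = r B := by
    intro e he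
    have h2 := h.step B e
    have h3 := h.mono B (insert e B) (Finset.subset_insert _ _)
    by_contra hne
    have h4 : r (insert e B) = r B + 1 := by omega
    have heB : e ∉ B := fun heB => hne (by rw [Finset.insert_eq_of_mem heB])
    have h5 := hmax (insert e B) ⟨Finset.insert_subset he hB.1,
      hB.2.1.trans (Finset.subset_insert _ _), by
        rw [h4, hB.2.2, Finset.card_insert_of_notMem heB]; push_cast; ring⟩
    rw [Finset.card_insert_of_notMem heB] at h5
    omega
  have h2 := h.closure_union h1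
  rw [Finset.union_eq_right.2 hB.1] at h2
  exact h2.symm

/-- existence of frames: `X` independent, `Y` coindependent -/
theorem exists_frame {V : CG E} {U X Y : Finset E} (hU : SuppIn V U) (hXU : X ⊆ U)
    (hX : rk V X = X.card) (hY : rk V (U \ Y) = rk V U) (hXY : Disjoint X Y) :
    ∃ B f, Frame V B f ∧ X ⊆ B ∧ Disjoint B Y ∧ B ⊆ U := by
  obtain ⟨B, h1, h2, h3, h4⟩ := (rk_RK V).exists_basis (X := X) (S := U \ Y)
    (Finset.subset_sdiff.2 ⟨hXU, hXY⟩) hX
  obtain ⟨f, hf⟩ := exists_frame_of_basis hU h3 (h4.trans hY)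
  exact ⟨B, f, hf, h1, (Finset.subset_sdiff.1 h2).2, (Finset.subset_sdiff.1 h2).1⟩

theorem exists_frame' (V : CG E) : ∃ B f, Frame V B f := by
  obtain ⟨B, f, h, -⟩ := exists_frame (V := V) (U := Finset.univ) (X := ∅) (Y := ∅)
    (fun c hc e he => absurd (Finset.mem_univ e) he) (Finset.empty_subset _)
    (by rw [(rk_RK V).empty]; simp) (by simp) (by simp)
  exact ⟨B, f, h⟩

/-- every elementary chain is a multiple of a row of a frame -/
theorem Elem.frame {V : CG E} {c : E → ℍ[ℝ]} (hc : Elem V c) {a : E} (ha : c a ≠ 0) :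
    ∃ B f, Frame V B f ∧ a ∈ B ∧ c = c a • f a := by
  classical
  have hr := rk_RK V
  set H : Finset E := Finset.univ.filter (fun e => c e = 0) with hH
  obtain ⟨B', h1, h2, h3, h4⟩ := hr.exists_basis (X := ∅) (S := H) (Finset.empty_subset _)
    (by rw [hr.empty]; simp)
  have hfull : rk V (insert a H) = Module.finrank ℍ[ℝ] V := by
    apply rk_eq_finrank
    intro d hd h0
    by_contra hd0
    have := hc.2.2 d hd hd0 (fun e he => h0 e (Finset.mem_insert_of_mem (by simp [hH, he]))) a
      (h0 a (Finset.mem_insert_self _ _))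
    exact ha this
  have hlt : rk V H < Module.finrank ℍ[ℝ] V := by
    by_contra hcon
    push Not at hcon
    exact hc.2.1 (inj_of_rk hcon c hc.1 (fun e he => by simpa [hH] using he))
  have hstep := hr.step H a
  have haB' : a ∉ B' := fun h => ha (by simpa [hH] using h2 h)
  have hsub := hr.sub H (insert a B')
  have e1 : H ∪ insert a B' = insert a H := by
    rw [Finset.union_insert, Finset.union_eq_left.2 h2]
  have e2 : H ∩ insert a B' = B' := by
    ext x
    simp only [Finset.mem_inter, Finset.mem_insert]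
    constructor
    · rintro ⟨hx, rfl | hx'⟩
      · exact absurd (by simpa [hH] using hx) ha
      · exact hx'
    · intro hx; exact ⟨h2 hx, Or.inr hx⟩
  rw [e1, e2] at hsub
  have hstep' := hr.step B' a
  have hcard : (insert a B').card = B'.card + 1 := Finset.card_insert_of_notMem haB'
  have hUu : SuppIn V Finset.univ := fun c hc e he => absurd (Finset.mem_univ e) he
  obtain ⟨f, hf⟩ := exists_frame_of_basis (V := V) (U := Finset.univ) (B := insert a B') hUu
    (by rw [hcard]; push_cast; omega) (by rw [hUu.rk_eq]; omega)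
  refine ⟨_, f, hf, Finset.mem_insert_self _ _, ?_⟩
  conv_lhs => rw [hf.expand hc.1]
  rw [Finset.sum_insert haB', Finset.sum_eq_zero, add_zero]
  intro x hx
  have : c x = 0 := by simpa [hH] using h2 hx
  rw [this, zero_smul]

/-- closure in terms of a frame -/
theorem Frame.closure_iff {V : CG E} {B : Finset E} {f} (h : Frame V B f) {X : Finset E}
    (hX : X ⊆ B) (y : E) : rk V (insert y X) = rk V X ↔ ∀ x ∈ B \ X, f x y = 0 := by
  have hle : (V ⊓ vanish (insert y X) : CG E) ≤ V ⊓ vanish X :=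
    inf_le_inf_left _ (vanish_anti (Finset.subset_insert _ _))
  constructor
  · intro heq x hx
    have h1 : (V ⊓ vanish (insert y X) : CG E) = V ⊓ vanish X := by
      apply Submodule.eq_of_le_of_finrank_eq hle
      simp only [rk] at heq; omega
    have h2 : f x ∈ (V ⊓ vanish X : CG E) := by
      obtain ⟨hxB, hxX⟩ := Finset.mem_sdiff.1 hx
      exact ⟨h.mem x hxB, fun z hz => h.zero x hxB z (hX hz) (fun h' => hxX (h' ▸ hz))⟩
    rw [← h1] at h2
    exact h2.2 y (Finset.mem_insert_self _ _)
  · intro h0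
    have h1 : (V ⊓ vanish (insert y X) : CG E) = V ⊓ vanish X := by
      refine le_antisymm hle ?_
      rintro c ⟨hc, hcX⟩
      refine ⟨hc, fun e he => ?_⟩
      rcases Finset.mem_insert.1 he with rfl | he
      · rw [h.expand_apply hc]
        apply Finset.sum_eq_zero
        intro x hx
        by_cases hxX : x ∈ X
        · rw [hcX x hxX, zero_mul]
        · rw [h0 x (Finset.mem_sdiff.2 ⟨hx, hxX⟩), mul_zero]
      · exact hcX e he
    rw [rk, rk, h1]

theorem Frame.minor {V : CG E} {B : Finset E} {f} (h : Frame V B f) {D K : Finset E}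
    (hK : K ⊆ B) (hD : Disjoint D B) :
    Frame (mino V D K) (B \ K) (fun x y => if y ∈ D then 0 else f x y) where
  mem := by
    intro x hx
    obtain ⟨hxB, hxK⟩ := Finset.mem_sdiff.1 hx
    rw [mem_mino]
    refine ⟨f x, h.mem x hxB, fun e he => h.zero x hxB e (hK he) (fun h' => hxK (h' ▸ he)),
      fun e he => if_neg he, fun e he => if_pos he⟩
  one := by
    intro x hx
    obtain ⟨hxB, hxK⟩ := Finset.mem_sdiff.1 hx
    have : x ∉ D := fun h' => Finset.disjoint_left.1 hD h' hxB
    simp only [this, if_false]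
    exact h.one x hxB
  zero := by
    intro x hx y hy hxy
    obtain ⟨hxB, hxK⟩ := Finset.mem_sdiff.1 hx
    obtain ⟨hyB, hyK⟩ := Finset.mem_sdiff.1 hy
    rw [h.zero x hxB y hyB hxy, ite_self]
  inj := by
    intro c hc h0
    obtain ⟨d, hd, h1, h2, h3⟩ := mem_mino.1 hc
    have hd0 : d = 0 := h.inj d hd fun x hx => by
      by_cases hxK : x ∈ K
      · exact h1 x hxK
      · have hxD : x ∉ D := fun h' => Finset.disjoint_left.1 hD h' hx
        rw [← h2 x hxD]
        exact h0 x (Finset.mem_sdiff.2 ⟨hx, hxK⟩)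
    funext e
    by_cases he : e ∈ D
    · exact h3 e he
    · rw [h2 e he, hd0]

theorem Frame.qus_aux {V : CG E} (hV : IsQU V) {m n : Type*}
    [DecidableEq m] [DecidableEq n] (i : m → E) (j : n → E) (hi : Function.Injective i)
    (hj : Function.Injective j) (k : ℕ) : ∀ {B : Finset E} {f : E → E → ℍ[ℝ]} (h : Frame V B f)
    (P : m → Prop) (Q : n → Prop) [DecidablePred P] [DecidablePred Q]
    (hiB : ∀ a, P a → i a ∈ B) (hjB : ∀ b, Q b → j b ∉ B)
    (A : m → n → ℍ[ℝ]) (hA : ∀ a b, A a b = if P a ∧ Q b then f (i a) (j b) else 0), QUS k A := by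
  induction k with
  | zero =>
    intro B f h P Q _ _ hiB hjB A hA a b
    rw [hA]
    split_ifs with hab
    · exact h.qu hV (hiB a hab.1) _
    · exact Or.inl rfl
  | succ k ih =>
    intro B f h P Q _ _ hiB hjB A hA
    refine ⟨fun a b => ?_, fun a b hab => ?_⟩
    · rw [hA]
      split_ifs with hab
      · exact h.qu hV (hiB a hab.1) _
      · exact Or.inl rfl
    · have hPQ : P a ∧ Q b := by
        by_contra hcon
        exact hab (by rw [hA, if_neg hcon])
      have hfab : f (i a) (j b) ≠ 0 := by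
        rw [hA, if_pos hPQ] at hab; exact hab
      refine ih (h.pivot (hiB a hPQ.1) (hjB b hPQ.2) hfab) (fun a' => P a' ∧ a' ≠ a)
        (fun b' => Q b' ∧ b' ≠ b) ?_ ?_ _ ?_
      · rintro a' ⟨h1, h2⟩
        exact Finset.mem_insert_of_mem (Finset.mem_erase.2 ⟨fun h' => h2 (hi h'), hiB a' h1⟩)
      · rintro b' ⟨h1, h2⟩ hmem
        rcases Finset.mem_insert.1 hmem with h' | h'
        · exact h2 (hj h')
        · exact hjB b' h1 (Finset.mem_of_mem_erase h')
      · intro a' b'
        have hne : ∀ a', P a' → i a' ≠ j b := fun a' ha' h' => hjB b hPQ.2 (h' ▸ hiB a' ha')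
        simp only [hA a b, if_pos hPQ]
        by_cases h1 : a' = a
        · simp [h1]
        by_cases h2 : b' = b
        · simp [h2]
        simp only [h1, h2, or_self, if_false, ne_eq, not_false_eq_true, and_true]
        by_cases h3 : P a'
        · rw [if_neg (hne a' h3)]
          by_cases h4 : Q b'
          · rw [hA, hA, hA, if_pos ⟨h3, h4⟩, if_pos ⟨h3, hPQ.2⟩, if_pos ⟨hPQ.1, h4⟩, if_pos ⟨h3, h4⟩]
          · rw [hA a' b', hA a b', if_neg (fun h' => h4 h'.2), if_neg (fun h' => h4 h'.2),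
              if_neg (fun h' => h4 h'.2), mul_zero, sub_zero]
        · rw [hA a' b', hA a' b, if_neg (fun h' => h3 h'.1), if_neg (fun h' => h3 h'.1),
            if_neg (fun h' => h3 h'.1), zero_mul, zero_mul, sub_zero]

/-- all iterated Schur complements of a frame matrix of a QU chain group have norm 0 or 1 -/
theorem Frame.qus {V : CG E} {B : Finset E} {f} (h : Frame V B f) (hV : IsQU V) {m n : Type*}
    [DecidableEq m] [DecidableEq n] (i : m → E) (j : n → E) (hi : Function.Injective i)
    (hj : Function.Injective j) (hiB : ∀ a, i a ∈ B) (hjB : ∀ b, j b ∉ B) (k : ℕ) :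
    QUS k (fun a b => f (i a) (j b)) :=
  Frame.qus_aux hV i j hi hj k h (fun _ => True) (fun _ => True) (fun a _ => hiB a)
    (fun b _ => hjB b) _ (fun a b => by simp)

/-! ### duality -/

theorem perp_suppIn (U : Finset E) (V : CG E) : SuppIn (perp U V) U := fun d hd => hd.1

theorem mem_perp {U : Finset E} {V : CG E} {d : E → ℍ[ℝ]} :
    d ∈ perp U V ↔ (∀ e, e ∉ U → d e = 0) ∧ ∀ c ∈ V, ∑ e, c e * star (d e) = 0 := Iff.rfl

theorem Frame.dual {V : CG E} {U B : Finset E} {f} (h : Frame V B f) (hU : SuppIn V U)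
    (hB : B ⊆ U) : Frame (perp U V) (U \ B)
      (fun y x => if x = y then 1 else if x ∈ B then - star (f x y) else 0) where
  mem := by
    intro y hy
    obtain ⟨hyU, hyB⟩ := Finset.mem_sdiff.1 hy
    rw [mem_perp]
    refine ⟨fun e he => ?_, fun c hc => ?_⟩
    · have h2 : e ≠ y := fun h' => he (h'.symm ▸ hyU)
      have h3 : e ∉ B := fun h' => he (hB h')
      simp [h2, h3]
    · have h1 : ∀ e, c e * star (if e = y then 1 else if e ∈ B then - star (f e y) else (0 : ℍ[ℝ])) =
          (if e = y then c e else 0) - (if e ∈ B then c e * f e y else 0) := by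
        intro e
        by_cases h2 : e = y
        · have : e ∉ B := h2 ▸ hyB
          simp [h2, hyB]
        · by_cases h3 : e ∈ B
          · simp [h2, h3]
          · simp [h2, h3]
      rw [Finset.sum_congr rfl (fun e _ => h1 e), Finset.sum_sub_distrib, Finset.sum_ite_eq',
        if_pos (Finset.mem_univ _), Finset.sum_ite_mem, Finset.univ_inter, ← h.expand_apply hc,
        sub_self]
  one := by
    intro y hy
    exact if_pos rfl
  zero := by
    intro x hx y hy hxy
    obtain ⟨hyU, hyB⟩ := Finset.mem_sdiff.1 hy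
    rw [if_neg (Ne.symm hxy), if_neg hyB]
  inj := by
    intro d hd h0
    have h1 : ∀ e, e ∉ B → d e = 0 := by
      intro e he
      by_cases heU : e ∈ U
      · exact h0 e (Finset.mem_sdiff.2 ⟨heU, he⟩)
      · exact hd.1 e heU
    funext e
    by_cases he : e ∈ B
    · have h2 := hd.2 (f e) (h.mem e he)
      rw [Finset.sum_eq_single e] at h2
      · rw [h.one e he, one_mul] at h2
        exact star_eq_zero.1 h2
      · intro x _ hx
        by_cases hxB : x ∈ B
        · rw [h.zero e he x hxB (Ne.symm hx), zero_mul]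
        · rw [h1 x hxB, star_zero, mul_zero]
      · intro h'; exact absurd (Finset.mem_univ _) h'
    · exact h1 e he

theorem finrank_perp {V : CG E} {U : Finset E} (hU : SuppIn V U) :
    Module.finrank ℍ[ℝ] (perp U V) + Module.finrank ℍ[ℝ] V = U.card := by
  obtain ⟨B, f, h⟩ := exists_frame' V
  have hB := h.subset hU
  rw [(h.dual hU hB).finrank, h.finrank, Finset.card_sdiff_add_card_eq_card hB]

theorem le_perp_perp {V : CG E} {U : Finset E} (hU : SuppIn V U) : V ≤ perp U (perp U V) := by
  intro c hc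
  rw [mem_perp]
  refine ⟨hU c hc, fun d hd => ?_⟩
  have h1 := congrArg star (hd.2 c hc)
  rw [star_sum, star_zero] at h1
  rw [← h1]
  refine Finset.sum_congr rfl fun e _ => ?_
  rw [star_mul, star_star]

theorem perp_perp {V : CG E} {U : Finset E} (hU : SuppIn V U) : perp U (perp U V) = V := by
  symm
  apply Submodule.eq_of_le_of_finrank_eq (le_perp_perp hU)
  have h1 := finrank_perp hU
  have h2 := finrank_perp (perp_suppIn U V)
  omega

/-- the rank of `A` is the dimension of the restriction -/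
theorem rk_eq_finrank_map (V : CG E) (A : Finset E) :
    rk V A = Module.finrank ℍ[ℝ] (V.map (zeroOn Aᶜ) : CG E) := by
  have h1 := finrank_map_add V (zeroOn Aᶜ)
  have h2 : (LinearMap.ker (zeroOn Aᶜ) : CG E) = vanish A := by
    ext c
    rw [LinearMap.mem_ker, mem_vanish]
    constructor
    · intro h e he
      have := congrFun h e
      rw [zeroOn_apply, if_neg (by simpa using he)] at this
      exact this
    · intro h
      funext e
      rw [zeroOn_apply]
      split_ifs with he
      · rfl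
      · exact h e (by simpa using he)
  rw [h2] at h1
  simp only [rk]; omega

theorem rk_perp {V : CG E} {U : Finset E} (hU : SuppIn V U) {A : Finset E} (hA : A ⊆ U) :
    rk (perp U V) A = dl U (rk V) A := by
  have h1 : (perp U V ⊓ vanish A : CG E) = perp (U \ A) (V.map (zeroOn (U \ A)ᶜ)) := by
    ext d
    rw [Submodule.mem_inf, mem_perp, mem_perp, mem_vanish]
    have key : (∀ e, e ∉ U \ A → d e = 0) → ∀ c : E → ℍ[ℝ],
        ∑ e, (zeroOn (U \ A)ᶜ c) e * star (d e) = ∑ e, c e * star (d e) := by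
      intro h0 c
      refine Finset.sum_congr rfl fun e _ => ?_
      rw [zeroOn_apply]
      split_ifs with he
      · rw [h0 e (by simpa using he)]; simp
      · rfl
    constructor
    · rintro ⟨⟨h1, h2⟩, h3⟩
      have h0 : ∀ e, e ∉ U \ A → d e = 0 := by
        intro e he
        by_cases heU : e ∈ U
        · exact h3 e (by simpa [heU] using he)
        · exact h1 e heU
      refine ⟨h0, ?_⟩
      rintro _ ⟨c, hc, rfl⟩
      rw [key h0]; exact h2 c hc
    · rintro ⟨h0, h2⟩
      refine ⟨⟨fun e he => h0 e (fun h' => he (Finset.mem_sdiff.1 h').1), fun c hc => ?_⟩,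
        fun e he => h0 e (fun h' => (Finset.mem_sdiff.1 h').2 he)⟩
      rw [← key h0]
      exact h2 _ ⟨c, hc, rfl⟩
  have h2 := rk_eq_finrank_map V (U \ A)
  have h3 : SuppIn (V.map (zeroOn (U \ A)ᶜ) : CG E) (U \ A) := by
    rintro _ ⟨c, hc, rfl⟩ e he
    rw [zeroOn_apply, if_pos (by simpa using he)]
  have h4 := finrank_perp h3
  have h5 := finrank_perp hU
  have h6 := hU.rk_eq
  have h7 := Finset.card_sdiff_add_card_eq_card hA
  have h8 : rk (perp U V) A = (Module.finrank ℍ[ℝ] (perp U V) : ℤ) -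
    (Module.finrank ℍ[ℝ] (perp U V ⊓ vanish A : CG E) : ℤ) := rfl
  rw [h1] at h8
  rw [h8, dl]
  omega

theorem IsQU.dual {V : CG E} {U : Finset E} (hV : IsQU V) (hU : SuppIn V U) :
    IsQU (perp U V) := by
  have key : ∀ d, Elem (perp U V) d → ∀ a b, d a ≠ 0 → d b ≠ 0 → ‖d b‖ = ‖d a‖ := by
    intro d hd a b ha hb
    obtain ⟨B', g, hg, haB, hdg⟩ := hd.frame ha
    have hB'U := hg.subset (perp_suppIn U V)
    have hf := hg.dual (perp_suppIn U V) hB'U
    rw [perp_perp hU] at hf
    have h1 : d b = d a * g a b := by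
      conv_lhs => rw [hdg]
      rfl
    have h2 : g a b ≠ 0 := fun h' => hb (by rw [h1, h', mul_zero])
    rw [h1, norm_mul]
    suffices h3 : ‖g a b‖ = 1 by rw [h3, mul_one]
    by_cases hab : a = b
    · rw [← hab, hg.one a haB, norm_one]
    · have hbB : b ∉ B' := fun h' => h2 (hg.zero a haB b h' hab)
      have hbU : b ∈ U := by
        by_contra hbU
        exact hb (hd.1.1 b hbU)
      rcases hf.qu hV (Finset.mem_sdiff.2 ⟨hbU, hbB⟩) a with h3 | h3
      · rw [if_neg hab, if_pos haB] at h3
        exact absurd (star_eq_zero.1 (neg_eq_zero.1 h3)) h2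
      · rw [if_neg hab, if_pos haB, norm_neg, norm_star] at h3
        exact h3
  intro d hd a b ha hb
  exact (key d hd a b ha hb).symm

theorem finrank_mino {W : CG E} {U D K : Finset E} (hU : SuppIn W U) (hD : D ⊆ U) (hK : K ⊆ U)
    (hDK : Disjoint D K) :
    (Module.finrank ℍ[ℝ] (mino W D K) : ℤ) = rk W (U \ D) - rk W K := by
  rw [← (hU.minor D K).rk_eq, rk_mino W (by
    rw [Finset.disjoint_left]
    intro x hx hxD
    exact (Finset.mem_sdiff.1 hx).2 (Finset.mem_union_left _ hxD)) hDK.symm, con]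
  congr 2
  ext x
  simp only [Finset.mem_union, Finset.mem_sdiff, not_or]
  constructor
  · rintro (⟨h1, h2, h3⟩ | h)
    · exact ⟨h1, h2⟩
    · exact ⟨hK h, fun h' => Finset.disjoint_left.1 hDK h' h⟩
  · rintro ⟨h1, h2⟩
    by_cases h3 : x ∈ K
    · exact Or.inr h3
    · exact Or.inl ⟨h1, h2, h3⟩

theorem perp_mino {V : CG E} {U D K : Finset E} (hU : SuppIn V U) (hD : D ⊆ U) (hK : K ⊆ U)
    (hDK : Disjoint D K) : mino (perp U V) K D = perp (U \ (D ∪ K)) (mino V D K) := by
  apply Submodule.eq_of_le_of_finrank_eq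
  · intro d hd
    obtain ⟨d', hd', h1, h2, h3⟩ := mem_mino.1 hd
    rw [mem_perp]
    refine ⟨fun e he => ?_, fun c hc => ?_⟩
    · by_cases heK : e ∈ K
      · exact h3 e heK
      · rw [h2 e heK]
        by_cases heD : e ∈ D
        · exact h1 e heD
        · apply hd'.1
          intro heU
          exact he (by simp [heU, heK, heD])
    · obtain ⟨c', hc', h1', h2', h3'⟩ := mem_mino.1 hc
      rw [← hd'.2 c' hc']
      refine Finset.sum_congr rfl fun e _ => ?_
      by_cases heD : e ∈ D
      · rw [h3' e heD, h1 e heD, zero_mul, star_zero, mul_zero]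
      · by_cases heK : e ∈ K
        · rw [h3 e heK, h1' e heK, zero_mul, star_zero, mul_zero]
        · rw [h2' e heD, h2 e heK]
  · have h1 := finrank_mino (perp_suppIn U V) hK hD hDK.symm
    have h2 := finrank_perp (hU.minor D K)
    have h3 := finrank_mino hU hD hK hDK
    rw [rk_perp hU Finset.sdiff_subset, rk_perp hU hD, dl, dl,
      Finset.sdiff_sdiff_eq_self hK] at h1
    have h4 := Finset.card_sdiff_add_card_eq_card hK
    have h5 := Finset.card_sdiff_add_card_eq_card (Finset.union_subset hD hK)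
    rw [Finset.card_union_of_disjoint hDK] at h5
    omega

end Pool.Agent.QU
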