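import Pool.Agent.QU.Keep

set_option linter.unusedVariables false
set_option linter.unusedSectionVars false
set_option linter.style.longLine false

/-! Connectivity lemmas: Bixby's lemma, lines, keeping minors. -/

namespace Pool.Agent.QU

variable {α : Type*} [DecidableEq α] {U : Finset α} {r : Finset α → ℤ}

theorem card_compl {A : Finset α} (hA : A ⊆ U) : (U \ A).card + A.card = U.card :=
  Finset.card_sdiff_add_card_eq_card hA

theorem card_inter_compl {W A : Finset α} (C : Finset α) (hA : A ⊆ W) :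
    A.card = (A ∩ C).card + (A ∩ (W \ C)).card := by
  have h1 : A ∩ (W \ C) = A \ C := by grind
  rw [h1]
  exact (Finset.card_inter_add_card_sdiff A C).symm

theorem Conn3.two_le (h3 : Conn3 U r) {A : Finset α} (hA : A ⊆ U) (h1 : 2 ≤ A.card)
    (h2 : 2 ≤ (U \ A).card) : r U + 2 ≤ r A + r (U \ A) := by
  by_contra hh
  rcases h3.sep A hA (by simp only [lam]; omega) with h | h <;> omega

theorem Conn.one_le (hc : Conn U r) {A : Finset α} (hA : A ⊆ U) (h1 : A.Nonempty)
    (h2 : (U \ A).Nonempty) : r U + 1 ≤ r A + r (U \ A) := by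
  by_contra hh
  rcases hc A hA (by simp only [lam]; omega) with h | h
  · rw [h] at h1; simp at h1
  · rw [h] at h2; simp at h2

theorem Conn.single (hr : RK r) (hc : Conn U r) (hU : 2 ≤ U.card) {e : α} (he : e ∈ U) :
    r {e} = 1 ∧ r (U.erase e) = r U := by
  have h1 : U \ {e} = U.erase e := by grind
  have h2 : (U.erase e).Nonempty := by
    rw [← Finset.card_pos, Finset.card_erase_of_mem he]; omega
  have h3 := hc.one_le (A := {e}) (by simpa using he) (by simp) (by rw [h1]; exact h2)
  rw [h1] at h3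
  have h4 := hr.single_le e
  have h5 := hr.mono (U.erase e) U (Finset.erase_subset _ _)
  omega

theorem Conn3.pair (hr : RK r) (h3 : Conn3 U r) (hU : 4 ≤ U.card) {e f : α} (he : e ∈ U)
    (hf : f ∈ U) (hef : e ≠ f) : r {e, f} = 2 ∧ r (U \ {e, f}) = r U := by
  have h1 : ({e, f} : Finset α).card = 2 := Finset.card_pair hef
  have h2 : ({e, f} : Finset α) ⊆ U := by grind
  have h3' := card_compl h2
  have h4 := h3.two_le h2 (by omega) (by omega)
  have h5 := hr.le_card {e, f}
  have h6 := hr.mono (U \ {e, f}) U (by grind)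
  omega

/-- deletion from a 3-connected matroid is connected -/
theorem Conn3.conn_del (hr : RK r) (h3 : Conn3 U r) (hU : 4 ≤ U.card) {e : α} (he : e ∈ U) :
    Conn (U.erase e) r := by
  intro A hA hl
  by_contra hcon
  push Not at hcon
  obtain ⟨hA1, hA2⟩ := hcon
  have hAU : A ⊆ U := hA.trans (Finset.erase_subset _ _)
  have heA : e ∉ A := by grind
  have h1 := (h3.conn.single hr (by omega) he).2
  simp only [lam] at hl
  have hcard := card_compl hA
  rw [Finset.card_erase_of_mem he] at hcard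
  have hne : (U.erase e \ A).Nonempty := by
    rw [Finset.nonempty_iff_ne_empty]
    intro h; apply hA2
    rw [Finset.sdiff_eq_empty_iff_subset] at h
    exact Finset.Subset.antisymm hA h
  have hAne : A.Nonempty := hA1
  have hp1 := Finset.card_pos.2 hne
  have hp2 := Finset.card_pos.2 hAne
  rcases Nat.lt_or_ge A.card 2 with hc | hc
  · -- other side large
    have e1 : U \ (U.erase e \ A) = insert e A := by grind
    have e2 := h3.two_le (A := U.erase e \ A) (by grind) (by omega) (by
      rw [e1, Finset.card_insert_of_notMem heA]; omega)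
    rw [e1] at e2
    have e3 := hr.step A e
    omega
  · have e1 : U \ A = insert e (U.erase e \ A) := by grind
    have e4 : e ∉ U.erase e \ A := by grind
    have e2 := h3.two_le (A := A) hAU hc (by
      rw [e1, Finset.card_insert_of_notMem e4]; omega)
    rw [e1] at e2
    have e3 := hr.step (U.erase e \ A) e
    omega

/-! transfer to duals -/

theorem F.congr {NN : Finset α → (Finset α → ℤ) → Prop} (hN : NNax NN) {r r' : Finset α → ℤ}
    (h : ∀ A, A ⊆ U → r A = r' A) (hF : F NN U r) : F NN U r' := by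
  obtain ⟨S, K, hS, hK, hd, hNN⟩ := hF
  refine ⟨S, K, hS, hK, hd, hN.congr _ _ _ ?_ hNN⟩
  intro A hA
  simp only [con]
  rw [h (A ∪ K) (by grind), h K hK]

theorem F.dl {NN : Finset α → (Finset α → ℤ) → Prop} (hN : NNax NN) (hr : RK r) (hF : F NN U r) :
    F NN U (dl U r) := by
  obtain ⟨S, K, hS, hK, hd, hNN⟩ := hF
  rw [Finset.disjoint_left] at hd
  refine ⟨S, U \ (S ∪ K), hS, by grind, ?_, ?_⟩
  · rw [Finset.disjoint_left]; grind
  · refine hN.congr _ _ _ ?_ (hN.dual _ _ (hr.con K) hNN)
    intro X hX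
    simp only [con, QU.dl]
    have h1 : U \ (X ∪ U \ (S ∪ K)) = S \ X ∪ K := by grind
    have h2 : U \ (U \ (S ∪ K)) = S ∪ K := by grind
    have h3 : (X ∪ U \ (S ∪ K)).card = X.card + (U \ (S ∪ K)).card := by
      rw [Finset.card_union_of_disjoint]
      rw [Finset.disjoint_left]; grind
    rw [h1, h2, h3]
    push_cast; ring

theorem F.of_dl {NN : Finset α → (Finset α → ℤ) → Prop} (hN : NNax NN) (hr : RK r)
    (hF : F NN U (QU.dl U r)) : F NN U r :=
  (hF.dl hN (hr.dl U)).congr hN (fun A hA => dl_dl U hr.empty hA)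

theorem Conn.of_dl (hr : RK r) (hc : Conn U (QU.dl U r)) : Conn U r :=
  (hc.dl (hr.dl U)).congr (fun A hA => dl_dl U hr.empty hA)

theorem Conn3.of_dl (hr : RK r) (hc : Conn3 U (QU.dl U r)) : Conn3 U r :=
  (hc.dl (hr.dl U)).congr (fun A hA => dl_dl U hr.empty hA)

theorem Bix.of_dl (hr : RK r) (hc : Bix U (QU.dl U r)) : Bix U r :=
  (hc.dl (hr.dl U)).congr (fun A hA => dl_dl U hr.empty hA)

section duals

variable (hr : RK r) {t : α} (ht : t ∈ U)

include hr ht

/-- dual deletion -> contraction -/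
theorem Conn.dual_del (h : Conn (U.erase t) (QU.dl U r)) : Conn (U.erase t) (con r {t}) :=
  Conn.of_dl (hr.con {t}) (h.congr (fun A hA => dl_con U r ht hA))

theorem Conn3.dual_del (h : Conn3 (U.erase t) (QU.dl U r)) : Conn3 (U.erase t) (con r {t}) :=
  Conn3.of_dl (hr.con {t}) (h.congr (fun A hA => dl_con U r ht hA))

theorem Bix.dual_del (h : Bix (U.erase t) (QU.dl U r)) : Bix (U.erase t) (con r {t}) :=
  Bix.of_dl (hr.con {t}) (h.congr (fun A hA => dl_con U r ht hA))

theorem F.dual_del {NN : Finset α → (Finset α → ℤ) → Prop} (hN : NNax NN)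
    (h : F NN (U.erase t) (QU.dl U r)) : F NN (U.erase t) (con r {t}) :=
  F.of_dl hN (hr.con {t}) (h.congr hN (fun A hA => dl_con U r ht hA))

/-- dual contraction -> deletion -/
theorem Conn.dual_con (h : Conn (U.erase t) (con (QU.dl U r) {t})) : Conn (U.erase t) r :=
  Conn.of_dl hr (h.congr (fun A hA => dl_erase U r ht hA))

theorem Conn3.dual_con (h : Conn3 (U.erase t) (con (QU.dl U r) {t})) : Conn3 (U.erase t) r :=
  Conn3.of_dl hr (h.congr (fun A hA => dl_erase U r ht hA))

theorem Bix.dual_con (h : Bix (U.erase t) (con (QU.dl U r) {t})) : Bix (U.erase t) r :=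
  Bix.of_dl hr (h.congr (fun A hA => dl_erase U r ht hA))

theorem F.dual_con {NN : Finset α → (Finset α → ℤ) → Prop} (hN : NNax NN)
    (h : F NN (U.erase t) (con (QU.dl U r) {t})) : F NN (U.erase t) r :=
  F.of_dl hN hr (h.congr hN (fun A hA => dl_erase U r ht hA))

/-- contraction -> dual deletion -/
theorem Conn.to_dual_del (h : Conn (U.erase t) (con r {t})) : Conn (U.erase t) (QU.dl U r) :=
  (h.dl (hr.con {t})).congr (fun A hA => (dl_con U r ht hA).symm)

theorem Conn3.to_dual_del (h : Conn3 (U.erase t) (con r {t})) : Conn3 (U.erase t) (QU.dl U r) :=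
  (h.dl (hr.con {t})).congr (fun A hA => (dl_con U r ht hA).symm)

theorem Bix.to_dual_del (h : Bix (U.erase t) (con r {t})) : Bix (U.erase t) (QU.dl U r) :=
  (h.dl (hr.con {t})).congr (fun A hA => (dl_con U r ht hA).symm)

theorem F.to_dual_del {NN : Finset α → (Finset α → ℤ) → Prop} (hN : NNax NN)
    (h : F NN (U.erase t) (con r {t})) : F NN (U.erase t) (QU.dl U r) :=
  (h.dl hN (hr.con {t})).congr hN (fun A hA => (dl_con U r ht hA).symm)

/-- deletion -> dual contraction -/
theorem Conn.to_dual_con (h : Conn (U.erase t) r) : Conn (U.erase t) (con (QU.dl U r) {t}) :=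
  (h.dl hr).congr (fun A hA => (dl_erase U r ht hA).symm)

theorem Conn3.to_dual_con (h : Conn3 (U.erase t) r) : Conn3 (U.erase t) (con (QU.dl U r) {t}) :=
  (h.dl hr).congr (fun A hA => (dl_erase U r ht hA).symm)

theorem Bix.to_dual_con (h : Bix (U.erase t) r) : Bix (U.erase t) (con (QU.dl U r) {t}) :=
  (h.dl hr).congr (fun A hA => (dl_erase U r ht hA).symm)

theorem F.to_dual_con {NN : Finset α → (Finset α → ℤ) → Prop} (hN : NNax NN)
    (h : F NN (U.erase t) r) : F NN (U.erase t) (con (QU.dl U r) {t}) :=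
  (h.dl hN hr).congr hN (fun A hA => (dl_erase U r ht hA).symm)

end duals

theorem Conn3.conn_con (hr : RK r) (h3 : Conn3 U r) (hU : 4 ≤ U.card) {e : α} (he : e ∈ U) :
    Conn (U.erase e) (con r {e}) :=
  ((h3.dl hr).conn_del (hr.dl U) hU he).dual_del hr he

/-- Bixby's lemma -/
theorem bixby (hr : RK r) (h3 : Conn3 U r) {e : α} (he : e ∈ U) :
    Bix (U.erase e) r ∨ Bix (U.erase e) (con r {e}) := by
  by_contra hcon
  push Not at hcon
  obtain ⟨h1, h2⟩ := hcon
  simp only [Bix, not_forall, not_or, not_le] at h1 h2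
  obtain ⟨A, hA, hl, hA3, hB3⟩ := h1
  obtain ⟨C, hC, hl', hC3, hD3⟩ := h2
  set B := U.erase e \ A with hB
  set D := U.erase e \ C with hD
  have hcardA := card_compl hA
  rw [Finset.card_erase_of_mem he, ← hB] at hcardA
  have hU7 : 7 ≤ U.card := by omega
  obtain ⟨re, rU⟩ := h3.conn.single hr (by omega) he
  simp only [lam, con_single, ← hB, ← hD, re] at hl hl'
  have hins : insert e (U.erase e) = U := by grind
  rw [hins] at hl'
  -- uncrossing
  have key : ∀ A' B' C' D' : Finset α, A' ⊆ U.erase e → B' = U.erase e \ A' → C' ⊆ U.erase e →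
      D' = U.erase e \ C' → r A' + r B' - r (U.erase e) ≤ 1 → 
      r (insert e C') + r (insert e D') ≤ r U + 2 → 3 ≤ B'.card → 3 ≤ A'.card → 
      (A' ∩ C').card ≤ 1 ∨ (B' ∩ D').card ≤ 1 := by
    intro A' B' C' D' hA' hB' hC' hD' hAl hCl hBc hAc
    subst hB' hD'
    have s1 := hr.sub' (A := U.erase e \ A') (B := insert e (U.erase e \ C'))
      (C := U \ (A' ∩ C')) (D := (U.erase e \ A') ∩ (U.erase e \ C')) (by grind) (by grind)
    have s2 := hr.sub' (A := A') (B := insert e C')
      (C := U \ ((U.erase e \ A') ∩ (U.erase e \ C'))) (D := A' ∩ C') (by grind) (by grind)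
    have hsum : lam U r (A' ∩ C') + lam U r ((U.erase e \ A') ∩ (U.erase e \ C')) ≤ 3 := by
      simp only [lam]; omega
    rcases (show lam U r (A' ∩ C') ≤ 1 ∨ lam U r ((U.erase e \ A') ∩ (U.erase e \ C')) ≤ 1 by omega)
      with hh | hh
    · rcases h3.sep _ (by grind) hh with g | g
      · exact Or.inl g
      · exfalso
        have := Finset.card_le_card (show U.erase e \ A' ⊆ U \ (A' ∩ C') by grind)
        omega
    · rcases h3.sep _ (by grind) hh with g | g
      · exact Or.inr g
      · exfalso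
        have := Finset.card_le_card (show A' ⊆ U \ ((U.erase e \ A') ∩ (U.erase e \ C')) by grind)
        omega
  have k1 := key A B C D hA hB hC hD hl (by omega) (by omega) (by omega)
  have hCD : C = U.erase e \ D := by rw [hD, Finset.sdiff_sdiff_eq_self hC]
  have k2 := key A B D C hA hB (by rw [hD]; exact Finset.sdiff_subset) hCD hl (by omega) (by omega) (by omega)
  have cA := card_inter_compl C hA
  have cB := card_inter_compl (W := U.erase e) (A := B) C (by rw [hB]; exact Finset.sdiff_subset)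
  have cC := card_inter_compl A hC
  have cD := card_inter_compl (W := U.erase e) (A := D) A (by rw [hD]; exact Finset.sdiff_subset)
  rw [← hD] at cA cB
  rw [← hB, Finset.inter_comm C A, Finset.inter_comm C B] at cC
  rw [← hB, Finset.inter_comm D A, Finset.inter_comm D B] at cD
  omega

/-- points on a line with at least four points can be deleted -/
theorem line4 (hr : RK r) (h3 : Conn3 U r) {L : Finset α} (hL : L ⊆ U) (hL2 : r L ≤ 2)
    (hL4 : 4 ≤ L.card) {a : α} (ha : a ∈ L) : Conn3 (U.erase a) r := by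
  have hU4 : 4 ≤ U.card := hL4.trans (Finset.card_le_card hL)
  have haU : a ∈ U := hL ha
  obtain ⟨ra, rU⟩ := h3.conn.single hr (by omega) haU
  refine ⟨h3.conn_del hr hU4 haU, ?_⟩
  have key : ∀ A, A ⊆ U.erase a → lam (U.erase a) r A ≤ 1 → 2 ≤ (A ∩ L).card →
      (U.erase a \ A).card ≤ 1 := by
    intro A hA hl h2
    obtain ⟨s, hs, t, ht, hst⟩ := Finset.one_lt_card.1 (show 1 < (A ∩ L).card by omega)
    have hsA : s ∈ A := by grind
    have htA : t ∈ A := by grind
    have hsL : s ∈ L := by grind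
    have htL : t ∈ L := by grind
    have p := (h3.pair hr hU4 (hL hsL) (hL htL) hst).1
    have m := hr.mono (insert a {s, t}) L (by grind)
    have m2 := hr.mono {s, t} (insert a {s, t}) (by grind)
    have c := hr.closure_mono (A := {s, t}) (B := A) (e := a) (by grind) (by omega)
    have e1 : U \ insert a A = U.erase a \ A := by grind
    have hh : lam U r (insert a A) ≤ 1 := by
      simp only [lam, e1] at hl ⊢; omega
    rcases h3.sep (insert a A) (by grind) hh with g | g
    · have : 2 ≤ (insert a A).card := by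
        have haA : a ∉ A := by grind
        rw [Finset.card_insert_of_notMem haA]
        have := Finset.card_pos.2 ⟨s, hsA⟩
        omega
      omega
    · rw [e1] at g; exact g
  intro A hA hl
  have hc1 : (L.erase a).card = (A ∩ L).card + ((U.erase a \ A) ∩ L).card := by
    rw [← Finset.card_union_of_disjoint]
    · congr 1; grind
    · rw [Finset.disjoint_left]; grind
  rw [Finset.card_erase_of_mem ha] at hc1
  rcases (show 2 ≤ (A ∩ L).card ∨ 2 ≤ ((U.erase a \ A) ∩ L).card by omega) with g | g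
  · right; exact key A hA hl g
  · left
    have := key (U.erase a \ A) (by grind) (by rw [lam_compl _ _ hA]; exact hl) g
    have e2 : U.erase a \ (U.erase a \ A) = A := by grind
    rw [e2] at this; exact this

/-- dual of `line4` -/
theorem coline4 (hr : RK r) (h3 : Conn3 U r) {L : Finset α} (hL : L ⊆ U)
    (hL2 : (L.card : ℤ) + r (U \ L) - r U ≤ 2) (hL4 : 4 ≤ L.card) {a : α} (ha : a ∈ L) :
    Conn3 (U.erase a) (con r {a}) :=
  (line4 (hr.dl U) (h3.dl hr) hL hL2 hL4 ha).dual_del hr (hL ha)

/-- connectivity does not increase in minors -/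
theorem lam_minor (hr : RK r) {S K A : Finset α} (hS : S ⊆ U) (hK : K ⊆ U) :
    lam S (con r K) (S ∩ A) ≤ lam U r (A ∩ U) := by
  simp only [lam, con]
  -- deletion step
  have h1 : pc r (A ∩ (S ∪ K)) ((S ∪ K) \ A) ≤ pc r (A ∩ U) (U \ A) := by
    have e1 : pc r (A ∩ (S ∪ K)) ((S ∪ K) \ A) ≤ pc r (A ∩ (S ∪ K)) (U \ A) :=
      hr.pc_mono (by grind)
    have e2 : pc r (U \ A) (A ∩ (S ∪ K)) ≤ pc r (U \ A) (A ∩ U) := hr.pc_mono (by grind)
    rw [pc_comm r (U \ A) (A ∩ (S ∪ K)), pc_comm r (U \ A) (A ∩ U)] at e2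
    omega
  have g1 : A ∩ (S ∪ K) ∪ (S ∪ K) \ A = S ∪ K := by grind
  have g2 : A ∩ U ∪ U \ A = U := by grind
  have g3 : U \ (A ∩ U) = U \ A := by grind
  simp only [pc, g1, g2] at h1
  rw [g3]
  -- contraction step
  have s1 := hr.sub' (A := A ∩ (S ∪ K)) (B := K) (C := S ∩ A ∪ K) (D := A ∩ K) (by grind) (by grind)
  have s2 := hr.sub' (A := (S ∪ K) \ A) (B := A ∩ K) (C := S \ (S ∩ A) ∪ K) (D := ∅) (by grind) (by grind)
  rw [hr.empty] at s2
  omega

/-- small side of a 2-separation contains at most one element of the minor -/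
theorem small_side {NN : Finset α → (Finset α → ℤ) → Prop} (hN : NNax NN) (hr : RK r)
    {S K A : Finset α} (hS : S ⊆ U) (hK : K ⊆ U) (hNN : NN S (con r K)) (hA : A ⊆ U)
    (hl : lam U r A ≤ 1) : (S ∩ A).card ≤ 1 ∨ (S ∩ (U \ A)).card ≤ 1 := by
  have h1 := lam_minor (A := A) hr hS hK
  have h2 : A ∩ U = A := by grind
  rw [h2] at h1
  have e1 : S \ (S ∩ A) = S ∩ (U \ A) := by grind
  have := (hN.conn3 _ _ hNN).sep (S ∩ A) (by grind) (by omega)
  rw [e1] at this
  exact this

/-- F is monotone: deletion -/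
theorem F.of_erase {NN : Finset α → (Finset α → ℤ) → Prop} {t : α}
    (h : F NN (U.erase t) r) : F NN U r := by
  obtain ⟨S, K, hS, hK, hd, hNN⟩ := h
  exact ⟨S, K, by grind, by grind, hd, hNN⟩

theorem F.of_subset {NN : Finset α → (Finset α → ℤ) → Prop} {U' : Finset α} (hU : U' ⊆ U)
    (h : F NN U' r) : F NN U r := by
  obtain ⟨S, K, hS, hK, hd, hNN⟩ := h
  exact ⟨S, K, by grind, by grind, hd, hNN⟩

/-- F is monotone: contraction -/
theorem F.of_con {NN : Finset α → (Finset α → ℤ) → Prop} {L : Finset α} (hL : L ⊆ U)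
    (h : F NN (U \ L) (con r L)) : F NN U r := by
  obtain ⟨S, K, hS, hK, hd, hNN⟩ := h
  rw [con_con] at hNN
  refine ⟨S, L ∪ K, by grind, by grind, ?_, hNN⟩
  rw [Finset.disjoint_left] at hd ⊢
  grind

theorem F.of_con_single {NN : Finset α → (Finset α → ℤ) → Prop} {t : α} (ht : t ∈ U)
    (h : F NN (U.erase t) (con r {t})) : F NN U r := by
  have h1 : U.erase t = U \ {t} := by grind
  rw [h1] at h
  exact h.of_con (by simpa using ht)

theorem F.card_le {NN : Finset α → (Finset α → ℤ) → Prop} (hN : NNax NN) (h : F NN U r) :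
    4 ≤ U.card := by
  obtain ⟨S, K, hS, hK, hd, hNN⟩ := h
  exact (hN.card _ _ hNN).trans (Finset.card_le_card hS)

/-- if `F` holds but `NN` does not, there is a proper single-element minor with `F`. -/
theorem F.proper {NN : Finset α → (Finset α → ℤ) → Prop} (hN : NNax NN) (hr : RK r)
    (h : F NN U r) (hn : ¬ NN U r) :
    ∃ e ∈ U, F NN (U.erase e) r ∨ F NN (U.erase e) (con r {e}) := by
  obtain ⟨S, K, hS, hK, hd, hNN⟩ := h
  rw [Finset.disjoint_left] at hd
  rcases K.eq_empty_or_nonempty with hK0 | ⟨t, ht⟩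
  · subst hK0
    rw [con_empty r hr.empty] at hNN
    have : S ≠ U := by rintro rfl; exact hn hNN
    obtain ⟨e, he, heS⟩ : ∃ e ∈ U, e ∉ S := by
      by_contra hcon
      push Not at hcon
      exact this (Finset.Subset.antisymm hS hcon)
    refine ⟨e, he, Or.inl ⟨S, ∅, ?_, by simp, by simp, ?_⟩⟩
    · intro z hz
      have := hS hz
      grind
    · rw [con_empty r hr.empty]; exact hNN
  · refine ⟨t, hK ht, Or.inr ⟨S, K.erase t, ?_, ?_, ?_, ?_⟩⟩
    · intro z hz
      have h1 := hS hz
      have h2 : z ≠ t := by rintro rfl; exact hd hz ht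
      grind
    · grind
    · rw [Finset.disjoint_left]; grind
    · rw [con_con]
      have : {t} ∪ K.erase t = K := by grind
      rw [this]; exact hNN

/-- keep under deletion -/
theorem F.keep_del {NN : Finset α → (Finset α → ℤ) → Prop} (hN : NNax NN) (hr : RK r)
    {A B S K : Finset α} (hAB : Disjoint A B) (hl : pc r B A = 1)
    (hS : S ⊆ A ∪ B) (hK : K ⊆ A ∪ B) (hSK : Disjoint S K) (hNN : NN S (con r K))
    (hSA : (S ∩ A).card ≤ 1) {t : α} (ht : t ∈ A) (htc : r (A.erase t) = r A) :
    F NN ((A ∪ B).erase t) r := by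
  have h0 : pc r B ∅ = 0 := by simp [pc, hr.empty]
  have h1 : pc r B (A.erase t) = 1 := by
    have e1 : insert t (A.erase t) = A := by grind
    have e2 := hr.closure_mono (A := A.erase t) (B := B ∪ A.erase t) (e := t) (by grind)
      (by rw [e1, htc])
    have e3 : insert t (B ∪ A.erase t) = B ∪ A := by grind
    rw [e3] at e2
    simp only [pc] at hl ⊢
    omega
  obtain ⟨S', K', h2, h3, h4, -, h5⟩ := keep hN hr hAB (by omega) hS hK hSK hNN hSA
    (L := ∅) (A1 := A.erase t) (by simp) (Finset.erase_subset _ _) h0 h1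
  rw [Finset.disjoint_left] at hAB
  refine ⟨S', K', ?_, ?_, h4, h5⟩
  · intro z hz
    have := h2 hz
    have hz' : z ≠ t ∨ z ∉ B := by
      by_cases h : z = t
      · right; rw [h]; exact hAB ht
      · left; exact h
    grind
  · intro z hz
    have := h3 hz
    have hz' : z ≠ t ∨ z ∉ B := by
      by_cases h : z = t
      · right; rw [h]; exact hAB ht
      · left; exact h
    grind

/-- keep under contraction -/
theorem F.keep_con {NN : Finset α → (Finset α → ℤ) → Prop} (hN : NNax NN) (hr : RK r)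
    {A B S K : Finset α} (hAB : Disjoint A B) (hl : pc r B A = 1)
    (hS : S ⊆ A ∪ B) (hK : K ⊆ A ∪ B) (hSK : Disjoint S K) (hNN : NN S (con r K))
    (hSA : (S ∩ A).card ≤ 1) {t : α} (ht : t ∈ A) (htc : pc r B {t} = 0) :
    F NN ((A ∪ B).erase t) (con r {t}) := by
  obtain ⟨S', K', h2, h3, h4, h6, h5⟩ := keep hN hr hAB (by omega) hS hK hSK hNN hSA
    (L := {t}) (A1 := A) (by simpa using ht) (Finset.Subset.refl _) htc hl
  rw [Finset.disjoint_left] at h4
  have htK : t ∈ K' := h6 (Finset.mem_singleton_self t)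
  refine ⟨S', K'.erase t, ?_, ?_, ?_, ?_⟩
  · intro z hz
    have h7 := h2 hz
    have h8 : z ≠ t := by rintro rfl; exact h4 hz htK
    exact Finset.mem_erase.2 ⟨h8, h7⟩
  · exact Finset.erase_subset_erase t h3
  · rw [Finset.disjoint_left]; grind
  · rw [con_con]
    have : {t} ∪ K'.erase t = K' := by grind
    rw [this]; exact h5

end Pool.Agent.QU
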