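import Pool.Agent.QU.Sys

set_option linter.unusedVariables false
set_option linter.unusedSectionVars false
set_option linter.style.longLine false

/-! The core system, its dual, and gauges of Bixby-type minors. -/

namespace Pool.Agent.QU

variable {α : Type*} [DecidableEq α] {U : Finset α} {r : Finset α → ℤ}
variable {NN : Finset α → (Finset α → ℤ) → Prop} {G : Finset α → Finset α → Prop}

theorem GA.congrR (hN : NNax NN) {r r' : Finset α → ℤ} (h : ∀ A, A ⊆ U → r A = r' A)
    (S : GA NN U r G) : GA NN U r' G := by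
  have hcon : ∀ K A, K ⊆ U → A ⊆ U → con r' K A = con r K A := by
    intro K A hK hA
    simp only [con]
    rw [h K hK, h (A ∪ K) (Finset.union_subset hA hK)]
  constructor
  · intro D K s t hD hK hDK hs ht hst h1 h2 h3 hG
    have hs' : s ∈ U := (Finset.mem_sdiff.1 hs).1
    have ht' : t ∈ U := (Finset.mem_sdiff.1 ht).1
    refine S.par D K s t hD hK hDK hs ht hst ?_ ?_ ?_ hG
    · rw [← hcon K {s} hK (by simpa using hs')]; exact h1
    · rw [← hcon K {t} hK (by simpa using ht')]; exact h2
    · rw [← hcon K {s, t} hK (by clear * - hs' ht'; intro z hz; grind)]; exact h3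
  · intro a b ha hb hab h1 h2 h3 h4 h5
    refine S.pl a b ha hb hab ?_ h2 h3 (h4.congr ?_) (h5.congr hN ?_)
    · rw [h _ Finset.sdiff_subset, h _ (Finset.Subset.refl _)]; exact h1
    · intro A hA; exact (h A (hA.trans Finset.sdiff_subset)).symm
    · intro A hA; exact (h A (hA.trans Finset.sdiff_subset)).symm
  · intro u v w hu hv hw huv huw hvw h1 h2 h3 h4 h5 h6 h7 h8 h9
    refine S.tl u v w hu hv hw huv huw hvw ?_ h2 h3 h4 (h5.congr ?_) (h6.congr ?_)
      (h7.congr hN ?_) (h8.congr ?_) (h9.congr hN ?_)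
    · rw [h _ Finset.sdiff_subset, h _ (Finset.Subset.refl _)]; exact h1
    · intro A hA; exact (h A (hA.trans Finset.sdiff_subset)).symm
    · intro A hA; exact hcon {w} A (by simpa using hw) (hA.trans Finset.sdiff_subset)
    · intro A hA; exact hcon {w} A (by simpa using hw) (hA.trans Finset.sdiff_subset)
    · intro A hA; exact hcon {w} A (by simpa using hw) (hA.trans Finset.sdiff_subset)
    · intro A hA; exact hcon {w} A (by simpa using hw) (hA.trans Finset.sdiff_subset)
  · intro x a b y hx ha hb hy hxa hxb hxy hab hay hby h1 h2 h3 h4 h5 h6 h7 h8 g1 g2 g3 h9 h10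
    have sub3 : ∀ p q s, p ∈ U → q ∈ U → s ∈ U → ({p, q, s} : Finset α) ⊆ U := by
      intro p q s hp hq hs; clear * - hp hq hs; intro z hz; grind
    have sub2 : ∀ p q, p ∈ U → q ∈ U → ({p, q} : Finset α) ⊆ U := by
      intro p q hp hq; clear * - hp hq; intro z hz; grind
    refine S.psl x a b y hx ha hb hy hxa hxb hxy hab hay hby ?_ ?_ ?_ ?_ ?_ ?_ ?_ ?_ g1 g2 g3
      (h9.congr ?_) (h10.congr hN ?_)
    · rw [h _ (sub3 x a b hx ha hb)]; exact h1
    · rw [h _ (sub2 x a hx ha)]; exact h2
    · rw [h _ (sub2 x b hx hb)]; exact h3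
    · rw [h _ (sub2 a b ha hb)]; exact h4
    · rw [h _ (sub3 a b y ha hb hy)]; exact h5
    · rw [h _ (sub3 x a y hx ha hy)]; exact h6
    · rw [h _ Finset.sdiff_subset, h _ (Finset.Subset.refl _)]; exact h7
    · intro e he
      have := h8 e he
      rw [← h, ← h U (Finset.Subset.refl _)] at this
      · exact this
      · clear * - he hx ha hb hy; intro z hz; grind
    · intro A hA; exact hcon {a} A (by simpa using ha) (hA.trans Finset.sdiff_subset)
    · intro A hA; exact hcon {a} A (by simpa using ha) (hA.trans Finset.sdiff_subset)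
  · intro x y X hx hy hxy g1 g2 h1 h2 h3 h4 h5
    have hX : X ⊆ U := h3.trans Finset.sdiff_subset
    refine S.mix x y X hx hy hxy g1 g2 (h1.congr ?_) (h2.congr hN ?_) h3 ?_ ?_
    · intro A hA; exact hcon {y} A (by simpa using hy) (hA.trans Finset.sdiff_subset)
    · intro A hA; exact hcon {y} A (by simpa using hy) (hA.trans Finset.sdiff_subset)
    · rw [h _ (Finset.insert_subset hx hX), h _ hX]; exact h4
    · rw [h _ (Finset.insert_subset hy hX), h _ hX]; exact h5

/-- The core system: a minimal 3-connected matroid without gauge. -/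
structure GS (NN : Finset α → (Finset α → ℤ) → Prop) (U : Finset α) (r : Finset α → ℤ)
    (G : Finset α → Finset α → Prop) : Prop where
  hN : NNax NN
  hr : RK r
  h3 : Conn3 U r
  hF : F NN U r
  ga : GA NN U r G
  gad : GA NN U (dl U r) (fun D K => G K D)
  mi : ∀ D K, D ⊆ U → K ⊆ U → Disjoint D K → (D ∪ K).Nonempty →
    Conn3 (U \ (D ∪ K)) (con r K) → F NN (U \ (D ∪ K)) (con r K) → G D K
  ng : ¬ G ∅ ∅

theorem dual_minor {D K : Finset α} (hD : D ⊆ U) (hK : K ⊆ U) (hDK : Disjoint D K)
    {A : Finset α} (hA : A ⊆ U \ (D ∪ K)) :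
    con (dl U r) K A = dl (U \ (D ∪ K)) (con r D) A := by
  rw [Finset.disjoint_left] at hDK
  simp only [con, dl]
  have h1 : (A ∪ K).card = A.card + K.card := by
    rw [Finset.card_union_of_disjoint]
    rw [Finset.disjoint_left]; clear * - hA; grind
  have h2 : (U \ (D ∪ K)) \ A ∪ D = U \ (A ∪ K) := by clear * - hD hK hDK hA; grind
  have h3 : (U \ (D ∪ K)) ∪ D = U \ K := by clear * - hD hK hDK hA; grind
  rw [h1, h2, h3]
  push_cast; ring

theorem GS.dual (S : GS NN U r G) : GS NN U (dl U r) (fun D K => G K D) where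
  hN := S.hN
  hr := S.hr.dl U
  h3 := S.h3.dl S.hr
  hF := S.hF.dl S.hN S.hr
  ga := S.gad
  gad := S.ga.congrR S.hN (fun A hA => (dl_dl U S.hr.empty hA).symm)
  mi := by
    intro D K hD hK hDK hne h3 hF
    have hne' : (K ∪ D).Nonempty := by rw [Finset.union_comm]; exact hne
    have e : D ∪ K = K ∪ D := Finset.union_comm _ _
    refine S.mi K D hK hD hDK.symm hne' ?_ ?_
    · rw [← e]
      exact Conn3.of_dl (S.hr.con D) (h3.congr (fun A hA => dual_minor hD hK hDK hA))
    · rw [← e]
      exact F.of_dl S.hN (S.hr.con D) (hF.congr S.hN (fun A hA => dual_minor hD hK hDK hA))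
  ng := S.ng

theorem dl_single {s : α} : dl U r {s} = 1 + r (U.erase s) - r U := by
  have : U \ {s} = U.erase s := by clear * -; grind
  simp only [dl, this, Finset.card_singleton]; push_cast; ring

/-- extension of a 3-connected matroid by an element -/
theorem ext_conn_bix (hr : RK r) {x : α} (hx : x ∈ U) (h : Conn3 (U.erase x) r)
    (h1 : r {x} = 1) (h2 : r (U.erase x) = r U) : Conn U r ∧ Bix U r := by
  have hlam : ∀ A, A ⊆ U → lam (U.erase x) r (A.erase x) ≤ lam U r A := by
    intro A hA
    have m := lam_minor (U := U) (S := U.erase x) (K := ∅) (A := A) hr (Finset.erase_subset _ _)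
      (by simp)
    rw [con_empty _ hr.empty] at m
    have e1 : U.erase x ∩ A = A.erase x := by clear * - hA; grind
    have e2 : A ∩ U = A := by clear * - hA; grind
    rw [e1, e2] at m
    exact m
  constructor
  · intro A hA hl
    have h3 := hlam A hA
    have hsub : A.erase x ⊆ U.erase x := Finset.erase_subset_erase x hA
    rcases h.conn _ hsub (by omega) with h4 | h4
    · by_cases hxA : x ∈ A
      · exfalso
        have : A = {x} := by
          rw [← Finset.insert_erase hxA, h4]; rfl
        rw [this] at hl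
        have e : U \ {x} = U.erase x := by clear * -; grind
        simp only [lam, e] at hl
        omega
      · left; rw [Finset.erase_eq_of_notMem hxA] at h4; exact h4
    · by_cases hxA : x ∈ A
      · right
        rw [← Finset.insert_erase hxA, h4, Finset.insert_erase hx]
      · exfalso
        rw [Finset.erase_eq_of_notMem hxA] at h4
        rw [h4] at hl
        have e : U \ U.erase x = {x} := by clear * - hx; grind
        simp only [lam, e] at hl
        omega
  · intro A hA hl
    have h3 := hlam A hA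
    have hsub : A.erase x ⊆ U.erase x := Finset.erase_subset_erase x hA
    rcases h.sep _ hsub (by omega) with h4 | h4
    · left
      have := Finset.pred_card_le_card_erase (s := A) (a := x)
      omega
    · right
      have e : (U \ A).erase x = U.erase x \ A.erase x := by clear * -; grind
      rw [← e] at h4
      have := Finset.pred_card_le_card_erase (s := U \ A) (a := x)
      omega

theorem coext_conn_bix (hr : RK r) {x : α} (hx : x ∈ U) (h : Conn3 (U.erase x) (con r {x}))
    (h1 : r {x} = 1) (h2 : r (U.erase x) = r U) : Conn U r ∧ Bix U r := by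
  have hU : dl U r U = U.card - r U := by simp [dl, hr.empty]
  have h4 : dl U r (U.erase x) = dl U r U := by
    rw [hU]
    have e : U \ U.erase x = {x} := by clear * - hx; grind
    have hc := Finset.card_erase_of_mem hx
    have hp := Finset.card_pos.2 ⟨x, hx⟩
    simp only [dl, e, hc]
    rw [h1]
    push_cast [Nat.cast_sub (show 1 ≤ U.card by omega)]
    ring
  have := ext_conn_bix (hr.dl U) hx (h.to_dual_del hr hx) (by rw [dl_single, h2]; ring) h4
  exact ⟨Conn.of_dl hr this.1, Bix.of_dl hr this.2⟩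

/-- swapping parallel elements -/
theorem par_swap_lam (hr : RK r) {a b : α} (ha : a ∈ U) (hb : b ∈ U) (hab : a ≠ b)
    (h1 : r {a} = 1) (h2 : r {b} = 1) (h3 : r {a, b} = 1) {A : Finset α} (hA : A ⊆ U.erase b)
    (haA : a ∈ A) : lam (U.erase b) r A = lam (U.erase a) r (insert b (A.erase a)) ∧
      insert b (A.erase a) ⊆ U.erase a ∧ (insert b (A.erase a)).card = A.card ∧
      U.erase a \ insert b (A.erase a) = U.erase b \ A := by
  have hbA : b ∉ A := fun h => (Finset.mem_erase.1 (hA h)).1 rfl
  have hba : insert b {a} = ({a, b} : Finset α) := by clear * -; grind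
  have hab' : insert a {b} = ({a, b} : Finset α) := rfl
  have e1 : r (insert b A) = r A := hr.closure_mono (A := {a}) (by simpa using haA) (by
    rw [hba]; omega)
  have e2 : r (insert a (insert b (A.erase a))) = r (insert b (A.erase a)) :=
    hr.closure_mono (A := {b}) (by simp) (by rw [hab']; omega)
  have e3 : insert a (insert b (A.erase a)) = insert b A := by clear * - haA; grind
  have e4 : U.erase a \ insert b (A.erase a) = U.erase b \ A := by clear * - hA haA hbA; grind
  have e5 : r (insert b (U.erase b)) = r (U.erase b) := hr.closure_mono (A := {a})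
    (by simpa using ⟨hab, ha⟩) (by rw [hba]; omega)
  have e6 : r (insert a (U.erase a)) = r (U.erase a) := hr.closure_mono (A := {b})
    (by simpa using ⟨hab.symm, hb⟩) (by rw [hab']; omega)
  rw [Finset.insert_erase ha] at e6
  rw [Finset.insert_erase hb] at e5
  refine ⟨?_, ?_, ?_, e4⟩
  · simp only [lam, e4]
    rw [e3] at e2
    omega
  · intro z hz
    rcases Finset.mem_insert.1 hz with h | h
    · rw [h]; exact Finset.mem_erase.2 ⟨hab.symm, hb⟩
    · exact Finset.mem_erase.2 ⟨(Finset.mem_erase.1 h).1,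
        Finset.mem_of_mem_erase (hA (Finset.mem_of_mem_erase h))⟩
  · rw [Finset.card_insert_of_notMem (fun h => hbA (Finset.mem_of_mem_erase h)),
      Finset.card_erase_of_mem haA]
    have := Finset.card_pos.2 ⟨a, haA⟩
    omega

theorem par_swap (hr : RK r) {a b : α} (ha : a ∈ U) (hb : b ∈ U) (hab : a ≠ b)
    (h1 : r {a} = 1) (h2 : r {b} = 1) (h3 : r {a, b} = 1) (h : Conn3 (U.erase a) r) :
    Conn3 (U.erase b) r := by
  have haU : a ∈ U.erase b := Finset.mem_erase.2 ⟨hab, ha⟩
  have key : ∀ A, A ⊆ U.erase b → a ∈ A →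
      (lam (U.erase b) r A ≤ 0 → A = U.erase b) ∧
      (lam (U.erase b) r A ≤ 1 → A.card ≤ 1 ∨ (U.erase b \ A).card ≤ 1) := by
    intro A hA haA
    obtain ⟨e1, e2, e3, e4⟩ := par_swap_lam hr ha hb hab h1 h2 h3 hA haA
    constructor
    · intro hl
      rw [e1] at hl
      rcases h.conn _ e2 hl with h4 | h4
      · exact absurd h4 (Finset.insert_ne_empty _ _)
      · have : U.erase b \ A = ∅ := by rw [← e4, h4, Finset.sdiff_self]
        rw [Finset.sdiff_eq_empty_iff_subset] at this
        exact Finset.Subset.antisymm hA this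
    · intro hl
      rw [e1] at hl
      have := h.sep _ e2 hl
      rw [e3, e4] at this
      exact this
  constructor
  · intro A hA hl
    by_cases haA : a ∈ A
    · right; exact (key A hA haA).1 hl
    · left
      have := (key (U.erase b \ A) Finset.sdiff_subset (Finset.mem_sdiff.2 ⟨haU, haA⟩)).1
        (by rw [lam_compl _ _ hA]; exact hl)
      rw [← Finset.sdiff_sdiff_eq_self hA, this, Finset.sdiff_self]
  · intro A hA hl
    by_cases haA : a ∈ A
    · exact (key A hA haA).2 hl
    · have := (key (U.erase b \ A) Finset.sdiff_subset (Finset.mem_sdiff.2 ⟨haU, haA⟩)).2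
        (by rw [lam_compl _ _ hA]; exact hl)
      rw [Finset.sdiff_sdiff_eq_self hA] at this
      exact this.symm

theorem ser_swap (hr : RK r) {a b : α} (ha : a ∈ U) (hb : b ∈ U) (hab : a ≠ b)
    (h1 : r (U.erase a) = r U) (h2 : r (U.erase b) = r U) (h3 : r (U \ {a, b}) = r U - 1)
    (h : Conn3 (U.erase a) (con r {a})) : Conn3 (U.erase b) (con r {b}) := by
  refine (par_swap (hr.dl U) ha hb hab ?_ ?_ ?_ (h.to_dual_del hr ha)).dual_del hr hb
  · rw [dl_single, h1]; ring
  · rw [dl_single, h2]; ring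
  · rw [dl_pair hab, h3]; ring

/-- parallel deletion keeps connectivity and the Bixby property -/
theorem del_par_conn (hr : RK r) {s t : α} (hs : s ∈ U) (ht : t ∈ U) (hst : s ≠ t)
    (h1 : r {s} = 1) (h2 : r {t} = 1) (h3 : r {s, t} = 1) (hc : Conn U r) (hB : Bix U r) :
    Conn (U.erase s) r ∧ Bix (U.erase s) r := by
  have htU : t ∈ U.erase s := Finset.mem_erase.2 ⟨hst.symm, ht⟩
  have hcl : ∀ A, t ∈ A → r (insert s A) = r A := by
    intro A htA
    refine hr.closure_mono (A := {t}) (by simpa using htA) ?_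
    rw [h2]; exact h3
  have hU := hcl (U.erase s) htU
  rw [Finset.insert_erase hs] at hU
  have hlam : ∀ A, A ⊆ U.erase s → t ∈ A → lam U r (insert s A) = lam (U.erase s) r A := by
    intro A hA htA
    have e : U \ insert s A = U.erase s \ A := by clear * -; grind
    simp only [lam, e, hcl A htA, hU]
  have hsub : ∀ A, A ⊆ U.erase s → insert s A ⊆ U := by
    intro A hA
    exact Finset.insert_subset hs (hA.trans (Finset.erase_subset _ _))
  have key : ∀ A, A ⊆ U.erase s → t ∈ A →
      (lam (U.erase s) r A ≤ 0 → A = U.erase s) ∧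
      (lam (U.erase s) r A ≤ 1 → A.card ≤ 2 ∨ (U.erase s \ A).card ≤ 2) := by
    intro A hA htA
    have hsA : s ∉ A := fun h => (Finset.mem_erase.1 (hA h)).1 rfl
    constructor
    · intro hl
      rw [← hlam A hA htA] at hl
      rcases hc _ (hsub A hA) hl with h | h
      · exact absurd h (Finset.insert_ne_empty _ _)
      · rw [← h, Finset.erase_insert hsA]
    · intro hl
      rw [← hlam A hA htA] at hl
      rcases hB _ (hsub A hA) hl with h | h
      · rw [Finset.card_insert_of_notMem hsA] at h; left; omega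
      · right
        have e : U \ insert s A = U.erase s \ A := by clear * -; grind
        rw [e] at h; exact h
  constructor
  · intro A hA hl
    by_cases htA : t ∈ A
    · right; exact (key A hA htA).1 hl
    · left
      have := (key (U.erase s \ A) Finset.sdiff_subset (Finset.mem_sdiff.2 ⟨htU, htA⟩)).1
        (by rw [lam_compl _ _ hA]; exact hl)
      rw [← Finset.sdiff_sdiff_eq_self hA, this, Finset.sdiff_self]
  · intro A hA hl
    by_cases htA : t ∈ A
    · exact (key A hA htA).2 hl
    · have := (key (U.erase s \ A) Finset.sdiff_subset (Finset.mem_sdiff.2 ⟨htU, htA⟩)).2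
        (by rw [lam_compl _ _ hA]; exact hl)
      rw [Finset.sdiff_sdiff_eq_self hA] at this
      exact this.symm

/-- parallel step -/
theorem GS.bg_par (S : GS NN U r G) {D K : Finset α} (hD : D ⊆ U) (hK : K ⊆ U)
    (hDK : Disjoint D K) {s t : α} (hs : s ∈ U \ (D ∪ K)) (ht : t ∈ U \ (D ∪ K)) (hst : s ≠ t)
    (hc : Conn (U \ (D ∪ K)) (con r K)) (hB : Bix (U \ (D ∪ K)) (con r K))
    (hF : F NN (U \ (D ∪ K)) (con r K)) (hpar : con r K {s, t} = 1)
    (IH : Conn (U \ (insert s D ∪ K)) (con r K) → Bix (U \ (insert s D ∪ K)) (con r K) →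
      F NN (U \ (insert s D ∪ K)) (con r K) → G (insert s D) K) : G D K := by
  have hU2 : 2 ≤ (U \ (D ∪ K)).card := by
    have := hF.card_le S.hN; omega
  have hrK := S.hr.con K
  have h1 := (hc.single hrK hU2 hs).1
  have h2 := (hc.single hrK hU2 ht).1
  have e : U \ (insert s D ∪ K) = (U \ (D ∪ K)).erase s := by clear * -; grind
  refine S.ga.par D K s t hD hK hDK hs ht hst h1 h2 hpar ?_
  obtain ⟨g1, g2⟩ := del_par_conn hrK hs ht hst h1 h2 hpar hc hB
  rw [e] at IH
  exact IH g1 g2 (F.del_par S.hN hrK hc hs ht hst hpar hF)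

theorem bg_aux (NN : Finset α → (Finset α → ℤ) → Prop) (U : Finset α) (n : ℕ) :
    ∀ (r : Finset α → ℤ) (G : Finset α → Finset α → Prop), GS NN U r G →
    ∀ D K, D ⊆ U → K ⊆ U → Disjoint D K → (D ∪ K).Nonempty → (U \ (D ∪ K)).card = n →
      Conn (U \ (D ∪ K)) (con r K) → Bix (U \ (D ∪ K)) (con r K) →
      F NN (U \ (D ∪ K)) (con r K) → G D K := by
  induction n using Nat.strong_induction_on with
  | _ n ih =>
  intro r G S D K hD hK hDK hne hn hc hB hF
  by_cases h3 : Conn3 (U \ (D ∪ K)) (con r K)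
  · exact S.mi D K hD hK hDK hne h3 hF
  have hrK := S.hr.con K
  have hcard := hF.card_le S.hN
  -- a 2-separating pair
  have hnc : ∃ A, A ⊆ U \ (D ∪ K) ∧ lam (U \ (D ∪ K)) (con r K) A ≤ 1 ∧ 2 ≤ A.card ∧
      2 ≤ ((U \ (D ∪ K)) \ A).card := by
    by_contra hcon
    push Not at hcon
    apply h3
    refine ⟨hc, fun A hA hl => ?_⟩
    by_cases h : 2 ≤ A.card
    · right; have := hcon A hA hl h; omega
    · left; omega
  obtain ⟨A, hA, hl, hA2, hA2'⟩ := hnc
  have hpr : ∃ p ∈ U \ (D ∪ K), ∃ q ∈ U \ (D ∪ K), p ≠ q ∧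
      lam (U \ (D ∪ K)) (con r K) {p, q} ≤ 1 := by
    rcases hB A hA hl with h | h
    · obtain ⟨p, q, hpq, hAe⟩ := Finset.card_eq_two.1 (show A.card = 2 by omega)
      exact ⟨p, hA (by rw [hAe]; simp), q, hA (by rw [hAe]; simp), hpq, by rw [← hAe]; exact hl⟩
    · obtain ⟨p, q, hpq, hAe⟩ := Finset.card_eq_two.1
        (show ((U \ (D ∪ K)) \ A).card = 2 by omega)
      refine ⟨p, ?_, q, ?_, hpq, ?_⟩
      · have : p ∈ (U \ (D ∪ K)) \ A := by rw [hAe]; simp
        exact (Finset.mem_sdiff.1 this).1
      · have : q ∈ (U \ (D ∪ K)) \ A := by rw [hAe]; simp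
        exact (Finset.mem_sdiff.1 this).1
      · rw [← hAe, lam_compl _ _ hA]; exact hl
  obtain ⟨s, hs, t, ht, hst, hlst⟩ := hpr
  have hs' := Finset.mem_sdiff.1 hs
  have hsD : s ∉ D := fun h => hs'.2 (Finset.mem_union_left _ h)
  have hsK : s ∉ K := fun h => hs'.2 (Finset.mem_union_right _ h)
  have h1 := (hc.single hrK (by omega) hs).1
  have hmono := hrK.mono {s} {s, t} (by simp)
  have hle := hrK.le_card {s, t}
  rw [Finset.card_pair hst] at hle
  have hlt : ∀ X : Finset α, X = (U \ (D ∪ K)).erase s → X.card < n := by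
    intro X hX
    rw [hX, Finset.card_erase_of_mem hs]; omega
  rcases (show con r K {s, t} = 1 ∨ con r K {s, t} = 2 by push_cast at hle; omega) with hp | hp
  · refine S.bg_par hD hK hDK hs ht hst hc hB hF hp ?_
    intro g1 g2 g3
    refine ih _ (hlt (U \ (insert s D ∪ K)) (by clear * -; grind)) r G S (insert s D) K
      (Finset.insert_subset hs'.1 hD) hK ?_ (by simp) rfl g1 g2 g3
    rw [Finset.disjoint_insert_left]; exact ⟨hsK, hDK⟩
  · have e1 : ∀ A, A ⊆ U \ (K ∪ D) → con (dl U r) D A = dl (U \ (K ∪ D)) (con r K) A :=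
      fun A hA => dual_minor hK hD hDK.symm hA
    have e2 : K ∪ D = D ∪ K := Finset.union_comm _ _
    refine S.dual.bg_par (D := K) (K := D) (s := s) (t := t) hK hD hDK.symm
      (by rw [e2]; exact hs) (by rw [e2]; exact ht) hst ?_ ?_ ?_ ?_ ?_
    · exact (Conn.dl hrK (by rw [e2]; exact hc)).congr (fun A hA => (e1 A hA).symm)
    · exact (Bix.dl hrK (by rw [e2]; exact hB)).congr (fun A hA => (e1 A hA).symm)
    · exact (F.dl S.hN hrK (by rw [e2]; exact hF)).congr S.hN (fun A hA => (e1 A hA).symm)
    · rw [e1 _ (by rw [e2]; clear * - hs ht; intro z hz; grind), e2, dl_pair hst]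
      simp only [lam] at hlst
      have hcos := hrK.mono ((U \ (D ∪ K)).erase s) (U \ (D ∪ K)) (Finset.erase_subset _ _)
      have h5 := (hc.single hrK (by omega) hs).2
      have h6 := hrK.erase_le ((U \ (D ∪ K)).erase s) t
      have e3 : ((U \ (D ∪ K)).erase s).erase t = (U \ (D ∪ K)) \ {s, t} := by clear * -; grind
      rw [e3] at h6
      omega
    · intro g1 g2 g3
      have hsub : insert s K ⊆ U := Finset.insert_subset hs'.1 hK
      have hdis : Disjoint (insert s K) D := by
        rw [Finset.disjoint_insert_left]; exact ⟨hsD, hDK.symm⟩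
      exact ih _ (hlt (U \ (insert s K ∪ D)) (by clear * -; grind)) (dl U r) (fun D K => G K D)
        S.dual (insert s K) D hsub hD hdis (by simp) rfl g1 g2 g3

theorem GS.bg (S : GS NN U r G) {D K : Finset α} (hD : D ⊆ U) (hK : K ⊆ U) (hDK : Disjoint D K)
    (hne : (D ∪ K).Nonempty) (hc : Conn (U \ (D ∪ K)) (con r K))
    (hB : Bix (U \ (D ∪ K)) (con r K)) (hF : F NN (U \ (D ∪ K)) (con r K)) : G D K :=
  bg_aux NN U _ r G S D K hD hK hDK hne rfl hc hB hF

theorem GS.bg_del (S : GS NN U r G) {y : α} (hy : y ∈ U) (hcB : Conn (U.erase y) r ∧ Bix (U.erase y) r)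
    (hF : F NN (U.erase y) r) : G {y} ∅ := by
  have e : U \ ({y} ∪ ∅) = U.erase y := by clear * -; grind
  refine S.bg (by simpa using hy) (by simp) (by simp) (by simp) ?_ ?_ ?_
  · rw [e, con_empty _ S.hr.empty]; exact hcB.1
  · rw [e, con_empty _ S.hr.empty]; exact hcB.2
  · rw [e, con_empty _ S.hr.empty]; exact hF

theorem GS.bg_con (S : GS NN U r G) {y : α} (hy : y ∈ U)
    (hcB : Conn (U.erase y) (con r {y}) ∧ Bix (U.erase y) (con r {y}))
    (hF : F NN (U.erase y) (con r {y})) : G ∅ {y} := by
  have e : U \ (∅ ∪ {y}) = U.erase y := by clear * -; grind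
  refine S.bg (by simp) (by simpa using hy) (by simp) (by simp) ?_ ?_ ?_
  · rw [e]; exact hcB.1
  · rw [e]; exact hcB.2
  · rw [e]; exact hF

theorem GS.bg_dc (S : GS NN U r G) {x y : α} (hx : x ∈ U) (hy : y ∈ U) (hxy : x ≠ y)
    (hcB : Conn ((U.erase x).erase y) (con r {y}) ∧ Bix ((U.erase x).erase y) (con r {y}))
    (hF : F NN ((U.erase x).erase y) (con r {y})) : G {x} {y} := by
  have e : U \ ({x} ∪ {y}) = (U.erase x).erase y := by clear * -; grind
  refine S.bg (by simpa using hx) (by simpa using hy) (by simpa using hxy) (by simp) ?_ ?_ ?_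
  · rw [e]; exact hcB.1
  · rw [e]; exact hcB.2
  · rw [e]; exact hF

end Pool.Agent.QU
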