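import Pool.Agent.QU.Core1

set_option linter.unusedVariables false
set_option linter.unusedSectionVars false
set_option linter.unusedTactic false
set_option linter.style.longLine false

/-! Core theorem, steps 1 and 2. -/

namespace Pool.Agent.QU

variable {α : Type*} [DecidableEq α] {U : Finset α} {r : Finset α → ℤ}
variable {NN : Finset α → (Finset α → ℤ) → Prop} {G : Finset α → Finset α → Prop}

theorem ext_conn (hr : RK r) {x : α} (hx : x ∈ U) (h : Conn (U.erase x) r)
    (h1 : r {x} = 1) (h2 : r (U.erase x) = r U) : Conn U r := by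
  have hlam : ∀ A, A ⊆ U → lam (U.erase x) r (A.erase x) ≤ lam U r A := by
    intro A hA
    have m := lam_minor (U := U) (S := U.erase x) (K := ∅) (A := A) hr (Finset.erase_subset _ _)
      (by simp)
    rw [con_empty _ hr.empty] at m
    have e1 : U.erase x ∩ A = A.erase x := by clear * - hA; grind
    have e2 : A ∩ U = A := by clear * - hA; grind
    rw [e1, e2] at m
    exact m
  intro A hA hl
  have h3 := hlam A hA
  have hsub : A.erase x ⊆ U.erase x := Finset.erase_subset_erase x hA
  rcases h _ hsub (by omega) with h4 | h4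
  · by_cases hxA : x ∈ A
    · exfalso
      have : A = {x} := by
        rw [← Finset.insert_erase hxA, h4]; rfl
      rw [this] at hl
      have e : U \ {x} = U.erase x := by clear * -; grind
      simp only [lam, e] at hl
      omega
    · left; rw [Finset.erase_eq_of_notMem hxA] at h4; exact h4
  · by_cases hxA : x ∈ A
    · right
      rw [← Finset.insert_erase hxA, h4, Finset.insert_erase hx]
    · exfalso
      rw [Finset.erase_eq_of_notMem hxA] at h4
      rw [h4] at hl
      have e : U \ U.erase x = {x} := by clear * - hx; grind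
      simp only [lam, e] at hl
      omega

theorem dl_erase_eq (hr : RK r) {x : α} (hx : x ∈ U) (h1 : r {x} = 1) :
    dl U r (U.erase x) = dl U r U := by
  have hU : dl U r U = U.card - r U := by simp [dl, hr.empty]
  rw [hU]
  have e : U \ U.erase x = {x} := by clear * - hx; grind
  have hc := Finset.card_erase_of_mem hx
  have hp := Finset.card_pos.2 ⟨x, hx⟩
  simp only [dl, e, hc]
  rw [h1]
  push_cast [Nat.cast_sub (show 1 ≤ U.card by omega)]
  ring

theorem coext_conn (hr : RK r) {x : α} (hx : x ∈ U) (h : Conn (U.erase x) (con r {x}))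
    (h1 : r {x} = 1) (h2 : r (U.erase x) = r U) : Conn U r :=
  Conn.of_dl hr (ext_conn (hr.dl U) hx (h.to_dual_del hr hx) (by rw [dl_single, h2]; ring)
    (dl_erase_eq hr hx h1))

theorem sdiff_pair (U : Finset α) (a b : α) : U \ {a, b} = (U.erase a).erase b := by
  ext z; simp only [Finset.mem_sdiff, Finset.mem_insert, Finset.mem_singleton, Finset.mem_erase]; tauto

/-- a triangle `{x,a,b}` with `M / x \ a` 3-connected is impossible -/
theorem GS.no_tri (S : GS NN U r G) {x a b : α} (hx : x ∈ U) (ha : a ∈ U) (hb : b ∈ U)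
    (hxa : x ≠ a) (hxb : x ≠ b) (hab : a ≠ b) (ht : r {x, a, b} = 2)
    (h : Conn3 ((U.erase x).erase a) (con r {x}))
    (hF : F NN ((U.erase x).erase a) (con r {x})) : False := by
  have hr := S.hr
  have h3 := S.h3
  have hc4 := hF.card_le S.hN
  have haU : a ∈ U.erase x := Finset.mem_erase.2 ⟨hxa.symm, ha⟩
  have hbU : b ∈ U.erase x := Finset.mem_erase.2 ⟨hxb.symm, hb⟩
  rw [Finset.card_erase_of_mem haU, Finset.card_erase_of_mem hx] at hc4
  have hU6 : 6 ≤ U.card := by omega
  have hpair : ∀ p ∈ U, ∀ q ∈ U, p ≠ q → r {p, q} = 2 ∧ r (U \ {p, q}) = r U :=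
    fun p hp q hq hpq => h3.pair hr (by omega) hp hq hpq
  have hsing : ∀ p ∈ U, r {p} = 1 ∧ r (U.erase p) = r U :=
    fun p hp => h3.conn.single hr (by omega) hp
  have hrx := hr.con {x}
  have rx := (hsing x hx).1
  have cp : ∀ p ∈ U, p ≠ x → con r {x} {p} = 1 := by
    intro p hp hpx
    rw [con_single, rx]
    have e : insert x {p} = ({x, p} : Finset α) := rfl
    rw [e, (hpair x hx p hp hpx.symm).1]; ring
  have cU : con r {x} (U.erase x) = r U - 1 := by
    rw [con_single, rx, Finset.insert_erase hx]
  have cUe : ∀ p ∈ U, p ≠ x → con r {x} ((U.erase x).erase p) = r U - 1 := by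
    intro p hp hpx
    have e : insert x ((U.erase x).erase p) = U.erase p := by clear * - hx hp hpx; grind
    rw [con_single, rx, e, (hsing p hp).2]
  have cab : con r {x} {a, b} = 1 := by
    have e : insert x {a, b} = ({x, a, b} : Finset α) := rfl
    rw [con_single, rx, e, ht]; ring
  -- M/x
  have cbx := ext_conn_bix hrx haU h (cp a ha hxa.symm) (by rw [cUe a ha hxa.symm, cU])
  have Fx : F NN (U.erase x) (con r {x}) := hF.of_erase
  have Gx : G ∅ {x} := S.bg_con hx cbx Fx
  -- swap
  have h' : Conn3 ((U.erase x).erase b) (con r {x}) :=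
    par_swap hrx haU hbU hab (cp a ha hxa.symm) (cp b hb hxb.symm) cab h
  have hF' : F NN ((U.erase x).erase b) (con r {x}) := by
    refine F.del_par S.hN hrx cbx.1 hbU haU hab.symm ?_ Fx
    rw [Finset.pair_comm]; exact cab
  -- M \ p
  have Gdel : ∀ p ∈ U, p ≠ x → Conn3 ((U.erase x).erase p) (con r {x}) →
      F NN ((U.erase x).erase p) (con r {x}) → G {p} ∅ := by
    intro p hp hpx g1 g2
    have hxp : x ∈ U.erase p := Finset.mem_erase.2 ⟨hpx.symm, hx⟩
    rw [Finset.erase_right_comm] at g1 g2
    refine S.bg_del hp (coext_conn_bix hr hxp g1 rx ?_) (g2.of_con_single hxp)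
    rw [← sdiff_pair, (hpair p hp x hx hpx).2, (hsing p hp).2]
  have Ga := Gdel a ha hxa.symm h hF
  have Gb := Gdel b hb hxb.symm h' hF'
  -- connectivity of M \ {a,b}
  have hcab : Conn (U \ {a, b}) r := by
    have hxW : x ∈ U \ {a, b} := by clear * - hx hxa hxb; grind
    have e1 : (U \ {a, b}).erase x = ((U.erase x).erase a).erase b := by clear * -; grind
    refine coext_conn hr hxW ?_ rx ?_
    · rw [e1]
      refine h.conn_del hrx ?_ (Finset.mem_erase.2 ⟨hab.symm, hbU⟩)
      rw [Finset.card_erase_of_mem haU, Finset.card_erase_of_mem hx]; omega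
    · rw [(hpair a ha b hb hab).2]
      have e2 : (U \ {a, b}).erase x = U \ {x, a, b} := by clear * -; grind
      have hsub : ({x, a, b} : Finset α) ⊆ U := by clear * - hx ha hb; grind
      have hc3 : ({x, a, b} : Finset α).card = 3 := by clear * - hxa hxb hab; grind
      have hcc := card_compl hsub
      have := h3.two_le hsub (by omega) (by omega)
      have m := hr.mono (U \ {x, a, b}) U Finset.sdiff_subset
      rw [e2]; omega
  refine S.ng (S.ga.tl a b x ha hb hx hab hxa.symm hxb.symm (hpair a ha b hb hab).2 Ga Gb Gx hcab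
    ?_ ?_ ?_ ?_)
  · rw [sdiff_pair, Finset.erase_right_comm]; exact h.conn
  · rw [sdiff_pair, Finset.erase_right_comm]; exact hF
  · rw [sdiff_pair, Finset.erase_right_comm]; exact h'.conn
  · rw [sdiff_pair, Finset.erase_right_comm]; exact hF'

/-- a triad `{x,a,b}` with `M \ x / a` 3-connected is impossible -/
theorem GS.no_triad (S : GS NN U r G) {x a b : α} (hx : x ∈ U) (ha : a ∈ U) (hb : b ∈ U)
    (hxa : x ≠ a) (hxb : x ≠ b) (hab : a ≠ b) (ht : r (U \ {x, a, b}) = r U - 1)
    (h : Conn3 ((U.erase x).erase a) (con r {a}))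
    (hF : F NN ((U.erase x).erase a) (con r {a})) : False := by
  have hr := S.hr
  refine S.dual.no_tri hx ha hb hxa hxb hab ?_ ?_ ?_
  · have hc3 : ({x, a, b} : Finset α).card = 3 := by clear * - hxa hxb hab; grind
    simp only [dl, hc3, ht]; push_cast; ring
  · exact (h.dl (hr.con {a})).congr (fun A hA => (dual_minor2 hr hx ha hxa hA).symm)
  · exact (hF.dl S.hN (hr.con {a})).congr S.hN (fun A hA => (dual_minor2 hr hx ha hxa hA).symm)

section step2

variable (S : GS NN U r G) {x : α} (hx : x ∈ U) (h3x : Conn3 (U.erase x) r)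
  (hFx : F NN (U.erase x) r)

include S hx h3x hFx

/-- case 2A -/
theorem GS.case2A {y : α} (hy : y ∈ U.erase x) (h : Conn3 ((U.erase x).erase y) r)
    (hF : F NN ((U.erase x).erase y) r) : False := by
  have hr := S.hr
  have h3 := S.h3
  have hy' := Finset.mem_erase.1 hy
  have hc4 := hF.card_le S.hN
  rw [Finset.card_erase_of_mem hy, Finset.card_erase_of_mem hx] at hc4
  have hp := h3.pair hr (by omega) hx hy'.2 hy'.1.symm
  have rx := h3.conn.single hr (by omega) hx
  have ry := h3.conn.single hr (by omega) hy'.2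
  have hxy : x ∈ U.erase y := Finset.mem_erase.2 ⟨hy'.1.symm, hx⟩
  have Gx : G {x} ∅ := S.bg_del hx ⟨h3x.conn, h3x.bix⟩ hFx
  have e : (U.erase x).erase y = (U.erase y).erase x := Finset.erase_right_comm
  have Gy : G {y} ∅ := by
    refine S.bg_del hy'.2 (ext_conn_bix hr hxy (by rw [← e]; exact h) rx.1 ?_) ?_
    · rw [← e, ← sdiff_pair, hp.2, ry.2]
    · rw [e] at hF; exact hF.of_erase
  exact S.ng (S.ga.pl x y hx hy'.2 hy'.1.symm hp.2 Gx Gy (by rw [sdiff_pair]; exact h.conn)
    (by rw [sdiff_pair]; exact hF))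

end step2

/-- Lemma T: if `{y,a,b}` is a triad of the 3-connected `M \ x` but not of `M`,
`M \ {x,y} / a` is 3-connected and `{x,a,b}` is not a triangle then `M \ y` is 3-connected. -/
theorem lemmaT (hr : RK r) (h3 : Conn3 U r) {x y a b : α} (hx : x ∈ U) (hy : y ∈ U) (ha : a ∈ U)
    (hb : b ∈ U) (hxy : x ≠ y) (hxa : x ≠ a) (hxb : x ≠ b) (hya : y ≠ a) (hyb : y ≠ b) (hab : a ≠ b)
    (h3x : Conn3 (U.erase x) r)
    (hN : Conn3 (((U.erase x).erase y).erase a) (con r {a}))
    (hN4 : 4 ≤ (((U.erase x).erase y).erase a).card)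
    (hser : r (U \ {x, y, a, b}) = r U - 1) (hnt : r (U \ {y, a, b}) = r U)
    (hntri : r {x, a, b} = 3) : Conn3 (U.erase y) r := by
  have hyx : y ∈ U.erase x := Finset.mem_erase.2 ⟨hxy.symm, hy⟩
  have hU7 : 7 ≤ U.card := by
    have e2 : a ∈ (U.erase x).erase y := Finset.mem_erase.2 ⟨hya.symm, Finset.mem_erase.2 ⟨hxa.symm, ha⟩⟩
    rw [Finset.card_erase_of_mem e2, Finset.card_erase_of_mem hyx, Finset.card_erase_of_mem hx] at hN4
    omega
  have hUx : (U.erase x).card = U.card - 1 := Finset.card_erase_of_mem hx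
  have hpair : ∀ p ∈ U, ∀ q ∈ U, p ≠ q → r {p, q} = 2 ∧ r (U \ {p, q}) = r U :=
    fun p hp q hq hpq => h3.pair hr (by omega) hp hq hpq
  have hsing : ∀ p ∈ U, r {p} = 1 ∧ r (U.erase p) = r U :=
    fun p hp => h3.conn.single hr (by omega) hp
  have hcos : ∀ p ∈ U, ∀ q ∈ U, p ≠ q → p ≠ x → q ≠ x → r (U \ {x, p, q}) = r U := by
    intro p hp q hq hpq hpx hqx
    have := (h3x.pair hr (by omega) (Finset.mem_erase.2 ⟨hpx, hp⟩) (Finset.mem_erase.2 ⟨hqx, hq⟩) hpq).2
    have e : U.erase x \ {p, q} = U \ {x, p, q} := by clear * -; grind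
    rw [e, (hsing x hx).2] at this
    exact this
  have ra := (hsing a ha).1
  obtain ⟨W, hW⟩ : ∃ W, W = ((U.erase x).erase y).erase a := ⟨_, rfl⟩
  rw [← hW] at hN hN4
  -- no other series pair
  have hclaim : ∀ t ∈ U, t ≠ x → t ≠ y → t ≠ a → t ≠ b → r (U \ {x, y, a, t}) = r U := by
    intro t ht htx hty hta htb
    by_contra hne
    have m := hr.mono (U \ {x, y, a, t}) U Finset.sdiff_subset
    have c1 := hcos y hy a ha hya hxy.symm hxa.symm
    have s1 := hr.sub' (A := U \ {x, y, a, b}) (B := U \ {x, y, a, t}) (C := U \ {x, y, a})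
      (D := U \ {x, y, a, b, t}) (by clear * - htb; intro z hz; grind)
      (by clear * -; intro z hz; grind)
    have hbt : ({b, t} : Finset α) ⊆ W := by
      rw [hW]; clear * - hb hxb hyb hab ht htx hty hta; intro z hz; grind
    have hbtc : ({b, t} : Finset α).card = 2 := Finset.card_pair (Ne.symm htb)
    have hcc := card_compl hbt
    have t1 := hN.two_le hbt (by omega) (by omega)
    have e1 : insert a W = U \ {x, y} := by
      rw [hW]; clear * - ha hxa hya; grind
    have e2 : insert a (W \ {b, t}) = U \ {x, y, b, t} := by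
      rw [hW]; clear * - ha hxa hya hab hta; grind
    rw [con_single, con_single, con_single, ra, e1, e2, (hpair x hx y hy hxy).2] at t1
    have l1 := hr.le_card (insert a {b, t})
    have l2 : (insert a {b, t} : Finset α).card ≤ 3 := Finset.card_le_three
    have l3 := hr.step (U \ {x, y, a, b, t}) a
    have e3 : insert a (U \ {x, y, a, b, t}) = U \ {x, y, b, t} := by
      clear * - ha hxa hya hab hta; grind
    rw [e3] at l3
    omega
  refine ⟨h3.conn_del hr (by omega) hy, ?_⟩
  have key : ∀ P, P ⊆ U.erase y → x ∈ P → lam (U.erase y) r P ≤ 1 →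
      P.card ≤ 1 ∨ (U.erase y \ P).card ≤ 1 := by
    intro P hP hxP hl
    by_contra hcon
    push Not at hcon
    have m := lam_minor (U := U.erase y) (S := W) (K := {a}) (A := P) hr
      (by rw [hW]; clear * -; intro z hz; grind) (by simpa using ⟨hya.symm, ha⟩)
    have e1 : P ∩ U.erase y = P := Finset.inter_eq_left.2 hP
    rw [e1] at m
    have ry := (hsing y hy).2
    simp only [lam, ry] at hl
    rcases hN.sep (W ∩ P) Finset.inter_subset_left (by
      simp only [lam, ry] at m ⊢; omega) with hs | hs
    · -- P small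
      rcases Nat.lt_or_ge (W ∩ P).card 1 with hc | hc
      · have hT : W ∩ P = ∅ := by rw [← Finset.card_eq_zero]; omega
        have haP : a ∈ P := by
          by_contra haP
          have : P = {x} := by
            ext z
            have h1 : z ∉ W ∩ P := by rw [hT]; simp
            have h2 := @hP z
            rw [hW] at h1
            clear * - h1 h2 hxP haP; grind
          rw [this] at hcon; simp at hcon
        have hPe : P = {x, a} := by
          ext z
          have h1 : z ∉ W ∩ P := by rw [hT]; simp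
          have h2 := @hP z
          rw [hW] at h1
          clear * - h1 h2 hxP haP; grind
        have e2 : U.erase y \ P = U \ {x, y, a} := by rw [hPe]; clear * -; grind
        rw [e2, hPe, (hpair x hx a ha hxa).1, hcos y hy a ha hya hxy.symm hxa.symm] at hl
        omega
      · obtain ⟨t, hT⟩ := Finset.card_eq_one.1 (show (W ∩ P).card = 1 by omega)
        have htW : t ∈ W ∩ P := by rw [hT]; simp
        have ht : t ∈ U ∧ t ≠ x ∧ t ≠ y ∧ t ≠ a ∧ t ∈ P := by
          rw [hW] at htW; clear * - htW; grind
        have h1 : ∀ z, z ∈ W ∩ P ↔ z = t := by intro z; rw [hT]; simp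
        rw [hW] at h1
        by_cases haP : a ∈ P
        · have hPe : P = {x, a, t} := by
            ext z
            have h2 := @hP z
            have h3 := h1 z
            clear * - h2 h3 hxP haP ht; grind
          have e2 : U.erase y \ P = U \ {x, y, a, t} := by rw [hPe]; clear * -; grind
          rw [e2, hPe] at hl
          by_cases htb : t = b
          · rw [htb, hntri, hser] at hl; omega
          · rw [hclaim t ht.1 ht.2.1 ht.2.2.1 ht.2.2.2.1 htb] at hl
            have := hr.mono {x, a} {x, a, t} (by clear * -; intro z hz; grind)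
            rw [(hpair x hx a ha hxa).1] at this
            omega
        · have hPe : P = {x, t} := by
            ext z
            have h2 := @hP z
            have h3 := h1 z
            clear * - h2 h3 hxP haP ht; grind
          have e2 : U.erase y \ P = U \ {x, y, t} := by rw [hPe]; clear * -; grind
          rw [e2, hPe, (hpair x hx t ht.1 ht.2.1.symm).1,
            hcos y hy t ht.1 ht.2.2.1.symm hxy.symm ht.2.1] at hl
          omega
    · -- Q small
      obtain ⟨Q, hQ⟩ : ∃ Q, Q = U.erase y \ P := ⟨_, rfl⟩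
      have e3 : W \ (W ∩ P) = W ∩ Q := by rw [hQ, hW]; clear * -; grind
      rw [e3] at hs
      rw [← hQ] at hl hcon
      have hxQ : x ∉ Q := by rw [hQ]; clear * - hxP; grind
      have hQU : Q ⊆ U.erase y := by rw [hQ]; exact Finset.sdiff_subset
      have hPQ : P = U.erase y \ Q := by rw [hQ, Finset.sdiff_sdiff_eq_self hP]
      have hWQ : W ∩ Q = Q.erase a := by rw [hW]; clear * - hQU hxQ; grind
      rw [hWQ] at hs
      have haQ : a ∈ Q := by
        by_contra haQ
        rw [Finset.erase_eq_of_notMem haQ] at hs; omega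
      rw [Finset.card_erase_of_mem haQ] at hs
      obtain ⟨t, hT⟩ := Finset.card_eq_one.1 (show (Q.erase a).card = 1 by
        rw [Finset.card_erase_of_mem haQ]; omega)
      have hQe : Q = {a, t} := by rw [← Finset.insert_erase haQ, hT]
      have htQ : t ∈ Q.erase a := by rw [hT]; simp
      have ht : t ∈ U ∧ t ≠ x ∧ t ≠ y ∧ t ≠ a := by clear * - htQ hQU hxQ; grind
      have e4 : P = U \ {y, a, t} := by rw [hPQ, hQe]; clear * -; grind
      rw [hQe, (hpair a ha t ht.1 ht.2.2.2.symm).1, e4] at hl
      by_cases htb : t = b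
      · rw [htb, hnt] at hl; omega
      · have := hclaim t ht.1 ht.2.1 ht.2.2.1 ht.2.2.2 htb
        have m2 := hr.mono (U \ {x, y, a, t}) (U \ {y, a, t}) (by clear * -; intro z hz; grind)
        omega
  intro P hP hl
  by_cases hxP : x ∈ P
  · exact key P hP hxP hl
  · have := key (U.erase y \ P) Finset.sdiff_subset
      (Finset.mem_sdiff.2 ⟨Finset.mem_erase.2 ⟨hxy, hx⟩, hxP⟩) (by rw [lam_compl _ _ hP]; exact hl)
    rw [Finset.sdiff_sdiff_eq_self hP] at this
    exact this.symm

end Pool.Agent.QU
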