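import Pool.Agent.QU.Core2

set_option linter.unusedVariables false
set_option linter.unusedSectionVars false
set_option linter.unusedTactic false
set_option linter.style.longLine false

/-! Core theorem, step 2 (continued). -/

namespace Pool.Agent.QU

variable {α : Type*} [DecidableEq α] {U : Finset α} {r : Finset α → ℤ}
variable {NN : Finset α → (Finset α → ℤ) → Prop} {G : Finset α → Finset α → Prop}

theorem ext_pair (hr : RK r) {x : α} (hx : x ∈ U) (h : Conn3 (U.erase x) r) (hc : Conn U r)
    (hn : ¬ Conn3 U r) : ∃ c ∈ U.erase x, lam U r {x, c} ≤ 1 := by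
  have hnc : ∃ A, A ⊆ U ∧ lam U r A ≤ 1 ∧ 2 ≤ A.card ∧ 2 ≤ (U \ A).card := by
    by_contra hcon
    push Not at hcon
    apply hn
    refine ⟨hc, fun A hA hl => ?_⟩
    by_cases h : 2 ≤ A.card
    · right; have := hcon A hA hl h; omega
    · left; omega
  have : ∃ A, A ⊆ U ∧ lam U r A ≤ 1 ∧ 2 ≤ A.card ∧ 2 ≤ (U \ A).card ∧ x ∈ A := by
    obtain ⟨A, hA, hl, h1, h2⟩ := hnc
    by_cases hxA : x ∈ A
    · exact ⟨A, hA, hl, h1, h2, hxA⟩
    · refine ⟨U \ A, Finset.sdiff_subset, by rw [lam_compl _ _ hA]; exact hl, h2, ?_,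
        Finset.mem_sdiff.2 ⟨hx, hxA⟩⟩
      rw [Finset.sdiff_sdiff_eq_self hA]; exact h1
  obtain ⟨A, hA, hl, h1, h2, hxA⟩ := this
  have m := lam_minor (U := U) (S := U.erase x) (K := ∅) (A := A) hr (Finset.erase_subset _ _)
    (by simp)
  rw [con_empty _ hr.empty] at m
  have e1 : U.erase x ∩ A = A.erase x := by clear * - hA; grind
  have e2 : A ∩ U = A := Finset.inter_eq_left.2 hA
  rw [e1, e2] at m
  have e3 : U.erase x \ A.erase x = U \ A := by clear * - hxA; grind
  rcases h.sep _ (Finset.erase_subset_erase x hA) (by omega) with hs | hs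
  · rw [Finset.card_erase_of_mem hxA] at hs
    obtain ⟨c, hc'⟩ := Finset.card_eq_one.1 (show (A.erase x).card = 1 by
      rw [Finset.card_erase_of_mem hxA]; omega)
    have hcA : c ∈ A.erase x := by rw [hc']; simp
    refine ⟨c, Finset.erase_subset_erase x hA hcA, ?_⟩
    have : A = {x, c} := by rw [← Finset.insert_erase hxA, hc']
    rw [← this]; exact hl
  · rw [e3] at hs; omega

theorem coext_pair (hr : RK r) {x : α} (hx : x ∈ U) (h : Conn3 (U.erase x) (con r {x}))
    (hc : Conn U r) (hn : ¬ Conn3 U r) : ∃ c ∈ U.erase x, lam U r {x, c} ≤ 1 := by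
  obtain ⟨c, hc', hl⟩ := ext_pair (hr.dl U) hx (h.to_dual_del hr hx) (hc.dl hr)
    (fun hh => hn (Conn3.of_dl hr hh))
  refine ⟨c, hc', ?_⟩
  rw [lam_dl U hr.empty] at hl
  · exact hl
  · have := (Finset.mem_erase.1 hc').2
    clear * - hx this; intro z hz; grind

section step2

variable (S : GS NN U r G) {x : α} (hx : x ∈ U) (h3x : Conn3 (U.erase x) r)
  (hFx : F NN (U.erase x) r)

include S hx h3x hFx

/-- case 2C -/
theorem GS.case2C {y : α} (hy : y ∈ U.erase x) (hN : Conn3 ((U.erase x).erase y) (con r {y}))
    (hF : F NN ((U.erase x).erase y) (con r {y})) : Conn3 (U.erase y) (con r {y}) := by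
  by_contra hcon
  have hr := S.hr
  have h3 := S.h3
  have hy' := Finset.mem_erase.1 hy
  have hc4 := hF.card_le S.hN
  rw [Finset.card_erase_of_mem hy, Finset.card_erase_of_mem hx] at hc4
  have hU6 : 6 ≤ U.card := by omega
  have hpair : ∀ p ∈ U, ∀ q ∈ U, p ≠ q → r {p, q} = 2 ∧ r (U \ {p, q}) = r U :=
    fun p hp q hq hpq => h3.pair hr (by omega) hp hq hpq
  have hsing : ∀ p ∈ U, r {p} = 1 ∧ r (U.erase p) = r U :=
    fun p hp => h3.conn.single hr (by omega) hp
  have ry := (hsing y hy'.2).1
  have hry := hr.con {y}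
  have hxy : x ∈ U.erase y := Finset.mem_erase.2 ⟨hy'.1.symm, hx⟩
  have e0 : (U.erase x).erase y = (U.erase y).erase x := Finset.erase_right_comm
  have Gx : G {x} ∅ := S.bg_del hx ⟨h3x.conn, h3x.bix⟩ hFx
  have cp : ∀ p ∈ U, p ≠ y → con r {y} {p} = 1 := by
    intro p hp hpy
    rw [con_single, ry]
    have e : insert y {p} = ({y, p} : Finset α) := rfl
    rw [e, (hpair y hy'.2 p hp hpy.symm).1]; ring
  have cU : con r {y} (U.erase y) = r U - 1 := by
    rw [con_single, ry, Finset.insert_erase hy'.2]
  have cUe : ∀ p ∈ U, p ≠ y → con r {y} ((U.erase y).erase p) = r U - 1 := by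
    intro p hp hpy
    have h1 := hy'.2
    have e : insert y ((U.erase y).erase p) = U.erase p := by clear * - h1 hp hpy; grind
    rw [con_single, ry, e, (hsing p hp).2]
  have cby := ext_conn_bix hry hxy (by rw [← e0]; exact hN) (cp x hx hy'.1.symm)
    (by rw [cUe x hx hy'.1.symm, cU])
  have Fy : F NN (U.erase y) (con r {y}) := by
    rw [e0] at hF; exact hF.of_erase
  have Gy : G ∅ {y} := S.bg_con hy'.2 cby Fy
  obtain ⟨c, hc, hl⟩ := ext_pair hry hxy (by rw [← e0]; exact hN) cby.1 hcon
  have hc' := Finset.mem_erase.1 hc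
  have hc'' := Finset.mem_erase.1 hc'.2
  have e1 : insert y (U.erase y \ {x, c}) = U \ {x, c} := by
    clear * - hy' hc'' hx; grind
  simp only [lam] at hl
  rw [con_single r y (U.erase y \ {x, c}), e1, (hpair x hx c hc''.2 hc'.1.symm).2, ry, cU] at hl
  have hm := hry.mono {x} {x, c} (by clear * -; intro z hz; grind)
  rw [cp x hx hy'.1.symm] at hm
  have hpar : con r {y} {x, c} = 1 := by omega
  have h3c : Conn3 ((U.erase y).erase c) (con r {y}) :=
    par_swap hry hxy hc'.2 hc'.1.symm (cp x hx hy'.1.symm) (cp c hc''.2 hc''.1) hpar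
      (by rw [← e0]; exact hN)
  have Fc : F NN ((U.erase y).erase c) (con r {y}) :=
    F.del_par S.hN hry cby.1 hc'.2 hxy hc'.1 (by rw [Finset.pair_comm]; exact hpar) Fy
  have hyc : y ∈ U.erase c := Finset.mem_erase.2 ⟨hc''.1.symm, hy'.2⟩
  have e2 : (U.erase y).erase c = (U.erase c).erase y := Finset.erase_right_comm
  have Gc : G {c} ∅ := by
    refine S.bg_del hc''.2 (coext_conn_bix hr hyc (by rw [← e2]; exact h3c) ry ?_) ?_
    · rw [← sdiff_pair, (hpair c hc''.2 y hy'.2 hc''.1).2, (hsing c hc''.2).2]
    · rw [e2] at Fc; exact Fc.of_con_single hyc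
  refine S.ng (S.ga.tl x c y hx hc''.2 hy'.2 hc'.1.symm hy'.1.symm hc''.1
    (hpair x hx c hc''.2 hc'.1.symm).2 Gx Gc Gy ?_ ?_ ?_ ?_ ?_)
  · rw [sdiff_pair]
    refine h3x.conn_del hr ?_ (Finset.mem_erase.2 ⟨hc'.1, hc''.2⟩)
    rw [Finset.card_erase_of_mem hx]; omega
  · rw [sdiff_pair]; exact hN.conn
  · rw [sdiff_pair]; exact hF
  · rw [sdiff_pair, Finset.erase_right_comm]; exact h3c.conn
  · rw [sdiff_pair, Finset.erase_right_comm]; exact Fc

/-- case 2B -/
theorem GS.case2B {y a b : α} (hy : y ∈ U.erase x) (ha : a ∈ U.erase x) (hb : b ∈ U.erase x)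
    (hya : y ≠ a) (hyb : y ≠ b) (hab : a ≠ b)
    (ht : r (U.erase x \ {y, a, b}) = r (U.erase x) - 1)
    (hN : Conn3 (((U.erase x).erase y).erase a) (con r {a}))
    (hF : F NN (((U.erase x).erase y).erase a) (con r {a})) : False := by
  have hr := S.hr
  have h3 := S.h3
  have hy' := Finset.mem_erase.1 hy
  have ha' := Finset.mem_erase.1 ha
  have hb' := Finset.mem_erase.1 hb
  have hc4 := hF.card_le S.hN
  have haW1 : a ∈ (U.erase x).erase y := Finset.mem_erase.2 ⟨hya.symm, ha⟩
  have hbW1 : b ∈ (U.erase x).erase y := Finset.mem_erase.2 ⟨hyb.symm, hb⟩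
  have hc4' := hc4
  rw [Finset.card_erase_of_mem haW1, Finset.card_erase_of_mem hy, Finset.card_erase_of_mem hx] at hc4'
  have hU7 : 7 ≤ U.card := by omega
  have hUx : (U.erase x).card = U.card - 1 := Finset.card_erase_of_mem hx
  have hpair : ∀ p ∈ U, ∀ q ∈ U, p ≠ q → r {p, q} = 2 ∧ r (U \ {p, q}) = r U :=
    fun p hp q hq hpq => h3.pair hr (by omega) hp hq hpq
  have hsing : ∀ p ∈ U, r {p} = 1 ∧ r (U.erase p) = r U :=
    fun p hp => h3.conn.single hr (by omega) hp
  have hcos : ∀ p ∈ U, ∀ q ∈ U, p ≠ q → p ≠ x → q ≠ x → r (U \ {x, p, q}) = r U := by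
    intro p hp q hq hpq hpx hqx
    have := (h3x.pair hr (by omega) (Finset.mem_erase.2 ⟨hpx, hp⟩) (Finset.mem_erase.2 ⟨hqx, hq⟩) hpq).2
    have e : U.erase x \ {p, q} = U \ {x, p, q} := by clear * -; grind
    rw [e, (hsing x hx).2] at this
    exact this
  have ra := (hsing a ha'.2).1
  have rb := (hsing b hb'.2).1
  have rx := (hsing x hx).1
  have hser : r (U \ {x, y, a, b}) = r U - 1 := by
    have e : U.erase x \ {y, a, b} = U \ {x, y, a, b} := by clear * -; grind
    rw [← e, ht, (hsing x hx).2]
  have Gx : G {x} ∅ := S.bg_del hx ⟨h3x.conn, h3x.bix⟩ hFx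
  have hW1r : r ((U.erase x).erase y) = r U := by
    rw [← sdiff_pair]; exact (hpair x hx y hy'.2 hy'.1.symm).2
  have hW1a : r (((U.erase x).erase y).erase a) = r U := by
    have e : ((U.erase x).erase y).erase a = U \ {x, y, a} := by clear * -; grind
    rw [e]; exact hcos y hy'.2 a ha'.2 hya hy'.1 ha'.1
  have hW1b : r (((U.erase x).erase y).erase b) = r U := by
    have e : ((U.erase x).erase y).erase b = U \ {x, y, b} := by clear * -; grind
    rw [e]; exact hcos y hy'.2 b hb'.2 hyb hy'.1 hb'.1
  have hW1ab : r (((U.erase x).erase y) \ {a, b}) = r U - 1 := by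
    have e : ((U.erase x).erase y) \ {a, b} = U \ {x, y, a, b} := by clear * -; grind
    rw [e]; exact hser
  have hW1c : Conn ((U.erase x).erase y) r :=
    coext_conn hr haW1 hN.conn ra (by rw [hW1a, hW1r])
  have hW1F : F NN ((U.erase x).erase y) r := hF.of_con_single haW1
  have nGy : ¬ G {y} ∅ := by
    intro Gy
    exact S.ng (S.ga.pl x y hx hy'.2 hy'.1.symm (hpair x hx y hy'.2 hy'.1.symm).2 Gx Gy
      (by rw [sdiff_pair]; exact hW1c) (by rw [sdiff_pair]; exact hW1F))
  -- generic: {p} contraction data
  have cp : ∀ c ∈ U, ∀ p ∈ U, p ≠ c → con r {c} {p} = 1 := by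
    intro c hc p hp hpc
    rw [con_single, (hsing c hc).1]
    have e : insert c {p} = ({c, p} : Finset α) := rfl
    rw [e, (hpair c hc p hp hpc.symm).1]; ring
  by_cases hnt : r (U \ {y, a, b}) = r U
  swap
  · -- {y,a,b} is a triad of M
    have hnt' : r (U \ {y, a, b}) = r U - 1 := by
      have h1 := hr.mono (U \ {y, a, b}) U Finset.sdiff_subset
      have h2 := hr.erase_le (U \ {y, a}) b
      have e : (U \ {y, a}).erase b = U \ {y, a, b} := by clear * -; grind
      rw [e, (hpair y hy'.2 a ha'.2 hya).2] at h2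
      omega
    apply nGy
    have Gya : G {y} {a} := by
      have hxm : x ∈ (U.erase y).erase a := by
        clear * - hx hy' ha'; grind
      have e : ((U.erase y).erase a).erase x = ((U.erase x).erase y).erase a := by clear * -; grind
      refine S.bg_dc hy'.2 ha'.2 hya (ext_conn_bix (hr.con {a}) hxm (by rw [e]; exact hN)
        (cp a ha'.2 x hx ha'.1.symm) ?_) ?_
      · rw [con_single, con_single]
        have e1 : insert a (((U.erase y).erase a).erase x) = U \ {x, y} := by
          clear * - ha' hya; grind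
        have e2 : insert a ((U.erase y).erase a) = U.erase y := by clear * - ha' hya; grind
        rw [e1, e2, (hpair x hx y hy'.2 hy'.1.symm).2, (hsing y hy'.2).2]
      · rw [← e] at hF; exact hF.of_erase
    have := S.gad.par ∅ {y} a b (by simp) (by simpa using hy'.2) (by simp)
      (by simpa using ⟨ha'.2, hya.symm⟩) (by simpa using ⟨hb'.2, hyb.symm⟩) hab
      (by
        rw [dl_erase U r hy'.2 (by simpa using ⟨hya.symm, ha'.2⟩), dl_single, ← sdiff_pair,
          (hpair y hy'.2 a ha'.2 hya).2, (hsing y hy'.2).2]; ring)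
      (by
        rw [dl_erase U r hy'.2 (by simpa using ⟨hyb.symm, hb'.2⟩), dl_single, ← sdiff_pair,
          (hpair y hy'.2 b hb'.2 hyb).2, (hsing y hy'.2).2]; ring)
      (by
        rw [dl_erase U r hy'.2 (by clear * - hya ha' hyb hb'; intro z hz; grind), dl_pair hab]
        have e : U.erase y \ {a, b} = U \ {y, a, b} := by clear * -; grind
        rw [e, hnt', (hsing y hy'.2).2]; ring)
      (by simpa using Gya)
    exact this
  · by_cases htri : r {x, a, b} = 3
    · apply nGy
      have h3y := lemmaT hr h3 hx hy'.2 ha'.2 hb'.2 hy'.1.symm ha'.1.symm hb'.1.symm hya hyb hab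
        h3x hN hc4 hser hnt htri
      refine S.bg_del hy'.2 ⟨h3y.conn, h3y.bix⟩ ?_
      have e : (U.erase x).erase y = (U.erase y).erase x := Finset.erase_right_comm
      rw [e] at hW1F
      exact hW1F.of_erase
    · have htri2 : r {x, a, b} = 2 := by
        have h1 := hr.le_card {x, a, b}
        have h2 : ({x, a, b} : Finset α).card ≤ 3 := Finset.card_le_three
        have h4 := hr.mono {x, a} {x, a, b} (by clear * -; intro z hz; grind)
        rw [(hpair x hx a ha'.2 ha'.1.symm).1] at h4
        omega
      -- the four element set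
      have hD : ({x, y, a, b} : Finset α) ⊆ U := by clear * - hx hy' ha' hb'; intro z hz; grind
      have hDc : ({x, y, a, b} : Finset α).card = 4 := by
        clear * - hy' ha' hb' hya hyb hab; grind
      have hDcc := card_compl hD
      have hD2 := h3.two_le hD (by omega) (by omega)
      have hrD : 3 ≤ r {x, y, a, b} := by omega
      have haby : r {a, b, y} = 3 := by
        have s1 := hr.sub' (A := {x, a, b}) (B := {a, b, y}) (C := {x, y, a, b}) (D := {a, b})
          (by clear * -; intro z hz; grind) (by clear * -; intro z hz; grind)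
        have h1 := hr.le_card {a, b, y}
        have h2 : ({a, b, y} : Finset α).card ≤ 3 := Finset.card_le_three
        rw [(hpair a ha'.2 b hb'.2 hab).1] at s1
        omega
      have hxay : r {x, a, y} = 3 := by
        have s1 := hr.sub' (A := {x, a, b}) (B := {x, a, y}) (C := {x, y, a, b}) (D := {x, a})
          (by clear * -; intro z hz; grind) (by clear * -; intro z hz; grind)
        have h1 := hr.le_card {x, a, y}
        have h2 : ({x, a, y} : Finset α).card ≤ 3 := Finset.card_le_three
        rw [(hpair x hx a ha'.2 ha'.1.symm).1] at s1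
        omega
      have eD : U \ {x, a, b, y} = U \ {x, y, a, b} := by clear * -; grind
      -- contraction of c ∈ {a, b}
      have Gcon : ∀ c d : α, c ∈ U → d ∈ U → c ≠ x → d ≠ x → c ≠ y → c ≠ d → r {c, x, d} = 2 →
          Conn3 (((U.erase x).erase y).erase c) (con r {c}) →
          F NN (((U.erase x).erase y).erase c) (con r {c}) → G ∅ {c} := by
        intro c d hc hd hcx hdx hcy hcd h2 g1 g2
        have Gxc : G {x} {c} := by
          have hym : y ∈ (U.erase x).erase c := by clear * - hy' hcy; grind
          have e : ((U.erase x).erase c).erase y = ((U.erase x).erase y).erase c := by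
            clear * -; grind
          refine S.bg_dc hx hc hcx.symm (ext_conn_bix (hr.con {c}) hym (by rw [e]; exact g1)
            (cp c hc y hy'.2 hcy.symm) ?_) ?_
          · rw [con_single, con_single]
            have e1 : insert c (((U.erase x).erase c).erase y) = U \ {x, y} := by
              clear * - hc hcx hcy; grind
            have e2 : insert c ((U.erase x).erase c) = U.erase x := by clear * - hc hcx; grind
            rw [e1, e2, (hpair x hx y hy'.2 hy'.1.symm).2, (hsing x hx).2]
          · rw [← e] at g2; exact g2.of_erase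
        refine S.ga.par ∅ {c} x d (by simp) (by simpa using hc) (by simp)
          (by simpa using ⟨hx, hcx.symm⟩) (by simpa using ⟨hd, hcd.symm⟩) hdx.symm
          (cp c hc x hx hcx.symm) (cp c hc d hd hcd.symm) ?_ (by simpa using Gxc)
        have e : insert c {x, d} = ({c, x, d} : Finset α) := rfl
        rw [con_single, e, h2, (hsing c hc).1]; ring
      have Ga : G ∅ {a} := Gcon a b ha'.2 hb'.2 ha'.1 hb'.1 hya.symm hab (by
        have e : ({a, x, b} : Finset α) = {x, a, b} := by clear * -; grind
        rw [e]; exact htri2) hN hF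
      have hNb : Conn3 (((U.erase x).erase y).erase b) (con r {b}) :=
        ser_swap hr haW1 hbW1 hab (by rw [hW1a, hW1r]) (by rw [hW1b, hW1r])
          (by rw [hW1ab, hW1r]) hN
      have hFb : F NN (((U.erase x).erase y).erase b) (con r {b}) := by
        refine F.con_ser S.hN hr hW1c hbW1 haW1 hab.symm ?_ hW1F
        rw [Finset.pair_comm, hW1ab, hW1r]
      have Gb : G ∅ {b} := Gcon b a hb'.2 ha'.2 hb'.1 ha'.1 hyb.symm hab.symm (by
        have e : ({b, x, a} : Finset α) = {x, a, b} := by clear * -; grind
        rw [e]; exact htri2) hNb hFb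
      -- hyperplane facts
      have hH : ∀ e, r (insert e (U \ {x, y, a, b})) = r U → ∀ Z, Z ⊆ U \ {x, y, a, b} →
          r (insert e Z) = r Z + 1 := by
        intro e he Z hZ
        have h1 := hr.step Z e
        have h2 := hr.mono Z (insert e Z) (Finset.subset_insert _ _)
        by_contra hh
        have h4 := hr.closure_mono hZ (e := e) (by omega)
        omega
      have hix : r (insert x (U \ {x, y, a, b})) = r U := by
        have e : insert x (U \ {x, y, a, b}) = U \ {y, a, b} := by
          clear * - hx hy' ha' hb'; grind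
        rw [e]; exact hnt
      have hia : r (insert a (U \ {x, y, a, b})) = r U := by
        have e : insert a (U \ {x, y, a, b}) = U \ {x, y, b} := by
          clear * - hya hab ha'; grind
        rw [e]; exact hcos y hy'.2 b hb'.2 hyb hy'.1 hb'.1
      have hib : r (insert b (U \ {x, y, a, b})) = r U := by
        have e : insert b (U \ {x, y, a, b}) = U \ {x, y, a} := by
          clear * - hyb hab hb'; grind
        rw [e]; exact hcos y hy'.2 a ha'.2 hya hy'.1 ha'.1
      have hiy : r (insert y (U \ {x, y, a, b})) = r U := by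
        have e : insert y (U \ {x, y, a, b}) = U \ {x, a, b} := by
          clear * - hya hyb hy'; grind
        rw [e]; exact hcos a ha'.2 b hb'.2 hab ha'.1 hb'.1
      -- equality of the contractions of a and x
      have hcong : ∀ Z, Z ⊆ ((U.erase x).erase y).erase a → con r {a} Z = con r {x} Z := by
        intro Z hZ
        rw [con_single, con_single, ra, rx]
        by_cases hbZ : b ∈ Z
        · have h1 : r (insert a (insert x Z)) = r (insert x Z) := by
            refine hr.closure_mono (A := {x, b}) (by clear * - hbZ; intro z hz; grind) ?_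
            have e : insert a {x, b} = ({x, a, b} : Finset α) := by clear * -; grind
            rw [e, htri2, (hpair x hx b hb'.2 hb'.1.symm).1]
          have h2 : r (insert x (insert a Z)) = r (insert a Z) := by
            refine hr.closure_mono (A := {a, b}) (by clear * - hbZ; intro z hz; grind) ?_
            have e : insert x {a, b} = ({x, a, b} : Finset α) := rfl
            rw [e, htri2, (hpair a ha'.2 b hb'.2 hab).1]
          rw [Finset.insert_comm] at h1
          omega
        · have hZ' : Z ⊆ U \ {x, y, a, b} := by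
            intro z hz
            have := hZ hz
            clear * - this hz hbZ; grind
          rw [hH a hia Z hZ', hH x hix Z hZ']
      have Gxx : G ∅ {x} := by
        have Gax : G {a} {x} := by
          have hym : y ∈ (U.erase a).erase x := by clear * - hy' hya; grind
          have e : ((U.erase a).erase x).erase y = ((U.erase x).erase y).erase a := by
            clear * -; grind
          refine S.bg_dc ha'.2 hx ha'.1 (ext_conn_bix (hr.con {x}) hym ?_
            (cp x hx y hy'.2 hy'.1) ?_) ?_
          · rw [e]; exact hN.congr hcong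
          · rw [con_single, con_single]
            have e1 : insert x (((U.erase a).erase x).erase y) = U \ {y, a} := by
              clear * - hx ha' hy'; grind
            have e2 : insert x ((U.erase a).erase x) = U.erase a := by clear * - hx ha'; grind
            rw [e1, e2, (hpair y hy'.2 a ha'.2 hya).2, (hsing a ha'.2).2]
          · have g2 := hF.congr S.hN hcong
            rw [← e] at g2; exact g2.of_erase
        refine S.ga.par ∅ {x} a b (by simp) (by simpa using hx) (by simp)
          (by simpa using ⟨ha'.2, ha'.1⟩) (by simpa using ⟨hb'.2, hb'.1⟩) hab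
          (cp x hx a ha'.2 ha'.1) (cp x hx b hb'.2 hb'.1) ?_ (by simpa using Gax)
        have e : insert x {a, b} = ({x, a, b} : Finset α) := rfl
        rw [con_single, e, htri2, rx]; ring
      have eW : U \ {x, y, a} = ((U.erase x).erase y).erase a := by clear * -; grind
      refine S.ng (S.ga.psl x a b y hx ha'.2 hb'.2 hy'.2 ha'.1.symm hb'.1.symm hy'.1.symm hab
        hya.symm hyb.symm htri2 (hpair x hx a ha'.2 ha'.1.symm).1
        (hpair x hx b hb'.2 hb'.1.symm).1 (hpair a ha'.2 b hb'.2 hab).1 haby hxay
        (by rw [eD]; exact hser) ?_ Ga Gb Gxx ?_ ?_)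
      · intro e he
        rw [eD]
        simp only [Finset.mem_insert, Finset.mem_singleton] at he
        rcases he with h | h | h | h
        · rw [h]; exact hix
        · rw [h]; exact hia
        · rw [h]; exact hib
        · rw [h]; exact hiy
      · rw [eW]; exact hN.conn
      · rw [eW]; exact hF

/-- Step 2: either `M \ x` is distinguished or there is `y` with `M \ x / y`, `M / y` 3-connected. -/
theorem GS.step2 : NN (U.erase x) r ∨ ∃ y ∈ U.erase x, Conn3 ((U.erase x).erase y) (con r {y}) ∧
    F NN ((U.erase x).erase y) (con r {y}) ∧ Conn3 (U.erase y) (con r {y}) := by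
  by_cases hn : NN (U.erase x) r
  · exact Or.inl hn
  right
  have hr := S.hr
  rcases W2 S.hN hr h3x hFx hn with ⟨y, hy, h1, h2⟩ | ⟨y, hy, h1, h2⟩ |
    ⟨y, hy, a, ha, b, hb, hya, hyb, hab, ht, h1, h2⟩ | ⟨y, hy, a, ha, b, hb, hya, hyb, hab, ht, h1, h2⟩
  · exact (S.case2A hx h3x hFx hy h1 h2).elim
  · exact ⟨y, hy, h1, h2, S.case2C hx h3x hFx hy h1 h2⟩
  · exact (S.case2B hx h3x hFx hy ha hb hya hyb hab ht h1 h2).elim
  · -- triangle {y,a,b} with M \ x \ a / y 3-connected
    exfalso
    have hc4 := h2.card_le S.hN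
    have hay : a ∈ (U.erase x).erase y := Finset.mem_erase.2 ⟨hya.symm, ha⟩
    rw [Finset.card_erase_of_mem hay, Finset.card_erase_of_mem hy, Finset.card_erase_of_mem hx] at hc4
    have hUx : (U.erase x).card = U.card - 1 := Finset.card_erase_of_mem hx
    have hym : y ∈ (U.erase x).erase a := Finset.mem_erase.2 ⟨hya, hy⟩
    have e : ((U.erase x).erase y).erase a = ((U.erase x).erase a).erase y :=
      Finset.erase_right_comm
    rw [e] at h1 h2
    have hF' : F NN ((U.erase x).erase a) r := h2.of_con_single hym
    by_cases h3' : Conn3 ((U.erase x).erase a) r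
    · exact S.case2A hx h3x hFx ha h3' hF'
    · have ry := (h3x.conn.single hr (by omega) hy).1
      have hpy := h3x.pair hr (by omega) hy ha hya
      have ra2 := (h3x.conn.single hr (by omega) ha).2
      have e3 : ((U.erase x).erase a).erase y = U.erase x \ {y, a} := by clear * -; grind
      have hcon : Conn ((U.erase x).erase a) r :=
        coext_conn hr hym h1.conn ry (by rw [e3, hpy.2, ra2])
      obtain ⟨s, hs, hl⟩ := coext_pair hr hym h1 hcon h3'
      have hs1 := Finset.mem_erase.1 hs
      have hs2 := Finset.mem_erase.1 hs1.2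
      have hps := h3x.pair hr (by omega) hy hs2.2 hs1.1.symm
      have e4 : (U.erase x).erase a \ {y, s} = U.erase x \ {a, y, s} := by clear * -; grind
      simp only [lam] at hl
      rw [hps.1, ra2, e4] at hl
      have h5 := hr.erase_le (U.erase x \ {y, a}) s
      have e5 : (U.erase x \ {y, a}).erase s = U.erase x \ {a, y, s} := by clear * -; grind
      rw [e5, hpy.2] at h5
      exact S.case2B hx h3x hFx ha hy hs2.2 hya.symm hs2.1.symm hs1.1.symm (by omega) h1 h2

end step2

end Pool.Agent.QU
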