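import Pool.Agent.QU.Core3

set_option linter.unusedVariables false
set_option linter.unusedSectionVars false
set_option linter.unusedTactic false
set_option linter.style.longLine false

/-! Core theorem, step 3 and conclusion. -/

namespace Pool.Agent.QU

variable {α : Type*} [DecidableEq α] {U : Finset α} {r : Finset α → ℤ}
variable {NN : Finset α → (Finset α → ℤ) → Prop} {G : Finset α → Finset α → Prop}

theorem Conn3.minor_dual (hr : RK r) {D K : Finset α} (hD : D ⊆ U) (hK : K ⊆ U)
    (hDK : Disjoint D K) (h : Conn3 (U \ (D ∪ K)) (con r D)) :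
    Conn3 (U \ (D ∪ K)) (con (QU.dl U r) K) :=
  (h.dl (hr.con D)).congr (fun A hA => (dual_minor hD hK hDK hA).symm)

theorem F.minor_dual (hN : NNax NN) (hr : RK r) {D K : Finset α} (hD : D ⊆ U) (hK : K ⊆ U)
    (hDK : Disjoint D K) (h : F NN (U \ (D ∪ K)) (con r D)) :
    F NN (U \ (D ∪ K)) (con (QU.dl U r) K) :=
  (h.dl hN (hr.con D)).congr hN (fun A hA => (dual_minor hD hK hDK hA).symm)

section step3

variable (S : GS NN U r G) {x y : α} (hx : x ∈ U) (hy : y ∈ U) (hxy : x ≠ y)
  (h3x : Conn3 (U.erase x) r) (h3y : Conn3 (U.erase y) (con r {y}))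
  (h3xy : Conn3 ((U.erase x).erase y) (con r {y}))
  (hFxy : F NN ((U.erase x).erase y) (con r {y}))

include S hx hy hxy h3x h3y h3xy hFxy

theorem GS.s3_card : 6 ≤ U.card := by
  have hc4 := hFxy.card_le S.hN
  rw [Finset.card_erase_of_mem (Finset.mem_erase.2 ⟨hxy.symm, hy⟩), Finset.card_erase_of_mem hx] at hc4
  omega

theorem GS.s3_Gx : G {x} ∅ :=
  S.bg_del hx ⟨h3x.conn, h3x.bix⟩ (hFxy.of_con_single (Finset.mem_erase.2 ⟨hxy.symm, hy⟩))

theorem GS.s3_Gy : G ∅ {y} := by
  refine S.bg_con hy ⟨h3y.conn, h3y.bix⟩ ?_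
  have e : (U.erase x).erase y = (U.erase y).erase x := Finset.erase_right_comm
  rw [e] at hFxy
  exact hFxy.of_erase

/-- if `M \ {x,g} / y` has `F` then `M \ g` is not gauged -/
theorem GS.s3_nG {g : α} (hg : g ∈ (U.erase x).erase y)
    (hF : F NN (((U.erase x).erase y).erase g) (con r {y})) : ¬ G {g} ∅ := by
  intro Gg
  have hr := S.hr
  have hU6 := S.s3_card hx hy hxy h3x h3y h3xy hFxy
  have Gx := S.s3_Gx hx hy hxy h3x h3y h3xy hFxy
  have hg1 := Finset.mem_erase.1 hg
  have hg2 := Finset.mem_erase.1 hg1.2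
  have hUx : (U.erase x).card = U.card - 1 := Finset.card_erase_of_mem hx
  refine S.ng (S.ga.pl x g hx hg2.2 hg2.1.symm (S.h3.pair hr (by omega) hx hg2.2 hg2.1.symm).2
    Gx Gg ?_ ?_)
  · rw [sdiff_pair]; exact h3x.conn_del hr (by omega) hg1.2
  · rw [sdiff_pair]
    have e : ((U.erase x).erase y).erase g = ((U.erase x).erase g).erase y :=
      Finset.erase_right_comm
    rw [e] at hF
    refine hF.of_con_single ?_
    clear * - hxy hy hg1; grind

theorem GS.s3_G_of {g : α} (hg : g ∈ (U.erase x).erase y)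
    (hF : F NN (((U.erase x).erase y).erase g) (con r {y}))
    (h : Conn3 ((U.erase y).erase g) (con r {y})) : G {g} ∅ := by
  have hr := S.hr
  have hU6 := S.s3_card hx hy hxy h3x h3y h3xy hFxy
  have hg1 := Finset.mem_erase.1 hg
  have hg2 := Finset.mem_erase.1 hg1.2
  have hyg : y ∈ U.erase g := Finset.mem_erase.2 ⟨hg1.1.symm, hy⟩
  have e : (U.erase y).erase g = (U.erase g).erase y := Finset.erase_right_comm
  rw [e] at h
  refine S.bg_del hg2.2 (coext_conn_bix hr hyg h (S.h3.conn.single hr (by omega) hy).1 ?_) ?_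
  · rw [← sdiff_pair, (S.h3.pair hr (by omega) hg2.2 hy hg1.1).2,
      (S.h3.conn.single hr (by omega) hg2.2).2]
  · have e2 : ((U.erase x).erase y).erase g ⊆ (U.erase g).erase y := by
      clear * -; intro z hz; grind
    exact (hF.of_subset e2).of_con_single hyg

theorem GS.case3A {g : α} (hg : g ∈ (U.erase x).erase y)
    (hN : Conn3 (((U.erase x).erase y).erase g) (con r {y}))
    (hF : F NN (((U.erase x).erase y).erase g) (con r {y})) : False := by
  have hr := S.hr
  have hry := hr.con {y}
  have hg1 := Finset.mem_erase.1 hg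
  have hg2 := Finset.mem_erase.1 hg1.2
  have hc4 := hF.card_le S.hN
  have hxyU : y ∈ U.erase x := Finset.mem_erase.2 ⟨hxy.symm, hy⟩
  rw [Finset.card_erase_of_mem hg, Finset.card_erase_of_mem hxyU, Finset.card_erase_of_mem hx] at hc4
  have hUy : (U.erase y).card = U.card - 1 := Finset.card_erase_of_mem hy
  refine S.s3_nG hx hy hxy h3x h3y h3xy hFxy hg hF
    (S.s3_G_of hx hy hxy h3x h3y h3xy hFxy hg hF ?_)
  by_contra hcon
  have hgy : g ∈ U.erase y := Finset.mem_erase.2 ⟨hg1.1, hg2.2⟩
  have hxg : x ∈ (U.erase y).erase g := by clear * - hx hxy hg2; grind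
  have e : ((U.erase y).erase g).erase x = ((U.erase x).erase y).erase g := by clear * -; grind
  have hcc : Conn ((U.erase y).erase g) (con r {y}) := h3y.conn_del hry (by omega) hgy
  obtain ⟨c, hc, hl⟩ := ext_pair hry hxg (by rw [e]; exact hN) hcc hcon
  have hc' := Finset.mem_erase.1 hc
  have hc2 := Finset.mem_erase.1 hc'.2
  have hxy' : x ∈ U.erase y := Finset.mem_erase.2 ⟨hxy, hx⟩
  have p1 := (h3y.pair hry (by omega) hxy' hc2.2 hc'.1.symm).1
  have p2 := (h3y.pair hry (by omega) hxy' hgy hg2.1.symm).2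
  have p3 := (h3y.conn.single hry (by omega) hgy).2
  have hcW : c ∈ ((U.erase x).erase y).erase g := by rw [← e]; exact hc
  have p4 := (hN.conn.single hry (by
    have := hF.card_le S.hN; omega) hcW).2
  have e2 : (((U.erase x).erase y).erase g).erase c = (U.erase y).erase g \ {x, c} := by
    clear * -; grind
  have e3 : ((U.erase x).erase y).erase g = U.erase y \ {x, g} := by clear * -; grind
  rw [e2] at p4
  rw [e3, p2] at p4
  simp only [lam] at hl
  rw [p1, p3, p4] at hl
  omega

theorem GS.case3B {g a b : α} (hg : g ∈ (U.erase x).erase y) (ha : a ∈ (U.erase x).erase y)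
    (hb : b ∈ (U.erase x).erase y) (hga : g ≠ a) (hgb : g ≠ b) (hab : a ≠ b)
    (ht : con r {y} ((U.erase x).erase y \ {g, a, b}) = con r {y} ((U.erase x).erase y) - 1)
    (hN : Conn3 ((((U.erase x).erase y).erase g).erase a) (con (con r {y}) {a}))
    (hF : F NN ((((U.erase x).erase y).erase g).erase a) (con (con r {y}) {a})) : False := by
  have hr := S.hr
  have h3 := S.h3
  have hry := hr.con {y}
  have hxyU : y ∈ U.erase x := Finset.mem_erase.2 ⟨hxy.symm, hy⟩
  have hg1 : g ∈ U ∧ g ≠ x ∧ g ≠ y := by clear * - hg; grind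
  have ha1 : a ∈ U ∧ a ≠ x ∧ a ≠ y := by clear * - ha; grind
  have hb1 : b ∈ U ∧ b ≠ x ∧ b ≠ y := by clear * - hb; grind
  have hc4 := hF.card_le S.hN
  have hc4' := hc4
  have haWg : a ∈ ((U.erase x).erase y).erase g := Finset.mem_erase.2 ⟨hga.symm, ha⟩
  rw [Finset.card_erase_of_mem haWg, Finset.card_erase_of_mem hg, Finset.card_erase_of_mem hxyU,
    Finset.card_erase_of_mem hx] at hc4'
  have hU8 : 8 ≤ U.card := by omega
  have hUy : (U.erase y).card = U.card - 1 := Finset.card_erase_of_mem hy
  have hUx : (U.erase x).card = U.card - 1 := Finset.card_erase_of_mem hx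
  have hpair : ∀ p ∈ U, ∀ q ∈ U, p ≠ q → r {p, q} = 2 ∧ r (U \ {p, q}) = r U :=
    fun p hp q hq hpq => h3.pair hr (by omega) hp hq hpq
  have hsing : ∀ p ∈ U, r {p} = 1 ∧ r (U.erase p) = r U :=
    fun p hp => h3.conn.single hr (by omega) hp
  have hpairy : ∀ p ∈ U, ∀ q ∈ U, p ≠ q → p ≠ y → q ≠ y → con r {y} {p, q} = 2 ∧
      con r {y} (U.erase y \ {p, q}) = con r {y} (U.erase y) :=
    fun p hp q hq hpq hpy hqy => h3y.pair hry (by omega) (Finset.mem_erase.2 ⟨hpy, hp⟩)
      (Finset.mem_erase.2 ⟨hqy, hq⟩) hpq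
  have hsingy : ∀ p ∈ U, p ≠ y → con r {y} {p} = 1 ∧
      con r {y} ((U.erase y).erase p) = con r {y} (U.erase y) :=
    fun p hp hpy => h3y.conn.single hry (by omega) (Finset.mem_erase.2 ⟨hpy, hp⟩)
  have ry := (hsing y hy).1
  have ra := (hsing a ha1.1).1
  have Gx := S.s3_Gx hx hy hxy h3x h3y h3xy hFxy
  have Gy := S.s3_Gy hx hy hxy h3x h3y h3xy hFxy
  have hFg : F NN (((U.erase x).erase y).erase g) (con r {y}) := hF.of_con_single haWg
  have nGg := S.s3_nG hx hy hxy h3x h3y h3xy hFxy hg hFg
  have n3 : ¬ Conn3 ((U.erase y).erase g) (con r {y}) := fun h =>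
    nGg (S.s3_G_of hx hy hxy h3x h3y h3xy hFxy hg hFg h)
  have rUy : con r {y} (U.erase y) = r U - 1 := by
    rw [con_single, ry, Finset.insert_erase hy]
  have hser : con r {y} (U.erase y \ {x, g, a, b}) = con r {y} (U.erase y) - 1 := by
    have e1 : U.erase y \ {x, g, a, b} = (U.erase x).erase y \ {g, a, b} := by clear * -; grind
    have e2 : (U.erase x).erase y = (U.erase y).erase x := Finset.erase_right_comm
    rw [e1, ht, e2, (hsingy x hx hxy).2]
  -- commuted forms of hN, hF
  have cc : con (con r {y}) {a} = con (con r {a}) {y} := by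
    rw [con_con, con_con, Finset.union_comm]
  -- (iii) triangle in M / y
  have htri : con r {y} {x, a, b} = 2 := by
    by_contra hne
    have htri3 : con r {y} {x, a, b} = 3 := by
      have h1 := hry.le_card {x, a, b}
      have h2 : ({x, a, b} : Finset α).card ≤ 3 := Finset.card_le_three
      have h4 := hry.mono {x, a} {x, a, b} (by clear * -; intro z hz; grind)
      rw [(hpairy x hx a ha1.1 ha1.2.1.symm hxy ha1.2.2).1] at h4
      omega
    by_cases hnt : con r {y} (U.erase y \ {g, a, b}) = con r {y} (U.erase y)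
    · apply n3
      have e1 : ((U.erase y).erase x).erase g = ((U.erase x).erase y).erase g := by
        clear * -; grind
      refine lemmaT hry h3y (x := x) (y := g) (a := a) (b := b)
        (Finset.mem_erase.2 ⟨hxy, hx⟩) (Finset.mem_erase.2 ⟨hg1.2.2, hg1.1⟩)
        (Finset.mem_erase.2 ⟨ha1.2.2, ha1.1⟩) (Finset.mem_erase.2 ⟨hb1.2.2, hb1.1⟩)
        hg1.2.1.symm ha1.2.1.symm hb1.2.1.symm hga hgb hab ?_ ?_ ?_ hser hnt htri3
      · rw [Finset.erase_right_comm]; exact h3xy
      · rw [e1]; exact hN
      · rw [e1]; exact hc4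
    · have hnt' : con r {y} (U.erase y \ {g, a, b}) = con r {y} (U.erase y) - 1 := by
        have h1 := hry.mono (U.erase y \ {g, a, b}) (U.erase y) Finset.sdiff_subset
        have h2 := hry.erase_le (U.erase y \ {g, a}) b
        have e : (U.erase y \ {g, a}).erase b = U.erase y \ {g, a, b} := by clear * -; grind
        rw [e, (hpairy g hg1.1 a ha1.1 hga hg1.2.2 ha1.2.2).2] at h2
        omega
      -- M' \ g / a is 3-connected
      obtain ⟨X, hX⟩ : ∃ X, X = ((U.erase y).erase g).erase a := ⟨_, rfl⟩
      have hra := hry.con {a}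
      have hxX : x ∈ X := by rw [hX]; clear * - hx hxy hg1 ha1; grind
      have eXx : X.erase x = (((U.erase x).erase y).erase g).erase a := by
        rw [hX]; clear * -; grind
      have cra := (hsingy a ha1.1 ha1.2.2).1
      have i1 : insert a X = (U.erase y).erase g := by
        rw [hX]; clear * - ha1 hga; grind
      have i2 : insert a (X.erase x) = U.erase y \ {x, g} := by
        rw [hX]; clear * - ha1 hga; grind
      have rX : con (con r {y}) {a} X = con r {y} (U.erase y) - 1 := by
        rw [con_single, cra, i1, (hsingy g hg1.1 hg1.2.2).2]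
      have rXx : con (con r {y}) {a} (X.erase x) = con r {y} (U.erase y) - 1 := by
        rw [con_single, cra, i2, (hpairy x hx g hg1.1 hg1.2.1.symm hxy hg1.2.2).2]
      have rx1 : con (con r {y}) {a} {x} = 1 := by
        rw [con_single, cra]
        have e : insert a {x} = ({a, x} : Finset α) := rfl
        rw [e, (hpairy a ha1.1 x hx ha1.2.1 ha1.2.2 hxy).1]; ring
      have h3X : Conn3 X (con (con r {y}) {a}) := by
        by_contra hn
        have hcX := ext_conn hra hxX (by rw [eXx]; exact hN.conn) rx1 (by rw [rXx, rX])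
        obtain ⟨c, hc, hl⟩ := ext_pair hra hxX (by rw [eXx]; exact hN) hcX hn
        have hc1 : c ∈ U ∧ c ≠ x ∧ c ≠ y ∧ c ≠ g ∧ c ≠ a := by
          rw [hX] at hc; clear * - hc; grind
        -- rank of {x,c}
        have r2 : con (con r {y}) {a} {x, c} = 2 := by
          rw [con_single, cra]
          have h1 := hry.le_card (insert a {x, c})
          have h2 : (insert a {x, c} : Finset α).card ≤ 3 := Finset.card_le_three
          have h4 := hry.mono {x, c} (insert a {x, c}) (Finset.subset_insert _ _)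
          rw [(hpairy x hx c hc1.1 hc1.2.1.symm hxy hc1.2.2.1).1] at h4
          by_contra hh
          have h5 : con r {y} (insert a {x, c}) = 2 := by omega
          by_cases hcb : c = b
          · have e : insert a {x, c} = ({x, a, b} : Finset α) := by rw [hcb]; clear * -; grind
            rw [e] at h5; omega
          · have h6 := hry.closure_mono (A := {x, c}) (B := U.erase y \ {g, a, b}) (e := a)
              (by clear * - hx hxy hg1 ha1 hb1 hc1 hcb; intro z hz; grind)
              (by rw [h5, (hpairy x hx c hc1.1 hc1.2.1.symm hxy hc1.2.2.1).1])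
            have e : insert a (U.erase y \ {g, a, b}) = U.erase y \ {g, b} := by
              clear * - ha1 hga hab; grind
            rw [e, (hpairy g hg1.1 b hb1.1 hgb hg1.2.2 hb1.2.2).2] at h6
            omega
        have hcN : c ∈ (((U.erase x).erase y).erase g).erase a := by rw [← eXx]; exact hc
        have p4 := (hN.conn.single hra (by omega) hcN).2
        have e2 : ((((U.erase x).erase y).erase g).erase a).erase c = X \ {x, c} := by
          rw [← eXx]; clear * -; grind
        rw [e2, ← eXx, rXx] at p4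
        simp only [lam] at hl
        rw [r2, rX, p4] at hl
        omega
      -- G {g} {a}
      have hyga : y ∈ (U.erase g).erase a := by clear * - hy hg1 ha1; grind
      have eX2 : ((U.erase g).erase a).erase y = X := by rw [hX]; clear * -; grind
      have Gga : G {g} {a} := by
        refine S.bg_dc hg1.1 ha1.1 hga (coext_conn_bix (hr.con {a}) hyga
          (by rw [eX2, ← cc]; exact h3X) ?_ ?_) ?_
        · rw [con_single, ra]
          have e : insert a {y} = ({a, y} : Finset α) := rfl
          rw [e, (hpair a ha1.1 y hy ha1.2.2).1]; ring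
        · rw [con_single, con_single]
          have e1 : insert a (((U.erase g).erase a).erase y) = U \ {g, y} := by
            clear * - ha1 hga; grind
          have e2 : insert a ((U.erase g).erase a) = U.erase g := by clear * - ha1 hga; grind
          rw [e1, e2, (hpair g hg1.1 y hy hg1.2.2).2, (hsing g hg1.1).2]
        · have hF2 : F NN (((U.erase g).erase a).erase y) (con (con r {a}) {y}) := by
            rw [← cc]
            exact hF.of_subset (by clear * -; intro z hz; grind)
          exact hF2.of_con_single hyga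
      apply nGg
      have rgab : r (U \ {g, a, b}) = r U - 1 := by
        rw [con_single, ry] at hnt'
        have e : insert y (U.erase y \ {g, a, b}) = U \ {g, a, b} := by
          clear * - hy hg1 ha1 hb1; grind
        rw [e, rUy] at hnt'
        omega
      have := S.gad.par ∅ {g} a b (by simp) (by simpa using hg1.1) (by simp)
        (by simpa using ⟨ha1.1, hga.symm⟩) (by simpa using ⟨hb1.1, hgb.symm⟩) hab
        (by
          rw [dl_erase U r hg1.1 (by simpa using ⟨hga.symm, ha1.1⟩), dl_single, ← sdiff_pair,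
            (hpair g hg1.1 a ha1.1 hga).2, (hsing g hg1.1).2]; ring)
        (by
          rw [dl_erase U r hg1.1 (by simpa using ⟨hgb.symm, hb1.1⟩), dl_single, ← sdiff_pair,
            (hpair g hg1.1 b hb1.1 hgb).2, (hsing g hg1.1).2]; ring)
        (by
          rw [dl_erase U r hg1.1 (by clear * - hga ha1 hgb hb1; intro z hz; grind), dl_pair hab]
          have e : U.erase g \ {a, b} = U \ {g, a, b} := by clear * -; grind
          rw [e, rgab, (hsing g hg1.1).2]; ring)
        (by simpa using Gga)
      exact this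
  -- ranks of the four element sets
  have rxya : r {x, y, a} = 3 := by
    have h1 := (hpairy x hx a ha1.1 ha1.2.1.symm hxy ha1.2.2).1
    rw [con_single, ry] at h1
    have e : insert y {x, a} = ({x, y, a} : Finset α) := by clear * -; grind
    rw [e] at h1; omega
  have rxyab : r {x, y, a, b} = 3 := by
    rw [con_single, ry] at htri
    have e : insert y {x, a, b} = ({x, y, a, b} : Finset α) := by clear * -; grind
    rw [e] at htri; omega
  -- facts about triples through y or x
  have triY : ∀ s ∈ U, ∀ t ∈ U, s ≠ t → s ≠ y → t ≠ y → r {y, s, t} = 3 := by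
    intro s hs t ht hst hsy hty
    have h1 := (hpairy s hs t ht hst hsy hty).1
    rw [con_single, ry] at h1
    have e : insert y {s, t} = ({y, s, t} : Finset α) := rfl
    rw [e] at h1; omega
  have cosX : ∀ s ∈ U, ∀ t ∈ U, s ≠ t → s ≠ x → t ≠ x → r (U \ {x, s, t}) = r U := by
    intro s hs t ht hst hsx htx
    have := (h3x.pair hr (by omega) (Finset.mem_erase.2 ⟨hsx, hs⟩) (Finset.mem_erase.2 ⟨htx, ht⟩) hst).2
    have e : U.erase x \ {s, t} = U \ {x, s, t} := by clear * -; grind
    rw [e, (hsing x hx).2] at this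
    exact this
  have hmix : ∀ X, X ⊆ U \ {x, y} → r (insert x X) = r X → r (insert y X) = r X + 1 → False := by
    intro X hX h1 h2
    refine S.ng (S.ga.mix x y X hx hy hxy Gx Gy ?_ ?_ hX h1 h2)
    · rw [sdiff_pair]; exact h3xy.conn
    · rw [sdiff_pair]; exact hFxy
  have triX : ∀ s ∈ U, ∀ t ∈ U, s ≠ t → s ≠ y → t ≠ y → s ≠ x → t ≠ x → r {x, s, t} = 3 := by
    intro s hs t ht hst hsy hty hsx htx
    by_contra hne
    have h1 := hr.le_card {x, s, t}
    have h2 : ({x, s, t} : Finset α).card ≤ 3 := Finset.card_le_three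
    have h4 := hr.mono {s, t} {x, s, t} (by clear * -; intro z hz; grind)
    rw [(hpair s hs t ht hst).1] at h4
    refine hmix {s, t} (by clear * - hs ht hsx hsy htx hty; intro z hz; grind) ?_ ?_
    · rw [(hpair s hs t ht hst).1]
      have e : insert x {s, t} = ({x, s, t} : Finset α) := rfl
      rw [e]; omega
    · rw [(hpair s hs t ht hst).1]
      exact triY s hs t ht hst hsy hty
  have cosY : ∀ s ∈ U, ∀ t ∈ U, s ≠ t → s ≠ y → t ≠ y → s ≠ x → t ≠ x →
      r (U \ {y, s, t}) = r U := by
    intro s hs t ht hst hsy hty hsx htx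
    by_contra hne
    have h1 := hr.mono (U \ {y, s, t}) U Finset.sdiff_subset
    have h2 := hr.erase_le (U \ {y, s}) t
    have e : (U \ {y, s}).erase t = U \ {y, s, t} := by clear * -; grind
    rw [e, (hpair y hy s hs hsy.symm).2] at h2
    have e1 : insert x (U \ {x, y, s, t}) = U \ {y, s, t} := by
      clear * - hx hxy hsx htx; grind
    have e2 : insert y (U \ {x, y, s, t}) = U \ {x, s, t} := by
      clear * - hy hxy hsy hty; grind
    have h3 := cosX s hs t ht hst hsx htx
    have h4 := hr.step (U \ {x, y, s, t}) y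
    have h5 := hr.mono (U \ {x, y, s, t}) (U \ {y, s, t}) (by clear * -; intro z hz; grind)
    rw [e2, h3] at h4
    refine hmix (U \ {x, y, s, t}) (by clear * -; intro z hz; grind) ?_ ?_
    · rw [e1]; omega
    · rw [e2, h3]; omega
  -- (v) M / a is not gauged
  have nGa : ¬ G ∅ {a} := by
    intro Ga
    have hU : dl U r U = U.card - r U := by simp [dl, hr.empty]
    have hya : ({y, a} : Finset α) ⊆ U := by clear * - hy ha1; intro z hz; grind
    have hyac : ({y, a} : Finset α).card = 2 := Finset.card_pair ha1.2.2.symm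
    have hcc := card_compl hya
    have eU : U \ ({y, a} ∪ ∅) = U \ {y, a} := by clear * -; grind
    have dm : ∀ A, A ⊆ U \ {y, a} → dl U r A = dl (U \ {y, a}) (con r {y, a}) A := by
      intro A hA
      have := dual_minor (U := U) (r := r) (D := {y, a}) (K := ∅) hya (by simp) (by simp) (A := A)
        (by rw [eU]; exact hA)
      rw [eU, con_empty _ (hr.dl U).empty] at this
      exact this
    have cya : con (con r {y}) {a} = con r {y, a} := by
      rw [con_con]; rfl
    refine S.ng (S.gad.pl y a hy ha1.1 ha1.2.2.symm ?_ Gy Ga ?_ ?_)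
    · rw [hU]
      simp only [dl, Finset.sdiff_sdiff_eq_self hya, (hpair y hy a ha1.1 ha1.2.2.symm).1]
      omega
    · refine (Conn.dl (hr.con {y, a}) ?_).congr (fun A hA => (dm A hA).symm)
      rw [sdiff_pair, ← cya]
      exact h3y.conn_con hry (by omega) (Finset.mem_erase.2 ⟨ha1.2.2, ha1.1⟩)
    · refine (F.dl S.hN (hr.con {y, a}) ?_).congr S.hN (fun A hA => (dm A hA).symm)
      rw [sdiff_pair, ← cya]
      exact hF.of_subset (by clear * -; intro z hz; grind)
  -- (vi) M / a is not Bix
  have hca := h3.conn_con hr (by omega) ha1.1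
  have nB : ¬ Bix (U.erase a) (con r {a}) := by
    intro hB
    apply nGa
    refine S.bg_con ha1.1 ⟨hca, hB⟩ ?_
    have hya : y ∈ U.erase a := Finset.mem_erase.2 ⟨ha1.2.2.symm, hy⟩
    refine F.of_con_single hya ?_
    rw [← cc]
    exact hF.of_subset (by clear * -; intro z hz; grind)
  simp only [Bix, not_forall, not_or, not_le] at nB
  obtain ⟨A0, hA0, hl0, h1, h2⟩ := nB
  obtain ⟨W3, hW3⟩ : ∃ W3, W3 = (((U.erase x).erase y).erase g).erase a := ⟨_, rfl⟩
  rw [← hW3] at hN
  have : ∃ W, W ⊆ U.erase a ∧ lam (U.erase a) (con r {a}) W ≤ 1 ∧ 3 ≤ W.card ∧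
      3 ≤ (U.erase a \ W).card ∧ (W3 ∩ W).card ≤ 1 := by
    have m := lam_minor (U := U.erase a) (S := W3) (K := {y}) (A := A0) (hr.con {a})
      (by rw [hW3]; clear * -; intro z hz; grind) (by
        have := ha1.2.2; clear * - this hy; intro z hz; grind)
    rw [Finset.inter_eq_left.2 hA0, ← cc] at m
    rcases hN.sep (W3 ∩ A0) Finset.inter_subset_left (by omega) with hs | hs
    · exact ⟨A0, hA0, hl0, by omega, by omega, hs⟩
    · refine ⟨U.erase a \ A0, Finset.sdiff_subset, by rw [lam_compl _ _ hA0]; exact hl0, by omega,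
        by rw [Finset.sdiff_sdiff_eq_self hA0]; omega, ?_⟩
      have e : W3 \ (W3 ∩ A0) = W3 ∩ (U.erase a \ A0) := by
        rw [hW3]; clear * -; grind
      rw [e] at hs; exact hs
  clear h1 h2 hl0 hA0 A0
  obtain ⟨W, hW, hl, hW3c, hWc, hT⟩ := this
  have hWU : W ⊆ U := hW.trans (Finset.erase_subset _ _)
  have eW : insert a (U.erase a \ W) = U \ W := by
    have h1 := ha1.1
    have h2 : a ∉ W := fun h => (Finset.mem_erase.1 (hW h)).1 rfl
    clear * - h1 h2; grind
  have hWc' : 3 ≤ (U \ W).card := by
    rw [← eW]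
    exact hWc.trans (Finset.card_le_card (Finset.subset_insert _ _))
  have hl2 := h3.two_le hWU (by omega) (by omega)
  simp only [lam, con_single, ra, eW, Finset.insert_erase ha1.1] at hl
  have hmW := hr.mono W (insert a W) (Finset.subset_insert _ _)
  have q1 : r (insert a W) = r W := by omega
  have q2 : r W + r (U \ W) = r U + 2 := by omega
  -- three-element sets
  have no3 : ∀ p q s : α, W = {p, q, s} → r {p, q, s} = 3 → r (U \ {p, q, s}) = r U → False := by
    intro p q s h h1 h2
    rw [h, h1, h2] at q2; omega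
  have haW : a ∉ W := fun h => (Finset.mem_erase.1 (hW h)).1 rfl
  rcases Nat.lt_or_ge (W3 ∩ W).card 1 with hc | hc
  · have hT0 : W3 ∩ W = ∅ := by rw [← Finset.card_eq_zero]; omega
    have hsub : W ⊆ {x, y, g} := by
      intro z hz
      have h1 : z ∉ W3 ∩ W := by rw [hT0]; simp
      have h2 := hWU hz
      rw [hW3] at h1
      clear * - h1 h2 hz haW; grind
    have hWe : W = {x, y, g} := by
      refine Finset.eq_of_subset_of_card_le hsub ?_
      have : ({x, y, g} : Finset α).card ≤ 3 := Finset.card_le_three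
      omega
    refine no3 x y g hWe ?_ (cosX y hy g hg1.1 hg1.2.2.symm hxy.symm hg1.2.1)
    have e : ({x, y, g} : Finset α) = {y, x, g} := by clear * -; grind
    rw [e]; exact triY x hx g hg1.1 hg1.2.1.symm hxy hg1.2.2
  · obtain ⟨w, hw⟩ := Finset.card_eq_one.1 (show (W3 ∩ W).card = 1 by omega)
    have hwm : w ∈ W3 ∩ W := by rw [hw]; simp
    have hw1 : w ∈ U ∧ w ≠ x ∧ w ≠ y ∧ w ≠ g ∧ w ≠ a ∧ w ∈ W := by
      rw [hW3] at hwm; clear * - hwm; grind
    have h1 : ∀ z, z ∈ W3 ∩ W ↔ z = w := by intro z; rw [hw]; simp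
    rw [hW3] at h1
    have hsub : W ⊆ {x, y, g, w} := by
      intro z hz
      have h2 := h1 z
      have h3 := hWU hz
      clear * - h2 h3 hz haW; grind
    by_cases hxW : x ∈ W <;> by_cases hyW : y ∈ W <;> by_cases hgW : g ∈ W
    · -- all four
      have hWe : W = {x, y, g, w} := by
        clear * - hsub hxW hyW hgW hw1; grind
      have hw4 : ({x, y, g, w} : Finset α).card = 4 := by
        clear * - hxy hg1 hw1; grind
      have l4 := hr.le_card W
      rw [hWe, hw4] at l4
      have t1 := triY x hx g hg1.1 hg1.2.1.symm hxy hg1.2.2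
      have m1 := hr.mono {y, x, g} W (by rw [hWe]; clear * -; intro z hz; grind)
      rcases (show r W = 3 ∨ r W = 4 by rw [hWe] at m1 ⊢; push_cast at l4; omega) with h4 | h4
      · -- rank 3
        have c1 := hr.closure_mono (A := {x, y, a}) (B := insert a W) (e := b)
          (by clear * - hxW hyW; intro z hz; grind) (by
            have e : insert b {x, y, a} = ({x, y, a, b} : Finset α) := by clear * -; grind
            rw [e, rxyab, rxya])
        have m2 := hr.mono {y, x, g, a, b} (insert b (insert a W)) (by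
          clear * - hxW hyW hgW; intro z hz; grind)
        have hsub4 : ({x, g, a, b} : Finset α) ⊆ U.erase y := by
          clear * - hx hxy hg1 ha1 hb1; intro z hz; grind
        have hc4 : ({x, g, a, b} : Finset α).card = 4 := by
          clear * - hg1 ha1 hb1 hga hgb hab; grind
        have hcc := card_compl hsub4
        have t2 := h3y.two_le hsub4 (by omega) (by omega)
        have e : con r {y} {x, g, a, b} = r {y, x, g, a, b} - 1 := by
          rw [con_single, ry]
        rw [hser, e] at t2
        omega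
      · -- rank 4
        have e : insert y (U \ {x, y, g, w}) = U \ {x, g, w} := by
          clear * - hy hxy hg1 hw1; grind
        have st := hr.step (U \ {x, y, g, w}) y
        rw [e, cosX g hg1.1 w hw1.1 hw1.2.2.2.1.symm hg1.2.1 hw1.2.1] at st
        rw [hWe] at q2 h4
        omega
    · have hWe : W = {x, y, w} := by
        clear * - hsub hxW hyW hgW hw1; grind
      refine no3 x y w hWe ?_ (cosX y hy w hw1.1 hw1.2.2.1.symm hxy.symm hw1.2.1)
      have e : ({x, y, w} : Finset α) = {y, x, w} := by clear * -; grind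
      rw [e]; exact triY x hx w hw1.1 hw1.2.1.symm hxy hw1.2.2.1
    · have hWe : W = {x, g, w} := by
        clear * - hsub hxW hyW hgW hw1; grind
      exact no3 x g w hWe
        (triX g hg1.1 w hw1.1 hw1.2.2.2.1.symm hg1.2.2 hw1.2.2.1 hg1.2.1 hw1.2.1)
        (cosX g hg1.1 w hw1.1 hw1.2.2.2.1.symm hg1.2.1 hw1.2.1)
    · have : W ⊆ {x, w} := by clear * - hsub hyW hgW; intro z hz; have := hsub hz; grind
      have := Finset.card_le_card this
      have h2 : ({x, w} : Finset α).card ≤ 2 := Finset.card_le_two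
      omega
    · have hWe : W = {y, g, w} := by
        clear * - hsub hxW hyW hgW hw1; grind
      exact no3 y g w hWe
        (triY g hg1.1 w hw1.1 hw1.2.2.2.1.symm hg1.2.2 hw1.2.2.1)
        (cosY g hg1.1 w hw1.1 hw1.2.2.2.1.symm hg1.2.2 hw1.2.2.1 hg1.2.1 hw1.2.1)
    · have : W ⊆ {y, w} := by clear * - hsub hxW hgW; intro z hz; have := hsub hz; grind
      have := Finset.card_le_card this
      have h2 : ({y, w} : Finset α).card ≤ 2 := Finset.card_le_two
      omega
    · have : W ⊆ {g, w} := by clear * - hsub hxW hyW; intro z hz; have := hsub hz; grind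
      have := Finset.card_le_card this
      have h2 : ({g, w} : Finset α).card ≤ 2 := Finset.card_le_two
      omega
    · have : W ⊆ {w} := by clear * - hsub hxW hyW hgW; intro z hz; have := hsub hz; grind
      have := Finset.card_le_card this
      have h2 : ({w} : Finset α).card = 1 := Finset.card_singleton w
      omega

end step3

/-- Step 3: `M \ x / y` is distinguished. -/
theorem GS.step3 (S : GS NN U r G) {x y : α} (hx : x ∈ U) (hy : y ∈ U) (hxy : x ≠ y)
    (h3x : Conn3 (U.erase x) r) (h3y : Conn3 (U.erase y) (con r {y}))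
    (h3xy : Conn3 ((U.erase x).erase y) (con r {y}))
    (hFxy : F NN ((U.erase x).erase y) (con r {y})) : NN ((U.erase x).erase y) (con r {y}) := by
  by_contra hn
  have hr := S.hr
  have hry := hr.con {y}
  -- dual data
  have d1 : Conn3 (U.erase y) (dl U r) := h3y.to_dual_del hr hy
  have d2 : Conn3 (U.erase x) (con (dl U r) {x}) := h3x.to_dual_con hr hx
  have e0 : (U.erase x).erase y = U \ ({y} ∪ {x}) := by clear * -; grind
  have e1 : (U.erase y).erase x = U \ ({y} ∪ {x}) := by clear * -; grind
  have hyx : Disjoint ({y} : Finset α) {x} := by simpa using hxy.symm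
  have d3 : Conn3 ((U.erase y).erase x) (con (dl U r) {x}) := by
    rw [e1]; exact Conn3.minor_dual hr (by simpa using hy) (by simpa using hx) hyx (by rw [← e0]; exact h3xy)
  have d4 : F NN ((U.erase y).erase x) (con (dl U r) {x}) := by
    rw [e1]; exact F.minor_dual S.hN hr (by simpa using hy) (by simpa using hx) hyx (by rw [← e0]; exact hFxy)
  rcases W2 S.hN hry h3xy hFxy hn with ⟨g, hg, h1, h2⟩ | ⟨g, hg, h1, h2⟩ |
    ⟨g, hg, a, ha, b, hb, hga, hgb, hab, ht, h1, h2⟩ | ⟨g, hg, a, ha, b, hb, hga, hgb, hab, ht, h1, h2⟩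
  · exact S.case3A hx hy hxy h3x h3y h3xy hFxy hg h1 h2
  · -- dual of 3A
    have hg1 : g ∈ U ∧ g ≠ x ∧ g ≠ y := by clear * - hg; grind
    have e2 : ((U.erase x).erase y).erase g = U \ ({y, g} ∪ {x}) := by clear * -; grind
    have e3 : ((U.erase y).erase x).erase g = U \ ({y, g} ∪ {x}) := by clear * -; grind
    have hcg : con (con r {y}) {g} = con r {y, g} := by rw [con_con]; rfl
    have hsub : ({y, g} : Finset α) ⊆ U := by clear * - hy hg1; intro z hz; grind
    have hdis : Disjoint ({y, g} : Finset α) {x} := by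
      rw [Finset.disjoint_left]; clear * - hxy hg1; intro z hz; grind
    rw [e2, hcg] at h1 h2
    refine S.dual.case3A hy hx hxy.symm d1 d2 d3 d4 (g := g) ?_ ?_ ?_
    · clear * - hg; grind
    · rw [e3]; exact Conn3.minor_dual hr hsub (by simpa using hx) hdis h1
    · rw [e3]; exact F.minor_dual S.hN hr hsub (by simpa using hx) hdis h2
  · exact S.case3B hx hy hxy h3x h3y h3xy hFxy hg ha hb hga hgb hab ht h1 h2
  · -- dual of 3B
    have hg1 : g ∈ U ∧ g ≠ x ∧ g ≠ y := by clear * - hg; grind
    have ha1 : a ∈ U ∧ a ≠ x ∧ a ≠ y := by clear * - ha; grind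
    have hb1 : b ∈ U ∧ b ≠ x ∧ b ≠ y := by clear * - hb; grind
    have e2 : (((U.erase x).erase y).erase g).erase a = U \ ({y, g} ∪ {x, a}) := by
      clear * -; grind
    have e3 : (((U.erase y).erase x).erase g).erase a = U \ ({y, g} ∪ {x, a}) := by
      clear * -; grind
    have hcg : con (con r {y}) {g} = con r {y, g} := by rw [con_con]; rfl
    have hcx : con (con (dl U r) {x}) {a} = con (dl U r) {x, a} := by rw [con_con]; rfl
    have hsub : ({y, g} : Finset α) ⊆ U := by clear * - hy hg1; intro z hz; grind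
    have hsub2 : ({x, a} : Finset α) ⊆ U := by clear * - hx ha1; intro z hz; grind
    have hdis : Disjoint ({y, g} : Finset α) {x, a} := by
      rw [Finset.disjoint_left]; clear * - hxy hg1 ha1 hga; intro z hz; grind
    rw [e2, hcg] at h1 h2
    have hgm : g ∈ (U.erase y).erase x := by clear * - hg; grind
    have ham : a ∈ (U.erase y).erase x := by clear * - ha; grind
    have hbm : b ∈ (U.erase y).erase x := by clear * - hb; grind
    refine S.dual.case3B hy hx hxy.symm d1 d2 d3 d4 (g := g) (a := a) (b := b) hgm ham hbm hga hgb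
      hab ?_ ?_ ?_
    · have hs3 : ({g, a, b} : Finset α) ⊆ (U.erase y).erase x := by
        clear * - hgm ham hbm; intro z hz; grind
      have hc3 : ({g, a, b} : Finset α).card = 3 := by clear * - hga hgb hab; grind
      have dm : ∀ A, A ⊆ (U.erase y).erase x →
          con (dl U r) {x} A = dl ((U.erase y).erase x) (con r {y}) A := by
        intro A hA
        rw [e1] at hA ⊢
        exact dual_minor (by simpa using hy) (by simpa using hx) hyx hA
      rw [dm _ Finset.sdiff_subset, dm _ (Finset.Subset.refl _)]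
      have hcc := card_compl hs3
      simp only [dl, Finset.sdiff_sdiff_eq_self hs3, Finset.sdiff_self, hry.empty, ht]
      omega
    · rw [e3, hcx]; exact Conn3.minor_dual hr hsub hsub2 hdis h1
    · rw [e3, hcx]; exact F.minor_dual S.hN hr hsub hsub2 hdis h2

/-- conclusion of the core theorem -/
def CoreC (NN : Finset α → (Finset α → ℤ) → Prop) (U : Finset α) (r : Finset α → ℤ) : Prop :=
  (∃ x ∈ U, NN (U.erase x) r) ∨ (∃ x ∈ U, NN (U.erase x) (con r {x})) ∨
  ∃ x ∈ U, ∃ y ∈ U, x ≠ y ∧ NN ((U.erase x).erase y) (con r {y}) ∧ Conn3 (U.erase x) r ∧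
    Conn3 (U.erase y) (con r {y})

theorem GS.core_alpha (S : GS NN U r G) {x : α} (hx : x ∈ U) (h3x : Conn3 (U.erase x) r)
    (hFx : F NN (U.erase x) r) : CoreC NN U r := by
  rcases S.step2 hx h3x hFx with h | ⟨y, hy, h1, h2, h3⟩
  · exact Or.inl ⟨x, hx, h⟩
  · have hy' := Finset.mem_erase.1 hy
    exact Or.inr (Or.inr ⟨x, hx, y, hy'.2, hy'.1.symm,
      S.step3 hx hy'.2 hy'.1.symm h3x h3 h1 h2, h3x, h3⟩)

theorem CoreC.of_dl (hN : NNax NN) (hr : RK r) (h : CoreC NN U (QU.dl U r)) : CoreC NN U r := by
  rcases h with ⟨x, hx, h⟩ | ⟨x, hx, h⟩ | ⟨x, hx, y, hy, hxy, h1, h2, h3⟩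
  · right; left
    refine ⟨x, hx, ?_⟩
    have h1 := hN.dual _ _ (hr.dl U) h
    refine hN.congr _ _ _ ?_ h1
    intro A hA
    have : dl (U.erase x) (dl U r) A = dl (U.erase x) (dl (U.erase x) (con r {x})) A := by
      simp only [dl]
      rw [← dl.eq_def U r, ← dl.eq_def U r, dl_con U r hx (A := U.erase x \ A) Finset.sdiff_subset,
        dl_con U r hx (A := U.erase x) (Finset.Subset.refl _)]
      simp only [dl]
    rw [this, dl_dl _ (hr.con {x}).empty hA]
  · left
    refine ⟨x, hx, ?_⟩
    have h1 := hN.congr _ _ _ (fun A hA => dl_erase U r hx hA) h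
    have h2 := hN.dual _ _ (hr.dl _) h1
    exact hN.congr _ _ _ (fun A hA => dl_dl _ hr.empty hA) h2
  · right; right
    refine ⟨y, hy, x, hx, hxy.symm, ?_, h3.dual_con hr hy, h2.dual_del hr hx⟩
    have e0 : (U.erase x).erase y = U \ ({x} ∪ {y}) := by clear * -; grind
    have e1 : (U.erase y).erase x = U \ ({x} ∪ {y}) := by clear * -; grind
    have hdis : Disjoint ({x} : Finset α) {y} := by simpa using hxy
    rw [e0] at h1
    rw [e1]
    have h4 := hN.congr _ _ _ (fun A hA => dual_minor (r := r) (by simpa using hx)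
      (by simpa using hy) hdis hA) h1
    have h5 := hN.dual _ _ ((hr.con {x}).dl _) h4
    exact hN.congr _ _ _ (fun A hA => dl_dl _ (hr.con {x}).empty hA) h5

/-- The core theorem. -/
theorem GS.core (S : GS NN U r G) (hn : ¬ NN U r) : CoreC NN U r := by
  have hr := S.hr
  rcases W2 S.hN hr S.h3 S.hF hn with ⟨x, hx, h1, h2⟩ | ⟨x, hx, h1, h2⟩ |
    ⟨x, hx, a, ha, b, hb, hxa, hxb, hab, ht, h1, h2⟩ | ⟨x, hx, a, ha, b, hb, hxa, hxb, hab, ht, h1, h2⟩
  · exact S.core_alpha hx h1 h2
  · exact (S.dual.core_alpha hx (h1.to_dual_del hr hx) (h2.to_dual_del hr hx S.hN)).of_dl S.hN hr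
  · exact (S.no_triad hx ha hb hxa hxb hab ht h1 h2).elim
  · exact (S.no_tri hx ha hb hxa hxb hab ht h1 h2).elim

end Pool.Agent.QU
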