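import Pool.Agent.QU.Keep

set_option linter.unusedVariables false
set_option linter.unusedSectionVars false
set_option linter.style.longLine false

/-! Quaternionic chain groups: basic definitions. -/

open Quaternion

namespace Pool.Agent.QU

variable {E : Type*} [Fintype E] [DecidableEq E]

/-- chain groups over the quaternions on `E` (left submodules). -/
abbrev CG (E : Type*) := Submodule ℍ[ℝ] (E → ℍ[ℝ])

/-- elementary chain: nonzero, with inclusion-minimal support. -/
def Elem (V : CG E) (c : E → ℍ[ℝ]) : Prop :=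
  c ∈ V ∧ c ≠ 0 ∧ ∀ d ∈ V, d ≠ 0 → (∀ e, c e = 0 → d e = 0) → ∀ e, d e = 0 → c e = 0

/-- quaternionic unimodular chain group. -/
def IsQU (V : CG E) : Prop :=
  ∀ c, Elem V c → ∀ a b, c a ≠ 0 → c b ≠ 0 → ‖c a‖ = ‖c b‖

/-- all chains are supported in `U`. -/
def SuppIn (V : CG E) (U : Finset E) : Prop := ∀ c ∈ V, ∀ e, e ∉ U → c e = 0

/-- chains vanishing on `A`. -/
noncomputable def vanish (A : Finset E) : CG E where
  carrier := {c | ∀ e ∈ A, c e = 0}
  add_mem' := by intro a b ha hb e he; simp [ha e he, hb e he]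
  zero_mem' := by intro e he; rfl
  smul_mem' := by intro x c hc e he; simp [hc e he]

/-- the linear map setting the coordinates in `D` to zero. -/
noncomputable def zeroOn (D : Finset E) : (E → ℍ[ℝ]) →ₗ[ℍ[ℝ]] (E → ℍ[ℝ]) where
  toFun c e := if e ∈ D then 0 else c e
  map_add' := by intro a b; funext e; by_cases h : e ∈ D <;> simp [h]
  map_smul' := by intro x c; funext e; by_cases h : e ∈ D <;> simp [h]

/-- rank function of the matroid of `V` (cocircuits = supports of elementary chains). -/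
noncomputable def rk (V : CG E) (A : Finset E) : ℤ :=
  (Module.finrank ℍ[ℝ] V : ℤ) - (Module.finrank ℍ[ℝ] (V ⊓ vanish A : CG E) : ℤ)

/-- the minor obtained by deleting `D` and contracting `K` (deleted and contracted elements
become loops). -/
noncomputable def mino (V : CG E) (D K : Finset E) : CG E := (V ⊓ vanish K).map (zeroOn D)

/-- the orthogonal chain group, relative to the ground set `U`. -/
noncomputable def perp (U : Finset E) (V : CG E) : CG E where
  carrier := {d | (∀ e, e ∉ U → d e = 0) ∧ ∀ c ∈ V, ∑ e, c e * star (d e) = 0}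
  add_mem' := by
    intro a b ha hb
    refine ⟨fun e he => by simp [ha.1 e he, hb.1 e he], fun c hc => ?_⟩
    simp only [Pi.add_apply, star_add, mul_add, Finset.sum_add_distrib, ha.2 c hc, hb.2 c hc,
      add_zero]
  zero_mem' := by
    refine ⟨fun e he => rfl, fun c hc => ?_⟩
    simp
  smul_mem' := by
    intro x d hd
    refine ⟨fun e he => by simp [hd.1 e he], fun c hc => ?_⟩
    simp only [Pi.smul_apply, smul_eq_mul, star_mul, ← mul_assoc]
    rw [← Finset.sum_mul, hd.2 c hc, zero_mul]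

/-- `(B, f)` is a frame of `V`: `B` is a basis of the matroid and the `f x` (`x ∈ B`) are the
fundamental cocircuit chains. -/
structure Frame (V : CG E) (B : Finset E) (f : E → E → ℍ[ℝ]) : Prop where
  mem : ∀ x ∈ B, f x ∈ V
  one : ∀ x ∈ B, f x x = 1
  zero : ∀ x ∈ B, ∀ y ∈ B, x ≠ y → f x y = 0
  inj : ∀ c ∈ V, (∀ x ∈ B, c x = 0) → c = 0

/-- `g` is a gauge for `V` with values in the ring `R`. -/
def Gauged (R : Subring ℍ[ℝ]) (V : CG E) (g : E → ℍ[ℝ]) : Prop :=
  (∀ e, ‖g e‖ = 1) ∧ ∀ c, Elem V c → ∀ a, c a ≠ 0 → ∀ b, (g a)⁻¹ * (c a)⁻¹ * c b * g b ∈ R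

/-- two chain groups have the same supports of elementary chains. -/
def SameSupp (V V' : CG E) : Prop :=
  ∀ S : Set E, (∃ c, Elem V c ∧ Function.support c = S) ↔
    (∃ c, Elem V' c ∧ Function.support c = S)

/-- every elementary chain is a left multiple of a `G`-primitive chain. -/
def PrimGen (G : Subgroup (ℍ[ℝ])ˣ) (V : CG E) : Prop :=
  ∀ c, Elem V c → ∃ (x : ℍ[ℝ]) (c' : E → ℍ[ℝ]), c' ∈ V ∧ c = x • c' ∧
    ∀ e, c' e = 0 ∨ ∃ u ∈ G, c' e = (u : ℍ[ℝ])

/-- uniform matroid of rank `k`. -/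
def Unif (k : ℤ) (U : Finset E) (r : Finset E → ℤ) : Prop := ∀ A, A ⊆ U → r A = min (A.card : ℤ) k

/-- `P₆`: rank 3, six elements, exactly one three-point line. -/
def IsP6 (U : Finset E) (r : Finset E → ℤ) : Prop :=
  U.card = 6 ∧ ∃ T, T ⊆ U ∧ T.card = 3 ∧ ∀ A, A ⊆ U → r A = if A = T then 2 else min (A.card : ℤ) 3

def NN1 (U : Finset E) (r : Finset E → ℤ) : Prop := U.card = 4 ∧ Unif 2 U r
def NN2 (U : Finset E) (r : Finset E → ℤ) : Prop := U.card = 5 ∧ (Unif 2 U r ∨ Unif 3 U r)
def NN3 (U : Finset E) (r : Finset E → ℤ) : Prop :=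
  U.card = 6 ∧ (Unif 2 U r ∨ Unif 4 U r ∨ IsP6 U r)

/-- All square submatrices with at most `k+1` rows have Dieudonne norm 0 or 1
(iterated Schur complements). -/
noncomputable def QUS {m n : Type*} [DecidableEq m] [DecidableEq n] : ℕ → (m → n → ℍ[ℝ]) → Prop
  | 0, A => ∀ i j, A i j = 0 ∨ ‖A i j‖ = 1
  | k + 1, A => (∀ i j, A i j = 0 ∨ ‖A i j‖ = 1) ∧
      ∀ i j, A i j ≠ 0 → QUS k (fun i' j' => if i' = i ∨ j' = j then 0 else
        A i' j' - A i' j * (A i j)⁻¹ * A i j')

end Pool.Agent.QU
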