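import Pool.Agent.QU.Defs

set_option linter.unusedVariables false
set_option linter.unusedSectionVars false
set_option linter.style.longLine false

/-! The families `NN1`, `NN2`, `NN3` satisfy the axioms. -/

namespace Pool.Agent.QU

variable {E : Type*} [Fintype E] [DecidableEq E]

theorem Unif.congr {k : ℤ} {U : Finset E} {r r' : Finset E → ℤ} (h : ∀ A, A ⊆ U → r A = r' A)
    (hu : Unif k U r) : Unif k U r' := fun A hA => by rw [← h A hA]; exact hu A hA

theorem Unif.perm {k : ℤ} {U : Finset E} {r : Finset E → ℤ} (σ : Equiv.Perm E)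
    (hu : Unif k U r) : Unif k (U.map σ.toEmbedding) (fun A => r (A.map σ.symm.toEmbedding)) := by
  intro A hA
  have h1 : A.map σ.symm.toEmbedding ⊆ U := by
    intro z hz
    rw [Finset.mem_map] at hz
    obtain ⟨w, hw, rfl⟩ := hz
    have := hA hw
    rw [Finset.mem_map] at this
    obtain ⟨v, hv, rfl⟩ := this
    simpa using hv
  show r (A.map σ.symm.toEmbedding) = _
  rw [hu _ h1, Finset.card_map]

theorem Unif.conn3 {k : ℤ} {U : Finset E} {r : Finset E → ℤ} (hk : 2 ≤ k)
    (hn : k + 2 ≤ (U.card : ℤ)) (hu : Unif k U r) : Conn3 U r := by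
  have hl : ∀ A, A ⊆ U → lam U r A = min (A.card : ℤ) k + min ((U \ A).card : ℤ) k - k ∧
      (A.card : ℤ) + (U \ A).card = U.card := by
    intro A hA
    have h3 := Finset.card_sdiff_add_card_eq_card hA
    simp only [lam]
    rw [hu A hA, hu (U \ A) Finset.sdiff_subset, hu U (Finset.Subset.refl _)]
    constructor
    · omega
    · omega
  constructor
  · intro A hA h
    obtain ⟨h1, h2⟩ := hl A hA
    rw [h1] at h
    have h3 : A.card = 0 ∨ (U \ A).card = 0 := by omega
    rcases h3 with h3 | h3
    · left; exact Finset.card_eq_zero.1 h3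
    · right
      exact Finset.Subset.antisymm hA (Finset.sdiff_eq_empty_iff_subset.1 (Finset.card_eq_zero.1 h3))
  · intro A hA h
    obtain ⟨h1, h2⟩ := hl A hA
    rw [h1] at h
    omega

theorem Unif.dual {k : ℤ} {U : Finset E} {r : Finset E → ℤ} (hk : 0 ≤ k)
    (hn : k ≤ (U.card : ℤ)) (hu : Unif k U r) : Unif ((U.card : ℤ) - k) U (dl U r) := by
  intro A hA
  have h3 := Finset.card_sdiff_add_card_eq_card hA
  simp only [dl]
  rw [hu (U \ A) Finset.sdiff_subset, hu U (Finset.Subset.refl _)]
  omega

theorem IsP6.congr {U : Finset E} {r r' : Finset E → ℤ} (h : ∀ A, A ⊆ U → r A = r' A)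
    (hu : IsP6 U r) : IsP6 U r' := by
  obtain ⟨h1, T, h2, h3, h4⟩ := hu
  exact ⟨h1, T, h2, h3, fun A hA => by rw [← h A hA]; exact h4 A hA⟩

theorem IsP6.perm {U : Finset E} {r : Finset E → ℤ} (σ : Equiv.Perm E)
    (hu : IsP6 U r) : IsP6 (U.map σ.toEmbedding) (fun A => r (A.map σ.symm.toEmbedding)) := by
  obtain ⟨h1, T, h2, h3, h4⟩ := hu
  refine ⟨by rw [Finset.card_map]; exact h1, T.map σ.toEmbedding, Finset.map_subset_map.2 h2,
    by rw [Finset.card_map]; exact h3, ?_⟩
  intro A hA
  have h5 : A.map σ.symm.toEmbedding ⊆ U := by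
    intro z hz
    rw [Finset.mem_map] at hz
    obtain ⟨w, hw, rfl⟩ := hz
    have := hA hw
    rw [Finset.mem_map] at this
    obtain ⟨v, hv, rfl⟩ := this
    simpa using hv
  have h6 : (A.map σ.symm.toEmbedding = T) ↔ (A = T.map σ.toEmbedding) := by
    constructor
    · rintro rfl
      ext z
      simp
    · rintro rfl
      ext z
      simp
  show r (A.map σ.symm.toEmbedding) = _
  rw [h4 _ h5, Finset.card_map]
  simp only [h6]

theorem IsP6.conn3 {U : Finset E} {r : Finset E → ℤ} (hu : IsP6 U r) : Conn3 U r := by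
  obtain ⟨h1, T, h2, h3, h4⟩ := hu
  have hU : r U = 3 := by
    rw [h4 U (Finset.Subset.refl _), if_neg (by rintro rfl; omega), h1]; rfl
  have hl : ∀ A, A ⊆ U → lam U r A ≤ 1 → A.card ≤ 1 ∨ (U \ A).card ≤ 1 := by
    intro A hA h
    have h5 := Finset.card_sdiff_add_card_eq_card hA
    simp only [lam] at h
    rw [hU, h4 A hA, h4 (U \ A) Finset.sdiff_subset] at h
    by_cases h6 : A = T
    · have h7 : U \ A ≠ T := by
        rintro h8
        have : Disjoint A (U \ A) := Finset.disjoint_sdiff
        rw [h8, h6, disjoint_self] at this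
        rw [this] at h3; simp at h3
      rw [if_pos h6, if_neg h7] at h
      rw [h6] at h h5 ⊢
      omega
    · by_cases h7 : U \ A = T
      · rw [if_neg h6, if_pos h7] at h
        rw [h7] at h5 ⊢
        omega
      · rw [if_neg h6, if_neg h7] at h
        omega
  constructor
  · intro A hA h
    have h5 := Finset.card_sdiff_add_card_eq_card hA
    rcases hl A hA (by omega) with h6 | h6
    · have h7 : A ≠ T := by rintro rfl; omega
      by_cases h8 : A.card = 0
      · left; exact Finset.card_eq_zero.1 h8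
      · exfalso
        have h9 : U \ A ≠ T := by intro h; rw [h] at h5; omega
        simp only [lam] at h
        rw [hU, h4 A hA, h4 (U \ A) Finset.sdiff_subset, if_neg h7, if_neg h9] at h
        omega
    · have h7 : U \ A ≠ T := by intro h; rw [h] at h6; omega
      by_cases h8 : (U \ A).card = 0
      · right
        exact Finset.Subset.antisymm hA
          (Finset.sdiff_eq_empty_iff_subset.1 (Finset.card_eq_zero.1 h8))
      · exfalso
        have h9 : A ≠ T := by rintro rfl; omega
        simp only [lam] at h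
        rw [hU, h4 A hA, h4 (U \ A) Finset.sdiff_subset, if_neg h7, if_neg h9] at h
        omega
  · exact hl

theorem IsP6.dual {U : Finset E} {r : Finset E → ℤ} (hu : IsP6 U r) : IsP6 U (dl U r) := by
  obtain ⟨h1, T, h2, h3, h4⟩ := hu
  have hU : r U = 3 := by
    rw [h4 U (Finset.Subset.refl _), if_neg (by rintro rfl; omega), h1]; rfl
  have h5 := Finset.card_sdiff_add_card_eq_card h2
  refine ⟨h1, U \ T, Finset.sdiff_subset, by omega, ?_⟩
  intro A hA
  have h6 := Finset.card_sdiff_add_card_eq_card hA
  have h7 : (U \ A = T) ↔ (A = U \ T) := by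
    constructor
    · rintro rfl; rw [Finset.sdiff_sdiff_eq_self hA]
    · rintro rfl; rw [Finset.sdiff_sdiff_eq_self h2]
  simp only [dl]
  rw [hU, h4 (U \ A) Finset.sdiff_subset]
  simp only [h7]
  by_cases h8 : A = U \ T
  · rw [if_pos h8, if_pos h8, h8]; omega
  · rw [if_neg h8, if_neg h8]; omega

theorem nnax1 : NNax (NN1 : Finset E → (Finset E → ℤ) → Prop) where
  congr := fun U r r' h hN => ⟨hN.1, hN.2.congr h⟩
  perm := fun U r σ hN => ⟨by rw [Finset.card_map]; exact hN.1, hN.2.perm σ⟩
  conn3 := fun U r hN => hN.2.conn3 (le_refl _) (by rw [hN.1]; norm_num)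
  card := fun U r hN => by rw [hN.1]
  dual := fun U r hr hN => by
    refine ⟨hN.1, ?_⟩
    have := hN.2.dual (by norm_num) (by rw [hN.1]; norm_num)
    rw [hN.1] at this
    exact this

theorem nnax2 : NNax (NN2 : Finset E → (Finset E → ℤ) → Prop) where
  congr := fun U r r' h hN => ⟨hN.1, hN.2.imp (fun x => x.congr h) (fun x => x.congr h)⟩
  perm := fun U r σ hN => ⟨by rw [Finset.card_map]; exact hN.1,
    hN.2.imp (fun x => x.perm σ) (fun x => x.perm σ)⟩
  conn3 := fun U r hN => by
    rcases hN.2 with h | h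
    · exact h.conn3 (le_refl _) (by rw [hN.1]; norm_num)
    · exact h.conn3 (by norm_num) (by rw [hN.1]; norm_num)
  card := fun U r hN => by rw [hN.1]; norm_num
  dual := fun U r hr hN => by
    refine ⟨hN.1, ?_⟩
    rcases hN.2 with h | h
    · right
      have := h.dual (by norm_num) (by rw [hN.1]; norm_num)
      rw [hN.1] at this
      exact this
    · left
      have := h.dual (by norm_num) (by rw [hN.1]; norm_num)
      rw [hN.1] at this
      exact this

theorem nnax3 : NNax (NN3 : Finset E → (Finset E → ℤ) → Prop) where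
  congr := fun U r r' h hN => ⟨hN.1, by
    rcases hN.2 with h1 | h1 | h1
    · exact Or.inl (h1.congr h)
    · exact Or.inr (Or.inl (h1.congr h))
    · exact Or.inr (Or.inr (h1.congr h))⟩
  perm := fun U r σ hN => ⟨by rw [Finset.card_map]; exact hN.1, by
    rcases hN.2 with h1 | h1 | h1
    · exact Or.inl (h1.perm σ)
    · exact Or.inr (Or.inl (h1.perm σ))
    · exact Or.inr (Or.inr (h1.perm σ))⟩
  conn3 := fun U r hN => by
    rcases hN.2 with h | h | h
    · exact h.conn3 (le_refl _) (by rw [hN.1]; norm_num)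
    · exact h.conn3 (by norm_num) (by rw [hN.1]; norm_num)
    · exact h.conn3
  card := fun U r hN => by rw [hN.1]; norm_num
  dual := fun U r hr hN => by
    refine ⟨hN.1, ?_⟩
    rcases hN.2 with h | h | h
    · right; left
      have := h.dual (by norm_num) (by rw [hN.1]; norm_num)
      rw [hN.1] at this
      exact this
    · left
      have := h.dual (by norm_num) (by rw [hN.1]; norm_num)
      rw [hN.1] at this
      exact this
    · right; right; exact h.dual

end Pool.Agent.QU
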