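import Pool.Agent.QU.W2

set_option linter.unusedVariables false
set_option linter.unusedSectionVars false
set_option linter.style.longLine false

/-! The abstract gluing axioms used by the core theorem. -/

namespace Pool.Agent.QU

variable {α : Type*} [DecidableEq α]

/-- Gluing axioms for a predicate `G D K` (the minor with `D` deleted and `K` contracted has a
gauge). -/
structure GA (NN : Finset α → (Finset α → ℤ) → Prop) (U : Finset α) (r : Finset α → ℤ)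
    (G : Finset α → Finset α → Prop) : Prop where
  par : ∀ D K s t, D ⊆ U → K ⊆ U → Disjoint D K → s ∈ U \ (D ∪ K) → t ∈ U \ (D ∪ K) → s ≠ t →
    con r K {s} = 1 → con r K {t} = 1 → con r K {s, t} = 1 → G (insert s D) K → G D K
  pl : ∀ a b, a ∈ U → b ∈ U → a ≠ b → r (U \ {a, b}) = r U → G {a} ∅ → G {b} ∅ →
    Conn (U \ {a, b}) r → F NN (U \ {a, b}) r → G ∅ ∅
  tl : ∀ u v w, u ∈ U → v ∈ U → w ∈ U → u ≠ v → u ≠ w → v ≠ w → r (U \ {u, v}) = r U →
    G {u} ∅ → G {v} ∅ → G ∅ {w} → Conn (U \ {u, v}) r →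
    Conn (U \ {u, w}) (con r {w}) → F NN (U \ {u, w}) (con r {w}) →
    Conn (U \ {v, w}) (con r {w}) → F NN (U \ {v, w}) (con r {w}) → G ∅ ∅
  psl : ∀ x a b y, x ∈ U → a ∈ U → b ∈ U → y ∈ U → x ≠ a → x ≠ b → x ≠ y → a ≠ b → a ≠ y → b ≠ y →
    r {x, a, b} = 2 → r {x, a} = 2 → r {x, b} = 2 → r {a, b} = 2 → r {a, b, y} = 3 →
    r {x, a, y} = 3 → r (U \ {x, a, b, y}) = r U - 1 →
    (∀ e ∈ ({x, a, b, y} : Finset α), r (insert e (U \ {x, a, b, y})) = r U) →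
    G ∅ {a} → G ∅ {b} → G ∅ {x} →
    Conn (U \ {x, y, a}) (con r {a}) → F NN (U \ {x, y, a}) (con r {a}) → G ∅ ∅
  mix : ∀ x y X, x ∈ U → y ∈ U → x ≠ y → G {x} ∅ → G ∅ {y} →
    Conn (U \ {x, y}) (con r {y}) → F NN (U \ {x, y}) (con r {y}) →
    X ⊆ U \ {x, y} → r (insert x X) = r X → r (insert y X) = r X + 1 → G ∅ ∅

end Pool.Agent.QU
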