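import Pool.Agent.QU.Chain
import Pool.Agent.QU.Sys

set_option linter.unusedVariables false
set_option linter.unusedSectionVars false
set_option linter.style.longLine false

/-! Gauges of quaternionic chain groups: basis criterion, comparison, gluing. -/

open Quaternion

namespace Pool.Agent.QU

variable {E : Type*} [Fintype E] [DecidableEq E]

/-- unit quaternions normalising the norm-one elements of `R` -/
def NormR (R : Subring ℍ[ℝ]) (v : ℍ[ℝ]) : Prop :=
  ‖v‖ = 1 ∧ (∀ x ∈ R, ‖x‖ = 1 → v⁻¹ * x * v ∈ R) ∧ (∀ x ∈ R, ‖x‖ = 1 → v * x * v⁻¹ ∈ R)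

/-! ### units -/

theorem ne_of_norm_one {x : ℍ[ℝ]} (h : ‖x‖ = 1) : x ≠ 0 := by
  rintro rfl; simp at h

theorem inv_eq_star {x : ℍ[ℝ]} (h : ‖x‖ = 1) : x⁻¹ = star x := by
  have : Quaternion.normSq x = 1 := by
    rw [Quaternion.normSq_eq_norm_mul_self, h, one_mul]
  rw [Quaternion.instInv]
  simp [this]

theorem inv_memR {R : Subring ℍ[ℝ]} (hR : ∀ x ∈ R, star x ∈ R) {x : ℍ[ℝ]} (hx : x ∈ R)
    (h : ‖x‖ = 1) : x⁻¹ ∈ R := by
  rw [inv_eq_star h]; exact hR x hx

theorem norm_inv_one {x : ℍ[ℝ]} (h : ‖x‖ = 1) : ‖x⁻¹‖ = 1 := by rw [norm_inv, h, inv_one]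

theorem norm_mul_one {x y : ℍ[ℝ]} (h : ‖x‖ = 1) (h' : ‖y‖ = 1) : ‖x * y‖ = 1 := by
  rw [norm_mul, h, h', one_mul]

/-- norm one or zero -/
def N01 (x : ℍ[ℝ]) : Prop := x = 0 ∨ ‖x‖ = 1

theorem N01.mul {x y : ℍ[ℝ]} (h : N01 x) (h' : N01 y) : N01 (x * y) := by
  rcases h with rfl | h
  · left; simp
  · rcases h' with rfl | h'
    · left; simp
    · right; exact norm_mul_one h h'

theorem N01.of_norm {x : ℍ[ℝ]} (h : ‖x‖ = 1) : N01 x := Or.inr h

namespace NormR

variable {R : Subring ℍ[ℝ]}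

theorem inv {v : ℍ[ℝ]} (h : NormR R v) : NormR R v⁻¹ := by
  refine ⟨norm_inv_one h.1, fun x hx hx1 => ?_, fun x hx hx1 => ?_⟩
  · rw [inv_inv]; exact h.2.2 x hx hx1
  · rw [inv_inv]; exact h.2.1 x hx hx1

theorem mul {v w : ℍ[ℝ]} (h : NormR R v) (h' : NormR R w) : NormR R (v * w) := by
  refine ⟨norm_mul_one h.1 h'.1, fun x hx hx1 => ?_, fun x hx hx1 => ?_⟩
  · have h1 := h.2.1 x hx hx1
    have h2 := h'.2.1 _ h1 (norm_mul_one (norm_mul_one (norm_inv_one h.1) hx1) h.1)
    rw [mul_inv_rev]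
    simpa only [mul_assoc] using h2
  · have h1 := h'.2.2 x hx hx1
    have h2 := h.2.2 _ h1 (norm_mul_one (norm_mul_one h'.1 hx1) (norm_inv_one h'.1))
    rw [mul_inv_rev]
    simpa only [mul_assoc] using h2

theorem of_mem (hR : ∀ x ∈ R, star x ∈ R) {h : ℍ[ℝ]} (hh : h ∈ R) (h1 : ‖h‖ = 1) :
    NormR R h :=
  ⟨h1, fun x hx _ => R.mul_mem (R.mul_mem (inv_memR hR hh h1) hx) hh,
    fun x hx _ => R.mul_mem (R.mul_mem hh hx) (inv_memR hR hh h1)⟩

theorem conj {v : ℍ[ℝ]} (h : NormR R v) {x : ℍ[ℝ]} (hx : x ∈ R) (h01 : N01 x) :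
    v * x * v⁻¹ ∈ R := by
  rcases h01 with rfl | h1
  · simp [R.zero_mem]
  · exact h.2.2 x hx h1

theorem conj' {v : ℍ[ℝ]} (h : NormR R v) {x : ℍ[ℝ]} (hx : x ∈ R) (h01 : N01 x) :
    v⁻¹ * x * v ∈ R := by
  rcases h01 with rfl | h1
  · simp [R.zero_mem]
  · exact h.2.1 x hx h1

end NormR

/-! ### entries -/

theorem Gauged.entry {R : Subring ℍ[ℝ]} {V : CG E} {g : E → ℍ[ℝ]} (h : Gauged R V g)
    {B : Finset E} {f} (hf : Frame V B f) {x : E} (hx : x ∈ B) (y : E) :
    (g x)⁻¹ * f x y * g y ∈ R := by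
  have h1 := h.2 (f x) (hf.elem hx) x (by rw [hf.one x hx]; exact one_ne_zero) y
  rw [hf.one x hx, inv_one, mul_one] at h1
  exact h1

theorem entry_N01 {V : CG E} (hV : IsQU V) {g g' : E → ℍ[ℝ]} (hg : ∀ e, ‖g e‖ = 1)
    (hg' : ∀ e, ‖g' e‖ = 1)
    {B : Finset E} {f} (hf : Frame V B f) {x : E} (hx : x ∈ B) (y : E) :
    N01 ((g x)⁻¹ * f x y * g' y) :=
  ((N01.of_norm (norm_inv_one (hg x))).mul (hf.qu hV hx y)).mul (N01.of_norm (hg' y))

theorem entry_norm {V : CG E} (hV : IsQU V) {g g' : E → ℍ[ℝ]} (hg : ∀ e, ‖g e‖ = 1)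
    (hg' : ∀ e, ‖g' e‖ = 1)
    {B : Finset E} {f} (hf : Frame V B f) {x : E} (hx : x ∈ B) {y : E} (hy : f x y ≠ 0) :
    ‖(g x)⁻¹ * f x y * g' y‖ = 1 :=
  norm_mul_one (norm_mul_one (norm_inv_one (hg x)) ((hf.qu hV hx y).resolve_left hy)) (hg' y)

/-- basis criterion -/
theorem Gauged.of_frame {R : Subring ℍ[ℝ]} (hR : ∀ x ∈ R, star x ∈ R) {V : CG E} (hV : IsQU V)
    {B : Finset E} {f} (hf : Frame V B f) {g : E → ℍ[ℝ]} (hg : ∀ e, ‖g e‖ = 1)
    (h : ∀ x ∈ B, ∀ y, (g x)⁻¹ * f x y * g y ∈ R) : Gauged R V g := by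
  classical
  have hgn : ∀ e, g e ≠ 0 := fun e => ne_of_norm_one (hg e)
  refine ⟨hg, ?_⟩
  have key : ∀ (n : ℕ) (B : Finset E) (f : E → E → ℍ[ℝ]), Frame V B f →
      (∀ x ∈ B, ∀ y, (g x)⁻¹ * f x y * g y ∈ R) → ∀ c, Elem V c →
      (B.filter (fun e => c e ≠ 0)).card = n → ∀ a, c a ≠ 0 → ∀ b,
      (g a)⁻¹ * (c a)⁻¹ * c b * g b ∈ R := by
    intro n
    induction n with
    | zero =>
      intro B f hf h c hc hn
      exfalso
      apply hc.2.1
      apply hf.inj c hc.1
      intro x hx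
      by_contra hcx
      have : x ∈ B.filter (fun e => c e ≠ 0) := Finset.mem_filter.2 ⟨hx, hcx⟩
      rw [Finset.card_eq_zero.1 hn] at this
      simp at this
    | succ n ih =>
      intro B f hf h c hc hn a ha b
      have hne : (B.filter (fun e => c e ≠ 0)).Nonempty := by
        rw [← Finset.card_pos]; omega
      obtain ⟨x, hx⟩ := hne
      obtain ⟨hxB, hcx⟩ := Finset.mem_filter.1 hx
      by_cases hall : ∀ z ∈ B, z ≠ x → c z = 0
      · -- `c` is a multiple of `f x`
        have h1 : ∀ y, c y = c x * f x y := by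
          intro y
          rw [hf.expand_apply hc.1 y, Finset.sum_eq_single x]
          · intro z hz hzx
            rw [hall z hz hzx, zero_mul]
          · intro h'; exact absurd hxB h'
        have hfa : f x a ≠ 0 := fun h' => ha (by rw [h1, h', mul_zero])
        have h2 := h x hxB a
        have h3 := h x hxB b
        have h4 : ‖(g x)⁻¹ * f x a * g a‖ = 1 := entry_norm hV hg hg hf hxB hfa
        have h5 := R.mul_mem (inv_memR hR h2 h4) h3
        convert h5 using 1
        rw [h1 a, h1 b]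
        simp only [mul_inv_rev, inv_inv, mul_assoc, inv_mul_cancel_left₀ hcx,
          mul_inv_cancel_left₀ (hgn x)]
      · push Not at hall
        obtain ⟨z, hz, hzx, hcz⟩ := hall
        obtain ⟨y, hy1, hy2⟩ : ∃ y, c y = 0 ∧ f x y ≠ 0 := by
          by_contra hcon
          push Not at hcon
          have h1 := hc.2.2 (f x) (hf.mem x hxB) (hf.elem hxB).2.1 hcon z
            (hf.zero x hxB z hz (Ne.symm hzx))
          exact hcz h1
        have hyB : y ∉ B := by
          intro hyB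
          by_cases hxy : x = y
          · rw [hxy] at hcx; exact hcx hy1
          · exact hy2 (hf.zero x hxB y hyB hxy)
        have hyx : (g x)⁻¹ * f x y * g y ∈ R := h x hxB y
        have hyx1 : ‖(g x)⁻¹ * f x y * g y‖ = 1 := entry_norm hV hg hg hf hxB hy2
        have hinv := inv_memR hR hyx hyx1
        refine ih _ _ (hf.pivot hxB hyB hy2) ?_ c hc ?_ a ha b
        · intro w hw u
          by_cases hwy : w = y
          · simp only [hwy, if_true]
            have h5 := R.mul_mem hinv (h x hxB u)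
            convert h5 using 1
            simp only [mul_inv_rev, inv_inv, mul_assoc, mul_inv_cancel_left₀ (hgn x)]
          · have hwB := Finset.mem_erase.1 ((Finset.mem_insert.1 hw).resolve_left hwy)
            simp only [hwy, if_false]
            have h5 := R.sub_mem (h w hwB.2 u)
              (R.mul_mem (R.mul_mem (h w hwB.2 y) hinv) (h x hxB u))
            convert h5 using 1
            simp only [mul_inv_rev, inv_inv, mul_assoc, mul_inv_cancel_left₀ (hgn x),
              mul_inv_cancel_left₀ (hgn y), mul_sub, sub_mul]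
        · have h6 : (insert y (B.erase x)).filter (fun e => c e ≠ 0) =
              (B.filter (fun e => c e ≠ 0)).erase x := by
            ext w
            simp only [Finset.mem_filter, Finset.mem_insert, Finset.mem_erase]
            constructor
            · rintro ⟨rfl | ⟨h1, h2⟩, h3⟩
              · exact absurd hy1 h3
              · exact ⟨h1, h2, h3⟩
            · rintro ⟨h1, h2, h3⟩
              exact ⟨Or.inr ⟨h1, h2⟩, h3⟩
          rw [h6, Finset.card_erase_of_mem hx, hn]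
          rfl
  exact fun c hc a ha b => key _ B f hf h c hc rfl a ha b

/-- gauges pass to minors -/
theorem Gauged.minor {R : Subring ℍ[ℝ]} {V : CG E} {g : E → ℍ[ℝ]} (h : Gauged R V g)
    (D K : Finset E) : Gauged R (mino V D K) g := by
  refine ⟨h.1, fun c hc a ha b => ?_⟩
  obtain ⟨d, hd, h1, h2⟩ := hc.lift_mino
  have hcD : ∀ e ∈ D, c e = 0 := (mem_mino.1 hc.1).choose_spec.2.2.2
  have haD : a ∉ D := fun h => ha (hcD a h)
  by_cases hb : b ∈ D
  · rw [hcD b hb]; simp [R.zero_mem]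
  · rw [h2 b hb, h2 a haD]
    exact h.2 d hd a (by rw [← h2 a haD]; exact ha) b

/-- gauges pass to the dual -/
theorem Gauged.dual {R : Subring ℍ[ℝ]} (hR : ∀ x ∈ R, star x ∈ R) {V : CG E} {U : Finset E}
    (hU : SuppIn V U) (hV : IsQU V) {g : E → ℍ[ℝ]} (h : Gauged R V g) :
    Gauged R (perp U V) g := by
  obtain ⟨B, f, hf⟩ := exists_frame' V
  refine Gauged.of_frame hR (hV.dual hU) (hf.dual hU (hf.subset hU)) h.1 ?_
  intro y hy x
  obtain ⟨hyU, hyB⟩ := Finset.mem_sdiff.1 hy
  by_cases hxy : x = y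
  · rw [if_pos hxy, hxy, mul_one, inv_mul_cancel₀ (ne_of_norm_one (h.1 y))]
    exact R.one_mem
  · rw [if_neg hxy]
    by_cases hxB : x ∈ B
    · rw [if_pos hxB]
      have h1 := hR _ (h.entry hf hxB y)
      have h2 : (g y)⁻¹ * -star (f x y) * g x = - star ((g x)⁻¹ * f x y * g y) := by
        rw [star_mul, star_mul, inv_eq_star (h.1 x), star_star, inv_eq_star (h.1 y)]
        simp only [mul_neg, neg_mul, mul_assoc]
      rw [h2]
      exact R.neg_mem h1
    · rw [if_neg hxB]; simp [R.zero_mem]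

/-- right multiplication of a gauge by a normalising quaternion -/
theorem Gauged.mul_norm {R : Subring ℍ[ℝ]} {V : CG E} (hV : IsQU V) {g : E → ℍ[ℝ]}
    (h : Gauged R V g) {v : ℍ[ℝ]} (hv : NormR R v) : Gauged R V (fun e => g e * v) := by
  refine ⟨fun e => norm_mul_one (h.1 e) hv.1, fun c hc a ha b => ?_⟩
  have h1 := h.2 c hc a ha b
  have h2 : N01 ((g a)⁻¹ * (c a)⁻¹ * c b * g b) := by
    by_cases hb : c b = 0
    · left; rw [hb]; simp
    · right
      rw [norm_mul, norm_mul, norm_mul, norm_inv, norm_inv, h.1, h.1, hV c hc a b ha hb]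
      have : ‖c b‖ ≠ 0 := norm_ne_zero_iff.2 hb
      field_simp
  have h3 := hv.conj' h1 h2
  convert h3 using 1
  simp only [mul_inv_rev, mul_assoc]

/-! ### comparison of gauges -/

theorem Frame.rk_block {V : CG E} {B : Finset E} {f} (h : Frame V B f) {T : Finset E}
    (hT : ∀ x ∈ B, x ∉ T → ∀ y ∈ T, f x y = 0) : rk V T = ((T ∩ B).card : ℤ) := by
  have hsub : T ∩ B ⊆ B := Finset.inter_subset_right
  have h1 : ∀ e ∈ T, rk V (insert e (T ∩ B)) = rk V (T ∩ B) := by
    intro e he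
    rw [h.closure_iff hsub]
    intro x hx
    obtain ⟨hxB, hxT⟩ := Finset.mem_sdiff.1 hx
    exact hT x hxB (fun h' => hxT (Finset.mem_inter.2 ⟨h', hxB⟩)) e he
  have h2 := (rk_RK V).closure_union h1
  rw [Finset.union_eq_right.2 Finset.inter_subset_left] at h2
  rw [h2, h.rk_eq hsub]

/-- propagation of the comparison of two gauges along a connected chain group -/
theorem compare_of_mem {R : Subring ℍ[ℝ]} (hR : ∀ x ∈ R, star x ∈ R) {V : CG E} {U : Finset E}
    (hU : SuppIn V U) (hV : IsQU V) (hc : Conn U (rk V)) {g g' : E → ℍ[ℝ]} (hg : Gauged R V g)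
    (hg' : Gauged R V g') {e : E} (he : e ∈ U) (hn : NormR R ((g e)⁻¹ * g' e)) :
    ∃ v, NormR R v ∧ ∀ e ∈ U, (g e)⁻¹ * g' e * v⁻¹ ∈ R := by
  classical
  obtain ⟨B, f, hf⟩ := exists_frame' V
  have hBU := hf.subset hU
  have hgn : ∀ e, g e ≠ 0 := fun e => ne_of_norm_one (hg.1 e)
  have hgn' : ∀ e, g' e ≠ 0 := fun e => ne_of_norm_one (hg'.1 e)
  set v := (g e)⁻¹ * g' e with hv
  have hvn : v ≠ 0 := ne_of_norm_one hn.1
  refine ⟨v, hn, ?_⟩
  set T : Finset E := U.filter (fun e => (g e)⁻¹ * g' e * v⁻¹ ∈ R) with hTdef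
  have heT : e ∈ T := by
    rw [hTdef, Finset.mem_filter]
    refine ⟨he, ?_⟩
    rw [← hv, mul_inv_cancel₀ hvn]; exact R.one_mem
  have hTU : T ⊆ U := Finset.filter_subset _ _
  -- step
  have hstep : ∀ x ∈ B, ∀ y ∈ U, f x y ≠ 0 → (x ∈ T ↔ y ∈ T) := by
    intro x hx y hy hxy
    have h1 := hg.entry hf hx y
    have h1' := hg'.entry hf hx y
    have h2 : ‖(g x)⁻¹ * f x y * g y‖ = 1 := entry_norm hV hg.1 hg.1 hf hx hxy
    have h2' : ‖(g' x)⁻¹ * f x y * g' y‖ = 1 := entry_norm hV hg'.1 hg'.1 hf hx hxy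
    have h3 := inv_memR hR h1 h2
    have h3' := inv_memR hR h1' h2'
    have h4 := hn.2.2 _ h1' h2'
    have h4' := hn.2.2 _ h3' (norm_inv_one h2')
    simp only [hTdef, Finset.mem_filter]
    constructor
    · rintro ⟨-, h5⟩
      refine ⟨hy, ?_⟩
      have h6 := R.mul_mem (R.mul_mem h3 h5) h4
      convert h6 using 1
      simp only [mul_inv_rev, inv_inv, mul_assoc, mul_inv_cancel_left₀ (hgn x),
        mul_inv_cancel_left₀ (hgn' x), inv_mul_cancel_left₀ hvn, inv_mul_cancel_left₀ hxy]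
    · rintro ⟨-, h5⟩
      refine ⟨hBU hx, ?_⟩
      have h6 := R.mul_mem (R.mul_mem h1 h5) h4'
      convert h6 using 1
      simp only [mul_inv_rev, inv_inv, mul_assoc, mul_inv_cancel_left₀ (hgn y),
        mul_inv_cancel_left₀ (hgn' y), inv_mul_cancel_left₀ hvn, mul_inv_cancel_left₀ hxy]
  have h1 : rk V T = ((T ∩ B).card : ℤ) := hf.rk_block (by
    intro x hx hxT y hy
    by_contra hxy
    exact hxT ((hstep x hx y (hTU hy) hxy).2 hy))
  have h2 : rk V (U \ T) = (((U \ T) ∩ B).card : ℤ) := hf.rk_block (by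
    intro x hx hxT y hy
    by_contra hxy
    obtain ⟨hyU, hyT⟩ := Finset.mem_sdiff.1 hy
    refine hyT ((hstep x hx y hyU hxy).1 ?_)
    by_contra hxT'
    exact hxT (Finset.mem_sdiff.2 ⟨hBU hx, hxT'⟩))
  have h3 : rk V U = (B.card : ℤ) := by
    rw [hU.rk_eq, hf.finrank]
  have h4 : (T ∩ B).card + ((U \ T) ∩ B).card = B.card := by
    rw [← Finset.card_union_of_disjoint]
    · congr 1
      ext z
      simp only [Finset.mem_union, Finset.mem_inter, Finset.mem_sdiff]
      constructor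
      · rintro (h | h) <;> exact h.2
      · intro h
        by_cases hz : z ∈ T
        · exact Or.inl ⟨hz, h⟩
        · exact Or.inr ⟨⟨hBU h, hz⟩, h⟩
    · rw [Finset.disjoint_left]
      intro z hz hz'
      exact (Finset.mem_sdiff.1 (Finset.mem_inter.1 hz').1).2 (Finset.mem_inter.1 hz).1
  rcases hc T hTU (by rw [lam]; omega) with h5 | h5
  · rw [h5] at heT; simp at heT
  · intro e' he'
    rw [← h5, hTdef] at he'
    exact (Finset.mem_filter.1 he').2

theorem con_rk_empty (V : CG E) (A : Finset E) : con (rk V) ∅ A = rk V A := by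
  rw [con_empty _ (rk_RK V).empty]

/-- the main comparison lemma -/
theorem compare {R : Subring ℍ[ℝ]} (hR : ∀ x ∈ R, star x ∈ R)
    {NN : Finset E → (Finset E → ℤ) → Prop} (hN : NNax NN)
    (hrig : ∀ (S : Finset E) (W : CG E), SuppIn W S → IsQU W → NN S (rk W) →
      ∀ g g', Gauged R W g → Gauged R W g' → ∃ e ∈ S, NormR R ((g e)⁻¹ * g' e))
    {V : CG E} {U : Finset E} (hU : SuppIn V U) (hV : IsQU V) (hc : Conn U (rk V))
    (hF : F NN U (rk V)) {g g' : E → ℍ[ℝ]} (hg : Gauged R V g) (hg' : Gauged R V g') :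
    ∃ v, NormR R v ∧ ∀ e ∈ U, (g e)⁻¹ * g' e * v⁻¹ ∈ R := by
  obtain ⟨S, K, hS, hK, hSK, hNN⟩ := hF
  set D := U \ (S ∪ K) with hD
  have hDK : Disjoint D K := by
    rw [Finset.disjoint_left]
    intro z hz hz'
    exact (Finset.mem_sdiff.1 hz).2 (Finset.mem_union_right _ hz')
  have hDS : Disjoint S D := by
    rw [Finset.disjoint_left]
    intro z hz hz'
    exact (Finset.mem_sdiff.1 hz').2 (Finset.mem_union_left _ hz)
  have h1 : SuppIn (mino V D K) S := by
    have h2 := hU.minor D K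
    intro c hc e he
    apply h2 c hc e
    intro h3
    obtain ⟨h4, h5⟩ := Finset.mem_sdiff.1 h3
    simp only [Finset.mem_union, not_or] at h5
    apply h5.1
    rw [hD, Finset.mem_sdiff]
    refine ⟨h4, ?_⟩
    simp only [Finset.mem_union, not_or]
    exact ⟨he, h5.2⟩
  have h2 : NN S (rk (mino V D K)) := by
    refine hN.congr S _ _ ?_ hNN
    intro A hA
    rw [rk_mino V (Disjoint.mono_left hA hDS) hDK.symm]
  obtain ⟨e, heS, hn⟩ := hrig S _ h1 (hV.minor D K) h2 g g' (hg.minor D K) (hg'.minor D K)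
  exact compare_of_mem hR hU hV hc hg hg' (hS heS) hn

/-- comparison on a minor of `V`, phrased with contracted rank functions -/
theorem compare_minor {R : Subring ℍ[ℝ]} (hR : ∀ x ∈ R, star x ∈ R)
    {NN : Finset E → (Finset E → ℤ) → Prop} (hN : NNax NN)
    (hrig : ∀ (S : Finset E) (W : CG E), SuppIn W S → IsQU W → NN S (rk W) →
      ∀ g g', Gauged R W g → Gauged R W g' → ∃ e ∈ S, NormR R ((g e)⁻¹ * g' e))
    {V : CG E} {U : Finset E} (hU : SuppIn V U) (hV : IsQU V) {D K U' : Finset E}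
    (hDK : Disjoint D K) (hU' : U \ (D ∪ K) = U') (hc : Conn U' (con (rk V) K))
    (hF : F NN U' (con (rk V) K)) {g g' : E → ℍ[ℝ]} (hg : Gauged R (mino V D K) g)
    (hg' : Gauged R (mino V D K) g') :
    ∃ v, NormR R v ∧ ∀ e ∈ U', (g e)⁻¹ * g' e * v⁻¹ ∈ R := by
  subst hU'
  have hagree : ∀ A, A ⊆ U \ (D ∪ K) → con (rk V) K A = rk (mino V D K) A := by
    intro A hA
    rw [rk_mino V _ hDK.symm]
    rw [Finset.disjoint_left]
    intro z hz hz'
    exact (Finset.mem_sdiff.1 (hA hz)).2 (Finset.mem_union_left _ hz')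
  exact compare hR hN hrig (hU.minor D K) (hV.minor D K) (hc.congr hagree)
    (hF.congr hN hagree) hg hg'

/-! ### gluing lemmas -/

theorem norm_ratio {g g' : E → ℍ[ℝ]} (hg : ∀ e, ‖g e‖ = 1) (hg' : ∀ e, ‖g' e‖ = 1) (e : E) :
    ‖(g e)⁻¹ * g' e‖ = 1 := norm_mul_one (norm_inv_one (hg e)) (hg' e)

theorem normR_of_ratio {R : Subring ℍ[ℝ]} (hR : ∀ x ∈ R, star x ∈ R) {g g' : E → ℍ[ℝ]}
    (hg : ∀ e, ‖g e‖ = 1) (hg' : ∀ e, ‖g' e‖ = 1) {v : ℍ[ℝ]} (hv : NormR R v) {e : E}
    (h : (g e)⁻¹ * g' e * v⁻¹ ∈ R) : NormR R ((g e)⁻¹ * g' e) := by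
  have h1 : NormR R ((g e)⁻¹ * g' e * v⁻¹) :=
    NormR.of_mem hR h (norm_mul_one (norm_ratio hg hg' e) (norm_inv_one hv.1))
  have h2 := h1.mul hv
  rwa [inv_mul_cancel_right₀ (ne_of_norm_one hv.1)] at h2

/-- transfer of an entry from one gauge to another -/
theorem transfer {R : Subring ℍ[ℝ]} {p p' q' m v : ℍ[ℝ]} (hv : NormR R v)
    (hp' : p' ≠ 0) (h1 : p⁻¹ * p' * v⁻¹ ∈ R) (h2 : p'⁻¹ * m * q' ∈ R)
    (h01 : N01 (p'⁻¹ * m * q')) : p⁻¹ * m * (q' * v⁻¹) ∈ R := by
  have h3 := R.mul_mem h1 (hv.conj h2 h01)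
  convert h3 using 1
  simp only [mul_assoc, inv_mul_cancel_left₀ (ne_of_norm_one hv.1), mul_inv_cancel_left₀ hp']

theorem glue_pl {R : Subring ℍ[ℝ]} (hR : ∀ x ∈ R, star x ∈ R) {V : CG E} {U : Finset E}
    (hU : SuppIn V U) (hV : IsQU V) {a b : E} (ha : a ∈ U) (hb : b ∈ U) (hab : a ≠ b)
    (hr : rk V (U \ {a, b}) = rk V U) {g g' : E → ℍ[ℝ]} (hg : Gauged R (mino V {a} ∅) g)
    (hg' : Gauged R (mino V {b} ∅) g') {v : ℍ[ℝ]} (hv : NormR R v)
    (hvU : ∀ e ∈ U \ {a, b}, (g e)⁻¹ * g' e * v⁻¹ ∈ R) : ∃ G, Gauged R V G := by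
  obtain ⟨B, f, hf, -, hBY, hBU⟩ := exists_frame (V := V) (U := U) (X := ∅) (Y := {a, b}) hU
    (Finset.empty_subset _) (by rw [(rk_RK V).empty]; simp) hr (by simp)
  have haB : a ∉ B := fun h => Finset.disjoint_left.1 hBY h (by simp)
  have hbB : b ∉ B := fun h => Finset.disjoint_left.1 hBY h (by simp)
  have hf1 := hf.minor (D := {a}) (K := ∅) (Finset.empty_subset _) (by simpa using haB)
  have hf2 := hf.minor (D := {b}) (K := ∅) (Finset.empty_subset _) (by simpa using hbB)
  refine ⟨fun e => if e = a then g' a * v⁻¹ else g e, Gauged.of_frame hR hV hf ?_ ?_⟩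
  · intro e
    by_cases he : e = a
    · simp only [he, if_true]; exact norm_mul_one (hg'.1 a) (norm_inv_one hv.1)
    · simp only [he, if_false]; exact hg.1 e
  · intro x hx y
    have hxa : x ≠ a := fun h => haB (h ▸ hx)
    have hxU : x ∈ U \ {a, b} := by
      simp only [Finset.mem_sdiff, Finset.mem_insert, Finset.mem_singleton, not_or]
      exact ⟨hBU hx, hxa, fun h => hbB (h ▸ hx)⟩
    simp only [hxa, if_false]
    by_cases hya : y = a
    · simp only [hya, if_true]
      have h2 := hg'.entry hf2 (x := x) (by simpa using hx) a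
      have h3 := entry_N01 (hV.minor {b} ∅) hg'.1 hg'.1 hf2 (x := x) (by simpa using hx) a
      simp only [Finset.mem_singleton, hab, if_false] at h2 h3
      exact transfer hv (ne_of_norm_one (hg'.1 x)) (hvU x hxU) h2 h3
    · simp only [hya, if_false]
      have h2 := hg.entry hf1 (x := x) (by simpa using hx) y
      simpa only [Finset.mem_singleton, hya, if_false] using h2

theorem parallel_mul {W : CG E} (hW : IsQU W) {s t : E} (h1 : rk W {s} = 1) (h2 : rk W {t} = 1)
    (h3 : rk W {s, t} = 1) : ∃ μ : ℍ[ℝ], ‖μ‖ = 1 ∧ ∀ c ∈ W, c s = c t * μ := by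
  have hs : (W ⊓ vanish {s, t} : CG E) = W ⊓ vanish {s} := by
    apply Submodule.eq_of_le_of_finrank_eq
    · exact inf_le_inf_left _ (vanish_anti (by simp))
    · simp only [rk] at h1 h3; omega
  have ht : (W ⊓ vanish {s, t} : CG E) = W ⊓ vanish {t} := by
    apply Submodule.eq_of_le_of_finrank_eq
    · exact inf_le_inf_left _ (vanish_anti (by simp))
    · simp only [rk] at h2 h3; omega
  have hst : ∀ c ∈ W, c s = 0 → c t = 0 := by
    intro c hc h0
    have h4 : c ∈ (W ⊓ vanish {s} : CG E) := ⟨hc, by intro e he; rw [Finset.mem_singleton.1 he]; exact h0⟩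
    rw [← hs] at h4
    exact h4.2 t (by simp)
  have hts : ∀ c ∈ W, c t = 0 → c s = 0 := by
    intro c hc h0
    have h4 : c ∈ (W ⊓ vanish {t} : CG E) := ⟨hc, by intro e he; rw [Finset.mem_singleton.1 he]; exact h0⟩
    rw [← ht] at h4
    exact h4.2 s (by simp)
  obtain ⟨c1, hc1, hc1s⟩ : ∃ c ∈ W, c s ≠ 0 := by
    by_contra hcon
    push Not at hcon
    have h4 : (W ⊓ vanish {s} : CG E) = W := by
      apply le_antisymm inf_le_left
      intro c hc
      exact ⟨hc, by intro e he; rw [Finset.mem_singleton.1 he]; exact hcon c hc⟩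
    rw [rk, h4, sub_self] at h1
    omega
  obtain ⟨d, hd, -, hds⟩ := exists_elem_le hc1 hc1s
  have hdt : d t ≠ 0 := fun h => hds (hts d hd.1 h)
  refine ⟨(d t)⁻¹ * d s, ?_, ?_⟩
  · rw [norm_mul, norm_inv, hW d hd s t hds hdt]
    exact inv_mul_cancel₀ (norm_ne_zero_iff.2 hdt)
  · intro c hc
    have h5 : c - (c t * (d t)⁻¹) • d ∈ W := W.sub_mem hc (W.smul_mem _ hd.1)
    have h6 := hts _ h5 (by
      simp only [Pi.sub_apply, Pi.smul_apply, smul_eq_mul, mul_assoc, inv_mul_cancel₀ hdt, mul_one,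
        sub_self])
    simp only [Pi.sub_apply, Pi.smul_apply, smul_eq_mul] at h6
    rw [← mul_assoc]
    exact sub_eq_zero.1 h6

theorem glue_par {R : Subring ℍ[ℝ]} {W : CG E} (hW : IsQU W) {s t : E} (hst : s ≠ t)
    (h1 : rk W {s} = 1) (h2 : rk W {t} = 1) (h3 : rk W {s, t} = 1) {g : E → ℍ[ℝ]}
    (hg : Gauged R (mino W {s} ∅) g) : ∃ G, Gauged R W G := by
  obtain ⟨μ, hμ, hpar⟩ := parallel_mul hW h1 h2 h3
  have hμn : μ ≠ 0 := ne_of_norm_one hμ
  refine ⟨fun e => if e = s then μ⁻¹ * g t else g e, ?_, ?_⟩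
  · intro e
    by_cases he : e = s
    · simp only [he, if_true]; exact norm_mul_one (norm_inv_one hμ) (hg.1 t)
    · simp only [he, if_false]; exact hg.1 e
  · intro c hc
    -- the restriction of `c` is elementary
    have hts : t ≠ s := Ne.symm hst
    have hzero : ∀ d ∈ W, d t = 0 → d s = 0 := fun d hd h => by rw [hpar d hd, h, zero_mul]
    have hc' : Elem (mino W {s} ∅) (zeroOn {s} c) := by
      refine ⟨⟨c, ⟨hc.1, fun e he => by simp at he⟩, rfl⟩, ?_, ?_⟩
      · intro h0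
        apply hc.2.1
        have h4 : ∀ e, e ≠ s → c e = 0 := by
          intro e he
          have := congrFun h0 e
          rwa [zeroOn_apply, if_neg (by simpa using he)] at this
        funext e
        by_cases he : e = s
        · rw [he]; exact hzero c hc.1 (h4 t hts)
        · exact h4 e he
      · rintro d' ⟨d, ⟨hd, -⟩, rfl⟩ hd0 hsub e he
        have hd0' : d ≠ 0 := by rintro rfl; exact hd0 (by simp)
        have h5 : ∀ e, c e = 0 → d e = 0 := by
          have h6 : ∀ e, e ≠ s → c e = 0 → d e = 0 := by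
            intro e hes h
            have h7 := hsub e (by rw [zeroOn_apply, if_neg (by simpa using hes)]; exact h)
            rwa [zeroOn_apply, if_neg (by simpa using hes)] at h7
          intro e h
          by_cases hes : e = s
          · subst hes
            apply hzero d hd
            apply h6 t hts
            have h8 := hpar c hc.1
            rw [h] at h8
            exact (mul_eq_zero.1 h8.symm).resolve_right hμn
          · exact h6 e hes h
        rw [zeroOn_apply]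
        split_ifs with hes
        · rfl
        · rw [zeroOn_apply, if_neg hes] at he
          exact hc.2.2 d hd hd0' h5 e he
    have hg2 := hg.2 _ hc'
    -- reduce `s` to `t`
    set G : E → ℍ[ℝ] := fun e => if e = s then μ⁻¹ * g t else g e with hG
    have hφ : ∀ e, c e * G e = zeroOn {s} c (if e = s then t else e) * g (if e = s then t else e) := by
      intro e
      by_cases he : e = s
      · simp only [hG, he, if_true]
        rw [zeroOn_apply, if_neg (by simpa using hts), hpar c hc.1, mul_assoc,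
          mul_inv_cancel_left₀ hμn]
      · simp only [hG, he, if_false]
        rw [zeroOn_apply, if_neg (by simpa using he)]
    intro a ha b
    have ha' : zeroOn {s} c (if a = s then t else a) ≠ 0 := by
      intro h0
      have h9 := hφ a
      rw [h0, zero_mul] at h9
      rcases mul_eq_zero.1 h9 with h10 | h10
      · exact ha h10
      · simp only [hG] at h10
        split_ifs at h10 with h11
        · rcases mul_eq_zero.1 h10 with h12 | h12
          · exact hμn (inv_eq_zero.1 h12)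
          · exact ne_of_norm_one (hg.1 t) h12
        · exact ne_of_norm_one (hg.1 a) h10
    have h13 := hg2 _ ha' (if b = s then t else b)
    have h14 : (G a)⁻¹ * (c a)⁻¹ * c b * G b = (c a * G a)⁻¹ * (c b * G b) := by
      rw [mul_inv_rev, mul_assoc, mul_assoc]
    rw [h14, hφ, hφ]
    rw [mul_inv_rev]
    simpa only [mul_assoc] using h13

theorem glue_mix {R : Subring ℍ[ℝ]} (hR : ∀ x ∈ R, star x ∈ R) {V : CG E} {U : Finset E}
    (hU : SuppIn V U) (hV : IsQU V) {x y : E} {X : Finset E} (hx : x ∈ U) (hy : y ∈ U)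
    (hxy : x ≠ y) (hX : X ⊆ U \ {x, y}) (h1 : rk V (insert x X) = rk V X)
    (h2 : rk V (insert y X) = rk V X + 1) {g g' : E → ℍ[ℝ]} (hg : Gauged R (mino V {x} ∅) g)
    (hg' : Gauged R (mino V ∅ {y}) g') {v : ℍ[ℝ]} (hv : NormR R v)
    (hvU : ∀ e ∈ U \ {x, y}, (g e)⁻¹ * g' e * v⁻¹ ∈ R) : ∃ G, Gauged R V G := by
  have hr := rk_RK V
  obtain ⟨X', -, hX'X, hX'c, hX'r⟩ := hr.exists_basis (X := ∅) (S := X) (Finset.empty_subset _)
    (by rw [hr.empty]; simp)
  have hXU : X ⊆ U := hX.trans Finset.sdiff_subset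
  have hyX : y ∉ X := fun h => by have := hX h; simp at this
  have hxX : x ∉ X := fun h => by have := hX h; simp at this
  have hyX' : y ∉ X' := fun h => hyX (hX'X h)
  -- `X' ∪ {y}` is independent
  have h3 : rk V (insert y X') = ((insert y X').card : ℤ) := by
    have h4 := hr.sub X (insert y X')
    have e1 : X ∪ insert y X' = insert y X := by
      rw [Finset.union_insert, Finset.union_eq_left.2 hX'X]
    have e2 : X' ⊆ X ∩ insert y X' := fun z hz =>
      Finset.mem_inter.2 ⟨hX'X hz, Finset.mem_insert_of_mem hz⟩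
    have h5 := hr.mono _ _ e2
    rw [e1] at h4
    have h6 := hr.le_card (insert y X')
    rw [Finset.card_insert_of_notMem hyX'] at h6 ⊢
    push_cast at h6 ⊢
    omega
  have h4 : rk V (U \ {x}) = rk V U := by
    have h5 : X ⊆ U \ {x} := by
      intro z hz
      rw [Finset.mem_sdiff, Finset.mem_singleton]
      exact ⟨hXU hz, fun h => hxX (h ▸ hz)⟩
    have h6 := hr.closure_mono h5 h1
    rw [← h6]
    congr 1
    ext z
    simp only [Finset.mem_insert, Finset.mem_sdiff, Finset.mem_singleton]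
    constructor
    · rintro (rfl | h)
      · exact hx
      · exact h.1
    · intro h
      by_cases hz : z = x
      · exact Or.inl hz
      · exact Or.inr ⟨h, hz⟩
  obtain ⟨B, f, hf, hXB, hBx, hBU⟩ := exists_frame (V := V) (U := U) (X := insert y X') (Y := {x})
    hU (Finset.insert_subset hy (hX'X.trans hXU)) h3 h4 (by
      rw [Finset.disjoint_singleton_right, Finset.mem_insert, not_or]
      exact ⟨hxy, fun h => hxX (hX'X h)⟩)
  have hxB : x ∉ B := by rwa [Finset.disjoint_singleton_right] at hBx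
  have hyB : y ∈ B := hXB (Finset.mem_insert_self _ _)
  have hX'B : X' ⊆ B := (Finset.subset_insert _ _).trans hXB
  have h5 : rk V (insert x X') = rk V X' := by
    have h6 := hr.mono _ _ (Finset.insert_subset_insert x hX'X)
    have h7 := hr.mono _ _ (Finset.subset_insert x X')
    omega
  have hyx : f y x = 0 := (hf.closure_iff hX'B x).1 h5 y (Finset.mem_sdiff.2 ⟨hyB, hyX'⟩)
  have hf1 := hf.minor (D := {x}) (K := ∅) (Finset.empty_subset _) (by simpa using hxB)
  have hf2 := hf.minor (D := ∅) (K := {y}) (by simpa using hyB) (by simp)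
  refine ⟨fun e => if e = x then g' x * v⁻¹ else g e, Gauged.of_frame hR hV hf ?_ ?_⟩
  · intro e
    by_cases he : e = x
    · simp only [he, if_true]; exact norm_mul_one (hg'.1 x) (norm_inv_one hv.1)
    · simp only [he, if_false]; exact hg.1 e
  · intro z hz w
    have hzx : z ≠ x := fun h => hxB (h ▸ hz)
    simp only [hzx, if_false]
    by_cases hwx : w = x
    · simp only [hwx, if_true]
      by_cases hzy : z = y
      · rw [hzy, hyx]; simp [R.zero_mem]
      · have hzU : z ∈ U \ {x, y} := by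
          simp only [Finset.mem_sdiff, Finset.mem_insert, Finset.mem_singleton, not_or]
          exact ⟨hBU hz, hzx, hzy⟩
        have hzB' : z ∈ B \ {y} := by
          simp only [Finset.mem_sdiff, Finset.mem_singleton]
          exact ⟨hz, hzy⟩
        have h8 := hg'.entry hf2 hzB' x
        have h9 := entry_N01 (hV.minor ∅ {y}) hg'.1 hg'.1 hf2 hzB' x
        simp only [Finset.notMem_empty, if_false] at h8 h9
        exact transfer hv (ne_of_norm_one (hg'.1 z)) (hvU z hzU) h8 h9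
    · simp only [hwx, if_false]
      have h8 := hg.entry hf1 (x := z) (by simpa using hz) w
      simpa only [Finset.mem_singleton, hwx, if_false] using h8

theorem sdiff_union_sing (U : Finset E) (a b : E) : U \ ({a} ∪ {b}) = U \ {a, b} := rfl

theorem mino_mino_del (V : CG E) (a b : E) : mino (mino V {a} ∅) {b} ∅ = mino V {a, b} ∅ := by
  rw [mino_mino V (Finset.disjoint_empty_right _)]
  rfl

theorem mino_mino_del_con (V : CG E) {a b : E} (hab : a ≠ b) :
    mino (mino V {a} ∅) ∅ {b} = mino V {a} {b} := by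
  rw [mino_mino V (by simpa using hab)]
  simp

theorem mino_mino_con_del (V : CG E) (a b : E) :
    mino (mino V ∅ {b}) {a} ∅ = mino V {a} {b} := by
  rw [mino_mino V (by simp)]
  simp

theorem mem_con {V : CG E} {p : E} {c : E → ℍ[ℝ]} : c ∈ mino V ∅ {p} ↔ c ∈ V ∧ c p = 0 := by
  rw [mem_mino]
  constructor
  · rintro ⟨d, hd, h1, h2, -⟩
    have : c = d := funext fun e => h2 e (by simp)
    rw [this]
    exact ⟨hd, h1 p (by simp)⟩
  · rintro ⟨h1, h2⟩
    exact ⟨c, h1, by simpa using h2, by simp, by simp⟩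

/-- entries of a gauge of `V/p` in terms of a frame of `V` having a row supported off .. -/
theorem psl_entry {R : Subring ℍ[ℝ]} {V : CG E} {B : Finset E} {f} (hf : Frame V B f) {a p : E}
    (ha : a ∈ B) (hp : p ∉ B) {c0 : E → ℍ[ℝ]} (ha0 : c0 a ≠ 0) (hp0 : c0 p ≠ 0)
    (hfa : ∀ w, f a w = (c0 a)⁻¹ * c0 w) {k : E → ℍ[ℝ]} (hk : Gauged R (mino V ∅ {p}) k)
    {z : E} (hz : z ∈ B) (hza : z ≠ a) (w : E) :
    (k z)⁻¹ * (f z w - f z p * ((c0 p)⁻¹ * c0 w)) * k w ∈ R := by
  have hap : f a p ≠ 0 := by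
    rw [hfa]; exact mul_ne_zero (inv_ne_zero ha0) hp0
  have h1 := (hf.pivot ha hp hap).minor (D := ∅) (K := {p}) (by simp) (by simp)
  have hzp : z ≠ p := fun h => hp (h ▸ hz)
  have h2 := hk.entry h1 (x := z) (by
    simp only [Finset.mem_sdiff, Finset.mem_insert, Finset.mem_erase, Finset.mem_singleton]
    exact ⟨Or.inr ⟨hza, hz⟩, hzp⟩) w
  simp only [Finset.notMem_empty, if_false, hzp] at h2
  have h3 : f z p * (f a p)⁻¹ * f a w = f z p * ((c0 p)⁻¹ * c0 w) := by
    rw [hfa, hfa, mul_inv_rev, inv_inv]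
    simp only [mul_assoc, mul_inv_cancel_left₀ ha0]
  rw [h3] at h2
  exact h2

theorem psl_gamma {R : Subring ℍ[ℝ]} (hR : ∀ x ∈ R, star x ∈ R) {V : CG E} (hV : IsQU V)
    {B : Finset E} {f} (hf : Frame V B f) {a p y : E}
    (ha : a ∈ B) (hy : y ∉ B) {c0 : E → ℍ[ℝ]} (ha0 : c0 a ≠ 0) (hp0 : c0 p ≠ 0)
    (hfa : ∀ w, f a w = (c0 a)⁻¹ * c0 w) {k g : E → ℍ[ℝ]} (hk : Gauged R (mino V ∅ {p}) k)
    (hg : Gauged R (mino V ∅ {a}) g)
    (h1 : ∀ z ∈ B, z ≠ a → (g z)⁻¹ * k z ∈ R)
    (h2 : (g p)⁻¹ * ((c0 p)⁻¹ * (c0 a * k a)) ∈ R)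
    (h3 : ∃ c ∈ V, c p = 0 ∧ c y = 0 ∧ c a ≠ 0) :
    (g p)⁻¹ * ((c0 p)⁻¹ * (c0 y * g y)) ∈ R := by
  obtain ⟨c, hc, hcp, hcy, hca⟩ := h3
  obtain ⟨d, hd, hdc, hda⟩ := exists_elem_le (mem_con.2 ⟨hc, hcp⟩) hca
  have hdy : d y = 0 := hdc y hcy
  have hdV : d ∈ V := (mem_con.1 hd.1).1
  have hkn : ∀ e, k e ≠ 0 := fun e => ne_of_norm_one (hk.1 e)
  have hgn : ∀ e, g e ≠ 0 := fun e => ne_of_norm_one (hg.1 e)
  have hexp := hf.expand_apply hdV y
  rw [hdy, ← Finset.add_sum_erase _ _ ha, hfa] at hexp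
  have hc0y : c0 y = -(c0 a * ((d a)⁻¹ * ∑ z ∈ B.erase a, d z * f z y)) := by
    have h4 : ∑ z ∈ B.erase a, d z * f z y = -(d a * ((c0 a)⁻¹ * c0 y)) := by
      rw [eq_neg_iff_add_eq_zero, add_comm]; exact hexp.symm
    rw [h4, mul_neg, mul_neg, neg_neg, inv_mul_cancel_left₀ hda, mul_inv_cancel_left₀ ha0]
  have hfa' := hf.minor (D := ∅) (K := {a}) (by simpa using ha) (by simp)
  have hterm : ∀ z ∈ B.erase a,
      (g p)⁻¹ * ((c0 p)⁻¹ * (c0 a * ((d a)⁻¹ * (d z * (f z y * g y))))) ∈ R := by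
    intro z hz
    obtain ⟨hza, hzB⟩ := Finset.mem_erase.1 hz
    have h5 := hk.2 d hd a hda z
    have h6 := inv_memR hR (h1 z hzB hza) (norm_ratio hg.1 hk.1 z)
    have h7 := hg.entry hfa' (x := z) (by simp [hzB, hza]) y
    simp only [Finset.notMem_empty, if_false] at h7
    have h8 := R.mul_mem (R.mul_mem (R.mul_mem h2 h5) h6) h7
    convert h8 using 1
    simp only [mul_inv_rev, inv_inv, mul_assoc, mul_inv_cancel_left₀ (hkn a),
      mul_inv_cancel_left₀ (hkn z), mul_inv_cancel_left₀ (hgn z)]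
  have h9 : (g p)⁻¹ * ((c0 p)⁻¹ * (c0 y * g y)) =
      -∑ z ∈ B.erase a, (g p)⁻¹ * ((c0 p)⁻¹ * (c0 a * ((d a)⁻¹ * (d z * (f z y * g y))))) := by
    rw [hc0y]
    simp only [neg_mul, mul_neg, Finset.mul_sum, Finset.sum_mul, mul_assoc]
  rw [h9]
  exact R.neg_mem (R.sum_mem hterm)

theorem exists_sep {V : CG E} {p a y : E} (h3 : rk V {p, a, y} = 3) :
    ∃ c ∈ V, c p = 0 ∧ c y = 0 ∧ c a ≠ 0 := by
  by_contra hcon
  push Not at hcon
  have h4 : (V ⊓ vanish {p, a, y} : CG E) = V ⊓ vanish {p, y} := by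
    apply le_antisymm
    · apply inf_le_inf_left _ (vanish_anti _)
      intro z hz
      simp only [Finset.mem_insert, Finset.mem_singleton] at hz ⊢
      tauto
    · rintro c ⟨hc, hc'⟩
      refine ⟨hc, fun e he => ?_⟩
      simp only [Finset.mem_insert, Finset.mem_singleton] at he
      rcases he with rfl | rfl | rfl
      · exact hc' _ (by simp)
      · exact hcon c hc (hc' _ (by simp)) (hc' _ (by simp))
      · exact hc' _ (by simp)
  have h5 : rk V {p, a, y} = rk V {p, y} := by rw [rk, rk, h4]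
  have h6 := (rk_RK V).le_card {p, y}
  have h7 : ({p, y} : Finset E).card ≤ 2 := Finset.card_le_two
  omega

theorem glue_psl {R : Subring ℍ[ℝ]} (hR : ∀ x ∈ R, star x ∈ R) {V : CG E} {U : Finset E}
    (hU : SuppIn V U) (hV : IsQU V) {x a b y : E} (hx : x ∈ U) (ha : a ∈ U) (hb : b ∈ U)
    (hy : y ∈ U) (hxa : x ≠ a) (hxb : x ≠ b) (hxy : x ≠ y) (hab : a ≠ b) (hay : a ≠ y)
    (hby : b ≠ y) (r1 : rk V {x, a, b} = 2) (r2 : rk V {x, a} = 2) (r3 : rk V {x, b} = 2)
    (r4 : rk V {a, b} = 2) (r5 : rk V {a, b, y} = 3) (r6 : rk V {x, a, y} = 3)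
    (r7 : rk V (U \ {x, a, b, y}) = rk V U - 1)
    (r8 : ∀ e ∈ ({x, a, b, y} : Finset E), rk V (insert e (U \ {x, a, b, y})) = rk V U)
    {ka kb0 kx0 : E → ℍ[ℝ]} (hka : Gauged R (mino V ∅ {a}) ka)
    (hkb0 : Gauged R (mino V ∅ {b}) kb0) (hkx0 : Gauged R (mino V ∅ {x}) kx0)
    (hcmp : ∀ g g', Gauged R (mino V {x, y} {a}) g → Gauged R (mino V {x, y} {a}) g' →
      ∃ v, NormR R v ∧ ∀ e ∈ U \ {x, y, a}, (g e)⁻¹ * g' e * v⁻¹ ∈ R) :
    ∃ G, Gauged R V G := by
  classical
  have hr := rk_RK V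
  -- the elementary chain `c0`
  have hzero : ∀ d ∈ V, (∀ e ∈ U \ {x, a, b, y}, d e = 0) →
      ∀ e ∈ ({x, a, b, y} : Finset E), d e = 0 → d = 0 := by
    intro d hd h0 e he hde
    refine inj_of_rk (V := V) (A := insert e (U \ {x, a, b, y})) ?_ d hd ?_
    · rw [r8 e he, hU.rk_eq]
    · intro e' he'
      rcases Finset.mem_insert.1 he' with rfl | h
      · exact hde
      · exact h0 e' h
  obtain ⟨c0, hc0, hc00⟩ : ∃ c ∈ (V ⊓ vanish (U \ {x, a, b, y}) : CG E), c ≠ 0 := by
    by_contra hcon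
    push Not at hcon
    have h1 : (V ⊓ vanish (U \ {x, a, b, y}) : CG E) = ⊥ := by
      rw [eq_bot_iff]; intro c hc; exact (Submodule.mem_bot _).2 (hcon c hc)
    have h2 := hU.rk_eq
    rw [rk, h1, finrank_bot] at r7
    push_cast at r7
    omega
  have hc0n : ∀ e ∈ ({x, a, b, y} : Finset E), c0 e ≠ 0 := fun e he h0 =>
    hc00 (hzero c0 hc0.1 hc0.2 e he h0)
  have hc0z : ∀ e, e ≠ x → e ≠ a → e ≠ b → e ≠ y → c0 e = 0 := by
    intro e h1 h2 h3 h4
    by_cases heU : e ∈ U
    · exact hc0.2 e (by simp [heU, h1, h2, h3, h4])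
    · exact hU c0 hc0.1 e heU
  have hx0 : c0 x ≠ 0 := hc0n x (by simp)
  have ha0 : c0 a ≠ 0 := hc0n a (by simp)
  have hb0 : c0 b ≠ 0 := hc0n b (by simp)
  have hy0 : c0 y ≠ 0 := hc0n y (by simp)
  have hel : Elem V c0 := by
    refine ⟨hc0.1, hc00, fun d hd hd0 hsub e he => ?_⟩
    by_contra hce
    have he4 : e ∈ ({x, a, b, y} : Finset E) := by
      by_contra h
      simp only [Finset.mem_insert, Finset.mem_singleton, not_or] at h
      exact hce (hc0z e h.1 h.2.1 h.2.2.1 h.2.2.2)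
    exact hd0 (hzero d hd (fun e' he' => hsub e' (hc0.2 e' he')) e he4 he)
  obtain ⟨B, f, hf, haB, hc0f⟩ := hel.frame ha0
  have hfa : ∀ w, f a w = (c0 a)⁻¹ * c0 w := by
    intro w
    have h1 := congrFun hc0f w
    rw [Pi.smul_apply, smul_eq_mul] at h1
    rw [h1, inv_mul_cancel_left₀ ha0]
  have hBU := hf.subset hU
  have hnB : ∀ e, e ≠ a → c0 e ≠ 0 → e ∉ B := by
    intro e hea he0 heB
    have h1 := hf.zero a haB e heB (Ne.symm hea)
    rw [hfa] at h1
    exact (mul_ne_zero (inv_ne_zero ha0) he0) h1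
  have hbB : b ∉ B := hnB b (Ne.symm hab) hb0
  have hxB : x ∉ B := hnB x hxa hx0
  have hyB : y ∉ B := hnB y (Ne.symm hay) hy0
  have hB0 : ∀ z ∈ B, z ≠ a → z ∈ U \ {x, y, a} := by
    intro z hz hza
    simp only [Finset.mem_sdiff, Finset.mem_insert, Finset.mem_singleton, not_or]
    exact ⟨hBU hz, fun h => hxB (h ▸ hz), fun h => hyB (h ▸ hz), hza⟩
  have hfza : ∀ z ∈ B, z ≠ a → f z a = 0 := fun z hz hza => hf.zero z hz a haB hza
  -- frames of `N` and `V/a`
  have hfN := hf.minor (D := {x, y}) (K := {a}) (by simpa using haB) (by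
    rw [Finset.disjoint_left]
    intro z hz
    rcases Finset.mem_insert.1 hz with rfl | hz
    · exact hxB
    · rw [Finset.mem_singleton.1 hz]; exact hyB)
  have hNQ := hV.minor {x, y} {a}
  have hfA := hf.minor (D := ∅) (K := {a}) (by simpa using haB) (by simp)
  have hkaN : Gauged R (mino V {x, y} {a}) ka := by
    have := hka.minor {x, y} ∅
    rwa [mino_mino V (by simp), Finset.empty_union, Finset.union_empty] at this
  have hab1 : ‖(c0 b)⁻¹ * c0 a‖ = 1 := by
    rw [norm_mul, norm_inv, hV c0 hel a b ha0 hb0]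
    exact inv_mul_cancel₀ (norm_ne_zero_iff.2 hb0)
  -- the gauge `k'`
  have hk' : Gauged R (mino V {x, y} {a}) (fun e => if e = b then (c0 b)⁻¹ * c0 a * kb0 a
      else kb0 e) := by
    refine Gauged.of_frame hR hNQ hfN ?_ ?_
    · intro e
      by_cases he : e = b
      · simp only [he, if_true]; exact norm_mul_one hab1 (hkb0.1 a)
      · simp only [he, if_false]; exact hkb0.1 e
    · intro z hz w
      obtain ⟨hzB, hza⟩ := Finset.mem_sdiff.1 hz
      rw [Finset.mem_singleton] at hza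
      have hzb : z ≠ b := fun h => hbB (h ▸ hzB)
      simp only [hzb, if_false]
      by_cases hw : w ∈ ({x, y} : Finset E)
      · simp only [hw, if_true, mul_zero, zero_mul]; exact R.zero_mem
      · simp only [hw, if_false]
        simp only [Finset.mem_insert, Finset.mem_singleton, not_or] at hw
        by_cases hwb : w = b
        · simp only [hwb, if_true]
          have h1 := psl_entry hf haB hbB ha0 hb0 hfa hkb0 hzB hza a
          rw [hfza z hzB hza, zero_sub] at h1
          have h2 := R.neg_mem h1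
          convert h2 using 1
          simp only [mul_neg, neg_mul, neg_neg, mul_assoc]
        · simp only [hwb, if_false]
          by_cases hwa : w = a
          · rw [hwa, hfza z hzB hza, mul_zero, zero_mul]; exact R.zero_mem
          · have h1 := psl_entry hf haB hbB ha0 hb0 hfa hkb0 hzB hza w
            rw [hc0z w hw.1 hwa hwb hw.2, mul_zero, mul_zero, sub_zero] at h1
            exact h1
  -- `x` and `b` are parallel in `V/a`
  have ra : rk V {a} = 1 := by
    have h1 := hr.le_card {a}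
    have h2 := hr.step {a} x
    simp only [Finset.card_singleton] at h1
    push_cast at h1
    omega
  have rx : rk V {x} = 1 := by
    have h1 := hr.le_card {x}
    have h2 := hr.step {x} b
    rw [Finset.pair_comm] at h2
    simp only [Finset.card_singleton] at h1
    push_cast at h1
    omega
  obtain ⟨μ, hμ, hpar⟩ : ∃ μ : ℍ[ℝ], ‖μ‖ = 1 ∧ ∀ c ∈ mino V ∅ {a}, c x = c b * μ := by
    apply parallel_mul (hV.minor ∅ {a})
    · rw [rk_mino V (by simp) (by simp), con]
      have : ({x} ∪ {a} : Finset E) = {x, a} := rfl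
      rw [this]; omega
    · rw [rk_mino V (by simp) (by simp), con]
      have : ({b} ∪ {a} : Finset E) = {a, b} := by rw [Finset.pair_comm]; rfl
      rw [this]; omega
    · rw [rk_mino V (by simp) (by simp), con]
      have : ({x, b} ∪ {a} : Finset E) = {x, a, b} := by
        ext z
        simp only [Finset.mem_union, Finset.mem_insert, Finset.mem_singleton]
        tauto
      rw [this]; omega
  have hfx : ∀ z ∈ B, z ≠ a → f z x = f z b * μ := fun z hz hza =>
    hpar (f z) (mem_con.2 ⟨hf.mem z hz, hfza z hz hza⟩)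
  set κ : ℍ[ℝ] := 1 - μ * ((c0 x)⁻¹ * c0 b) with hκ
  have hfκ : ∀ z ∈ B, z ≠ a → f z b - f z x * ((c0 x)⁻¹ * c0 b) = f z b * κ := by
    intro z hz hza
    rw [hfx z hz hza, hκ, mul_sub, mul_one, mul_assoc]
  have hfax : f a x ≠ 0 := by rw [hfa]; exact mul_ne_zero (inv_ne_zero ha0) hx0
  have hκ1 : ‖κ‖ = 1 := by
    have hfX := hf.pivot haB hxB hfax
    have h1 : ¬ ∀ z ∈ insert x (B.erase a) \ {x}, (if z = x then (f a x)⁻¹ * f a b
        else f z b - f z x * (f a x)⁻¹ * f a b) = 0 := by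
      intro h
      have h2 := (hfX.closure_iff (X := {x}) (by simp) b).2 h
      rw [Finset.pair_comm] at h2
      omega
    push Not at h1
    obtain ⟨z, hz, hz0⟩ := h1
    simp only [Finset.mem_sdiff, Finset.mem_insert, Finset.mem_erase, Finset.mem_singleton] at hz
    obtain ⟨hz1, hzx⟩ := hz
    obtain ⟨hza, hzB⟩ := hz1.resolve_left hzx
    rw [if_neg hzx] at hz0
    have h3 : f z b - f z x * (f a x)⁻¹ * f a b = f z b * κ := by
      rw [← hfκ z hzB hza, hfa, hfa, mul_inv_rev, inv_inv]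
      simp only [mul_assoc, mul_inv_cancel_left₀ ha0]
    have h4 := hfX.qu hV (x := z) (by simp [hza, hzB]) b
    rw [if_neg hzx] at h4
    have h5 := h4.resolve_left hz0
    rw [h3] at h5 hz0
    rw [norm_mul] at h5
    have h6 := (hf.qu hV hzB b).resolve_left (fun h => hz0 (by rw [h, zero_mul]))
    rwa [h6, one_mul] at h5
  -- the gauge `k''`
  have hk'' : Gauged R (mino V {x, y} {a}) (fun e => if e = b then κ * kx0 b else kx0 e) := by
    refine Gauged.of_frame hR hNQ hfN ?_ ?_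
    · intro e
      by_cases he : e = b
      · simp only [he, if_true]; exact norm_mul_one hκ1 (hkx0.1 b)
      · simp only [he, if_false]; exact hkx0.1 e
    · intro z hz w
      obtain ⟨hzB, hza⟩ := Finset.mem_sdiff.1 hz
      rw [Finset.mem_singleton] at hza
      have hzb : z ≠ b := fun h => hbB (h ▸ hzB)
      simp only [hzb, if_false]
      by_cases hw : w ∈ ({x, y} : Finset E)
      · simp only [hw, if_true, mul_zero, zero_mul]; exact R.zero_mem
      · simp only [hw, if_false]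
        simp only [Finset.mem_insert, Finset.mem_singleton, not_or] at hw
        by_cases hwb : w = b
        · simp only [hwb, if_true]
          have h1 := psl_entry hf haB hxB ha0 hx0 hfa hkx0 hzB hza b
          rw [hfκ z hzB hza] at h1
          convert h1 using 1
          simp only [mul_assoc]
        · simp only [hwb, if_false]
          by_cases hwa : w = a
          · rw [hwa, hfza z hzB hza, mul_zero, zero_mul]; exact R.zero_mem
          · have h1 := psl_entry hf haB hxB ha0 hx0 hfa hkx0 hzB hza w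
            rw [hc0z w hw.1 hwa hwb hw.2, mul_zero, mul_zero, sub_zero] at h1
            exact h1
  -- compare
  obtain ⟨v1, hv1, hv1U⟩ := hcmp ka _ hkaN hk'
  obtain ⟨v2, hv2, hv2U⟩ := hcmp ka _ hkaN hk''
  have hbN : b ∈ U \ {x, y, a} := by
    simp only [Finset.mem_sdiff, Finset.mem_insert, Finset.mem_singleton, not_or]
    exact ⟨hb, Ne.symm hxb, hby, Ne.symm hab⟩
  have hkb : Gauged R (mino V ∅ {b}) (fun e => kb0 e * v1⁻¹) :=
    hkb0.mul_norm (hV.minor _ _) hv1.inv
  have hkx : Gauged R (mino V ∅ {x}) (fun e => kx0 e * v2⁻¹) :=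
    hkx0.mul_norm (hV.minor _ _) hv2.inv
  have hkbz : ∀ z ∈ B, z ≠ a → (ka z)⁻¹ * (kb0 z * v1⁻¹) ∈ R := by
    intro z hz hza
    have h1 := hv1U z (hB0 z hz hza)
    have hzb : z ≠ b := fun h => hbB (h ▸ hz)
    simp only [hzb, if_false] at h1
    rwa [mul_assoc] at h1
  have hkxz : ∀ z ∈ B, z ≠ a → (ka z)⁻¹ * (kx0 z * v2⁻¹) ∈ R := by
    intro z hz hza
    have h1 := hv2U z (hB0 z hz hza)
    have hzb : z ≠ b := fun h => hbB (h ▸ hz)
    simp only [hzb, if_false] at h1
    rwa [mul_assoc] at h1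
  have hkbb : (ka b)⁻¹ * ((c0 b)⁻¹ * (c0 a * (kb0 a * v1⁻¹))) ∈ R := by
    have h1 := hv1U b hbN
    simp only [if_true] at h1
    simpa only [mul_assoc] using h1
  have hkan : ∀ e, ka e ≠ 0 := fun e => ne_of_norm_one (hka.1 e)
  -- `γ_b`
  have hγb : (ka b)⁻¹ * ((c0 b)⁻¹ * (c0 y * ka y)) ∈ R :=
    psl_gamma hR hV hf haB hyB ha0 hb0 hfa hkb hka hkbz hkbb
      (exists_sep (by rw [← r5]; congr 1; ext z; simp only [Finset.mem_insert, Finset.mem_singleton]; tauto))
  -- the condition for `x`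
  have hkxx : (ka x)⁻¹ * ((c0 x)⁻¹ * (c0 a * (kx0 a * v2⁻¹))) ∈ R := by
    obtain ⟨z, hz, hz0⟩ : ∃ z ∈ B \ {a}, f z x ≠ 0 := by
      by_contra hcon
      push Not at hcon
      have h2 := (hf.closure_iff (X := {a}) (by simpa using haB) x).2 hcon
      have h3 : (insert x {a} : Finset E) = {x, a} := rfl
      rw [h3] at h2
      omega
    obtain ⟨hzB, hza⟩ := Finset.mem_sdiff.1 hz
    rw [Finset.mem_singleton] at hza
    have h1 := psl_entry hf haB hxB ha0 hx0 hfa hkx hzB hza a
    rw [hfza z hzB hza, zero_sub] at h1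
    have h2 := R.neg_mem h1
    have h3 := hka.entry hfA (x := z) hz x
    have h4 := entry_norm (hV.minor ∅ {a}) hka.1 hka.1 hfA (x := z) hz (y := x) (by
      simpa using hz0)
    simp only [Finset.notMem_empty, if_false] at h3 h4
    have h5 := R.mul_mem (R.mul_mem (inv_memR hR h3 h4) (hkxz z hzB hza)) h2
    convert h5 using 1
    have hkxn : kx0 z * v2⁻¹ ≠ 0 := ne_of_norm_one (hkx.1 z)
    simp only [mul_neg, neg_mul, neg_neg]
    generalize kx0 z * v2⁻¹ = q at hkxn ⊢
    simp only [mul_inv_rev, inv_inv, mul_assoc, mul_inv_cancel_left₀ (hkan z),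
      mul_inv_cancel_left₀ hkxn, inv_mul_cancel_left₀ hz0]
  have hγx : (ka x)⁻¹ * ((c0 x)⁻¹ * (c0 y * ka y)) ∈ R :=
    psl_gamma hR hV hf haB hyB ha0 hx0 hfa hkx hka hkxz hkxx
      (exists_sep r6)
  have hγx1 : ‖(ka x)⁻¹ * ((c0 x)⁻¹ * (c0 y * ka y))‖ = 1 := by
    rw [norm_mul, norm_mul, norm_mul, norm_inv, norm_inv, hka.1, hka.1, hV c0 hel x y hx0 hy0]
    have : ‖c0 y‖ ≠ 0 := norm_ne_zero_iff.2 hy0
    field_simp
  have hbx : (ka b)⁻¹ * ((c0 b)⁻¹ * (c0 x * ka x)) ∈ R := by
    have h1 := R.mul_mem hγb (inv_memR hR hγx hγx1)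
    convert h1 using 1
    simp only [mul_inv_rev, inv_inv, mul_assoc, mul_inv_cancel_left₀ (hkan y),
      mul_inv_cancel_left₀ hy0]
  -- the gauge of `V`
  have hGa : ‖(c0 a)⁻¹ * (c0 b * ka b)‖ = 1 := by
    rw [norm_mul, norm_mul, norm_inv, hka.1, hV c0 hel a b ha0 hb0, mul_one]
    exact inv_mul_cancel₀ (norm_ne_zero_iff.2 hb0)
  refine ⟨fun e => if e = a then (c0 a)⁻¹ * (c0 b * ka b) else ka e,
    Gauged.of_frame hR hV hf ?_ ?_⟩
  · intro e
    by_cases he : e = a
    · simp only [he, if_true]; exact hGa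
    · simp only [he, if_false]; exact hka.1 e
  · intro z hz w
    by_cases hza : z = a
    · simp only [hza, if_true]
      rw [hfa]
      have h1 : ∀ q : ℍ[ℝ], ((c0 a)⁻¹ * (c0 b * ka b))⁻¹ * ((c0 a)⁻¹ * c0 w) * q =
          (ka b)⁻¹ * ((c0 b)⁻¹ * (c0 w * q)) := by
        intro q
        simp only [mul_inv_rev, inv_inv, mul_assoc, mul_inv_cancel_left₀ ha0]
      rw [h1]
      by_cases hwa : w = a
      · simp only [hwa, if_true]
        rw [mul_inv_cancel_left₀ ha0, inv_mul_cancel_left₀ hb0, inv_mul_cancel₀ (hkan b)]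
        exact R.one_mem
      · simp only [hwa, if_false]
        by_cases hwb : w = b
        · rw [hwb, inv_mul_cancel_left₀ hb0, inv_mul_cancel₀ (hkan b)]
          exact R.one_mem
        · by_cases hwx : w = x
          · rw [hwx]; exact hbx
          · by_cases hwy : w = y
            · rw [hwy]; exact hγb
            · rw [hc0z w hwx hwa hwb hwy]; simp [R.zero_mem]
    · simp only [hza, if_false]
      by_cases hwa : w = a
      · rw [hwa, hfza z hz hza]; simp [R.zero_mem]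
      · simp only [hwa, if_false]
        have h1 := hka.entry hfA (x := z) (by simp [hz, hza]) w
        simpa only [Finset.notMem_empty, if_false] using h1

/-- the gluing axioms hold for a QU chain group.  `hrig`: distinguished chain groups are rigid. -/
theorem chain_GA {R : Subring ℍ[ℝ]} (hR : ∀ x ∈ R, star x ∈ R)
    {NN : Finset E → (Finset E → ℤ) → Prop} (hN : NNax NN)
    (hrig : ∀ (S : Finset E) (W : CG E), SuppIn W S → IsQU W → NN S (rk W) →
      ∀ g g', Gauged R W g → Gauged R W g' → ∃ e ∈ S, NormR R ((g e)⁻¹ * g' e))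
    {V : CG E} {U : Finset E} (hU : SuppIn V U) (hV : IsQU V) :
    GA NN U (rk V) (fun D K => ∃ g, Gauged R (mino V D K) g) where
  par := by
    rintro D K s t hD hK hDK hs ht hst h1 h2 h3 ⟨g, hg⟩
    simp only [Finset.mem_sdiff, Finset.mem_union, not_or] at hs ht
    have hsD : Disjoint ({s} : Finset E) D := by simpa using hs.2.1
    have htD : Disjoint ({t} : Finset E) D := by simpa using ht.2.1
    have hstD : Disjoint ({s, t} : Finset E) D := by
      rw [Finset.disjoint_left]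
      intro z hz
      rcases Finset.mem_insert.1 hz with rfl | hz
      · exact hs.2.1
      · rw [Finset.mem_singleton.1 hz]; exact ht.2.1
    refine glue_par (W := mino V D K) (s := s) (t := t) (g := g) (hV.minor D K) hst ?_ ?_ ?_ ?_
    · rw [rk_mino V hsD hDK.symm]; exact h1
    · rw [rk_mino V htD hDK.symm]; exact h2
    · rw [rk_mino V hstD hDK.symm]; exact h3
    · rw [mino_mino V (Finset.disjoint_empty_right _), Finset.union_empty, Finset.union_comm,
        ← Finset.insert_eq]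
      exact hg
  pl := by
    rintro a b ha hb hab hr ⟨g, hg⟩ ⟨g', hg'⟩ hc hF
    have hgm := hg.minor {b} ∅
    rw [mino_mino_del] at hgm
    have hgm' := hg'.minor {a} ∅
    rw [mino_mino_del, Finset.pair_comm] at hgm'
    rw [← con_empty (rk V) (rk_RK V).empty] at hc hF
    obtain ⟨v, hv, hvU⟩ := compare_minor hR hN hrig hU hV (D := {a, b}) (K := ∅)
      (Finset.disjoint_empty_right _) (by rw [Finset.union_empty]) hc hF hgm hgm'
    rw [mino_empty]
    exact glue_pl hR hU hV ha hb hab hr hg hg' hv hvU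
  tl := by
    rintro u v w hu hv hw huv huw hvw hr ⟨g, hg⟩ ⟨g', hg'⟩ ⟨k, hk⟩ hc hc1 hF1 hc2 hF2
    -- compare on `V \ u / w`
    have hg1 := hg.minor ∅ {w}
    rw [mino_mino_del_con V huw] at hg1
    have hk1 := hk.minor {u} ∅
    rw [mino_mino_con_del] at hk1
    have hg2 := hg'.minor ∅ {w}
    rw [mino_mino_del_con V hvw] at hg2
    have hk2 := hk.minor {v} ∅
    rw [mino_mino_con_del] at hk2
    obtain ⟨v1, hv1, hv1U⟩ := compare_minor hR hN hrig hU hV (D := {u}) (K := {w})
      (by simpa using huw) (sdiff_union_sing U u w) hc1 hF1 hg1 hk1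
    obtain ⟨v2, hv2, hv2U⟩ := compare_minor hR hN hrig hU hV (D := {v}) (K := {w})
      (by simpa using hvw) (sdiff_union_sing U v w) hc2 hF2 hg2 hk2
    -- a common element
    obtain ⟨e, he⟩ : ∃ e, e ∈ U \ {u, w} ∧ e ≠ v := by
      obtain ⟨S, K, hS, -, -, hNN⟩ := hF1
      have h4 := hN.card _ _ hNN
      have h5 : 0 < (S.erase v).card := by
        have := Finset.pred_card_le_card_erase (s := S) (a := v)
        omega
      obtain ⟨e, he⟩ := Finset.card_pos.1 h5
      obtain ⟨h6, h7⟩ := Finset.mem_erase.1 he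
      exact ⟨e, hS h7, h6⟩
    obtain ⟨he1, hev⟩ := he
    simp only [Finset.mem_sdiff, Finset.mem_insert, Finset.mem_singleton, not_or] at he1
    have n1 := normR_of_ratio hR hg.1 hk.1 hv1 (hv1U e (by simp [he1]))
    have n2 := normR_of_ratio hR hg'.1 hk.1 hv2 (hv2U e (by simp [he1, hev]))
    have n3 : NormR R ((g e)⁻¹ * g' e) := by
      have h7 := n1.mul n2.inv
      convert h7 using 1
      simp only [mul_inv_rev, inv_inv, mul_assoc, mul_inv_cancel_left₀ (ne_of_norm_one (hk.1 e))]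
    -- compare on `V \ {u, v}`
    have hgm := hg.minor {v} ∅
    rw [mino_mino_del] at hgm
    have hgm' := hg'.minor {u} ∅
    rw [mino_mino_del, Finset.pair_comm] at hgm'
    have hsupp : SuppIn (mino V {u, v} ∅) (U \ {u, v}) := by
      have := hU.minor {u, v} ∅
      rwa [Finset.union_empty] at this
    have hconn : Conn (U \ {u, v}) (rk (mino V {u, v} ∅)) := by
      refine hc.congr ?_
      intro A hA
      rw [rk_mino V _ (by simp), con_empty _ (rk_RK V).empty]
      rw [Finset.disjoint_left]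
      intro z hz hz'
      exact (Finset.mem_sdiff.1 (hA hz)).2 hz'
    obtain ⟨v3, hv3, hv3U⟩ := compare_of_mem hR hsupp (hV.minor _ _) hconn hgm hgm'
      (e := e) (by simp [he1, hev]) n3
    rw [mino_empty]
    exact glue_pl hR hU hV hu hv huv hr hg hg' hv3 hv3U
  psl := by
    rintro x a b y hx ha hb hy hxa hxb hxy hab hay hby r1 r2 r3 r4 r5 r6 r7 r8 ⟨ka, hka⟩ ⟨kb, hkb⟩
      ⟨kx, hkx⟩ hc hF
    rw [mino_empty]
    refine glue_psl hR hU hV hx ha hb hy hxa hxb hxy hab hay hby r1 r2 r3 r4 r5 r6 r7 r8 hka hkb hkx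
      ?_
    intro g g' hg hg'
    refine compare_minor hR hN hrig hU hV (D := {x, y}) (K := {a}) ?_ ?_ hc hF hg hg'
    · rw [Finset.disjoint_singleton_right, Finset.mem_insert, Finset.mem_singleton, not_or]
      exact ⟨Ne.symm hxa, hay⟩
    · congr 1
      ext z
      simp only [Finset.mem_union, Finset.mem_insert, Finset.mem_singleton]
      tauto
  mix := by
    rintro x y X hx hy hxy ⟨g, hg⟩ ⟨g', hg'⟩ hc hF hX h1 h2
    have hg1 := hg.minor ∅ {y}
    rw [mino_mino_del_con V hxy] at hg1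
    have hg2 := hg'.minor {x} ∅
    rw [mino_mino_con_del] at hg2
    obtain ⟨v, hv, hvU⟩ := compare_minor hR hN hrig hU hV (D := {x}) (K := {y})
      (by simpa using hxy) (sdiff_union_sing U x y) hc hF hg1 hg2
    rw [mino_empty]
    exact glue_mix hR hU hV hx hy hxy hX h1 h2 hg hg' hv hvU

theorem GA.congr {α : Type*} [DecidableEq α] {NN : Finset α → (Finset α → ℤ) → Prop}
    (hN : NNax NN) {U : Finset α} {r r' : Finset α → ℤ} {G G' : Finset α → Finset α → Prop}
    (hr : ∀ A, A ⊆ U → r A = r' A)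
    (hG : ∀ D K, Disjoint D K → D ⊆ U → K ⊆ U → (G D K ↔ G' D K)) (h : GA NN U r G) :
    GA NN U r' G' := by
  have hG0 : G ∅ ∅ ↔ G' ∅ ∅ := hG _ _ (by simp) (by simp) (by simp)
  have hG1 : ∀ a ∈ U, (G {a} ∅ ↔ G' {a} ∅) := fun a ha =>
    hG _ _ (by simp) (by simpa using ha) (by simp)
  have hG2 : ∀ a ∈ U, (G ∅ {a} ↔ G' ∅ {a}) := fun a ha =>
    hG _ _ (by simp) (by simp) (by simpa using ha)
  have hcon : ∀ w ∈ U, ∀ U', U' ⊆ U → ∀ A, A ⊆ U' → con r' {w} A = con r {w} A := by
    intro w hw U' hU' A hA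
    have hw' : ({w} : Finset α) ⊆ U := by simpa using hw
    rw [con, con, hr _ (Finset.union_subset (hA.trans hU') hw'), hr _ hw']
  have hdel : ∀ U', U' ⊆ U → ∀ A, A ⊆ U' → r' A = r A := fun U' hU' A hA =>
    (hr A (hA.trans hU')).symm
  refine ⟨?_, ?_, ?_, ?_, ?_⟩
  · intro D K s t hD hK hDK hs ht hst h1 h2 h3 h4
    have hs' := Finset.mem_sdiff.1 hs
    have ht' := Finset.mem_sdiff.1 ht
    have hsU : ({s} : Finset α) ⊆ U := by simpa using hs'.1
    have htU : ({t} : Finset α) ⊆ U := by simpa using ht'.1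
    have hstU : ({s, t} : Finset α) ⊆ U := by
      intro z hz
      rcases Finset.mem_insert.1 hz with rfl | hz
      · exact hs'.1
      · rw [Finset.mem_singleton.1 hz]; exact ht'.1
    have hvalid : Disjoint (insert s D) K := by
      rw [Finset.disjoint_insert_left]
      exact ⟨fun h => hs'.2 (Finset.mem_union_right _ h), hDK⟩
    rw [← hG D K hDK hD hK]
    refine h.par D K s t hD hK hDK hs ht hst ?_ ?_ ?_
      ((hG _ _ hvalid (Finset.insert_subset hs'.1 hD) hK).2 h4)
    · rw [con, hr _ (Finset.union_subset hsU hK), hr _ hK]; exact h1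
    · rw [con, hr _ (Finset.union_subset htU hK), hr _ hK]; exact h2
    · rw [con, hr _ (Finset.union_subset hstU hK), hr _ hK]; exact h3
  · intro a b ha hb hab h1 h2 h3 h4 h5
    rw [← hG0]
    exact h.pl a b ha hb hab (by rw [hr _ Finset.sdiff_subset, hr _ (Finset.Subset.refl _)]; exact h1)
      ((hG1 a ha).2 h2) ((hG1 b hb).2 h3) (h4.congr (hdel _ Finset.sdiff_subset))
      (h5.congr hN (hdel _ Finset.sdiff_subset))
  · intro u v w hu hv hw huv huw hvw h1 h2 h3 h4 h5 h6 h7 h8 h9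
    rw [← hG0]
    exact h.tl u v w hu hv hw huv huw hvw
      (by rw [hr _ Finset.sdiff_subset, hr _ (Finset.Subset.refl _)]; exact h1)
      ((hG1 u hu).2 h2) ((hG1 v hv).2 h3) ((hG2 w hw).2 h4) (h5.congr (hdel _ Finset.sdiff_subset))
      (h6.congr (hcon w hw _ Finset.sdiff_subset)) (h7.congr hN (hcon w hw _ Finset.sdiff_subset))
      (h8.congr (hcon w hw _ Finset.sdiff_subset)) (h9.congr hN (hcon w hw _ Finset.sdiff_subset))
  · intro x a b y hx ha hb hy hxa hxb hxy hab hay hby r1 r2 r3 r4 r5 r6 r7 r8 h1 h2 h3 h4 h5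
    rw [← hG0]
    have hsub : ∀ A : Finset α, A ⊆ {x, a, b, y} → A ⊆ U := by
      intro A hA z hz
      have := hA hz
      simp only [Finset.mem_insert, Finset.mem_singleton] at this
      rcases this with rfl | rfl | rfl | rfl <;> assumption
    refine h.psl x a b y hx ha hb hy hxa hxb hxy hab hay hby ?_ ?_ ?_ ?_ ?_ ?_ ?_ ?_
      ((hG2 a ha).2 h1) ((hG2 b hb).2 h2) ((hG2 x hx).2 h3)
      (h4.congr (hcon a ha _ Finset.sdiff_subset)) (h5.congr hN (hcon a ha _ Finset.sdiff_subset))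
    · rw [hr _ (hsub _ (by intro z; simp only [Finset.mem_insert, Finset.mem_singleton]; tauto))]
      exact r1
    · rw [hr _ (hsub _ (by intro z; simp only [Finset.mem_insert, Finset.mem_singleton]; tauto))]
      exact r2
    · rw [hr _ (hsub _ (by intro z; simp only [Finset.mem_insert, Finset.mem_singleton]; tauto))]
      exact r3
    · rw [hr _ (hsub _ (by intro z; simp only [Finset.mem_insert, Finset.mem_singleton]; tauto))]
      exact r4
    · rw [hr _ (hsub _ (by intro z; simp only [Finset.mem_insert, Finset.mem_singleton]; tauto))]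
      exact r5
    · rw [hr _ (hsub _ (by intro z; simp only [Finset.mem_insert, Finset.mem_singleton]; tauto))]
      exact r6
    · rw [hr _ Finset.sdiff_subset, hr _ (Finset.Subset.refl _)]; exact r7
    · intro e he
      rw [hr _ (Finset.insert_subset (hsub {e} (by simpa using he) (by simp)) Finset.sdiff_subset),
        hr _ (Finset.Subset.refl _)]
      exact r8 e he
  · intro x y X hx hy hxy h1 h2 h3 h4 hX h5 h6
    rw [← hG0]
    have hXU : X ⊆ U := hX.trans Finset.sdiff_subset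
    refine h.mix x y X hx hy hxy ((hG1 x hx).2 h1) ((hG2 y hy).2 h2)
      (h3.congr (hcon y hy _ Finset.sdiff_subset)) (h4.congr hN (hcon y hy _ Finset.sdiff_subset))
      hX ?_ ?_
    · rw [hr _ (Finset.insert_subset hx hXU), hr _ hXU]; exact h5
    · rw [hr _ (Finset.insert_subset hy hXU), hr _ hXU]; exact h6

/-- dual version (apply `chain_GA` to `perp U V`). -/
theorem chain_GA_dual {R : Subring ℍ[ℝ]} (hR : ∀ x ∈ R, star x ∈ R)
    {NN : Finset E → (Finset E → ℤ) → Prop} (hN : NNax NN)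
    (hrig : ∀ (S : Finset E) (W : CG E), SuppIn W S → IsQU W → NN S (rk W) →
      ∀ g g', Gauged R W g → Gauged R W g' → ∃ e ∈ S, NormR R ((g e)⁻¹ * g' e))
    {V : CG E} {U : Finset E} (hU : SuppIn V U) (hV : IsQU V) :
    GA NN U (dl U (rk V)) (fun D K => (Disjoint D K ∧ D ⊆ U ∧ K ⊆ U) → ∃ g, Gauged R (mino V K D) g) := by
  refine GA.congr hN (fun A hA => rk_perp hU hA) ?_
    (chain_GA hR hN hrig (perp_suppIn U V) (hV.dual hU))
  intro D K hDK hD hK
  have hW := hU.minor K D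
  have hQ := hV.minor K D
  have heq : mino (perp U V) D K = perp (U \ (K ∪ D)) (mino V K D) :=
    perp_mino hU hK hD hDK.symm
  constructor
  · rintro ⟨g, hg⟩ -
    rw [heq] at hg
    have h1 := hg.dual hR (perp_suppIn _ _) (hQ.dual hW)
    rw [perp_perp hW] at h1
    exact ⟨g, h1⟩
  · intro h
    obtain ⟨g, hg⟩ := h ⟨hDK, hD, hK⟩
    rw [heq]
    exact ⟨g, hg.dual hR hW hQ⟩

end Pool.Agent.QU
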