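import Pool.Agent.QU.GrpA

set_option linter.unusedVariables false
set_option linter.unusedSectionVars false
set_option linter.style.longLine false
set_option linter.unusedSimpArgs false
set_option linter.unnecessarySeqFocus false
set_option linter.unusedTactic false

/-! Quaternion groups, part B: a computable model of the icosian field and the finite
computations for `P₆`. -/

open Quaternion

namespace Pool.Agent.QU

namespace Grp

/-- dyadic model: coordinates `(a + b φ) / 2 ^ k` -/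
structure D8 where
  k : ℕ
  (a0 b0 a1 b1 a2 b2 a3 b3 : ℤ)

noncomputable def co (k : ℕ) (a b : ℤ) : ℝ := ((a : ℝ) + b * phi) * (1 / 2) ^ k

namespace D8

noncomputable def val (x : D8) : ℍ[ℝ] :=
  qq (co x.k x.a0 x.b0) (co x.k x.a1 x.b1) (co x.k x.a2 x.b2) (co x.k x.a3 x.b3)

def mul : D8 → D8 → D8
  | ⟨k, a0, b0, a1, b1, a2, b2, a3, b3⟩, ⟨l, c0, d0, c1, d1, c2, d2, c3, d3⟩ =>
    ⟨k + l,
     (a0*c0+b0*d0) - (a1*c1+b1*d1) - (a2*c2+b2*d2) - (a3*c3+b3*d3),
     (a0*d0+b0*c0+b0*d0) - (a1*d1+b1*c1+b1*d1) - (a2*d2+b2*c2+b2*d2) - (a3*d3+b3*c3+b3*d3),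
     (a0*c1+b0*d1) + (a1*c0+b1*d0) + (a2*c3+b2*d3) - (a3*c2+b3*d2),
     (a0*d1+b0*c1+b0*d1) + (a1*d0+b1*c0+b1*d0) + (a2*d3+b2*c3+b2*d3) - (a3*d2+b3*c2+b3*d2),
     (a0*c2+b0*d2) - (a1*c3+b1*d3) + (a2*c0+b2*d0) + (a3*c1+b3*d1),
     (a0*d2+b0*c2+b0*d2) - (a1*d3+b1*c3+b1*d3) + (a2*d0+b2*c0+b2*d0) + (a3*d1+b3*c1+b3*d1),
     (a0*c3+b0*d3) + (a1*c2+b1*d2) - (a2*c1+b2*d1) + (a3*c0+b3*d0),
     (a0*d3+b0*c3+b0*d3) + (a1*d2+b1*c2+b1*d2) - (a2*d1+b2*c1+b2*d1) + (a3*d0+b3*c0+b3*d0)⟩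

theorem val_mul (x y : D8) : val (mul x y) = val x * val y := by
  obtain ⟨k, a0, b0, a1, b1, a2, b2, a3, b3⟩ := x
  obtain ⟨l, c0, d0, c1, d1, c2, d2, c3, d3⟩ := y
  apply qext <;> simp only [val, mul, co, Quaternion.re_mul, Quaternion.imI_mul,
    Quaternion.imJ_mul, Quaternion.imK_mul, qq_re, qq_imI, qq_imJ, qq_imK, pow_add] <;>
    push_cast <;> generalize ((1 / 2 : ℝ)) ^ k = U <;> generalize ((1 / 2 : ℝ)) ^ l = V
  · linear_combination (-(U * V * (b0 * d0 - b1 * d1 - b2 * d2 - b3 * d3))) * phi_sq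
  · linear_combination (-(U * V * (b0 * d1 + b1 * d0 + b2 * d3 - b3 * d2))) * phi_sq
  · linear_combination (-(U * V * (b0 * d2 - b1 * d3 + b2 * d0 + b3 * d1))) * phi_sq
  · linear_combination (-(U * V * (b0 * d3 + b1 * d2 - b2 * d1 + b3 * d0))) * phi_sq

def str : D8 → D8
  | ⟨k, a0, b0, a1, b1, a2, b2, a3, b3⟩ => ⟨k, a0, b0, -a1, -b1, -a2, -b2, -a3, -b3⟩

theorem val_str (x : D8) : val (str x) = star (val x) := by
  obtain ⟨k, a0, b0, a1, b1, a2, b2, a3, b3⟩ := x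
  apply qext <;> simp only [val, str, co, Quaternion.re_star, Quaternion.imI_star,
    Quaternion.imJ_star, Quaternion.imK_star, qq_re, qq_imI, qq_imJ, qq_imK] <;> push_cast <;> ring

def neg : D8 → D8
  | ⟨k, a0, b0, a1, b1, a2, b2, a3, b3⟩ => ⟨k, -a0, -b0, -a1, -b1, -a2, -b2, -a3, -b3⟩

theorem val_neg (x : D8) : val (neg x) = -(val x) := by
  obtain ⟨k, a0, b0, a1, b1, a2, b2, a3, b3⟩ := x
  apply qext <;> simp only [val, neg, co, Quaternion.re_neg, Quaternion.imI_neg,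
    Quaternion.imJ_neg, Quaternion.imK_neg, qq_re, qq_imI, qq_imJ, qq_imK] <;> push_cast <;> ring

def up (n : ℕ) : D8 → D8
  | ⟨k, a0, b0, a1, b1, a2, b2, a3, b3⟩ =>
    ⟨k + n, a0 * Int.ofNat (Nat.pow 2 n), b0 * Int.ofNat (Nat.pow 2 n),
      a1 * Int.ofNat (Nat.pow 2 n), b1 * Int.ofNat (Nat.pow 2 n),
      a2 * Int.ofNat (Nat.pow 2 n), b2 * Int.ofNat (Nat.pow 2 n),
      a3 * Int.ofNat (Nat.pow 2 n), b3 * Int.ofNat (Nat.pow 2 n)⟩

theorem val_up (n : ℕ) (x : D8) : val (up n x) = val x := by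
  obtain ⟨k, a0, b0, a1, b1, a2, b2, a3, b3⟩ := x
  have h : ((2 : ℝ)) ^ n * (1 / 2) ^ n = 1 := by rw [← mul_pow]; norm_num
  have e : (Int.ofNat (Nat.pow 2 n) : ℤ) = (2 : ℤ) ^ n := by simp
  apply qext <;> simp only [val, up, co, qq_re, qq_imI, qq_imJ, qq_imK, pow_add, e] <;>
    push_cast <;> generalize ((1 / 2 : ℝ)) ^ k = U
  · linear_combination ((a0 + b0 * phi) * U) * h
  · linear_combination ((a1 + b1 * phi) * U) * h
  · linear_combination ((a2 + b2 * phi) * U) * h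
  · linear_combination ((a3 + b3 * phi) * U) * h

theorem up_k (n : ℕ) (x : D8) : (up n x).k = x.k + n := by
  obtain ⟨k, a0, b0, a1, b1, a2, b2, a3, b3⟩ := x; rfl

def addS : D8 → D8 → D8
  | ⟨k, a0, b0, a1, b1, a2, b2, a3, b3⟩, ⟨_, c0, d0, c1, d1, c2, d2, c3, d3⟩ =>
    ⟨k, a0 + c0, b0 + d0, a1 + c1, b1 + d1, a2 + c2, b2 + d2, a3 + c3, b3 + d3⟩

theorem val_addS (x y : D8) (h : x.k = y.k) : val (addS x y) = val x + val y := by
  obtain ⟨k, a0, b0, a1, b1, a2, b2, a3, b3⟩ := x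
  obtain ⟨l, c0, d0, c1, d1, c2, d2, c3, d3⟩ := y
  simp only at h
  subst h
  apply qext <;> simp only [val, addS, co, Quaternion.re_add, Quaternion.imI_add,
    Quaternion.imJ_add, Quaternion.imK_add, qq_re, qq_imI, qq_imJ, qq_imK] <;> push_cast <;> ring

def add (x y : D8) : D8 := addS (up (y.k - x.k) x) (up (x.k - y.k) y)

theorem val_add (x y : D8) : val (add x y) = val x + val y := by
  unfold add
  rw [val_addS _ _ (by rw [up_k, up_k]; omega), val_up, val_up]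

def sub (x y : D8) : D8 := add x (neg y)

theorem val_sub (x y : D8) : val (sub x y) = val x - val y := by
  unfold sub; rw [val_add, val_neg, sub_eq_add_neg]

def quarter : D8 → D8
  | ⟨k, a0, b0, a1, b1, a2, b2, a3, b3⟩ => ⟨k + 2, a0, b0, a1, b1, a2, b2, a3, b3⟩

theorem val_quarter (x : D8) : val (quarter x) = (1 / 4 : ℝ) • val x := by
  obtain ⟨k, a0, b0, a1, b1, a2, b2, a3, b3⟩ := x
  apply qext <;> simp only [val, quarter, co, Quaternion.re_smul, Quaternion.imI_smul,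
    Quaternion.imJ_smul, Quaternion.imK_smul, smul_eq_mul, qq_re, qq_imI, qq_imJ, qq_imK,
    pow_add] <;> push_cast <;> ring

/-- multiplication by `√5` -/
def r5 : D8 → D8
  | ⟨k, a0, b0, a1, b1, a2, b2, a3, b3⟩ =>
    ⟨k, -a0 + 2*b0, 2*a0 + b0, -a1 + 2*b1, 2*a1 + b1, -a2 + 2*b2, 2*a2 + b2, -a3 + 2*b3, 2*a3 + b3⟩

theorem val_r5 (x : D8) : val (r5 x) = (√5 : ℝ) • val x := by
  obtain ⟨k, a0, b0, a1, b1, a2, b2, a3, b3⟩ := x
  rw [sqrt5_phi]
  apply qext <;> simp only [val, r5, co, Quaternion.re_smul, Quaternion.imI_smul,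
    Quaternion.imJ_smul, Quaternion.imK_smul, smul_eq_mul, qq_re, qq_imI, qq_imJ, qq_imK] <;>
    push_cast <;> generalize ((1 / 2 : ℝ)) ^ k = U
  · linear_combination (-(2 * b0 * U)) * phi_sq
  · linear_combination (-(2 * b1 * U)) * phi_sq
  · linear_combination (-(2 * b2 * U)) * phi_sq
  · linear_combination (-(2 * b3 * U)) * phi_sq

def isZero : D8 → Bool
  | ⟨_, a0, b0, a1, b1, a2, b2, a3, b3⟩ =>
    decide (a0 = 0) && decide (b0 = 0) && decide (a1 = 0) && decide (b1 = 0) &&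
    decide (a2 = 0) && decide (b2 = 0) && decide (a3 = 0) && decide (b3 = 0)

theorem co_zero {k : ℕ} {a b : ℤ} : co k a b = 0 ↔ a = 0 ∧ b = 0 := by
  unfold co
  constructor
  · intro h
    have h2 : ((1 / 2 : ℝ)) ^ k ≠ 0 := by positivity
    have h3 := (mul_eq_zero.1 h).resolve_right h2
    exact phi_irr a b h3
  · rintro ⟨rfl, rfl⟩; simp

theorem isZero_iff (x : D8) : isZero x = true ↔ val x = 0 := by
  obtain ⟨k, a0, b0, a1, b1, a2, b2, a3, b3⟩ := x
  constructor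
  · intro h
    simp only [isZero, Bool.and_eq_true, decide_eq_true_eq] at h
    obtain ⟨⟨⟨⟨⟨⟨⟨h0, h1⟩, h2⟩, h3⟩, h4⟩, h5⟩, h6⟩, h7⟩ := h
    subst h0 h1 h2 h3 h4 h5 h6 h7
    apply qext <;> simp [val, co]
  · intro h
    have e0 := co_zero.1 (congrArg (fun q : ℍ[ℝ] => q.re) h : co k a0 b0 = 0)
    have e1 := co_zero.1 (congrArg (fun q : ℍ[ℝ] => q.imI) h : co k a1 b1 = 0)
    have e2 := co_zero.1 (congrArg (fun q : ℍ[ℝ] => q.imJ) h : co k a2 b2 = 0)
    have e3 := co_zero.1 (congrArg (fun q : ℍ[ℝ] => q.imK) h : co k a3 b3 = 0)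
    simp only at e0 e1 e2 e3
    simp [isZero, e0, e1, e2, e3]

def isUnit : D8 → Bool
  | ⟨k, a0, b0, a1, b1, a2, b2, a3, b3⟩ =>
    decide ((a0*a0+b0*b0) + (a1*a1+b1*b1) + (a2*a2+b2*b2) + (a3*a3+b3*b3) =
      Int.ofNat (Nat.pow 4 k)) &&
    decide ((2*a0+b0)*b0 + (2*a1+b1)*b1 + (2*a2+b2)*b2 + (2*a3+b3)*b3 = 0)

theorem isUnit_iff (x : D8) : isUnit x = true ↔ ‖val x‖ = 1 := by
  obtain ⟨k, a0, b0, a1, b1, a2, b2, a3, b3⟩ := x
  have e : (Int.ofNat (Nat.pow 4 k) : ℤ) = (4 : ℤ) ^ k := by simp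
  have h4 : ((4 : ℝ)) ^ k * ((1 / 2) ^ k) ^ 2 = 1 := by
    rw [← pow_mul, mul_comm k 2, pow_mul, ← mul_pow]; norm_num
  have h5 : ((1 / 2 : ℝ) ^ k) ^ 2 ≠ 0 := by positivity
  rw [n1_iff]
  simp only [isUnit, Bool.and_eq_true, decide_eq_true_eq, e, val, co, qq_re, qq_imI, qq_imJ,
    qq_imK]
  set U := ((1 / 2 : ℝ)) ^ k with hU
  constructor
  · rintro ⟨h1, h2⟩
    have h1' : ((a0*a0+b0*b0) + (a1*a1+b1*b1) + (a2*a2+b2*b2) + (a3*a3+b3*b3) : ℝ) = 4 ^ k := by
      exact_mod_cast h1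
    have h2' : ((2*a0+b0)*b0 + (2*a1+b1)*b1 + (2*a2+b2)*b2 + (2*a3+b3)*b3 : ℝ) = 0 := by
      exact_mod_cast h2
    linear_combination (U ^ 2) * h1' + (U ^ 2 * phi) * h2' + h4 +
      (U ^ 2 * (b0 ^ 2 + b1 ^ 2 + b2 ^ 2 + b3 ^ 2)) * phi_sq
  · intro h
    have h6 : U ^ 2 * ((((a0*a0+b0*b0) + (a1*a1+b1*b1) + (a2*a2+b2*b2) + (a3*a3+b3*b3) - 4 ^ k :
        ℤ) : ℝ) + (((2*a0+b0)*b0 + (2*a1+b1)*b1 + (2*a2+b2)*b2 + (2*a3+b3)*b3 : ℤ) : ℝ) * phi)
        = 0 := by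
      push_cast
      linear_combination h - h4 - (U ^ 2 * (b0 ^ 2 + b1 ^ 2 + b2 ^ 2 + b3 ^ 2)) * phi_sq
    have h7 := phi_irr _ _ ((mul_eq_zero.1 h6).resolve_left h5)
    exact ⟨by linarith [h7.1], h7.2⟩

def okb (x : D8) : Bool := isZero x || isUnit x

end D8

/-- zero or a unit quaternion -/
def OKq (x : ℍ[ℝ]) : Prop := x = 0 ∨ ‖x‖ = 1

open D8

theorem okb_iff (x : D8) : okb x = true ↔ OKq (val x) := by
  unfold okb OKq
  rw [Bool.or_eq_true, isZero_iff, isUnit_iff]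

theorem OKq_mul_right {s : ℍ[ℝ]} (hs : ‖s‖ = 1) (x : ℍ[ℝ]) : OKq (x * s) ↔ OKq x := by
  unfold OKq
  rw [norm_mul, hs, mul_one, mul_eq_zero]
  constructor
  · rintro ((h | h) | h)
    · left; exact h
    · exact absurd h (ne0_of_norm hs)
    · right; exact h
  · rintro (h | h)
    · left; left; exact h
    · right; exact h

theorem OKq_mul_left {s : ℍ[ℝ]} (hs : ‖s‖ = 1) (x : ℍ[ℝ]) : OKq (s * x) ↔ OKq x := by
  unfold OKq
  rw [norm_mul, hs, one_mul, mul_eq_zero]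
  constructor
  · rintro ((h | h) | h)
    · exact absurd h (ne0_of_norm hs)
    · left; exact h
    · right; exact h
  · rintro (h | h)
    · left; right; exact h
    · right; exact h

theorem OKq_star (x : ℍ[ℝ]) : OKq (star x) ↔ OKq x := by
  unfold OKq
  rw [norm_star, star_eq_zero]

namespace D8

def one : D8 := ⟨0, 1, 0, 0, 0, 0, 0, 0, 0⟩
def zero : D8 := ⟨0, 0, 0, 0, 0, 0, 0, 0, 0⟩
def dp : D8 := ⟨1, 1, 0, 1, 0, 1, 0, 1, 0⟩
def dq : D8 := ⟨1, 1, 0, -1, 0, 1, 0, 1, 0⟩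
def dr : D8 := ⟨1, 1, 0, 0, 0, 0, 1, 1, -1⟩

theorem val_one : val one = 1 := by apply qext <;> simp [val, one, co]
theorem val_zero : val zero = 0 := by apply qext <;> simp [val, zero, co]
theorem val_dp : val dp = p0 := by rw [p0_qq]; apply qext <;> simp [val, dp, co]
theorem val_dq : val dq = q0 := by
  rw [q0_qq]; apply qext <;> simp [val, dq, co]; norm_num
theorem val_dr : val dr = r0 := by
  rw [r0_phi]; apply qext <;> simp [val, dr, co] <;> ring

/-- the two apexes over the regular tetrahedron `0, 1, x, y` -/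
def apx (s : Bool) (x y : D8) : D8 :=
  add (quarter (add (add one x) y))
    (quarter (r5 (if s then sub (mul x y) (mul y x) else sub (mul y x) (mul x y))))

end D8

noncomputable def apxR (t : ℝ) (a b : ℍ[ℝ]) : ℍ[ℝ] :=
  (1 / 4 : ℝ) • (1 + a + b) + t • (a * b - b * a)

theorem val_apx_true (x y : D8) : val (apx true x y) = apxR (√5 / 4) (val x) (val y) := by
  unfold apx apxR
  rw [val_add, val_quarter, val_quarter, val_r5, if_pos rfl, val_sub, val_mul, val_mul, val_add,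
    val_add, val_one, smul_smul]
  congr 2; ring

theorem val_apx_false (x y : D8) : val (apx false x y) = apxR (-(√5 / 4)) (val x) (val y) := by
  unfold apx apxR
  rw [val_add, val_quarter, val_quarter, val_r5, if_neg (by simp), val_sub, val_mul, val_mul,
    val_add, val_add, val_one, smul_smul, neg_smul, ← smul_neg, neg_sub]
  congr 2; ring

theorem apxR_cj {w : ℍ[ℝ]} (hw : ‖w‖ = 1) (t : ℝ) (a b : ℍ[ℝ]) :
    w⁻¹ * apxR t a b * w = apxR t (w⁻¹ * a * w) (w⁻¹ * b * w) := by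
  unfold apxR
  rw [← cj_mul hw, ← cj_mul hw]
  simp only [mul_add, add_mul, mul_smul_comm, smul_mul_assoc, cj_sub, cj_one hw]

theorem apex_formula {a b c : ℍ[ℝ]} (h : Spx a b c) :
    c = apxR (√5 / 4) a b ∨ c = apxR (-(√5 / 4)) a b := by
  obtain ⟨w, hw, ha, hb⟩ := conj_Tet h.1
  have hc := Spx_cj hw h
  rw [ha, hb] at hc
  have inj : ∀ x y : ℍ[ℝ], w⁻¹ * x * w = w⁻¹ * y * w → x = y := by
    intro x y hxy
    have h1 := congrArg (fun t => w * t * w⁻¹) hxy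
    have e := mul_inv_cancel₀ (ne0_of_norm hw)
    simp only [mul_assoc, e, mul_one] at h1
    simpa only [← mul_assoc, e, one_mul] using h1
  rcases apex2 hc with h1 | h1
  · right
    apply inj
    rw [apxR_cj hw, ha, hb, h1]
    unfold apxR
    rw [p0_qq, q0_qq, r0_qq]
    apply qext <;> simp <;> ring
  · left
    apply inj
    rw [apxR_cj hw, ha, hb, h1]
    unfold apxR
    rw [p0_qq, q0_qq, r1_qq]
    apply qext <;> simp <;> ring

/-! ### candidates -/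

def cand (x y : D8) : List D8 := [zero, one, x, y, apx true x y, apx false x y]

def tetb (x y : D8) : Bool :=
  isUnit x && isUnit (sub x one) && (isUnit y && isUnit (sub y one)) && isUnit (sub x y)

theorem tetb_iff {x y : D8} (h : tetb x y = true) : Tet (val x) (val y) := by
  simp only [tetb, Bool.and_eq_true, isUnit_iff, val_sub, val_one] at h
  exact ⟨⟨h.1.1.1, h.1.1.2⟩, ⟨h.1.2.1, h.1.2.2⟩, h.2⟩

theorem cand_lemma {x y : D8} (h : tetb x y = true) {z : ℍ[ℝ]} (h0 : OKq z) (h1 : OKq (z - 1))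
    (h2 : OKq (z - val x)) (h3 : OKq (z - val y)) : ∃ c ∈ cand x y, z = val c := by
  have ht := tetb_iff h
  rcases h0 with h0 | h0
  · exact ⟨zero, by simp [cand], by rw [h0, val_zero]⟩
  rcases h1 with h1 | h1
  · exact ⟨one, by simp [cand], by rw [sub_eq_zero.1 h1, val_one]⟩
  rcases h2 with h2 | h2
  · exact ⟨x, by simp [cand], sub_eq_zero.1 h2⟩
  rcases h3 with h3 | h3
  · exact ⟨y, by simp [cand], sub_eq_zero.1 h3⟩
  have hs : Spx (val x) (val y) z := ⟨ht, ⟨h0, h1⟩, by rw [norm_sub_rev]; exact h2,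
    by rw [norm_sub_rev]; exact h3⟩
  rcases apex_formula hs with h4 | h4
  · exact ⟨apx true x y, by simp [cand], by rw [h4, val_apx_true]⟩
  · exact ⟨apx false x y, by simp [cand], by rw [h4, val_apx_false]⟩

/-! ### classification of columns -/

/-- a 3 x 3 matrix `[[1,1,1],[1,b11,b12],[1,b21,b22]]` -/
structure Mat3 where
  (b11 b12 b21 b22 : D8)

abbrev T3 := D8 × D8 × D8

def kap (B : Mat3) : D8 := mul (sub B.b21 one) (str (sub B.b11 one))

def conds (B : Mat3) (c1 c2 : D8) : Bool :=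
  okb (sub c2 c1) && (okb (sub c2 (mul (mul B.b21 (str B.b11)) c1)) &&
  (okb (sub c2 (mul (mul B.b22 (str B.b12)) c1)) &&
  okb (sub (sub c2 one) (mul (kap B) (sub c1 one)))))

def eqv (x y : D8) : Bool := isZero (sub x y)

theorem eqv_iff {x y : D8} : eqv x y = true ↔ val x = val y := by
  unfold eqv; rw [isZero_iff, val_sub, sub_eq_zero]

def inl (l : List T3) (x y z : D8) : Bool :=
  l.any fun t => eqv t.1 x && (eqv t.2.1 y && eqv t.2.2 z)

theorem inl_iff {l : List T3} {x y z : D8} (h : inl l x y z = true) :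
    ∃ t ∈ l, val t.1 = val x ∧ val t.2.1 = val y ∧ val t.2.2 = val z := by
  unfold inl at h
  rw [List.any_eq_true] at h
  obtain ⟨t, ht, h2⟩ := h
  simp only [Bool.and_eq_true, eqv_iff] at h2
  exact ⟨t, ht, h2⟩

def chkM (B : Mat3) (sol : List T3) : Bool :=
  (tetb B.b11 B.b12 && tetb B.b21 B.b22 &&
    tetb (mul B.b21 (str B.b11)) (mul B.b22 (str B.b12))) &&
  ((cand B.b11 B.b12).all fun c1 => (cand B.b21 B.b22).all fun c2 =>
    !(conds B c1 c2) || inl sol one c1 c2) &&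
  ((cand (mul B.b21 (str B.b11)) (mul B.b22 (str B.b12))).all fun y =>
    !(okb (sub y (kap B))) || inl sol zero one y) && inl sol zero zero one

theorem col_class {B : Mat3} {sol : List T3} (h : chkM B sol = true) {x0 x1 x2 : ℍ[ℝ]}
    (e0 : OKq x0) (e1 : OKq x1) (e2 : OKq x2)
    (p10 : OKq (x1 - x0)) (p11 : OKq (x1 - val B.b11 * x0)) (p12 : OKq (x1 - val B.b12 * x0))
    (p20 : OKq (x2 - x0)) (p21 : OKq (x2 - val B.b21 * x0)) (p22 : OKq (x2 - val B.b22 * x0))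
    (s0 : OKq (x2 - x1)) (s1 : OKq (x2 - val (mul B.b21 (str B.b11)) * x1))
    (s2 : OKq (x2 - val (mul B.b22 (str B.b12)) * x1))
    (m : OKq ((x2 - x0) - val (kap B) * (x1 - x0)))
    (hx : ¬ (x0 = 0 ∧ x1 = 0 ∧ x2 = 0)) :
    ∃ t ∈ sol, ∃ s : ℍ[ℝ], ‖s‖ = 1 ∧ x0 = val t.1 * s ∧ x1 = val t.2.1 * s ∧
      x2 = val t.2.2 * s := by
  simp only [chkM, Bool.and_eq_true, List.all_eq_true] at h
  obtain ⟨⟨⟨⟨⟨t1, t2⟩, t3⟩, h1⟩, h2⟩, h3⟩ := h
  rcases e0 with e0 | e0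
  · -- x0 = 0
    subst e0
    rcases e1 with e1 | e1
    · -- x1 = 0
      subst e1
      rcases e2 with e2 | e2
      · exact absurd ⟨rfl, rfl, e2⟩ hx
      · obtain ⟨t, ht, g0, g1, g2⟩ := inl_iff h3
        refine ⟨t, ht, x2, e2, ?_, ?_, ?_⟩
        · rw [g0, val_zero, zero_mul]
        · rw [g1, val_zero, zero_mul]
        · rw [g2, val_one, one_mul]
    · have hx1 := ne0_of_norm e1
      obtain ⟨y, hy⟩ : ∃ y, x2 = y * x1 := ⟨x2 * x1⁻¹, by
        rw [mul_assoc, inv_mul_cancel₀ hx1, mul_one]⟩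
      subst hy
      rw [OKq_mul_right e1] at e2
      have k0 : OKq (y - 1) := by
        rw [← OKq_mul_right e1, sub_mul, one_mul]; exact s0
      have k1 : OKq (y - val (mul B.b21 (str B.b11))) := by
        rw [← OKq_mul_right e1, sub_mul]; exact s1
      have k2 : OKq (y - val (mul B.b22 (str B.b12))) := by
        rw [← OKq_mul_right e1, sub_mul]; exact s2
      obtain ⟨c, hc, hyc⟩ := cand_lemma t3 e2 k0 k1 k2
      have k3 : okb (sub c (kap B)) = true := by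
        rw [okb_iff, val_sub, ← hyc, ← OKq_mul_right e1, sub_mul]
        simpa using m
      have h4 := h2 c hc
      rw [k3] at h4
      simp only [Bool.not_true, Bool.false_or] at h4
      obtain ⟨t, ht, g0, g1, g2⟩ := inl_iff h4
      refine ⟨t, ht, x1, e1, ?_, ?_, ?_⟩
      · rw [g0, val_zero, zero_mul]
      · rw [g1, val_one, one_mul]
      · rw [g2, hyc]
  · have hx0 := ne0_of_norm e0
    obtain ⟨y, hy⟩ : ∃ y, x1 = y * x0 := ⟨x1 * x0⁻¹, by
      rw [mul_assoc, inv_mul_cancel₀ hx0, mul_one]⟩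
    obtain ⟨z, hz⟩ : ∃ z, x2 = z * x0 := ⟨x2 * x0⁻¹, by
      rw [mul_assoc, inv_mul_cancel₀ hx0, mul_one]⟩
    subst hy hz
    rw [OKq_mul_right e0] at e1 e2
    have k0 : OKq (y - 1) := by
      rw [← OKq_mul_right e0, sub_mul, one_mul]; exact p10
    have k1 : OKq (y - val B.b11) := by
      rw [← OKq_mul_right e0, sub_mul]; exact p11
    have k2 : OKq (y - val B.b12) := by
      rw [← OKq_mul_right e0, sub_mul]; exact p12
    have l0 : OKq (z - 1) := by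
      rw [← OKq_mul_right e0, sub_mul, one_mul]; exact p20
    have l1 : OKq (z - val B.b21) := by
      rw [← OKq_mul_right e0, sub_mul]; exact p21
    have l2 : OKq (z - val B.b22) := by
      rw [← OKq_mul_right e0, sub_mul]; exact p22
    obtain ⟨c1, hc1, hyc⟩ := cand_lemma t1 e1 k0 k1 k2
    obtain ⟨c2, hc2, hzc⟩ := cand_lemma t2 e2 l0 l1 l2
    have hcond : conds B c1 c2 = true := by
      simp only [conds, Bool.and_eq_true, okb_iff]
      refine ⟨?_, ?_, ?_, ?_⟩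
      · rw [val_sub, ← hyc, ← hzc, ← OKq_mul_right e0, sub_mul]; exact s0
      · rw [val_sub, val_mul, ← hyc, ← hzc, ← OKq_mul_right e0, sub_mul, mul_assoc]; exact s1
      · rw [val_sub, val_mul, ← hyc, ← hzc, ← OKq_mul_right e0, sub_mul, mul_assoc]; exact s2
      · rw [val_sub, val_mul, val_sub, val_sub, ← hyc, ← hzc, val_one, ← OKq_mul_right e0, sub_mul,
          mul_assoc, sub_mul, sub_mul, one_mul]
        exact m
    have h4 := h1 c1 hc1 c2 hc2
    rw [hcond] at h4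
    simp only [Bool.not_true, Bool.false_or] at h4
    obtain ⟨t, ht, g0, g1, g2⟩ := inl_iff h4
    refine ⟨t, ht, x0, e0, ?_, ?_, ?_⟩
    · rw [g0, val_one, one_mul]
    · rw [g1, hyc]
    · rw [g2, hzc]

/-! ### the matrix `A1` -/

def dRp : D8 := mul (str dr) dp
def dRq : D8 := mul (str dr) dq

/-- columns -/
def BC : Mat3 := ⟨dp, dRp, dq, dRq⟩
/-- starred rows -/
def BR : Mat3 := ⟨str dp, str dq, str dRp, str dRq⟩

def trivC : List T3 := [(one, zero, zero), (zero, one, zero), (zero, zero, one),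
  (one, one, one), (one, dp, dq), (one, dRp, dRq)]
def ntC : List T3 := [(one, one, zero), (one, dp, zero), (one, dRp, zero),
  (one, mul (str dq) dp, zero),
  (one, zero, one), (one, zero, dq), (one, zero, dRq), (one, zero, mul (str dp) dq),
  (zero, one, one), (zero, one, mul dq (str dp)), (zero, one, mul dRq (str dRp)),
  (zero, one, mul (str dq) dp)]
def trivR : List T3 := [(one, zero, zero), (zero, one, zero), (zero, zero, one),
  (one, one, one), (one, str dp, str dRp), (one, str dq, str dRq)]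
def ntR : List T3 := [(one, one, zero), (one, str dp, zero), (one, str dq, zero),
  (one, str dr, zero),
  (one, zero, one), (one, zero, str dRp), (one, zero, str dRq), (one, zero, dr),
  (zero, one, one), (zero, one, mul (str dRp) dp), (zero, one, mul (str dRq) dq),
  (zero, one, str dr)]

theorem chk_C : chkM BC (trivC ++ ntC) = true := by decide +kernel
theorem chk_R : chkM BR (trivR ++ ntR) = true := by decide +kernel

def certs : List (List (ℕ × ℕ × ℕ × ℕ × ℕ)) := [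
  [(1, 12, 15, 5, 5), (1, 12, 18, 2, 2), (1, 2, 12, 5, 5), (1, 2, 13, 5, 5), (1, 12, 15, 6, 6), (1, 12, 18, 3, 3), (1, 3, 12, 6, 6), (1, 3, 13, 6, 6), (2, 5, 18, 6, 6), (2, 3, 15, 5, 5), (2, 3, 12, 5, 5), (2, 3, 13, 5, 5)],
  [(1, 11, 14, 4, 4), (1, 11, 14, 2, 2), (1, 2, 11, 4, 4), (1, 2, 13, 4, 4), (1, 4, 17, 6, 6), (1, 3, 14, 4, 4), (1, 3, 11, 4, 4), (1, 3, 13, 4, 4), (2, 11, 14, 6, 6), (2, 11, 17, 3, 3), (2, 3, 11, 6, 6), (2, 3, 13, 6, 6)],
  [(1, 4, 16, 5, 5), (1, 2, 13, 4, 4), (1, 2, 10, 4, 4), (1, 2, 13, 4, 4), (1, 10, 13, 4, 4), (1, 10, 13, 3, 3), (1, 3, 10, 4, 4), (1, 3, 13, 4, 4), (2, 10, 13, 5, 5), (2, 10, 13, 3, 3), (2, 3, 10, 5, 5), (2, 3, 13, 5, 5)],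
  [(1, 4, 11, 5, 5), (1, 4, 11, 2, 2), (1, 4, 11, 2, 2), (1, 2, 10, 4, 4), (1, 4, 10, 6, 6), (1, 4, 10, 3, 3), (1, 4, 10, 3, 3), (1, 3, 10, 4, 4), (2, 5, 10, 6, 6), (2, 5, 10, 3, 3), (2, 5, 10, 3, 3), (2, 3, 10, 5, 5)],
  [(1, 11, 12, 8, 8), (1, 2, 15, 8, 8), (1, 10, 11, 2, 2), (1, 2, 10, 8, 8), (1, 10, 12, 9, 9), (1, 3, 15, 9, 9), (1, 10, 11, 3, 3), (1, 3, 10, 9, 9), (2, 8, 18, 9, 9), (2, 3, 15, 8, 8), (2, 3, 12, 8, 8), (2, 3, 10, 8, 8)],
  [(1, 11, 12, 7, 7), (1, 2, 14, 7, 7), (1, 10, 11, 2, 2), (1, 2, 10, 7, 7), (1, 7, 17, 9, 9), (1, 3, 14, 7, 7), (1, 3, 11, 7, 7), (1, 3, 10, 7, 7), (2, 10, 11, 9, 9), (2, 3, 14, 9, 9), (2, 10, 12, 3, 3), (2, 3, 10, 9, 9)],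
  [(1, 7, 16, 8, 8), (1, 2, 13, 7, 7), (1, 2, 10, 7, 7), (1, 2, 10, 7, 7), (1, 10, 12, 7, 7), (1, 3, 13, 7, 7), (1, 10, 11, 3, 3), (1, 3, 10, 7, 7), (2, 10, 11, 8, 8), (2, 3, 13, 8, 8), (2, 10, 12, 3, 3), (2, 3, 10, 8, 8)],
  [(1, 7, 11, 8, 8), (1, 7, 11, 2, 2), (1, 7, 11, 2, 2), (1, 2, 10, 7, 7), (1, 7, 10, 9, 9), (1, 7, 10, 3, 3), (1, 7, 10, 3, 3), (1, 3, 10, 7, 7), (2, 8, 10, 9, 9), (2, 8, 10, 3, 3), (2, 8, 10, 3, 3), (2, 3, 10, 8, 8)],
  [(4, 5, 18, 8, 8), (4, 11, 12, 8, 8), (4, 10, 11, 5, 5), (4, 5, 10, 8, 8), (4, 6, 18, 9, 9), (4, 10, 12, 9, 9), (4, 10, 11, 6, 6), (4, 6, 10, 9, 9), (5, 6, 18, 8, 8), (5, 8, 15, 9, 9), (5, 6, 12, 8, 8), (5, 6, 10, 8, 8)],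
  [(4, 5, 17, 7, 7), (4, 11, 12, 7, 7), (4, 10, 11, 5, 5), (4, 5, 10, 7, 7), (4, 6, 17, 7, 7), (4, 7, 14, 9, 9), (4, 6, 11, 7, 7), (4, 6, 10, 7, 7), (5, 6, 17, 9, 9), (5, 10, 11, 9, 9), (5, 10, 12, 6, 6), (5, 6, 10, 9, 9)],
  [(4, 5, 16, 7, 7), (4, 7, 13, 8, 8), (4, 5, 10, 7, 7), (4, 5, 10, 7, 7), (4, 6, 16, 7, 7), (4, 10, 12, 7, 7), (4, 10, 11, 6, 6), (4, 6, 10, 7, 7), (5, 6, 16, 8, 8), (5, 10, 11, 8, 8), (5, 10, 12, 6, 6), (5, 6, 10, 8, 8)],
  [(4, 7, 11, 5, 5), (4, 7, 11, 8, 8), (4, 7, 11, 5, 5), (4, 5, 10, 7, 7), (4, 7, 10, 6, 6), (4, 7, 10, 9, 9), (4, 7, 10, 6, 6), (4, 6, 10, 7, 7), (5, 8, 10, 6, 6), (5, 8, 10, 9, 9), (5, 8, 10, 6, 6), (5, 6, 10, 8, 8)]]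

/-! ### extraction of minors -/

theorem QUS_entry {m n : Type*} [DecidableEq m] [DecidableEq n] {k : ℕ} {A : m → n → ℍ[ℝ]}
    (h : QUS k A) (i : m) (j : n) : OKq (A i j) := by
  cases k with
  | zero => exact h i j
  | succ k => exact h.1 i j

theorem QUS_L1 {m n : Type*} [DecidableEq m] [DecidableEq n] {k : ℕ} {A : m → n → ℍ[ℝ]}
    (h : QUS (k + 1) A) {i : m} {j : n} (hij : A i j ≠ 0) {i' : m} {j' : n} (hi : i' ≠ i)
    (hj : j' ≠ j) : OKq (A i' j' - A i' j * (A i j)⁻¹ * A i j') := by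
  have := QUS_entry (h.2 i j hij) i' j'
  simpa [hi, hj] using this

theorem QUS_L2 {m n : Type*} [DecidableEq m] [DecidableEq n] {k : ℕ} {A : m → n → ℍ[ℝ]}
    (h : QUS (k + 2) A) {i : m} {j : n} (hij : A i j ≠ 0) {i' : m} {j' : n} (hi : i' ≠ i)
    (hj : j' ≠ j) (hS : A i' j' - A i' j * (A i j)⁻¹ * A i j' ≠ 0) {i'' : m} {j'' : n}
    (h1 : i'' ≠ i) (h2 : i'' ≠ i') (h3 : j'' ≠ j) (h4 : j'' ≠ j') :
    OKq ((A i'' j'' - A i'' j * (A i j)⁻¹ * A i j'') - (A i'' j' - A i'' j * (A i j)⁻¹ * A i j') *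
      (A i' j' - A i' j * (A i j)⁻¹ * A i j')⁻¹ * (A i' j'' - A i' j * (A i j)⁻¹ * A i j'')) := by
  have h5 := h.2 i j hij
  have h6 := QUS_L1 (i := i') (j := j') h5 (by simpa [hi, hj] using hS) (i' := i'') (j' := j'')
    h2 h4
  simpa [hi, hj, h1, h3] using h6

end Grp

open Grp Grp.D8

/-- matrix of `P₆` (rows 4,5,6; columns 1,2,3; the matrix is singular, all 2x2 minors nonzero) -/
noncomputable def A1 : Fin 3 → Fin 3 → ℍ[ℝ] :=
  ![![1, 1, 1], ![1, p0, r0⁻¹ * p0], ![1, q0, r0⁻¹ * q0]]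

namespace Grp

theorem A1_00 : A1 0 0 = 1 := rfl
theorem A1_01 : A1 0 1 = 1 := rfl
theorem A1_02 : A1 0 2 = 1 := rfl
theorem A1_10 : A1 1 0 = 1 := rfl
theorem A1_20 : A1 2 0 = 1 := rfl
theorem A1_11 : A1 1 1 = p0 := rfl
theorem A1_21 : A1 2 1 = q0 := rfl
theorem A1_12 : A1 1 2 = r0⁻¹ * p0 := rfl
theorem A1_22 : A1 2 2 = r0⁻¹ * q0 := rfl

theorem val_dRp : val dRp = r0⁻¹ * p0 := by
  unfold dRp; rw [val_mul, val_str, val_dr, val_dp, inv_star Tri_r0.1]
theorem val_dRq : val dRq = r0⁻¹ * q0 := by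
  unfold dRq; rw [val_mul, val_str, val_dr, val_dq, inv_star Tri_r0.1]

theorem val_inv {x : D8} (h : isUnit x = true) : (val x)⁻¹ = val (str x) := by
  rw [val_str, inv_star ((isUnit_iff x).1 h)]

theorem ne_zero_of_isUnit {x : D8} (h : isUnit x = true) : val x ≠ 0 :=
  ne0_of_norm ((isUnit_iff x).1 h)

def am : ℕ → ℕ → D8
  | 1, 1 => dp
  | 1, 2 => dRp
  | 2, 1 => dq
  | 2, 2 => dRq
  | _, _ => one

theorem A1_val (i j : Fin 3) : A1 i j = val (am i j) := by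
  fin_cases i <;> fin_cases j
  · exact val_one.symm
  · exact val_one.symm
  · exact val_one.symm
  · exact val_one.symm
  · exact val_dp.symm
  · exact val_dRp.symm
  · exact val_one.symm
  · exact val_dq.symm
  · exact val_dRq.symm

theorem am_unit : ∀ i j : Fin 3, isUnit (am i j) = true := by decide +kernel

def Sm (i i' j j' : ℕ) : D8 := sub (am i' j') (mul (mul (am i' j) (str (am i j))) (am i j'))

theorem Sm_unit : ∀ i i' j j' : Fin 3, i' ≠ i → j' ≠ j → isUnit (Sm i i' j j') = true := by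
  decide +kernel

theorem A1_ne (i j : Fin 3) : A1 i j ≠ 0 := by
  rw [A1_val]; exact ne_zero_of_isUnit (am_unit i j)

theorem A1_inv (i j : Fin 3) : (A1 i j)⁻¹ = val (str (am i j)) := by
  rw [A1_val, val_inv (am_unit i j)]

theorem Sm_val (i i' j j' : Fin 3) :
    A1 i' j' - A1 i' j * (A1 i j)⁻¹ * A1 i j' = val (Sm i i' j j') := by
  rw [A1_inv, A1_val, A1_val, A1_val]
  unfold Sm
  rw [val_sub, val_mul, val_mul]

theorem kapC_val : val (kap BC) = (q0 - 1) * (p0 - 1)⁻¹ := by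
  unfold kap BC
  rw [val_mul, val_sub, val_str, val_sub, val_dq, val_dp, val_one, inv_star Tri_p0.2]

theorem colA (x : Fin 3 → ℍ[ℝ]) (h0 : ∀ i, OKq (x i))
    (h1 : ∀ i i' j, i' ≠ i → OKq (x i' - A1 i' j * (A1 i j)⁻¹ * x i))
    (h2 : OKq ((x 2 - A1 2 0 * (A1 0 0)⁻¹ * x 0) - (A1 2 1 - A1 2 0 * (A1 0 0)⁻¹ * A1 0 1) *
      (A1 1 1 - A1 1 0 * (A1 0 0)⁻¹ * A1 0 1)⁻¹ * (x 1 - A1 1 0 * (A1 0 0)⁻¹ * x 0)))
    (hx : x ≠ 0) : ∃ t ∈ trivC ++ ntC, ∃ s : ℍ[ℝ], ‖s‖ = 1 ∧ x 0 = val t.1 * s ∧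
      x 1 = val t.2.1 * s ∧ x 2 = val t.2.2 * s := by
  have e1 : ∀ j, A1 0 j = 1 := by intro j; fin_cases j <;> rfl
  have e2 : ∀ i, A1 i 0 = 1 := by intro j; fin_cases j <;> rfl
  refine col_class chk_C (h0 0) (h0 1) (h0 2) ?_ ?_ ?_ ?_ ?_ ?_ ?_ ?_ ?_ ?_ ?_
  · simpa [e1, e2] using h1 0 1 0 (by decide)
  · have := h1 0 1 1 (by decide)
    rw [e1, A1_11, inv_one, mul_one] at this
    show OKq (x 1 - val dp * x 0)
    rwa [val_dp]
  · have := h1 0 1 2 (by decide)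
    rw [e1, A1_12, inv_one, mul_one] at this
    show OKq (x 1 - val dRp * x 0)
    rwa [val_dRp]
  · simpa [e1, e2] using h1 0 2 0 (by decide)
  · have := h1 0 2 1 (by decide)
    rw [e1, A1_21, inv_one, mul_one] at this
    show OKq (x 2 - val dq * x 0)
    rwa [val_dq]
  · have := h1 0 2 2 (by decide)
    rw [e1, A1_22, inv_one, mul_one] at this
    show OKq (x 2 - val dRq * x 0)
    rwa [val_dRq]
  · simpa [e1, e2] using h1 1 2 0 (by decide)
  · have := h1 1 2 1 (by decide)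
    rw [A1_inv, A1_val 2 1, ← val_mul] at this
    exact this
  · have := h1 1 2 2 (by decide)
    rw [A1_inv, A1_val 2 2, ← val_mul] at this
    exact this
  · simp only [e1, e2, inv_one, mul_one, one_mul, A1_11, A1_21] at h2
    rw [kapC_val]
    exact h2
  · rintro ⟨k0, k1, k2⟩
    apply hx
    funext i
    fin_cases i
    · exact k0
    · exact k1
    · exact k2

theorem kapR_val : val (kap BR) = star ((p0 - 1)⁻¹ * (r0⁻¹ * p0 - 1)) := by
  unfold kap BR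
  rw [inv_star Tri_p0.2, inv_star Tri_r0.1]
  simp only [val_mul, val_sub, val_str, val_dRp, val_dp, val_one, star_mul, star_sub, star_star,
    star_one, inv_star Tri_r0.1]

theorem rowA (u : Fin 3 → ℍ[ℝ]) (h0 : ∀ i, OKq (u i))
    (h1 : ∀ j j' i, j' ≠ j → OKq (u j' - u j * (A1 i j)⁻¹ * A1 i j'))
    (h2 : OKq ((u 2 - u 0 * (A1 0 0)⁻¹ * A1 0 2) - (u 1 - u 0 * (A1 0 0)⁻¹ * A1 0 1) *
      (A1 1 1 - A1 1 0 * (A1 0 0)⁻¹ * A1 0 1)⁻¹ * (A1 1 2 - A1 1 0 * (A1 0 0)⁻¹ * A1 0 2)))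
    (hu : u ≠ 0) : ∃ t ∈ trivR ++ ntR, ∃ s : ℍ[ℝ], ‖s‖ = 1 ∧ u 0 = s * val (str t.1) ∧
      u 1 = s * val (str t.2.1) ∧ u 2 = s * val (str t.2.2) := by
  have e1 : ∀ j, A1 0 j = 1 := by intro j; fin_cases j <;> rfl
  have e2 : ∀ i, A1 i 0 = 1 := by intro j; fin_cases j <;> rfl
  have key : ∃ t ∈ trivR ++ ntR, ∃ s : ℍ[ℝ], ‖s‖ = 1 ∧ star (u 0) = val t.1 * s ∧
      star (u 1) = val t.2.1 * s ∧ star (u 2) = val t.2.2 * s := by
    refine col_class chk_R ((OKq_star _).2 (h0 0)) ((OKq_star _).2 (h0 1)) ((OKq_star _).2 (h0 2))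
      ?_ ?_ ?_ ?_ ?_ ?_ ?_ ?_ ?_ ?_ ?_
    · rw [← star_sub, OKq_star]
      simpa [e1, e2] using h1 0 1 0 (by decide)
    · have := h1 0 1 1 (by decide)
      rw [e2, A1_11, inv_one, mul_one, ← OKq_star, star_sub, star_mul] at this
      show OKq (star (u 1) - val (str dp) * star (u 0))
      rwa [val_str, val_dp]
    · have := h1 0 1 2 (by decide)
      rw [e2, A1_21, inv_one, mul_one, ← OKq_star, star_sub, star_mul] at this
      show OKq (star (u 1) - val (str dq) * star (u 0))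
      rwa [val_str, val_dq]
    · rw [← star_sub, OKq_star]
      simpa [e1, e2] using h1 0 2 0 (by decide)
    · have := h1 0 2 1 (by decide)
      rw [e2, A1_12, inv_one, mul_one, ← OKq_star, star_sub, star_mul] at this
      show OKq (star (u 2) - val (str dRp) * star (u 0))
      rwa [val_str, val_dRp]
    · have := h1 0 2 2 (by decide)
      rw [e2, A1_22, inv_one, mul_one, ← OKq_star, star_sub, star_mul] at this
      show OKq (star (u 2) - val (str dRq) * star (u 0))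
      rwa [val_str, val_dRq]
    · rw [← star_sub, OKq_star]
      simpa [e1, e2] using h1 1 2 0 (by decide)
    · have := h1 1 2 1 (by decide)
      rw [A1_12, A1_11, inv_star Tri_p0.1, ← OKq_star] at this
      simp only [star_sub, star_mul, mul_assoc, star_star] at this
      show OKq (star (u 2) - val (mul (str dRp) (str (str dp))) * star (u 1))
      rw [val_mul, val_str, val_str, val_str, val_dRp, val_dp]
      simp only [star_mul, star_star, mul_assoc]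
      exact this
    · have := h1 1 2 2 (by decide)
      rw [A1_22, A1_21, inv_star Tri_q0.1, ← OKq_star] at this
      simp only [star_sub, star_mul, mul_assoc, star_star] at this
      show OKq (star (u 2) - val (mul (str dRq) (str (str dq))) * star (u 1))
      rw [val_mul, val_str, val_str, val_str, val_dRq, val_dq]
      simp only [star_mul, star_star, mul_assoc]
      exact this
    · simp only [e1, e2, inv_one, mul_one, one_mul, A1_11, A1_12] at h2
      rw [kapR_val, ← star_sub, ← star_sub, ← star_mul, ← star_sub, OKq_star, ← mul_assoc]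
      exact h2
    · rintro ⟨k0, k1, k2⟩
      apply hu
      funext i
      fin_cases i
      · exact star_eq_zero.1 k0
      · exact star_eq_zero.1 k1
      · exact star_eq_zero.1 k2
  obtain ⟨t, ht, s, hs, g0, g1, g2⟩ := key
  refine ⟨t, ht, star s, by rw [Quaternion.norm_star, hs], ?_, ?_, ?_⟩
  · rw [val_str, ← star_mul, ← g0, star_star]
  · rw [val_str, ← star_mul, ← g1, star_star]
  · rw [val_str, ← star_mul, ← g2, star_star]

/-! ### icosian membership of the listed columns and rows -/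

theorem m_zero : val zero ∈ RI := by rw [val_zero]; exact Subring.zero_mem _
theorem m_one : val one ∈ RI := by rw [val_one]; exact Subring.one_mem _
theorem m_dp : val dp ∈ RI := by rw [val_dp]; exact p0_mem_RI
theorem m_dq : val dq ∈ RI := by rw [val_dq]; exact q0_mem_RI
theorem m_dr : val dr ∈ RI := by rw [val_dr]; exact r0_mem_RI
theorem m_str {x : D8} (h : val x ∈ RI) : val (str x) ∈ RI := by rw [val_str]; exact RI_star h
theorem m_mul {x y : D8} (h : val x ∈ RI) (h' : val y ∈ RI) : val (mul x y) ∈ RI := by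
  rw [val_mul]; exact Subring.mul_mem _ h h'
theorem m_add {x y : D8} (h : val x ∈ RI) (h' : val y ∈ RI) : val (add x y) ∈ RI := by
  rw [val_add]; exact Subring.add_mem _ h h'
theorem m_sub {x y : D8} (h : val x ∈ RI) (h' : val y ∈ RI) : val (sub x y) ∈ RI := by
  rw [val_sub]; exact Subring.sub_mem _ h h'
theorem m_dRp : val dRp ∈ RI := m_mul (m_str m_dr) m_dp
theorem m_dRq : val dRq ∈ RI := m_mul (m_str m_dr) m_dq

def InT (t : T3) : Prop := val t.1 ∈ RI ∧ val t.2.1 ∈ RI ∧ val t.2.2 ∈ RI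

theorem InT_C : ∀ t ∈ trivC ++ ntC, InT t := by
  simp only [trivC, ntC, List.cons_append, List.nil_append, List.forall_mem_cons]
  exact ⟨⟨m_one, m_zero, m_zero⟩,
    ⟨m_zero, m_one, m_zero⟩,
    ⟨m_zero, m_zero, m_one⟩,
    ⟨m_one, m_one, m_one⟩,
    ⟨m_one, m_dp, m_dq⟩,
    ⟨m_one, m_dRp, m_dRq⟩,
    ⟨m_one, m_one, m_zero⟩,
    ⟨m_one, m_dp, m_zero⟩,
    ⟨m_one, m_dRp, m_zero⟩,
    ⟨m_one, m_mul (m_str m_dq) m_dp, m_zero⟩,
    ⟨m_one, m_zero, m_one⟩,
    ⟨m_one, m_zero, m_dq⟩,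
    ⟨m_one, m_zero, m_dRq⟩,
    ⟨m_one, m_zero, m_mul (m_str m_dp) m_dq⟩,
    ⟨m_zero, m_one, m_one⟩,
    ⟨m_zero, m_one, m_mul m_dq (m_str m_dp)⟩,
    ⟨m_zero, m_one, m_mul m_dRq (m_str m_dRp)⟩,
    ⟨m_zero, m_one, m_mul (m_str m_dq) m_dp⟩,
    by simp⟩

theorem InT_R : ∀ t ∈ trivR ++ ntR, InT t := by
  simp only [trivR, ntR, List.cons_append, List.nil_append, List.forall_mem_cons]
  exact ⟨⟨m_one, m_zero, m_zero⟩,
    ⟨m_zero, m_one, m_zero⟩,
    ⟨m_zero, m_zero, m_one⟩,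
    ⟨m_one, m_one, m_one⟩,
    ⟨m_one, m_str m_dp, m_str m_dRp⟩,
    ⟨m_one, m_str m_dq, m_str m_dRq⟩,
    ⟨m_one, m_one, m_zero⟩,
    ⟨m_one, m_str m_dp, m_zero⟩,
    ⟨m_one, m_str m_dq, m_zero⟩,
    ⟨m_one, m_str m_dr, m_zero⟩,
    ⟨m_one, m_zero, m_one⟩,
    ⟨m_one, m_zero, m_str m_dRp⟩,
    ⟨m_one, m_zero, m_str m_dRq⟩,
    ⟨m_one, m_zero, m_dr⟩,
    ⟨m_zero, m_one, m_one⟩,
    ⟨m_zero, m_one, m_mul (m_str m_dRp) m_dp⟩,
    ⟨m_zero, m_one, m_mul (m_str m_dRq) m_dq⟩,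
    ⟨m_zero, m_one, m_str m_dr⟩,
    by simp⟩

end Grp

/-- extension columns of `P₆` are icosian up to scaling -/
theorem P6_ext (x : Fin 3 → ℍ[ℝ]) (hx : x ≠ 0)
    (h : QUS 2 (fun (i : Fin 3) (j : Fin 4) => (![A1 i 0, A1 i 1, A1 i 2, x i] : Fin 4 → ℍ[ℝ]) j)) :
    ∃ s : ℍ[ℝ], ‖s‖ = 1 ∧ ∀ i, x i * s ∈ RI := by
  set M : Fin 3 → Fin 4 → ℍ[ℝ] := fun (i : Fin 3) (j : Fin 4) =>
    (![A1 i 0, A1 i 1, A1 i 2, x i] : Fin 4 → ℍ[ℝ]) j with hM
  have hMA : ∀ i j, M i (Fin.castSucc j) = A1 i j := by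
    intro i j; fin_cases j <;> rfl
  have hMx : ∀ i, M i 3 = x i := fun i => rfl
  have h1 : ∀ i i' j, i' ≠ i → OKq (x i' - A1 i' j * (A1 i j)⁻¹ * x i) := by
    intro i i' j hi
    have := QUS_L1 h (i := i) (j := Fin.castSucc j) (by rw [hMA]; exact A1_ne i j) (i' := i')
      (j' := 3) hi (Fin.castSucc_lt_last j).ne'
    rwa [hMA, hMA, hMx, hMx] at this
  have h2 := QUS_L2 h (i := 0) (j := Fin.castSucc 0) (by rw [hMA]; exact A1_ne 0 0) (i' := 1)
    (j' := Fin.castSucc 1) (by decide) (by decide) (by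
      rw [hMA, hMA, hMA, hMA, Sm_val]
      exact ne_zero_of_isUnit (Sm_unit 0 1 0 1 (by decide) (by decide)))
    (i'' := 2) (j'' := 3) (by decide) (by decide) (by decide) (by decide)
  simp only [hMA, hMx] at h2
  obtain ⟨t, ht, s, hs, g0, g1, g2⟩ := colA x (fun i => by rw [← hMx]; exact QUS_entry h i 3) h1 h2 hx
  obtain ⟨r1, r2, r3⟩ := InT_C t ht
  have hs0 := mul_inv_cancel₀ (ne0_of_norm hs)
  refine ⟨s⁻¹, by rw [norm_inv, hs, inv_one], ?_⟩
  intro i
  fin_cases i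
  · show x 0 * s⁻¹ ∈ RI
    rw [g0, mul_assoc, hs0, mul_one]; exact r1
  · show x 1 * s⁻¹ ∈ RI
    rw [g1, mul_assoc, hs0, mul_one]; exact r2
  · show x 2 * s⁻¹ ∈ RI
    rw [g2, mul_assoc, hs0, mul_one]; exact r3

/-! ### the 8-element case -/

namespace Grp

def tc (t : T3) : ℕ → D8
  | 0 => t.1
  | 1 => t.2.1
  | _ => t.2.2

def d1 (t d : T3) (i j : ℕ) : D8 := mul (mul (str (tc d j)) (str (am i j))) (tc t i)

def d2 (t d : T3) (i i' j j' : ℕ) : D8 :=
  add (d1 t d i j) (mul (mul (sub (str (tc d j')) (mul (mul (str (tc d j)) (str (am i j)))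
    (am i j'))) (str (Sm i i' j j'))) (sub (tc t i') (mul (mul (am i' j) (str (am i j))) (tc t i))))

def dlst (t d : T3) : List D8 := [zero, d1 t d 0 0, d1 t d 0 1, d1 t d 0 2, d1 t d 1 0, d1 t d 1 1,
  d1 t d 1 2, d1 t d 2 0, d1 t d 2 1, d1 t d 2 2,
  d2 t d 0 1 0 1, d2 t d 0 1 0 2, d2 t d 0 1 1 2,
  d2 t d 0 2 0 1, d2 t d 0 2 0 2, d2 t d 0 2 1 2,
  d2 t d 1 2 0 1, d2 t d 1 2 0 2, d2 t d 1 2 1 2]

def check (t d : T3) (ce : ℕ × ℕ × ℕ × ℕ × ℕ) : Bool :=
  let L := dlst t d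
  let a := L.getD ce.1 zero
  let b := L.getD ce.2.1 zero
  let c := L.getD ce.2.2.1 zero
  let v1 := L.getD ce.2.2.2.1 zero
  let v2 := L.getD ce.2.2.2.2 zero
  let b' := mul b (str a)
  let c' := mul c (str a)
  isUnit a && tetb b' c' &&
    !(isUnit (sub (mul (apx true b' c') a) v1)) && !(isUnit (sub (mul (apx false b' c') a) v2))

theorem certs_ok : ((List.range 12).all fun i => (List.range 12).all fun j =>
    check (ntC.getD i (zero, zero, zero)) (ntR.getD j (zero, zero, zero))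
      ((certs.getD i []).getD j (0, 0, 0, 0, 0))) = true := by decide +kernel

theorem dlst_getD (t d : T3) (n : ℕ) : (dlst t d).getD n zero ∈ dlst t d := by
  by_cases h : n < (dlst t d).length
  · rw [List.getD_eq_getElem _ _ h]; exact List.getElem_mem h
  · rw [List.getD_eq_default _ _ (by omega)]
    simp [dlst]

theorem check_sound {t d : T3} {ce : ℕ × ℕ × ℕ × ℕ × ℕ} (h : check t d ce = true) {z : ℍ[ℝ]}
    (hz : ∀ δ ∈ dlst t d, OKq (z - val δ)) : ∃ δ ∈ dlst t d, z = val δ := by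
  have hm := dlst_getD t d
  simp only [check, Bool.and_eq_true, Bool.not_eq_true'] at h
  generalize ha : (dlst t d).getD ce.1 zero = a at h
  generalize hb : (dlst t d).getD ce.2.1 zero = b at h
  generalize hc : (dlst t d).getD ce.2.2.1 zero = c at h
  generalize hv : (dlst t d).getD ce.2.2.2.1 zero = v1 at h
  generalize hw : (dlst t d).getD ce.2.2.2.2 zero = v2 at h
  have ma := hm ce.1
  have mb := hm ce.2.1
  have mc := hm ce.2.2.1
  have mv := hm ce.2.2.2.1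
  have mw := hm ce.2.2.2.2
  rw [ha] at ma
  rw [hb] at mb
  rw [hc] at mc
  rw [hv] at mv
  rw [hw] at mw
  obtain ⟨⟨⟨h1, h2⟩, h3⟩, h4⟩ := h
  have z0 := hz zero (by simp [dlst])
  rw [val_zero, sub_zero] at z0
  rcases z0 with z0 | z0
  · exact ⟨zero, by simp [dlst], by rw [z0, val_zero]⟩
  rcases hz a ma with za | za
  · exact ⟨a, ma, sub_eq_zero.1 za⟩
  rcases hz b mb with zb | zb
  · exact ⟨b, mb, sub_eq_zero.1 zb⟩
  rcases hz c mc with zc | zc
  · exact ⟨c, mc, sub_eq_zero.1 zc⟩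
  have na := (isUnit_iff a).1 h1
  have na0 := ne0_of_norm na
  have ainv : star (val a) * val a = 1 := by
    rw [← inv_star na, inv_mul_cancel₀ na0]
  obtain ⟨y, hy⟩ : ∃ y, z = y * val a := ⟨z * (val a)⁻¹, by
    rw [mul_assoc, inv_mul_cancel₀ na0, mul_one]⟩
  have key : ∀ x : D8, ‖z - val x‖ = 1 → ‖val (mul x (str a)) - y‖ = 1 := by
    intro x hx
    have e : val (mul x (str a)) - y = -((z - val x) * star (val a)) := by
      rw [val_mul, val_str, sub_mul, neg_sub, hy, mul_assoc y]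
      have : val a * star (val a) = 1 := by rw [← inv_star na, mul_inv_cancel₀ na0]
      rw [this, mul_one]
    rw [e, norm_neg, norm_mul, hx, Quaternion.norm_star, na, mul_one]
  have ny : ‖y‖ = 1 := by
    rw [hy, norm_mul, na, mul_one] at z0; exact z0
  have ny1 : ‖y - 1‖ = 1 := by
    have e : z - val a = (y - 1) * val a := by rw [hy, sub_mul, one_mul]
    rw [e, norm_mul, na, mul_one] at za; exact za
  have hs : Spx (val (mul b (str a))) (val (mul c (str a))) y :=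
    ⟨tetb_iff h2, ⟨ny, ny1⟩, key b zb, key c zc⟩
  rcases apex_formula hs with h5 | h5
  · rw [← val_apx_true] at h5
    rw [h5, ← val_mul] at hy
    rcases hz v1 mv with hh | hh
    · exact ⟨v1, mv, sub_eq_zero.1 hh⟩
    · exfalso
      rw [hy, ← val_sub, ← isUnit_iff, h3] at hh
      exact Bool.false_ne_true hh
  · rw [← val_apx_false] at h5
    rw [h5, ← val_mul] at hy
    rcases hz v2 mw with hh | hh
    · exact ⟨v2, mw, sub_eq_zero.1 hh⟩
    · exfalso
      rw [hy, ← val_sub, ← isUnit_iff, h4] at hh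
      exact Bool.false_ne_true hh

theorem InT_tc {t : T3} (h : InT t) (i : ℕ) : val (tc t i) ∈ RI := by
  match i with
  | 0 => exact h.1
  | 1 => exact h.2.1
  | n + 2 => exact h.2.2

theorem m_am (i j : ℕ) : val (am i j) ∈ RI := by
  unfold am
  split
  · exact m_dp
  · exact m_dRp
  · exact m_dq
  · exact m_dRq
  · exact m_one

theorem m_Sm (i i' j j' : ℕ) : val (Sm i i' j j') ∈ RI :=
  m_sub (m_am _ _) (m_mul (m_mul (m_am _ _) (m_str (m_am _ _))) (m_am _ _))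

theorem m_d1 {t d : T3} (ht : InT t) (hd : InT d) (i j : ℕ) : val (d1 t d i j) ∈ RI :=
  m_mul (m_mul (m_str (InT_tc hd j)) (m_str (m_am _ _))) (InT_tc ht i)

theorem m_d2 {t d : T3} (ht : InT t) (hd : InT d) (i i' j j' : ℕ) : val (d2 t d i i' j j') ∈ RI :=
  m_add (m_d1 ht hd i j) (m_mul (m_mul (m_sub (m_str (InT_tc hd j')) (m_mul (m_mul
    (m_str (InT_tc hd j)) (m_str (m_am _ _))) (m_am _ _))) (m_str (m_Sm _ _ _ _)))
    (m_sub (InT_tc ht i') (m_mul (m_mul (m_am _ _) (m_str (m_am _ _))) (InT_tc ht i))))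

theorem dlst_mem {t d : T3} {P : D8 → Prop} (h0 : P zero) (h1 : ∀ i j : Fin 3, P (d1 t d i j))
    (h2 : ∀ i i' j j' : Fin 3, i' ≠ i → j' ≠ j → P (d2 t d i i' j j')) : ∀ δ ∈ dlst t d, P δ := by
  simp only [dlst, List.forall_mem_cons]
  exact ⟨h0, h1 0 0, h1 0 1, h1 0 2, h1 1 0, h1 1 1, h1 1 2, h1 2 0, h1 2 1, h1 2 2,
    h2 0 1 0 1 (by decide) (by decide), h2 0 1 0 2 (by decide) (by decide),
    h2 0 1 1 2 (by decide) (by decide), h2 0 2 0 1 (by decide) (by decide),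
    h2 0 2 0 2 (by decide) (by decide), h2 0 2 1 2 (by decide) (by decide),
    h2 1 2 0 1 (by decide) (by decide), h2 1 2 0 2 (by decide) (by decide),
    h2 1 2 1 2 (by decide) (by decide), by simp⟩

theorem pair_check {t d : T3} (ht : t ∈ ntC) (hd : d ∈ ntR) : ∃ ce, check t d ce = true := by
  obtain ⟨n, hn, rfl⟩ := List.mem_iff_getElem.1 ht
  obtain ⟨m, hm, rfl⟩ := List.mem_iff_getElem.1 hd
  have h := certs_ok
  rw [List.all_eq_true] at h
  have h1 := h n (List.mem_range.2 hn)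
  rw [List.all_eq_true] at h1
  have h2 := h1 m (List.mem_range.2 hm)
  rw [List.getD_eq_getElem _ _ hn, List.getD_eq_getElem _ _ hm] at h2
  exact ⟨_, h2⟩

end Grp

/-- the 8-element case: `M = [[z, u], [g, A1]]` -/
theorem P6_B3 (g u : Fin 3 → ℍ[ℝ]) (z : ℍ[ℝ])
    (h : QUS 3 (fun (i j : Fin 4) => (![![z, u 0, u 1, u 2], ![g 0, A1 0 0, A1 0 1, A1 0 2],
      ![g 1, A1 1 0, A1 1 1, A1 1 2], ![g 2, A1 2 0, A1 2 1, A1 2 2]] : Fin 4 → Fin 4 → ℍ[ℝ]) i j))
    (hg : ∃ i i', i ≠ i' ∧ g i ≠ 0 ∧ g i' ≠ 0) (hg' : ∀ j, ¬ ∃ s, ∀ i, g i = A1 i j * s)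
    (hu : ∃ j j', j ≠ j' ∧ u j ≠ 0 ∧ u j' ≠ 0) (hu' : ∀ i, ¬ ∃ s, ∀ j, u j = s * A1 i j) :
    ∃ s t : ℍ[ℝ], ‖s‖ = 1 ∧ ‖t‖ = 1 ∧ (∀ i, g i * s ∈ RI) ∧ (∀ j, t * u j ∈ RI) ∧
      t * z * s ∈ RI := by
  set M : Fin 4 → Fin 4 → ℍ[ℝ] := (fun (i j : Fin 4) =>
    (![![z, u 0, u 1, u 2], ![g 0, A1 0 0, A1 0 1, A1 0 2],
      ![g 1, A1 1 0, A1 1 1, A1 1 2], ![g 2, A1 2 0, A1 2 1, A1 2 2]] :
        Fin 4 → Fin 4 → ℍ[ℝ]) i j) with hM
  have hA : ∀ i j : Fin 3, M i.succ j.succ = A1 i j := by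
    intro i j; fin_cases i <;> fin_cases j <;> rfl
  have hG : ∀ i : Fin 3, M i.succ 0 = g i := by
    intro i; fin_cases i <;> rfl
  have hU : ∀ j : Fin 3, M 0 j.succ = u j := by
    intro j; fin_cases j <;> rfl
  have hZ : M 0 0 = z := rfl
  clear_value M
  have hA0 : ∀ i j : Fin 3, M i.succ j.succ ≠ 0 := fun i j => by rw [hA]; exact A1_ne i j
  have hS0 : ∀ i i' j j' : Fin 3, i' ≠ i → j' ≠ j → M i'.succ j'.succ - M i'.succ j.succ *
      (M i.succ j.succ)⁻¹ * M i.succ j'.succ ≠ 0 := by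
    intro i i' j j' hi hj
    rw [hA, hA, hA, hA, Sm_val]
    exact ne_zero_of_isUnit (Sm_unit i i' j j' hi hj)
  -- columns
  have g1 : ∀ i i' j, i' ≠ i → OKq (g i' - A1 i' j * (A1 i j)⁻¹ * g i) := by
    intro i i' j hi
    have := QUS_L1 h (hA0 i j) (i' := i'.succ) (j' := 0) (by simpa using hi)
      (Fin.succ_ne_zero j).symm
    rwa [hA, hA, hG, hG] at this
  have g2 := QUS_L2 h (hA0 0 0) (i' := Fin.succ 1) (j' := Fin.succ 1) (by decide) (by decide)
    (hS0 0 1 0 1 (by decide) (by decide)) (i'' := Fin.succ 2) (j'' := 0) (by decide) (by decide)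
    (by decide) (by decide)
  simp only [hA, hG] at g2
  have g0 : g ≠ 0 := by
    obtain ⟨i, i', -, hi, -⟩ := hg
    intro hh; apply hi; rw [hh]; rfl
  obtain ⟨t, ht, s, hs, t0, t1, t2⟩ := colA g (fun i => by rw [← hG]; exact QUS_entry h _ _) g1 g2 g0
  -- rows
  have u1 : ∀ j j' i, j' ≠ j → OKq (u j' - u j * (A1 i j)⁻¹ * A1 i j') := by
    intro j j' i hj
    have := QUS_L1 h (hA0 i j) (i' := 0) (j' := j'.succ) (Fin.succ_ne_zero i).symm
      (by simpa using hj)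
    rwa [hA, hA, hU, hU] at this
  have u2 := QUS_L2 h (hA0 0 0) (i' := Fin.succ 1) (j' := Fin.succ 1) (by decide) (by decide)
    (hS0 0 1 0 1 (by decide) (by decide)) (i'' := 0) (j'' := Fin.succ 2) (by decide) (by decide)
    (by decide) (by decide)
  simp only [hA, hU] at u2
  have u0 : u ≠ 0 := by
    obtain ⟨i, i', -, hi, -⟩ := hu
    intro hh; apply hi; rw [hh]; rfl
  obtain ⟨d, hd, s', hs', d0', d1', d2'⟩ := rowA u (fun i => by rw [← hU]; exact QUS_entry h _ _)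
    u1 u2 u0
  have two : ∀ v : Fin 3 → ℍ[ℝ], (∃ i i', i ≠ i' ∧ v i ≠ 0 ∧ v i' ≠ 0) →
      ¬ (v 1 = 0 ∧ v 2 = 0) ∧ ¬ (v 0 = 0 ∧ v 2 = 0) ∧ ¬ (v 0 = 0 ∧ v 1 = 0) := by
    rintro v ⟨i, i', hne, h1, h2⟩
    refine ⟨?_, ?_, ?_⟩ <;> rintro ⟨k1, k2⟩ <;> fin_cases i <;> fin_cases i' <;>
      first
        | exact hne rfl
        | exact h1 k1
        | exact h1 k2
        | exact h2 k1
        | exact h2 k2
  obtain ⟨tg1, tg2, tg3⟩ := two g hg
  obtain ⟨tu1, tu2, tu3⟩ := two u hu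
  have htn : t ∈ ntC := by
    rcases List.mem_append.1 ht with h1 | h1
    · exfalso
      simp only [trivC, List.mem_cons, List.not_mem_nil, or_false] at h1
      rcases h1 with rfl | rfl | rfl | rfl | rfl | rfl
      · exact tg1 ⟨by rw [t1, val_zero, zero_mul], by rw [t2, val_zero, zero_mul]⟩
      · exact tg2 ⟨by rw [t0, val_zero, zero_mul], by rw [t2, val_zero, zero_mul]⟩
      · exact tg3 ⟨by rw [t0, val_zero, zero_mul], by rw [t1, val_zero, zero_mul]⟩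
      · refine hg' 0 ⟨s, ?_⟩
        intro i
        fin_cases i
        · show g 0 = A1 0 0 * s
          rw [t0, A1_00, val_one]
        · show g 1 = A1 1 0 * s
          rw [t1, A1_10, val_one]
        · show g 2 = A1 2 0 * s
          rw [t2, A1_20, val_one]
      · refine hg' 1 ⟨s, ?_⟩
        intro i
        fin_cases i
        · show g 0 = A1 0 1 * s
          rw [t0, A1_01, val_one]
        · show g 1 = A1 1 1 * s
          rw [t1, A1_11, val_dp]
        · show g 2 = A1 2 1 * s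
          rw [t2, A1_21, val_dq]
      · refine hg' 2 ⟨s, ?_⟩
        intro i
        fin_cases i
        · show g 0 = A1 0 2 * s
          rw [t0, A1_02, val_one]
        · show g 1 = A1 1 2 * s
          rw [t1, A1_12, val_dRp]
        · show g 2 = A1 2 2 * s
          rw [t2, A1_22, val_dRq]
    · exact h1
  have hdn : d ∈ ntR := by
    rcases List.mem_append.1 hd with h1 | h1
    · exfalso
      simp only [trivR, List.mem_cons, List.not_mem_nil, or_false] at h1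
      have z1 : val (str zero) = 0 := by rw [val_str, val_zero, star_zero]
      have o1 : val (str one) = 1 := by rw [val_str, val_one, star_one]
      rcases h1 with rfl | rfl | rfl | rfl | rfl | rfl
      · exact tu1 ⟨by rw [d1', z1, mul_zero], by rw [d2', z1, mul_zero]⟩
      · exact tu2 ⟨by rw [d0', z1, mul_zero], by rw [d2', z1, mul_zero]⟩
      · exact tu3 ⟨by rw [d0', z1, mul_zero], by rw [d1', z1, mul_zero]⟩
      · refine hu' 0 ⟨s', ?_⟩
        intro i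
        fin_cases i
        · show u 0 = s' * A1 0 0
          rw [d0', A1_00, o1]
        · show u 1 = s' * A1 0 1
          rw [d1', A1_01, o1]
        · show u 2 = s' * A1 0 2
          rw [d2', A1_02, o1]
      · refine hu' 1 ⟨s', ?_⟩
        intro i
        fin_cases i
        · show u 0 = s' * A1 1 0
          rw [d0', A1_10, o1]
        · show u 1 = s' * A1 1 1
          rw [d1', A1_11, val_str, val_str, star_star, val_dp]
        · show u 2 = s' * A1 1 2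
          rw [d2', A1_12, val_str, val_str, star_star, val_dRp]
      · refine hu' 2 ⟨s', ?_⟩
        intro i
        fin_cases i
        · show u 0 = s' * A1 2 0
          rw [d0', A1_20, o1]
        · show u 1 = s' * A1 2 1
          rw [d1', A1_21, val_str, val_str, star_star, val_dq]
        · show u 2 = s' * A1 2 2
          rw [d2', A1_22, val_str, val_str, star_star, val_dRq]
    · exact h1
  have hs0 := ne0_of_norm hs
  have hs'0 := ne0_of_norm hs'
  have gt : ∀ i : Fin 3, g i = val (tc t i) * s := by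
    intro i; fin_cases i
    · exact t0
    · exact t1
    · exact t2
  have ut : ∀ j : Fin 3, u j = s' * val (str (tc d j)) := by
    intro i; fin_cases i
    · exact d0'
    · exact d1'
    · exact d2'
  obtain ⟨z', hz'⟩ : ∃ z', z = s' * z' * s := ⟨s'⁻¹ * z * s⁻¹, by
    rw [← mul_assoc, ← mul_assoc, mul_inv_cancel₀ hs'0, one_mul, mul_assoc, inv_mul_cancel₀ hs0,
      mul_one]⟩
  have tr : ∀ x : ℍ[ℝ], OKq (s' * x * s) → OKq x := by
    intro x hx
    rwa [OKq_mul_right hs, OKq_mul_left hs'] at hx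
  have hz : ∀ δ ∈ dlst t d, OKq (z' - val δ) := by
    refine dlst_mem ?_ ?_ ?_
    · rw [val_zero, sub_zero]
      apply tr
      rw [← hz', ← hZ]
      exact QUS_entry h 0 0
    · intro i j
      apply tr
      have := QUS_L1 h (hA0 i j) (i' := 0) (j' := 0) (Fin.succ_ne_zero i).symm
        (Fin.succ_ne_zero j).symm
      rw [hZ, hU, hG, hA, A1_inv, gt, ut, hz'] at this
      have e : s' * (z' - val (d1 t d i j)) * s =
          s' * z' * s - s' * val (str (tc d j)) * val (str (am i j)) * (val (tc t i) * s) := by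
        unfold d1
        rw [val_mul, val_mul]
        simp only [mul_sub, sub_mul, mul_assoc]
      rw [e]; exact this
    · intro i i' j j' hi hj
      apply tr
      have := QUS_L2 h (hA0 i j) (i' := i'.succ) (j' := j'.succ) (by simpa using hi)
        (by simpa using hj) (hS0 i i' j j' hi hj) (i'' := 0) (j'' := 0) (Fin.succ_ne_zero i).symm
        (Fin.succ_ne_zero i').symm (Fin.succ_ne_zero j).symm (Fin.succ_ne_zero j').symm
      simp only [hZ, hU, hG, hA] at this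
      rw [Sm_val, val_inv (Sm_unit i i' j j' hi hj), A1_inv, A1_val, A1_val, gt, gt, ut, ut, hz']
        at this
      have e : s' * (z' - val (d2 t d i i' j j')) * s =
          s' * z' * s - s' * val (str (tc d j)) * val (str (am i j)) * (val (tc t i) * s) -
          (s' * val (str (tc d j')) - s' * val (str (tc d j)) * val (str (am i j)) *
            val (am i j')) * val (str (Sm i i' j j')) *
          (val (tc t i') * s - val (am i' j) * val (str (am i j)) * (val (tc t i) * s)) := by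
        unfold d2 d1
        simp only [val_mul, val_add, val_sub, mul_sub, sub_mul, mul_add, add_mul, mul_assoc]
        abel
      rw [e]; exact this
  obtain ⟨ce, hce⟩ := pair_check htn hdn
  obtain ⟨δ, hδ, hzδ⟩ := check_sound hce hz
  have it := InT_C t ht
  have id := InT_R d hd
  have hz'R : z' ∈ RI := by
    rw [hzδ]
    exact dlst_mem (P := fun δ => val δ ∈ RI) m_zero (fun i j => m_d1 it id i j)
      (fun i i' j j' _ _ => m_d2 it id i i' j j') δ hδ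
  have c1 := mul_inv_cancel₀ hs0
  have c2 := inv_mul_cancel₀ hs'0
  refine ⟨s⁻¹, s'⁻¹, by rw [norm_inv, hs, inv_one], by rw [norm_inv, hs', inv_one], ?_, ?_, ?_⟩
  · intro i
    rw [gt, mul_assoc, c1, mul_one]
    exact InT_tc it i
  · intro j
    rw [ut, ← mul_assoc, c2, one_mul]
    exact m_str (InT_tc id j)
  · rw [hz', ← mul_assoc, ← mul_assoc, c2, one_mul, mul_assoc, c1, mul_one]
    exact hz'R


end Pool.Agent.QU
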