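import Pool.Agent.QU.Defs

set_option linter.unusedVariables false
set_option linter.unusedSectionVars false
set_option linter.style.longLine false
set_option linter.unusedSimpArgs false
set_option linter.unnecessarySeqFocus false

/-! Quaternion groups, part A: regular triangles, tetrahedra and simplices of unit quaternions,
the Eisenstein, Hurwitz and icosian rings. -/

open Quaternion

namespace Pool.Agent.QU

noncomputable def p0 : ℍ[ℝ] := ⟨1/2, 1/2, 1/2, 1/2⟩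
noncomputable def q0 : ℍ[ℝ] := ⟨1/2, -1/2, 1/2, 1/2⟩
/-- `(1/2, 0, φ/2, -1/(2φ))` -/
noncomputable def r0 : ℍ[ℝ] := ⟨1/2, 0, (1 + √5)/4, (1 - √5)/4⟩
namespace Grp

/-- the other apex over `0, 1, p0, q0` -/
noncomputable def r1 : ℍ[ℝ] := ⟨1/2, 0, (1 - √5)/4, (1 + √5)/4⟩

end Grp

open Grp

/-- Eisenstein integers `ℤ[p0]` -/
noncomputable def RC : Subring ℍ[ℝ] := Subring.closure {p0}
/-- Hurwitz integers -/
noncomputable def RT : Subring ℍ[ℝ] := Subring.closure {p0, q0}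
/-- icosians -/
noncomputable def RI : Subring ℍ[ℝ] := Subring.closure {p0, q0, r0}

namespace Grp

theorem closure_star {S : Set ℍ[ℝ]} (hS : ∀ s ∈ S, star s ∈ Subring.closure S) {x : ℍ[ℝ]}
    (h : x ∈ Subring.closure S) : star x ∈ Subring.closure S := by
  induction h using Subring.closure_induction with
  | mem x hx => exact hS x hx
  | zero => rw [star_zero]; exact Subring.zero_mem _
  | one => rw [star_one]; exact Subring.one_mem _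
  | add x y _ _ hx hy => rw [star_add]; exact Subring.add_mem _ hx hy
  | neg x _ hx => rw [star_neg]; exact Subring.neg_mem _ hx
  | mul x y _ _ hx hy => rw [star_mul]; exact Subring.mul_mem _ hy hx

/-- quaternion from coordinates -/
noncomputable def qq (a b c d : ℝ) : ℍ[ℝ] := ⟨a, b, c, d⟩
@[simp] theorem qq_re (a b c d : ℝ) : (qq a b c d).re = a := rfl
@[simp] theorem qq_imI (a b c d : ℝ) : (qq a b c d).imI = b := rfl
@[simp] theorem qq_imJ (a b c d : ℝ) : (qq a b c d).imJ = c := rfl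
@[simp] theorem qq_imK (a b c d : ℝ) : (qq a b c d).imK = d := rfl
theorem p0_qq : p0 = qq (1/2) (1/2) (1/2) (1/2) := rfl
theorem q0_qq : q0 = qq (1/2) (-1/2) (1/2) (1/2) := rfl
theorem r0_qq : r0 = qq (1/2) 0 ((1 + √5)/4) ((1 - √5)/4) := rfl
theorem r1_qq : r1 = qq (1/2) 0 ((1 - √5)/4) ((1 + √5)/4) := rfl

theorem qext {x y : ℍ[ℝ]} (h1 : x.re = y.re) (h2 : x.imI = y.imI) (h3 : x.imJ = y.imJ)
    (h4 : x.imK = y.imK) : x = y := Quaternion.ext _ _ h1 h2 h3 h4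

theorem star_p0 : star p0 = 1 - p0 := by
  rw [p0_qq]
  apply qext <;> simp <;> norm_num

theorem star_q0 : star q0 = 1 - q0 := by
  rw [q0_qq]
  apply qext <;> simp <;> norm_num

theorem star_r0 : star r0 = 1 - r0 := by
  rw [r0_qq]
  apply qext <;> simp <;> norm_num

end Grp

theorem p0_mem_RC : p0 ∈ RC := Subring.subset_closure (by simp)
namespace Grp

theorem p0_mem_RT : p0 ∈ RT := Subring.subset_closure (by simp)
theorem p0_mem_RI : p0 ∈ RI := Subring.subset_closure (by simp)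
end Grp

theorem q0_mem_RT : q0 ∈ RT := Subring.subset_closure (by simp)
namespace Grp

theorem q0_mem_RI : q0 ∈ RI := Subring.subset_closure (by simp)
end Grp

theorem r0_mem_RI : r0 ∈ RI := Subring.subset_closure (by simp)

theorem RC_star {x} (h : x ∈ RC) : star x ∈ RC := by
  refine closure_star ?_ h
  rintro s rfl
  rw [star_p0]
  exact Subring.sub_mem _ (Subring.one_mem _) p0_mem_RC

theorem RT_star {x} (h : x ∈ RT) : star x ∈ RT := by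
  refine closure_star ?_ h
  rintro s (rfl | rfl)
  · rw [star_p0]; exact Subring.sub_mem _ (Subring.one_mem _) p0_mem_RT
  · rw [star_q0]; exact Subring.sub_mem _ (Subring.one_mem _) q0_mem_RT

theorem RI_star {x} (h : x ∈ RI) : star x ∈ RI := by
  refine closure_star ?_ h
  rintro s (rfl | rfl | rfl)
  · rw [star_p0]; exact Subring.sub_mem _ (Subring.one_mem _) p0_mem_RI
  · rw [star_q0]; exact Subring.sub_mem _ (Subring.one_mem _) q0_mem_RI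
  · rw [star_r0]; exact Subring.sub_mem _ (Subring.one_mem _) r0_mem_RI

theorem RC_le_RT : RC ≤ RT := Subring.closure_mono (by
  intro x hx; simp only [Set.mem_singleton_iff] at hx; simp [hx])
theorem RT_le_RI : RT ≤ RI := Subring.closure_mono (by
  intro x hx
  simp only [Set.mem_singleton_iff, Set.mem_insert_iff] at hx
  rcases hx with rfl | rfl <;> simp)

def Tri (a : ℍ[ℝ]) : Prop := ‖a‖ = 1 ∧ ‖a - 1‖ = 1
def Tet (a b : ℍ[ℝ]) : Prop := Tri a ∧ Tri b ∧ ‖a - b‖ = 1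
def Spx (a b c : ℍ[ℝ]) : Prop := Tet a b ∧ Tri c ∧ ‖a - c‖ = 1 ∧ ‖b - c‖ = 1

/-! ### norms in coordinates -/

namespace Grp

theorem nsq (x : ℍ[ℝ]) : ‖x‖ * ‖x‖ = x.re ^ 2 + x.imI ^ 2 + x.imJ ^ 2 + x.imK ^ 2 := by
  rw [← Quaternion.normSq_eq_norm_mul_self, Quaternion.normSq_def']

theorem n1_iff (x : ℍ[ℝ]) : ‖x‖ = 1 ↔ x.re ^ 2 + x.imI ^ 2 + x.imJ ^ 2 + x.imK ^ 2 = 1 := by
  rw [← nsq]
  constructor
  · intro h; rw [h]; norm_num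
  · intro h
    have h0 := norm_nonneg x
    nlinarith

theorem Tri_iff (x : ℍ[ℝ]) : Tri x ↔ x.re = 1 / 2 ∧ x.imI ^ 2 + x.imJ ^ 2 + x.imK ^ 2 = 3 / 4 := by
  unfold Tri
  rw [n1_iff, n1_iff]
  simp only [Quaternion.re_sub, Quaternion.imI_sub, Quaternion.imJ_sub, Quaternion.imK_sub,
    Quaternion.re_one, Quaternion.imI_one, Quaternion.imJ_one, Quaternion.imK_one]
  constructor
  · rintro ⟨h1, h2⟩
    have : x.re = 1 / 2 := by nlinarith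
    refine ⟨this, ?_⟩
    rw [this] at h1
    linarith
  · rintro ⟨h1, h2⟩
    rw [h1]
    constructor <;> nlinarith

theorem Tri_inner {a b : ℍ[ℝ]} (ha : Tri a) (hb : Tri b) :
    ‖a - b‖ = 1 ↔ a.imI * b.imI + a.imJ * b.imJ + a.imK * b.imK = 1 / 4 := by
  rw [Tri_iff] at ha hb
  rw [n1_iff]
  simp only [Quaternion.re_sub, Quaternion.imI_sub, Quaternion.imJ_sub, Quaternion.imK_sub]
  rw [ha.1, hb.1]
  constructor
  · intro h; nlinarith [ha.2, hb.2]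
  · intro h; nlinarith [ha.2, hb.2]

theorem sqrt5_sq : √5 * √5 = (5 : ℝ) := Real.mul_self_sqrt (by norm_num)

theorem Tri_p0 : Tri p0 := by rw [Tri_iff]; constructor <;> simp [p0] <;> norm_num
theorem Tri_q0 : Tri q0 := by rw [Tri_iff]; constructor <;> simp [q0] <;> norm_num
theorem Tri_r0 : Tri r0 := by
  rw [Tri_iff]
  constructor
  · simp [r0]
  · simp only [r0]
    nlinarith [sqrt5_sq]
theorem Tri_r1 : Tri r1 := by
  rw [Tri_iff]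
  constructor
  · simp [r1]
  · simp only [r1]
    nlinarith [sqrt5_sq]
theorem Tet_pq0 : Tet p0 q0 := by
  refine ⟨Tri_p0, Tri_q0, ?_⟩
  rw [Tri_inner Tri_p0 Tri_q0]
  simp [p0, q0]; norm_num
theorem Spx_pqr0 : Spx p0 q0 r0 := by
  refine ⟨Tet_pq0, Tri_r0, ?_, ?_⟩
  · rw [Tri_inner Tri_p0 Tri_r0]
    simp only [p0, r0]; ring
  · rw [Tri_inner Tri_q0 Tri_r0]
    simp only [q0, r0]; ring

/-! ### conjugation -/

theorem norm_cj {w : ℍ[ℝ]} (hw : ‖w‖ = 1) (x : ℍ[ℝ]) : ‖w⁻¹ * x * w‖ = ‖x‖ := by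
  rw [norm_mul, norm_mul, norm_inv, hw]; simp

theorem ne0_of_norm {w : ℍ[ℝ]} (hw : ‖w‖ = 1) : w ≠ 0 := by
  intro h; rw [h, norm_zero] at hw; norm_num at hw

theorem cj_one {w : ℍ[ℝ]} (hw : ‖w‖ = 1) : w⁻¹ * 1 * w = 1 := by
  rw [mul_one, inv_mul_cancel₀ (ne0_of_norm hw)]

theorem cj_sub (w x y : ℍ[ℝ]) : w⁻¹ * (x - y) * w = w⁻¹ * x * w - w⁻¹ * y * w := by
  rw [mul_sub, sub_mul]

theorem cj_mul {w : ℍ[ℝ]} (hw : ‖w‖ = 1) (x y : ℍ[ℝ]) :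
    w⁻¹ * (x * y) * w = (w⁻¹ * x * w) * (w⁻¹ * y * w) := by
  have h := mul_inv_cancel₀ (ne0_of_norm hw)
  calc w⁻¹ * (x * y) * w = w⁻¹ * x * 1 * y * w := by simp only [mul_one, mul_assoc]
    _ = w⁻¹ * x * (w * w⁻¹) * y * w := by rw [h]
    _ = _ := by simp only [mul_assoc]

theorem cj_cj (v w x : ℍ[ℝ]) : (v * w)⁻¹ * x * (v * w) = w⁻¹ * (v⁻¹ * x * v) * w := by
  rw [mul_inv_rev]; simp only [mul_assoc]

theorem Tri_cj {w : ℍ[ℝ]} (hw : ‖w‖ = 1) {x : ℍ[ℝ]} (h : Tri x) : Tri (w⁻¹ * x * w) := by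
  refine ⟨by rw [norm_cj hw]; exact h.1, ?_⟩
  have : w⁻¹ * x * w - 1 = w⁻¹ * (x - 1) * w := by rw [cj_sub, cj_one hw]
  rw [this, norm_cj hw]; exact h.2

theorem Tet_cj {w : ℍ[ℝ]} (hw : ‖w‖ = 1) {x y : ℍ[ℝ]} (h : Tet x y) :
    Tet (w⁻¹ * x * w) (w⁻¹ * y * w) := by
  refine ⟨Tri_cj hw h.1, Tri_cj hw h.2.1, ?_⟩
  rw [← cj_sub, norm_cj hw]; exact h.2.2

theorem Spx_cj {w : ℍ[ℝ]} (hw : ‖w‖ = 1) {x y z : ℍ[ℝ]} (h : Spx x y z) :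
    Spx (w⁻¹ * x * w) (w⁻¹ * y * w) (w⁻¹ * z * w) := by
  refine ⟨Tet_cj hw h.1, Tri_cj hw h.2.1, ?_, ?_⟩
  · rw [← cj_sub, norm_cj hw]; exact h.2.2.1
  · rw [← cj_sub, norm_cj hw]; exact h.2.2.2

theorem normalize {w : ℍ[ℝ]} (hw : w ≠ 0) :
    ∃ v : ℍ[ℝ], ‖v‖ = 1 ∧ ∀ x y, x * w = w * y → v⁻¹ * x * v = y := by
  have hn : ‖w‖ ≠ 0 := norm_ne_zero_iff.mpr hw
  refine ⟨(‖w‖⁻¹ : ℝ) • w, ?_, ?_⟩
  · rw [norm_smul, norm_inv, norm_norm, inv_mul_cancel₀ hn]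
  · intro x y h
    have hv : (‖w‖⁻¹ : ℝ) • w ≠ 0 := smul_ne_zero (inv_ne_zero hn) hw
    have h2 : x * ((‖w‖⁻¹ : ℝ) • w) = ((‖w‖⁻¹ : ℝ) • w) * y := by
      rw [mul_smul_comm, smul_mul_assoc, h]
    rw [mul_assoc, h2, ← mul_assoc, inv_mul_cancel₀ hv, one_mul]

end Grp

theorem conj_Tri {a} (h : Tri a) : ∃ w : ℍ[ℝ], ‖w‖ = 1 ∧ w⁻¹ * a * w = p0 := by
  rw [Tri_iff] at h
  obtain ⟨h1, h2⟩ := h
  by_cases hw : qq (3/4 + (a.imI + a.imJ + a.imK)/2) (-(a.imJ - a.imK)/2) (-(a.imK - a.imI)/2)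
      (-(a.imI - a.imJ)/2) = 0
  · have e1 := congrArg (fun q : ℍ[ℝ] => q.re) hw
    have e2 := congrArg (fun q : ℍ[ℝ] => q.imI) hw
    have e3 := congrArg (fun q : ℍ[ℝ] => q.imJ) hw
    have e4 := congrArg (fun q : ℍ[ℝ] => q.imK) hw
    simp at e1 e2 e3 e4
    have hx : a.imI = -1/2 := by linarith
    have hy : a.imJ = -1/2 := by linarith
    have hz : a.imK = -1/2 := by linarith
    obtain ⟨v, hv, hv2⟩ := normalize (w := qq 0 1 (-1) 0) (by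
      intro hh
      have := congrArg (fun q : ℍ[ℝ] => q.imI) hh
      simp at this)
    refine ⟨v, hv, hv2 _ _ ?_⟩
    rw [p0_qq]
    apply qext <;> simp [h1, hx, hy, hz] <;> norm_num
  · obtain ⟨v, hv, hv2⟩ := normalize hw
    refine ⟨v, hv, hv2 _ _ ?_⟩
    rw [p0_qq]
    apply qext <;> simp only [Quaternion.re_mul, Quaternion.imI_mul, Quaternion.imJ_mul,
      Quaternion.imK_mul, qq_re, qq_imI, qq_imJ, qq_imK, h1]
    · ring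
    · linear_combination (1 / 2) * h2
    · linear_combination (1 / 2) * h2
    · linear_combination (1 / 2) * h2

namespace Grp

theorem conj_Tet_p0 {b} (h : Tet p0 b) :
    ∃ w : ℍ[ℝ], ‖w‖ = 1 ∧ w⁻¹ * p0 * w = p0 ∧ w⁻¹ * b * w = q0 := by
  have h3 := (Tri_inner h.1 h.2.1).1 h.2.2
  have h12 := (Tri_iff b).1 h.2.1
  obtain ⟨h1, h2⟩ := h12
  rw [p0_qq] at h3
  simp only [qq_imI, qq_imJ, qq_imK] at h3
  have hs : b.imI = 1/2 - b.imJ - b.imK := by linarith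
  by_cases hw : qq (5/6 - b.imI) ((b.imK - b.imJ)/3) ((b.imK - b.imJ)/3) ((b.imK - b.imJ)/3) = 0
  · have e1 := congrArg (fun q : ℍ[ℝ] => q.re) hw
    have e2 := congrArg (fun q : ℍ[ℝ] => q.imI) hw
    simp at e1 e2
    have hx : b.imI = 5/6 := by linarith
    have hy : b.imJ = -1/6 := by linarith
    have hz : b.imK = -1/6 := by linarith
    obtain ⟨v, hv, hv2⟩ := normalize (w := qq 0 1 1 1) (by
      intro hh
      have := congrArg (fun q : ℍ[ℝ] => q.imI) hh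
      simp at this)
    refine ⟨v, hv, hv2 _ _ ?_, hv2 _ _ ?_⟩
    · rw [p0_qq]
      apply qext <;> simp
    · rw [q0_qq]
      apply qext <;> simp [h1, hx, hy, hz] <;> norm_num
  · obtain ⟨v, hv, hv2⟩ := normalize hw
    refine ⟨v, hv, hv2 _ _ ?_, hv2 _ _ ?_⟩
    · rw [p0_qq]
      apply qext <;> simp only [Quaternion.re_mul, Quaternion.imI_mul, Quaternion.imJ_mul,
        Quaternion.imK_mul, qq_re, qq_imI, qq_imJ, qq_imK] <;> ring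
    · rw [q0_qq]
      have h2' : (1/2 - b.imJ - b.imK) ^ 2 + b.imJ ^ 2 + b.imK ^ 2 = 3 / 4 := by
        rw [← hs]; exact h2
      apply qext <;> simp only [Quaternion.re_mul, Quaternion.imI_mul, Quaternion.imJ_mul,
        Quaternion.imK_mul, qq_re, qq_imI, qq_imJ, qq_imK, h1, hs]
      · linear_combination (0) * h2'
      · linear_combination (-2/3) * h2'
      · linear_combination (1/3) * h2'
      · linear_combination (1/3) * h2'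

end Grp

theorem conj_Tet {a b} (h : Tet a b) :
    ∃ w : ℍ[ℝ], ‖w‖ = 1 ∧ w⁻¹ * a * w = p0 ∧ w⁻¹ * b * w = q0 := by
  obtain ⟨v, hv, hva⟩ := conj_Tri h.1
  have h' := Tet_cj hv h
  rw [hva] at h'
  obtain ⟨w, hw, h1, h2⟩ := conj_Tet_p0 h'
  refine ⟨v * w, by rw [norm_mul, hv, hw, one_mul], ?_, ?_⟩
  · rw [cj_cj, hva, h1]
  · rw [cj_cj, h2]

namespace Grp

theorem apex2 {c} (h : Spx p0 q0 c) : c = r0 ∨ c = r1 := by
  obtain ⟨h0, h1, h2, h3⟩ := h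
  rw [Tri_inner Tri_p0 h1, p0_qq] at h2
  rw [Tri_inner Tri_q0 h1, q0_qq] at h3
  rw [Tri_iff] at h1
  obtain ⟨h4, h5⟩ := h1
  simp only [qq_imI, qq_imJ, qq_imK] at h2 h3
  have hx : c.imI = 0 := by linarith
  have hz : c.imK = 1/2 - c.imJ := by linarith
  have h6 : (c.imJ - (1 + √5)/4) * (c.imJ - (1 - √5)/4) = 0 := by
    rw [hx, hz] at h5
    linear_combination (1/2) * h5 - (1/16) * sqrt5_sq
  rcases mul_eq_zero.1 h6 with h7 | h7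
  · left
    rw [r0_qq]
    apply qext <;> simp only [qq_re, qq_imI, qq_imJ, qq_imK]
    · exact h4
    · exact hx
    · linarith
    · linarith
  · right
    rw [r1_qq]
    apply qext <;> simp only [qq_re, qq_imI, qq_imJ, qq_imK]
    · exact h4
    · exact hx
    · linarith
    · linarith

end Grp

theorem conj_Spx {a b c} (h : Spx a b c) : ∃ w : ℍ[ℝ], ‖w‖ = 1 ∧ w⁻¹ * c * w = r0 ∧
    ((w⁻¹ * a * w = p0 ∧ w⁻¹ * b * w = q0) ∨ (w⁻¹ * a * w = q0 ∧ w⁻¹ * b * w = p0)) := by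
  obtain ⟨v, hv, hva, hvb⟩ := conj_Tet h.1
  have h' := Spx_cj hv h
  rw [hva, hvb] at h'
  rcases apex2 h' with hc | hc
  · exact ⟨v, hv, hc, Or.inl ⟨hva, hvb⟩⟩
  · obtain ⟨w, hw, hw2⟩ := normalize (w := qq 0 0 1 1) (by
      intro hh
      have := congrArg (fun q : ℍ[ℝ] => q.imJ) hh
      simp at this)
    have e1 : w⁻¹ * p0 * w = q0 := hw2 _ _ (by
      rw [p0_qq, q0_qq]
      apply qext <;> simp <;> norm_num)
    have e2 : w⁻¹ * q0 * w = p0 := hw2 _ _ (by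
      rw [p0_qq, q0_qq]
      apply qext <;> simp <;> norm_num)
    have e3 : w⁻¹ * r1 * w = r0 := hw2 _ _ (by
      rw [r1_qq, r0_qq]
      apply qext <;> simp <;> ring)
    refine ⟨v * w, by rw [norm_mul, hv, hw, one_mul], ?_, Or.inr ⟨?_, ?_⟩⟩
    · rw [cj_cj, hc, e3]
    · rw [cj_cj, hva, e1]
    · rw [cj_cj, hvb, e2]

namespace Grp

theorem norm_r0r1 : ‖r0 - r1‖ ≠ 1 := by
  intro h
  rw [n1_iff, r0_qq, r1_qq] at h
  simp only [Quaternion.re_sub, Quaternion.imI_sub, Quaternion.imJ_sub, Quaternion.imK_sub,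
    qq_re, qq_imI, qq_imJ, qq_imK] at h
  nlinarith [sqrt5_sq]

end Grp

theorem no_six {a b c d : ℍ[ℝ]} (h : Spx a b c) (hd : Tri d) (h1 : ‖a - d‖ = 1) (h2 : ‖b - d‖ = 1)
    (h3 : ‖c - d‖ = 1) : False := by
  obtain ⟨v, hv, hva, hvb⟩ := conj_Tet h.1
  have hc := Spx_cj hv h
  have hd' : Spx a b d := ⟨h.1, hd, h1, h2⟩
  have hd := Spx_cj hv hd'
  have h3' : ‖v⁻¹ * c * v - v⁻¹ * d * v‖ = 1 := by rw [← cj_sub, norm_cj hv, h3]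
  rw [hva, hvb] at hc hd
  rcases apex2 hc with h4 | h4 <;> rcases apex2 hd with h5 | h5 <;> rw [h4, h5] at h3'
  · rw [sub_self, norm_zero] at h3'; norm_num at h3'
  · exact norm_r0r1 h3'
  · rw [norm_sub_rev] at h3'; exact norm_r0r1 h3'
  · rw [sub_self, norm_zero] at h3'; norm_num at h3'

namespace Grp

/-- quaternions with rational coordinates -/
def Ratl (x : ℍ[ℝ]) : Prop := ∃ a b c d : ℚ, x = qq a b c d

theorem Ratl_RT {x : ℍ[ℝ]} (h : x ∈ RT) : Ratl x := by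
  induction h using Subring.closure_induction with
  | mem x hx =>
    rcases hx with rfl | rfl
    · exact ⟨1/2, 1/2, 1/2, 1/2, by rw [p0_qq]; push_cast; rfl⟩
    · exact ⟨1/2, -1/2, 1/2, 1/2, by rw [q0_qq]; push_cast; rfl⟩
  | zero => exact ⟨0, 0, 0, 0, by apply qext <;> simp⟩
  | one => exact ⟨1, 0, 0, 0, by apply qext <;> simp⟩
  | add x y _ _ hx hy =>
    obtain ⟨a, b, c, d, rfl⟩ := hx
    obtain ⟨a', b', c', d', rfl⟩ := hy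
    exact ⟨a + a', b + b', c + c', d + d', by apply qext <;> simp⟩
  | neg x _ hx =>
    obtain ⟨a, b, c, d, rfl⟩ := hx
    exact ⟨-a, -b, -c, -d, by apply qext <;> simp⟩
  | mul x y _ _ hx hy =>
    obtain ⟨a, b, c, d, rfl⟩ := hx
    obtain ⟨a', b', c', d', rfl⟩ := hy
    refine ⟨a * a' - b * b' - c * c' - d * d', a * b' + b * a' + c * d' - d * c',
      a * c' - b * d' + c * a' + d * b', a * d' + b * c' - c * b' + d * a', ?_⟩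
    apply qext <;> simp

theorem no_sqrt5 (t : ℚ) (h : (t : ℝ) * t = 5) : False := by
  have hirr : Irrational (√5) := by
    have : Nat.Prime 5 := by norm_num
    exact_mod_cast this.irrational_sqrt
  have h1 : |(t : ℝ)| = √5 := by
    rw [← Real.sqrt_mul_self_eq_abs, h]
  apply hirr
  refine ⟨|t|, ?_⟩
  push_cast
  exact h1

end Grp

theorem no_Spx_RT {a b c : ℍ[ℝ]} (h : Spx a b c) (ha : a ∈ RT) (hb : b ∈ RT) (hc : c ∈ RT) :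
    False := by
  have e1 := (Tri_iff a).1 h.1.1
  have e2 := (Tri_iff b).1 h.1.2.1
  have e3 := (Tri_iff c).1 h.2.1
  have e4 := (Tri_inner h.1.1 h.1.2.1).1 h.1.2.2
  have e5 := (Tri_inner h.1.1 h.2.1).1 h.2.2.1
  have e6 := (Tri_inner h.1.2.1 h.2.1).1 h.2.2.2
  obtain ⟨a0, a1, a2, a3, rfl⟩ := Ratl_RT ha
  obtain ⟨b0, b1, b2, b3, rfl⟩ := Ratl_RT hb
  obtain ⟨c0, c1, c2, c3, rfl⟩ := Ratl_RT hc
  simp only [qq_re, qq_imI, qq_imJ, qq_imK] at e1 e2 e3 e4 e5 e6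
  refine no_sqrt5 (4 * (a1 * (b2 * c3 - b3 * c2) - a2 * (b1 * c3 - b3 * c1)
    + a3 * (b1 * c2 - b2 * c1))) ?_
  push_cast
  have key : ((a1 : ℝ) * (b2 * c3 - b3 * c2) - a2 * (b1 * c3 - b3 * c1)
    + a3 * (b1 * c2 - b2 * c1)) ^ 2 = ((a1:ℝ)^2+a2^2+a3^2)*((b1:ℝ)^2+b2^2+b3^2)*((c1:ℝ)^2+c2^2+c3^2)
      + 2 * ((a1:ℝ)*b1+a2*b2+a3*b3)*((a1:ℝ)*c1+a2*c2+a3*c3)*((b1:ℝ)*c1+b2*c2+b3*c3)
      - ((a1:ℝ)^2+a2^2+a3^2)*((b1:ℝ)*c1+b2*c2+b3*c3)^2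
      - ((b1:ℝ)^2+b2^2+b3^2)*((a1:ℝ)*c1+a2*c2+a3*c3)^2
      - ((c1:ℝ)^2+c2^2+c3^2)*((a1:ℝ)*b1+a2*b2+a3*b3)^2 := by ring
  rw [e1.2, e2.2, e3.2, e4, e5, e6] at key
  linear_combination 16 * key

/-! ### the icosian lattice -/

namespace Grp

/-- lattice coordinates of icosians -/
structure L8 where
  (c0 c1 c2 c3 c4 c5 c6 c7 : ℤ)
deriving DecidableEq

noncomputable def phi : ℝ := (1 + √5) / 2

theorem phi_sq : phi * phi = phi + 1 := by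
  unfold phi; linear_combination (1/4) * sqrt5_sq

theorem sqrt5_phi : √5 = 2 * phi - 1 := by unfold phi; ring

theorem r0_phi : r0 = qq (1/2) 0 (phi/2) ((1 - phi)/2) := by
  rw [r0_qq]; unfold phi
  apply qext <;> simp only [qq_re, qq_imI, qq_imJ, qq_imK] <;> ring

noncomputable def latv (c : L8) : ℍ[ℝ] :=
  qq ((c.c0 + c.c1 * phi) / 2) ((c.c2 + c.c3 * phi) / 2)
    (((c.c1 + c.c2 + c.c3 + 2 * c.c4) + (c.c0 + c.c1 + c.c2 + 2 * c.c5) * phi) / 2)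
    (((c.c0 + c.c1 + c.c3 + 2 * c.c6) + (-c.c0 + c.c2 + c.c3 + 2 * c.c7) * phi) / 2)

def act : ℕ → L8 → L8
  | 1, c => ⟨-c.c1 - c.c2 - c.c3 - c.c4 - c.c6, -c.c2 - c.c3 - c.c5 - c.c7, c.c2 + c.c4 - c.c6, c.c0 + c.c1 + c.c5 - c.c7, c.c3 + c.c6 + c.c7, c.c1 + c.c2 + c.c3 + c.c5 + c.c6 + c.c7, c.c2 + c.c3 + c.c6 + c.c7, -c.c0 - c.c1 - c.c2 - c.c4 - c.c5 + c.c7⟩
  | 2, c => ⟨-c.c1 - c.c3 - c.c4 - c.c6, -c.c2 - c.c5 - c.c7, -c.c0 + c.c2 + c.c4 - c.c6, c.c0 + c.c5 - c.c7, c.c7, c.c0 + c.c1 + c.c5 + c.c6, c.c1 + c.c2 + c.c3 + c.c4 + c.c6 + c.c7, -c.c4 + c.c7⟩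
  | 3, c => ⟨-c.c0 - c.c1 - c.c5 - c.c6 + c.c7, -c.c2 - c.c4 - c.c5 + c.c6, c.c4 - c.c5 - c.c7, -c.c1 - c.c2 - c.c3 - c.c4 - c.c6 - c.c7, c.c1 + c.c2 + c.c3 + c.c4 + c.c5 + c.c7, c.c0 + c.c1 + c.c2 + 2*c.c5, c.c0 + c.c1 + c.c2 + c.c3 + c.c4 + c.c5 + c.c6, -c.c0 + c.c2 + c.c3 + 2*c.c7⟩
  | _, c => ⟨-c.c0, -c.c1, -c.c2, -c.c3, -c.c4, -c.c5, -c.c6, -c.c7⟩

noncomputable def gen : ℕ → ℍ[ℝ]
  | 1 => p0
  | 2 => q0
  | 3 => r0
  | _ => -1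

theorem latv_act1 (c : L8) : latv (act 1 c) = latv c * p0 := by
  rw [p0_qq]
  apply qext <;> simp only [latv, act, Quaternion.re_mul, Quaternion.imI_mul, Quaternion.imJ_mul,
    Quaternion.imK_mul, qq_re, qq_imI, qq_imJ, qq_imK] <;> push_cast <;> ring

theorem latv_act2 (c : L8) : latv (act 2 c) = latv c * q0 := by
  rw [q0_qq]
  apply qext <;> simp only [latv, act, Quaternion.re_mul, Quaternion.imI_mul, Quaternion.imJ_mul,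
    Quaternion.imK_mul, qq_re, qq_imI, qq_imJ, qq_imK] <;> push_cast <;> ring

theorem latv_act3 (c : L8) : latv (act 3 c) = latv c * r0 := by
  rw [r0_phi]
  have h : phi ^ 2 = phi + 1 := by rw [sq, phi_sq]
  apply qext <;> simp only [latv, act, Quaternion.re_mul, Quaternion.imI_mul, Quaternion.imJ_mul,
    Quaternion.imK_mul, qq_re, qq_imI, qq_imJ, qq_imK] <;> push_cast <;> ring_nf <;> rw [h] <;> ring

theorem latv_act (g : ℕ) (c : L8) : latv (act g c) = latv c * gen g := by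
  match g with
  | 1 => exact latv_act1 c
  | 2 => exact latv_act2 c
  | 3 => exact latv_act3 c
  | 0 =>
    apply qext <;> simp only [latv, act, gen, mul_neg, mul_one, Quaternion.re_neg,
      Quaternion.imI_neg, Quaternion.imJ_neg, Quaternion.imK_neg, qq_re, qq_imI, qq_imJ, qq_imK] <;>
      push_cast <;> ring
  | n + 4 =>
    apply qext <;> simp only [latv, act, gen, mul_neg, mul_one, Quaternion.re_neg,
      Quaternion.imI_neg, Quaternion.imJ_neg, Quaternion.imK_neg, qq_re, qq_imI, qq_imJ, qq_imK] <;>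
      push_cast <;> ring

theorem RI_latv {x : ℍ[ℝ]} (h : x ∈ RI) : ∀ c, ∃ c', latv c * x = latv c' := by
  induction h using Subring.closure_induction with
  | mem x hx =>
    intro c
    rcases hx with rfl | rfl | rfl
    · exact ⟨act 1 c, (latv_act1 c).symm⟩
    · exact ⟨act 2 c, (latv_act2 c).symm⟩
    · exact ⟨act 3 c, (latv_act3 c).symm⟩
  | zero =>
    intro c
    exact ⟨⟨0, 0, 0, 0, 0, 0, 0, 0⟩, by
      rw [mul_zero]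
      apply qext <;> simp [latv]⟩
  | one => intro c; exact ⟨c, mul_one _⟩
  | add x y _ _ hx hy =>
    intro c
    obtain ⟨a, ha⟩ := hx c
    obtain ⟨b, hb⟩ := hy c
    refine ⟨⟨a.c0 + b.c0, a.c1 + b.c1, a.c2 + b.c2, a.c3 + b.c3, a.c4 + b.c4, a.c5 + b.c5,
      a.c6 + b.c6, a.c7 + b.c7⟩, ?_⟩
    rw [mul_add, ha, hb]
    apply qext <;> simp only [latv, Quaternion.re_add, Quaternion.imI_add, Quaternion.imJ_add,
      Quaternion.imK_add, qq_re, qq_imI, qq_imJ, qq_imK] <;> push_cast <;> ring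
  | neg x _ hx =>
    intro c
    obtain ⟨a, ha⟩ := hx c
    refine ⟨act 0 a, ?_⟩
    rw [latv_act, ← ha]
    simp [gen]
  | mul x y _ _ hx hy =>
    intro c
    obtain ⟨a, ha⟩ := hx c
    obtain ⟨b, hb⟩ := hy a
    exact ⟨b, by rw [← mul_assoc, ha, hb]⟩

def one8 : L8 := ⟨2, 0, 0, 0, 0, -1, -1, 1⟩

theorem latv_one8 : latv one8 = 1 := by
  apply qext <;> simp [latv, one8]

theorem RI_lat {x : ℍ[ℝ]} (h : x ∈ RI) : ∃ c, x = latv c := by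
  obtain ⟨c, hc⟩ := RI_latv h one8
  rw [latv_one8, one_mul] at hc
  exact ⟨c, hc⟩

theorem phi_irr (m n : ℤ) (h : (m : ℝ) + n * phi = 0) : m = 0 ∧ n = 0 := by
  have hn : n = 0 := by
    by_contra hn
    have hn' : (n : ℝ) ≠ 0 := by exact_mod_cast hn
    refine no_sqrt5 (-(2 * m + n) / n) ?_
    push_cast
    have e : √5 = -(2 * m + n) / n := by
      rw [sqrt5_phi]
      field_simp
      linear_combination 2 * h
    rw [← e]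
    exact sqrt5_sq
  subst hn
  refine ⟨?_, rfl⟩
  simpa using h

theorem latv_norm {c : L8} (h : ‖latv c‖ = 1) :
    let a0 := c.c0; let b0 := c.c1; let a1 := c.c2; let b1 := c.c3
    let a2 := c.c1 + c.c2 + c.c3 + 2 * c.c4; let b2 := c.c0 + c.c1 + c.c2 + 2 * c.c5
    let a3 := c.c0 + c.c1 + c.c3 + 2 * c.c6; let b3 := -c.c0 + c.c2 + c.c3 + 2 * c.c7
    a0*a0 + (b0*b0 + (a1*a1 + (b1*b1 + (a2*a2 + (b2*b2 + (a3*a3 + b3*b3)))))) = 4 ∧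
    (2*a0 + b0)*b0 + (2*a1+b1)*b1 + (2*a2+b2)*b2 + (2*a3+b3)*b3 = 0 := by
  intro a0 b0 a1 b1 a2 b2 a3 b3
  rw [n1_iff] at h
  have h1 : ((a0 + b0 * phi) / 2) ^ 2 + ((a1 + b1 * phi) / 2) ^ 2 + ((a2 + b2 * phi) / 2) ^ 2
      + ((a3 + b3 * phi) / 2) ^ 2 = (1 : ℝ) := by
    simp only [a0, b0, a1, b1, a2, b2, a3, b3]
    push_cast
    exact h
  have h2 := phi_irr (a0*a0 + (b0*b0 + (a1*a1 + (b1*b1 + (a2*a2 + (b2*b2 + (a3*a3 + b3*b3)))))) - 4)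
    ((2*a0 + b0)*b0 + (2*a1+b1)*b1 + (2*a2+b2)*b2 + (2*a3+b3)*b3) (by
      push_cast
      linear_combination 4 * h1 - ((b0:ℝ)^2 + (b1:ℝ)^2 + (b2:ℝ)^2 + (b3:ℝ)^2) * phi_sq)
  exact ⟨by linarith [h2.1], h2.2⟩

/-- integer vectors of length `n` with sum of squares `b ≤ 4` -/
def enum : ℕ → ℕ → List (List ℤ)
  | 0, 0 => [[]]
  | 0, _ + 1 => []
  | n + 1, b => (enum n b).map (0 :: ·) ++
      (if 1 ≤ b then (enum n (b - 1)).map (1 :: ·) ++ (enum n (b - 1)).map (-1 :: ·) else []) ++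
      (if 4 ≤ b then (enum n (b - 4)).map (2 :: ·) ++ (enum n (b - 4)).map (-2 :: ·) else [])

def sqs : List ℤ → ℤ
  | [] => 0
  | k :: t => k * k + sqs t

theorem sqs_nonneg (l : List ℤ) : 0 ≤ sqs l := by
  induction l with
  | nil => simp [sqs]
  | cons k t ih => simp only [sqs]; nlinarith [mul_self_nonneg k]

theorem mem_enum (n : ℕ) : ∀ (b : ℕ) (l : List ℤ), b ≤ 4 → l.length = n → sqs l = b →
    l ∈ enum n b := by
  induction n with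
  | zero =>
    intro b l hb hl hs
    have : l = [] := List.length_eq_zero_iff.1 hl
    subst this
    simp only [sqs] at hs
    have hb0 : b = 0 := by omega
    subst hb0
    simp [enum]
  | succ n ih =>
    intro b l hb hl hs
    match l, hl with
    | k :: t, hl =>
      simp only [sqs] at hs
      have ht := sqs_nonneg t
      have hlt : t.length = n := by simpa using hl
      have hk1 : k ≤ 2 := by nlinarith
      have hk2 : -2 ≤ k := by nlinarith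
      simp only [enum, List.mem_append, List.mem_map]
      have hb' : (b : ℤ) ≤ 4 := by exact_mod_cast hb
      interval_cases k
      · right
        have hb4 : 4 ≤ b := by
          have : (4 : ℤ) ≤ b := by linarith
          exact_mod_cast this
        rw [if_pos hb4]
        simp only [List.mem_append, List.mem_map]
        right
        exact ⟨t, ih _ t (by omega) hlt (by push_cast [Nat.cast_sub hb4]; linarith), rfl⟩
      · left; right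
        have hb4 : 1 ≤ b := by
          have : (1 : ℤ) ≤ b := by linarith
          exact_mod_cast this
        rw [if_pos hb4]
        simp only [List.mem_append, List.mem_map]
        right
        exact ⟨t, ih _ t (by omega) hlt (by push_cast [Nat.cast_sub hb4]; linarith), rfl⟩
      · left; left
        exact ⟨t, ih _ t hb hlt (by linarith), rfl⟩
      · left; right
        have hb4 : 1 ≤ b := by
          have : (1 : ℤ) ≤ b := by linarith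
          exact_mod_cast this
        rw [if_pos hb4]
        simp only [List.mem_append, List.mem_map]
        left
        exact ⟨t, ih _ t (by omega) hlt (by push_cast [Nat.cast_sub hb4]; linarith), rfl⟩
      · right
        have hb4 : 4 ≤ b := by
          have : (4 : ℤ) ≤ b := by linarith
          exact_mod_cast this
        rw [if_pos hb4]
        simp only [List.mem_append, List.mem_map]
        left
        exact ⟨t, ih _ t (by omega) hlt (by push_cast [Nat.cast_sub hb4]; linarith), rfl⟩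

/-- the 120 units, with words in the generators -/
def tab : List (L8 × List ℕ) := [
  (⟨2, 0, 0, 0, 0, -1, -1, 1⟩, []),
  (⟨1, 0, 1, 0, 0, -1, 0, 0⟩, [1]),
  (⟨1, 0, -1, 0, 1, 0, 0, 1⟩, [2]),
  (⟨1, 0, 0, 0, 0, 0, 0, 0⟩, [3]),
  (⟨-2, 0, 0, 0, 0, 1, 1, -1⟩, [0]),
  (⟨-1, 0, 1, 0, 0, 0, 1, -1⟩, [1, 1]),
  (⟨0, 0, 0, 0, 0, 0, 1, 0⟩, [1, 2]),
  (⟨0, 0, 1, -1, 0, 0, 1, 0⟩, [1, 3]),
  (⟨-1, 0, -1, 0, 0, 1, 0, 0⟩, [1, 0]),
  (⟨0, 0, 0, 0, 1, 0, 0, 0⟩, [2, 1]),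
  (⟨-1, 0, -1, 0, 1, 1, 1, 0⟩, [2, 2]),
  (⟨0, 0, 0, -1, 1, 0, 1, 0⟩, [2, 3]),
  (⟨-1, 0, 1, 0, -1, 0, 0, -1⟩, [2, 0]),
  (⟨0, 0, 0, 1, 0, 0, 0, -1⟩, [3, 1]),
  (⟨0, 0, -1, 1, 0, 1, 0, 0⟩, [3, 2]),
  (⟨-1, 0, 0, 0, 0, 1, 1, -1⟩, [3, 3]),
  (⟨-1, 0, 0, 0, 0, 0, 0, 0⟩, [3, 0]),
  (⟨-1, 0, 1, 0, -1, 0, 1, -1⟩, [1, 1, 2]),
  (⟨-1, 0, 1, -1, 0, 0, 1, 0⟩, [1, 1, 3]),
  (⟨1, 0, -1, 0, 0, 0, -1, 1⟩, [1, 1, 0]),
  (⟨-1, 0, -1, 0, 0, 1, 1, 0⟩, [1, 2, 2]),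
  (⟨-1, 1, 0, -1, 0, 0, 1, 0⟩, [1, 2, 3]),
  (⟨0, 0, 0, 0, 0, 0, -1, 0⟩, [1, 2, 0]),
  (⟨0, -1, 0, 0, 0, 1, 1, 0⟩, [1, 3, 2]),
  (⟨-1, 0, 0, -1, 0, 1, 1, 0⟩, [1, 3, 3]),
  (⟨0, 0, -1, 1, 0, 0, -1, 0⟩, [1, 3, 0]),
  (⟨-1, 0, 1, 0, 0, 0, 0, -1⟩, [2, 1, 1]),
  (⟨0, -1, 1, -1, 1, 0, 1, 0⟩, [2, 1, 3]),
  (⟨0, 0, 0, 0, -1, 0, 0, 0⟩, [2, 1, 0]),
  (⟨-1, 0, -1, 0, 1, 1, 0, 0⟩, [2, 2, 1]),
  (⟨-1, 0, 0, -1, 1, 0, 1, 0⟩, [2, 2, 3]),
  (⟨1, 0, 1, 0, -1, -1, -1, 0⟩, [2, 2, 0]),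
  (⟨-1, 1, 0, 0, 0, 0, 0, -1⟩, [2, 3, 1]),
  (⟨-1, 0, 1, -1, 0, 0, 1, -1⟩, [2, 3, 3]),
  (⟨0, 0, 0, 1, -1, 0, -1, 0⟩, [2, 3, 0]),
  (⟨-1, 0, 0, 1, 0, 0, 0, -1⟩, [3, 1, 1]),
  (⟨-1, 1, 0, 1, -1, 0, 0, -1⟩, [3, 1, 2]),
  (⟨0, 0, 0, -1, 0, 0, 0, 1⟩, [3, 1, 0]),
  (⟨0, -1, -1, 1, 1, 1, 0, 0⟩, [3, 2, 1]),
  (⟨-1, 0, -1, 1, 0, 1, 0, 0⟩, [3, 2, 2]),
  (⟨0, 0, 1, -1, 0, -1, 0, 0⟩, [3, 2, 0]),
  (⟨-1, 0, -1, 1, 0, 1, 0, -1⟩, [3, 3, 1]),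
  (⟨-1, 0, 0, 1, -1, 1, 0, -1⟩, [3, 3, 2]),
  (⟨1, 0, 0, 0, 0, -1, -1, 1⟩, [3, 3, 0]),
  (⟨-1, 1, 0, 0, -1, 0, 0, 0⟩, [1, 1, 2, 3]),
  (⟨1, 0, -1, 0, 1, 0, -1, 1⟩, [1, 1, 2, 0]),
  (⟨0, -1, 1, -1, 0, 0, 1, 0⟩, [1, 1, 3, 2]),
  (⟨1, 0, -1, 1, 0, 0, -1, 0⟩, [1, 1, 3, 0]),
  (⟨0, 0, -2, 0, 1, 1, 0, 1⟩, [1, 2, 2, 1]),
  (⟨-1, 1, -1, 0, 0, 0, 0, 0⟩, [1, 2, 2, 3]),
  (⟨1, 0, 1, 0, 0, -1, -1, 0⟩, [1, 2, 2, 0]),
  (⟨-1, 1, -1, 0, 0, 1, 0, 0⟩, [1, 2, 3, 1]),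
  (⟨-1, 1, 0, -1, 0, 0, 0, 0⟩, [1, 2, 3, 3]),
  (⟨1, -1, 0, 1, 0, 0, -1, 0⟩, [1, 2, 3, 0]),
  (⟨0, -1, -1, 0, 1, 1, 1, 0⟩, [1, 3, 2, 1]),
  (⟨0, -1, -1, 1, 0, 1, 0, 0⟩, [1, 3, 2, 2]),
  (⟨0, 1, 0, 0, 0, -1, -1, 0⟩, [1, 3, 2, 0]),
  (⟨0, 0, -1, 0, 0, 1, 0, 0⟩, [1, 3, 3, 1]),
  (⟨0, -1, 0, 0, 0, 1, 0, 0⟩, [1, 3, 3, 2]),
  (⟨1, 0, 0, 1, 0, -1, -1, 0⟩, [1, 3, 3, 0]),
  (⟨0, 0, 2, 0, -1, -1, 0, -1⟩, [2, 1, 1, 2]),
  (⟨0, -1, 1, 0, 0, 0, 0, 0⟩, [2, 1, 1, 3]),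
  (⟨1, 0, -1, 0, 0, 0, 0, 1⟩, [2, 1, 1, 0]),
  (⟨0, -1, 1, 0, 0, 0, 1, -1⟩, [2, 1, 3, 2]),
  (⟨0, 1, -1, 1, -1, 0, -1, 0⟩, [2, 1, 3, 0]),
  (⟨0, -1, 0, 0, 1, 0, 0, 0⟩, [2, 2, 1, 3]),
  (⟨1, 0, 1, 0, -1, -1, 0, 0⟩, [2, 2, 1, 0]),
  (⟨1, 0, 0, 1, -1, 0, -1, 0⟩, [2, 2, 3, 0]),
  (⟨-1, 1, 0, 1, -1, 0, -1, -1⟩, [2, 3, 1, 1]),
  (⟨-1, 1, 1, 0, -1, 0, 0, -1⟩, [2, 3, 1, 2]),
  (⟨1, -1, 0, 0, 0, 0, 0, 1⟩, [2, 3, 1, 0]),
  (⟨-1, 1, 0, 0, -1, 0, 0, -1⟩, [2, 3, 3, 1]),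
  (⟨0, 0, 1, 0, -1, 0, 0, -1⟩, [2, 3, 3, 2]),
  (⟨1, 0, -1, 1, 0, 0, -1, 1⟩, [2, 3, 3, 0]),
  (⟨-1, 1, 1, 0, -1, -1, 0, -1⟩, [3, 1, 1, 2]),
  (⟨0, 0, 1, 0, 0, -1, 0, 0⟩, [3, 1, 1, 3]),
  (⟨1, 0, 0, -1, 0, 0, 0, 1⟩, [3, 1, 1, 0]),
  (⟨-1, 1, 0, 0, 0, 0, 0, 0⟩, [3, 1, 2, 3]),
  (⟨1, -1, 0, -1, 1, 0, 0, 1⟩, [3, 1, 2, 0]),
  (⟨0, -1, 0, 0, 1, 0, 1, 0⟩, [3, 2, 1, 3]),
  (⟨0, 1, 1, -1, -1, -1, 0, 0⟩, [3, 2, 1, 0]),
  (⟨0, -1, -1, 0, 1, 1, 0, 1⟩, [3, 2, 2, 1]),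
  (⟨0, 0, -1, 0, 1, 0, 0, 1⟩, [3, 2, 2, 3]),
  (⟨1, 0, 1, -1, 0, -1, 0, 0⟩, [3, 2, 2, 0]),
  (⟨1, 0, 1, -1, 0, -1, 0, 1⟩, [3, 3, 1, 0]),
  (⟨1, 0, 0, -1, 1, -1, 0, 1⟩, [3, 3, 2, 0]),
  (⟨0, 0, -1, 0, 0, 1, 0, 1⟩, [1, 1, 2, 3, 1]),
  (⟨0, 1, -1, 0, 0, 0, -1, 1⟩, [1, 1, 2, 3, 3]),
  (⟨1, -1, 0, 0, 1, 0, 0, 0⟩, [1, 1, 2, 3, 0]),
  (⟨0, 0, 0, -1, 0, 0, 1, 0⟩, [1, 1, 3, 2, 1]),
  (⟨1, -1, 0, 0, 0, 0, 0, 0⟩, [1, 1, 3, 2, 2]),
  (⟨0, 1, -1, 1, 0, 0, -1, 0⟩, [1, 1, 3, 2, 0]),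
  (⟨0, 0, -1, 0, 1, 0, 0, 0⟩, [1, 2, 2, 1, 3]),
  (⟨1, -1, 1, 0, 0, 0, 0, 0⟩, [1, 2, 2, 3, 0]),
  (⟨0, 0, -1, 1, 0, 1, -1, 0⟩, [1, 2, 3, 1, 1]),
  (⟨-1, 0, 0, 0, 0, 1, 0, 0⟩, [1, 2, 3, 1, 2]),
  (⟨1, -1, 1, 0, 0, -1, 0, 0⟩, [1, 2, 3, 1, 0]),
  (⟨0, 1, 0, 0, -1, 0, -1, 0⟩, [1, 2, 3, 3, 1]),
  (⟨0, 0, 1, -1, 0, 0, 0, 0⟩, [1, 2, 3, 3, 2]),
  (⟨1, -1, 0, 1, 0, 0, 0, 0⟩, [1, 2, 3, 3, 0]),
  (⟨-1, 0, 0, 0, 0, 0, 1, -1⟩, [1, 3, 2, 1, 3]),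
  (⟨0, 1, 1, 0, -1, -1, -1, 0⟩, [1, 3, 2, 1, 0]),
  (⟨1, -1, -1, 0, 1, 0, 0, 1⟩, [1, 3, 2, 2, 1]),
  (⟨0, 0, -1, 1, 0, 0, 0, 0⟩, [1, 3, 2, 2, 3]),
  (⟨0, 1, 1, -1, 0, -1, 0, 0⟩, [1, 3, 2, 2, 0]),
  (⟨0, 1, 0, 0, 0, -1, 0, 0⟩, [1, 3, 3, 2, 0]),
  (⟨0, 0, 1, 0, -1, 0, 0, 0⟩, [2, 1, 1, 2, 3]),
  (⟨0, 1, -1, 0, 0, 0, 0, 0⟩, [2, 1, 1, 3, 0]),
  (⟨0, 0, 0, 1, -1, 0, 0, -1⟩, [2, 1, 3, 2, 2]),
  (⟨0, 0, 1, 0, 0, -1, 0, -1⟩, [2, 2, 1, 3, 2]),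
  (⟨0, 1, 0, 0, -1, 0, 0, 0⟩, [2, 2, 1, 3, 0]),
  (⟨0, 0, 0, 1, 0, 0, -1, 0⟩, [2, 3, 1, 1, 3]),
  (⟨1, -1, 0, -1, 1, 0, 1, 1⟩, [2, 3, 1, 1, 0]),
  (⟨1, -1, 0, 0, 1, 0, 0, 1⟩, [2, 3, 3, 1, 0]),
  (⟨1, -1, -1, 0, 1, 1, 0, 1⟩, [3, 1, 1, 2, 0]),
  (⟨0, 0, 1, -1, 0, -1, 1, 0⟩, [3, 1, 1, 3, 2]),
  (⟨0, 0, 0, -1, 1, 0, 0, 1⟩, [3, 1, 2, 3, 3]),
  (⟨0, 1, 1, 0, -1, -1, 0, -1⟩, [3, 2, 2, 1, 0]),
  (⟨1, 0, 0, 0, 0, 0, -1, 1⟩, [1, 1, 2, 3, 3, 1]),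
  (⟨1, 0, 0, 0, 0, -1, 0, 0⟩, [1, 1, 3, 2, 2, 1])]

def ctab : List L8 := tab.map Prod.fst

theorem tab_ok : ∀ t ∈ tab, t.2.foldl (fun c g => act g c) one8 = t.1 := by decide +kernel

def chk : List ℤ → Bool
  | [a0, b0, a1, b1, a2, b2, a3, b3] =>
    !(decide ((2*a0 + b0)*b0 + (2*a1+b1)*b1 + (2*a2+b2)*b2 + (2*a3+b3)*b3 = 0) &&
      decide ((a2 - (b0 + a1 + b1)) % 2 = 0) && decide ((b2 - (a0 + b0 + a1)) % 2 = 0) &&
      decide ((a3 - (a0 + b0 + b1)) % 2 = 0) && decide ((b3 - (-a0 + a1 + b1)) % 2 = 0)) ||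
    decide ((⟨a0, b0, a1, b1, (a2 - (b0 + a1 + b1)) / 2, (b2 - (a0 + b0 + a1)) / 2,
      (a3 - (a0 + b0 + b1)) / 2, (b3 - (-a0 + a1 + b1)) / 2⟩ : L8) ∈ ctab)
  | _ => false

theorem enum_chk : (enum 8 4).all chk = true := by decide +kernel

theorem foldl_act (w : List ℕ) : ∀ c, latv (w.foldl (fun c g => act g c) c) =
    latv c * (w.map gen).prod := by
  induction w with
  | nil => intro c; simp
  | cons g w ih =>
    intro c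
    rw [List.foldl_cons, ih, latv_act, List.map_cons, List.prod_cons, mul_assoc]

theorem RI_unit {x : ℍ[ℝ]} (h : x ∈ RI) (hn : ‖x‖ = 1) : ∃ t ∈ tab, x = (t.2.map gen).prod ∧
    x = latv t.1 := by
  obtain ⟨c, rfl⟩ := RI_lat h
  have h1 := latv_norm hn
  obtain ⟨h2, h3⟩ := h1
  have hm := mem_enum 8 4 [c.c0, c.c1, c.c2, c.c3, c.c1 + c.c2 + c.c3 + 2 * c.c4,
    c.c0 + c.c1 + c.c2 + 2 * c.c5, c.c0 + c.c1 + c.c3 + 2 * c.c6, -c.c0 + c.c2 + c.c3 + 2 * c.c7]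
    (by norm_num) (by rfl) (by simp only [sqs]; rw [add_zero]; push_cast; exact h2)
  have hc := List.all_eq_true.1 enum_chk _ hm
  have e1 : c.c1 + c.c2 + c.c3 + 2 * c.c4 - (c.c1 + c.c2 + c.c3) = 2 * c.c4 := by ring
  have e2 : c.c0 + c.c1 + c.c2 + 2 * c.c5 - (c.c0 + c.c1 + c.c2) = 2 * c.c5 := by ring
  have e3 : c.c0 + c.c1 + c.c3 + 2 * c.c6 - (c.c0 + c.c1 + c.c3) = 2 * c.c6 := by ring
  have e4 : -c.c0 + c.c2 + c.c3 + 2 * c.c7 - (-c.c0 + c.c2 + c.c3) = 2 * c.c7 := by ring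
  simp only [chk, e1, e2, e3, e4, h3, Int.mul_emod_right, decide_true, Bool.and_self, Bool.not_true,
    Bool.false_or, decide_eq_true_eq] at hc
  rw [Int.mul_ediv_cancel_left _ (by norm_num), Int.mul_ediv_cancel_left _ (by norm_num),
    Int.mul_ediv_cancel_left _ (by norm_num), Int.mul_ediv_cancel_left _ (by norm_num)] at hc
  have hc' : c ∈ ctab := hc
  simp only [ctab, List.mem_map] at hc'
  obtain ⟨t, ht, htc⟩ := hc'
  refine ⟨t, ht, ?_, by rw [htc]⟩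
  have := tab_ok t ht
  rw [← htc, ← this, foldl_act, latv_one8, one_mul]

theorem RI_units_finite : {x : ℍ[ℝ] | x ∈ RI ∧ ‖x‖ = 1}.Finite := by
  refine Set.Finite.subset ((tab.toFinset.finite_toSet).image (fun t => latv t.1)) ?_
  rintro x ⟨hx, hn⟩
  obtain ⟨t, ht, -, h2⟩ := RI_unit hx hn
  exact ⟨t, by simpa using ht, h2.symm⟩

end Grp

/-- the norm one icosians lie in a conjugate of `⟨-1,p,q,r⟩` for every simplex -/
theorem RI_closure {p q r : ℍ[ℝ]} (h : Spx p q r) : ∃ w : ℍ[ℝ], ‖w‖ = 1 ∧ ∀ x ∈ RI, ‖x‖ = 1 →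
    ∃ u ∈ Subgroup.closure {u : (ℍ[ℝ])ˣ | (u : ℍ[ℝ]) = -1 ∨ (u : ℍ[ℝ]) = p ∨ (u : ℍ[ℝ]) = q ∨
      (u : ℍ[ℝ]) = r}, w * x * w⁻¹ = (u : ℍ[ℝ]) := by
  obtain ⟨w, hw, hr, hpq⟩ := conj_Spx h
  have hw0 := ne0_of_norm hw
  refine ⟨w, hw, ?_⟩
  have back : ∀ a b : ℍ[ℝ], w⁻¹ * a * w = b → w * b * w⁻¹ = a := by
    rintro a b rfl
    rw [← mul_assoc, ← mul_assoc, mul_inv_cancel₀ hw0, one_mul, mul_assoc, mul_inv_cancel₀ hw0,
      mul_one]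
  set S := {u : (ℍ[ℝ])ˣ | (u : ℍ[ℝ]) = -1 ∨ (u : ℍ[ℝ]) = p ∨ (u : ℍ[ℝ]) = q ∨
      (u : ℍ[ℝ]) = r} with hS
  have hp0 := ne0_of_norm h.1.1.1
  have hq0 := ne0_of_norm h.1.2.1.1
  have hr0 := ne0_of_norm h.2.1.1
  have up : Units.mk0 p hp0 ∈ Subgroup.closure S := Subgroup.subset_closure (by simp [hS])
  have uq : Units.mk0 q hq0 ∈ Subgroup.closure S := Subgroup.subset_closure (by simp [hS])
  have ur : Units.mk0 r hr0 ∈ Subgroup.closure S := Subgroup.subset_closure (by simp [hS])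
  have um : (-1 : (ℍ[ℝ])ˣ) ∈ Subgroup.closure S := Subgroup.subset_closure (by simp [hS])
  have hg : ∀ g : ℕ, ∃ u ∈ Subgroup.closure S, w * gen g * w⁻¹ = (u : ℍ[ℝ]) := by
    intro g
    match g with
    | 1 =>
      rcases hpq with ⟨h1, h2⟩ | ⟨h1, h2⟩
      · exact ⟨_, up, back _ _ h1⟩
      · exact ⟨_, uq, back _ _ h2⟩
    | 2 =>
      rcases hpq with ⟨h1, h2⟩ | ⟨h1, h2⟩
      · exact ⟨_, uq, back _ _ h2⟩
      · exact ⟨_, up, back _ _ h1⟩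
    | 3 => exact ⟨_, ur, back _ _ hr⟩
    | 0 => exact ⟨_, um, by simp [gen, mul_inv_cancel₀ hw0]⟩
    | n + 4 => exact ⟨_, um, by simp [gen, mul_inv_cancel₀ hw0]⟩
  have hword : ∀ l : List ℕ, ∃ u ∈ Subgroup.closure S, w * (l.map gen).prod * w⁻¹ = (u : ℍ[ℝ]) := by
    intro l
    induction l with
    | nil => exact ⟨1, Subgroup.one_mem _, by simp [mul_inv_cancel₀ hw0]⟩
    | cons g l ih =>
      obtain ⟨u, hu, hu2⟩ := hg g
      obtain ⟨v, hv, hv2⟩ := ih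
      refine ⟨u * v, Subgroup.mul_mem _ hu hv, ?_⟩
      rw [List.map_cons, List.prod_cons, Units.val_mul, ← hu2, ← hv2]
      have e := inv_mul_cancel₀ hw0
      calc w * (gen g * (l.map gen).prod) * w⁻¹
          = w * gen g * 1 * (l.map gen).prod * w⁻¹ := by simp only [mul_one, mul_assoc]
        _ = w * gen g * (w⁻¹ * w) * (l.map gen).prod * w⁻¹ := by rw [e]
        _ = _ := by simp only [mul_assoc]
  intro x hx hn
  obtain ⟨t, -, ht, -⟩ := RI_unit hx hn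
  rw [ht]
  exact hword _

/-! ### rigidity -/

namespace Grp

theorem rigid_aux (S T : Set ℍ[ℝ]) (R : Subring ℍ[ℝ]) (hR : R = Subring.closure S)
    (hfin : {x : ℍ[ℝ] | x ∈ R ∧ ‖x‖ = 1}.Finite) {w : ℍ[ℝ]} (hw : ‖w‖ = 1)
    (hST : ∀ s ∈ S, w * s * w⁻¹ ∈ T) (hTR : T ⊆ R) {v : ℍ[ℝ]} (hv : ‖v‖ = 1)
    (hvT : ∀ t ∈ T, v⁻¹ * t * v ∈ R) : ∀ x ∈ R, ‖x‖ = 1 → v⁻¹ * x * v ∈ R := by
  have hw0 := ne0_of_norm hw
  have hv0 := ne0_of_norm hv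
  have e := inv_mul_cancel₀ hw0
  have e' := mul_inv_cancel₀ hw0
  have h1 : ∀ y ∈ R, w * y * w⁻¹ ∈ Subring.closure T := by
    intro y hy
    rw [hR] at hy
    induction hy using Subring.closure_induction with
    | mem x hx => exact Subring.subset_closure (hST x hx)
    | zero => simp
    | one => rw [mul_one, e']; exact Subring.one_mem _
    | add x y _ _ hx hy => rw [mul_add, add_mul]; exact Subring.add_mem _ hx hy
    | neg x _ hx => rw [mul_neg, neg_mul]; exact Subring.neg_mem _ hx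
    | mul x y _ _ hx hy =>
      have : w * (x * y) * w⁻¹ = (w * x * w⁻¹) * (w * y * w⁻¹) := by
        calc w * (x * y) * w⁻¹ = w * x * 1 * y * w⁻¹ := by simp only [mul_one, mul_assoc]
          _ = w * x * (w⁻¹ * w) * y * w⁻¹ := by rw [e]
          _ = _ := by simp only [mul_assoc]
      rw [this]
      exact Subring.mul_mem _ hx hy
  have h2 : Subring.closure T ≤ R := Subring.closure_le.2 hTR
  have h3 : ∀ t ∈ Subring.closure T, v⁻¹ * t * v ∈ R := by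
    intro y hy
    induction hy using Subring.closure_induction with
    | mem x hx => exact hvT x hx
    | zero => simp
    | one => rw [cj_one hv]; exact Subring.one_mem _
    | add x y _ _ hx hy => rw [mul_add, add_mul]; exact Subring.add_mem _ hx hy
    | neg x _ hx => rw [mul_neg, neg_mul]; exact Subring.neg_mem _ hx
    | mul x y _ _ hx hy => rw [cj_mul hv]; exact Subring.mul_mem _ hx hy
  let H := {x : ℍ[ℝ] | x ∈ R ∧ ‖x‖ = 1}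
  have hfin' : Finite H := hfin
  have nrm : ∀ y : ℍ[ℝ], ‖w * y * w⁻¹‖ = ‖y‖ := by
    intro y; rw [norm_mul, norm_mul, norm_inv, hw]; simp
  let f : H → H := fun y => ⟨w * y.1 * w⁻¹, h2 (h1 _ y.2.1), by rw [nrm]; exact y.2.2⟩
  have finj : Function.Injective f := by
    intro y z hyz
    have h4 : w * y.1 * w⁻¹ = w * z.1 * w⁻¹ := congrArg Subtype.val hyz
    apply Subtype.ext
    have h5 := congrArg (fun t => w⁻¹ * t * w) h4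
    simp only [mul_assoc, e, mul_one] at h5
    simpa only [← mul_assoc, e, one_mul] using h5
  have fsurj := Finite.surjective_of_injective finj
  intro x hx hn
  obtain ⟨y, hy⟩ := fsurj ⟨x, hx, hn⟩
  have hxy : x = w * y.1 * w⁻¹ := (congrArg Subtype.val hy).symm
  rw [hxy]
  exact h3 _ (h1 _ y.2.1)

theorem back_cj {w a b : ℍ[ℝ]} (hw : ‖w‖ = 1) (h : w⁻¹ * a * w = b) : w * b * w⁻¹ = a := by
  have hw0 := ne0_of_norm hw
  subst h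
  rw [← mul_assoc, ← mul_assoc, mul_inv_cancel₀ hw0, one_mul, mul_assoc, mul_inv_cancel₀ hw0,
    mul_one]

end Grp

theorem rigid_RC {a v : ℍ[ℝ]} (h : Tri a) (ha : a ∈ RC) (hv : ‖v‖ = 1) (hav : v⁻¹ * a * v ∈ RC) :
    ∀ x ∈ RC, ‖x‖ = 1 → v⁻¹ * x * v ∈ RC := by
  obtain ⟨w, hw, h1⟩ := conj_Tri h
  refine rigid_aux {p0} {a} RC rfl ?_ hw ?_ ?_ hv ?_
  · exact RI_units_finite.subset (fun x hx => ⟨RT_le_RI (RC_le_RT hx.1), hx.2⟩)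
  · rintro s rfl; exact back_cj hw h1
  · rintro s rfl; exact ha
  · rintro s rfl; exact hav

theorem rigid_RT {a b v : ℍ[ℝ]} (h : Tet a b) (ha : a ∈ RT) (hb : b ∈ RT) (hv : ‖v‖ = 1)
    (hav : v⁻¹ * a * v ∈ RT) (hbv : v⁻¹ * b * v ∈ RT) :
    ∀ x ∈ RT, ‖x‖ = 1 → v⁻¹ * x * v ∈ RT := by
  obtain ⟨w, hw, h1, h2⟩ := conj_Tet h
  refine rigid_aux {p0, q0} {a, b} RT rfl ?_ hw ?_ ?_ hv ?_
  · exact RI_units_finite.subset (fun x hx => ⟨RT_le_RI hx.1, hx.2⟩)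
  · rintro s (rfl | rfl)
    · left; exact back_cj hw h1
    · right; exact back_cj hw h2
  · rintro s (rfl | rfl)
    · exact ha
    · exact hb
  · rintro s (rfl | rfl)
    · exact hav
    · exact hbv

theorem rigid_RI {a b c v : ℍ[ℝ]} (h : Spx a b c) (ha : a ∈ RI) (hb : b ∈ RI) (hc : c ∈ RI)
    (hv : ‖v‖ = 1) (hav : v⁻¹ * a * v ∈ RI) (hbv : v⁻¹ * b * v ∈ RI) (hcv : v⁻¹ * c * v ∈ RI) :
    ∀ x ∈ RI, ‖x‖ = 1 → v⁻¹ * x * v ∈ RI := by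
  obtain ⟨w, hw, h1, h2⟩ := conj_Spx h
  refine rigid_aux {p0, q0, r0} {a, b, c} RI rfl RI_units_finite hw ?_ ?_ hv ?_
  · rintro s (rfl | rfl | rfl)
    · rcases h2 with ⟨h3, h4⟩ | ⟨h3, h4⟩
      · left; exact back_cj hw h3
      · right; left; exact back_cj hw h4
    · rcases h2 with ⟨h3, h4⟩ | ⟨h3, h4⟩
      · right; left; exact back_cj hw h4
      · left; exact back_cj hw h3
    · right; right; exact back_cj hw h1
  · rintro s (rfl | rfl | rfl)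
    · exact ha
    · exact hb
    · exact hc
  · rintro s (rfl | rfl | rfl)
    · exact hav
    · exact hbv
    · exact hcv

/-! ### `U_{3,6}` -/

namespace Grp

theorem qi_mem : qq 0 1 0 0 ∈ RT := by
  have h := Subring.sub_mem _ p0_mem_RT q0_mem_RT
  have e : p0 - q0 = qq 0 1 0 0 := by
    rw [p0_qq, q0_qq]
    apply qext <;> simp <;> norm_num
  rwa [e] at h

theorem qk_mem : qq 0 0 0 1 ∈ RT := by
  have h := Subring.sub_mem _ (Subring.add_mem _ p0_mem_RT (Subring.mul_mem _ qi_mem p0_mem_RT))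
    qi_mem
  have e : p0 + qq 0 1 0 0 * p0 - qq 0 1 0 0 = qq 0 0 0 1 := by
    rw [p0_qq]
    apply qext <;> simp <;> norm_num
  rwa [e] at h

theorem qj_mem : qq 0 0 1 0 ∈ RT := by
  have h := Subring.sub_mem _ (Subring.sub_mem _ (Subring.sub_mem _
    (Subring.add_mem _ p0_mem_RT p0_mem_RT) (Subring.one_mem _)) qi_mem) qk_mem
  have e : p0 + p0 - 1 - qq 0 1 0 0 - qq 0 0 0 1 = qq 0 0 1 0 := by
    rw [p0_qq]
    apply qext <;> simp <;> norm_num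
  rwa [e] at h

theorem half_mem {x : ℍ[ℝ]} (h0 : x.re = 1/2) (h1 : x.imI = 1/2 ∨ x.imI = -1/2)
    (h2 : x.imJ = 1/2 ∨ x.imJ = -1/2) (h3 : x.imK = 1/2 ∨ x.imK = -1/2) : x ∈ RT := by
  have hx : x = qq (1/2) x.imI x.imJ x.imK := by
    apply qext <;> simp [h0]
  rw [hx]
  have p := p0_mem_RT
  rcases h1 with h1 | h1 <;> rcases h2 with h2 | h2 <;> rcases h3 with h3 | h3 <;> rw [h1, h2, h3]
  · exact p
  · have e : qq (1/2) (1/2) (1/2) (-1/2) = p0 - qq 0 0 0 1 := by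
      rw [p0_qq]
      apply qext <;> simp <;> norm_num
    rw [e]; exact Subring.sub_mem _ p qk_mem
  · have e : qq (1/2) (1/2) (-1/2) (1/2) = p0 - qq 0 0 1 0 := by
      rw [p0_qq]
      apply qext <;> simp <;> norm_num
    rw [e]; exact Subring.sub_mem _ p qj_mem
  · have e : qq (1/2) (1/2) (-1/2) (-1/2) = p0 - qq 0 0 1 0 - qq 0 0 0 1 := by
      rw [p0_qq]
      apply qext <;> simp <;> norm_num
    rw [e]; exact Subring.sub_mem _ (Subring.sub_mem _ p qj_mem) qk_mem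
  · have e : qq (1/2) (-1/2) (1/2) (1/2) = p0 - qq 0 1 0 0 := by
      rw [p0_qq]
      apply qext <;> simp <;> norm_num
    rw [e]; exact Subring.sub_mem _ p qi_mem
  · have e : qq (1/2) (-1/2) (1/2) (-1/2) = p0 - qq 0 1 0 0 - qq 0 0 0 1 := by
      rw [p0_qq]
      apply qext <;> simp <;> norm_num
    rw [e]; exact Subring.sub_mem _ (Subring.sub_mem _ p qi_mem) qk_mem
  · have e : qq (1/2) (-1/2) (-1/2) (1/2) = p0 - qq 0 1 0 0 - qq 0 0 1 0 := by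
      rw [p0_qq]
      apply qext <;> simp <;> norm_num
    rw [e]; exact Subring.sub_mem _ (Subring.sub_mem _ p qi_mem) qj_mem
  · have e : qq (1/2) (-1/2) (-1/2) (-1/2) = p0 - qq 0 1 0 0 - qq 0 0 1 0 - qq 0 0 0 1 := by
      rw [p0_qq]
      apply qext <;> simp <;> norm_num
    rw [e]; exact Subring.sub_mem _ (Subring.sub_mem _ (Subring.sub_mem _ p qi_mem) qj_mem) qk_mem

theorem inv_star {x : ℍ[ℝ]} (h : ‖x‖ = 1) : x⁻¹ = star x := by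
  rw [Quaternion.instInv] at *
  show (Quaternion.normSq x)⁻¹ • star x = star x
  rw [Quaternion.normSq_eq_norm_mul_self, h]; simp

theorem sq_half {t : ℝ} (h : t ^ 2 = 1 / 4) : t = 1 / 2 ∨ t = -1 / 2 := by
  have : (t - 1 / 2) * (t + 1 / 2) = 0 := by linear_combination h
  rcases mul_eq_zero.1 this with h1 | h1
  · left; linarith
  · right; linarith

set_option maxHeartbeats 1000000 in
theorem U36_core {al be : ℍ[ℝ]} (h1 : Tri al) (h2 : Tri be) (h3 : ‖al - p0‖ = 1)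
    (h4 : ‖be - q0‖ = 1) (h5 : ‖al - be‖ = 1) (h6 : ‖be - q0 * p0⁻¹ * al‖ = 1)
    (h7 : ‖(be - 1) - (q0 - 1) * (p0 - 1)⁻¹ * (al - 1)‖ = 1) : al ∈ RT ∧ be ∈ RT := by
  have c6 : q0 * p0⁻¹ = qq (1/2) (-1/2) (-1/2) (1/2) := by
    rw [inv_star Tri_p0.1, p0_qq, q0_qq]
    apply qext <;> simp <;> norm_num
  have c7 : (q0 - 1) * (p0 - 1)⁻¹ = qq (1/2) (1/2) (-1/2) (1/2) := by
    rw [inv_star Tri_p0.2, p0_qq, q0_qq]
    apply qext <;> simp <;> norm_num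
  rw [c6] at h6
  rw [c7] at h7
  have e1 := (Tri_inner h1 Tri_p0).1 h3
  have e2 := (Tri_inner h2 Tri_q0).1 h4
  have e3 := (Tri_inner h1 h2).1 h5
  obtain ⟨a0, e4⟩ := (Tri_iff al).1 h1
  obtain ⟨b0, e5⟩ := (Tri_iff be).1 h2
  rw [n1_iff] at h6 h7
  simp only [Quaternion.re_sub, Quaternion.imI_sub, Quaternion.imJ_sub, Quaternion.imK_sub,
    Quaternion.re_mul, Quaternion.imI_mul, Quaternion.imJ_mul, Quaternion.imK_mul,
    Quaternion.re_one, Quaternion.imI_one, Quaternion.imJ_one, Quaternion.imK_one,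
    qq_re, qq_imI, qq_imJ, qq_imK, a0, b0] at h6 h7
  rw [p0_qq] at e1
  rw [q0_qq] at e2
  simp only [qq_imI, qq_imJ, qq_imK] at e1 e2
  set a1 := al.imI with ha1
  set a2 := al.imJ with ha2
  set a3 := al.imK with ha3
  set b1 := be.imI with hb1
  set b2 := be.imJ with hb2
  set b3 := be.imK with hb3
  have E1 : a1 + a2 + a3 = 1/2 := by linarith
  have E2 : -b1 + b2 + b3 = 1/2 := by linarith
  have F1 : (b1-a1)/2+(b2-a2)/2-(b3-a3)/2 + (a2*b3-a3*b2)+(a3*b1-a1*b3)-(a1*b2-a2*b1) = -1/2 := by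
    linear_combination h6 - e4 - e5 + e3
  have F2 : -(a1-b1)/2+(a2-b2)/2-(a3-b3)/2 -(a2*b3-a3*b2)+(a3*b1-a1*b3)-(a1*b2-a2*b1) = -1/2 := by
    linear_combination h7 - e4 - e5 + e3
  have G : (2*a1-1)*(2*b1+1) = 0 := by
    linear_combination -F1 - F2 + 2*b1*E1 - 2*a1*E2
  have D : (b2-a2)-(b3-a3)+2*(a2*b3-a3*b2) = 0 := by linear_combination F1 - F2
  clear_value a1 a2 a3 b1 b2 b3
  clear h6 h7 c6 c7 h3 h4 h5 F1 F2
  rcases mul_eq_zero.1 G with g | g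
  · have g1 : a1 = 1/2 := by linarith
    have g3 : a3 = -a2 := by linarith
    subst g1 g3
    have g2 : a2 = 1/2 ∨ a2 = -1/2 := sq_half (by linear_combination (1/2) * e4)
    rcases g2 with g2 | g2
    · subst g2
      have k2 : b2 = 1/2 := by linarith
      have k3 : b3 = b1 := by linarith
      have k1 : b1 = 1/2 ∨ b1 = -1/2 := sq_half (by rw [k2, k3] at e5; linarith)
      refine ⟨half_mem a0 (by rw [← ha1]; left; rfl) (by rw [← ha2]; left; rfl)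
        (by rw [← ha3]; right; norm_num), half_mem b0 (by rw [← hb1]; exact k1)
        (by rw [← hb2]; left; exact k2) (by rw [← hb3, k3]; exact k1)⟩
    · subst g2
      have k3 : b3 = 1/2 := by linarith
      have k2 : b2 = b1 := by linarith
      have k1 : b1 = 1/2 ∨ b1 = -1/2 := sq_half (by rw [k2, k3] at e5; linarith)
      refine ⟨half_mem a0 (by rw [← ha1]; left; rfl) (by rw [← ha2]; right; rfl)
        (by rw [← ha3]; left; norm_num), half_mem b0 (by rw [← hb1]; exact k1)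
        (by rw [← hb2, k2]; exact k1) (by rw [← hb3]; left; exact k3)⟩
  · have g1 : b1 = -1/2 := by linarith
    have g3 : b3 = -b2 := by linarith
    subst g1 g3
    have g2 : b2 = 1/2 ∨ b2 = -1/2 := sq_half (by linear_combination (1/2) * e5)
    rcases g2 with g2 | g2
    · subst g2
      have k2 : a2 = 1/2 := by linarith
      have k3 : a3 = -a1 := by linarith
      have k1 : a1 = 1/2 ∨ a1 = -1/2 := sq_half (by rw [k2, k3] at e4; linarith)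
      refine ⟨half_mem a0 (by rw [← ha1]; exact k1) (by rw [← ha2]; left; exact k2)
        (by rw [← ha3, k3]; rcases k1 with k1 | k1 <;> rw [k1] <;> norm_num),
        half_mem b0 (by rw [← hb1]; right; rfl) (by rw [← hb2]; left; rfl)
        (by rw [← hb3]; right; norm_num)⟩
    · subst g2
      have k3 : a3 = 1/2 := by linarith
      have k2 : a2 = -a1 := by linarith
      have k1 : a1 = 1/2 ∨ a1 = -1/2 := sq_half (by rw [k2, k3] at e4; linarith)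
      refine ⟨half_mem a0 (by rw [← ha1]; exact k1)
        (by rw [← ha2, k2]; rcases k1 with k1 | k1 <;> rw [k1] <;> norm_num)
        (by rw [← ha3]; left; exact k3),
        half_mem b0 (by rw [← hb1]; right; rfl) (by rw [← hb2]; right; rfl)
        (by rw [← hb3]; left; norm_num)⟩

theorem cj_inv {w : ℍ[ℝ]} (hw : ‖w‖ = 1) (x : ℍ[ℝ]) : w⁻¹ * x⁻¹ * w = (w⁻¹ * x * w)⁻¹ := by
  rw [mul_inv_rev, mul_inv_rev, inv_inv, mul_assoc]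

end Grp

theorem U36_mem {a b al be : ℍ[ℝ]} (h : Tet a b) (h1 : Tri al) (h2 : Tri be) (h3 : ‖al - a‖ = 1)
    (h4 : ‖be - b‖ = 1) (h5 : ‖al - be‖ = 1) (h6 : ‖be - b * a⁻¹ * al‖ = 1)
    (h7 : ‖(be - 1) - (b - 1) * (a - 1)⁻¹ * (al - 1)‖ = 1) :
    ∃ w : ℍ[ℝ], ‖w‖ = 1 ∧ w⁻¹ * a * w ∈ RT ∧ w⁻¹ * b * w ∈ RT ∧ w⁻¹ * al * w ∈ RT ∧
      w⁻¹ * be * w ∈ RT := by
  obtain ⟨w, hw, ha, hb⟩ := conj_Tet h
  have o : ∀ x, w⁻¹ * (x - 1) * w = w⁻¹ * x * w - 1 := fun x => by rw [cj_sub, cj_one hw]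
  have e7 : w⁻¹ * ((be - 1) - (b - 1) * (a - 1)⁻¹ * (al - 1)) * w =
      (w⁻¹ * be * w - 1) - (q0 - 1) * (p0 - 1)⁻¹ * (w⁻¹ * al * w - 1) := by
    rw [cj_sub, cj_mul hw, cj_mul hw, cj_inv hw, o, o, o, o, ha, hb]
  have k := U36_core (Tri_cj hw h1) (Tri_cj hw h2) (by rw [← ha, ← cj_sub, norm_cj hw, h3])
    (by rw [← hb, ← cj_sub, norm_cj hw, h4]) (by rw [← cj_sub, norm_cj hw, h5])
    (by rw [← ha, ← hb, ← cj_inv hw, ← cj_mul hw, ← cj_mul hw, ← cj_sub, norm_cj hw, h6])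
    (by rw [← e7, norm_cj hw, h7])
  refine ⟨w, hw, ?_, ?_, k.1, k.2⟩
  · rw [ha]; exact p0_mem_RT
  · rw [hb]; exact q0_mem_RT


end Pool.Agent.QU
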