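import Pool.Agent.QU.Rank

set_option linter.unusedVariables false
set_option linter.unusedSectionVars false
set_option linter.style.longLine false

/-! Minor-closed families and keeping a 3-connected minor across a 2-separation. -/

namespace Pool.Agent.QU

variable {α : Type*} [DecidableEq α]

/-- Axioms for a set of distinguished 3-connected matroids. -/
structure NNax (NN : Finset α → (Finset α → ℤ) → Prop) : Prop where
  congr : ∀ U r r', (∀ A, A ⊆ U → r A = r' A) → NN U r → NN U r'
  perm : ∀ (U : Finset α) (r : Finset α → ℤ) (σ : Equiv.Perm α), NN U r →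
    NN (U.map σ.toEmbedding) (fun A => r (A.map σ.symm.toEmbedding))
  conn3 : ∀ U r, NN U r → Conn3 U r
  card : ∀ U r, NN U r → 4 ≤ U.card
  dual : ∀ U r, RK r → NN U r → NN U (dl U r)

/-- having an `NN`-minor -/
def F (NN : Finset α → (Finset α → ℤ) → Prop) (U : Finset α) (r : Finset α → ℤ) : Prop :=
  ∃ S K : Finset α, S ⊆ U ∧ K ⊆ U ∧ Disjoint S K ∧ NN S (con r K)

theorem NNax.swap {NN : Finset α → (Finset α → ℤ) → Prop} (hN : NNax NN) {S : Finset α}
    {r r' : Finset α → ℤ} {a a' : α} (h : NN S r) (ha : a ∈ S) (ha' : a' ∉ S.erase a)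
    (h1 : ∀ X, X ⊆ S.erase a → r' X = r X)
    (h2 : ∀ X, X ⊆ S.erase a → r' (insert a' X) = r (insert a X)) :
    NN (insert a' (S.erase a)) r' := by
  have h3 := hN.perm S r (Equiv.swap a a') h
  have hfix : ∀ X, X ⊆ S.erase a → X.map (Equiv.swap a a').toEmbedding = X := by
    intro X hX
    ext z
    simp only [Finset.mem_map, Equiv.coe_toEmbedding]
    constructor
    · rintro ⟨w, hw, rfl⟩
      have hw1 : w ≠ a := by have := hX hw; grind
      have hw2 : w ≠ a' := by have := hX hw; grind
      rw [Equiv.swap_apply_of_ne_of_ne hw1 hw2]; exact hw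
    · intro hz
      have hw1 : z ≠ a := by have := hX hz; grind
      have hw2 : z ≠ a' := by have := hX hz; grind
      exact ⟨z, hz, Equiv.swap_apply_of_ne_of_ne hw1 hw2⟩
  have h4 : S.map (Equiv.swap a a').toEmbedding = insert a' (S.erase a) := by
    have : S = insert a (S.erase a) := by grind
    conv_lhs => rw [this]
    rw [Finset.map_insert, hfix _ (Finset.Subset.refl _)]
    simp
  rw [h4] at h3
  refine hN.congr _ _ _ ?_ h3
  intro A hA
  simp only [Equiv.symm_swap]
  by_cases hm : a' ∈ A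
  · have h5 : A = insert a' (A.erase a') := by grind
    have h6 : A.erase a' ⊆ S.erase a := by grind
    rw [h5, Finset.map_insert, hfix _ h6]
    simp only [Equiv.coe_toEmbedding, Equiv.swap_apply_right]
    rw [h2 _ h6]
  · have h6 : A ⊆ S.erase a := by grind
    rw [hfix _ h6, h1 _ h6]

/-- local connectivity -/
def pc (r : Finset α → ℤ) (B Y : Finset α) : ℤ := r B + r Y - r (B ∪ Y)

theorem RK.pc_nonneg {r : Finset α → ℤ} (h : RK r) (B Y : Finset α) : 0 ≤ pc r B Y := by
  have := h.union_le B Y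
  simp only [pc]; omega

theorem RK.pc_mono {r : Finset α → ℤ} (h : RK r) {B Y Y' : Finset α} (hY : Y ⊆ Y') :
    pc r B Y ≤ pc r B Y' := by
  have := h.sub' (A := B ∪ Y) (B := Y') (C := B ∪ Y') (D := Y) (by grind) (by grind)
  simp only [pc]; omega

theorem pc_comm (r : Finset α → ℤ) (B Y : Finset α) : pc r B Y = pc r Y B := by
  simp only [pc]; rw [Finset.union_comm]; ring

section product

variable {r : Finset α → ℤ} (h : RK r) {A B : Finset α} (hl : pc r B A ≤ 1)

include h hl

theorem prod_one {Z Y : Finset α} (hZ : Z ⊆ B) (hY : Y ⊆ A) (h1 : pc r B Y = 1)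
    (h2 : pc r A Z = 1) : r (Z ∪ Y) = r Z + r Y - 1 := by
  have h3 := h.sub' (A := Z ∪ A) (B := B ∪ Y) (C := B ∪ A) (D := Z ∪ Y) (by grind) (by grind)
  have h4 : pc r Y Z ≤ pc r Y B := h.pc_mono hZ
  have h5 : A ∪ Z = Z ∪ A := by grind
  have h6 : Y ∪ Z = Z ∪ Y := by grind
  have h7 : Y ∪ B = B ∪ Y := by grind
  simp only [pc, h5, h6, h7] at *
  omega

theorem prod_zero {Z Y : Finset α} (hZ : Z ⊆ B) (hY : Y ⊆ A) (h1 : pc r B Y = 0) :
    r (Z ∪ Y) = r Z + r Y := by
  have h4 : pc r Y Z ≤ pc r Y B := h.pc_mono hZ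
  have h5 := h.pc_nonneg Y Z
  rw [pc_comm r Y B, h1] at h4
  have h6 : Y ∪ Z = Z ∪ Y := by grind
  simp only [pc, h6] at *
  omega

theorem prod_zero' {Z Y : Finset α} (hZ : Z ⊆ B) (hY : Y ⊆ A) (h1 : pc r A Z = 0) :
    r (Z ∪ Y) = r Z + r Y := by
  have h4 : pc r Z Y ≤ pc r Z A := h.pc_mono hY
  have h5 := h.pc_nonneg Z Y
  rw [pc_comm r Z A, h1] at h4
  simp only [pc] at *
  omega

end product

theorem exists_jump (f : Finset α → ℤ) (hf : ∀ Y, 0 ≤ f Y) (hf1 : ∀ Y Y', Y ⊆ Y' → f Y ≤ f Y')
    {L A1 : Finset α} (hLA : L ⊆ A1) (hL : f L = 0) (hA : f A1 = 1) :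
    ∃ Y a', L ⊆ Y ∧ Y ⊆ A1 ∧ a' ∈ A1 ∧ a' ∉ Y ∧ f Y = 0 ∧ f (insert a' Y) = 1 := by
  induction hn : (A1 \ L).card generalizing L with
  | zero =>
    have : A1 ⊆ L := by
      rw [Finset.card_eq_zero, Finset.sdiff_eq_empty_iff_subset] at hn; exact hn
    have h2 := hf1 _ _ this
    omega
  | succ n ih =>
    obtain ⟨a, ha⟩ : (A1 \ L).Nonempty := by
      rw [← Finset.card_pos]; omega
    have ha1 : a ∈ A1 := by grind
    have ha2 : a ∉ L := by grind
    have h3 : insert a L ⊆ A1 := by grind
    have h4 := hf1 _ _ h3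
    have h5 := hf (insert a L)
    by_cases h6 : f (insert a L) = 1
    · exact ⟨L, a, Finset.Subset.refl _, hLA, ha1, ha2, hL, h6⟩
    · have h7 : f (insert a L) = 0 := by omega
      have h8 : (A1 \ insert a L).card = n := by
        have : A1 \ insert a L = (A1 \ L).erase a := by grind
        rw [this, Finset.card_erase_of_mem ha, hn]; rfl
      obtain ⟨Y, a', h9, h10⟩ := ih h3 h7 h8
      exact ⟨Y, a', by grind, h10⟩

/-- The key lemma: keeping a 3-connected minor having at most one element on the small side. -/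
theorem keep {NN : Finset α → (Finset α → ℤ) → Prop} (hN : NNax NN) {r : Finset α → ℤ}
    (h : RK r) {A B S K : Finset α} (hAB : Disjoint A B) (hl : pc r B A ≤ 1)
    (hS : S ⊆ A ∪ B) (hK : K ⊆ A ∪ B) (hSK : Disjoint S K) (hNN : NN S (con r K))
    (hSA : (S ∩ A).card ≤ 1) {L A1 : Finset α} (hL : L ⊆ A1) (hA1 : A1 ⊆ A)
    (hL0 : pc r B L = 0) (hA1' : pc r B A1 = 1) :
    ∃ S' K', S' ⊆ A1 ∪ B ∧ K' ⊆ A1 ∪ B ∧ Disjoint S' K' ∧ L ⊆ K' ∧ NN S' (con r K') := by
  rw [Finset.disjoint_left] at hAB hSK
  obtain ⟨Y, a', hLY, hYA, ha'A, ha'Y, hY0, hY1⟩ := exists_jump (pc r B) (fun Y => h.pc_nonneg B Y)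
    (fun Y Y' hY => h.pc_mono hY) hL hL0 hA1'
  set KA := K ∩ A with hKA
  set KB := K ∩ B with hKB
  have hKAB : K = KB ∪ KA := by
    ext z; have := @hK z; grind
  have hKBB : KB ⊆ B := by grind
  have hKAA : KA ⊆ A := by grind
  have hpKA0 := h.pc_nonneg B KA
  have hpKA1 : pc r B KA ≤ pc r B A := h.pc_mono hKAA
  have htau : ∀ Z, Z ⊆ B → pc r A Z = 0 ∨ pc r A Z = 1 := by
    intro Z hZ
    have h1 : pc r A Z ≤ pc r A B := h.pc_mono hZ
    have h2 := h.pc_nonneg A Z
    rw [pc_comm r A B] at h1
    omega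
  have hcard := hN.card _ _ hNN
  -- generic computation
  have hcomp : ∀ (Y1 : Finset α), Y1 ⊆ A → ∀ X, X ⊆ B → 
      con r (KB ∪ Y1) X = r ((X ∪ KB) ∪ Y1) - r (KB ∪ Y1) := by
    intro Y1 hY1 X hX
    simp only [con]
    have : X ∪ (KB ∪ Y1) = X ∪ KB ∪ Y1 := by grind
    rw [this]
  rcases Nat.lt_or_ge (S ∩ A).card 1 with hc | hc
  · -- no element of the minor in A
    have hSA0 : S ∩ A = ∅ := by
      rw [← Finset.card_eq_zero]; omega
    have hSB : S ⊆ B := by
      intro z hz
      have h1 := hS hz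
      have h2 : z ∉ S ∩ A := by rw [hSA0]; simp
      grind
    -- choose K1
    have : ∃ K1, K1 ⊆ A1 ∧ L ⊆ K1 ∧ pc r B K1 = pc r B KA := by
      by_cases h1 : pc r B KA = 1
      · exact ⟨A1, Finset.Subset.refl _, hL, by omega⟩
      · exact ⟨L, hL, Finset.Subset.refl _, by omega⟩
    obtain ⟨K1, hK1A, hLK1, hK1⟩ := this
    refine ⟨S, KB ∪ K1, by grind, by grind, ?_, by grind, ?_⟩
    · rw [Finset.disjoint_left]
      intro z hz hz'
      have h1 := @hSK z hz
      have h2 := hSB hz
      rcases Finset.mem_union.1 hz' with h3 | h3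
      · grind
      · exact hAB (hA1 (hK1A h3)) h2
    · refine hN.congr _ _ _ ?_ hNN
      intro X hX
      have hXB : X ⊆ B := hX.trans hSB
      rw [hKAB, hcomp KA hKAA X hXB, hcomp K1 (hK1A.trans hA1) X hXB]
      have hZ : X ∪ KB ⊆ B := by grind
      have hK1A' : K1 ⊆ A := hK1A.trans hA1
      rcases (show pc r B KA = 0 ∨ pc r B KA = 1 by omega) with h0 | h1
      · rw [prod_zero h hl hZ hKAA h0, prod_zero h hl hKBB hKAA h0,
          prod_zero h hl hZ hK1A' (by omega), prod_zero h hl hKBB hK1A' (by omega)]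
        ring
      · have hk : pc r B K1 = 1 := by omega
        rcases htau _ hZ with t1 | t1 <;> rcases htau _ hKBB with t2 | t2
        · rw [prod_zero' h hl hZ hKAA t1, prod_zero' h hl hKBB hKAA t2,
            prod_zero' h hl hZ hK1A' t1, prod_zero' h hl hKBB hK1A' t2]
          ring
        · rw [prod_zero' h hl hZ hKAA t1, prod_one h hl hKBB hKAA h1 t2,
            prod_zero' h hl hZ hK1A' t1, prod_one h hl hKBB hK1A' hk t2]
          ring
        · rw [prod_one h hl hZ hKAA h1 t1, prod_zero' h hl hKBB hKAA t2,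
            prod_one h hl hZ hK1A' hk t1, prod_zero' h hl hKBB hK1A' t2]
          ring
        · rw [prod_one h hl hZ hKAA h1 t1, prod_one h hl hKBB hKAA h1 t2,
            prod_one h hl hZ hK1A' hk t1, prod_one h hl hKBB hK1A' hk t2]
          ring
  · -- exactly one element
    have hc1 : (S ∩ A).card = 1 := by omega
    obtain ⟨a, ha⟩ := Finset.card_eq_one.1 hc1
    have haS : a ∈ S := by
      have : a ∈ S ∩ A := by rw [ha]; simp
      exact (Finset.mem_inter.1 this).1
    have haA : a ∈ A := by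
      have : a ∈ S ∩ A := by rw [ha]; simp
      exact (Finset.mem_inter.1 this).2
    have hSB : S.erase a ⊆ B := by
      intro z hz
      have h1 := hS (Finset.mem_of_mem_erase hz)
      have h2 : z ∉ S ∩ A := by
        rw [ha]; grind
      grind
    have haK : a ∉ K := hSK haS
    have hKaA : insert a KA ⊆ A := by grind
    -- `a` is neither a loop nor a coloop of the minor
    have hconn := (hN.conn3 _ _ hNN).conn
    have e1 : ¬ lam S (con r K) {a} ≤ 0 := by
      intro hh
      rcases hconn {a} (by simpa using haS) hh with h1 | h1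
      · simp at h1
      · rw [← h1] at hcard; simp at hcard
    have e2 : con r K {a} = r (KB ∪ insert a KA) - r (KB ∪ KA) := by
      simp only [con]
      have h1 : {a} ∪ K = KB ∪ insert a KA := by rw [hKAB]; grind
      rw [h1, ← hKAB]
    have e3 : con r K (S \ {a}) = r ((S.erase a ∪ KB) ∪ KA) - r (KB ∪ KA) := by
      simp only [con]
      have h1 : S \ {a} ∪ K = (S.erase a ∪ KB) ∪ KA := by rw [hKAB]; grind
      rw [h1, ← hKAB]
    have e4 : con r K S = r ((S.erase a ∪ KB) ∪ insert a KA) - r (KB ∪ KA) := by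
      simp only [con]
      have h1 : S ∪ K = (S.erase a ∪ KB) ∪ insert a KA := by rw [hKAB]; grind
      rw [h1, ← hKAB]
    simp only [lam, e2, e3, e4] at e1
    have hZ : S.erase a ∪ KB ⊆ B := by grind
    have hstep1 := h.step (KB ∪ KA) a
    have hs1 : insert a (KB ∪ KA) = KB ∪ insert a KA := by grind
    rw [hs1] at hstep1
    have hstep2 := h.mono ((S.erase a ∪ KB) ∪ KA) ((S.erase a ∪ KB) ∪ insert a KA) (by grind)
    have hq1 : pc r B KA ≤ pc r B (insert a KA) := h.pc_mono (by grind)
    have hq2 : pc r B (insert a KA) ≤ pc r B A := h.pc_mono hKaA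
    have hstep3 := h.step KA a
    have hstep4 := h.mono KA (insert a KA) (by grind)
    have hstepB := h.mono (B ∪ KA) (B ∪ insert a KA) (by grind)
    -- key facts
    have key : pc r B KA = 0 ∧ pc r B (insert a KA) = 1 ∧ r (insert a KA) = r KA + 1 ∧
        pc r A KB = 0 := by
      rcases (show pc r B KA = 0 ∨ pc r B KA = 1 by omega) with h0 | h1
      · rcases (show pc r B (insert a KA) = 0 ∨ pc r B (insert a KA) = 1 by omega) with g0 | g1
        · rw [prod_zero h hl hZ hKAA h0, prod_zero h hl hKBB hKAA h0, prod_zero h hl hZ hKaA g0,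
            prod_zero h hl hKBB hKaA g0] at e1
          omega
        · rcases htau _ hZ with t1 | t1 <;> rcases htau _ hKBB with t2 | t2
          · rw [prod_zero h hl hZ hKAA h0, prod_zero h hl hKBB hKAA h0,
              prod_zero' h hl hZ hKaA t1, prod_zero' h hl hKBB hKaA t2] at e1
            omega
          · exfalso
            have := h.pc_mono (B := A) (Y := KB) (Y' := S.erase a ∪ KB) (by grind)
            omega
          · rw [prod_zero h hl hZ hKAA h0, prod_zero h hl hKBB hKAA h0,
              prod_one h hl hZ hKaA g1 t1, prod_zero' h hl hKBB hKaA t2] at e1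
            refine ⟨h0, g1, ?_, t2⟩
            simp only [pc] at h0 g1
            omega
          · rw [prod_zero h hl hZ hKAA h0, prod_zero h hl hKBB hKAA h0,
              prod_one h hl hZ hKaA g1 t1, prod_one h hl hKBB hKaA g1 t2] at e1
            omega
      · have g1 : pc r B (insert a KA) = 1 := by omega
        rcases htau _ hZ with t1 | t1 <;> rcases htau _ hKBB with t2 | t2
        · rw [prod_zero' h hl hZ hKAA t1, prod_zero' h hl hKBB hKAA t2,
            prod_zero' h hl hZ hKaA t1, prod_zero' h hl hKBB hKaA t2] at e1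
          omega
        · exfalso
          have := h.pc_mono (B := A) (Y := KB) (Y' := S.erase a ∪ KB) (by grind)
          omega
        · rw [prod_one h hl hZ hKAA h1 t1, prod_zero' h hl hKBB hKAA t2,
            prod_one h hl hZ hKaA g1 t1, prod_zero' h hl hKBB hKaA t2] at e1
          omega
        · rw [prod_one h hl hZ hKAA h1 t1, prod_one h hl hKBB hKAA h1 t2,
            prod_one h hl hZ hKaA g1 t1, prod_one h hl hKBB hKaA g1 t2] at e1
          omega
    obtain ⟨k1, k2, k3, k4⟩ := key
    have hYA' : Y ⊆ A := hYA.trans hA1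
    have ha'A' : a' ∈ A := hA1 ha'A
    have hYa : insert a' Y ⊆ A := by grind
    have hYr : r (insert a' Y) = r Y + 1 := by
      have h1 := h.step Y a'
      have h2 := h.mono (B ∪ Y) (B ∪ insert a' Y) (by grind)
      simp only [pc] at hY0 hY1
      omega
    have ha'B : a' ∉ B := fun hh => hAB ha'A' hh
    refine ⟨insert a' (S.erase a), KB ∪ Y, by grind, by grind, ?_, by grind, ?_⟩
    · rw [Finset.disjoint_left]
      intro z hz hz'
      rcases Finset.mem_insert.1 hz with h1 | h1
      · subst h1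
        rcases Finset.mem_union.1 hz' with h3 | h3
        · exact ha'B (hKBB h3)
        · exact ha'Y h3
      · have h2 := @hSK z (Finset.mem_of_mem_erase h1)
        rcases Finset.mem_union.1 hz' with h3 | h3
        · grind
        · exact hAB (hYA' h3) (hSB h1)
    · refine hN.swap hNN haS (fun hh => ha'B (hSB hh)) ?_ ?_
      · intro X hX
        have hXB : X ⊆ B := hX.trans hSB
        have hZX : X ∪ KB ⊆ B := by grind
        rw [hKAB, hcomp KA hKAA X hXB, hcomp Y hYA' X hXB,
          prod_zero h hl hZX hKAA k1, prod_zero h hl hKBB hKAA k1,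
          prod_zero h hl hZX hYA' hY0, prod_zero h hl hKBB hYA' hY0]
        ring
      · intro X hX
        have hXB : X ⊆ B := hX.trans hSB
        have hZX : X ∪ KB ⊆ B := by grind
        have c1 : con r (KB ∪ Y) (insert a' X) = r ((X ∪ KB) ∪ insert a' Y) - r (KB ∪ Y) := by
          simp only [con]
          have : insert a' X ∪ (KB ∪ Y) = (X ∪ KB) ∪ insert a' Y := by grind
          rw [this]
        have c2 : con r K (insert a X) = r ((X ∪ KB) ∪ insert a KA) - r (KB ∪ KA) := by
          simp only [con]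
          have : insert a X ∪ K = (X ∪ KB) ∪ insert a KA := by rw [hKAB]; grind
          rw [this, ← hKAB]
        rw [c1, c2]
        rcases htau _ hZX with t1 | t1
        · rw [prod_zero' h hl hZX hKaA t1, prod_zero h hl hKBB hKAA k1,
            prod_zero' h hl hZX hYa t1, prod_zero h hl hKBB hYA' hY0]
          omega
        · rw [prod_one h hl hZX hKaA k2 t1, prod_zero h hl hKBB hKAA k1,
            prod_one h hl hZX hYa hY1 t1, prod_zero h hl hKBB hYA' hY0]
          omega

end Pool.Agent.QU
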