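import Pool.Agent.QU.Families
import Pool.Agent.QU.Gauge

set_option linter.unusedVariables false
set_option linter.unusedSectionVars false
set_option linter.style.longLine false

/-! Connected QU chain groups without `U₂₄` minor have an integral gauge. -/

open Quaternion

namespace Pool.Agent.QU

section abstract

variable {α : Type*} [DecidableEq α] {U : Finset α} {r : Finset α → ℤ}

/-- Tutte's connectivity lemma -/
theorem tutte (hr : RK r) (hc : Conn U r) {x : α} (hx : x ∈ U) :
    Conn (U.erase x) r ∨ Conn (U.erase x) (con r {x}) := by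
  by_contra hcon
  push Not at hcon
  obtain ⟨h1, h2⟩ := hcon
  simp only [Conn, not_forall, not_or] at h1 h2
  obtain ⟨A, hA, hlA, hA0, hA1⟩ := h1
  obtain ⟨C, hC, hlC, hC0, hC1⟩ := h2
  have key : ∀ C, C ⊆ U.erase x → lam (U.erase x) (con r {x}) C ≤ 0 →
      A ∩ C = ∅ ∨ (U.erase x \ A) ∩ (U.erase x \ C) = ∅ := by
    intro C hC hlC
    have hA' : U.erase x \ A ⊆ U.erase x := Finset.sdiff_subset
    have e1 : U \ (A ∩ C) = (U.erase x \ A) ∪ ((U.erase x \ C) ∪ {x}) := by
      clear * - hA hC hx; grind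
    have e2 : U \ ((U.erase x \ A) ∩ (U.erase x \ C)) = A ∪ (C ∪ {x}) := by
      clear * - hA hC hx; grind
    have e3 : U.erase x ∪ {x} = U := by clear * - hx; grind
    have s1 := hr.sub' (A := A) (B := C ∪ {x}) (C := A ∪ (C ∪ {x})) (D := A ∩ C)
      (Finset.Subset.refl _) (by clear * -; grind)
    have s2 := hr.sub' (A := U.erase x \ A) (B := (U.erase x \ C) ∪ {x})
      (C := (U.erase x \ A) ∪ ((U.erase x \ C) ∪ {x})) (D := (U.erase x \ A) ∩ (U.erase x \ C))
      (Finset.Subset.refl _) (by clear * -; grind)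
    have m1 : r (U.erase x) ≤ r U := hr.mono _ _ (Finset.erase_subset _ _)
    have m2 : r {x} ≤ 1 := hr.single_le x
    simp only [lam, con, e3] at hlA hlC
    have l1 : lam U r (A ∩ C) ≤ 0 ∨ lam U r ((U.erase x \ A) ∩ (U.erase x \ C)) ≤ 0 := by
      simp only [lam, e1, e2]
      omega
    rcases l1 with l1 | l1
    · rcases hc (A ∩ C) (by clear * - hA; grind) l1 with h | h
      · left; exact h
      · exfalso
        have : x ∈ A ∩ C := by rw [h]; exact hx
        have := hA (Finset.mem_inter.1 this).1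
        simp at this
    · rcases hc _ (by clear * - hA; grind) l1 with h | h
      · right; exact h
      · exfalso
        have : x ∈ (U.erase x \ A) ∩ (U.erase x \ C) := by rw [h]; exact hx
        simp at this
  have k1 := key C hC hlC
  have k2 := key (U.erase x \ C) Finset.sdiff_subset (by
    rw [lam_compl _ _ hC]; exact hlC)
  clear * - k1 k2 hA hC hA0 hA1 hC0 hC1
  rw [Finset.sdiff_sdiff_eq_self hC] at k2
  have f1 : ∀ {P Q : Finset α}, P ∩ Q = ∅ → ∀ z ∈ P, z ∉ Q := by
    intro P Q h z hz hz'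
    have : z ∈ P ∩ Q := Finset.mem_inter.2 ⟨hz, hz'⟩
    rw [h] at this; simp at this
  rcases k1 with k1 | k1
  · have k1 := f1 k1
    rcases k2 with k2 | k2
    · have k2 := f1 k2
      apply hA0
      rw [Finset.eq_empty_iff_forall_notMem]
      intro z hz
      exact k2 z hz (Finset.mem_sdiff.2 ⟨hA hz, k1 z hz⟩)
    · have k2 := f1 k2
      apply hC0
      rw [Finset.eq_empty_iff_forall_notMem]
      intro z hz
      exact k2 z (Finset.mem_sdiff.2 ⟨hC hz, fun h => k1 z h hz⟩) hz
  · have k1 := f1 k1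
    rcases k2 with k2 | k2
    · have k2 := f1 k2
      apply hC1
      refine Finset.Subset.antisymm hC fun z hz => ?_
      by_contra hzC
      by_cases hzA : z ∈ A
      · exact k2 z hzA (Finset.mem_sdiff.2 ⟨hz, hzC⟩)
      · exact k1 z (Finset.mem_sdiff.2 ⟨hz, hzA⟩) (Finset.mem_sdiff.2 ⟨hz, hzC⟩)
    · have k2 := f1 k2
      apply hA1
      refine Finset.Subset.antisymm hA fun z hz => ?_
      by_contra hzA
      by_cases hzC : z ∈ C
      · exact k2 z (Finset.mem_sdiff.2 ⟨hz, hzA⟩) hzC
      · exact k1 z (Finset.mem_sdiff.2 ⟨hz, hzA⟩) (Finset.mem_sdiff.2 ⟨hz, hzC⟩)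

theorem Conn.add (hr : RK r) {x : α} (hx : x ∈ U) (h : Conn (U.erase x) r)
    (h1 : r {x} = 1) (h2 : r (U.erase x) = r U) : Conn U r := by
  intro A hA hl
  have e1 : U \ {x} = U.erase x := by clear * -; grind
  have hx' : lam U r {x} = 1 := by
    simp only [lam, e1]; omega
  have hlU : lam U r (U.erase x) = 1 := by
    have : U \ U.erase x = {x} := by clear * - hx; grind
    simp only [lam, this]; omega
  have hA2 : A.erase x ⊆ U.erase x := Finset.erase_subset_erase x hA
  have m1 := hr.mono (A.erase x) A (Finset.erase_subset _ _)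
  have m2 := hr.mono (U.erase x \ A.erase x) (U \ A) (by clear * -; grind)
  have h3 : lam (U.erase x) r (A.erase x) ≤ 0 := by
    simp only [lam] at hl ⊢
    omega
  rcases h _ hA2 h3 with h4 | h4
  · by_cases hxA : x ∈ A
    · exfalso
      have : A = {x} := by rw [← Finset.insert_erase hxA, h4]; rfl
      rw [this] at hl; omega
    · left; rw [Finset.erase_eq_of_notMem hxA] at h4; exact h4
  · by_cases hxA : x ∈ A
    · right; rw [← Finset.insert_erase hxA, h4, Finset.insert_erase hx]
    · exfalso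
      have : A = U.erase x := by rw [Finset.erase_eq_of_notMem hxA] at h4; exact h4
      rw [this] at hl; omega

theorem unif_of_ksub (hr : RK r) {S : Finset α} {k : ℕ} (hS : r S ≤ k) (hk : k ≤ S.card)
    (h : ∀ T, T ⊆ S → T.card = k → r T = k) : Unif k S r := by
  intro A hA
  by_cases hc : k ≤ A.card
  · obtain ⟨T, hT, hTk⟩ := Finset.exists_subset_card_eq hc
    have h1 := h T (hT.trans hA) hTk
    have h2 := hr.mono T A hT
    have h3 := hr.mono A S hA
    omega
  · obtain ⟨T, hT1, hT2, hT3⟩ := Finset.exists_subsuperset_card_eq hA (n := k) (by omega) hk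
    have h1 := h T hT2 hT3
    have h4 := hr.le_card A
    have h2 := hr.union_le_card A (T \ A)
    rw [Finset.union_sdiff_of_subset hT1] at h2
    have h5 := Finset.card_sdiff_add_card_eq_card hT1
    omega

end abstract

variable {E : Type*} [Fintype E] [DecidableEq E]

theorem SuppIn.del {V : CG E} {U : Finset E} (hU : SuppIn V U) (x : E) :
    SuppIn (mino V {x} ∅) (U.erase x) := by
  have h := hU.minor {x} ∅
  have e : U \ ({x} ∪ ∅) = U.erase x := by clear * -; grind
  rwa [e] at h

theorem SuppIn.ctr {V : CG E} {U : Finset E} (hU : SuppIn V U) (x : E) :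
    SuppIn (mino V ∅ {x}) (U.erase x) := by
  have h := hU.minor ∅ {x}
  have e : U \ (∅ ∪ {x}) = U.erase x := by clear * -; grind
  rwa [e] at h

theorem rk_del {V : CG E} {x : E} {A : Finset E} (hA : x ∉ A) :
    rk (mino V {x} ∅) A = rk V A := by
  rw [rk_mino V (by simpa using hA) (by simp), con_rk_empty]

theorem rk_ctr (V : CG E) (x : E) (A : Finset E) :
    rk (mino V ∅ {x}) A = con (rk V) {x} A := by
  rw [rk_mino V (by simp) (by simp)]

/-- the ring of (quaternion) integers -/
noncomputable def R0 : Subring ℍ[ℝ] := (Int.castRingHom ℍ[ℝ]).range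

theorem mem_R0 {x : ℍ[ℝ]} : x ∈ R0 ↔ ∃ n : ℤ, (n : ℍ[ℝ]) = x := Iff.rfl

theorem R0_le (R : Subring ℍ[ℝ]) : R0 ≤ R := by
  rintro x ⟨n, rfl⟩
  exact intCast_mem R n

theorem R0_star : ∀ x ∈ R0, star x ∈ R0 := by
  rintro x ⟨n, rfl⟩
  refine ⟨n, ?_⟩
  simp

theorem R0_normR {v : ℍ[ℝ]} (hv : ‖v‖ = 1) : NormR R0 v := by
  have hv0 := ne_of_norm_one hv
  refine ⟨hv, ?_, ?_⟩
  · rintro x ⟨n, rfl⟩ -
    refine ⟨n, ?_⟩
    simp only [eq_intCast]
    rw [← Int.cast_commute, mul_assoc, inv_mul_cancel₀ hv0, mul_one]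
  · rintro x ⟨n, rfl⟩ -
    refine ⟨n, ?_⟩
    simp only [eq_intCast]
    rw [← Int.cast_commute, mul_assoc, mul_inv_cancel₀ hv0, mul_one]

/-! ### minors of frames -/

theorem Frame.rk_erase {V : CG E} {B : Finset E} {f} (h : Frame V B f) {x : E} (hx : x ∈ B) :
    rk V (B.erase x) = (B.card : ℤ) - 1 := by
  rw [h.rk_eq (Finset.erase_subset _ _), Finset.card_erase_of_mem hx]
  have := Finset.card_pos.2 ⟨x, hx⟩
  omega

theorem Frame.rk_swap {V : CG E} {B : Finset E} {f} (h : Frame V B f) {x y : E} (hx : x ∈ B) :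
    rk V (insert y (B.erase x)) = (B.card : ℤ) ↔ f x y ≠ 0 := by
  have hr := rk_RK V
  have h1 := h.closure_iff (X := B.erase x) (Finset.erase_subset _ _) y
  have h2 : B \ B.erase x = {x} := by
    clear * - hx; ext z; simp only [Finset.mem_sdiff, Finset.mem_erase, Finset.mem_singleton]
    constructor
    · rintro ⟨h, h'⟩; by_contra hh; exact h' ⟨hh, h⟩
    · rintro rfl; exact ⟨hx, fun h => h.1 rfl⟩
  rw [h2] at h1
  simp only [Finset.mem_singleton, forall_eq] at h1
  rw [h.rk_erase hx] at h1
  have h3 := hr.step (B.erase x) y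
  rw [h.rk_erase hx] at h3
  have h4 := hr.mono (B.erase x) (insert y (B.erase x)) (Finset.subset_insert _ _)
  rw [h.rk_erase hx] at h4
  constructor
  · intro h5 h6
    have := h1.2 h6
    omega
  · intro h5
    by_contra h6
    exact h5 (h1.1 (by omega))

theorem Frame.rk_swap2 {V : CG E} {B : Finset E} {f} (h : Frame V B f) {a b c d : E} (ha : a ∈ B)
    (hb : b ∈ B) (hab : a ≠ b) (hc : c ∉ B) (hac : f a c ≠ 0) :
    rk V (insert d (insert c ((B.erase a).erase b))) = (B.card : ℤ) ↔
      f b d - f b c * (f a c)⁻¹ * f a d ≠ 0 := by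
  have h1 := h.pivot ha hc hac
  have hbc : b ≠ c := fun h => hc (h ▸ hb)
  have h2 := h1.rk_swap (x := b) (y := d) (by
    rw [Finset.mem_insert, Finset.mem_erase]; exact Or.inr ⟨hab.symm, hb⟩)
  rw [if_neg hbc] at h2
  have h3 : (insert c (B.erase a)).erase b = insert c ((B.erase a).erase b) := by
    rw [Finset.erase_insert_of_ne hbc.symm]
  have h4 : (insert c (B.erase a)).card = B.card := by
    rw [Finset.card_insert_of_notMem (fun h => hc (Finset.mem_of_mem_erase h)),
      Finset.card_erase_of_mem ha]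
    have := Finset.card_pos.2 ⟨a, ha⟩
    omega
  rw [h3, h4] at h2
  exact h2

theorem F_of_block {V : CG E} {U B : Finset E} {f} (hU : SuppIn V U) (h : Frame V B f)
    {a b c d : E} (ha : a ∈ B) (hb : b ∈ B) (hab : a ≠ b) (hc : c ∉ B) (hd : d ∉ B)
    (hac : f a c ≠ 0) (had : f a d ≠ 0) (hbc : f b c ≠ 0) (hbd : f b d ≠ 0)
    (hdet : f b d - f b c * (f a c)⁻¹ * f a d ≠ 0) : F NN1 U (rk V) := by
  have hr := rk_RK V
  have hBU := h.subset hU
  have hcU : c ∈ U := by by_contra hcU; exact hac (hU _ (h.mem a ha) c hcU)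
  have hdU : d ∈ U := by by_contra hdU; exact had (hU _ (h.mem a ha) d hdU)
  have hcd : c ≠ d := by
    rintro rfl; apply hdet; rw [mul_assoc, inv_mul_cancel₀ hac, mul_one, sub_self]
  have hca : c ≠ a := fun h => hc (h ▸ ha)
  have hcb : c ≠ b := fun h => hc (h ▸ hb)
  have hda : d ≠ a := fun h => hd (h ▸ ha)
  have hdb : d ≠ b := fun h => hd (h ▸ hb)
  set K := (B.erase a).erase b with hK
  have hKB : K ⊆ B := (Finset.erase_subset _ _).trans (Finset.erase_subset _ _)
  have hKc : (K.card : ℤ) = B.card - 2 := by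
    rw [hK, Finset.card_erase_of_mem (Finset.mem_erase.2 ⟨hab.symm, hb⟩),
      Finset.card_erase_of_mem ha]
    have : 2 ≤ B.card := by
      rw [← Finset.card_pair hab]
      exact Finset.card_le_card (by intro z hz; simp only [Finset.mem_insert, Finset.mem_singleton] at hz; rcases hz with rfl | rfl <;> assumption)
    omega
  have hrK : rk V K = B.card - 2 := by rw [h.rk_eq hKB, hKc]
  have haK : a ∉ K := by rw [hK]; simp
  have hbK : b ∉ K := by rw [hK]; simp
  have hcK : c ∉ K := fun h => hc (hKB h)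
  have hdK : d ∉ K := fun h => hd (hKB h)
  refine ⟨{a, b, c, d}, K, ?_, hKB.trans hBU, ?_, ?_, ?_⟩
  · intro z hz
    simp only [Finset.mem_insert, Finset.mem_singleton] at hz
    rcases hz with rfl | rfl | rfl | rfl
    · exact hBU ha
    · exact hBU hb
    · exact hcU
    · exact hdU
  · rw [Finset.disjoint_left]
    intro z hz
    simp only [Finset.mem_insert, Finset.mem_singleton] at hz
    rcases hz with rfl | rfl | rfl | rfl <;> assumption
  · rw [Finset.card_insert_of_notMem, Finset.card_insert_of_notMem, Finset.card_pair hcd]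
    · simp only [Finset.mem_insert, Finset.mem_singleton, not_or]; exact ⟨hcb.symm, hdb.symm⟩
    · simp only [Finset.mem_insert, Finset.mem_singleton, not_or]
      exact ⟨hab, hca.symm, hda.symm⟩
  · have p1 : ∀ s t, rk V (insert s (insert t K)) = (B.card : ℤ) → con (rk V) K {s, t} = 2 := by
      intro s t hst
      have e : ({s, t} : Finset E) ∪ K = insert s (insert t K) := by
        clear * -; grind
      rw [con, e, hst, hrK]; ring
    have q1 : con (rk V) K {a, b} = 2 := by
      apply p1
      have : insert a (insert b K) = B := by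
        rw [hK, Finset.insert_erase (Finset.mem_erase.2 ⟨hab.symm, hb⟩), Finset.insert_erase ha]
      rw [this, h.rk_univ]
    have hKa : insert a K = B.erase b := by
      rw [hK, Finset.erase_right_comm, Finset.insert_erase (Finset.mem_erase.2 ⟨hab, ha⟩)]
    have hKb : insert b K = B.erase a := by
      rw [hK, Finset.insert_erase (Finset.mem_erase.2 ⟨hab.symm, hb⟩)]
    have q2 : con (rk V) K {c, a} = 2 := by
      apply p1; rw [hKa]; exact (h.rk_swap hb).2 hbc
    have q3 : con (rk V) K {c, b} = 2 := by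
      apply p1; rw [hKb]; exact (h.rk_swap ha).2 hac
    have q4 : con (rk V) K {d, a} = 2 := by
      apply p1; rw [hKa]; exact (h.rk_swap hb).2 hbd
    have q5 : con (rk V) K {d, b} = 2 := by
      apply p1; rw [hKb]; exact (h.rk_swap ha).2 had
    have q6 : con (rk V) K {d, c} = 2 := by
      apply p1
      exact (h.rk_swap2 ha hb hab hc hac).2 hdet
    have hrc := hr.con K
    refine unif_of_ksub (k := 2) hrc ?_ ?_ ?_
    · have := rk_le_finrank V ({a, b, c, d} ∪ K)
      rw [h.finrank] at this
      rw [con, hrK]; push_cast; linarith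
    · have : ({c, d} : Finset E) ⊆ {a, b, c, d} := by
        intro z hz; simp only [Finset.mem_insert, Finset.mem_singleton] at hz ⊢; tauto
      have := Finset.card_le_card this
      rw [Finset.card_pair hcd] at this
      exact this
    · intro T hT hT2
      obtain ⟨s, t, hst, rfl⟩ := Finset.card_eq_two.1 hT2
      have hs := hT (Finset.mem_insert_self s {t})
      have ht := hT (Finset.mem_insert_of_mem (Finset.mem_singleton_self t))
      simp only [Finset.mem_insert, Finset.mem_singleton] at hs ht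
      push_cast
      rcases hs with rfl | rfl | rfl | rfl <;> rcases ht with rfl | rfl | rfl | rfl <;>
        first
          | exact absurd rfl hst
          | assumption
          | (rw [Finset.pair_comm]; assumption)

/-! ### the main argument -/

theorem cmp0 {V : CG E} {U D K U' : Finset E} (hU : SuppIn V U) (hV : IsQU V)
    (hDK : Disjoint D K) (hU' : U \ (D ∪ K) = U') (hc : Conn U' (con (rk V) K))
    {e : E} (he : e ∈ U') {g g' : E → ℍ[ℝ]} (hg : Gauged R0 (mino V D K) g)
    (hg' : Gauged R0 (mino V D K) g') :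
    ∃ v, NormR R0 v ∧ ∀ e ∈ U', (g e)⁻¹ * g' e * v⁻¹ ∈ R0 := by
  subst hU'
  have hagree : ∀ A, A ⊆ U \ (D ∪ K) → con (rk V) K A = rk (mino V D K) A := by
    intro A hA
    rw [rk_mino V _ hDK.symm]
    rw [Finset.disjoint_left]
    intro z hz hz'
    exact (Finset.mem_sdiff.1 (hA hz)).2 (Finset.mem_union_left _ hz')
  exact compare_of_mem R0_star (hU.minor D K) (hV.minor D K) (hc.congr hagree) hg hg' he
    (R0_normR (norm_ratio hg.1 hg'.1 e))

theorem level0_aux {V : CG E} {U : Finset E} (hU : SuppIn V U) (hV : IsQU V)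
    (hc : Conn U (rk V)) (hF : ¬ F NN1 U (rk V)) (h3 : 3 ≤ U.card) {x : E} (hx : x ∈ U)
    (hcx : Conn (U.erase x) (rk V))
    (ih : ∀ (U' : Finset E) (V' : CG E), U'.card < U.card → SuppIn V' U' → IsQU V' →
      Conn U' (rk V') → ¬ F NN1 U' (rk V') → ∃ g, Gauged R0 V' g) : ∃ g, Gauged R0 V g := by
  have hr := rk_RK V
  by_contra hng
  have hcard : (U.erase x).card + 1 = U.card := Finset.card_erase_add_one hx
  obtain ⟨hx1, hx2⟩ := hc.single hr (by omega) hx
  obtain ⟨g, hg⟩ := ih (U.erase x) (mino V {x} ∅) (by omega) (hU.del x) (hV.minor _ _)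
    (hcx.congr (fun A hA => (rk_del (fun h => by simpa using hA h)).symm))
    (fun h => hF ((h.congr nnax1 (fun A hA => rk_del (fun h => by simpa using hA h))).of_erase))
  have hsing : ∀ i ∈ U.erase x, rk V {i} = 1 ∧ rk V ((U.erase x).erase i) = rk V (U.erase x) :=
    fun i hi => hcx.single hr (by omega) hi
  have e2 : ∀ i, U \ {x, i} = (U.erase x).erase i := by intro i; clear * -; grind
  have e3 : ∀ i, (U.erase i).erase x = (U.erase x).erase i := fun i => Finset.erase_right_comm
  have hne : ∀ i ∈ U.erase x, ∃ e, e ∈ (U.erase x).erase i := by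
    intro i hi
    have : ((U.erase x).erase i).Nonempty := by
      rw [← Finset.card_pos]
      have := Finset.card_erase_add_one hi
      omega
    exact this
  -- step 1
  have st1 : ∀ i ∈ U.erase x, Conn ((U.erase x).erase i) (con (rk V) {i}) := by
    intro i hi
    rcases tutte hr hcx hi with h | h
    · exfalso
      have hxi : x ≠ i := fun h => by simp [h] at hi
      have hiU : i ∈ U := Finset.mem_of_mem_erase hi
      have hci : Conn (U.erase i) (rk V) := by
        refine Conn.add hr (x := x) (Finset.mem_erase.2 ⟨hxi, hx⟩) (by rw [e3]; exact h) hx1 ?_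
        rw [e3, (hsing i hi).2, hx2]
        exact (hc.single hr (by omega) hiU).2.symm
      have := Finset.card_erase_add_one hiU
      obtain ⟨g', hg'⟩ := ih (U.erase i) (mino V {i} ∅) (by omega) (hU.del i) (hV.minor _ _)
        (hci.congr (fun A hA => (rk_del (fun h => by simpa using hA h)).symm))
        (fun h => hF ((h.congr nnax1
          (fun A hA => rk_del (fun h => by simpa using hA h))).of_erase))
      have hg1 := hg.minor {i} ∅
      rw [mino_mino_del] at hg1
      have hg1' := hg'.minor {x} ∅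
      rw [mino_mino_del, Finset.pair_comm] at hg1'
      obtain ⟨e, he⟩ := hne i hi
      obtain ⟨v, hv, hvU⟩ := cmp0 hU hV (D := {x, i}) (K := ∅) (by simp)
        (U' := (U.erase x).erase i) (by rw [Finset.union_empty]; exact e2 i)
        (by rw [con_empty _ hr.empty]; exact h) he hg1 hg1'
      refine hng (glue_pl R0_star hU hV hx hiU hxi ?_ hg hg' hv (by rw [e2]; exact hvU))
      rw [e2, (hsing i hi).2, hx2]
    · exact h
  -- step 2
  have st2 : ∀ i ∈ U.erase x, ∀ X, X ⊆ U \ {x, i} → rk V (insert x X) = rk V X →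
      rk V (insert i X) = rk V X := by
    intro i hi X hX h1
    by_contra h2
    have hxi : x ≠ i := fun h => by simp [h] at hi
    have hiU : i ∈ U := Finset.mem_of_mem_erase hi
    have h3 : rk V (insert i X) = rk V X + 1 := by
      have := hr.step X i
      have := hr.mono X (insert i X) (Finset.subset_insert _ _)
      omega
    have hi1 := (hsing i hi).1
    by_cases hp : rk V {x, i} = 1
    · exact hng (glue_par hV hxi hx1 hi1 hp hg)
    · have hp2 : con (rk V) {i} {x} = 1 := by
        have h4 : rk V ({x} ∪ {i}) = rk V {x, i} := rfl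
        have h5 := hr.mono {i} {x, i} (by simp)
        have h6 := hr.step {i} x
        rw [con, h4]
        omega
      have hci : Conn (U.erase i) (con (rk V) {i}) := by
        refine Conn.add (hr.con _) (x := x) (Finset.mem_erase.2 ⟨hxi, hx⟩)
          (by rw [e3]; exact st1 i hi) hp2 ?_
        have e4 : (U.erase i).erase x ∪ {i} = U.erase x := by clear * - hi hxi; grind
        have e5 : U.erase i ∪ {i} = U := by clear * - hiU; grind
        rw [con, con, e4, e5, hx2]
      have := Finset.card_erase_add_one hiU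
      obtain ⟨g', hg'⟩ := ih (U.erase i) (mino V ∅ {i}) (by omega) (hU.ctr i) (hV.minor _ _)
        (hci.congr (fun A hA => (rk_ctr V i A).symm))
        (fun h => hF ((h.congr nnax1 (fun A hA => rk_ctr V i A)).of_con_single hiU))
      have hg1 := hg.minor ∅ {i}
      rw [mino_mino_del_con V hxi] at hg1
      have hg1' := hg'.minor {x} ∅
      rw [mino_mino_con_del] at hg1'
      obtain ⟨e, he⟩ := hne i hi
      obtain ⟨v, hv, hvU⟩ := cmp0 hU hV (D := {x}) (K := {i}) (by simpa using hxi)
        (U' := (U.erase x).erase i) (by exact e2 i) (st1 i hi) he hg1 hg1'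
      exact hng (glue_mix R0_star hU hV hx hiU hxi hX h1 h3 hg hg' hv (by rw [e2]; exact hvU))
  -- step 3
  obtain ⟨B, f, hf, -, hBx, hBU⟩ := exists_frame (V := V) (U := U) (X := ∅) (Y := {x}) hU
    (Finset.empty_subset _) (by rw [hr.empty]; simp)
    (by rw [← hx2]; congr 1; clear * -; grind) (by simp)
  have hxB : x ∉ B := fun h => Finset.disjoint_left.1 hBx h (by simp)
  have hBU' : B ⊆ U.erase x := fun z hz => Finset.mem_erase.2 ⟨fun h => hxB (h ▸ hz), hBU hz⟩
  have full : ∀ b ∈ B, f b x ≠ 0 := by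
    intro b hb h0
    classical
    set X := B.filter (fun z => f z x ≠ 0) with hX
    have hXB : X ⊆ B := Finset.filter_subset _ _
    have hbX : b ∉ X := by rw [hX, Finset.mem_filter]; exact fun h => h.2 h0
    have h1 : rk V (insert x X) = rk V X := by
      rw [hf.closure_iff hXB]
      intro z hz
      obtain ⟨hz1, hz2⟩ := Finset.mem_sdiff.1 hz
      by_contra h
      exact hz2 (Finset.mem_filter.2 ⟨hz1, h⟩)
    have h2 := st2 b (hBU' hb) X (by
      intro z hz
      simp only [Finset.mem_sdiff, Finset.mem_insert, Finset.mem_singleton, not_or]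
      exact ⟨hBU (hXB hz), fun h => hxB (h ▸ hXB hz), fun h => hbX (h ▸ hz)⟩) h1
    rw [hf.closure_iff hXB] at h2
    have := h2 b (Finset.mem_sdiff.2 ⟨hb, hbX⟩)
    rw [hf.one b hb] at this
    exact one_ne_zero this
  -- step 4
  have hBne : B.Nonempty := by
    rw [Finset.nonempty_iff_ne_empty]
    rintro rfl
    have h1 := hf.finrank
    have h2 := rk_le_finrank V {x}
    rw [h1] at h2
    simp at h2
    omega
  obtain ⟨b0, hb0⟩ := hBne
  have hfm := hf.minor (D := {x}) (K := ∅) (Finset.empty_subset _) (by simpa using hxB)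
  have hent : ∀ b ∈ B, ∀ y, y ≠ x → (g b)⁻¹ * f b y * g y ∈ R0 := by
    intro b hb y hy
    have := hg.entry hfm (x := b) (by simpa using hb) y
    simpa only [Finset.mem_singleton, hy, if_false] using this
  set h : E → ℍ[ℝ] := fun b => (g b)⁻¹ * f b x with hh
  have hgn : ∀ e, g e ≠ 0 := fun e => ne_of_norm_one (hg.1 e)
  have hstep : ∀ b ∈ B, ∀ b' ∈ B, ∀ y, y ∉ B → y ≠ x → f b y ≠ 0 → f b' y ≠ 0 →
      h b' * (h b0)⁻¹ ∈ R0 → h b * (h b0)⁻¹ ∈ R0 := by
    intro b hb b' hb' y hyB hyx hby hb'y hmem
    by_cases hbb : b' = b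
    · rw [← hbb]; exact hmem
    · have hdet : f b x - f b y * (f b' y)⁻¹ * f b' x = 0 := by
        by_contra hdet
        exact hF (F_of_block hU hf hb' hb hbb hyB hxB hb'y (full b' hb') hby (full b hb) hdet)
      have h1 := hent b hb y hyx
      have h2 := hent b' hb' y hyx
      have h2n : ‖(g b')⁻¹ * f b' y * g y‖ = 1 := entry_norm hV hg.1 hg.1 hf hb' hb'y
      have h3 := inv_memR R0_star h2 h2n
      have h4 := R0.mul_mem (R0.mul_mem h1 h3) hmem
      have h5 : (g b)⁻¹ * f b y * g y * ((g b')⁻¹ * f b' y * g y)⁻¹ * (h b' * (h b0)⁻¹) =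
          h b * (h b0)⁻¹ := by
        rw [← mul_assoc]
        congr 1
        rw [sub_eq_zero] at hdet
        simp only [hh, hdet, mul_inv_rev, inv_inv, mul_assoc, mul_inv_cancel_left₀ (hgn _)]
      rw [h5] at h4
      exact h4
  have hb01 : ‖h b0‖ = 1 := by
    rw [hh]; exact norm_mul_one (norm_inv_one (hg.1 b0)) ((hf.qu hV hb0 x).resolve_left (full b0 hb0))
  have hb0n : h b0 ≠ 0 := ne_of_norm_one hb01
  have allB : ∀ b ∈ B, h b * (h b0)⁻¹ ∈ R0 := by
    classical
    set T : Finset E := (U.erase x).filter (fun e => (e ∈ B ∧ h e * (h b0)⁻¹ ∈ R0) ∨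
      (e ∉ B ∧ ∃ b ∈ B, h b * (h b0)⁻¹ ∈ R0 ∧ f b e ≠ 0)) with hT
    have hTU : T ⊆ U.erase x := Finset.filter_subset _ _
    have hTB : ∀ b ∈ B, (b ∈ T ↔ h b * (h b0)⁻¹ ∈ R0) := by
      intro b hb
      rw [hT, Finset.mem_filter]
      constructor
      · rintro ⟨-, h1 | h1⟩
        · exact h1.2
        · exact absurd hb h1.1
      · intro h1; exact ⟨hBU' hb, Or.inl ⟨hb, h1⟩⟩
    have hTC : ∀ c ∈ U.erase x, c ∉ B → (c ∈ T ↔ ∃ b ∈ B, h b * (h b0)⁻¹ ∈ R0 ∧ f b c ≠ 0) := by
      intro c hc hcB
      rw [hT, Finset.mem_filter]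
      constructor
      · rintro ⟨-, h1 | h1⟩
        · exact absurd h1.1 hcB
        · exact h1.2
      · intro h1; exact ⟨hc, Or.inr ⟨hcB, h1⟩⟩
    have b1 := hf.rk_block (T := T) (by
      intro b hb hbT y hy
      have hyU := hTU hy
      by_cases hyB : y ∈ B
      · exact hf.zero b hb y hyB (fun h => hbT (h ▸ hy))
      · by_contra hby
        obtain ⟨b', hb', h1, h2⟩ := (hTC y hyU hyB).1 hy
        exact hbT ((hTB b hb).2 (hstep b hb b' hb' y hyB (Finset.ne_of_mem_erase hyU) hby h2 h1)))
    have b2 := hf.rk_block (T := U.erase x \ T) (by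
      intro b hb hbT y hy
      obtain ⟨hyU, hyT⟩ := Finset.mem_sdiff.1 hy
      have hbT' : b ∈ T := by
        by_contra h; exact hbT (Finset.mem_sdiff.2 ⟨hBU' hb, h⟩)
      by_cases hyB : y ∈ B
      · exact hf.zero b hb y hyB (fun h => hyT (h ▸ hbT'))
      · by_contra hby
        exact hyT ((hTC y hyU hyB).2 ⟨b, hb, (hTB b hb).1 hbT', hby⟩))
    have hcards : ((T ∩ B).card : ℤ) + (((U.erase x \ T) ∩ B).card : ℤ) = B.card := by
      have e : (U.erase x \ T) ∩ B = B \ T := by
        ext z; simp only [Finset.mem_inter, Finset.mem_sdiff]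
        constructor
        · rintro ⟨⟨h1, h2⟩, h3⟩; exact ⟨h3, h2⟩
        · rintro ⟨h1, h2⟩; exact ⟨⟨hBU' h1, h2⟩, h1⟩
      rw [e, Finset.inter_comm]
      have := Finset.card_inter_add_card_sdiff B T
      exact_mod_cast this
    have hrU : rk V (U.erase x) = B.card := by
      rw [hx2, hU.rk_eq, hf.finrank]
    have hlam : lam (U.erase x) (rk V) T ≤ 0 := by
      simp only [lam]; omega
    have hb0T : b0 ∈ T := (hTB b0 hb0).2 (by
      rw [mul_inv_cancel₀ hb0n]; exact R0.one_mem)
    rcases hcx T hTU hlam with h1 | h1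
    · rw [h1] at hb0T; simp at hb0T
    · intro b hb
      exact (hTB b hb).1 (by rw [h1]; exact hBU' hb)
  -- step 5
  apply hng
  refine ⟨fun e => if e = x then (h b0)⁻¹ else g e, Gauged.of_frame R0_star hV hf ?_ ?_⟩
  · intro e
    by_cases he : e = x
    · simp only [he, if_true]; exact norm_inv_one hb01
    · simp only [he, if_false]; exact hg.1 e
  · intro b hb y
    have hbx : b ≠ x := fun h => hxB (h ▸ hb)
    simp only [hbx, if_false]
    by_cases hy : y = x
    · simp only [hy, if_true]; exact allB b hb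
    · simp only [hy, if_false]; exact hent b hb y hy

theorem level0_small {V : CG E} {U : Finset E} (hU : SuppIn V U) (hV : IsQU V)
    (hc : Conn U (rk V)) (h2 : U.card ≤ 2) : ∃ g, Gauged R0 V g := by
  have hr := rk_RK V
  by_cases h1 : U.card ≤ 1
  · obtain ⟨B, f, hf⟩ := exists_frame' V
    have hBU := hf.subset hU
    refine ⟨fun _ => 1, Gauged.of_frame R0_star hV hf (by simp) ?_⟩
    intro x hx y
    have hxU := hBU hx
    by_cases hyU : y ∈ U
    · have : x = y := Finset.card_le_one.1 h1 x hxU y hyU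
      subst this
      rw [hf.one x hx]; simp
    · rw [hU _ (hf.mem x hx) y hyU]; simp
  · have h3 : U.card = 2 := by omega
    obtain ⟨a, b, hab, rfl⟩ := Finset.card_eq_two.1 h3
    obtain ⟨ha1, ha2⟩ := hc.single hr (by omega) (e := a) (by simp)
    obtain ⟨hb1, hb2⟩ := hc.single hr (by omega) (e := b) (by simp)
    have e1 : ({a, b} : Finset E).erase a = {b} := by clear * - hab; grind
    rw [e1] at ha2
    have hg : Gauged R0 (mino V {a} ∅) (fun _ => 1) := by
      obtain ⟨B, f, hf⟩ := exists_frame' (mino V {a} ∅)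
      have hsub := hU.del a
      rw [e1] at hsub
      have hBU := hf.subset hsub
      refine Gauged.of_frame R0_star (hV.minor _ _) hf (by simp) ?_
      intro x hx y
      have hxU := hBU hx
      by_cases hyU : y ∈ ({b} : Finset E)
      · have : x = y := by
          rw [Finset.mem_singleton] at hxU hyU; rw [hxU, hyU]
        subst this
        rw [hf.one x hx]; simp
      · rw [hsub _ (hf.mem x hx) y hyU]; simp
    exact glue_par hV hab ha1 hb1 (by rw [← ha2, hb1]) hg

theorem level0 : ∀ (n : ℕ) (U : Finset E) (V : CG E), U.card = n → SuppIn V U → IsQU V →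
    Conn U (rk V) → ¬ F NN1 U (rk V) → ∃ g, Gauged R0 V g := by
  intro n
  induction n using Nat.strong_induction_on with
  | _ n ih =>
    intro U V hn hU hV hc hF
    subst hn
    have ih' : ∀ (U' : Finset E) (V' : CG E), U'.card < U.card → SuppIn V' U' → IsQU V' →
      Conn U' (rk V') → ¬ F NN1 U' (rk V') → ∃ g, Gauged R0 V' g :=
      fun U' V' h => ih U'.card h U' V' rfl
    by_cases h2 : U.card ≤ 2
    · exact level0_small hU hV hc h2
    · obtain ⟨x, hx⟩ : U.Nonempty := by rw [← Finset.card_pos]; omega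
      have hr := rk_RK V
      rcases tutte hr hc hx with h | h
      · exact level0_aux hU hV hc hF (by omega) hx h ih'
      · have hrp : ∀ A, A ⊆ U → dl U (rk V) A = rk (perp U V) A := fun A hA => (rk_perp hU hA).symm
        obtain ⟨g, hg⟩ := level0_aux (perp_suppIn U V) (hV.dual hU) ((hc.dl hr).congr hrp)
          (fun h => hF (F.of_dl nnax1 hr (h.congr nnax1 (fun A hA => (hrp A hA).symm)))) (by omega) hx
          ((h.to_dual_del hr hx).congr (fun A hA => hrp A (hA.trans (Finset.erase_subset _ _)))) ih'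
        have := hg.dual R0_star (perp_suppIn U V) (hV.dual hU)
        rw [perp_perp hU] at this
        exact ⟨g, this⟩

end Pool.Agent.QU
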