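import Pool.Agent.QU.Core4
import Pool.Agent.QU.Level0

set_option linter.unusedVariables false
set_option linter.unusedSectionVars false
set_option linter.style.longLine false

/-! The general level theorem: from the base matroids to all 3-connected ones. -/

open Quaternion

namespace Pool.Agent.QU

variable {E : Type*} [Fintype E] [DecidableEq E]

theorem level {R : Subring ℍ[ℝ]} (hR : ∀ x ∈ R, star x ∈ R)
    {NN NN' : Finset E → (Finset E → ℤ) → Prop} (hN : NNax NN) (hN' : NNax NN')
    (hrig : ∀ (S : Finset E) (W : CG E), SuppIn W S → IsQU W → NN S (rk W) →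
      ∀ g g', Gauged R W g → Gauged R W g' → ∃ e ∈ S, NormR R ((g e)⁻¹ * g' e))
    (hbase : ∀ (U : Finset E) (V : CG E), SuppIn V U → IsQU V → NN U (rk V) →
      ∃ g, Gauged R V g)
    (hA : ∀ (U : Finset E) (V : CG E), SuppIn V U → IsQU V → Conn3 U (rk V) →
      ¬ F NN' U (rk V) → (∃ x ∈ U, NN (U.erase x) (rk V)) → ∃ g, Gauged R V g)
    (hB : ∀ (U : Finset E) (V : CG E), SuppIn V U → IsQU V → Conn3 U (rk V) →
      ¬ F NN' U (rk V) → (∃ x ∈ U, ∃ y ∈ U, x ≠ y ∧
        NN ((U.erase x).erase y) (con (rk V) {y}) ∧ Conn3 (U.erase x) (rk V) ∧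
        Conn3 (U.erase y) (con (rk V) {y})) → ∃ g, Gauged R V g) :
    ∀ (n : ℕ) (U : Finset E) (V : CG E), U.card = n → SuppIn V U → IsQU V →
      Conn3 U (rk V) → F NN U (rk V) → ¬ F NN' U (rk V) → ∃ g, Gauged R V g := by
  intro n
  induction n using Nat.strong_induction_on with
  | _ n ih =>
    intro U V hn hU hV h3 hF hF'
    subst hn
    have hr := rk_RK V
    by_contra hng
    by_cases hnn : NN U (rk V)
    · exact hng (hbase U V hU hV hnn)
    have S : GS NN U (rk V) (fun D K => ∃ g, Gauged R (mino V D K) g) := by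
      refine ⟨hN, hr, h3, hF, chain_GA hR hN hrig hU hV, ?_, ?_, ?_⟩
      · refine GA.congr hN (fun A hA => rfl) ?_ (chain_GA_dual hR hN hrig hU hV)
        intro D K hDK hD hK
        constructor
        · intro h; exact h ⟨hDK, hD, hK⟩
        · intro h _; exact h
      · intro D K hD hK hDK hne hc hFm
        have hagree : ∀ A, A ⊆ U \ (D ∪ K) → con (rk V) K A = rk (mino V D K) A := by
          intro A hA
          rw [rk_mino V _ hDK.symm]
          rw [Finset.disjoint_left]
          intro z hz hz'
          exact (Finset.mem_sdiff.1 (hA hz)).2 (Finset.mem_union_left _ hz')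
        have hcard : (U \ (D ∪ K)).card < U.card := by
          apply Finset.card_lt_card
          rw [Finset.ssubset_iff_subset_ne]
          refine ⟨Finset.sdiff_subset, fun h => ?_⟩
          obtain ⟨z, hz⟩ := hne
          have hzU : z ∈ U := (Finset.union_subset hD hK) hz
          rw [← h] at hzU
          exact (Finset.mem_sdiff.1 hzU).2 hz
        refine ih _ hcard (U \ (D ∪ K)) (mino V D K) rfl (hU.minor D K) (hV.minor D K)
          (hc.congr hagree) (hFm.congr hN hagree) ?_
        intro h
        apply hF'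
        have h1 := h.congr hN' (fun A hA => (hagree A hA).symm)
        have h2 : F NN' (U \ K) (con (rk V) K) := h1.of_subset (by
          intro z hz
          simp only [Finset.mem_sdiff, Finset.mem_union, not_or] at hz ⊢
          exact ⟨hz.1, hz.2.2⟩)
        exact h2.of_con hK
      · rintro ⟨g, hg⟩
        rw [mino_empty] at hg
        exact hng ⟨g, hg⟩
    rcases S.core hnn with h | h | h
    · exact hng (hA U V hU hV h3 hF' h)
    · obtain ⟨x, hx, h⟩ := h
      have hrp : ∀ A, A ⊆ U → dl U (rk V) A = rk (perp U V) A := fun A hA => (rk_perp hU hA).symm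
      obtain ⟨g, hg⟩ := hA U (perp U V) (perp_suppIn U V) (hV.dual hU) ((h3.dl hr).congr hrp)
        (fun h' => hF' (F.of_dl hN' hr (h'.congr hN' (fun A hA => (hrp A hA).symm))))
        ⟨x, hx, hN.congr _ _ _ (fun A hA => by
          rw [← dl_con U (rk V) hx hA, hrp A (hA.trans (Finset.erase_subset _ _))])
          (hN.dual _ _ (hr.con _) h)⟩
      have := hg.dual hR (perp_suppIn U V) (hV.dual hU)
      rw [perp_perp hU] at this
      exact hng ⟨g, this⟩
    · exact hng (hB U V hU hV h3 hF' h)

end Pool.Agent.QU
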