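import Pool.Agent.QU.Level3a

set_option linter.unusedVariables false
set_option linter.unusedSectionVars false
set_option linter.style.longLine false

/-! Level three. -/

open Quaternion

namespace Pool.Agent.QU

variable {E : Type*} [Fintype E] [DecidableEq E]

theorem inj4 {x : Fin 3 → E} (hx : Function.Injective x) {e : E} (he : ∀ i, x i ≠ e) :
    Function.Injective (![x 0, x 1, x 2, e] : Fin 4 → E) := by
  intro i j h
  have h01 : x 0 ≠ x 1 := fun h => by have := hx h; simp at this
  have h02 : x 0 ≠ x 2 := fun h => by have := hx h; simp at this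
  have h12 : x 1 ≠ x 2 := fun h => by have := hx h; simp at this
  fin_cases i <;> fin_cases j <;> simp at h ⊢ <;>
    first
      | exact h01 h
      | exact h02 h
      | exact h12 h
      | exact h01 h.symm
      | exact h02 h.symm
      | exact h12 h.symm
      | exact he _ h
      | exact he _ h.symm

theorem inj4' {x : Fin 3 → E} (hx : Function.Injective x) {e : E} (he : ∀ i, x i ≠ e) :
    Function.Injective (![e, x 0, x 1, x 2] : Fin 4 → E) := by
  intro i j h
  have h01 : x 0 ≠ x 1 := fun h => by have := hx h; simp at this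
  have h02 : x 0 ≠ x 2 := fun h => by have := hx h; simp at this
  have h12 : x 1 ≠ x 2 := fun h => by have := hx h; simp at this
  fin_cases i <;> fin_cases j <;> simp at h ⊢ <;>
    first
      | exact h01 h
      | exact h02 h
      | exact h12 h
      | exact h01 h.symm
      | exact h02 h.symm
      | exact h12 h.symm
      | exact he _ h
      | exact he _ h.symm

theorem forall_fin4 {P : Fin 4 → Prop} (h0 : P 0) (h1 : P 1) (h2 : P 2) (h3 : P 3) : ∀ i, P i := by
  intro i; fin_cases i
  · exact h0
  · exact h1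
  · exact h2
  · exact h3

/-- extensions of `P₆` -/
theorem B1_gauge {V : CG E} {U : Finset E} (hU : SuppIn V U) (hV : IsQU V)
    (h3 : Conn3 U (rk V)) (hn : U.card = 7) {x : E} (hx : x ∈ U)
    (hP : IsP6 (U.erase x) (rk V)) : ∃ g, Gauged RI V g := by
  classical
  have hr := rk_RK V
  have hc := Finset.card_erase_add_one hx
  obtain ⟨h6, T, hT, hT3, hh⟩ := hP
  have hcT := Finset.card_sdiff_add_card_eq_card hT
  have hST : U.erase x \ T ≠ T := by
    intro h1
    have : Disjoint T (U.erase x \ T) := Finset.disjoint_sdiff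
    rw [h1, disjoint_self] at this
    rw [this] at hT3; simp at hT3
  have hBr : rk V (U.erase x \ T) = 3 := by
    rw [hh _ Finset.sdiff_subset, if_neg hST]; omega
  have hrU : rk V U = 3 := by
    rw [← (h3.conn.single hr (by omega) hx).2, hh _ (Finset.Subset.refl _), if_neg]
    · omega
    · rintro h; rw [h] at h6; omega
  obtain ⟨f, hf⟩ := exists_frame_of_basis (V := V) (U := U) (B := U.erase x \ T) hU
    (by rw [hBr]; omega) (by rw [hBr, hrU])
  have hxB : x ∉ U.erase x \ T := fun h => by simp at h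
  have hfm := hf.minor (D := {x}) (K := ∅) (Finset.empty_subset _) (by simp)
  rw [Finset.sdiff_empty] at hfm
  have hh' : ∀ A, A ⊆ U.erase x → rk (mino V {x} ∅) A = if A = T then 2 else min (A.card : ℤ) 3 := by
    intro A hA
    rw [rk_del (fun h => by simpa using hA h)]; exact hh A hA
  obtain ⟨xx, yy, hxx, hyy, hxxB, hyyT, he, ⟨s, t, hs1, ht1, hst⟩, -⟩ :=
    P6_data (hU.del x) (hV.minor _ _) hT hT3 h6 hh' hfm
  have hyT : ∀ j, yy j ∈ T := fun j => (hyyT _).2 ⟨j, rfl⟩
  have hyx : ∀ j, yy j ≠ x := fun j => Finset.ne_of_mem_erase (hT (hyT j))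
  have hxm : ∀ i, xx i ∈ U.erase x \ T := fun i => (hxxB _).2 ⟨i, rfl⟩
  simp only [Finset.mem_singleton, hyx, if_false] at hst
  -- the matrix
  have hq := QUS.scale 2 (s := fun i => s (xx i)) (t := (![t (yy 0), t (yy 1), t (yy 2), 1] : Fin 4 → ℍ[ℝ]))
    (fun i => hs1 _) (forall_fin4 (ht1 _) (ht1 _) (ht1 _) (by simp))
    (hf.qus hV xx (![yy 0, yy 1, yy 2, x] : Fin 4 → E) hxx (inj4 hyy hyx) hxm
      (forall_fin4 (fun h => (Finset.mem_sdiff.1 h).2 (hyT 0)) (fun h => (Finset.mem_sdiff.1 h).2 (hyT 1))
        (fun h => (Finset.mem_sdiff.1 h).2 (hyT 2)) hxB) 2)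
  obtain ⟨σ, hσ, hσR⟩ := P6_ext (fun i => s (xx i) * f (xx i) x) (by
    intro h0
    have h1 : ∀ i, f (xx i) x = 0 := by
      intro i
      have h2 := congrFun h0 i
      exact (mul_eq_zero.1 h2).resolve_left (ne_of_norm_one (hs1 _))
    have h2 := (hf.closure_iff (X := ∅) (Finset.empty_subset _) x).2 (by
      intro z hz
      rw [Finset.sdiff_empty] at hz
      obtain ⟨i, rfl⟩ := (hxxB z).1 hz
      exact h1 i)
    have h3' := (h3.conn.single hr (by omega) hx).1
    have h4 : (insert x ∅ : Finset E) = {x} := rfl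
    rw [h4, h3', hr.empty] at h2
    omega) (by
    convert hq using 1
    funext i
    refine funext (forall_fin4 ?_ ?_ ?_ ?_)
    · exact (hst i 0).symm
    · exact (hst i 1).symm
    · exact (hst i 2).symm
    · simp)
  obtain ⟨g, hg, -⟩ := Gauged.of_scale RI_st hU hV hf (s := s) (t := fun e => if e = x then σ else t e)
    (fun b _ => hs1 b) (by
      intro b hb
      by_cases hbx : b = x
      · simp only [hbx, if_true]; exact hσ
      · simp only [hbx, if_false]; exact ht1 b) (by
      intro b hb z hz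
      obtain ⟨i, rfl⟩ := (hxxB b).1 hb
      by_cases hzx : z = x
      · simp only [hzx, if_true]; exact hσR i
      · simp only [hzx, if_false]
        obtain ⟨hz1, hz2⟩ := Finset.mem_sdiff.1 hz
        have hzT : z ∈ T := by
          by_contra h
          exact hz2 (Finset.mem_sdiff.2 ⟨Finset.mem_erase.2 ⟨hzx, hz1⟩, h⟩)
        obtain ⟨j, rfl⟩ := (hyyT z).1 hzT
        rw [hst]; exact A1_mem i j)
  exact ⟨g, hg⟩

/-- coextensions of `U₂₆` in rank three -/
theorem B2_gauge {V : CG E} {U : Finset E} (hU : SuppIn V U) (hV : IsQU V)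
    (h3 : Conn3 U (rk V)) (hn : U.card = 7) {x : E} (hx : x ∈ U)
    (hu : Unif 2 (U.erase x) (con (rk V) {x})) : ∃ g, Gauged RI V g := by
  have hr := rk_RK V
  have hc := Finset.card_erase_add_one hx
  have hx1 := h3.conn.single hr (by omega) hx
  have hrU : rk V U = 3 := by
    have h1 := unif_card hu (by omega)
    have e : U.erase x ∪ {x} = U := by rw [Finset.union_comm]; exact Finset.insert_erase hx
    rw [con, e, hx1.1] at h1; omega
  obtain ⟨a, ha, b, hb, hab, h35⟩ := B2_pick hr h3 hn hx hrU hu
  have haU := Finset.mem_of_mem_erase ha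
  have hbU := Finset.mem_of_mem_erase hb
  have hpair : ∀ s ∈ U, ∀ t ∈ U, s ≠ t → rk V {s, t} = 2 :=
    fun s hs t ht hst => (h3.pair hr (by omega) hs ht hst).1
  -- gauges of the two deletions
  have key : ∀ a b, a ∈ U → b ∈ U → a ≠ b → Unif 3 (U \ {a, b}) (rk V) →
      ¬ IsP6 (U.erase a) (rk V) → ∃ g, Gauged RT (mino V {a} ∅) g := by
    intro a b haU hbU hab h35 hnP
    have hca := Finset.card_erase_add_one haU
    have hba : b ∈ U.erase a := Finset.mem_erase.2 ⟨hab.symm, hbU⟩
    have hcb := Finset.card_erase_add_one hba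
    have e1 : (U.erase a).erase b = U \ {a, b} := by clear * -; grind
    rw [← e1] at h35
    have ra : rk V (U.erase a) = 3 := by rw [(h3.conn.single hr (by omega) haU).2, hrU]
    have rab : rk V ((U.erase a).erase b) = 3 := unif_card h35 (by omega)
    have hc3 : Conn3 (U.erase a) (rk V) := by
      refine ext_conn3 hr hba (h35.conn3 (by norm_num) (by omega)) (by omega) ?_ (by rw [rab, ra])
      intro e he
      obtain ⟨he1, he2⟩ := Finset.mem_erase.1 he
      exact hpair b hbU e (Finset.mem_of_mem_erase he2) (Ne.symm he1)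
    have hagr : ∀ A, A ⊆ U.erase a → rk V A = rk (mino V {a} ∅) A :=
      fun A hA => (rk_del (fun h => by simpa using hA h)).symm
    refine level2 (U.erase a) (mino V {a} ∅) (hU.del a) (hV.minor _ _) (hc3.congr hagr)
      (F.congr nnax2 hagr ?_) ?_
    · exact (F_self hr ⟨by omega, Or.inr h35⟩ : F NN2 _ _).of_erase
    · intro hF
      have hF' : F NN3 (U.erase a) (rk V) := hF.congr nnax3 (fun A hA => (hagr A hA).symm)
      obtain ⟨S, K, hS, hK, hSK, hN⟩ := hF'
      have hSe : S = U.erase a := Finset.eq_of_subset_of_card_le hS (by rw [hN.1]; omega)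
      have hKe : K = ∅ := by
        rw [hSe] at hSK
        rw [Finset.eq_empty_iff_forall_notMem]
        intro z hz
        exact Finset.disjoint_left.1 hSK (hK hz) hz
      rw [hSe, hKe, con_empty _ hr.empty] at hN
      rcases hN.2 with h | h | h
      · have := unif_card h (by omega); omega
      · have := unif_card h (by omega); omega
      · exact hnP h
  by_cases hPa : IsP6 (U.erase a) (rk V)
  · exact B1_gauge hU hV h3 hn haU hPa
  by_cases hPb : IsP6 (U.erase b) (rk V)
  · exact B1_gauge hU hV h3 hn hbU hPb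
  exfalso
  obtain ⟨g, hg⟩ := key a b haU hbU hab h35 hPa
  obtain ⟨g', hg'⟩ := key b a hbU haU hab.symm (by rw [Finset.pair_comm]; exact h35) hPb
  have hab5 : (U \ {a, b}).card = 5 := by
    have h1 : ({a, b} : Finset E) ⊆ U := by
      intro z hz; simp only [Finset.mem_insert, Finset.mem_singleton] at hz
      rcases hz with rfl | rfl <;> assumption
    have h2 := Finset.card_sdiff_add_card_eq_card h1
    rw [Finset.card_pair hab] at h2
    omega
  have hg1 := hg.minor {b} ∅
  rw [mino_mino_del] at hg1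
  have hg1' := hg'.minor {a} ∅
  rw [mino_mino_del, Finset.pair_comm] at hg1'
  have h35c : Conn3 (U \ {a, b}) (rk V) := Unif.conn3 (by norm_num) (by omega) h35
  obtain ⟨v, hv, hvU⟩ := compare_minor RT_st nnax2 rig2 hU hV (D := {a, b}) (K := ∅)
    (U' := U \ {a, b}) (by simp) (by rw [Finset.union_empty])
    (by rw [con_empty _ hr.empty]; exact h35c.conn)
    (by rw [con_empty _ hr.empty]; exact F_self hr ⟨hab5, Or.inr h35⟩) hg1 hg1'
  obtain ⟨G, hG⟩ := glue_pl RT_st hU hV haU hbU hab
    (by rw [hrU]; exact unif_card h35 (by rw [hab5]; norm_num)) hg hg' hv hvU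
  have hGx := hG.minor ∅ {x}
  obtain ⟨e, he, κ, κ', κ'', hS, l1, l2, l3⟩ := U26_loops (hU.ctr x) (hV.minor _ _)
    (hu.congr (fun A hA => (rk_ctr V x A).symm)) (by omega)
  exact no_Spx_RT (hS.conj (hG.1 e)) (l1 _ RT_st G hGx) (l2 _ RT_st G hGx) (l3 _ RT_st G hGx)

theorem rk_insert_of_vanish {V : CG E} {A : Finset E} {x : E}
    (h : ∀ c ∈ V, (∀ e ∈ A, c e = 0) → c x = 0) : rk V (insert x A) = rk V A := by
  have : (V ⊓ vanish (insert x A) : CG E) = V ⊓ vanish A := by
    ext c
    simp only [Submodule.mem_inf, mem_vanish, Finset.mem_insert]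
    constructor
    · rintro ⟨h1, h2⟩; exact ⟨h1, fun e he => h2 e (Or.inr he)⟩
    · rintro ⟨h1, h2⟩
      refine ⟨h1, ?_⟩
      rintro e (rfl | he)
      · exact h c h1 h2
      · exact h2 e he
  rw [rk, rk, this]

theorem no_small_supp {W : CG E} {U : Finset E} (hU : SuppIn W U) (h3 : Conn3 U (rk W))
    (hc4 : 4 ≤ U.card) {p q : E} (hp : p ∈ U) (hq : q ∈ U) (hpq : p ≠ q) {c : E → ℍ[ℝ]}
    (hc : c ∈ W) (h : ∀ e ∈ U, e ≠ p → e ≠ q → c e = 0) : c = 0 := by
  have h1 := (h3.pair (rk_RK W) hc4 hp hq hpq).2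
  refine inj_of_rk (V := W) (A := U \ {p, q}) (by rw [h1, hU.rk_eq]) c hc ?_
  intro e he
  simp only [Finset.mem_sdiff, Finset.mem_insert, Finset.mem_singleton, not_or] at he
  exact h e he.1 he.2.1 he.2.2

/-- the eight element case -/
theorem B3_gauge {V : CG E} {U : Finset E} (hU : SuppIn V U) (hV : IsQU V)
    (h3 : Conn3 U (rk V)) (hn : U.card = 8) {x y : E} (hx : x ∈ U) (hy : y ∈ U) (hxy : x ≠ y)
    (h3x : Conn3 (U.erase x) (rk V)) (h3y : Conn3 (U.erase y) (con (rk V) {y}))
    (hP : IsP6 ((U.erase x).erase y) (con (rk V) {y})) : ∃ g, Gauged RI V g := by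
  classical
  have hr := rk_RK V
  have hxy' : x ∈ U.erase y := Finset.mem_erase.2 ⟨hxy, hx⟩
  have hyx' : y ∈ U.erase x := Finset.mem_erase.2 ⟨hxy.symm, hy⟩
  have hc := Finset.card_erase_add_one hyx'
  have hc2 := Finset.card_erase_add_one hx
  have hc3 := Finset.card_erase_add_one hy
  have hy1 := (h3.conn.single hr (by omega) hy).1
  obtain ⟨h6, T, hT, hT3, hh⟩ := hP
  set S := (U.erase x).erase y with hS
  have hSU : S ⊆ U := (Finset.erase_subset _ _).trans (Finset.erase_subset _ _)
  have hxS : x ∉ S := by simp [hS]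
  have hyS : y ∉ S := by simp [hS]
  have hcT := Finset.card_sdiff_add_card_eq_card hT
  have hST : S \ T ≠ T := by
    intro h1
    have : Disjoint T (S \ T) := Finset.disjoint_sdiff
    rw [h1, disjoint_self] at this
    rw [this] at hT3; simp at hT3
  have hTx : x ∉ T := fun h => hxS (hT h)
  have hTy : y ∉ T := fun h => hyS (hT h)
  have hBr0 : con (rk V) {y} (S \ T) = 3 := by
    rw [hh _ Finset.sdiff_subset, if_neg hST]; omega
  have hBr : rk V (insert y (S \ T)) = 4 := by
    have e : (S \ T) ∪ {y} = insert y (S \ T) := by rw [Finset.union_comm]; rfl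
    rw [con, e, hy1] at hBr0; omega
  have hrU : rk V U = 4 := by
    have h1 : con (rk V) {y} S = 3 := by
      rw [hh _ (Finset.Subset.refl _), if_neg]
      · omega
      · rintro h; rw [h] at h6; omega
    have e : S ∪ {y} = U.erase x := by
      rw [Finset.union_comm]; exact Finset.insert_erase hyx'
    rw [con, e, hy1, (h3.conn.single hr (by omega) hx).2] at h1
    omega
  have hyST : y ∉ S \ T := fun h => hyS (Finset.mem_sdiff.1 h).1
  have hBc : (insert y (S \ T)).card = 4 := by
    rw [Finset.card_insert_of_notMem hyST]; omega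
  obtain ⟨f, hf⟩ := exists_frame_of_basis (V := V) (U := U) (B := insert y (S \ T)) hU
    (by rw [hBr, hBc]; rfl) (by rw [hBr, hrU])
  have hxB : x ∉ insert y (S \ T) := by
    rw [Finset.mem_insert]
    rintro (h | h)
    · exact hxy h
    · exact hxS (Finset.mem_sdiff.1 h).1
  have hyB : y ∈ insert y (S \ T) := Finset.mem_insert_self _ _
  have hBy : insert y (S \ T) \ {y} = S \ T := by
    rw [Finset.sdiff_singleton_eq_erase, Finset.erase_insert hyST]
  have hfm := hf.minor (D := {x}) (K := {y}) (by simp) (by simpa using hxB)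
  rw [hBy] at hfm
  have hSupp : SuppIn (mino V {x} {y}) S := by
    have h1 := hU.minor {x} {y}
    have e : U \ ({x} ∪ {y}) = S := by rw [hS]; clear * -; grind
    rwa [e] at h1
  have hh' : ∀ A, A ⊆ S → rk (mino V {x} {y}) A = if A = T then 2 else min (A.card : ℤ) 3 := by
    intro A hA
    rw [rk_mino V (by rw [Finset.disjoint_singleton_right]; exact fun h => hxS (hA h))
      (by simpa using hxy.symm)]
    exact hh A hA
  obtain ⟨xx, yy, hxx, hyy, hxxB, hyyT, he, ⟨s, t, hs1, ht1, hst⟩, -⟩ :=
    P6_data hSupp (hV.minor _ _) hT hT3 h6 hh' hfm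
  have hyT : ∀ j, yy j ∈ T := fun j => (hyyT _).2 ⟨j, rfl⟩
  have hyx : ∀ j, yy j ≠ x := fun j h => hTx (h ▸ hyT j)
  have hyy' : ∀ j, yy j ≠ y := fun j h => hTy (h ▸ hyT j)
  have hxm : ∀ i, xx i ∈ S \ T := fun i => (hxxB _).2 ⟨i, rfl⟩
  have hxmB : ∀ i, xx i ∈ insert y (S \ T) := fun i => Finset.mem_insert_of_mem (hxm i)
  have hxy'' : ∀ i, xx i ≠ y := fun i h => hyST (h ▸ hxm i)
  have hxx' : ∀ i, xx i ≠ x := fun i h => hxS (h ▸ (Finset.mem_sdiff.1 (hxm i)).1)
  have hxU : ∀ i, xx i ∈ U := fun i => hSU (Finset.mem_sdiff.1 (hxm i)).1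
  have hyU : ∀ i, yy i ∈ U := fun i => hSU (hT (hyT i))
  have hyB' : ∀ j, yy j ∉ insert y (S \ T) := by
    intro j h
    rw [Finset.mem_insert] at h
    rcases h with h | h
    · exact hyy' j h
    · exact (Finset.mem_sdiff.1 h).2 (hyT j)
  simp only [Finset.mem_singleton, hyx, if_false] at hst
  have hs0 : ∀ e, s e ≠ 0 := fun e => ne_of_norm_one (hs1 e)
  have ht0 : ∀ e, t e ≠ 0 := fun e => ne_of_norm_one (ht1 e)
  -- the matrix
  have hq := QUS.scale 3 (s := (![1, s (xx 0), s (xx 1), s (xx 2)] : Fin 4 → ℍ[ℝ]))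
    (t := (![1, t (yy 0), t (yy 1), t (yy 2)] : Fin 4 → ℍ[ℝ]))
    (forall_fin4 (by simp) (hs1 _) (hs1 _) (hs1 _)) (forall_fin4 (by simp) (ht1 _) (ht1 _) (ht1 _))
    (hf.qus hV (![y, xx 0, xx 1, xx 2] : Fin 4 → E) (![x, yy 0, yy 1, yy 2] : Fin 4 → E)
      (inj4' hxx hxy'') (inj4' hyy hyx) (forall_fin4 hyB (hxmB 0) (hxmB 1) (hxmB 2))
      (forall_fin4 hxB (hyB' 0) (hyB' 1) (hyB' 2)) 3)
  -- the contraction of `y`
  have hfc := hf.minor (D := ∅) (K := {y}) (by simp) (by simp)
  rw [hBy] at hfc
  simp only [Finset.notMem_empty, if_false] at hfc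
  have hpc : ∀ e ∈ U.erase y, e ≠ x → rk (mino V ∅ {y}) {x, e} = 2 := by
    intro e he hex
    rw [rk_ctr]
    exact (h3y.pair (hr.con _) (by omega) hxy' he (Ne.symm hex)).1
  -- the deletion of `x`
  have hfd := hf.minor (D := {x}) (K := ∅) (by simp) (by simpa using hxB)
  rw [Finset.sdiff_empty] at hfd
  have hagr : ∀ A, A ⊆ U.erase x → rk V A = rk (mino V {x} ∅) A :=
    fun A hA => (rk_del (fun h => by simpa using hA h)).symm
  have h3x' := h3x.congr hagr
  have helem : ∀ e ∈ U.erase x, e = y ∨ (∃ i, xx i = e) ∨ ∃ j, yy j = e := by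
    intro e he
    by_cases hey : e = y
    · exact Or.inl hey
    · right
      have heS : e ∈ S := Finset.mem_erase.2 ⟨hey, he⟩
      by_cases heT : e ∈ T
      · right; exact (hyyT e).1 heT
      · left; exact (hxxB e).1 (Finset.mem_sdiff.2 ⟨heS, heT⟩)
  obtain ⟨σ, τ, hσ, hτ, hσR, hτR, hzR⟩ := P6_B3 (fun i => s (xx i) * f (xx i) x)
    (fun j => f y (yy j) * t (yy j)) (f y x) (by
      convert hq using 1
      refine funext (forall_fin4 ?_ ?_ ?_ ?_) <;> refine funext (forall_fin4 ?_ ?_ ?_ ?_)
      · simp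
      · simp
      · simp
      · simp
      · simp
      · exact (hst 0 0).symm
      · exact (hst 0 1).symm
      · exact (hst 0 2).symm
      · simp
      · exact (hst 1 0).symm
      · exact (hst 1 1).symm
      · exact (hst 1 2).symm
      · simp
      · exact (hst 2 0).symm
      · exact (hst 2 1).symm
      · exact (hst 2 2).symm) (by
      -- `x` is not parallel to a row element in `V / y`
      by_contra hcon
      push Not at hcon
      obtain ⟨k, hk⟩ : ∃ k, ∀ i, i ≠ k → f (xx i) x = 0 := by
        by_cases h : ∀ i, f (xx i) x = 0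
        · exact ⟨0, fun i _ => h i⟩
        · push Not at h
          obtain ⟨k, hk⟩ := h
          refine ⟨k, fun i hi => ?_⟩
          have := hcon k i hi.symm (mul_ne_zero (hs0 _) hk)
          exact (mul_eq_zero.1 this).resolve_left (hs0 _)
      have h1 := (hfc.closure_iff (X := {xx k}) (by simpa using hxm k) x).2 (by
        intro z hz
        obtain ⟨hz1, hz2⟩ := Finset.mem_sdiff.1 hz
        obtain ⟨i, rfl⟩ := (hxxB z).1 hz1
        apply hk
        rintro rfl
        exact hz2 (by simp))
      have h2 : (insert x {xx k} : Finset E) = {x, xx k} := rfl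
      rw [h2, hpc (xx k) (Finset.mem_erase.2 ⟨hxy'' k, hxU k⟩) (hxx' k)] at h1
      have := (rk_RK (mino V ∅ {y})).single_le (xx k)
      omega) (by
      -- `x` is not parallel to a column element in `V / y`
      rintro j ⟨ρ, hρ⟩
      have h1 : ∀ i, f (xx i) x = f (xx i) (yy j) * (t (yy j) * ρ) := by
        intro i
        have h2 := hρ i
        rw [← hst] at h2
        apply mul_left_cancel₀ (hs0 (xx i))
        rw [h2]; simp only [mul_assoc]
      have h2 : ∀ c ∈ mino V ∅ {y}, c x = c (yy j) * (t (yy j) * ρ) := by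
        intro c hc
        rw [hfc.expand_apply hc x, hfc.expand_apply hc (yy j), Finset.sum_mul]
        refine Finset.sum_congr rfl fun z hz => ?_
        obtain ⟨i, rfl⟩ := (hxxB z).1 hz
        rw [h1, mul_assoc]
      have h3 := rk_insert_of_vanish (V := mino V ∅ {y}) (A := {yy j}) (x := x) (by
        intro c hc h0
        rw [h2 c hc, h0 (yy j) (by simp), zero_mul])
      have h4 : (insert x {yy j} : Finset E) = {x, yy j} := rfl
      rw [h4, hpc (yy j) (Finset.mem_erase.2 ⟨hyy' j, hyU j⟩) (hyx j)] at h3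
      have := (rk_RK (mino V ∅ {y})).single_le (yy j)
      omega) (by
      -- `y` is not in series with a column element in `V \ x`
      by_contra hcon
      push Not at hcon
      obtain ⟨k, hk⟩ : ∃ k, ∀ j, j ≠ k → f y (yy j) = 0 := by
        by_cases h : ∀ j, f y (yy j) = 0
        · exact ⟨0, fun i _ => h i⟩
        · push Not at h
          obtain ⟨k, hk⟩ := h
          refine ⟨k, fun i hi => ?_⟩
          have := hcon k i hi.symm (mul_ne_zero hk (ht0 _))
          exact (mul_eq_zero.1 this).resolve_right (ht0 _)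
      have h1 := no_small_supp (hU.del x) h3x' (by omega) hyx'
        (Finset.mem_erase.2 ⟨hyx k, hyU k⟩) (hyy' k).symm (hfd.mem y hyB) (by
          intro e he hey hek
          have hex : e ∉ ({x} : Finset E) := by simpa using Finset.ne_of_mem_erase he
          rw [if_neg hex]
          rcases helem e he with h | ⟨i, rfl⟩ | ⟨j, rfl⟩
          · exact absurd h hey
          · exact hf.zero y hyB _ (hxmB i) (Ne.symm hey)
          · exact hk j (fun h => hek (by rw [h])))
      have h2 := congrFun h1 y
      have hyx0 : y ∉ ({x} : Finset E) := by simpa using hxy.symm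
      simp only [if_neg hyx0, Pi.zero_apply] at h2
      rw [hf.one y hyB] at h2
      exact one_ne_zero h2) (by
      -- `y` is not in series with a row element in `V \ x`
      rintro i ⟨ρ, hρ⟩
      have h1 : ∀ j, f y (yy j) = (ρ * s (xx i)) * f (xx i) (yy j) := by
        intro j
        have h2 := hρ j
        rw [← hst] at h2
        apply mul_right_cancel₀ (ht0 (yy j))
        rw [h2]; simp only [mul_assoc]
      have h0 := no_small_supp (hU.del x) h3x' (by omega) hyx'
        (Finset.mem_erase.2 ⟨hxx' i, hxU i⟩) (hxy'' i).symm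
        (Submodule.sub_mem _ (hfd.mem y hyB) (Submodule.smul_mem _ (ρ * s (xx i))
          (hfd.mem (xx i) (hxmB i)))) (by
          intro e he hey hek
          have hex : e ∉ ({x} : Finset E) := by simpa using Finset.ne_of_mem_erase he
          simp only [Pi.sub_apply, Pi.smul_apply, smul_eq_mul, if_neg hex]
          rcases helem e he with h | ⟨k, rfl⟩ | ⟨j, rfl⟩
          · exact absurd h hey
          · rw [hf.zero y hyB _ (hxmB k) (Ne.symm hey), hf.zero (xx i) (hxmB i) _ (hxmB k)
              (Ne.symm hek)]; simp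
          · rw [h1 j]; simp)
      have h2 := congrFun h0 y
      have hyx0 : y ∉ ({x} : Finset E) := by simpa using hxy.symm
      simp only [Pi.sub_apply, Pi.smul_apply, smul_eq_mul, if_neg hyx0, Pi.zero_apply,
        hf.one y hyB, hf.zero (xx i) (hxmB i) y hyB (hxy'' i), mul_zero, sub_zero] at h2
      exact one_ne_zero h2)
  obtain ⟨g, hg, -⟩ := Gauged.of_scale RI_st hU hV hf (s := fun e => if e = y then τ else s e)
    (t := fun e => if e = x then σ else t e) (by
      intro b hb
      by_cases hbx : b = y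
      · simp only [hbx, if_true]; exact hτ
      · simp only [hbx, if_false]; exact hs1 b) (by
      intro b hb
      by_cases hbx : b = x
      · simp only [hbx, if_true]; exact hσ
      · simp only [hbx, if_false]; exact ht1 b) (by
      intro b hb z hz
      obtain ⟨hz1, hz2⟩ := Finset.mem_sdiff.1 hz
      have hzc : z = x ∨ ∃ j, yy j = z := by
        by_cases hzx : z = x
        · exact Or.inl hzx
        · right
          rw [← hyyT]
          by_contra h
          apply hz2
          rw [Finset.mem_insert]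
          by_cases hzy : z = y
          · exact Or.inl hzy
          · exact Or.inr (Finset.mem_sdiff.2 ⟨Finset.mem_erase.2 ⟨hzy,
              Finset.mem_erase.2 ⟨hzx, hz1⟩⟩, h⟩)
      rcases Finset.mem_insert.1 hb with rfl | hb
      · simp only [if_true]
        rcases hzc with rfl | ⟨j, rfl⟩
        · simp only [if_true]; exact hzR
        · simp only [hyx j, if_false]
          rw [mul_assoc]; exact hτR j
      · obtain ⟨i, rfl⟩ := (hxxB b).1 hb
        simp only [hxy'' i, if_false]
        rcases hzc with rfl | ⟨j, rfl⟩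
        · simp only [if_true]; exact hσR i
        · simp only [hyx j, if_false]
          rw [hst]; exact A1_mem i j)
  exact ⟨g, hg⟩

end Pool.Agent.QU
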