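import Pool.Agent.QU.Levels12

set_option linter.unusedVariables false
set_option linter.unusedSectionVars false
set_option linter.style.longLine false

/-! Level three: one-element extensions of `P₆` and of `U₄₆`. -/

open Quaternion

namespace Pool.Agent.QU

section abstract

variable {α : Type*} [DecidableEq α] {U : Finset α} {r : Finset α → ℤ}

theorem ext_conn3 (hr : RK r) {x : α} (hx : x ∈ U) (h : Conn3 (U.erase x) r)
    (hc : 4 ≤ (U.erase x).card) (hp : ∀ e ∈ U.erase x, r {x, e} = 2)
    (hrU : r (U.erase x) = r U) : Conn3 U r := by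
  have hcard := Finset.card_erase_add_one hx
  have hx1 : r {x} = 1 := by
    obtain ⟨e, he⟩ : (U.erase x).Nonempty := by rw [← Finset.card_pos]; omega
    have h1 := hp e he
    have h2 := hr.step {x} e
    have h3 : insert e {x} = ({x, e} : Finset α) := by rw [Finset.pair_comm]
    have h4 := hr.single_le x
    rw [h3] at h2
    omega
  have hconn := Conn.add hr hx h.conn hx1 hrU
  refine ⟨hconn, ?_⟩
  have key : ∀ A, A ⊆ U → lam U r A ≤ 1 → (A.erase x).card ≤ 1 → A.card ≤ 1 := by
    intro A hA hl h1
    by_contra h2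
    have hxA : x ∈ A := by
      by_contra hxA
      rw [Finset.erase_eq_of_notMem hxA] at h1; omega
    have h3 : (A.erase x).card = 1 := by
      have := Finset.card_erase_add_one hxA; omega
    obtain ⟨e, he⟩ := Finset.card_eq_one.1 h3
    have heA : e ∈ A.erase x := by rw [he]; simp
    have heU : e ∈ U.erase x := Finset.mem_erase.2 ⟨Finset.ne_of_mem_erase heA,
      hA (Finset.mem_of_mem_erase heA)⟩
    have hAe : A = {x, e} := by rw [← Finset.insert_erase hxA, he]
    have h5 : r (U \ {x, e}) = r U := by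
      have e1 : U \ {x, e} = (U.erase x).erase e := by clear * -; grind
      rw [e1, (h.conn.single hr (by omega) heU).2, hrU]
    rw [hAe, lam, hp e heU, h5] at hl
    omega
  intro A hA hl
  have hA2 : A.erase x ⊆ U.erase x := Finset.erase_subset_erase x hA
  have m1 := hr.mono (A.erase x) A (Finset.erase_subset _ _)
  have m2 := hr.mono (U.erase x \ A.erase x) (U \ A) (by clear * -; grind)
  have h3 : lam (U.erase x) r (A.erase x) ≤ 1 := by
    simp only [lam] at hl ⊢
    omega
  rcases h.sep _ hA2 h3 with h4 | h4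
  · left; exact key A hA hl h4
  · right
    refine key (U \ A) Finset.sdiff_subset (by rw [lam_compl _ _ hA]; exact hl) ?_
    have e2 : (U \ A).erase x = U.erase x \ A.erase x := by clear * -; grind
    rw [e2]; exact h4

theorem four_le {A : Finset α} {a b c d : α} (ha : a ∈ A) (hb : b ∈ A) (hc : c ∈ A) (hd : d ∈ A)
    (hab : a ≠ b) (hac : a ≠ c) (had : a ≠ d) (hbc : b ≠ c) (hbd : b ≠ d) (hcd : c ≠ d) :
    4 ≤ A.card := by
  have h1 : ({a, b, c, d} : Finset α).card = 4 := by
    rw [Finset.card_insert_of_notMem, Finset.card_insert_of_notMem, Finset.card_pair hcd]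
    · simp [hbc, hbd]
    · simp [hab, hac, had]
  rw [← h1]
  apply Finset.card_le_card
  intro z hz
  simp only [Finset.mem_insert, Finset.mem_singleton] at hz
  rcases hz with rfl | rfl | rfl | rfl <;> assumption

/-- four points in general position in the plane, together with `x` -/
theorem B2_pick (hr : RK r) (h3 : Conn3 U r) (hn : U.card = 7) {x : α} (hx : x ∈ U)
    (hrU : r U = 3) (hu : ∀ A, A ⊆ U.erase x → con r {x} A = min (A.card : ℤ) 2) :
    ∃ a ∈ U.erase x, ∃ b ∈ U.erase x, a ≠ b ∧
      ∀ A, A ⊆ U \ {a, b} → r A = min (A.card : ℤ) 3 := by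
  classical
  have hc := Finset.card_erase_add_one hx
  have hx1 := (h3.conn.single hr (by omega) hx).1
  have hpair : ∀ s ∈ U, ∀ t ∈ U, s ≠ t → r {s, t} = 2 :=
    fun s hs t ht hst => (h3.pair hr (by omega) hs ht hst).1
  have hle3 : ∀ A, A ⊆ U → r A ≤ 3 := fun A hA => by rw [← hrU]; exact hr.mono _ _ hA
  have hxab : ∀ a ∈ U.erase x, ∀ b ∈ U.erase x, a ≠ b → r {x, a, b} = 3 := by
    intro a ha b hb hab
    have h1 := hu {a, b} (by
      intro z hz; simp only [Finset.mem_insert, Finset.mem_singleton] at hz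
      rcases hz with rfl | rfl <;> assumption)
    rw [Finset.card_pair hab, con, hx1] at h1
    have e : ({a, b} : Finset α) ∪ {x} = {x, a, b} := by clear * -; grind
    rw [e] at h1; norm_num at h1; omega
  -- it suffices to find four points in general position
  suffices h : ∃ p q s t, p ∈ U.erase x ∧ q ∈ U.erase x ∧ s ∈ U.erase x ∧ t ∈ U.erase x ∧
      p ≠ q ∧ p ≠ s ∧ p ≠ t ∧ q ≠ s ∧ q ≠ t ∧ s ≠ t ∧ r {p, q, s} = 3 ∧ r {p, q, t} = 3 ∧
      r {p, s, t} = 3 ∧ r {q, s, t} = 3 by
    obtain ⟨p, q, s, t, hp, hq, hs, ht, hpq, hps, hpt, hqs, hqt, hst, t1, t2, t3, t4⟩ := h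
    have hQ : ({p, q, s, t} : Finset α) ⊆ U.erase x := by
      intro z hz; simp only [Finset.mem_insert, Finset.mem_singleton] at hz
      rcases hz with rfl | rfl | rfl | rfl <;> assumption
    have hQc : ({p, q, s, t} : Finset α).card = 4 := by
      rw [Finset.card_insert_of_notMem, Finset.card_insert_of_notMem, Finset.card_pair hst]
      · simp [hqs, hqt]
      · simp [hpq, hps, hpt]
    have h2 : (U.erase x \ {p, q, s, t}).card = 2 := by
      have := Finset.card_sdiff_add_card_eq_card hQ
      omega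
    obtain ⟨a, b, hab, he⟩ := Finset.card_eq_two.1 h2
    have ha : a ∈ U.erase x \ {p, q, s, t} := by rw [he]; simp
    have hb : b ∈ U.erase x \ {p, q, s, t} := by rw [he]; simp
    refine ⟨a, (Finset.mem_sdiff.1 ha).1, b, (Finset.mem_sdiff.1 hb).1, hab, ?_⟩
    have hUe : U \ {a, b} = insert x {p, q, s, t} := by
      rw [← he]
      ext z
      simp only [Finset.mem_sdiff, Finset.mem_erase, not_and, not_not, Finset.mem_insert,
        Finset.mem_singleton]
      constructor
      · rintro ⟨hz, h⟩
        by_cases hzx : z = x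
        · exact Or.inl hzx
        · exact Or.inr (h ⟨hzx, hz⟩)
      · rintro (rfl | h)
        · exact ⟨hx, fun h => absurd rfl h.1⟩
        · have hzU : z ∈ U.erase x := hQ (by simpa using h)
          exact ⟨Finset.mem_of_mem_erase hzU, fun _ => h⟩
    rw [hUe]
    have hxQ : x ∉ ({p, q, s, t} : Finset α) := fun h => by have := hQ h; simp at this
    have hcc : (insert x ({p, q, s, t} : Finset α)).card = 5 := by
      rw [Finset.card_insert_of_notMem hxQ, hQc]
    have hsub : insert x ({p, q, s, t} : Finset α) ⊆ U :=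
      Finset.insert_subset hx (hQ.trans (Finset.erase_subset _ _))
    refine unif_of_ksub (k := 3) hr (by exact_mod_cast hle3 _ hsub) (by omega) ?_
    intro T hT hT3
    by_cases hxT : x ∈ T
    · have h4 : (T.erase x).card = 2 := by
        have := Finset.card_erase_add_one hxT; omega
      obtain ⟨c, d, hcd, hTe⟩ := Finset.card_eq_two.1 h4
      have hTQ : T.erase x ⊆ {p, q, s, t} := by
        intro z hz
        have := hT (Finset.mem_of_mem_erase hz)
        rw [Finset.mem_insert] at this
        exact this.resolve_left (Finset.ne_of_mem_erase hz)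
      have hcU : c ∈ U.erase x := hQ (hTQ (by rw [hTe]; simp))
      have hdU : d ∈ U.erase x := hQ (hTQ (by rw [hTe]; simp))
      rw [← Finset.insert_erase hxT, hTe]
      exact_mod_cast hxab c hcU d hdU hcd
    · have hTQ : T ⊆ {p, q, s, t} := by
        intro z hz
        have := hT hz
        rw [Finset.mem_insert] at this
        exact this.resolve_left (fun h => hxT (h ▸ hz))
      have h5 : (({p, q, s, t} : Finset α) \ T).card = 1 := by
        have := Finset.card_sdiff_add_card_eq_card hTQ
        omega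
      obtain ⟨w, hw⟩ := Finset.card_eq_one.1 h5
      have hTe : T = ({p, q, s, t} : Finset α) \ {w} := by
        rw [← hw, Finset.sdiff_sdiff_eq_self hTQ]
      have hwQ : w ∈ ({p, q, s, t} : Finset α) := by
        have : w ∈ ({p, q, s, t} : Finset α) \ T := by rw [hw]; simp
        exact (Finset.mem_sdiff.1 this).1
      simp only [Finset.mem_insert, Finset.mem_singleton] at hwQ
      have g3 : (3 : ℤ) = ((3 : ℕ) : ℤ) := rfl
      rcases hwQ with rfl | rfl | rfl | rfl
      · have : T = {q, s, t} := by rw [hTe]; clear * - hpq hps hpt hqs hqt hst; grind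
        rw [this]; exact t4
      · have : T = {p, s, t} := by rw [hTe]; clear * - hpq hps hpt hqs hqt hst; grind
        rw [this]; exact t3
      · have : T = {p, q, t} := by rw [hTe]; clear * - hpq hps hpt hqs hqt hst; grind
        rw [this]; exact t2
      · have : T = {p, q, s} := by rw [hTe]; clear * - hpq hps hpt hqs hqt hst; grind
        rw [this]; exact t1
  by_cases H : ∀ A, A ⊆ U.erase x → A.card = 3 → r A = 3
  · obtain ⟨Q, hQ, hQ4⟩ := Finset.exists_subset_card_eq (s := U.erase x) (n := 4) (by omega)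
    obtain ⟨p, Q', hp, rfl, hQ'⟩ := Finset.card_eq_succ.1 hQ4
    obtain ⟨q, s, t, hqs, hqt, hst, rfl⟩ := Finset.card_eq_three.1 hQ'
    have hmem : ∀ z, z = p ∨ z = q ∨ z = s ∨ z = t → z ∈ U.erase x := by
      intro z hz; apply hQ; simpa using hz
    simp only [Finset.mem_insert, Finset.mem_singleton, not_or] at hp
    have hp' := hmem p (Or.inl rfl)
    have hq' := hmem q (Or.inr (Or.inl rfl))
    have hs' := hmem s (Or.inr (Or.inr (Or.inl rfl)))
    have ht' := hmem t (Or.inr (Or.inr (Or.inr rfl)))
    have three : ∀ a ∈ U.erase x, ∀ b ∈ U.erase x, ∀ c ∈ U.erase x, a ≠ b → a ≠ c → b ≠ c →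
        r {a, b, c} = 3 := by
      intro a ha b hb c hc hab hac hbc
      apply H
      · intro z hz; simp only [Finset.mem_insert, Finset.mem_singleton] at hz
        rcases hz with rfl | rfl | rfl <;> assumption
      · rw [Finset.card_insert_of_notMem, Finset.card_pair hbc]
        simp [hab, hac]
    exact ⟨p, q, s, t, hp', hq', hs', ht', hp.1, hp.2.1, hp.2.2, hqs, hqt, hst,
      three _ hp' _ hq' _ hs' hp.1 hp.2.1 hqs, three _ hp' _ hq' _ ht' hp.1 hp.2.2 hqt,
      three _ hp' _ hs' _ ht' hp.2.1 hp.2.2 hst, three _ hq' _ hs' _ ht' hqs hqt hst⟩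
  · push Not at H
    obtain ⟨T, hT, hT3, hTr⟩ := H
    have hTU : T ⊆ U := hT.trans (Finset.erase_subset _ _)
    have hTr2 : r T = 2 := by
      obtain ⟨s, t, hst, hsub⟩ : ∃ s t, s ≠ t ∧ ({s, t} : Finset α) ⊆ T := by
        obtain ⟨P, hP, hP2⟩ := Finset.exists_subset_card_eq (s := T) (n := 2) (by omega)
        obtain ⟨s, t, hst, rfl⟩ := Finset.card_eq_two.1 hP2
        exact ⟨s, t, hst, hP⟩
      have h1 := hr.mono _ _ hsub
      rw [hpair s (hTU (hsub (by simp))) t (hTU (hsub (by simp))) hst] at h1
      have := hle3 T hTU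
      omega
    set L := (U.erase x).filter (fun e => r (insert e T) = 2) with hL
    have hLU : L ⊆ U.erase x := Finset.filter_subset _ _
    have hTL : T ⊆ L := by
      intro z hz
      rw [hL, Finset.mem_filter]
      exact ⟨hT hz, by rw [Finset.insert_eq_of_mem hz]; exact hTr2⟩
    have hLr : r L = 2 := by
      have h1 := hr.closure_union (A := T) (C := L) (by
        intro e he
        rw [hTr2]; exact (Finset.mem_filter.1 he).2)
      rw [Finset.union_eq_right.2 hTL, hTr2] at h1
      exact h1
    -- at least two points off `L`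
    have hLU' : L ⊆ U := hLU.trans (Finset.erase_subset _ _)
    have hLc := Finset.card_le_card hTL
    have hxL : x ∈ U \ L := Finset.mem_sdiff.2 ⟨hx, fun h => by have := hLU h; simp at this⟩
    have hUL : 3 ≤ (U \ L).card := by
      by_cases h2 : 2 ≤ (U \ L).card
      · have h4 := h3.two_le hLU' (by omega) h2
        have h5 := hr.le_card (U \ L)
        omega
      · exfalso
        have h4 := h3.conn.one_le hLU' (by rw [← Finset.card_pos]; omega) ⟨x, hxL⟩
        have h5 := hr.le_card (U \ L)
        omega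
    have hPL : 1 < ((U \ L).erase x).card := by
      have := Finset.card_erase_add_one hxL; omega
    obtain ⟨p, hp, q, hq, hpq⟩ := Finset.one_lt_card.1 hPL
    have hoff : ∀ e ∈ (U \ L).erase x, e ∈ U.erase x ∧ e ∉ L ∧ r (insert e T) ≠ 2 := by
      intro e he
      obtain ⟨h1, h2⟩ := Finset.mem_erase.1 he
      obtain ⟨h4, h5⟩ := Finset.mem_sdiff.1 h2
      have h6 : e ∈ U.erase x := Finset.mem_erase.2 ⟨h1, h4⟩
      exact ⟨h6, h5, fun h => h5 (Finset.mem_filter.2 ⟨h6, h⟩)⟩
    have hij : ∀ i ∈ T, ∀ j ∈ T, i ≠ j → ∀ e ∈ (U \ L).erase x, r {i, j, e} = 3 := by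
      intro i hi j hj hij e he
      obtain ⟨h1, h2, h4⟩ := hoff e he
      have hsub : ({i, j, e} : Finset α) ⊆ U := by
        intro z hz; simp only [Finset.mem_insert, Finset.mem_singleton] at hz
        rcases hz with rfl | rfl | rfl
        · exact hTU hi
        · exact hTU hj
        · exact Finset.mem_of_mem_erase h1
      have h5 := hle3 _ hsub
      have h6 := hr.mono {i, j} {i, j, e} (by clear * -; grind)
      rw [hpair i (hTU hi) j (hTU hj) hij] at h6
      by_contra h7
      apply h4
      have h8 := hr.closure_mono (A := {i, j}) (B := T) (e := e) (by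
        intro z hz; simp only [Finset.mem_insert, Finset.mem_singleton] at hz
        rcases hz with rfl | rfl <;> assumption) (by
        have e1 : insert e ({i, j} : Finset α) = {i, j, e} := by clear * -; grind
        rw [e1, hpair i (hTU hi) j (hTU hj) hij]; omega)
      rw [h8, hTr2]
    obtain ⟨hpU, hpL, -⟩ := hoff p hp
    obtain ⟨hqU, hqL, -⟩ := hoff q hq
    have hpqr := hpair p (Finset.mem_of_mem_erase hpU) q (Finset.mem_of_mem_erase hqU) hpq
    have good : ∀ i ∈ T, ∀ j ∈ T, i ≠ j → r {i, p, q} ≠ 3 → r {j, p, q} = 3 := by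
      intro i hi j hj hij' h1
      by_contra h2
      have hsub : ∀ i ∈ T, ({i, p, q} : Finset α) ⊆ U := by
        intro i hi z hz; simp only [Finset.mem_insert, Finset.mem_singleton] at hz
        rcases hz with rfl | rfl | rfl
        · exact hTU hi
        · exact Finset.mem_of_mem_erase hpU
        · exact Finset.mem_of_mem_erase hqU
      have h4 := hle3 _ (hsub i hi)
      have h5 := hle3 _ (hsub j hj)
      have h6 := hr.sub' (A := {i, p, q}) (B := {j, p, q}) (C := {i, j, p}) (D := {p, q})
        (by clear * -; grind) (by clear * -; grind)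
      rw [hij i hi j hj hij' p hp, hpqr] at h6
      omega
    obtain ⟨i1, i2, i3, h12, h13, h23, hTe⟩ := Finset.card_eq_three.1 hT3
    have m1 : i1 ∈ T := by rw [hTe]; simp
    have m2 : i2 ∈ T := by rw [hTe]; simp
    have m3 : i3 ∈ T := by rw [hTe]; simp
    obtain ⟨i, hi, j, hj, hne, g1, g2⟩ : ∃ i ∈ T, ∃ j ∈ T, i ≠ j ∧ r {i, p, q} = 3 ∧
        r {j, p, q} = 3 := by
      by_cases b1 : r {i1, p, q} = 3
      · by_cases b2 : r {i2, p, q} = 3
        · exact ⟨i1, m1, i2, m2, h12, b1, b2⟩
        · exact ⟨i1, m1, i3, m3, h13, b1, good i2 m2 i3 m3 h23 b2⟩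
      · exact ⟨i2, m2, i3, m3, h23, good i1 m1 i2 m2 h12 b1, good i1 m1 i3 m3 h13 b1⟩
    have hneL : ∀ i ∈ T, ∀ e, e ∉ L → i ≠ e := fun i hi e he h => he (h ▸ hTL hi)
    exact ⟨i, j, p, q, hT hi, hT hj, hpU, hqU, hne, hneL i hi p hpL, hneL i hi q hqL,
      hneL j hj p hpL, hneL j hj q hqL, hpq, hij i hi j hj hne p hp, hij i hi j hj hne q hq, g1, g2⟩

end abstract

end Pool.Agent.QU
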