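import Pool.Agent.QU.Level
import Pool.Agent.QU.Base

set_option linter.unusedVariables false
set_option linter.unusedSectionVars false
set_option linter.style.longLine false

/-! The levels one and two. -/

open Quaternion

namespace Pool.Agent.QU

section abstract

variable {α : Type*} [DecidableEq α] {U : Finset α} {r : Finset α → ℤ}

theorem F_self {NN : Finset α → (Finset α → ℤ) → Prop} (hr : RK r) (h : NN U r) : F NN U r :=
  ⟨U, ∅, Finset.Subset.refl _, Finset.empty_subset _, by simp, by rw [con_empty _ hr.empty]; exact h⟩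

theorem unif2_of_conn3 (hr : RK r) (h3 : Conn3 U r) (hU : 4 ≤ U.card) (h2 : r U = 2) :
    ∀ A, A ⊆ U → r A = min (A.card : ℤ) 2 := by
  have := unif_of_ksub (k := 2) (S := U) hr (by rw [h2]; rfl) (by omega) (by
    intro T hT hT2
    obtain ⟨s, t, hst, rfl⟩ := Finset.card_eq_two.1 hT2
    exact (h3.pair hr hU (hT (by simp)) (hT (by simp)) hst).1)
  exact this

end abstract

variable {E : Type*} [Fintype E] [DecidableEq E]

theorem Unif.of_conn3_dual {U : Finset E} {r : Finset E → ℤ} (hr : RK r) (h3 : Conn3 U r)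
    (hU : 4 ≤ U.card) (h2 : r U = (U.card : ℤ) - 2) : Unif ((U.card : ℤ) - 2) U r := by
  have h1 : dl U r U = 2 := by
    simp only [dl, Finset.sdiff_self, hr.empty]; omega
  have h4 : Unif 2 U (dl U r) := unif2_of_conn3 (hr.dl U) (h3.dl hr) hU h1
  have h5 := h4.dual (by norm_num) (by exact_mod_cast (by omega : 2 ≤ U.card))
  exact h5.congr (fun A hA => dl_dl U hr.empty hA)

theorem unif_card {k : ℤ} {U : Finset E} {r : Finset E → ℤ} (hu : Unif k U r)
    (hk : k ≤ U.card) : r U = k := by
  rw [hu U (Finset.Subset.refl _)]; omega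

theorem level1 (U : Finset E) (V : CG E) (hU : SuppIn V U) (hV : IsQU V) (h3 : Conn3 U (rk V))
    (hF : F NN1 U (rk V)) (hF' : ¬ F NN2 U (rk V)) : ∃ g, Gauged RC V g := by
  refine level RC_st nnax1 nnax2 rig1 base1 ?_ ?_ U.card U V rfl hU hV h3 hF hF'
  · intro U V hU hV h3 hF' ⟨x, hx, hN⟩
    exfalso
    have hr := rk_RK V
    have hc := Finset.card_erase_add_one hx
    have hc4 := hN.1
    have h5 := unif_card hN.2 (by rw [hc4]; norm_num)
    rw [(h3.conn.single hr (by omega) hx).2] at h5
    exact hF' (F_self hr ⟨by omega, Or.inl (unif2_of_conn3 hr h3 (by omega) h5)⟩)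
  · intro U V hU hV h3 hF' ⟨x, hx, y, hy, hxy, hN, h3x, h3y⟩
    exfalso
    have hr := rk_RK V
    have hrc := hr.con {y}
    have hxy' : x ∈ U.erase y := Finset.mem_erase.2 ⟨hxy, hx⟩
    have hyx' : y ∈ U.erase x := Finset.mem_erase.2 ⟨hxy.symm, hy⟩
    have hc := Finset.card_erase_add_one hyx'
    have hc2 := Finset.card_erase_add_one hx
    have hc3 := Finset.card_erase_add_one hy
    have hc4 := hN.1
    have h5 := unif_card hN.2 (by rw [hc4]; norm_num)
    rw [Finset.erase_right_comm, (h3y.conn.single hrc (by omega) hxy').2] at h5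
    exact hF' ((F_self hrc ⟨by omega, Or.inl (unif2_of_conn3 hrc h3y (by omega) h5)⟩ :
      F NN2 _ _).of_con_single hy)

/-- the uniform matroid of rank three on six elements -/
theorem U36_gauge {V : CG E} {U : Finset E} (hU : SuppIn V U) (hV : IsQU V)
    (hu : Unif 3 U (rk V)) (hn : U.card = 6) : ∃ g, Gauged RT V g := by
  obtain ⟨T, hT, hT3⟩ := Finset.exists_subset_card_eq (s := U) (n := 3) (by omega)
  have hc := Finset.card_sdiff_add_card_eq_card hT
  have h3 : ∀ A, A ⊆ U → A.card = 3 → rk V A = 3 := by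
    intro A hA hA3; rw [hu A hA, hA3]; rfl
  have h4 : rk V U = 3 := unif_card hu (by rw [hn]; norm_num)
  obtain ⟨f, hf⟩ := exists_frame_of_basis (V := V) (U := U) (B := U \ T) hU
    (by rw [h3 _ Finset.sdiff_subset (by omega)]; omega)
    (by rw [h3 _ Finset.sdiff_subset (by omega), h4])
  obtain ⟨x, hx, hxB⟩ := enumF (U := U \ T) (n := 3) (by omega)
  obtain ⟨y, hy, hyT⟩ := enumF (U := T) (n := 3) hT3
  have hxm : ∀ i, x i ∈ U \ T := fun i => (hxB _).2 ⟨i, rfl⟩
  have hym : ∀ j, y j ∈ T := fun j => (hyT _).2 ⟨j, rfl⟩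
  have hxy : ∀ i j, x i ≠ y j := by
    intro i j hij
    have h1 := hxm i
    rw [hij] at h1
    exact (Finset.mem_sdiff.1 h1).2 (hym j)
  obtain ⟨he, hN, hdet⟩ := frame3 hU hV hx hy hxy hxB (fun j => hT (hym j)) hf
    (fun A hA hA3 _ => h3 A hA hA3)
  have hdet' := hdet.1 (h3 _ (by
      intro z hz
      simp only [Finset.mem_insert, Finset.mem_singleton] at hz
      rcases hz with rfl | rfl | rfl <;> exact hT (hym _)) (by
      rw [Finset.card_insert_of_notMem, Finset.card_pair (fun h => by have := hy h; simp at this)]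
      simp only [Finset.mem_insert, Finset.mem_singleton, not_or]
      exact ⟨fun h => by have := hy h; simp at this, fun h => by have := hy h; simp at this⟩))
  obtain ⟨w, hw, w1, w2, w3, w4⟩ := hN.U36 hdet'
  have hw0 := ne_of_norm_one hw
  have ww : w⁻¹ * 1 * w = 1 := by rw [mul_one, inv_mul_cancel₀ hw0]
  refine gauge_of_kap RT_st hU hV hf (hxm 0) (y0 := y 0) ?_ ?_ ?_ hw ?_
  · rw [Finset.sdiff_sdiff_eq_self hT]; exact hym 0
  · intro z hz
    rw [Finset.sdiff_sdiff_eq_self hT] at hz
    obtain ⟨j, rfl⟩ := (hyT z).1 hz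
    exact he 0 j
  · intro z hz
    obtain ⟨j, rfl⟩ := (hxB z).1 hz
    exact he j 0
  · intro z hz z' hz'
    rw [Finset.sdiff_sdiff_eq_self hT] at hz'
    obtain ⟨i, rfl⟩ := (hxB z).1 hz
    obtain ⟨j, rfl⟩ := (hyT z').1 hz'
    have k0 : ∀ j, kap f (x 0) (y 0) (x 0) (y j) = 1 := fun j => kap_one' (he 0 0) (he 0 j)
    have k0' : ∀ i, kap f (x 0) (y 0) (x i) (y 0) = 1 := fun i => kap_one (he 0 0) (he i 0)
    have h1 := RT.one_mem
    revert i j
    refine forall_fin3 ?_ ?_ ?_ <;> intro _ <;> refine forall_fin3 ?_ ?_ ?_ <;> intro _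
    all_goals first
      | (rw [k0, ww]; exact h1)
      | (rw [k0', ww]; exact h1)
      | exact w1
      | exact w2
      | exact w3
      | exact w4

/-- extension by a point on two lines -/
theorem ext_two {R : Subring ℍ[ℝ]} (hR : ∀ x ∈ R, star x ∈ R) {V : CG E}
    (hV : IsQU V) {x : E} {g : E → ℍ[ℝ]} (hg : Gauged R (mino V {x} ∅) g) {B : Finset E} {f}
    (hf : Frame V B f) (hxB : x ∉ B) {a b c d e : E} (ha : a ∈ B) (hb : b ∈ B) (he : e ∈ B)
    (hea : e ≠ a) (heb : e ≠ b) (hz : ∀ z ∈ B, z ≠ a → z ≠ b → f z x = 0) (hax : f a x ≠ 0)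
    (hc : c ∉ B) (hcx : c ≠ x) (hdx : d ≠ x) (hec : f e c ≠ 0)
    (hda : f a d - f a c * (f e c)⁻¹ * f e d ≠ 0)
    (hdet : f b x - (f b d - f b c * (f e c)⁻¹ * f e d) *
      (f a d - f a c * (f e c)⁻¹ * f e d)⁻¹ * f a x = 0) : ∃ G, Gauged R V G := by
  have hgn : ∀ e, g e ≠ 0 := fun e => ne_of_norm_one (hg.1 e)
  have hfm := hf.minor (D := {x}) (K := ∅) (Finset.empty_subset _) (by simpa using hxB)
  rw [Finset.sdiff_empty] at hfm
  have hec' : (fun x' y => if y ∈ ({x} : Finset E) then 0 else f x' y) e c ≠ 0 := by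
    simpa [hcx] using hec
  have hfp := hfm.pivot he hc hec'
  have hcx' : c ∉ ({x} : Finset E) := by simpa using hcx
  have hdx' : d ∉ ({x} : Finset E) := by simpa using hdx
  have hac : a ≠ c := fun h => hc (h ▸ ha)
  have hbc : b ≠ c := fun h => hc (h ▸ hb)
  have ma : a ∈ insert c (B.erase e) := by
    rw [Finset.mem_insert, Finset.mem_erase]; exact Or.inr ⟨hea.symm, ha⟩
  have mb : b ∈ insert c (B.erase e) := by
    rw [Finset.mem_insert, Finset.mem_erase]; exact Or.inr ⟨heb.symm, hb⟩
  have e1 := hg.entry hfp ma d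
  have e2 := hg.entry hfp mb d
  have n1 := entry_norm (hV.minor {x} ∅) hg.1 hg.1 hfp ma (y := d) (by
    simpa only [if_neg hac, if_neg hcx', if_neg hdx'] using hda)
  simp only [if_neg hac, if_neg hbc, if_neg hcx', if_neg hdx'] at e1 e2 n1
  have e3 := R.mul_mem e2 (inv_memR hR e1 n1)
  have hX : ‖(g a)⁻¹ * f a x‖ = 1 :=
    norm_mul_one (norm_inv_one (hg.1 a)) ((hf.qu hV ha x).resolve_left hax)
  refine ⟨fun y => if y = x then ((g a)⁻¹ * f a x)⁻¹ else g y, Gauged.of_frame hR hV hf ?_ ?_⟩
  · intro y
    by_cases hy : y = x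
    · simp only [hy, if_true]; exact norm_inv_one hX
    · simp only [hy, if_false]; exact hg.1 y
  · intro z hzB y
    have hzx : z ≠ x := fun h => hxB (h ▸ hzB)
    simp only [hzx, if_false]
    by_cases hy : y = x
    · simp only [hy, if_true]
      by_cases hza : z = a
      · rw [hza, mul_inv_cancel₀ (ne_of_norm_one hX)]; exact R.one_mem
      · by_cases hzb : z = b
        · rw [hzb]
          rw [sub_eq_zero] at hdet
          convert e3 using 1
          rw [hdet]
          have hax' := hax
          simp only [mul_inv_rev, inv_inv, mul_assoc, mul_inv_cancel_left₀ (hgn _),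
            mul_inv_cancel_left₀ hax]
        · rw [hz z hzB hza hzb]; simp
    · simp only [hy, if_false]
      have := hg.entry hfm hzB y
      simpa only [Finset.mem_singleton, hy, if_false] using this

theorem Q6_gauge {V : CG E} {U : Finset E} (hU : SuppIn V U) (hV : IsQU V)
    (h3 : Conn3 U (rk V)) (hn : U.card = 6) {x : E} (hx : x ∈ U)
    (hu : Unif 3 (U.erase x) (rk V)) (hP : ¬ IsP6 U (rk V)) : ∃ g, Gauged RT V g := by
  classical
  have hr := rk_RK V
  have hc := Finset.card_erase_add_one hx
  have hrU : rk V U = 3 := by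
    rw [← (h3.conn.single hr (by omega) hx).2]
    exact unif_card hu (by omega)
  have hpair : ∀ s ∈ U, ∀ t ∈ U, s ≠ t → rk V {s, t} = 2 :=
    fun s hs t ht hst => (h3.pair hr (by omega) hs ht hst).1
  have hle3 : ∀ A, rk V A ≤ 3 := fun A => by
    have := rk_le_finrank V A
    rw [← hU.rk_eq, hrU] at this; exact this
  have htri : ∀ A, A ⊆ U → A.card = 3 → rk V A ≠ 3 →
      ∃ a b, a ∈ U.erase x ∧ b ∈ U.erase x ∧ a ≠ b ∧ A = {x, a, b} ∧ rk V A = 2 := by
    intro A hA hA3 hAr
    have hxA : x ∈ A := by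
      by_contra hxA
      apply hAr
      rw [hu A (fun z hz => Finset.mem_erase.2 ⟨fun h => hxA (h ▸ hz), hA hz⟩), hA3]; rfl
    have h2 : (A.erase x).card = 2 := by
      have := Finset.card_erase_add_one hxA; omega
    obtain ⟨a, b, hab, hAe⟩ := Finset.card_eq_two.1 h2
    have ha : a ∈ A.erase x := by rw [hAe]; simp
    have hb : b ∈ A.erase x := by rw [hAe]; simp
    refine ⟨a, b, Finset.mem_erase.2 ⟨Finset.ne_of_mem_erase ha, hA (Finset.mem_of_mem_erase ha)⟩,
      Finset.mem_erase.2 ⟨Finset.ne_of_mem_erase hb, hA (Finset.mem_of_mem_erase hb)⟩, hab, ?_, ?_⟩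
    · rw [← Finset.insert_erase hxA, hAe]
    · have h4 := hr.mono (A.erase x) A (Finset.erase_subset _ _)
      rw [hAe, hpair a (hA (Finset.mem_of_mem_erase ha)) b (hA (Finset.mem_of_mem_erase hb)) hab] at h4
      have := hle3 A
      omega
  by_cases H : ∀ A, A ⊆ U → A.card = 3 → rk V A = 3
  · refine U36_gauge hU hV ?_ hn
    exact unif_of_ksub (k := 3) hr (by rw [hrU]; rfl) (by omega) (fun T hT hT3 => by
      rw [H T hT hT3]; rfl)
  · push Not at H
    obtain ⟨A0, hA0, hA03, hA0r⟩ := H
    have hA0r2 : rk V A0 = 2 := by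
      obtain ⟨a, b, -, -, -, -, h⟩ := htri A0 hA0 hA03 hA0r
      exact h
    obtain ⟨A1, hA1, hA13, hA10, hA1r⟩ : ∃ A1, A1 ⊆ U ∧ A1.card = 3 ∧ A1 ≠ A0 ∧ rk V A1 ≠ 3 := by
      by_contra hcon
      push Not at hcon
      apply hP
      refine ⟨hn, A0, hA0, hA03, ?_⟩
      intro A hA
      by_cases hAA : A = A0
      · rw [if_pos hAA, hAA, hA0r2]
      · rw [if_neg hAA]
        by_cases hc3 : A.card ≤ 2
        · obtain ⟨P, hP1, hP2, hP3⟩ := Finset.exists_subsuperset_card_eq hA hc3 (by omega)
          obtain ⟨s, t, hst, rfl⟩ := Finset.card_eq_two.1 hP3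
          have h5 := hr.indep_subset hP1 (by
            rw [hpair s (hP2 (by simp)) t (hP2 (by simp)) hst, Finset.card_pair hst]; rfl)
          rw [h5]; omega
        · have h6 : rk V A = 3 := by
            by_cases hc4 : A.card = 3
            · exact hcon A hA hc4 hAA
            · obtain ⟨z, hz, hz0⟩ : ∃ z ∈ A, z ∉ A0 := by
                by_contra hh
                push Not at hh
                have := Finset.card_le_card (show A ⊆ A0 from fun z hz => hh z hz)
                omega
              obtain ⟨P, hP1, hP2, hP3⟩ := Finset.exists_subsuperset_card_eq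
                (s := {z}) (t := A) (n := 3) (by simpa using hz) (by simp) (by omega)
              have h7 := hcon P (hP2.trans hA) hP3 (by
                rintro rfl
                exact hz0 (hP1 (by simp)))
              have h8 := hr.mono _ _ hP2
              have := hle3 A
              omega
          rw [h6]; omega
    obtain ⟨a, b, ha, hb, hab, hA0e, -⟩ := htri A0 hA0 hA03 hA0r
    obtain ⟨c, d, hc', hd, hcd, hA1e, hA1r2⟩ := htri A1 hA1 hA13 hA1r
    have hxab : rk V {x, a, b} = 2 := by rw [← hA0e]; exact hA0r2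
    have hxcd : rk V {x, c, d} = 2 := by rw [← hA1e]; exact hA1r2
    obtain ⟨hax, haU⟩ := Finset.mem_erase.1 ha
    obtain ⟨hbx, hbU⟩ := Finset.mem_erase.1 hb
    obtain ⟨hcx, hcU⟩ := Finset.mem_erase.1 hc'
    obtain ⟨hdx, hdU⟩ := Finset.mem_erase.1 hd
    have hthree : ∀ p ∈ U.erase x, ∀ q ∈ U.erase x, ∀ s ∈ U.erase x, p ≠ q → p ≠ s → q ≠ s →
        rk V {p, q, s} = 3 := by
      intro p hp q hq s hs h1 h2 h3
      rw [hu _ (by
        intro z hz
        simp only [Finset.mem_insert, Finset.mem_singleton] at hz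
        rcases hz with rfl | rfl | rfl <;> assumption)]
      rw [Finset.card_insert_of_notMem, Finset.card_pair h3]
      · rfl
      · simp only [Finset.mem_insert, Finset.mem_singleton, not_or]; exact ⟨h1, h2⟩
    -- disjointness
    have hdis : ∀ p q s, p ∈ U.erase x → q ∈ U.erase x → s ∈ U.erase x → p ≠ q → p ≠ s → q ≠ s →
        rk V {x, p, q} = 2 → rk V {x, p, s} = 2 → False := by
      intro p q s hp hq hs hpq hps hqs h1 h2
      obtain ⟨hpx, hpU⟩ := Finset.mem_erase.1 hp
      have h4 := hr.sub' (A := {x, p, q}) (B := {x, p, s}) (C := {p, q, s}) (D := {x, p})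
        (by clear * -; grind) (by clear * -; grind)
      rw [h1, h2, hthree p hp q hq s hs hpq hps hqs, hpair x hx p hpU hpx.symm] at h4
      omega
    have hca : c ≠ a := by
      rintro rfl
      by_cases hdb : d = b
      · subst hdb; exact hA10 (hA1e.trans hA0e.symm)
      · exact hdis c b d hc' hb hd hab hcd (Ne.symm hdb) hxab hxcd
    have hcb : c ≠ b := by
      rintro rfl
      by_cases hda : d = a
      · subst hda; apply hA10; rw [hA1e, hA0e]; clear * -; grind
      · exact hdis c a d hc' ha hd hab.symm hcd (Ne.symm hda)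
          (by rw [← hxab]; congr 1; clear * -; grind) hxcd
    have hda : d ≠ a := by
      rintro rfl
      exact hdis d b c hd hb hc' hab hcd.symm (Ne.symm hcb) hxab
        (by rw [← hxcd]; congr 1; clear * -; grind)
    have hdb : d ≠ b := by
      rintro rfl
      exact hdis d a c hd ha hc' hab.symm hcd.symm (Ne.symm hca)
        (by rw [← hxab]; congr 1; clear * -; grind)
        (by rw [← hxcd]; congr 1; clear * -; grind)
    obtain ⟨e, heU, hne⟩ : ∃ e ∈ U, e ∉ ({x, a, b, c, d} : Finset E) := by
      by_contra hh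
      push Not at hh
      have h1 := Finset.card_le_card (show U ⊆ {x, a, b, c, d} from fun z hz => hh z hz)
      have h2 : ({x, a, b, c, d} : Finset E).card ≤ 5 := Finset.card_le_five
      omega
    simp only [Finset.mem_insert, Finset.mem_singleton, not_or] at hne
    obtain ⟨hex, hea, heb, hec, hed⟩ := hne
    have he : e ∈ U.erase x := Finset.mem_erase.2 ⟨hex, heU⟩
    -- the frame
    have hBr : rk V {a, b, e} = 3 := hthree a ha b hb e he hab (Ne.symm hea) (Ne.symm heb)
    have hBc : ({a, b, e} : Finset E).card = 3 := by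
      rw [Finset.card_insert_of_notMem, Finset.card_pair (Ne.symm heb)]
      simp only [Finset.mem_insert, Finset.mem_singleton, not_or]; exact ⟨hab, Ne.symm hea⟩
    obtain ⟨f, hf⟩ := exists_frame_of_basis (V := V) (U := U) (B := {a, b, e}) hU
      (by rw [hBr, hBc]; rfl) (by rw [hBr, hrU])
    have maB : a ∈ ({a, b, e} : Finset E) := by simp
    have mbB : b ∈ ({a, b, e} : Finset E) := by simp
    have meB : e ∈ ({a, b, e} : Finset E) := by simp
    have hxB : x ∉ ({a, b, e} : Finset E) := by
      simp only [Finset.mem_insert, Finset.mem_singleton, not_or]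
      exact ⟨Ne.symm hax, Ne.symm hbx, Ne.symm hex⟩
    have hcB : c ∉ ({a, b, e} : Finset E) := by
      simp only [Finset.mem_insert, Finset.mem_singleton, not_or]
      exact ⟨hca, hcb, Ne.symm hec⟩
    have hdB : d ∉ ({a, b, e} : Finset E) := by
      simp only [Finset.mem_insert, Finset.mem_singleton, not_or]
      exact ⟨hda, hdb, Ne.symm hed⟩
    have hfex : f e x = 0 := by
      have h1 := (hf.closure_iff (X := {a, b}) (by
        intro z hz; simp only [Finset.mem_insert, Finset.mem_singleton] at hz ⊢; tauto) x).1 (by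
          have h2 : (insert x {a, b} : Finset E) = {x, a, b} := rfl
          rw [h2, hxab, hpair a haU b hbU hab])
      apply h1
      simp only [Finset.mem_sdiff, Finset.mem_insert, Finset.mem_singleton, not_or]
      exact ⟨Or.inr (Or.inr trivial), hea, heb⟩
    have hfax : f a x ≠ 0 := by
      intro h0
      have h1 := (hf.closure_iff (X := {b}) (by
        intro z hz; simp only [Finset.mem_insert, Finset.mem_singleton] at hz ⊢; tauto) x).2 (by
          intro z hz
          simp only [Finset.mem_sdiff, Finset.mem_insert, Finset.mem_singleton] at hz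
          rcases hz with ⟨rfl | rfl | rfl, h2⟩
          · exact h0
          · exact absurd rfl h2
          · exact hfex)
      have h2 : (insert x {b} : Finset E) = {x, b} := rfl
      rw [h2, hpair x hx b hbU (Ne.symm hbx)] at h1
      have := hr.single_le b
      omega
    have er1 : ({a, b, e} : Finset E).erase e = {a, b} := by clear * - hea heb; grind
    have er2 : (({a, b, e} : Finset E).erase e).erase a = {b} := by clear * - hea heb hab; grind
    have er3 : ((({a, b, e} : Finset E).erase e).erase a).erase b = ∅ := by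
      rw [er2]; simp
    have hfec : f e c ≠ 0 := by
      rw [← hf.rk_swap meB, er1, hBc]
      exact hthree c hc' a ha b hb hca hcb hab
    have hfd : f a d - f a c * (f e c)⁻¹ * f e d ≠ 0 := by
      rw [← hf.rk_swap2 meB maB hea hcB hfec, er2, hBc]
      exact hthree d hd c hc' b hb (Ne.symm hcd) hdb hcb
    have hdet := hf.rk_swap3 (x0 := e) (x1 := a) (x2 := b) (y0 := c) (y1 := d) (y2 := x) meB maB mbB
      hea heb hab hcB hdB hcd hfec hfd
    rw [er3, hBc, hfex] at hdet
    have hdet0 : f b x - (f b d - f b c * (f e c)⁻¹ * f e d) *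
      (f a d - f a c * (f e c)⁻¹ * f e d)⁻¹ * f a x = 0 := by
      by_contra h0
      have h1 := hdet.2 (by simpa using h0)
      have h2 : (insert x (insert d (insert c ∅)) : Finset E) = {x, c, d} := by clear * -; grind
      rw [h2, hxcd] at h1
      norm_num at h1
    obtain ⟨g, hg⟩ := base2 (U.erase x) (mino V {x} ∅) (hU.del x) (hV.minor _ _) ⟨by omega,
      Or.inr (hu.congr (fun A hA => (rk_del (fun h => by simpa using hA h)).symm))⟩
    exact ext_two RT_st hV hg hf hxB maB mbB meB hea heb (by
      intro z hz hza hzb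
      simp only [Finset.mem_insert, Finset.mem_singleton] at hz
      rcases hz with rfl | rfl | rfl
      · exact absurd rfl hza
      · exact absurd rfl hzb
      · exact hfex) hfax hcB hcx hdx hfec hfd hdet0

theorem level2 (U : Finset E) (V : CG E) (hU : SuppIn V U) (hV : IsQU V) (h3 : Conn3 U (rk V))
    (hF : F NN2 U (rk V)) (hF' : ¬ F NN3 U (rk V)) : ∃ g, Gauged RT V g := by
  refine level RT_st nnax2 nnax3 rig2 base2 ?_ ?_ U.card U V rfl hU hV h3 hF hF'
  · intro U V hU hV h3 hF' ⟨x, hx, hN⟩
    have hr := rk_RK V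
    have hc := Finset.card_erase_add_one hx
    have hc4 := hN.1
    rcases hN.2 with h2 | h2
    · exfalso
      have h5 := unif_card h2 (by rw [hc4]; norm_num)
      rw [(h3.conn.single hr (by omega) hx).2] at h5
      exact hF' (F_self hr ⟨by omega, Or.inl (unif2_of_conn3 hr h3 (by omega) h5)⟩)
    · exact Q6_gauge hU hV h3 (by omega) hx h2
        (fun hP => hF' (F_self hr ⟨by omega, Or.inr (Or.inr hP)⟩))
  · intro U V hU hV h3 hF' ⟨x, hx, y, hy, hxy, hN, h3x, h3y⟩
    exfalso
    have hr := rk_RK V
    have hrc := hr.con {y}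
    have hxy' : x ∈ U.erase y := Finset.mem_erase.2 ⟨hxy, hx⟩
    have hyx' : y ∈ U.erase x := Finset.mem_erase.2 ⟨hxy.symm, hy⟩
    have hc := Finset.card_erase_add_one hyx'
    have hc2 := Finset.card_erase_add_one hx
    have hc3 := Finset.card_erase_add_one hy
    have hc4 := hN.1
    rcases hN.2 with h2 | h2
    · have h5 := unif_card h2 (by rw [hc4]; norm_num)
      rw [Finset.erase_right_comm, (h3y.conn.single hrc (by omega) hxy').2] at h5
      exact hF' ((F_self hrc ⟨by omega, Or.inl (unif2_of_conn3 hrc h3y (by omega) h5)⟩ :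
        F NN3 _ _).of_con_single hy)
    · have h5 := unif_card h2 (by rw [hc4]; norm_num)
      have h6 : rk V (U.erase x) = 4 := by
        have e1 : (U.erase x).erase y ∪ {y} = U.erase x := by
          clear * - hyx'; ext z
          simp only [Finset.mem_union, Finset.mem_erase, Finset.mem_singleton]
          constructor
          · rintro (h | rfl)
            · exact h.2
            · exact Finset.mem_erase.1 hyx'
          · intro h
            by_cases hz : z = y
            · exact Or.inr hz
            · exact Or.inl ⟨hz, h⟩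
        rw [con, e1, (h3x.conn.single hr (by omega) hyx').1] at h5
        omega
      have h7 := Unif.of_conn3_dual hr h3x (by omega) (by rw [h6]; omega)
      have h8 : (((U.erase x).card : ℤ) - 2) = 4 := by omega
      rw [h8] at h7
      exact hF' ((F_self hr ⟨by omega, Or.inr (Or.inl h7)⟩ : F NN3 _ _).of_erase)

end Pool.Agent.QU
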