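import Pool.Agent.QU.Scale
import Pool.Agent.QU.Grp

set_option linter.unusedVariables false
set_option linter.unusedSectionVars false
set_option linter.style.longLine false

/-! Quaternionic matrices of rank three base matroids. -/

open Quaternion

namespace Pool.Agent.QU

theorem unit_star {x : ℍ[ℝ]} (h : ‖x‖ = 1) : x * star x = 1 := by
  rw [← inv_eq_star h, mul_inv_cancel₀ (ne_of_norm_one h)]

theorem norm_one_of_star {x : ℍ[ℝ]} (h : x * star x = 1) : ‖x‖ = 1 := by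
  have h1 : ‖x * star x‖ = 1 := by rw [h, norm_one]
  rw [norm_mul, norm_star] at h1
  have h2 := norm_nonneg x
  nlinarith [sq_nonneg (‖x‖ - 1)]

theorem Tri.star_eq {a : ℍ[ℝ]} (h : Tri a) : star a = 1 - a := by
  have h1 := unit_star h.1
  have h2 := unit_star h.2
  rw [star_sub, star_one] at h2
  have h3 : (a - 1) * (star a - 1) = a * star a - a - star a + 1 := by noncomm_ring
  rw [h3, h1] at h2
  have h4 : star a = 1 - a - (1 - a - star a + 1) + 1 := by abel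
  rw [h4, h2]; abel

theorem Tri.sq {a : ℍ[ℝ]} (h : Tri a) : a * a = a - 1 := by
  have h1 := unit_star h.1
  rw [h.star_eq] at h1
  have h2 : a * a = a - a * (1 - a) := by noncomm_ring
  rw [h2, h1]

theorem Tri.dist {a b : ℍ[ℝ]} (ha : Tri a) (hb : Tri b) (h : ‖a - b‖ = 1) :
    a * b + b * a = a + b - 1 := by
  have h1 := unit_star h
  rw [star_sub, ha.star_eq, hb.star_eq] at h1
  have h2 : (a - b) * (1 - a - (1 - b)) = a * b + b * a - a * a - b * b := by noncomm_ring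
  rw [h2, ha.sq, hb.sq] at h1
  have h3 : a * b + b * a = (a * b + b * a - (a - 1) - (b - 1)) + a + b - 1 - 1 := by abel
  rw [h3, h1]; abel

theorem Tri.of_dist {a b : ℍ[ℝ]} (ha : Tri a) (hb : Tri b) (h : a * b + b * a = a + b - 1) :
    ‖a - b‖ = 1 := by
  apply norm_one_of_star
  rw [star_sub, ha.star_eq, hb.star_eq]
  have h2 : (a - b) * (1 - a - (1 - b)) = a * b + b * a - a * a - b * b := by noncomm_ring
  rw [h2, ha.sq, hb.sq, h]; abel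

theorem P6_core {a a' b b' : ℍ[ℝ]} (ha : Tri a) (ha' : Tri a') (hb : Tri b) (hb' : Tri b')
    (h1 : ‖a - a'‖ = 1) (h2 : ‖a - b‖ = 1)
    (h3 : (b' - 1) - (b - 1) * (a - 1)⁻¹ * (a' - 1) = 0) :
    Spx a b (a * a'⁻¹) ∧ a' = (a * a'⁻¹)⁻¹ * a ∧ b' = (a * a'⁻¹)⁻¹ * b := by
  have hane : a ≠ 0 := ne_of_norm_one ha.1
  have ha'ne : a' ≠ 0 := ne_of_norm_one ha'.1
  set μ := a * a'⁻¹ with hμ
  have m1 : ‖μ‖ = 1 := norm_mul_one ha.1 (norm_inv_one ha'.1)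
  have hμT : Tri μ := by
    refine ⟨m1, ?_⟩
    have : μ - 1 = (a - a') * a'⁻¹ := by rw [sub_mul, mul_inv_cancel₀ ha'ne]
    rw [this]; exact norm_mul_one h1 (norm_inv_one ha'.1)
  have haμ : ‖a - μ‖ = 1 := by
    have : a - μ = a * (a' - 1) * a'⁻¹ := by
      rw [mul_assoc, sub_mul, mul_inv_cancel₀ ha'ne, one_mul, mul_sub, mul_one]
    rw [this]; exact norm_mul_one (norm_mul_one ha.1 ha'.2) (norm_inv_one ha'.1)
  have e1 : (a - 1)⁻¹ * (a' - 1) = μ := by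
    rw [inv_eq_star ha.2, star_sub, star_one, ha.star_eq, hμ, inv_eq_star ha'.1, ha'.star_eq]
    noncomm_ring
  have e2 : b' = 1 + (b - 1) * μ := by
    rw [mul_assoc, e1, sub_eq_zero] at h3
    rw [← h3]; abel
  have s1 := hb'.star_eq
  rw [e2, star_add, star_mul, star_sub, star_one, hb.star_eq, hμT.star_eq] at s1
  have e3 : b * μ + μ * b = b + μ - 1 := by
    have t1 : b * μ + μ * b = (1 + (1 - μ) * (1 - b - 1)) - (1 - (1 + (b - 1) * μ)) + b + μ - 1 := by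
      noncomm_ring
    rw [t1, s1]; abel
  refine ⟨⟨⟨ha, hb, h2⟩, hμT, haμ, Tri.of_dist hb hμT e3⟩, ?_, ?_⟩
  · rw [hμ, mul_inv_rev, inv_inv, mul_assoc, inv_mul_cancel₀ hane, mul_one]
  · rw [inv_eq_star m1, hμT.star_eq, e2]
    have t2 : (1 - μ) * b = 1 + (b - 1) * μ - (b * μ + μ * b) + (b + μ - 1) := by noncomm_ring
    rw [t2, e3]; abel

/-! ### conjugation -/

theorem Tri.conj {a v : ℍ[ℝ]} (h : Tri a) (hv : ‖v‖ = 1) : Tri (v⁻¹ * a * v) := by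
  have hv0 := ne_of_norm_one hv
  refine ⟨norm_mul_one (norm_mul_one (norm_inv_one hv) h.1) hv, ?_⟩
  have : v⁻¹ * a * v - 1 = v⁻¹ * (a - 1) * v := by
    rw [mul_sub, sub_mul, mul_one, inv_mul_cancel₀ hv0]
  rw [this]; exact norm_mul_one (norm_mul_one (norm_inv_one hv) h.2) hv

theorem conj_dist {a b v : ℍ[ℝ]} (h : ‖a - b‖ = 1) (hv : ‖v‖ = 1) :
    ‖v⁻¹ * a * v - v⁻¹ * b * v‖ = 1 := by
  have : v⁻¹ * a * v - v⁻¹ * b * v = v⁻¹ * (a - b) * v := by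
    rw [mul_sub, sub_mul]
  rw [this]; exact norm_mul_one (norm_mul_one (norm_inv_one hv) h) hv

theorem Tet.conj {a b v : ℍ[ℝ]} (h : Tet a b) (hv : ‖v‖ = 1) :
    Tet (v⁻¹ * a * v) (v⁻¹ * b * v) :=
  ⟨h.1.conj hv, h.2.1.conj hv, conj_dist h.2.2 hv⟩

theorem Spx.conj {a b c v : ℍ[ℝ]} (h : Spx a b c) (hv : ‖v‖ = 1) :
    Spx (v⁻¹ * a * v) (v⁻¹ * b * v) (v⁻¹ * c * v) :=
  ⟨h.1.conj hv, h.2.1.conj hv, conj_dist h.2.2.1 hv, conj_dist h.2.2.2 hv⟩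

theorem conj_conj {a g g' : ℍ[ℝ]} (hg : ‖g‖ = 1) :
    (g⁻¹ * g')⁻¹ * (g⁻¹ * a * g) * (g⁻¹ * g') = g'⁻¹ * a * g' := by
  have hg0 := ne_of_norm_one hg
  simp only [mul_inv_rev, inv_inv, mul_assoc, mul_inv_cancel_left₀ hg0]

/-- from one-sided rigidity to normalisation -/
theorem normR_of_rig {R : Subring ℍ[ℝ]} {g g' : ℍ[ℝ]} (hg : ‖g‖ = 1) (hg' : ‖g'‖ = 1)
    (h : ∀ x ∈ R, ‖x‖ = 1 → (g⁻¹ * g')⁻¹ * x * (g⁻¹ * g') ∈ R)
    (h' : ∀ x ∈ R, ‖x‖ = 1 → (g'⁻¹ * g)⁻¹ * x * (g'⁻¹ * g) ∈ R) : NormR R (g⁻¹ * g') := by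
  refine ⟨norm_mul_one (norm_inv_one hg) hg', h, ?_⟩
  intro x hx hx1
  have := h' x hx hx1
  have e : (g'⁻¹ * g)⁻¹ = g⁻¹ * g' := by rw [mul_inv_rev, inv_inv]
  have e' : g'⁻¹ * g = (g⁻¹ * g')⁻¹ := by rw [mul_inv_rev, inv_inv]
  rwa [e, e'] at this

theorem rig_RC {κ g g' : ℍ[ℝ]} (hg : ‖g‖ = 1) (hg' : ‖g'‖ = 1) (hκ : Tri κ)
    (h : g⁻¹ * κ * g ∈ RC) (h' : g'⁻¹ * κ * g' ∈ RC) : NormR RC (g⁻¹ * g') :=
  normR_of_rig hg hg'
    (rigid_RC (hκ.conj hg) h (norm_mul_one (norm_inv_one hg) hg') (by rw [conj_conj hg]; exact h'))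
    (rigid_RC (hκ.conj hg') h' (norm_mul_one (norm_inv_one hg') hg) (by rw [conj_conj hg']; exact h))

theorem rig_RT {κ κ' g g' : ℍ[ℝ]} (hg : ‖g‖ = 1) (hg' : ‖g'‖ = 1) (hκ : Tet κ κ')
    (h1 : g⁻¹ * κ * g ∈ RT) (h1' : g'⁻¹ * κ * g' ∈ RT)
    (h2 : g⁻¹ * κ' * g ∈ RT) (h2' : g'⁻¹ * κ' * g' ∈ RT) : NormR RT (g⁻¹ * g') :=
  normR_of_rig hg hg'
    (rigid_RT (hκ.conj hg) h1 h2 (norm_mul_one (norm_inv_one hg) hg')
      (by rw [conj_conj hg]; exact h1') (by rw [conj_conj hg]; exact h2'))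
    (rigid_RT (hκ.conj hg') h1' h2' (norm_mul_one (norm_inv_one hg') hg)
      (by rw [conj_conj hg']; exact h1) (by rw [conj_conj hg']; exact h2))

theorem rig_RI {κ κ' κ'' g g' : ℍ[ℝ]} (hg : ‖g‖ = 1) (hg' : ‖g'‖ = 1) (hκ : Spx κ κ' κ'')
    (h1 : g⁻¹ * κ * g ∈ RI) (h1' : g'⁻¹ * κ * g' ∈ RI)
    (h2 : g⁻¹ * κ' * g ∈ RI) (h2' : g'⁻¹ * κ' * g' ∈ RI)
    (h3 : g⁻¹ * κ'' * g ∈ RI) (h3' : g'⁻¹ * κ'' * g' ∈ RI) : NormR RI (g⁻¹ * g') :=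
  normR_of_rig hg hg'
    (rigid_RI (hκ.conj hg) h1 h2 h3 (norm_mul_one (norm_inv_one hg) hg')
      (by rw [conj_conj hg]; exact h1') (by rw [conj_conj hg]; exact h2')
      (by rw [conj_conj hg]; exact h3'))
    (rigid_RI (hκ.conj hg') h1' h2' h3' (norm_mul_one (norm_inv_one hg') hg)
      (by rw [conj_conj hg']; exact h1) (by rw [conj_conj hg']; exact h2)
      (by rw [conj_conj hg']; exact h3))

/-! ### normalised 3 by 3 matrices -/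

/-- Schur complements commute with scaling -/
theorem schur_scale {s s' t t' x y z w : ℍ[ℝ]} (hs : s ≠ 0) (ht : t ≠ 0) :
    s' * w * t' - (s' * z * t) * (s * x * t)⁻¹ * (s * y * t') = s' * (w - z * x⁻¹ * y) * t' := by
  rw [mul_sub, sub_mul]
  congr 1
  simp only [mul_inv_rev, mul_assoc, mul_inv_cancel_left₀ ht, inv_mul_cancel_left₀ hs]

/-- the data of a normalised rank three matrix -/
structure N3 (a a' b b' : ℍ[ℝ]) : Prop where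
  ta : Tri a
  ta' : Tri a'
  tb : Tri b
  tb' : Tri b'
  aa' : ‖a - a'‖ = 1
  ab : ‖a - b‖ = 1
  a'b' : ‖a' - b'‖ = 1
  bb' : ‖b - b'‖ = 1
  m : ‖b' - b * a⁻¹ * a'‖ = 1
  det : (b' - 1) - (b - 1) * (a - 1)⁻¹ * (a' - 1) = 0 ∨
    ‖(b' - 1) - (b - 1) * (a - 1)⁻¹ * (a' - 1)‖ = 1

theorem N3.of_mat {N : Fin 3 → Fin 3 → ℍ[ℝ]} (hq : QUS 2 N) (h0 : ∀ j, N 0 j = 1)
    (h0' : ∀ i, N i 0 = 1) (he : ∀ i j, N i j ≠ 0)
    (hm : ∀ i i' j j', i ≠ i' → j ≠ j' → N i' j' - N i' j * (N i j)⁻¹ * N i j' ≠ 0) :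
    N3 (N 1 1) (N 1 2) (N 2 1) (N 2 2) := by
  have hn : ∀ i j, ‖N i j‖ = 1 := fun i j => (hq.1 i j).resolve_left (he i j)
  have hmn : ∀ i i' j j', i ≠ i' → j ≠ j' → ‖N i' j' - N i' j * (N i j)⁻¹ * N i j'‖ = 1 := by
    intro i i' j j' hi hj
    have h1 := (hq.2 i j (he i j)).1 i' j'
    beta_reduce at h1
    rw [if_neg (by rintro (h | h); exact hi h.symm; exact hj h.symm)] at h1
    exact h1.resolve_left (hm i i' j j' hi hj)
  have t : ∀ i j, i ≠ 0 → j ≠ 0 → Tri (N i j) := by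
    intro i j hi hj
    refine ⟨hn i j, ?_⟩
    have := hmn 0 i 0 j (Ne.symm hi) (Ne.symm hj)
    simpa only [h0, h0', inv_one, mul_one] using this
  refine ⟨t 1 1 (by decide) (by decide), t 1 2 (by decide) (by decide), t 2 1 (by decide) (by decide),
    t 2 2 (by decide) (by decide), ?_, ?_, ?_, ?_, ?_, ?_⟩
  · have := hmn 0 1 2 1 (by decide) (by decide)
    simpa only [h0, h0', inv_one, mul_one] using this
  · have := hmn 2 1 0 1 (by decide) (by decide)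
    simpa only [h0, h0', inv_one, mul_one, one_mul] using this
  · have := hmn 2 1 0 2 (by decide) (by decide)
    simpa only [h0, h0', inv_one, mul_one, one_mul] using this
  · have := hmn 0 2 2 1 (by decide) (by decide)
    simpa only [h0, h0', inv_one, mul_one] using this
  · exact hmn 1 2 1 2 (by decide) (by decide)
  · have h2 := hq.2 0 0 (he 0 0)
    have h3 : N 1 1 - 1 ≠ 0 := by
      have := hm 0 1 0 1 (by decide) (by decide)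
      simpa only [h0, h0', inv_one, mul_one] using this
    have h4 := (h2.2 1 1 (by
      simpa only [h0, h0', inv_one, mul_one, Fin.reduceEq, or_self, if_false] using h3)) 2 2
    simpa only [h0, h0', inv_one, mul_one, Fin.reduceEq, or_self, if_false] using h4

/-- normalised matrix of `P₆` -/
theorem N3.P6 {a a' b b' : ℍ[ℝ]} (h : N3 a a' b b')
    (h3 : (b' - 1) - (b - 1) * (a - 1)⁻¹ * (a' - 1) = 0) :
    Spx a b (a * a'⁻¹) ∧ ∃ w : ℍ[ℝ], ‖w‖ = 1 ∧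
      ((w⁻¹ * a * w = p0 ∧ w⁻¹ * b * w = q0 ∧ w⁻¹ * a' * w = r0⁻¹ * p0 ∧
        w⁻¹ * b' * w = r0⁻¹ * q0) ∨
      (w⁻¹ * b * w = p0 ∧ w⁻¹ * a * w = q0 ∧ w⁻¹ * b' * w = r0⁻¹ * p0 ∧
        w⁻¹ * a' * w = r0⁻¹ * q0)) := by
  obtain ⟨h1, h2, h4⟩ := P6_core h.ta h.ta' h.tb h.tb' h.aa' h.ab h3
  refine ⟨h1, ?_⟩
  obtain ⟨w, hw, hc, hab⟩ := conj_Spx h1
  have hw0 := ne_of_norm_one hw
  have hci : w⁻¹ * (a * a'⁻¹)⁻¹ * w = r0⁻¹ := by
    rw [← hc]; simp only [mul_inv_rev, inv_inv, mul_assoc]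
  have e1 : ∀ x, w⁻¹ * ((a * a'⁻¹)⁻¹ * x) * w = r0⁻¹ * (w⁻¹ * x * w) := by
    intro x
    rw [← hci]
    simp only [mul_assoc, mul_inv_cancel_left₀ hw0]
  refine ⟨w, hw, ?_⟩
  rcases hab with ⟨e2, e3⟩ | ⟨e2, e3⟩
  · left
    refine ⟨e2, e3, ?_, ?_⟩
    · rw [h2, e1, e2]
    · rw [h4, e1, e3]
  · right
    refine ⟨e3, e2, ?_, ?_⟩
    · rw [h4, e1, e3]
    · rw [h2, e1, e2]

theorem N3.U36 {a a' b b' : ℍ[ℝ]} (h : N3 a a' b b')
    (h3 : (b' - 1) - (b - 1) * (a - 1)⁻¹ * (a' - 1) ≠ 0) :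
    ∃ w : ℍ[ℝ], ‖w‖ = 1 ∧ w⁻¹ * a * w ∈ RT ∧ w⁻¹ * b * w ∈ RT ∧ w⁻¹ * a' * w ∈ RT ∧
      w⁻¹ * b' * w ∈ RT :=
  U36_mem ⟨h.ta, h.tb, h.ab⟩ h.ta' h.tb' (by rw [norm_sub_rev]; exact h.aa')
    (by rw [norm_sub_rev]; exact h.bb') h.a'b' h.m (h.det.resolve_left h3)

end Pool.Agent.QU
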