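import Mathlib

set_option linter.unusedVariables false
set_option linter.unusedSectionVars false
set_option linter.style.longLine false

/-! Abstract rank functions on finsets, connectivity, minors. -/

namespace Pool.Agent.QU

variable {α : Type*} [DecidableEq α]

/-- A (matroid) rank function, defined on all finsets of `α`. -/
structure RK (r : Finset α → ℤ) : Prop where
  empty : r ∅ = 0
  mono : ∀ A B, A ⊆ B → r A ≤ r B
  step : ∀ A e, r (insert e A) ≤ r A + 1
  sub : ∀ A B, r (A ∪ B) + r (A ∩ B) ≤ r A + r B

/-- Contraction of `K`. -/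
def con (r : Finset α → ℤ) (K : Finset α) (A : Finset α) : ℤ := r (A ∪ K) - r K

/-- Dual rank function relative to the ground set `U`. -/
def dl (U : Finset α) (r : Finset α → ℤ) (A : Finset α) : ℤ := (A.card : ℤ) + r (U \ A) - r U

/-- Connectivity function. -/
def lam (U : Finset α) (r : Finset α → ℤ) (A : Finset α) : ℤ := r A + r (U \ A) - r U

/-- Connected. -/
def Conn (U : Finset α) (r : Finset α → ℤ) : Prop :=
  ∀ A, A ⊆ U → lam U r A ≤ 0 → A = ∅ ∨ A = U

/-- 3-connected. -/
structure Conn3 (U : Finset α) (r : Finset α → ℤ) : Prop where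
  conn : Conn U r
  sep : ∀ A, A ⊆ U → lam U r A ≤ 1 → A.card ≤ 1 ∨ (U \ A).card ≤ 1

/-- Every 2-separation has a side of size two. -/
def Bix (U : Finset α) (r : Finset α → ℤ) : Prop :=
  ∀ A, A ⊆ U → lam U r A ≤ 1 → A.card ≤ 2 ∨ (U \ A).card ≤ 2

namespace RK

variable {r : Finset α → ℤ}

theorem nonneg (h : RK r) (A : Finset α) : 0 ≤ r A := by
  have := h.mono ∅ A (Finset.empty_subset _)
  rw [h.empty] at this; exact this

theorem sub' (h : RK r) {A B C D : Finset α} (hC : C ⊆ A ∪ B) (hD : D ⊆ A ∩ B) :
    r C + r D ≤ r A + r B := by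
  have h1 := h.sub A B
  have h2 := h.mono _ _ hC
  have h3 := h.mono _ _ hD
  omega

theorem union_le_card (h : RK r) (A B : Finset α) : r (A ∪ B) ≤ r A + B.card := by
  induction B using Finset.induction_on with
  | empty => simp
  | insert e B he ih =>
    have h1 : A ∪ insert e B = insert e (A ∪ B) := by grind
    rw [h1, Finset.card_insert_of_notMem he]
    have := h.step (A ∪ B) e
    push_cast
    omega

theorem le_card (h : RK r) (A : Finset α) : r A ≤ A.card := by
  have := h.union_le_card ∅ A
  rw [h.empty] at this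
  simpa using this

theorem single_le (h : RK r) (e : α) : r {e} ≤ 1 := by
  have := h.le_card {e}
  simpa using this

theorem union_le (h : RK r) (A B : Finset α) : r (A ∪ B) ≤ r A + r B := by
  have h1 := h.sub A B
  have h2 := h.nonneg (A ∩ B)
  omega

/-- deleting at most `k` elements drops rank by at most `k`. -/
theorem diff_card (h : RK r) (A B : Finset α) : r A ≤ r (A \ B) + (B.card) := by
  have h1 := h.union_le_card (A \ B) B
  have h2 := h.mono A (A \ B ∪ B) (by grind)
  omega

theorem erase_le (h : RK r) (A : Finset α) (e : α) : r A ≤ r (A.erase e) + 1 := by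
  have h1 := h.step (A.erase e) e
  have h2 := h.mono A (insert e (A.erase e)) (by grind)
  omega

/-- if `e` does not raise the rank of `A` it does not raise the rank of a superset. -/
theorem closure_mono (h : RK r) {A B : Finset α} {e : α} (hAB : A ⊆ B)
    (he : r (insert e A) = r A) : r (insert e B) = r B := by
  have h1 := h.sub' (A := insert e A) (B := B) (C := insert e B) (D := A) (by grind) (by grind)
  have h2 := h.mono B (insert e B) (by grind)
  omega

/-- closure: adding elements of the closure one at a time. -/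
theorem closure_union (h : RK r) {A C : Finset α} (hC : ∀ e ∈ C, r (insert e A) = r A) :
    r (A ∪ C) = r A := by
  induction C using Finset.induction_on with
  | empty => simp
  | insert e C he ih =>
    have ih' := ih (fun e' he' => hC e' (Finset.mem_insert_of_mem he'))
    have h1 : A ∪ insert e C = insert e (A ∪ C) := by grind
    rw [h1, h.closure_mono (A := A) (B := A ∪ C) (by grind) (hC e (Finset.mem_insert_self _ _))]
    exact ih'

end RK

theorem RK.con {r : Finset α → ℤ} (h : RK r) (K : Finset α) : RK (con r K) where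
  empty := by simp [QU.con]
  mono A B hAB := by
    have := h.mono (A ∪ K) (B ∪ K) (by grind)
    simp only [QU.con]; omega
  step A e := by
    have := h.step (A ∪ K) e
    have h1 : insert e A ∪ K = insert e (A ∪ K) := by grind
    simp only [QU.con, h1]; omega
  sub A B := by
    have := h.sub' (A := A ∪ K) (B := B ∪ K) (C := (A ∪ B) ∪ K) (D := (A ∩ B) ∪ K) (by grind) (by grind)
    simp only [QU.con]; omega

theorem RK.dl {r : Finset α → ℤ} (h : RK r) (U : Finset α) : RK (dl U r) where
  empty := by simp [QU.dl]
  mono A B hAB := by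
    have h1 := h.diff_card (U \ A) (B \ A)
    have h2 : (U \ A) \ (B \ A) = U \ B := by grind
    rw [h2] at h1
    have h3 : (B \ A).card + A.card = B.card := by
      rw [Finset.card_sdiff_add_card_eq_card hAB]
    simp only [QU.dl]; omega
  step A e := by
    simp only [QU.dl]
    have h1 := h.mono (U \ insert e A) (U \ A) (by grind)
    have h2 := Finset.card_insert_le e A
    omega
  sub A B := by
    have h1 := h.sub' (A := U \ A) (B := U \ B) (C := U \ (A ∩ B)) (D := U \ (A ∪ B)) (by grind) (by grind)
    have h3 := Finset.card_union_add_card_inter A B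
    simp only [QU.dl]; omega

theorem con_con (r : Finset α → ℤ) (K L : Finset α) : con (con r K) L = con r (K ∪ L) := by
  funext A
  simp only [con]
  have h1 : A ∪ L ∪ K = A ∪ (K ∪ L) := by grind
  have h2 : L ∪ K = K ∪ L := by grind
  rw [h1, h2]; ring

theorem con_empty (r : Finset α → ℤ) (h0 : r ∅ = 0) : con r ∅ = r := by
  funext A; simp [con, h0]

theorem con_single (r : Finset α → ℤ) (e : α) (A : Finset α) :
    con r {e} A = r (insert e A) - r {e} := by
  simp only [con]
  have h1 : A ∪ {e} = insert e A := by grind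
  rw [h1]

/-- double dual -/
theorem dl_dl (U : Finset α) {r : Finset α → ℤ} (h0 : r ∅ = 0) {A : Finset α} (hA : A ⊆ U) :
    dl U (dl U r) A = r A := by
  simp only [dl]
  have h1 : U \ (U \ A) = A := by grind
  have h2 : U \ U = ∅ := by grind
  rw [h1, h2, h0]
  have h3 : (U \ A).card + A.card = U.card := Finset.card_sdiff_add_card_eq_card hA
  omega

theorem lam_compl (U : Finset α) (r : Finset α → ℤ) {A : Finset α} (hA : A ⊆ U) :
    lam U r (U \ A) = lam U r A := by
  simp only [lam]
  have h1 : U \ (U \ A) = A := by grind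
  rw [h1]; ring

theorem lam_dl (U : Finset α) {r : Finset α → ℤ} (h0 : r ∅ = 0) {A : Finset α} (hA : A ⊆ U) :
    lam U (dl U r) A = lam U r A := by
  simp only [lam, dl]
  have h1 : U \ (U \ A) = A := by grind
  have h2 : U \ U = ∅ := by grind
  rw [h1, h2, h0]
  have h3 : (U \ A).card + A.card = U.card := Finset.card_sdiff_add_card_eq_card hA
  omega

theorem lam_congr {U : Finset α} {r r' : Finset α → ℤ} (h : ∀ A, A ⊆ U → r A = r' A)
    {A : Finset α} (hA : A ⊆ U) : lam U r A = lam U r' A := by
  simp only [lam]
  rw [h A hA, h (U \ A) (by grind), h U (by grind)]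

theorem lam_eq (U : Finset α) {r : Finset α → ℤ} (h0 : r ∅ = 0) {A : Finset α} (hA : A ⊆ U) :
    lam U r A = r A + dl U r A - A.card := by
  simp only [lam, dl]; ring

theorem RK.lam_nonneg {r : Finset α → ℤ} (h : RK r) {U A : Finset α} (hA : A ⊆ U) :
    0 ≤ lam U r A := by
  have := h.union_le A (U \ A)
  have h1 : A ∪ U \ A = U := by grind
  rw [h1] at this
  simp only [lam]; omega

theorem Conn.congr {U : Finset α} {r r' : Finset α → ℤ} (h : ∀ A, A ⊆ U → r A = r' A)
    (hc : Conn U r) : Conn U r' := by
  intro A hA hl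
  exact hc A hA (by rw [lam_congr h hA]; exact hl)

theorem Conn3.congr {U : Finset α} {r r' : Finset α → ℤ} (h : ∀ A, A ⊆ U → r A = r' A)
    (hc : Conn3 U r) : Conn3 U r' :=
  ⟨hc.conn.congr h, fun A hA hl => hc.sep A hA (by rw [lam_congr h hA]; exact hl)⟩

theorem Bix.congr {U : Finset α} {r r' : Finset α → ℤ} (h : ∀ A, A ⊆ U → r A = r' A)
    (hc : Bix U r) : Bix U r' :=
  fun A hA hl => hc A hA (by rw [lam_congr h hA]; exact hl)

theorem Conn.dl {U : Finset α} {r : Finset α → ℤ} (h : RK r) (hc : Conn U r) : Conn U (dl U r) := by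
  intro A hA hl
  exact hc A hA (by rwa [lam_dl U h.empty hA] at hl)

theorem Conn3.dl {U : Finset α} {r : Finset α → ℤ} (h : RK r) (hc : Conn3 U r) :
    Conn3 U (dl U r) :=
  ⟨hc.conn.dl h, fun A hA hl => hc.sep A hA (by rwa [lam_dl U h.empty hA] at hl)⟩

theorem Bix.dl {U : Finset α} {r : Finset α → ℤ} (h : RK r) (hc : Bix U r) : Bix U (dl U r) :=
  fun A hA hl => hc A hA (by rwa [lam_dl U h.empty hA] at hl)

theorem Conn3.bix {U : Finset α} {r : Finset α → ℤ} (hc : Conn3 U r) : Bix U r := by
  intro A hA hl
  have := hc.sep A hA hl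
  omega

/-- dual of a deletion is the contraction of the dual -/
theorem dl_erase (U : Finset α) (r : Finset α → ℤ) {e : α} (he : e ∈ U) {A : Finset α}
    (hA : A ⊆ U.erase e) : con (dl U r) {e} A = dl (U.erase e) r A := by
  simp only [con, dl]
  have h1 : A ∪ {e} = insert e A := by grind
  have h2 : e ∉ A := by grind
  have h3 : U \ insert e A = U.erase e \ A := by grind
  have h4 : U \ {e} = U.erase e := by grind
  rw [h1, h3, h4, Finset.card_insert_of_notMem h2]
  simp; ring

/-- dual of a contraction is the deletion in the dual -/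
theorem dl_con (U : Finset α) (r : Finset α → ℤ) {e : α} (he : e ∈ U) {A : Finset α}
    (hA : A ⊆ U.erase e) : dl U r A = dl (U.erase e) (con r {e}) A := by
  simp only [con, dl]
  have h1 : U.erase e \ A ∪ {e} = U \ A := by grind
  have h2 : U.erase e ∪ {e} = U := by grind
  rw [h1, h2]
  ring

end Pool.Agent.QU
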