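import Pool.Agent.QU.Mat

set_option linter.unusedVariables false
set_option linter.unusedSectionVars false
set_option linter.style.longLine false

/-! Frames of rank three chain groups. -/

open Quaternion

namespace Pool.Agent.QU

variable {E : Type*} [Fintype E] [DecidableEq E]

theorem enumF {U : Finset E} {n : ℕ} (h : U.card = n) :
    ∃ x : Fin n → E, Function.Injective x ∧ ∀ e, e ∈ U ↔ ∃ i, x i = e := by
  let φ := (Finset.equivFinOfCardEq h).symm
  refine ⟨fun i => (φ i : E), ?_, ?_⟩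
  · intro i j hij
    exact φ.injective (Subtype.ext hij)
  · intro e
    constructor
    · intro he
      refine ⟨φ.symm ⟨e, he⟩, ?_⟩
      show ((φ (φ.symm ⟨e, he⟩) : U) : E) = e
      rw [Equiv.apply_symm_apply]
    · rintro ⟨i, rfl⟩
      exact (φ i).2

theorem Frame.rk_swap3 {V : CG E} {B : Finset E} {f} (h : Frame V B f) {x0 x1 x2 y0 y1 y2 : E}
    (hx0 : x0 ∈ B) (hx1 : x1 ∈ B) (hx2 : x2 ∈ B) (h01 : x0 ≠ x1) (h02 : x0 ≠ x2) (h12 : x1 ≠ x2)
    (hy0 : y0 ∉ B) (hy1 : y1 ∉ B) (hy : y0 ≠ y1) (h00 : f x0 y0 ≠ 0)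
    (h11 : f x1 y1 - f x1 y0 * (f x0 y0)⁻¹ * f x0 y1 ≠ 0) :
    rk V (insert y2 (insert y1 (insert y0 (((B.erase x0).erase x1).erase x2)))) = (B.card : ℤ) ↔
      (f x2 y2 - f x2 y0 * (f x0 y0)⁻¹ * f x0 y2) - (f x2 y1 - f x2 y0 * (f x0 y0)⁻¹ * f x0 y1) *
        (f x1 y1 - f x1 y0 * (f x0 y0)⁻¹ * f x0 y1)⁻¹ *
        (f x1 y2 - f x1 y0 * (f x0 y0)⁻¹ * f x0 y2) ≠ 0 := by
  have h1 := h.pivot hx0 hy0 h00
  have hx1y : x1 ≠ y0 := fun h => hy0 (h ▸ hx1)
  have hx2y : x2 ≠ y0 := fun h => hy0 (h ▸ hx2)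
  have m1 : x1 ∈ insert y0 (B.erase x0) := by
    rw [Finset.mem_insert, Finset.mem_erase]; exact Or.inr ⟨h01.symm, hx1⟩
  have m2 : x2 ∈ insert y0 (B.erase x0) := by
    rw [Finset.mem_insert, Finset.mem_erase]; exact Or.inr ⟨h02.symm, hx2⟩
  have m3 : y1 ∉ insert y0 (B.erase x0) := by
    rw [Finset.mem_insert, Finset.mem_erase]
    rintro (h | h)
    · exact hy h.symm
    · exact hy1 h.2
  have h2 := h1.rk_swap2 (a := x1) (b := x2) (c := y1) (d := y2) m1 m2 h12 m3
    (by rw [if_neg hx1y]; exact h11)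
  simp only [if_neg hx1y, if_neg hx2y] at h2
  have h3 : ((insert y0 (B.erase x0)).erase x1).erase x2 =
      insert y0 (((B.erase x0).erase x1).erase x2) := by
    rw [Finset.erase_insert_of_ne hx1y.symm, Finset.erase_insert_of_ne hx2y.symm]
  have h4 : (insert y0 (B.erase x0)).card = B.card := by
    rw [Finset.card_insert_of_notMem (fun h => hy0 (Finset.mem_of_mem_erase h)),
      Finset.card_erase_of_mem hx0]
    have := Finset.card_pos.2 ⟨x0, hx0⟩
    omega
  rw [h3, h4] at h2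
  exact h2

/-- frames with all entries and all two by two minors nonzero -/
theorem frame3 {V : CG E} {U : Finset E} (hU : SuppIn V U) (hV : IsQU V) {x y : Fin 3 → E}
    (hx : Function.Injective x) (hy : Function.Injective y) (hxy : ∀ i j, x i ≠ y j)
    {B : Finset E} (hB : ∀ e, e ∈ B ↔ ∃ i, x i = e) (hyU : ∀ j, y j ∈ U) {f}
    (hf : Frame V B f) (h3 : ∀ A, A ⊆ U → A.card = 3 → (∃ i, x i ∈ A) → rk V A = 3) :
    (∀ i j, f (x i) (y j) ≠ 0) ∧
    N3 (kap f (x 0) (y 0) (x 1) (y 1)) (kap f (x 0) (y 0) (x 1) (y 2))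
      (kap f (x 0) (y 0) (x 2) (y 1)) (kap f (x 0) (y 0) (x 2) (y 2)) ∧
    (rk V {y 0, y 1, y 2} = 3 ↔
      (kap f (x 0) (y 0) (x 2) (y 2) - 1) - (kap f (x 0) (y 0) (x 2) (y 1) - 1) *
        (kap f (x 0) (y 0) (x 1) (y 1) - 1)⁻¹ * (kap f (x 0) (y 0) (x 1) (y 2) - 1) ≠ 0) := by
  have hxB : ∀ i, x i ∈ B := fun i => (hB _).2 ⟨i, rfl⟩
  have hBU := hf.subset hU
  have hyB : ∀ j, y j ∉ B := by
    intro j h
    obtain ⟨i, hi⟩ := (hB _).1 h
    exact hxy i j hi
  have hBe : B = {x 0, x 1, x 2} := by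
    ext e
    rw [hB, Fin.exists_fin_succ, Fin.exists_fin_two]
    simp only [Finset.mem_insert, Finset.mem_singleton]
    constructor
    · rintro (h | h | h)
      · exact Or.inl h.symm
      · exact Or.inr (Or.inl h.symm)
      · exact Or.inr (Or.inr h.symm)
    · rintro (h | h | h)
      · exact Or.inl h.symm
      · exact Or.inr (Or.inl h.symm)
      · exact Or.inr (Or.inr h.symm)
  have hne : ∀ i j, i ≠ j → x i ≠ x j := fun i j h h' => h (hx h')
  have hney : ∀ i j, i ≠ j → y i ≠ y j := fun i j h h' => h (hy h')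
  have hBc : B.card = 3 := by
    rw [hBe, Finset.card_insert_of_notMem, Finset.card_pair (hne 1 2 (by decide))]
    simp only [Finset.mem_insert, Finset.mem_singleton, not_or]
    exact ⟨hne 0 1 (by decide), hne 0 2 (by decide)⟩
  -- entries
  have he : ∀ i j, f (x i) (y j) ≠ 0 := by
    intro i j
    rw [← hf.rk_swap (hxB i), hBc]
    apply h3
    · exact Finset.insert_subset (hyU j) ((Finset.erase_subset _ _).trans hBU)
    · rw [Finset.card_insert_of_notMem (fun h => hyB j (Finset.mem_of_mem_erase h)),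
        Finset.card_erase_of_mem (hxB i), hBc]
    · obtain ⟨k, hk⟩ : ∃ k : Fin 3, k ≠ i := by
        fin_cases i
        · exact ⟨1, by decide⟩
        · exact ⟨0, by decide⟩
        · exact ⟨0, by decide⟩
      exact ⟨k, Finset.mem_insert_of_mem (Finset.mem_erase.2 ⟨hne k i hk, hxB k⟩)⟩
  have hm : ∀ i i' j j', i ≠ i' → j ≠ j' →
      f (x i') (y j') - f (x i') (y j) * (f (x i) (y j))⁻¹ * f (x i) (y j') ≠ 0 := by
    intro i i' j j' hi hj
    rw [← hf.rk_swap2 (hxB i) (hxB i') (hne _ _ hi) (hyB j) (he i j), hBc]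
    have m1 : x i' ∈ B.erase (x i) := Finset.mem_erase.2 ⟨hne _ _ hi.symm, hxB i'⟩
    apply h3
    · exact Finset.insert_subset (hyU j') (Finset.insert_subset (hyU j)
        ((Finset.erase_subset _ _).trans ((Finset.erase_subset _ _).trans hBU)))
    · rw [Finset.card_insert_of_notMem, Finset.card_insert_of_notMem,
        Finset.card_erase_of_mem m1, Finset.card_erase_of_mem (hxB i), hBc]
      · intro h
        exact hyB j (Finset.mem_of_mem_erase (Finset.mem_of_mem_erase h))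
      · rw [Finset.mem_insert]
        rintro (h | h)
        · exact hj (hy h).symm
        · exact hyB j' (Finset.mem_of_mem_erase (Finset.mem_of_mem_erase h))
    · obtain ⟨k, hk, hk'⟩ : ∃ k : Fin 3, k ≠ i ∧ k ≠ i' := by
        clear * -
        revert i i'; decide
      exact ⟨k, Finset.mem_insert_of_mem (Finset.mem_insert_of_mem (Finset.mem_erase.2
        ⟨hne _ _ hk', Finset.mem_erase.2 ⟨hne _ _ hk, hxB k⟩⟩))⟩
  have hn : ∀ i j, ‖f (x i) (y j)‖ = 1 := fun i j => (hf.qu hV (hxB i) (y j)).resolve_left (he i j)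
  -- the scaled matrix
  set s : Fin 3 → ℍ[ℝ] := fun i => f (x 0) (y 0) * (f (x i) (y 0))⁻¹ with hs
  set t : Fin 3 → ℍ[ℝ] := fun j => (f (x 0) (y j))⁻¹ with ht
  have hs1 : ∀ i, ‖s i‖ = 1 := fun i => norm_mul_one (hn 0 0) (norm_inv_one (hn i 0))
  have ht1 : ∀ i, ‖t i‖ = 1 := fun i => norm_inv_one (hn 0 i)
  have hs0 : ∀ i, s i ≠ 0 := fun i => ne_of_norm_one (hs1 i)
  have ht0 : ∀ i, t i ≠ 0 := fun i => ne_of_norm_one (ht1 i)
  have hkap : ∀ i j, kap f (x 0) (y 0) (x i) (y j) = s i * f (x i) (y j) * t j := fun i j => rfl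
  have hq : QUS 2 (fun i j => s i * f (x i) (y j) * t j) :=
    QUS.scale 2 hs1 ht1 (hf.qus hV x y hx hy hxB hyB 2)
  have k0 : ∀ j, s 0 * f (x 0) (y j) * t j = 1 := fun j => by
    rw [← hkap]; exact kap_one' (he 0 0) (he 0 j)
  have k0' : ∀ i, s i * f (x i) (y 0) * t 0 = 1 := fun i => by
    rw [← hkap]; exact kap_one (he 0 0) (he i 0)
  refine ⟨he, ?_, ?_⟩
  · have := N3.of_mat hq k0 k0' (fun i j => mul_ne_zero (mul_ne_zero (hs0 i) (he i j)) (ht0 j))
      (fun i i' j j' hi hj => by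
        rw [schur_scale (hs0 i) (ht0 j)]
        exact mul_ne_zero (mul_ne_zero (hs0 i') (hm i i' j j' hi hj)) (ht0 j'))
    exact this
  · have h5 := hf.rk_swap3 (y2 := y 2) (hxB 0) (hxB 1) (hxB 2) (hne 0 1 (by decide))
      (hne 0 2 (by decide)) (hne 1 2 (by decide)) (hyB 0) (hyB 1) (hney 0 1 (by decide)) (he 0 0)
      (hm 0 1 0 1 (by decide) (by decide))
    have e1 : (insert (y 2) (insert (y 1) (insert (y 0) (((B.erase (x 0)).erase (x 1)).erase (x 2)))) :
        Finset E) = {y 0, y 1, y 2} := by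
      have : ((B.erase (x 0)).erase (x 1)).erase (x 2) = ∅ := by
        rw [hBe]; clear * -
        ext z
        simp only [Finset.mem_erase, Finset.mem_insert, Finset.mem_singleton, Finset.notMem_empty,
          iff_false]
        tauto
      rw [this]; clear * -
      ext z
      simp only [Finset.mem_insert, Finset.mem_singleton, Finset.notMem_empty]
      tauto
    rw [e1, hBc] at h5
    have h6 : (kap f (x 0) (y 0) (x 2) (y 2) - 1) - (kap f (x 0) (y 0) (x 2) (y 1) - 1) *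
        (kap f (x 0) (y 0) (x 1) (y 1) - 1)⁻¹ * (kap f (x 0) (y 0) (x 1) (y 2) - 1) =
        s 2 * ((f (x 2) (y 2) - f (x 2) (y 0) * (f (x 0) (y 0))⁻¹ * f (x 0) (y 2)) -
        (f (x 2) (y 1) - f (x 2) (y 0) * (f (x 0) (y 0))⁻¹ * f (x 0) (y 1)) *
        (f (x 1) (y 1) - f (x 1) (y 0) * (f (x 0) (y 0))⁻¹ * f (x 0) (y 1))⁻¹ *
        (f (x 1) (y 2) - f (x 1) (y 0) * (f (x 0) (y 0))⁻¹ * f (x 0) (y 2))) * t 2 := by
      rw [← schur_scale (hs0 1) (ht0 1)]
      simp only [hkap]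
      have e2 : ∀ i j, s i * (f (x i) (y j) - f (x i) (y 0) * (f (x 0) (y 0))⁻¹ * f (x 0) (y j)) *
          t j = s i * f (x i) (y j) * t j - 1 := by
        intro i j
        rw [← schur_scale (hs0 0) (ht0 0), k0, k0', k0, inv_one, mul_one, mul_one]
      rw [e2, e2, e2, e2]
    rw [h6]
    constructor
    · intro h
      exact mul_ne_zero (mul_ne_zero (hs0 2) (h5.1 (by exact_mod_cast h))) (ht0 2)
    · intro h
      have := h5.2 (fun h0 => h (by rw [h0]; simp))
      exact_mod_cast this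

end Pool.Agent.QU
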