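import Pool.Agent.QU.Level0

set_option linter.unusedVariables false
set_option linter.unusedSectionVars false
set_option linter.style.longLine false

/-! Scaling of frames, loop elements, gauges from matrices. -/

open Quaternion

namespace Pool.Agent.QU

theorem QUS.scale {m n : Type*} [DecidableEq m] [DecidableEq n] (k : ℕ) :
    ∀ {A : m → n → ℍ[ℝ]} {s : m → ℍ[ℝ]} {t : n → ℍ[ℝ]}, (∀ i, ‖s i‖ = 1) → (∀ j, ‖t j‖ = 1) →
    QUS k A → QUS k (fun i j => s i * A i j * t j) := by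
  have key : ∀ {A : m → n → ℍ[ℝ]} {s : m → ℍ[ℝ]} {t : n → ℍ[ℝ]}, (∀ i, ‖s i‖ = 1) →
      (∀ j, ‖t j‖ = 1) → (∀ i j, A i j = 0 ∨ ‖A i j‖ = 1) →
      ∀ i j, s i * A i j * t j = 0 ∨ ‖s i * A i j * t j‖ = 1 := by
    intro A s t hs ht h i j
    rcases h i j with h | h
    · left; rw [h]; simp
    · right; rw [norm_mul, norm_mul, hs, ht, h]; norm_num
  induction k with
  | zero => intro A s t hs ht h; exact key hs ht h
  | succ k ih =>
    intro A s t hs ht h
    refine ⟨key hs ht h.1, ?_⟩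
    intro i j hij
    have hij' : A i j ≠ 0 := by rintro h0; apply hij; simp [h0]
    have h2 := ih hs ht (h.2 i j hij')
    convert h2 using 1
    funext i' j'
    by_cases hc : i' = i ∨ j' = j
    · rw [if_pos hc, if_pos hc]; simp
    · rw [if_neg hc, if_neg hc]
      have hs0 : s i ≠ 0 := ne_of_norm_one (hs i)
      have ht0 : t j ≠ 0 := ne_of_norm_one (ht j)
      rw [mul_sub, sub_mul]
      congr 1
      simp only [mul_inv_rev, mul_assoc, mul_inv_cancel_left₀ ht0, inv_mul_cancel_left₀ hs0]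

variable {E : Type*} [Fintype E] [DecidableEq E]

/-- gauge from a scaled frame matrix -/
theorem Gauged.of_scale {R : Subring ℍ[ℝ]} (hR : ∀ x ∈ R, star x ∈ R) {V : CG E} {U : Finset E}
    (hU : SuppIn V U) (hV : IsQU V) {B : Finset E} {f} (hf : Frame V B f) {s t : E → ℍ[ℝ]}
    (hs : ∀ b ∈ B, ‖s b‖ = 1) (ht : ∀ y ∈ U \ B, ‖t y‖ = 1)
    (h : ∀ b ∈ B, ∀ y ∈ U \ B, s b * f b y * t y ∈ R) :
    ∃ g, Gauged R V g ∧ (∀ b ∈ B, g b = (s b)⁻¹) ∧ ∀ y ∈ U \ B, g y = t y := by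
  classical
  refine ⟨fun e => if e ∈ B then (s e)⁻¹ else if e ∈ U \ B then t e else 1,
    Gauged.of_frame hR hV hf ?_ ?_, ?_, ?_⟩
  · intro e
    by_cases he : e ∈ B
    · simp only [he, if_true]; exact norm_inv_one (hs e he)
    · simp only [he, if_false]
      by_cases he' : e ∈ U \ B
      · rw [if_pos he']; exact ht e he'
      · rw [if_neg he']; simp
  · intro b hb y
    simp only [hb, if_true, inv_inv]
    by_cases hy : y ∈ B
    · simp only [hy, if_true]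
      by_cases hby : b = y
      · subst hby
        rw [hf.one b hb, mul_one, mul_inv_cancel₀ (ne_of_norm_one (hs b hb))]; exact R.one_mem
      · rw [hf.zero b hb y hy hby]; simp
    · simp only [hy, if_false]
      by_cases hyU : y ∈ U
      · have hy' : y ∈ U \ B := Finset.mem_sdiff.2 ⟨hyU, hy⟩
        rw [if_pos hy']; exact h b hb y hy'
      · rw [hU _ (hf.mem b hb) y hyU]; simp
  · intro b hb; simp only [hb, if_true]
  · intro y hy
    have := (Finset.mem_sdiff.1 hy).2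
    simp only [this, if_false]
    rw [if_pos hy]

/-- the loop element through `x0, y, x, y0` -/
noncomputable def kap (f : E → E → ℍ[ℝ]) (x0 y0 x y : E) : ℍ[ℝ] :=
  f x0 y0 * (f x y0)⁻¹ * f x y * (f x0 y)⁻¹

theorem kap_one {f : E → E → ℍ[ℝ]} {x0 y0 x : E} (h : f x0 y0 ≠ 0) (h' : f x y0 ≠ 0) :
    kap f x0 y0 x y0 = 1 := by
  rw [kap, mul_assoc (f x0 y0), inv_mul_cancel₀ h', mul_one, mul_inv_cancel₀ h]

theorem kap_one' {f : E → E → ℍ[ℝ]} {x0 y0 y : E} (h : f x0 y0 ≠ 0) (h' : f x0 y ≠ 0) :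
    kap f x0 y0 x0 y = 1 := by
  rw [kap, mul_inv_cancel₀ h, one_mul, mul_inv_cancel₀ h']

/-- loop elements lie in the conjugated ring -/
theorem Gauged.loop {R : Subring ℍ[ℝ]} (hR : ∀ x ∈ R, star x ∈ R) {V : CG E} (hV : IsQU V)
    {g : E → ℍ[ℝ]} (hg : Gauged R V g) {B : Finset E} {f} (hf : Frame V B f) {x0 y0 x y : E}
    (hx0 : x0 ∈ B) (hx : x ∈ B) (h1 : f x y0 ≠ 0) (h2 : f x0 y ≠ 0) :
    (g x0)⁻¹ * kap f x0 y0 x y * g x0 ∈ R := by
  have hn : ∀ e, g e ≠ 0 := fun e => ne_of_norm_one (hg.1 e)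
  have e1 := hg.entry hf hx0 y0
  have e2 := inv_memR hR (hg.entry hf hx y0) (entry_norm hV hg.1 hg.1 hf hx h1)
  have e3 := hg.entry hf hx y
  have e4 := inv_memR hR (hg.entry hf hx0 y) (entry_norm hV hg.1 hg.1 hf hx0 h2)
  have e5 := R.mul_mem (R.mul_mem (R.mul_mem e1 e2) e3) e4
  have e6 : (g x0)⁻¹ * kap f x0 y0 x y * g x0 = (g x0)⁻¹ * f x0 y0 * g y0 *
      ((g x)⁻¹ * f x y0 * g y0)⁻¹ * ((g x)⁻¹ * f x y * g y) * ((g x0)⁻¹ * f x0 y * g y)⁻¹ := by
    simp only [kap, mul_inv_rev, inv_inv, mul_assoc, mul_inv_cancel_left₀ (hn _)]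
  rw [e6]; exact e5

/-- gauges from loop elements -/
theorem gauge_of_kap {R : Subring ℍ[ℝ]} (hR : ∀ x ∈ R, star x ∈ R) {V : CG E} {U : Finset E}
    (hU : SuppIn V U) (hV : IsQU V) {B : Finset E} {f} (hf : Frame V B f) {x0 y0 : E}
    (hx0 : x0 ∈ B) (hy0 : y0 ∈ U \ B) (hrow : ∀ y ∈ U \ B, f x0 y ≠ 0)
    (hcol : ∀ x ∈ B, f x y0 ≠ 0) {w : ℍ[ℝ]} (hw : ‖w‖ = 1)
    (hk : ∀ x ∈ B, ∀ y ∈ U \ B, w⁻¹ * kap f x0 y0 x y * w ∈ R) : ∃ g, Gauged R V g := by
  obtain ⟨g, hg, -⟩ := Gauged.of_scale hR hU hV hf (s := fun x => w⁻¹ * f x0 y0 * (f x y0)⁻¹)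
    (t := fun y => (f x0 y)⁻¹ * w)
    (fun b hb => norm_mul_one (norm_mul_one (norm_inv_one hw)
      ((hf.qu hV hx0 y0).resolve_left (hcol x0 hx0)))
      (norm_inv_one ((hf.qu hV hb y0).resolve_left (hcol b hb))))
    (fun y hy => norm_mul_one (norm_inv_one ((hf.qu hV hx0 y).resolve_left (hrow y hy))) hw)
    (fun b hb y hy => by
      have := hk b hb y hy
      simpa only [kap, mul_assoc] using this)
  exact ⟨g, hg⟩

/-- two by two minors have norm zero or one -/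
theorem Frame.qu2 {V : CG E} (hV : IsQU V) {B : Finset E} {f} (hf : Frame V B f) {a b c : E}
    (ha : a ∈ B) (hb : b ∈ B) (hab : a ≠ b) (hc : c ∉ B) (hac : f a c ≠ 0) (d : E) :
    f b d - f b c * (f a c)⁻¹ * f a d = 0 ∨ ‖f b d - f b c * (f a c)⁻¹ * f a d‖ = 1 := by
  have h1 := hf.pivot ha hc hac
  have hbc : b ≠ c := fun h => hc (h ▸ hb)
  have h2 := h1.qu hV (x := b) (by
    rw [Finset.mem_insert, Finset.mem_erase]; exact Or.inr ⟨hab.symm, hb⟩) d
  rwa [if_neg hbc] at h2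

theorem kap_sub {f : E → E → ℍ[ℝ]} {x0 y0 x y y' : E} (h2 : f x0 y ≠ 0) (h3 : f x0 y' ≠ 0) :
    kap f x0 y0 x y' - kap f x0 y0 x y =
      f x0 y0 * (f x y0)⁻¹ * (f x y' - f x y * (f x0 y)⁻¹ * f x0 y') * (f x0 y')⁻¹ := by
  simp only [kap, mul_sub, sub_mul]
  congr 1
  simp only [mul_assoc, mul_inv_cancel₀ h3, mul_one]

/-! ### rank two -/

/-- data of a rank two uniform chain group -/
theorem rank2_data {V : CG E} {U : Finset E} (hU : SuppIn V U) (hV : IsQU V)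
    (hu : Unif 2 U (rk V)) {a b c : E} (ha : a ∈ U) (hb : b ∈ U) (hc : c ∈ U) (hab : a ≠ b)
    (hac : a ≠ c) (hbc : b ≠ c) :
    ∃ κ : E → ℍ[ℝ], κ c = 1 ∧ (∀ d ∈ U \ {a, b}, ‖κ d‖ = 1) ∧
      (∀ d ∈ U \ {a, b}, ∀ d' ∈ U \ {a, b}, d ≠ d' → ‖κ d - κ d'‖ = 1) ∧
      (∀ R : Subring ℍ[ℝ], (∀ x ∈ R, star x ∈ R) → ∀ w : ℍ[ℝ], ‖w‖ = 1 →
        (∀ d ∈ U \ {a, b}, w⁻¹ * κ d * w ∈ R) → ∃ g, Gauged R V g) ∧
      (∀ R : Subring ℍ[ℝ], (∀ x ∈ R, star x ∈ R) → ∀ g, Gauged R V g →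
        ∀ d ∈ U \ {a, b}, (g a)⁻¹ * κ d * g a ∈ R) := by
  have hr := rk_RK V
  have hpair : ∀ s ∈ U, ∀ t ∈ U, s ≠ t → rk V {s, t} = 2 := by
    intro s hs t ht hst
    have : ({s, t} : Finset E) ⊆ U := by
      intro z hz; simp only [Finset.mem_insert, Finset.mem_singleton] at hz
      rcases hz with rfl | rfl <;> assumption
    rw [hu _ this, Finset.card_pair hst]; rfl
  have hUU : rk V U = 2 := by
    rw [hu U (Finset.Subset.refl _)]
    have : ({a, b} : Finset E) ⊆ U := by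
      intro z hz; simp only [Finset.mem_insert, Finset.mem_singleton] at hz
      rcases hz with rfl | rfl <;> assumption
    have := Finset.card_le_card this
    rw [Finset.card_pair hab] at this
    omega
  obtain ⟨f, hf⟩ := exists_frame_of_basis (V := V) (U := U) (B := {a, b}) hU
    (by rw [hpair a ha b hb hab, Finset.card_pair hab]; rfl)
    (by rw [hpair a ha b hb hab, hUU])
  have haB : a ∈ ({a, b} : Finset E) := by simp
  have hbB : b ∈ ({a, b} : Finset E) := by simp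
  have hcB : c ∈ U \ {a, b} := by
    simp only [Finset.mem_sdiff, Finset.mem_insert, Finset.mem_singleton, not_or]
    exact ⟨hc, hac.symm, hbc.symm⟩
  have e1 : ({a, b} : Finset E).erase a = {b} := by
    rw [Finset.erase_insert]; simpa using hab
  have e2 : ({a, b} : Finset E).erase b = {a} := by
    rw [Finset.pair_comm, Finset.erase_insert]; simpa using hab.symm
  have hfa : ∀ d ∈ U \ {a, b}, f a d ≠ 0 := by
    intro d hd
    simp only [Finset.mem_sdiff, Finset.mem_insert, Finset.mem_singleton, not_or] at hd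
    rw [← hf.rk_swap haB, e1, Finset.card_pair hab]
    exact hpair d hd.1 b hb hd.2.2
  have hfb : ∀ d ∈ U \ {a, b}, f b d ≠ 0 := by
    intro d hd
    simp only [Finset.mem_sdiff, Finset.mem_insert, Finset.mem_singleton, not_or] at hd
    rw [← hf.rk_swap hbB, e2, Finset.card_pair hab]
    exact hpair d hd.1 a ha hd.2.1
  have hnot : ∀ d ∈ U \ {a, b}, d ∉ ({a, b} : Finset E) := fun d hd => (Finset.mem_sdiff.1 hd).2
  have hn : ∀ x ∈ ({a, b} : Finset E), ∀ y, f x y ≠ 0 → ‖f x y‖ = 1 :=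
    fun x hx y h => (hf.qu hV hx y).resolve_left h
  refine ⟨fun d => kap f a c b d, kap_one (hfa c hcB) (hfb c hcB), ?_, ?_, ?_, ?_⟩
  · intro d hd
    exact norm_mul_one (norm_mul_one (norm_mul_one (hn a haB c (hfa c hcB))
      (norm_inv_one (hn b hbB c (hfb c hcB)))) (hn b hbB d (hfb d hd)))
      (norm_inv_one (hn a haB d (hfa d hd)))
  · intro d hd d' hd' hdd
    rw [norm_sub_rev, kap_sub (hfa d hd) (hfa d' hd')]
    have h1 := hf.qu2 hV haB hbB hab (hnot d hd) (hfa d hd) d'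
    have h2 : f b d' - f b d * (f a d)⁻¹ * f a d' ≠ 0 := by
      rw [← hf.rk_swap2 haB hbB hab (hnot d hd) (hfa d hd)]
      have e3 : (({a, b} : Finset E).erase a).erase b = ∅ := by rw [e1]; simp
      rw [e3, Finset.card_pair hab]
      have := hpair d' (Finset.mem_sdiff.1 hd').1 d (Finset.mem_sdiff.1 hd).1 hdd.symm
      exact this
    exact norm_mul_one (norm_mul_one (norm_mul_one (hn a haB c (hfa c hcB))
      (norm_inv_one (hn b hbB c (hfb c hcB)))) (h1.resolve_left h2))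
      (norm_inv_one (hn a haB d' (hfa d' hd')))
  · intro R hR w hw hk
    refine gauge_of_kap hR hU hV hf haB hcB hfa ?_ hw ?_
    · intro x hx
      simp only [Finset.mem_insert, Finset.mem_singleton] at hx
      rcases hx with rfl | rfl
      · exact hfa c hcB
      · exact hfb c hcB
    · intro x hx y hy
      simp only [Finset.mem_insert, Finset.mem_singleton] at hx
      rcases hx with rfl | rfl
      · rw [kap_one' (hfa c hcB) (hfa y hy), mul_one, inv_mul_cancel₀ (ne_of_norm_one hw)]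
        exact R.one_mem
      · exact hk y hy
  · intro R hR g hg d hd
    exact hg.loop hR hV hf haB hbB (hfb c hcB) (hfa d hd)

end Pool.Agent.QU
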