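import Pool.Agent.QU.Conn

set_option linter.unusedVariables false
set_option linter.unusedSectionVars false
set_option linter.style.longLine false

/-! Lemma W1: there is an element whose deletion or contraction is 3-connected up to
series-parallel pairs and keeps the minor. -/

namespace Pool.Agent.QU

variable {α : Type*} [DecidableEq α] {U : Finset α} {r : Finset α → ℤ}
variable {NN : Finset α → (Finset α → ℤ) → Prop}

/-- conclusion of W1 -/
def W1C (NN : Finset α → (Finset α → ℤ) → Prop) (U : Finset α) (r : Finset α → ℤ) : Prop :=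
  ∃ t ∈ U, (Bix (U.erase t) r ∧ F NN (U.erase t) r) ∨
    (Bix (U.erase t) (con r {t}) ∧ F NN (U.erase t) (con r {t}))

/-- all elements of `A` are coloops of `A` or in a small set -/
theorem indep_of_coloops (hr : RK r) {A C : Finset α} (hC : C ⊆ A) (hC1 : C.card ≤ 1)
    (hCr : ∀ t ∈ C, r {t} = 1) (h : ∀ t ∈ A, t ∉ C → r (A.erase t) < r A) : r A = A.card := by
  -- for every X ⊆ A \ C : r (A \ X) + |X| ≤ r A
  have key : ∀ X : Finset α, X ⊆ A \ C → r (A \ X) + X.card ≤ r A := by
    intro X
    induction X using Finset.induction_on with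
    | empty => intro _; simp
    | insert t X ht ih =>
      intro hX
      have h1 := ih (by grind)
      have htA : t ∈ A := by grind
      have htC : t ∉ C := by grind
      have h2 := h t htA htC
      have h3 := hr.sub' (A := A \ X) (B := A.erase t) (C := A) (D := A \ insert t X)
        (by intro z hz; grind) (by intro z hz; grind)
      rw [Finset.card_insert_of_notMem ht]
      push_cast
      omega
  have h1 := key (A \ C) (Finset.Subset.refl _)
  have h2 : A \ (A \ C) = C := by rw [Finset.sdiff_sdiff_eq_self hC]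
  rw [h2] at h1
  have h3 : r C = C.card := by
    rcases Nat.lt_or_ge C.card 1 with h4 | h4
    · have : C = ∅ := by rw [← Finset.card_eq_zero]; omega
      rw [this, hr.empty]; simp
    · obtain ⟨t, ht⟩ := Finset.card_eq_one.1 (show C.card = 1 by omega)
      rw [ht, hCr t (by rw [ht]; simp)]; simp
  have h4 := Finset.card_sdiff_add_card_eq_card hC
  have h5 := hr.le_card A
  omega

theorem W1_del (hN : NNax NN) (hr : RK r) (h3 : Conn3 U r) {e : α} (he : e ∈ U)
    (hF : F NN (U.erase e) r) : W1C NN U r := by
  by_cases hB : Bix (U.erase e) r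
  · exact ⟨e, he, Or.inl ⟨hB, hF⟩⟩
  obtain ⟨S, K, hS, hK, hSK, hNN⟩ := hF
  simp only [Bix, not_forall, not_or, not_le] at hB
  obtain ⟨A', hA', hl', hA3', hB3'⟩ := hB
  -- WLOG small side
  have : ∃ A, A ⊆ U.erase e ∧ lam (U.erase e) r A ≤ 1 ∧ 3 ≤ A.card ∧
      3 ≤ (U.erase e \ A).card ∧ (S ∩ A).card ≤ 1 := by
    rcases small_side hN hr hS hK hNN hA' hl' with h | h
    · exact ⟨A', hA', hl', by omega, by omega, h⟩
    · refine ⟨U.erase e \ A', Finset.sdiff_subset, by rw [lam_compl _ _ hA']; exact hl', by omega,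
        ?_, h⟩
      rw [Finset.sdiff_sdiff_eq_self hA']; omega
  clear hA3' hB3' hl' hA'
  obtain ⟨A, hA, hl, hA3, hB3, hSA⟩ := this
  obtain ⟨B, hB⟩ : ∃ B, B = U.erase e \ A := ⟨_, rfl⟩
  have hcard := card_compl hA
  rw [Finset.card_erase_of_mem he] at hcard
  have hU4 : 4 ≤ U.card := by omega
  have hce := h3.conn_del hr hU4 he
  obtain ⟨re, rUe⟩ := h3.conn.single hr (by omega) he
  have hAB : Disjoint A B := by rw [hB]; exact Finset.disjoint_sdiff
  have hABU : A ∪ B = U.erase e := by rw [hB]; exact Finset.union_sdiff_of_subset hA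
  have hBA : B ∪ A = U.erase e := by rw [Finset.union_comm]; exact hABU
  rw [← hB] at hB3 hcard
  have hl1 : pc r B A = 1 := by
    have h1 := hce.one_le (A := A) hA (Finset.card_pos.1 (by omega)) (by
      rw [← hB]; exact Finset.card_pos.1 (by omega))
    simp only [lam, ← hB] at hl
    rw [← hB] at h1
    simp only [pc, hBA]
    omega
  have hBe : B ⊆ U.erase e := by rw [hB]; exact Finset.sdiff_subset
  by_cases hcase : ∃ t ∈ A, r (A.erase t) = r A ∧ pc r B {t} = 0
  · obtain ⟨t, ht, ht1, ht2⟩ := hcase
    have htU : t ∈ U := Finset.mem_of_mem_erase (hA ht)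
    have f1 := F.keep_del hN hr hAB hl1 (by rw [hABU]; exact hS) (by rw [hABU]; exact hK) hSK hNN
      hSA ht ht1
    have f2 := F.keep_con hN hr hAB hl1 (by rw [hABU]; exact hS) (by rw [hABU]; exact hK) hSK hNN
      hSA ht ht2
    rw [hABU] at f1 f2
    have hsub : (U.erase e).erase t ⊆ U.erase t := Finset.erase_subset_erase t (Finset.erase_subset _ _)
    have g1 : F NN (U.erase t) r := f1.of_subset hsub
    have g2 : F NN (U.erase t) (con r {t}) := f2.of_subset hsub
    rcases bixby hr h3 htU with hb | hb
    · exact ⟨t, htU, Or.inl ⟨hb, g1⟩⟩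
    · exact ⟨t, htU, Or.inr ⟨hb, g2⟩⟩
  · push Not at hcase
    -- the set C of points of A in the closure of B
    have hsing : ∀ t ∈ A, r {t} = 1 := fun t ht =>
      (h3.conn.single hr (by omega) (Finset.mem_of_mem_erase (hA ht))).1
    obtain ⟨C, hC⟩ : ∃ C, C = A.filter (fun t => pc r B {t} ≠ 0) := ⟨_, rfl⟩
    have hCA : C ⊆ A := by rw [hC]; exact Finset.filter_subset _ _
    have hC1 : C.card ≤ 1 := by
      by_contra hh
      obtain ⟨s, hs, t, ht, hst⟩ := Finset.one_lt_card.1 (show 1 < C.card by omega)
      have hs' := Finset.mem_filter.1 (hC ▸ hs)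
      have ht' := Finset.mem_filter.1 (hC ▸ ht)
      have p := (h3.pair hr hU4 (Finset.mem_of_mem_erase (hA hs'.1))
        (Finset.mem_of_mem_erase (hA ht'.1)) hst).1
      have q : pc r B {s, t} ≤ pc r B A := hr.pc_mono (by
        intro z hz
        rcases Finset.mem_insert.1 hz with h | h
        · rw [h]; exact hs'.1
        · rw [Finset.mem_singleton.1 h]; exact ht'.1)
      have s1 := hr.pc_nonneg B {s}
      have t1 := hr.pc_nonneg B {t}
      have s2 := hs'.2
      have t2 := ht'.2
      have s3 := hsing s hs'.1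
      have t3 := hsing t ht'.1
      have u1 : insert s B = B ∪ {s} := by clear * -; grind
      have u2 : insert t B = B ∪ {t} := by clear * -; grind
      have m1 := hr.mono B (B ∪ {s}) Finset.subset_union_left
      have m2 := hr.mono B (B ∪ {t}) Finset.subset_union_left
      simp only [pc] at s1 t1 s2 t2 q hl1
      have v := hr.closure_union (A := B) (C := {s, t}) (by
        intro z hz
        rcases Finset.mem_insert.1 hz with h | h
        · rw [h, u1]; omega
        · rw [Finset.mem_singleton.1 h, u2]; omega)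
      omega
    have hAr : r A = A.card := by
      refine indep_of_coloops hr hCA hC1 (fun t ht => hsing t (hCA ht)) ?_
      intro t ht htC
      have h1 : pc r B {t} = 0 := by
        by_contra hh
        exact htC (by rw [hC]; exact Finset.mem_filter.2 ⟨ht, hh⟩)
      have h2 := hr.mono (A.erase t) A (Finset.erase_subset _ _)
      have h3 : r (A.erase t) ≠ r A := fun hh => hcase t ht hh h1
      omega
    -- A ∪ {e} is a coline
    obtain ⟨a, ha⟩ : A.Nonempty := Finset.card_pos.1 (by omega)
    have haU : a ∈ U := Finset.mem_of_mem_erase (hA ha)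
    have heA : e ∉ A := fun h => (Finset.mem_erase.1 (hA h)).1 rfl
    have hLU : insert e A ⊆ U := by
      intro z hz
      rcases Finset.mem_insert.1 hz with h | h
      · rw [h]; exact he
      · exact Finset.mem_of_mem_erase (hA h)
    have hcomp : U \ insert e A = B := by
      rw [hB]; clear * -; grind
    simp only [pc, hBA] at hl1
    have hcon3 : Conn3 (U.erase a) (con r {a}) := by
      refine coline4 hr h3 hLU ?_ ?_ (Finset.mem_insert_of_mem ha)
      · rw [hcomp, Finset.card_insert_of_notMem heA]; push_cast; omega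
      · rw [Finset.card_insert_of_notMem heA]; omega
    -- keep
    have hpa : pc r B {a} = 0 := by
      obtain ⟨a', ha'⟩ : (A.erase a).Nonempty := by
        rw [← Finset.card_pos, Finset.card_erase_of_mem ha]; omega
      have ha'A : a' ∈ A := Finset.mem_of_mem_erase ha'
      have h1 : r ((U.erase e).erase a') = r (U.erase e) := by
        refine (hce.single hr ?_ (hA ha'A)).2
        rw [Finset.card_erase_of_mem he]; omega
      have h2 := hr.union_le_card (B ∪ {a}) ((A.erase a).erase a')
      have h4 := hr.mono ((U.erase e).erase a') (B ∪ {a} ∪ (A.erase a).erase a') (by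
        rw [← hABU]; clear * -; intro z hz; grind)
      rw [Finset.card_erase_of_mem ha', Finset.card_erase_of_mem ha] at h2
      have h5 := hr.pc_nonneg B {a}
      have h6 := hsing a ha
      simp only [pc] at h5 ⊢
      omega
    have hl1' : pc r B A = 1 := by simp only [pc, hBA]; omega
    have f2 := F.keep_con hN hr hAB hl1' (by rw [hABU]; exact hS) (by rw [hABU]; exact hK) hSK hNN
      hSA ha hpa
    rw [hABU] at f2
    have hsub : (U.erase e).erase a ⊆ U.erase a := Finset.erase_subset_erase a (Finset.erase_subset _ _)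
    exact ⟨a, haU, Or.inr ⟨hcon3.bix, f2.of_subset hsub⟩⟩

theorem W1C.of_dl (hN : NNax NN) (hr : RK r) (h : W1C NN U (QU.dl U r)) : W1C NN U r := by
  obtain ⟨t, ht, h | h⟩ := h
  · exact ⟨t, ht, Or.inr ⟨h.1.dual_del hr ht, h.2.dual_del hr ht hN⟩⟩
  · exact ⟨t, ht, Or.inl ⟨h.1.dual_con hr ht, h.2.dual_con hr ht hN⟩⟩

theorem W1 (hN : NNax NN) (hr : RK r) (h3 : Conn3 U r) (hF : F NN U r) (hn : ¬ NN U r) :
    W1C NN U r := by
  obtain ⟨e, he, h | h⟩ := hF.proper hN hr hn
  · exact W1_del hN hr h3 he h
  · exact (W1_del hN (hr.dl U) (h3.dl hr) he (h.to_dual_del hr he hN)).of_dl hN hr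

end Pool.Agent.QU
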