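import Pool.Agent.QU.W1

set_option linter.unusedVariables false
set_option linter.unusedSectionVars false
set_option linter.style.longLine false

/-! Lemma W2. -/

namespace Pool.Agent.QU

variable {α : Type*} [DecidableEq α] {U : Finset α} {r : Finset α → ℤ}
variable {NN : Finset α → (Finset α → ℤ) → Prop}

theorem F.del_par (hN : NNax NN) (hr : RK r) (hc : Conn U r) {s t : α} (hs : s ∈ U) (ht : t ∈ U)
    (hst : s ≠ t) (hp : r {s, t} = 1) (hF : F NN U r) : F NN (U.erase s) r := by
  have hU4 := hF.card_le hN
  obtain ⟨S, K, hS, hK, hSK, hNN⟩ := hF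
  have hA : ({s, t} : Finset α) ⊆ U := by clear * - hs ht; grind
  have hA2 : ({s, t} : Finset α).card = 2 := Finset.card_pair hst
  have hcd := card_compl hA
  have h1 := hc.one_le hA (by simp) (Finset.card_pos.1 (by omega))
  have h2 := hr.mono (U \ {s, t}) U Finset.sdiff_subset
  have hl : lam U r {s, t} ≤ 1 := by simp only [lam]; omega
  have hSA : (S ∩ {s, t}).card ≤ 1 := by
    rcases small_side hN hr hS hK hNN hA hl with h | h
    · exact h
    · have h5 := card_inter_compl {s, t} hS
      have h6 := hN.card _ _ hNN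
      have h7 : (S ∩ {s, t}).card ≤ 2 := by
        rw [← hA2]; exact Finset.card_le_card Finset.inter_subset_right
      omega
  have hun : ({s, t} : Finset α) ∪ (U \ {s, t}) = U := Finset.union_sdiff_of_subset hA
  have hun' : (U \ {s, t}) ∪ ({s, t} : Finset α) = U := by rw [Finset.union_comm]; exact hun
  have := F.keep_del hN hr (A := {s, t}) (B := U \ {s, t}) Finset.disjoint_sdiff
    (by simp only [pc, hun']; omega) (by rw [hun]; exact hS) (by rw [hun]; exact hK) hSK hNN hSA
    (t := s) (by simp) (by
      have e : ({s, t} : Finset α).erase s = {t} := by clear * - hst; grind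
      rw [e, hp]; exact (hc.single hr (by omega) ht).1)
  rw [hun] at this
  exact this

theorem dl_pair {s t : α} (hst : s ≠ t) : dl U r {s, t} = 2 + r (U \ {s, t}) - r U := by
  simp only [dl, Finset.card_pair hst]; push_cast; ring

theorem F.con_ser (hN : NNax NN) (hr : RK r) (hc : Conn U r) {s t : α} (hs : s ∈ U) (ht : t ∈ U)
    (hst : s ≠ t) (hp : r (U \ {s, t}) = r U - 1) (hF : F NN U r) :
    F NN (U.erase s) (con r {s}) :=
  (F.del_par hN (hr.dl U) (hc.dl hr) hs ht hst (by rw [dl_pair hst, hp]; ring)
    (hF.dl hN hr)).dual_del hr hs hN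

theorem series_lift (hr : RK r) (hc : Conn U r) {a b : α} (ha : a ∈ U) (hb : b ∈ U) (hab : a ≠ b)
    (hs : r (U \ {a, b}) = r U - 1) {P : Finset α} (hP : P ⊆ U.erase a) (hbP : b ∈ P) :
    lam (U.erase a) (con r {a}) P = lam U r (insert a P) := by
  have hU2 : 2 ≤ U.card := by
    rw [← Finset.card_pair hab]; exact Finset.card_le_card (by clear * - ha hb; grind)
  have h1 := (hc.single hr hU2 ha).1
  have h2 := (hc.single hr hU2 hb).2
  simp only [lam, con_single, h1]
  have e1 : insert a (U.erase a) = U := Finset.insert_erase ha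
  have e2 : U \ insert a P = U.erase a \ P := by clear * -; grind
  rw [e1, e2]
  have h3 := hr.sub' (A := insert a (U.erase a \ P)) (B := U \ {a, b}) (C := U.erase b)
    (D := U.erase a \ P) (by clear * - hab ha; intro z hz; grind) (by clear * - hP hbP; intro z hz; grind)
  have h4 := hr.step (U.erase a \ P) a
  omega

/-- contraction of a series pair, when it is the only one -/
theorem SP (hr : RK r) (hc : Conn U r) (hB : Bix U r) {a b : α} (ha : a ∈ U) (hb : b ∈ U)
    (hab : a ≠ b) (hsim : ∀ p ∈ U, ∀ q ∈ U, p ≠ q → r {p, q} = 2)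
    (hs : r (U \ {a, b}) = r U - 1)
    (huniq : ∀ p ∈ U, ∀ q ∈ U, p ≠ q → p ≠ a → p ≠ b → q ≠ a → q ≠ b → r (U \ {p, q}) = r U) :
    Conn3 (U.erase a) (con r {a}) := by
  have key : ∀ P, P ⊆ U.erase a → b ∈ P →
      (lam (U.erase a) (con r {a}) P ≤ 0 → P = U.erase a) ∧
      (lam (U.erase a) (con r {a}) P ≤ 1 → P.card ≤ 1 ∨ (U.erase a \ P).card ≤ 1) := by
    intro P hP hbP
    have hlift := series_lift hr hc ha hb hab hs hP hbP
    have haP : a ∉ P := fun h => (Finset.mem_erase.1 (hP h)).1 rfl
    have hsub : insert a P ⊆ U := by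
      intro z hz
      rcases Finset.mem_insert.1 hz with h | h
      · rw [h]; exact ha
      · exact Finset.mem_of_mem_erase (hP h)
    have e2 : U \ insert a P = U.erase a \ P := by clear * -; grind
    constructor
    · intro hl
      rw [hlift] at hl
      rcases hc _ hsub hl with h | h
      · exact absurd h (Finset.insert_ne_empty a P)
      · rw [← h, Finset.erase_insert haP]
    · intro hl
      rw [hlift] at hl
      rcases hB _ hsub hl with h | h
      · rw [Finset.card_insert_of_notMem haP] at h; left; omega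
      · rw [e2] at h
        by_contra hcon
        push Not at hcon
        obtain ⟨p, q, hpq, hQ⟩ := Finset.card_eq_two.1 (show (U.erase a \ P).card = 2 by omega)
        have hp : p ∈ U.erase a \ P := by rw [hQ]; simp
        have hq : q ∈ U.erase a \ P := by rw [hQ]; simp
        have hpb : p ≠ b := by rintro rfl; exact (Finset.mem_sdiff.1 hp).2 hbP
        have hqb : q ≠ b := by rintro rfl; exact (Finset.mem_sdiff.1 hq).2 hbP
        have hp' := Finset.mem_erase.1 (Finset.mem_sdiff.1 hp).1
        have hq' := Finset.mem_erase.1 (Finset.mem_sdiff.1 hq).1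
        have h1 := huniq p hp'.2 q hq'.2 hpq hp'.1 hpb hq'.1 hqb
        have h2 := hsim p hp'.2 q hq'.2 hpq
        simp only [lam, e2] at hl
        have e3 : insert a P = U \ {p, q} := by
          rw [← hQ]; clear * - hP ha; grind
        rw [e3, hQ] at hl
        omega
  have hcompl : ∀ P, P ⊆ U.erase a → b ∉ P → b ∈ U.erase a \ P := by
    intro P hP hbP
    exact Finset.mem_sdiff.2 ⟨Finset.mem_erase.2 ⟨hab.symm, hb⟩, hbP⟩
  constructor
  · intro P hP hl
    by_cases hbP : b ∈ P
    · right; exact (key P hP hbP).1 hl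
    · left
      have := (key (U.erase a \ P) Finset.sdiff_subset (hcompl P hP hbP)).1
        (by rw [lam_compl _ _ hP]; exact hl)
      rw [← Finset.sdiff_sdiff_eq_self hP, this, Finset.sdiff_self]
  · intro P hP hl
    by_cases hbP : b ∈ P
    · exact (key P hP hbP).2 hl
    · have := (key (U.erase a \ P) Finset.sdiff_subset (hcompl P hP hbP)).2
        (by rw [lam_compl _ _ hP]; exact hl)
      rw [Finset.sdiff_sdiff_eq_self hP] at this
      exact this.symm

/-- deletion from a parallel pair, when it is the only one -/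
theorem SPd (hr : RK r) (hc : Conn U r) (hB : Bix U r) {a b : α} (ha : a ∈ U) (hb : b ∈ U)
    (hab : a ≠ b) (hsim : ∀ p ∈ U, ∀ q ∈ U, p ≠ q → r (U \ {p, q}) = r U)
    (hs : r {a, b} = 1)
    (huniq : ∀ p ∈ U, ∀ q ∈ U, p ≠ q → p ≠ a → p ≠ b → q ≠ a → q ≠ b → r {p, q} = 2) :
    Conn3 (U.erase a) r := by
  have hU : dl U r U = U.card - r U := by simp [dl, hr.empty]
  have hd : ∀ p ∈ U, ∀ q ∈ U, p ≠ q → dl U r (U \ {p, q}) = U.card - 2 + r {p, q} - r U := by
    intro p hp q hq hpq
    have hsub : ({p, q} : Finset α) ⊆ U := by clear * - hp hq; grind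
    have h1 := card_compl hsub
    rw [Finset.card_pair hpq] at h1
    simp only [dl, Finset.sdiff_sdiff_eq_self hsub]
    omega
  refine (SP (hr.dl U) (hc.dl hr) (hB.dl hr) ha hb hab ?_ ?_ ?_).dual_con hr ha
  · intro p hp q hq hpq
    rw [dl_pair hpq, hsim p hp q hq hpq]; ring
  · rw [hd a ha b hb hab, hU, hs]; ring
  · intro p hp q hq hpq h1 h2 h3 h4
    rw [hd p hp q hq hpq, hU, huniq p hp q hq hpq h1 h2 h3 h4]; ring

/-- conclusion of W2 -/
def W2C (NN : Finset α → (Finset α → ℤ) → Prop) (U : Finset α) (r : Finset α → ℤ) : Prop :=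
  (∃ x ∈ U, Conn3 (U.erase x) r ∧ F NN (U.erase x) r) ∨
  (∃ x ∈ U, Conn3 (U.erase x) (con r {x}) ∧ F NN (U.erase x) (con r {x})) ∨
  (∃ x ∈ U, ∃ a ∈ U, ∃ b ∈ U, x ≠ a ∧ x ≠ b ∧ a ≠ b ∧ r (U \ {x, a, b}) = r U - 1 ∧
    Conn3 ((U.erase x).erase a) (con r {a}) ∧ F NN ((U.erase x).erase a) (con r {a})) ∨
  (∃ x ∈ U, ∃ a ∈ U, ∃ b ∈ U, x ≠ a ∧ x ≠ b ∧ a ≠ b ∧ r {x, a, b} = 2 ∧
    Conn3 ((U.erase x).erase a) (con r {x}) ∧ F NN ((U.erase x).erase a) (con r {x}))

theorem dual_minor1 (hr : RK r) {x a : α} (hx : x ∈ U) (ha : a ∈ U) (hxa : x ≠ a)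
    {A : Finset α} (hA : A ⊆ (U.erase x).erase a) :
    con (dl U r) {a} A = dl ((U.erase x).erase a) (con r {x}) A := by
  have ha' : a ∈ U.erase x := Finset.mem_erase.2 ⟨hxa.symm, ha⟩
  rw [← dl_erase (U.erase x) (con r {x}) ha' hA]
  have hA' := hA.trans (Finset.erase_subset _ _)
  rw [con_single, con_single, dl_con U r hx (A := insert a A), dl_con U r hx (A := {a})]
  · simpa using ha'
  · intro z hz
    rcases Finset.mem_insert.1 hz with h | h
    · rw [h]; exact ha'
    · exact hA' h

theorem dual_minor2 (hr : RK r) {x a : α} (hx : x ∈ U) (ha : a ∈ U) (hxa : x ≠ a)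
    {A : Finset α} (hA : A ⊆ (U.erase x).erase a) :
    con (dl U r) {x} A = dl ((U.erase x).erase a) (con r {a}) A := by
  have ha' : a ∈ U.erase x := Finset.mem_erase.2 ⟨hxa.symm, ha⟩
  rw [dl_erase U r hx (hA.trans (Finset.erase_subset _ _)), dl_con (U.erase x) r ha' hA]

theorem W2C.of_dl (hN : NNax NN) (hr : RK r) (h : W2C NN U (QU.dl U r)) : W2C NN U r := by
  have hU : dl U r U = U.card - r U := by simp [dl, hr.empty]
  rcases h with ⟨x, hx, h1, h2⟩ | ⟨x, hx, h1, h2⟩ | ⟨x, hx, a, ha, b, hb, hxa, hxb, hab, ht, h1, h2⟩ |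
    ⟨x, hx, a, ha, b, hb, hxa, hxb, hab, ht, h1, h2⟩
  · exact Or.inr (Or.inl ⟨x, hx, h1.dual_del hr hx, h2.dual_del hr hx hN⟩)
  · exact Or.inl ⟨x, hx, h1.dual_con hr hx, h2.dual_con hr hx hN⟩
  · refine Or.inr (Or.inr (Or.inr ⟨x, hx, a, ha, b, hb, hxa, hxb, hab, ?_, ?_, ?_⟩))
    · have hsub : ({x, a, b} : Finset α) ⊆ U := by clear * - hx ha hb; grind
      have hc3 : ({x, a, b} : Finset α).card = 3 := by clear * - hxa hxb hab; grind
      have h3 := card_compl hsub
      rw [hU] at ht
      simp only [dl, Finset.sdiff_sdiff_eq_self hsub] at ht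
      omega
    · exact Conn3.of_dl (hr.con {x}) (h1.congr (fun A hA => dual_minor1 hr hx ha hxa hA))
    · exact F.of_dl hN (hr.con {x}) (h2.congr hN (fun A hA => dual_minor1 hr hx ha hxa hA))
  · refine Or.inr (Or.inr (Or.inl ⟨x, hx, a, ha, b, hb, hxa, hxb, hab, ?_, ?_, ?_⟩))
    · have hc3 : ({x, a, b} : Finset α).card = 3 := by clear * - hxa hxb hab; grind
      simp only [dl, hc3] at ht
      push_cast at ht
      omega
    · exact Conn3.of_dl (hr.con {a}) (h1.congr (fun A hA => dual_minor2 hr hx ha hxa hA))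
    · exact F.of_dl hN (hr.con {a}) (h2.congr hN (fun A hA => dual_minor2 hr hx ha hxa hA))

section aux

variable (hN : NNax NN) (hr : RK r) (h3 : Conn3 U r) (hU5 : 5 ≤ U.card) {x : α} (hx : x ∈ U)

include hr h3 hU5 hx

/-- a 2-separating pair of `M \ x` is a series pair -/
theorem ser_of_lam {s t : α} (hs : s ∈ U.erase x) (ht : t ∈ U.erase x) (hst : s ≠ t)
    (hl : lam (U.erase x) r {s, t} ≤ 1) : r (U \ {x, s, t}) = r U - 1 := by
  have hs' := Finset.mem_erase.1 hs
  have ht' := Finset.mem_erase.1 ht
  have h1 := (h3.pair hr (by omega) hs'.2 ht'.2 hst).1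
  have h2 := (h3.pair hr (by omega) hx hs'.2 hs'.1.symm).2
  have h4 := (h3.conn.single hr (by omega) hx).2
  have e1 : U.erase x \ {s, t} = U \ {x, s, t} := by clear * -; grind
  have e2 : (U \ {x, s}).erase t = U \ {x, s, t} := by clear * -; grind
  have h5 := hr.erase_le (U \ {x, s}) t
  rw [e2] at h5
  simp only [lam, e1] at hl
  omega

theorem ser_symm {s t : α} : r (U \ {x, s, t}) = r (U \ {x, t, s}) := by
  congr 1; clear * -; grind

include hN

/-- from a series pair of `M \ x`, contraction keeps `F` -/
theorem F_ser (hF : F NN (U.erase x) r) {s t : α} (hs : s ∈ U.erase x) (ht : t ∈ U.erase x)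
    (hst : s ≠ t) (hser : r (U \ {x, s, t}) = r U - 1) :
    F NN ((U.erase x).erase s) (con r {s}) := by
  have hc := h3.conn_del hr (by omega) hx
  have h4 := (h3.conn.single hr (by omega) hx).2
  refine F.con_ser hN hr hc hs ht hst ?_ hF
  have e1 : U.erase x \ {s, t} = U \ {x, s, t} := by clear * -; grind
  rw [e1]; omega

/-- three elements in series in `M \ x` -/
theorem ser3 (hF : F NN (U.erase x) r) {s t u : α} (hs : s ∈ U.erase x) (ht : t ∈ U.erase x)
    (hu : u ∈ U.erase x) (hst : s ≠ t) (hsu : s ≠ u) (htu : t ≠ u)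
    (h1 : r (U \ {x, s, t}) = r U - 1) (h2 : r (U \ {x, s, u}) = r U - 1) : W2C NN U r := by
  have hs' := Finset.mem_erase.1 hs
  have ht' := Finset.mem_erase.1 ht
  have hu' := Finset.mem_erase.1 hu
  have f1 := F_ser hN hr h3 hU5 hx hF hs ht hst h1
  refine Or.inr (Or.inl ⟨s, hs'.2, ?_, f1.of_subset (Finset.erase_subset_erase s (Finset.erase_subset _ _))⟩)
  have hc4 : ({x, s, t, u} : Finset α).card = 4 := by
    clear * - hst hsu htu hs' ht' hu'; grind
  refine coline4 hr h3 (L := {x, s, t, u}) (by clear * - hx hs' ht' hu'; grind) ?_ (by omega)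
    (by clear * -; grind)
  have h5 := hr.sub' (A := U \ {x, s, t}) (B := U \ {x, s, u}) (C := U \ {x, s}) (D := U \ {x, s, t, u})
    (by clear * - htu; intro z hz; grind) (by clear * -; intro z hz; grind)
  have h6 := (h3.pair hr (by omega) hx hs'.2 hs'.1.symm).2
  rw [hc4]; push_cast; omega

/-- the main case of W2 -/
theorem W2_bad (hB : Bix (U.erase x) r) (hF : F NN (U.erase x) r)
    (hno : ∀ s ∈ U.erase x, ∀ t ∈ U.erase x, ∀ u ∈ U.erase x, s ≠ t → s ≠ u → t ≠ u →
      r (U \ {x, s, t}) = r U - 1 → r (U \ {x, s, u}) = r U - 1 → False)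
    {a b c d : α} (ha : a ∈ U.erase x) (hb : b ∈ U.erase x) (hc : c ∈ U.erase x)
    (hd : d ∈ U.erase x) (hab : a ≠ b) (hcd : c ≠ d) (hac : a ≠ c) (had : a ≠ d) (hbc : b ≠ c)
    (hbd : b ≠ d) (hsab : r (U \ {x, a, b}) = r U - 1) (hscd : r (U \ {x, c, d}) = r U - 1)
    (hacl : r (insert a {x, c, d}) ≠ r {x, c, d}) : W2C NN U r := by
  have ha' := Finset.mem_erase.1 ha
  have hb' := Finset.mem_erase.1 hb
  have hc' := Finset.mem_erase.1 hc
  have hd' := Finset.mem_erase.1 hd
  have f1 := F_ser hN hr h3 hU5 hx hF ha hb hab hsab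
  have f2 : F NN (U.erase a) (con r {a}) :=
    f1.of_subset (Finset.erase_subset_erase a (Finset.erase_subset _ _))
  have hcx := h3.conn_del hr (by omega) hx
  have hca := h3.conn_con hr (by omega) ha'.2
  have rUx := (h3.conn.single hr (by omega) hx).2
  have ra := (h3.conn.single hr (by omega) ha'.2).1
  have hpair : ∀ p ∈ U, ∀ q ∈ U, p ≠ q → r {p, q} = 2 ∧ r (U \ {p, q}) = r U :=
    fun p hp q hq hpq => h3.pair hr (by omega) hp hq hpq
  -- `a` is not in the closure of `H1 = U \ {x,a,b}`
  have hH1 : ∀ X, X ⊆ U \ {x, a, b} → r (insert a X) = r X + 1 := by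
    intro X hX
    have h1 := hr.step X a
    have h2 := hr.mono X (insert a X) (Finset.subset_insert _ _)
    by_contra hh
    have h4 := hr.closure_mono hX (e := a) (by omega)
    have e : insert a (U \ {x, a, b}) = U \ {x, b} := by
      have := ha'.1; have := ha'.2; clear * - hab ha'; grind
    rw [e] at h4
    have := (hpair x hx b hb'.2 hb'.1.symm).2
    omega
  -- `x` is not in the closure of `H2 = U \ {x,c,d}`
  have hH2 : ∀ X, X ⊆ U \ {x, c, d} → r (insert x X) = r X + 1 := by
    intro X hX
    have h1 := hr.step X x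
    have h2 := hr.mono X (insert x X) (Finset.subset_insert _ _)
    by_contra hh
    have h4 := hr.closure_mono hX (e := x) (by omega)
    have e : insert x (U \ {x, c, d}) = U \ {c, d} := by
      clear * - hx hc' hd'; grind
    rw [e] at h4
    have := (hpair c hc'.2 d hd'.2 hcd).2
    omega
  -- Bix of M / a
  have hBa : Bix (U.erase a) (con r {a}) := by
    -- key: side containing b
    have key : ∀ P, P ⊆ U.erase a → b ∈ P → lam (U.erase a) (con r {a}) P ≤ 1 → 3 ≤ P.card →
        3 ≤ (U.erase a \ P).card → False := by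
      intro P hP hbP hl hP3 hQ3
      obtain ⟨Q, hQ⟩ : ∃ Q, Q = U.erase a \ P := ⟨_, rfl⟩
      have hlx : lam ((U.erase x).erase a) (con r {a}) (P.erase x) ≤ 1 := by
        have m := lam_minor (U := U.erase a) (S := (U.erase x).erase a) (K := ∅) (A := P)
          (hr.con {a}) (Finset.erase_subset_erase a (Finset.erase_subset _ _)) (by simp)
        rw [con_empty _ (hr.con {a}).empty] at m
        have e1 : (U.erase x).erase a ∩ P = P.erase x := by clear * - hP; grind
        have e2 : P ∩ U.erase a = P := by clear * - hP; grind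
        rw [e1, e2] at m
        omega
      have hbP' : b ∈ P.erase x := Finset.mem_erase.2 ⟨hb'.1, hbP⟩
      have e1 : U.erase x \ {a, b} = U \ {x, a, b} := by clear * -; grind
      have hsl := series_lift hr hcx ha hb hab (by rw [e1]; omega)
        (P := P.erase x) (by clear * - hP; intro z hz; grind) hbP'
      rw [hsl] at hlx
      have haP : a ∉ P.erase x := by clear * - hP; grind
      have hsub : insert a (P.erase x) ⊆ U.erase x := by
        clear * - hP ha; intro z hz; grind
      have e2 : U.erase x \ insert a (P.erase x) = Q.erase x := by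
        rw [hQ]; clear * - hP; grind
      rcases hB _ hsub hlx with h | h
      · rw [Finset.card_insert_of_notMem haP] at h
        have := Finset.pred_card_le_card_erase (s := P) (a := x)
        omega
      · rw [e2] at h
        rw [← hQ] at hQ3
        have hxQ : x ∈ Q := by
          by_contra hxQ
          rw [Finset.erase_eq_of_notMem hxQ] at h
          omega
        have hQx := Finset.card_erase_of_mem hxQ
        obtain ⟨c', d', hcd', hQe⟩ := Finset.card_eq_two.1 (show (Q.erase x).card = 2 by omega)
        have hc'Q : c' ∈ Q.erase x := by rw [hQe]; simp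
        have hd'Q : d' ∈ Q.erase x := by rw [hQe]; simp
        have hQeq : Q = {x, c', d'} := by
          rw [← Finset.insert_erase hxQ, hQe]
        have hQU : Q ⊆ U.erase a := by rw [hQ]; exact Finset.sdiff_subset
        have hc'1 := Finset.mem_erase.1 hc'Q
        have hd'1 := Finset.mem_erase.1 hd'Q
        have hc'2 := Finset.mem_erase.1 (hQU hc'1.2)
        have hd'2 := Finset.mem_erase.1 (hQU hd'1.2)
        have hc'x : c' ∈ U.erase x := Finset.mem_erase.2 ⟨hc'1.1, hc'2.2⟩
        have hd'x : d' ∈ U.erase x := Finset.mem_erase.2 ⟨hd'1.1, hd'2.2⟩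
        have hbQ : b ∉ Q := by rw [hQ]; clear * - hbP; grind
        have hc'b : c' ≠ b := by rintro rfl; exact hbQ hc'1.2
        have hd'b : d' ≠ b := by rintro rfl; exact hbQ hd'1.2
        -- {c', d'} series in M \ x
        have hser : r (U \ {x, c', d'}) = r U - 1 := by
          refine ser_of_lam hr h3 hU5 hx hc'x hd'x hcd' ?_
          rw [← hQe, ← e2, lam_compl _ _ hsub]; exact hlx
        -- a in closure of Q
        have e3 : insert a P = U \ Q := by rw [hQ]; have := ha'.2; clear * - hP this; grind
        have hQU' : Q ⊆ U := hQU.trans (Finset.erase_subset _ _)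
        have hcl : r (insert a Q) = 3 ∧ r Q = 3 := by
          simp only [lam, con_single, ra] at hl
          rw [← hQ, Finset.insert_erase ha'.2, e3] at hl
          have h5 := h3.two_le hQU' (by omega) (by
            rw [← e3]
            have := Finset.card_le_card (Finset.subset_insert a P); omega)
          rw [hQeq] at hl h5
          rw [hQeq]
          have h6 := hr.mono {x, c', d'} (insert a {x, c', d'}) (Finset.subset_insert _ _)
          omega
        by_cases hcase : c' = c ∨ c' = d ∨ d' = c ∨ d' = d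
        · -- same pair
          have hQcd : Q = {x, c, d} := by
            rw [hQeq]
            by_contra hne
            rcases hcase with h7 | h7 | h7 | h7
            · subst h7
              have : d' ≠ d := by rintro rfl; exact hne rfl
              exact hno c' hc'x d' hd'x d hd hcd' hcd this hser hscd
            · subst h7
              have : d' ≠ c := by
                rintro rfl; exact hne (by clear * -; grind)
              exact hno c' hc'x d' hd'x c hc hcd' hcd.symm this hser
                (by rw [← ser_symm hr h3 hU5 hx]; exact hscd)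
            · subst h7
              have : c' ≠ d := by
                rintro rfl; exact hne (by clear * -; grind)
              exact hno d' hd'x c' hc'x d hd hcd'.symm hcd this
                (by rw [← ser_symm hr h3 hU5 hx]; exact hser) hscd
            · subst h7
              have : c' ≠ c := by rintro rfl; exact hne rfl
              exact hno d' hd'x c' hc'x c hc hcd'.symm hcd.symm this
                (by rw [← ser_symm hr h3 hU5 hx]; exact hser)
                (by rw [← ser_symm hr h3 hU5 hx]; exact hscd)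
          rw [hQcd] at hcl
          exact hacl (by omega)
        · push Not at hcase
          have g1 := hH1 {c', d'} (by clear * - hc'1 hd'1 hc'2 hd'2 hc'b hd'b; intro z hz; grind)
          have g2 := hH2 {a, c', d'} (by
            clear * - hc'1 hd'1 hc'2 hd'2 hcase ha' hac had; intro z hz; grind)
          have g3 := (hpair c' hc'2.2 d' hd'2.2 hcd').1
          have e4 : insert x {a, c', d'} = insert a Q := by
            rw [hQeq]; clear * -; grind
          rw [e4] at g2
          omega
    intro P hP hl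
    by_contra hcon
    push Not at hcon
    by_cases hbP : b ∈ P
    · exact key P hP hbP hl (by omega) (by omega)
    · refine key (U.erase a \ P) Finset.sdiff_subset ?_ (by rw [lam_compl _ _ hP]; exact hl)
        (by omega) (by rw [Finset.sdiff_sdiff_eq_self hP]; omega)
      exact Finset.mem_sdiff.2 ⟨Finset.mem_erase.2 ⟨hab.symm, hb'.2⟩, hbP⟩
  -- now M / a
  by_cases h3a : Conn3 (U.erase a) (con r {a})
  · exact Or.inr (Or.inl ⟨a, ha'.2, h3a, f2⟩)
  -- pairs in M / a
  have hcos : ∀ p ∈ U.erase a, ∀ q ∈ U.erase a, p ≠ q →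
      con r {a} (U.erase a \ {p, q}) = con r {a} (U.erase a) := by
    intro p hp q hq hpq
    have hp' := Finset.mem_erase.1 hp
    have hq' := Finset.mem_erase.1 hq
    rw [con_single, con_single, Finset.insert_erase ha'.2]
    have e : insert a (U.erase a \ {p, q}) = U \ {p, q} := by
      have := ha'.2; clear * - hp' hq' this; grind
    rw [e, (hpair p hp'.2 q hq'.2 hpq).2]
  -- triangles through a contain b
  have htri : ∀ p ∈ U.erase a, ∀ q ∈ U.erase a, p ≠ q → r {a, p, q} = 2 → p ≠ b → q ≠ b → False := by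
    intro p hp q hq hpq ht hpb hqb
    have hp' := Finset.mem_erase.1 hp
    have hq' := Finset.mem_erase.1 hq
    have hpq2 := (hpair p hp'.2 q hq'.2 hpq).1
    have key : ∀ q, q ∈ U → q ≠ a → q ≠ x → q ≠ b → r {a, x, q} = 2 → False := by
      intro q hq hqa hqx hqb ht
      by_cases hqcd : q = c ∨ q = d
      · have h1 : r (insert a {x, q}) = r {x, q} := by
          rw [(hpair x hx q hq hqx.symm).1]; exact ht
        exact hacl (hr.closure_mono (A := {x, q}) (by clear * - hqcd; intro z hz; grind) h1)
      · push Not at hqcd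
        have h1 := hH2 {a, q} (by clear * - ha' hac had hq hqx hqcd; intro z hz; grind)
        rw [(hpair a ha'.2 q hq hqa.symm).1] at h1
        have e : insert x {a, q} = ({a, x, q} : Finset α) := by clear * -; grind
        rw [e] at h1
        omega
    by_cases hpx : p = x
    · subst hpx
      exact key q hq'.2 hq'.1 hpq.symm hqb ht
    · by_cases hqx : q = x
      · subst hqx
        have e : ({a, p, q} : Finset α) = {a, q, p} := by clear * -; grind
        rw [e] at ht
        exact key p hp'.2 hp'.1 hpx hpb ht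
      · have h1 := hH1 {p, q} (by clear * - hp' hq' hpx hqx hpb hqb; intro z hz; grind)
        omega
  -- find a triangle
  have : ∃ s ∈ U.erase a, s ≠ b ∧ r {a, b, s} = 2 := by
    have hnc : ∃ A, A ⊆ U.erase a ∧ lam (U.erase a) (con r {a}) A ≤ 1 ∧ 2 ≤ A.card ∧
        2 ≤ (U.erase a \ A).card := by
      by_contra hcon
      push Not at hcon
      apply h3a
      refine ⟨hca, fun A hA hl => ?_⟩
      by_cases h : 2 ≤ A.card
      · right; have := hcon A hA hl h; omega
      · left; omega
    obtain ⟨A, hA, hl, hA2, hA2'⟩ := hnc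
    have hpr : ∃ p ∈ U.erase a, ∃ q ∈ U.erase a, p ≠ q ∧ lam (U.erase a) (con r {a}) {p, q} ≤ 1 := by
      rcases hBa A hA hl with h | h
      · obtain ⟨p, q, hpq, hAe⟩ := Finset.card_eq_two.1 (show A.card = 2 by omega)
        exact ⟨p, hA (by rw [hAe]; simp), q, hA (by rw [hAe]; simp), hpq, by rw [← hAe]; exact hl⟩
      · obtain ⟨p, q, hpq, hAe⟩ := Finset.card_eq_two.1 (show (U.erase a \ A).card = 2 by omega)
        refine ⟨p, ?_, q, ?_, hpq, ?_⟩
        · have : p ∈ U.erase a \ A := by rw [hAe]; simp
          exact (Finset.mem_sdiff.1 this).1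
        · have : q ∈ U.erase a \ A := by rw [hAe]; simp
          exact (Finset.mem_sdiff.1 this).1
        · rw [← hAe, lam_compl _ _ hA]; exact hl
    obtain ⟨p, hp, q, hq, hpq, hlpq⟩ := hpr
    have hp' := Finset.mem_erase.1 hp
    have hq' := Finset.mem_erase.1 hq
    simp only [lam] at hlpq
    rw [hcos p hp q hq hpq, con_single, ra] at hlpq
    have h5 := hr.mono {p, q} (insert a {p, q}) (Finset.subset_insert _ _)
    rw [(hpair p hp'.2 q hq'.2 hpq).1] at h5
    have h6 : r {a, p, q} = 2 := by
      have : ({a, p, q} : Finset α) = insert a {p, q} := rfl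
      rw [this]; omega
    by_cases hpb : p = b
    · subst hpb; exact ⟨q, hq, hpq.symm, h6⟩
    · by_cases hqb : q = b
      · subst hqb
        refine ⟨p, hp, hpq, ?_⟩
        have e : ({a, q, p} : Finset α) = {a, p, q} := by clear * -; grind
        rw [e]; exact h6
      · exact (htri p hp q hq hpq h6 hpb hqb).elim
  obtain ⟨s, hs, hsb, hts⟩ := this
  have hs' := Finset.mem_erase.1 hs
  have hbU : b ∈ U.erase a := Finset.mem_erase.2 ⟨hab.symm, hb'.2⟩
  have hpar : con r {a} {s, b} = 1 := by
    rw [con_single, ra]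
    have e : insert a {s, b} = ({a, b, s} : Finset α) := by clear * -; grind
    rw [e, hts]; ring
  have fs : F NN ((U.erase a).erase s) (con r {a}) :=
    F.del_par hN (hr.con {a}) hca hs hbU hsb hpar f2
  by_cases hline : ∃ s' ∈ U.erase a, s' ≠ b ∧ s' ≠ s ∧ r {a, b, s'} = 2
  · obtain ⟨s', hs'1, hs'b, hs's, hts'⟩ := hline
    have hs'2 := Finset.mem_erase.1 hs'1
    left
    refine ⟨s, hs'.2, ?_, ?_⟩
    · refine line4 hr h3 (L := {a, b, s, s'}) (by
        clear * - ha' hb' hs' hs'2; intro z hz; grind) ?_ ?_ (by simp)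
      · have h1 := hr.sub' (A := {a, b, s}) (B := {a, b, s'}) (C := {a, b, s, s'}) (D := {a, b})
          (by clear * -; intro z hz; grind) (by clear * -; intro z hz; grind)
        have h2 := (hpair a ha'.2 b hb'.2 hab).1
        omega
      · have : ({a, b, s, s'} : Finset α).card = 4 := by
          clear * - hab hs' hsb hs'2 hs'b hs's; grind
        omega
    · have e : (U.erase a).erase s = (U.erase s).erase a := Finset.erase_right_comm
      rw [e] at fs
      exact fs.of_con_single (Finset.mem_erase.2 ⟨hs'.1.symm, ha'.2⟩)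
  · push Not at hline
    refine Or.inr (Or.inr (Or.inr ⟨a, ha'.2, s, hs'.2, b, hb'.2, hs'.1.symm, hab, hsb, ?_, ?_, fs⟩))
    · have e : ({a, s, b} : Finset α) = {a, b, s} := by clear * -; grind
      rw [e]; exact hts
    · refine SPd (hr.con {a}) hca hBa hs hbU hsb hcos hpar ?_
      intro p hp q hq hpq hps hpb hqs hqb
      have hp' := Finset.mem_erase.1 hp
      have hq' := Finset.mem_erase.1 hq
      by_contra hne
      have h1 : r {a, p, q} = 2 := by
        have h5 := hr.mono {p, q} (insert a {p, q}) (Finset.subset_insert _ _)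
        rw [(hpair p hp'.2 q hq'.2 hpq).1] at h5
        have h6 := hr.le_card (insert a {p, q})
        have h7 : (insert a {p, q} : Finset α).card ≤ 3 := Finset.card_le_three
        rw [con_single, ra] at hne
        have : ({a, p, q} : Finset α) = insert a {p, q} := rfl
        rw [this]; omega
      exact htri p hp q hq hpq h1 hpb hqb

theorem W2_aux (hB : Bix (U.erase x) r) (hF : F NN (U.erase x) r) : W2C NN U r := by
  by_cases h3x : Conn3 (U.erase x) r
  · exact Or.inl ⟨x, hx, h3x, hF⟩
  have hcx := h3.conn_del hr (by omega) hx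
  have rUx := (h3.conn.single hr (by omega) hx).2
  by_cases hno : ∀ s ∈ U.erase x, ∀ t ∈ U.erase x, ∀ u ∈ U.erase x, s ≠ t → s ≠ u → t ≠ u →
      r (U \ {x, s, t}) = r U - 1 → r (U \ {x, s, u}) = r U - 1 → False
  swap
  · push Not at hno
    obtain ⟨s, hs, t, ht, u, hu, hst, hsu, htu, h1, h2, -⟩ := hno
    exact ser3 hN hr h3 hU5 hx hF hs ht hu hst hsu htu h1 h2
  -- a series pair
  have : ∃ a ∈ U.erase x, ∃ b ∈ U.erase x, a ≠ b ∧ r (U \ {x, a, b}) = r U - 1 := by
    have hnc : ∃ A, A ⊆ U.erase x ∧ lam (U.erase x) r A ≤ 1 ∧ 2 ≤ A.card ∧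
        2 ≤ (U.erase x \ A).card := by
      by_contra hcon
      push Not at hcon
      apply h3x
      refine ⟨hcx, fun A hA hl => ?_⟩
      by_cases h : 2 ≤ A.card
      · right; have := hcon A hA hl h; omega
      · left; omega
    obtain ⟨A, hA, hl, hA2, hA2'⟩ := hnc
    rcases hB A hA hl with h | h
    · obtain ⟨p, q, hpq, hAe⟩ := Finset.card_eq_two.1 (show A.card = 2 by omega)
      have hp := hA (show p ∈ A by rw [hAe]; simp)
      have hq := hA (show q ∈ A by rw [hAe]; simp)
      exact ⟨p, hp, q, hq, hpq, ser_of_lam hr h3 hU5 hx hp hq hpq (by rw [← hAe]; exact hl)⟩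
    · obtain ⟨p, q, hpq, hAe⟩ := Finset.card_eq_two.1 (show (U.erase x \ A).card = 2 by omega)
      have hp : p ∈ U.erase x := by
        have : p ∈ U.erase x \ A := by rw [hAe]; simp
        exact (Finset.mem_sdiff.1 this).1
      have hq : q ∈ U.erase x := by
        have : q ∈ U.erase x \ A := by rw [hAe]; simp
        exact (Finset.mem_sdiff.1 this).1
      exact ⟨p, hp, q, hq, hpq, ser_of_lam hr h3 hU5 hx hp hq hpq (by
        rw [← hAe, lam_compl _ _ hA]; exact hl)⟩
  obtain ⟨a, ha, b, hb, hab, hsab⟩ := this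
  have ha' := Finset.mem_erase.1 ha
  have hb' := Finset.mem_erase.1 hb
  by_cases hcd : ∃ c ∈ U.erase x, ∃ d ∈ U.erase x, c ≠ d ∧ c ≠ a ∧ c ≠ b ∧ d ≠ a ∧ d ≠ b ∧
      r (U \ {x, c, d}) ≠ r U
  · obtain ⟨c, hc, d, hd, hcd, hca, hcb, hda, hdb, hscd⟩ := hcd
    have hc' := Finset.mem_erase.1 hc
    have hd' := Finset.mem_erase.1 hd
    have hscd' : r (U \ {x, c, d}) = r U - 1 := by
      have h2 := (h3.pair hr (by omega) hx hc'.2 hc'.1.symm).2
      have e2 : (U \ {x, c}).erase d = U \ {x, c, d} := by clear * -; grind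
      have h5 := hr.erase_le (U \ {x, c}) d
      have h6 := hr.mono (U \ {x, c, d}) U Finset.sdiff_subset
      rw [e2] at h5
      omega
    -- |U| ≥ 7
    have hU7 : 7 ≤ U.card := by
      obtain ⟨S, K, hS, hK, hSK, hNN⟩ := hF
      have hS4 := hN.card _ _ hNN
      have small : ∀ p q, p ∈ U.erase x → q ∈ U.erase x → p ≠ q → r (U \ {x, p, q}) = r U - 1 →
          ∃ y, (y = p ∨ y = q) ∧ y ∉ S := by
        intro p q hp hq hpq hs
        have hA : ({p, q} : Finset α) ⊆ U.erase x := by clear * - hp hq; grind
        have e1 : U.erase x \ {p, q} = U \ {x, p, q} := by clear * -; grind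
        have hle := hr.le_card {p, q}
        rw [Finset.card_pair hpq] at hle
        have hl : lam (U.erase x) r {p, q} ≤ 1 := by
          simp only [lam, e1]; push_cast at hle; omega
        have hSA : (S ∩ {p, q}).card ≤ 1 := by
          rcases small_side hN hr hS hK hNN hA hl with h | h
          · exact h
          · have h5 := card_inter_compl {p, q} hS
            have h7 : (S ∩ {p, q}).card ≤ 2 := by
              rw [← Finset.card_pair hpq]; exact Finset.card_le_card Finset.inter_subset_right
            omega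
        by_contra hcon
        push Not at hcon
        have h1 := hcon p (Or.inl rfl)
        have h2 := hcon q (Or.inr rfl)
        have : ({p, q} : Finset α) ⊆ S ∩ {p, q} := by clear * - h1 h2; intro z hz; grind
        have := Finset.card_le_card this
        rw [Finset.card_pair hpq] at this
        omega
      obtain ⟨y, hy, hyS⟩ := small a b ha hb hab hsab
      obtain ⟨z, hz, hzS⟩ := small c d hc hd hcd hscd'
      have hxS : x ∉ S := fun h => (Finset.mem_erase.1 (hS h)).1 rfl
      have hyU : y ∈ U.erase x := by rcases hy with h | h <;> rw [h] <;> assumption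
      have hzU : z ∈ U.erase x := by rcases hz with h | h <;> rw [h] <;> assumption
      have hyz : y ≠ z := by
        rcases hy with h | h <;> rcases hz with h' | h' <;> rw [h, h']
        · exact hca.symm
        · exact hda.symm
        · exact hcb.symm
        · exact hdb.symm
      have hsub : S ∪ {x, y, z} ⊆ U := by
        intro w hw
        rcases Finset.mem_union.1 hw with h | h
        · exact Finset.mem_of_mem_erase (hS h)
        · clear * - h hx hyU hzU; grind
      have hdis : Disjoint S {x, y, z} := by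
        rw [Finset.disjoint_left]
        intro w hw hw'
        simp only [Finset.mem_insert, Finset.mem_singleton] at hw'
        rcases hw' with h | h | h
        · exact hxS (h ▸ hw)
        · exact hyS (h ▸ hw)
        · exact hzS (h ▸ hw)
      have h8 := Finset.card_le_card hsub
      rw [Finset.card_union_of_disjoint hdis] at h8
      have h9 : ({x, y, z} : Finset α).card = 3 := by
        have h10 := (Finset.mem_erase.1 hyU).1
        have h11 := (Finset.mem_erase.1 hzU).1
        clear * - h10 h11 hyz; grind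
      omega
    -- not both a and b in the closure of {x,c,d}
    by_cases hacl : r (insert a {x, c, d}) = r {x, c, d}
    · by_cases hbcl : r (insert b {x, c, d}) = r {x, c, d}
      · exfalso
        have h1 := hr.closure_union (A := {x, c, d}) (C := {a, b}) (by
          intro z hz
          rcases Finset.mem_insert.1 hz with h | h
          · rw [h]; exact hacl
          · rw [Finset.mem_singleton.1 h]; exact hbcl)
        have h2 := hr.le_card {x, c, d}
        have h4 : ({x, c, d} : Finset α).card ≤ 3 := Finset.card_le_three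
        have hZ : ({x, c, d} ∪ {a, b} : Finset α) ⊆ U := by
          clear * - hx ha' hb' hc' hd'; intro z hz; grind
        have hZc : ({x, c, d} ∪ {a, b} : Finset α).card = 5 := by
          have e : ({x, c, d} ∪ {a, b} : Finset α) = {x, c, d, a, b} := by clear * -; grind
          rw [e]
          clear * - ha' hb' hc' hd' hab hcd hca hcb hda hdb; grind
        have h5 := card_compl hZ
        have h6 := h3.two_le hZ (by omega) (by omega)
        have h7 := hr.sub' (A := U \ {x, a, b}) (B := U \ {x, c, d}) (C := U.erase x)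
          (D := U \ ({x, c, d} ∪ {a, b})) (by
            clear * - hca hcb hda hdb; intro z hz; grind) (by clear * -; intro z hz; grind)
        omega
      · exact W2_bad hN hr h3 hU5 hx hB hF hno hb ha hc hd hab.symm hcd hcb.symm hdb.symm hca.symm
          hda.symm (by rw [← ser_symm hr h3 hU5 hx]; exact hsab) hscd' hbcl
    · exact W2_bad hN hr h3 hU5 hx hB hF hno ha hb hc hd hab hcd hca.symm hda.symm hcb.symm
        hdb.symm hsab hscd' hacl
  · push Not at hcd
    refine Or.inr (Or.inr (Or.inl ⟨x, hx, a, ha'.2, b, hb'.2, ha'.1.symm, hb'.1.symm, hab, hsab, ?_,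
      F_ser hN hr h3 hU5 hx hF ha hb hab hsab⟩))
    refine SP hr hcx hB ha hb hab ?_ ?_ ?_
    · intro p hp q hq hpq
      exact (h3.pair hr (by omega) (Finset.mem_of_mem_erase hp) (Finset.mem_of_mem_erase hq) hpq).1
    · have e1 : U.erase x \ {a, b} = U \ {x, a, b} := by clear * -; grind
      rw [e1]; omega
    · intro p hp q hq hpq h1 h2 h4 h5
      have e1 : U.erase x \ {p, q} = U \ {x, p, q} := by clear * -; grind
      rw [e1, hcd p hp q hq hpq h1 h2 h4 h5, rUx]

end aux

theorem W2 (hN : NNax NN) (hr : RK r) (h3 : Conn3 U r) (hF : F NN U r) (hn : ¬ NN U r) :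
    W2C NN U r := by
  obtain ⟨t, ht, ⟨hB, hFt⟩ | ⟨hB, hFt⟩⟩ := W1 hN hr h3 hF hn
  · have := hFt.card_le hN
    rw [Finset.card_erase_of_mem ht] at this
    exact W2_aux hN hr h3 (by omega) ht hB hFt
  · have := hFt.card_le hN
    rw [Finset.card_erase_of_mem ht] at this
    exact (W2_aux hN (hr.dl U) (h3.dl hr) (by omega) ht (hB.to_dual_del hr ht)
      (hFt.to_dual_del hr ht hN)).of_dl hN hr

end Pool.Agent.QU
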